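import Pool.Agent.A1C.D2F

/-!
# D2G: existence of a good toral path (D2b)

`Ψ(Ω_G)` has rank at least `3 c + 2 κ - 2 δ = 3 c = rk G` (`fibre_le`, `rk_Om`, `rk_OmG`, `rk_K_eq`, `rk_le_image_add`, `S.rk_univ_eq`), so it is generic in the
irreducible set `G` (`Irr.ev_of_rk`).  For generic `g ∈ G`, `i ≠ iv g` and `Tor i (iv g)` (`S.ev_tor_of` for `j = i` and `S.ev_invs_iff`; definability of `Tor`: `dfP_tor`).
So there is `q ∈ Ω_G` such that `g = Ψ q` has both properties (`Filter.Eventually.and`, `ev_exists`).  Then `u = α c'`, `u0 = 1`, `u2 = g`; use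
`good_adj`, `good_path`.  In the conclusion everything is translated by `u⁻¹` on the right: `u0 = u⁻¹`, `u2 = g u⁻¹` (`iv_mul_right`, `Adj.mul_right`, `tor_cj`).
-/

namespace Pool.Agent.A1C

universe u

variable {M : Type u} [Univ M] {G : Type u} [Group G] [DGrp M G]

namespace FldData

variable {S : Setup G} (A : FldData S)

private theorem D2G_image (h : rk (A.D : Set G) < rk (S.C : Set G)) :
    ∀ᶠ g in gen (Set.univ : Set G), g ∈ Psi '' A.OmG := by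
  have hdf : Df (Psi '' A.OmG : Set G) := df_Psi.image A.df_OmG
  have h1 : rk A.OmG ≤ rk (Psi '' A.OmG : Set G) + (rk (A.D : Set G) + rk (A.D : Set G)) :=
    rk_le_image_add df_Psi A.df_OmG fun g _ => A.fibre_le g
  rw [A.rk_OmG h, A.rk_Om, A.rk_K_eq] at h1
  have h2 := S.rk_univ_eq
  have h3 := S.rk_C_pos
  refine S.irr.ev_of_rk hdf (by omega) ?_
  have e : {x : G | x ∈ (Set.univ : Set G) ∧ x ∈ (Psi '' A.OmG : Set G)} = Psi '' A.OmG := by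
    ext x
    exact ⟨fun hx => hx.2, fun hx => ⟨trivial, hx⟩⟩
  rw [e]
  omega

private theorem D2G_tor (S : Setup G) :
    ∀ᶠ g in gen (Set.univ : Set G), S.i ≠ g⁻¹ * S.i * g ∧ Tor S.i (g⁻¹ * S.i * g) := by
  have hq : DfP fun z : G × G => z.1 ≠ z.2 ∧ Tor z.1 z.2 :=
    DfP.and (DfP.not (DfP.eq (by fun_prop) (by fun_prop))) Setup.dfP_tor
  have h3 : DfP fun k : G => S.i ≠ k ∧ Tor S.i k :=
    Df.section_left (S := {z : G × G | z.1 ≠ z.2 ∧ Tor z.1 z.2}) hq S.i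
  exact (S.ev_invs_iff h3).1 (S.ev_tor_of S.i_inv)

theorem exists_toral_path (h : rk (A.D : Set G) < rk (S.C : Set G)) :
    ∃ u0 u2 : G, A.Adj 1 u0 ∧ A.Adj 1 u2 ∧ iv S u0 ≠ iv S u2 ∧ Tor (iv S u0) (iv S u2) ∧
      (iv S u0 * iv S u2) * (iv S u0 * iv S u2) ≠ 1 := by
  obtain ⟨g, -, ⟨q, hq, hqg⟩, hne, htor⟩ :=
    ev_exists ⟨1, Set.mem_univ _⟩ ((A.D2G_image h).and (D2G_tor S))
  obtain ⟨⟨hc, ha, hc', hb, hc''⟩, hgood⟩ := hq
  have hqg' : q.2.2.2.2 * q.2.2.2.1 * q.1 * q.2.1 * q.2.2.1 = g := hqg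
  have k1 := A.good_adj ha hb hc hc' hc'' hgood
  have k2 := A.good_path ha hb hc hc' hc'' hgood
  rw [hqg'] at k1 k2
  obtain ⟨u, hu⟩ : ∃ u, u = q.2.1 * q.2.2.1 := ⟨_, rfl⟩
  rw [← hu] at k1 k2
  have e1 := k1.1.mul_right u⁻¹
  have e2 := k1.2.mul_right u⁻¹
  rw [mul_inv_cancel] at e1 e2
  have hi : iv S 1 = S.i := iv_one S
  have hg : iv S g = g⁻¹ * S.i * g := rfl
  refine ⟨1 * u⁻¹, g * u⁻¹, e1, e2, ?_, ?_, ?_⟩
  · rw [iv_mul_right, iv_mul_right, hi, hg]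
    intro h0
    exact hne (mul_left_cancel (mul_right_cancel h0))
  · rw [iv_mul_right, iv_mul_right, tor_cj, hi, hg]
    exact htor
  · rw [iv_mul_right, iv_mul_right]
    intro h0
    apply k2.1
    calc iv S 1 * iv S g * (iv S 1 * iv S g) =
        u⁻¹ * (u⁻¹⁻¹ * iv S 1 * u⁻¹ * (u⁻¹⁻¹ * iv S g * u⁻¹) *
          (u⁻¹⁻¹ * iv S 1 * u⁻¹ * (u⁻¹⁻¹ * iv S g * u⁻¹))) * u := by group
      _ = 1 := by
        rw [h0]
        group

end FldData

end Pool.Agent.A1C
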