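import Pool.Agent.A1C.D2B

/-!
# D2H: the final configuration

Let `u0, u2` be adjacent to `1`, `i0 = iv u0`, `i2 = iv u2`, `l` their pole (`pole_spec`), `r = i0 i2`, `r² ≠ 1`.
`E = A.ch` (values in `C`), `E0 e = A.E u0 e` (a homomorphism by `E_mul`).
`l ≠ i`, `l i ≠ i l`: `not_comm_of_pole` with `u = 1` (`iv_one`).
`z`: `S.tor_sqrt` gives `z₁ ∈ cl l` with `z₁² = i0 i2`, `z₁⁻¹ i0 z₁ = i2`.  Then `iv (u0 z₁) = i2 = iv u2` (`iv_mul_right`), so by `iv_eq_iff`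
`u2 = g (u0 z₁)` with `g ∈ C` or `w g ∈ C`.  In the first case `z = z₁`.  In the second case let `z = z₁ l` (`z² = z₁²` as `l` commutes with `z₁` and `l² = 1`, and
`z ∈ cl l`): `u2 (u0 z₁ l)⁻¹ = g (u0 l u0⁻¹)⁻¹`, and `u0 l u0⁻¹ ∈ pol i` (as `l ∈ pol i0 = pol (u0⁻¹ i u0)`, `pol_symm`, `pol_cj`), so `w u0 l u0⁻¹ ∈ C`
(`pol_mul_pol` for `w, u0 l u0⁻¹ ∈ pol i`, `cl_i`), and a product of two elements of `w C` is in `C`.
So `u2 = g' u0 z` with `g' ∈ C`, and `E u2 e = z⁻¹ (E u0 e) z` (`E_cmul`, `E_mul_right`).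
`rel`: `path_formula` with `u = 1`: `E u0 e (E u2 e)⁻¹ = E 1 t * r * (E 1 t)⁻¹`, i.e. `E0 e z⁻¹ (E0 e)⁻¹ z = ch t (z z) (ch t)⁻¹`.
-/

namespace Pool.Agent.A1C

universe u

variable {M : Type u} [Univ M] {G : Type u} [Group G] [DGrp M G]

namespace FldData

variable {S : Setup G} (A : FldData S)

private theorem D2H_w_mem (S : Setup G) : S.w ∈ pol S.i := by
  refine ⟨S.w_inv, fun h => S.w_notMem (h ▸ S.i_mem), ?_⟩
  have h1 := S.w_inverts S.i S.i_mem
  have h2 : S.i⁻¹ = S.i := inv_eq_of_mul_eq_one_left S.i_inv.1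
  rw [h2] at h1
  have h3 : S.w * S.w = 1 := S.w_inv.1
  calc S.w * S.i = S.w * S.i * (S.w * S.w) := by rw [h3, mul_one]
    _ = (S.w * S.i * S.w) * S.w := by simp only [mul_assoc]
    _ = _ := by rw [h1]

private theorem D2H_exists {u0 u2 l : G} (hl : IsInv l) (h0 : iv S u0 ∈ pol l)
    (h2 : iv S u2 ∈ pol l) :
    ∃ g ∈ S.C, ∃ z ∈ S.cl l, z * z = iv S u0 * iv S u2 ∧ u2 = g * (u0 * z) := by
  obtain ⟨z, hz, hzz, hzc⟩ := S.tor_sqrt hl h0 h2
  have h1 : iv S (u0 * z) = iv S u2 := by rw [iv_mul_right, hzc]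
  rcases (iv_eq_iff S _ _).1 h1 with h | h
  · exact ⟨_, h, z, hz, hzz, by group⟩
  · have hlz : z * l = l * z := (S.comm_iff hl).2 (Or.inl hz)
    have hll : l * l = 1 := hl.1
    have hlinv : l⁻¹ = l := inv_eq_of_mul_eq_one_left hll
    have hp : u0 * l * u0⁻¹ ∈ pol S.i := by
      have h3 : l ∈ pol (iv S u0) := pol_symm hl h0
      have h4 := (pol_cj (l := S.i) (j := u0 * l * u0⁻¹) u0).1
      apply h4
      have h5 : u0⁻¹ * (u0 * l * u0⁻¹) * u0 = l := by group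
      rw [h5]
      exact h3
    have hwp : S.w * (u0 * l * u0⁻¹) ∈ S.C := by
      rw [← S.cl_i]
      exact S.pol_mul_pol S.i_inv (D2H_w_mem S) hp
    have hww : S.w * S.w = 1 := S.w_inv.1
    have hwi : S.w⁻¹ = S.w := inv_eq_of_mul_eq_one_left hww
    refine ⟨u2 * (u0 * z)⁻¹ * (u0 * l * u0⁻¹), ?_, z * l,
      (S.cl l).mul_mem hz (S.self_mem_cl hl), ?_, ?_⟩
    · obtain ⟨c, hc⟩ : ∃ c, c = S.w * (u2 * (u0 * z)⁻¹) := ⟨_, rfl⟩
      have h6 : u2 * (u0 * z)⁻¹ * (u0 * l * u0⁻¹) = (S.w * c * S.w) * (S.w * (u0 * l * u0⁻¹)) := by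
        have h7 : u2 * (u0 * z)⁻¹ = S.w * c := by
          rw [hc, ← mul_assoc, hww, one_mul]
        rw [h7]
        have h8 : S.w * c * S.w * (S.w * (u0 * l * u0⁻¹)) =
            S.w * c * (S.w * S.w) * (u0 * l * u0⁻¹) := by simp only [mul_assoc]
        rw [h8, hww, mul_one]
      rw [h6, S.w_inverts c (hc ▸ h)]
      exact S.C.mul_mem (S.C.inv_mem (hc ▸ h)) hwp
    · rw [← hzz]
      calc z * l * (z * l) = z * (l * z) * l := by simp only [mul_assoc]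
        _ = z * (z * l) * l := by rw [hlz]
        _ = z * z * (l * l) := by simp only [mul_assoc]
        _ = z * z := by rw [hll, mul_one]
    · calc u2 = u2 * (u0 * z)⁻¹ * u0 * (z * (l * l)) := by
            rw [hll]
            group
        _ = u2 * (u0 * z)⁻¹ * (u0 * (l * z) * l) := by
            rw [← hlz]
            simp only [mul_assoc]
        _ = _ := by
            group

theorem exists_cfg {u0 u2 : G} (h0 : A.Adj 1 u0) (h2 : A.Adj 1 u2) (_hne : iv S u0 ≠ iv S u2)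
    (ht : Tor (iv S u0) (iv S u2)) (hr : (iv S u0 * iv S u2) * (iv S u0 * iv S u2) ≠ 1) :
    Nonempty (Cfg S A.F) := by
  obtain ⟨l, hl, hl0, hl2⟩ := ht
  have hb := not_comm_of_pole h0 hl hl0
  rw [iv_one] at hb
  obtain ⟨g, hg, z, hz, hzz, hu⟩ := D2H_exists hl hl0 hl2
  refine ⟨{
    E := A.ch
    E_mem := A.ch_mem
    E_inj := A.ch_inj
    E_neg := A.ch_neg_one
    l := l
    l_inv := hl
    l_ne := hb.1
    l_comm := hb.2
    i0 := iv S u0
    i0_inv := isInv_iv S u0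
    i0_pol := hl0
    E0 := { toFun := A.E u0, map_one' := A.E_one u0, map_mul' := A.E_mul u0 }
    E0_mem := A.E_mem u0
    E0_inj := fun _ _ h => A.E_inj u0 h
    z := z
    z_mem := hz
    z_sq := by
      rw [hzz]
      exact hr
    rel := ?_ }⟩
  intro e t het
  have h3 := path_formula h0 h2 het
  have h4 : A.E u2 e = z⁻¹ * A.E u0 e * z := by
    rw [hu, A.E_cmul hg, A.E_mul_right]
  have h5 : A.E 1 t = A.ch t := by
    simp only [E, inv_one, one_mul, mul_one]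
  rw [h4, h5, ← hzz] at h3
  change A.E u0 e * z⁻¹ * (A.E u0 e)⁻¹ * z = A.ch t * (z * z) * (A.ch t)⁻¹
  rw [← h3]
  group

end FldData

end Pool.Agent.A1C
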