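import Pool.Agent.A1C.D2L
import Pool.Agent.A1C.D2H
import Pool.Agent.A1C.D2G

/-!
# D2N: `D = C`
-/

namespace Pool.Agent.A1C

universe u

variable {M : Type u} [Univ M] {G : Type u} [Group G] [DGrp M G]

namespace FldData

variable {S : Setup G} (A : FldData S)

theorem C_eq_D {g : G} (hg : g ∈ S.C) : ∃ e, A.ch e = g := by
  have hle : ¬ rk (A.D : Set G) < rk (S.C : Set G) := by
    intro h
    obtain ⟨u0, u2, h0, h2, hne, ht, hr⟩ := A.exists_toral_path h
    obtain ⟨Q⟩ := A.exists_cfg h0 h2 hne ht hr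
    exact Q.false_of_cfg A.two_ne
  have hC : Conn S.C := (conn_iff_irr S.dfC).2 S.irrC
  have h := hC.eq_of_rk A.df_D A.D_le (not_lt.1 hle)
  exact A.mem_D.1 (h ▸ hg)

end FldData

end Pool.Agent.A1C
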