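import Pool.Agent.A1C.PD7
import Pool.Agent.A1C.D2N

/-!
# BRI: from `BSetup` and `FD` to `FldData`, and `D = C`
-/

namespace Pool.Agent.A1C

universe u

variable {M : Type u} [Univ M] {G : Type u} [Group G] [DGrp M G]

namespace BSetup

variable (S : BSetup G)

/-- the field data of a unipotent pair -/
def fldData {F : Type u} [Field F] (h : FD S F) : FldData S.toSetup where
  k := S.k
  k_inv := S.k_inv
  k_ne := S.k_ne
  not_tor := S.k_tor
  F := F
  ka x := (h.ψ (Multiplicative.ofAdd x) : G)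
  ch := S.D.subtype.comp h.φ.toMonoidHom
  ka_add x y := by
    rw [ofAdd_add, map_mul]
    rfl
  ka_inj x y hxy := by
    have h1 := h.ψ.injective (Subtype.ext hxy)
    exact Multiplicative.ofAdd.injective h1
  ka_range g := by
    constructor
    · intro hg
      obtain ⟨x, hx⟩ := h.ψ.surjective ⟨g, hg⟩
      refine ⟨Multiplicative.toAdd x, ?_⟩
      rw [ofAdd_toAdd, hx]
    · rintro ⟨x, rfl⟩
      exact (h.ψ _).2
  ch_inj := by
    intro a b hab
    exact h.φ.injective (Subtype.ext hab)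
  ch_range g := by
    constructor
    · rintro ⟨e, rfl⟩
      exact ⟨(h.φ e).2.2, (h.φ e).2.1⟩
    · rintro ⟨hC, hB⟩
      obtain ⟨e, he⟩ := h.φ.surjective ⟨g, ⟨hB, hC⟩⟩
      exact ⟨e, congrArg Subtype.val he⟩
  act e x := h.act e x
  ch_neg_one := h.neg
  inf := h.inf
  two_ne := h.two
  irrK := by
    have h1 := (conn_iff_irr S.K0_conn.1).1 S.K0_conn
    rw [S.K0_eq] at h1
    exact h1
  rk_eq := by
    have h1 : {g : G | ∃ e, (S.D.subtype.comp h.φ.toMonoidHom) e = g} = (S.D : Set G) := by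
      ext g
      constructor
      · rintro ⟨e, rfl⟩
        exact (h.φ e).2
      · intro hg
        obtain ⟨e, he⟩ := h.φ.surjective ⟨g, hg⟩
        exact ⟨e, congrArg Subtype.val he⟩
    rw [h1]
    exact S.rk_K_eq_rk_D

theorem exists_fldData : Nonempty (FldData S.toSetup) := by
  obtain ⟨F, _, ⟨h⟩⟩ := S.exists_FD
  exact ⟨S.fldData h⟩

/-- the end of Part D2 -/
theorem D_eq_C : S.D = S.C := by
  obtain ⟨F, _, ⟨h⟩⟩ := S.exists_FD
  apply le_antisymm
  · exact inf_le_right
  · intro g hg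
    obtain ⟨e, he⟩ := (S.fldData h).C_eq_D hg
    rw [← he]
    exact (h.φ e).2

end BSetup

end Pool.Agent.A1C
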