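import Mathlib

/-!
# A1C (MP_d532e5_lc): ranked universes, definable types, generic filters

`Univ M`: the definable subsets of the finite powers of `M` and a rank function on them
(Borovik-Poizat axioms). `DTy M X`: the type `X` is (identified with) a definable subset of a
finite power of `M`. All later files work with sets in definable types:
`Df S` (definable), `rk S` (rank, `rk ∅ = 0`), `DfFun f` (total function with definable graph),
`DfP p` (definable predicate), `gen S` (the filter of generic subsets of `S`), `Irr S` (degree one).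
-/

namespace Pool.Agent.A1C

universe u

/-- A ranked universe: definable subsets of the powers of `M` with a rank function. -/
class Univ (M : Type u) where
  /-- definable subsets of the powers -/
  Def : ∀ {n : ℕ}, Set (Fin n → M) → Prop
  /-- the rank -/
  rk₀ : ∀ {n : ℕ}, Set (Fin n → M) → ℕ
  def_univ : ∀ {n : ℕ}, Def (Set.univ : Set (Fin n → M))
  def_inter : ∀ {n : ℕ} {A B : Set (Fin n → M)}, Def A → Def B → Def (A ∩ B)
  def_compl : ∀ {n : ℕ} {A : Set (Fin n → M)}, Def A → Def Aᶜ
  def_eq : ∀ {n : ℕ} (i j : Fin n), Def {v : Fin n → M | v i = v j}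
  def_const : ∀ {n : ℕ} (i : Fin n) (a : M), Def {v : Fin n → M | v i = a}
  def_reindex : ∀ {m n : ℕ} (f : Fin m → Fin n) {A : Set (Fin m → M)}, Def A →
    Def {v : Fin n → M | (fun i => v (f i)) ∈ A}
  def_ex : ∀ {n m : ℕ} {A : Set (Fin (n + m) → M)}, Def A →
    Def {v : Fin n → M | ∃ w : Fin m → M, Fin.append v w ∈ A}
  rk_empty₀ : ∀ {n : ℕ}, rk₀ (∅ : Set (Fin n → M)) = 0
  /-- axiom A -/
  rk_succ_le₀ : ∀ {n : ℕ} {A : Set (Fin n → M)}, Def A → A.Nonempty → ∀ k : ℕ,
    (k + 1 ≤ rk₀ A ↔ ∃ B : ℕ → Set (Fin n → M),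
      (∀ i, Def (B i) ∧ (B i).Nonempty ∧ B i ⊆ A ∧ k ≤ rk₀ (B i)) ∧
        ∀ i j, i ≠ j → Disjoint (B i) (B j))
  /-- axiom B -/
  def_rk₀ : ∀ {n m : ℕ} {A : Set (Fin (n + m) → M)}, Def A → ∀ k : ℕ,
    Def {v : Fin n → M | rk₀ {w : Fin m → M | Fin.append v w ∈ A} = k}
  /-- axiom C: additivity for a function defined on `A` with definable graph -/
  rk_add₀ : ∀ {n m : ℕ} {A : Set (Fin n → M)} (f : (Fin n → M) → (Fin m → M)), Def A →
    Def {z : Fin (n + m) → M | ∃ v ∈ A, z = Fin.append v (f v)} → A.Nonempty → ∀ k : ℕ,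
    (∀ y ∈ f '' A, rk₀ (A ∩ f ⁻¹' {y}) = k) → rk₀ A = rk₀ (f '' A) + k
  /-- axiom D -/
  elim₀ : ∀ {n m : ℕ} {A : Set (Fin (n + m) → M)}, Def A →
    ∃ N : ℕ, ∀ v : Fin n → M, {w : Fin m → M | Fin.append v w ∈ A}.Finite →
      {w : Fin m → M | Fin.append v w ∈ A}.ncard ≤ N

/-- `X` is identified with a definable subset of a power of `M`. -/
class DTy (M : outParam (Type u)) [Univ M] (X : Type u) where
  /-- number of coordinates -/
  dim : ℕ
  /-- the coordinates -/
  enc : X → (Fin dim → M)
  inj : Function.Injective enc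
  def_range : Univ.Def (Set.range enc)

section DTy

variable {M : Type u} [Univ M]

instance : DTy M M where
  dim := 1
  enc x := fun _ => x
  inj x y h := congrFun h 0
  def_range := by
    have h : Set.range (fun (x : M) (_ : Fin 1) => x) = Set.univ := by
      ext v
      simp only [Set.mem_range, Set.mem_univ, iff_true]
      exact ⟨v 0, funext fun i => by rw [Subsingleton.elim i 0]⟩
    rw [h]
    exact Univ.def_univ

instance {X Y : Type u} [DTy M X] [DTy M Y] : DTy M (X × Y) where
  dim := DTy.dim X + DTy.dim Y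
  enc p := Fin.append (DTy.enc p.1) (DTy.enc p.2)
  inj := by
    intro p q h
    have h1 : DTy.enc p.1 = DTy.enc q.1 := by
      funext i
      have := congrFun h (Fin.castAdd _ i)
      simpa using this
    have h2 : DTy.enc p.2 = DTy.enc q.2 := by
      funext i
      have := congrFun h (Fin.natAdd _ i)
      simpa using this
    exact Prod.ext (DTy.inj h1) (DTy.inj h2)
  def_range := by
    have h : Set.range (fun p : X × Y => Fin.append (DTy.enc p.1) (DTy.enc p.2)) =
        {v | (fun i => v (Fin.castAdd _ i)) ∈ Set.range (DTy.enc : X → _)} ∩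
          {v | (fun i => v (Fin.natAdd _ i)) ∈ Set.range (DTy.enc : Y → _)} := by
      ext v
      simp only [Set.mem_range, Prod.exists, Set.mem_inter_iff, Set.mem_ofPred_eq]
      constructor
      · rintro ⟨x, y, rfl⟩
        exact ⟨⟨x, by funext i; simp⟩, ⟨y, by funext i; simp⟩⟩
      · rintro ⟨⟨x, hx⟩, ⟨y, hy⟩⟩
        refine ⟨x, y, ?_⟩
        funext i
        refine Fin.addCases (fun j => ?_) (fun j => ?_) i
        · simpa using congrFun hx j
        · simpa using congrFun hy j
    rw [h]
    exact Univ.def_inter (Univ.def_reindex _ DTy.def_range) (Univ.def_reindex _ DTy.def_range)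

variable {X Y : Type u} [DTy M X] [DTy M Y]

/-- definable sets -/
def Df (S : Set X) : Prop := Univ.Def (DTy.enc '' S)

/-- definable predicates -/
def DfP (p : X → Prop) : Prop := Df {x | p x}

/-- functions with definable graph -/
@[fun_prop]
def DfFun (f : X → Y) : Prop := Df {p : X × Y | p.2 = f p.1}

/-- the rank of a set (`0` for the empty set) -/
noncomputable def rk (S : Set X) : ℕ := Univ.rk₀ (DTy.enc '' S)

/-- `B` is small in `A`: empty or of smaller rank -/
def Small (B A : Set X) : Prop := B = ∅ ∨ rk B < rk A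

/-- degree one -/
structure Irr (A : Set X) : Prop where
  df : Df A
  ne : A.Nonempty
  small_or : ∀ B ⊆ A, Df B → Small B A ∨ Small (A \ B) A

/-- `T` contains `A` up to a small definable set -/
def GenIn (A T : Set X) : Prop := ∃ B ⊆ A, Df B ∧ Small B A ∧ A \ B ⊆ T

end DTy

/-- a group which is a definable type with definable multiplication -/
class DGrp (M : outParam (Type u)) [Univ M] (Γ : Type u) [Group Γ] extends DTy M Γ where
  mul_df : DfFun (fun p : Γ × Γ => p.1 * p.2)

end Pool.Agent.A1C
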