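import Pool.Agent.A1C.D2Def

/-!
# D2A: basic properties of `iv`, `E`, `Adj`

`S.cl_i`, `S.cl_eq` (PA1) give `S.cl (iv S u) = cj S.C u`.  `iv (c u) = iv u` for `c ∈ C` because `C` is commutative and contains `i`;
`E (c u) = E u` because `ch e ∈ C`.
`Adj.symm`: `v = c' (ka x) c u` gives `u = c⁻¹ (ka (-x)) c'⁻¹ v`.
`iv_adj`: with `s = c u` one has `iv v = s⁻¹ (ka x)⁻¹ i (ka x) s = s⁻¹ i (ka (x + x)) s` (`i = ch (-1)` inverts `K`: `i * ka x * i = ka (-x)` by `act`)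
and `iv u = s⁻¹ i s`.
-/

namespace Pool.Agent.A1C

universe u

variable {M : Type u} [Univ M] {G : Type u} [Group G] [DGrp M G]

theorem isInv_iv (S : Setup G) (u : G) : IsInv (iv S u) := S.i_inv.cj u

theorem cl_iv (S : Setup G) (u : G) : S.cl (iv S u) = cj S.C u := S.cl_eq rfl

theorem iv_mul (S : Setup G) {c : G} (hc : c ∈ S.C) (u : G) : iv S (c * u) = iv S u := by
  have h1 : S.i * c = c * S.i := S.comm _ S.i_mem _ hc
  unfold iv
  calc (c * u)⁻¹ * S.i * (c * u) = u⁻¹ * c⁻¹ * (S.i * c) * u := by group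
    _ = u⁻¹ * c⁻¹ * (c * S.i) * u := by rw [h1]
    _ = u⁻¹ * S.i * u := by group

theorem iv_one (S : Setup G) : iv S 1 = S.i := by
  unfold iv
  group

theorem iv_mul_right (S : Setup G) (u g : G) : iv S (u * g) = g⁻¹ * iv S u * g := by
  unfold iv
  group

private theorem d2a_w (S : Setup G) : S.w ∈ pol S.i := by
  refine ⟨S.w_inv, ?_, ?_⟩
  · intro h
    exact S.w_notMem (h ▸ S.i_mem)
  · have h1 := S.w_inverts _ S.i_mem
    have h2 : S.i⁻¹ = S.i := inv_eq_of_mul_eq_one_left S.i_inv.1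
    rw [h2] at h1
    calc S.w * S.i = S.w * S.i * (S.w * S.w) := by rw [S.w_inv.1, mul_one]
      _ = (S.w * S.i * S.w) * S.w := by group
      _ = S.i * S.w := by rw [h1]

/-- `iv u = iv v` iff `u` and `v` differ by an element of `C ∪ w C` -/
theorem iv_eq_iff (S : Setup G) (u v : G) :
    iv S u = iv S v ↔ v * u⁻¹ ∈ S.C ∨ S.w * (v * u⁻¹) ∈ S.C := by
  have h1 : iv S u = iv S v ↔ (v * u⁻¹) * S.i = S.i * (v * u⁻¹) := by
    unfold iv
    constructor
    · intro h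
      calc (v * u⁻¹) * S.i = v * (u⁻¹ * S.i * u) * u⁻¹ := by group
        _ = v * (v⁻¹ * S.i * v) * u⁻¹ := by rw [h]
        _ = S.i * (v * u⁻¹) := by group
    · intro h
      calc u⁻¹ * S.i * u = v⁻¹ * ((v * u⁻¹) * S.i) * u := by group
        _ = v⁻¹ * (S.i * (v * u⁻¹)) * u := by rw [h]
        _ = v⁻¹ * S.i * v := by group
  rw [h1, S.comm_iff S.i_inv, S.cl_i]
  refine or_congr_right ?_
  constructor
  · intro h
    have h2 := S.pol_mul_pol S.i_inv (d2a_w S) h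
    rwa [S.cl_i] at h2
  · intro h
    rw [← S.cl_i] at h
    have h2 := S.pol_mul_cl S.i_inv (d2a_w S) h
    rwa [← mul_assoc, S.w_inv.1, one_mul] at h2

namespace FldData

variable {S : Setup G} (A : FldData S)

theorem i_ka (x : A.F) : S.i * A.ka x * S.i = A.ka (-x) := by
  have h := A.act (-1) x
  have h2 : S.i⁻¹ = S.i := inv_eq_of_mul_eq_one_left S.i_inv.1
  rw [A.ch_neg_one, h2] at h
  rw [h]
  congr 1
  simp

theorem E_mul (u : G) (e f : A.Fˣ) : A.E u (e * f) = A.E u e * A.E u f := by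
  unfold E
  rw [map_mul]
  group

theorem E_one (u : G) : A.E u 1 = 1 := by
  unfold E
  rw [map_one]
  group

theorem E_inv (u : G) (e : A.Fˣ) : A.E u e⁻¹ = (A.E u e)⁻¹ := by
  unfold E
  rw [map_inv]
  group

theorem E_mem (u : G) (e : A.Fˣ) : A.E u e ∈ S.cl (iv S u) := by
  rw [cl_iv, mem_cj]
  unfold E
  have : u * (u⁻¹ * A.ch e * u) * u⁻¹ = A.ch e := by group
  rw [this]
  exact A.ch_mem e

theorem E_inj (u : G) {e f : A.Fˣ} (h : A.E u e = A.E u f) : e = f :=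
  A.ch_inj (mul_left_cancel (mul_right_cancel h))

theorem E_neg_one (u : G) : A.E u (-1) = iv S u := by
  unfold E iv
  rw [A.ch_neg_one]

theorem E_cmul {c : G} (hc : c ∈ S.C) (u : G) (e : A.Fˣ) : A.E (c * u) e = A.E u e := by
  have h1 : A.ch e * c = c * A.ch e := S.comm _ (A.ch_mem e) _ hc
  unfold E
  calc (c * u)⁻¹ * A.ch e * (c * u) = u⁻¹ * c⁻¹ * (A.ch e * c) * u := by group
    _ = u⁻¹ * c⁻¹ * (c * A.ch e) * u := by rw [h1]
    _ = u⁻¹ * A.ch e * u := by group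

theorem E_mul_right (u g : G) (e : A.Fˣ) : A.E (u * g) e = g⁻¹ * A.E u e * g := by
  unfold E
  group

variable {A}

theorem Adj.symm {u v : G} (h : A.Adj u v) : A.Adj v u := by
  obtain ⟨c, hc, c', hc', x, hx, rfl⟩ := h
  refine ⟨c'⁻¹, S.C.inv_mem hc', c⁻¹, S.C.inv_mem hc, -x, neg_ne_zero.2 hx, ?_⟩
  rw [A.ka_neg]
  group

theorem Adj.mul_right {u v : G} (h : A.Adj u v) (g : G) : A.Adj (u * g) (v * g) := by
  obtain ⟨c, hc, c', hc', x, hx, rfl⟩ := h
  exact ⟨c, hc, c', hc', x, hx, by group⟩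

theorem Adj.cmul_left {u v c : G} (h : A.Adj u v) (hc : c ∈ S.C) : A.Adj (c * u) v := by
  obtain ⟨c₁, hc₁, c', hc', x, hx, rfl⟩ := h
  exact ⟨c₁ * c⁻¹, S.C.mul_mem hc₁ (S.C.inv_mem hc), c', hc', x, hx, by group⟩

/-- the involutions of adjacent points differ by an element of a conjugate of `K` -/
theorem Adj.iv_eq {u v : G} (h : A.Adj u v) :
    ∃ s x, iv S s = iv S u ∧ x ≠ 0 ∧ iv S v = iv S u * (s⁻¹ * A.ka x * s) := by
  obtain ⟨c, hc, c', hc', x, hx, rfl⟩ := h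
  refine ⟨c * u, x + x, iv_mul S hc u, ?_, ?_⟩
  · rw [← two_mul]
    exact mul_ne_zero A.two_ne hx
  · rw [← iv_mul S hc u]
    have h1 : iv S (c' * A.ka x * c * u) = iv S (A.ka x * (c * u)) := by
      have h2 : c' * A.ka x * c * u = c' * (A.ka x * (c * u)) := by group
      rw [h2, iv_mul S hc']
    rw [h1, A.ka_add]
    have h3 := A.i_ka (-x)
    rw [neg_neg, A.ka_neg] at h3
    unfold iv
    generalize c * u = s
    calc (A.ka x * s)⁻¹ * S.i * (A.ka x * s)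
        = s⁻¹ * ((S.i * S.i) * (A.ka x)⁻¹ * S.i) * A.ka x * s := by rw [S.i_inv.1]; group
      _ = s⁻¹ * (S.i * (S.i * (A.ka x)⁻¹ * S.i)) * A.ka x * s := by group
      _ = s⁻¹ * (S.i * A.ka x) * A.ka x * s := by rw [h3]
      _ = s⁻¹ * S.i * s * (s⁻¹ * (A.ka x * A.ka x) * s) := by group

end FldData

end Pool.Agent.A1C
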