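import Pool.Agent.A1C.D2A

/-!
# D2B: adjacent points form unipotent pairs; the formula for `ρ_e`

`Adj.not_tor`: by `Adj.iv_eq`, `iv v = s⁻¹ (i (ka x)) s` and `iv u = s⁻¹ i s` with `x ≠ 0`; by `tor_cj` it is enough to see `¬ Tor i (i (ka x))`, which is
`S.uni_mul` (PA5) with `j = i`, `ka x ∈ K`, `ka x ≠ 1`.
`not_comm_of_pole` (b7): if `l = iv u` then `iv u0 ∈ pol l` commutes with `iv u` and is different from it, so `Tor` by `tor_of_comm`;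
if `l` commutes with `iv u`, `l ≠ iv u`, then `iv u ∈ pol l` and `iv u0 ∈ pol l`, so `Tor (iv u) (iv u0)`.  Both contradict `Adj.not_tor`.
`path_formula`: `u0 = c0' (ka x0) c0 u`, `u2 = c2' (ka x2) c2 u`.  `(ka x)⁻¹ (ch e) (ka x) = ka ((e - 1) x) (ch e)` (`act`, `ka_neg`).  So
`E u0 e = u⁻¹ c0⁻¹ (ka ((e-1) x0)) (ch e) c0 u`, `(E u2 e)⁻¹ = u⁻¹ c2⁻¹ (ch e)⁻¹ (ka ((1-e) x2)) c2 u`; the elements `c0, c2, ch e` commute, so
`E u0 e (E u2 e)⁻¹ = u⁻¹ c0⁻¹ (ka ((e-1) x0)) c0 c2⁻¹ (ka ((1-e) x2)) c2 u`.  With `η = c0⁻¹ (ka (-x0)) c0 c2⁻¹ (ka x2) c2` this is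
`u⁻¹ (ch (1-e)) η (ch (1-e))⁻¹ u` for `e ≠ 1` (`1 - e` as a unit).  For `e = -1` it is `iv u0 * iv u2 = u⁻¹ (ch 2) η (ch 2)⁻¹ u`.
Hence the formula with `t = (1 - e)/2`.
-/

namespace Pool.Agent.A1C

universe u

variable {M : Type u} [Univ M] {G : Type u} [Group G] [DGrp M G]

namespace FldData

variable {S : Setup G} {A : FldData S}

theorem Adj.not_tor {u v : G} (h : A.Adj u v) : iv S u ≠ iv S v ∧ ¬ Tor (iv S u) (iv S v) := by
  obtain ⟨s, x, hs, hx, hv⟩ := h.iv_eq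
  have hk : A.ka x ≠ 1 := A.ka_ne hx
  constructor
  · intro he
    rw [← he, left_eq_mul] at hv
    have : A.ka x = 1 := by
      calc A.ka x = s * (s⁻¹ * A.ka x * s) * s⁻¹ := by group
        _ = 1 := by
          rw [hv]
          group
    exact hk this
  · have h1 := (S.uni_mul S.i_inv A.k_inv A.k_ne.symm A.not_tor (A.ka_mem x)).2 hk
    have h2 : iv S v = s⁻¹ * (S.i * A.ka x) * s := by
      rw [hv, ← hs]
      simp only [iv]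
      group
    rw [h2, ← hs]
    intro ht
    exact h1 ((tor_cj s).1 ht)

/-- (b7) -/
theorem not_comm_of_pole {u u0 l : G} (h : A.Adj u u0) (hl : IsInv l) (h0 : iv S u0 ∈ pol l) :
    l ≠ iv S u ∧ l * iv S u ≠ iv S u * l := by
  obtain ⟨hne, hnt⟩ := h.not_tor
  have h1 : l ≠ iv S u := by
    intro he
    rw [he] at h0
    have h2 := tor_of_comm (isInv_iv S u) (isInv_iv S u0) hne h0.2.2.symm
    exact hnt ⟨_, h2.1, h2.2.1, h2.2.2⟩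
  refine ⟨h1, fun h2 => hnt ⟨l, hl, ⟨isInv_iv S u, h1.symm, h2.symm⟩, h0⟩⟩

private theorem D2B_aux (A : FldData S) {c c' : G} (hc' : c' ∈ S.C) (x : A.F) (u : G)
    (e : A.Fˣ) : A.E (c' * A.ka x * c * u) e =
      (c * u)⁻¹ * (A.ka (((e : A.F) - 1) * x) * A.ch e) * (c * u) := by
  have h1 : c'⁻¹ * A.ch e * c' = A.ch e := by
    rw [mul_assoc, S.comm _ (A.ch_mem e) _ hc', inv_mul_cancel_left]
  have h2 : A.ka (((e : A.F) - 1) * x) * A.ch e = (A.ka x)⁻¹ * A.ch e * A.ka x := by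
    have e1 : ((e : A.F) - 1) * x = -x + e * x := by ring
    rw [e1, A.ka_add, A.ka_neg, ← A.act]
    group
  rw [h2]
  calc A.E (c' * A.ka x * c * u) e =
      (c * u)⁻¹ * ((A.ka x)⁻¹ * (c'⁻¹ * A.ch e * c') * A.ka x) * (c * u) := by
        simp only [E]
        group
    _ = _ := by rw [h1]

private theorem D2B_aux2 (A : FldData S) {c0 c0' c2 c2' : G} (h0 : c0 ∈ S.C) (h0' : c0' ∈ S.C)
    (h2 : c2 ∈ S.C) (h2' : c2' ∈ S.C) (x0 x2 : A.F) (u : G) (e : A.Fˣ) :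
    A.E (c0' * A.ka x0 * c0 * u) e * (A.E (c2' * A.ka x2 * c2 * u) e)⁻¹ =
      u⁻¹ * ((c0⁻¹ * A.ka (((e : A.F) - 1) * x0) * c0) *
        (c2⁻¹ * A.ka ((1 - (e : A.F)) * x2) * c2)) * u := by
  rw [D2B_aux A h0', D2B_aux A h2']
  have e1 : A.ka ((1 - (e : A.F)) * x2) = (A.ka (((e : A.F) - 1) * x2))⁻¹ := by
    rw [← A.ka_neg]
    congr 1
    ring
  have e2 : A.ch e * (c0 * c2⁻¹) * (A.ch e)⁻¹ = c0 * c2⁻¹ := by
    rw [S.comm _ (A.ch_mem e) _ (S.C.mul_mem h0 (S.C.inv_mem h2)), mul_inv_cancel_right]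
  rw [e1]
  calc (c0 * u)⁻¹ * (A.ka (((e : A.F) - 1) * x0) * A.ch e) * (c0 * u) *
        ((c2 * u)⁻¹ * (A.ka (((e : A.F) - 1) * x2) * A.ch e) * (c2 * u))⁻¹ =
      u⁻¹ * c0⁻¹ * A.ka (((e : A.F) - 1) * x0) * (A.ch e * (c0 * c2⁻¹) * (A.ch e)⁻¹) *
        (A.ka (((e : A.F) - 1) * x2))⁻¹ * c2 * u := by group
    _ = _ := by
        rw [e2]
        group

theorem path_formula {u u0 u2 : G} (h0 : A.Adj u u0) (h2 : A.Adj u u2) {e t : A.Fˣ}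
    (ht : 2 * (t : A.F) = 1 - e) :
    A.E u0 e * (A.E u2 e)⁻¹ = A.E u t * (iv S u0 * iv S u2) * (A.E u t)⁻¹ := by
  obtain ⟨c0, hc0, c0', hc0', x0, -, rfl⟩ := h0
  obtain ⟨c2, hc2, c2', hc2', x2, -, rfl⟩ := h2
  have hm := D2B_aux2 A hc0 hc0' hc2 hc2' x0 x2 u (-1)
  have hinv : (iv S (c2' * A.ka x2 * c2 * u))⁻¹ = iv S (c2' * A.ka x2 * c2 * u) :=
    inv_eq_of_mul_eq_one_left (isInv_iv S _).1
  rw [A.E_neg_one, A.E_neg_one, hinv] at hm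
  rw [D2B_aux2 A hc0 hc0' hc2 hc2', hm]
  have key : ∀ c ∈ S.C, ∀ y : A.F, c⁻¹ * A.ka ((t : A.F) * y) * c =
      A.ch t * (c⁻¹ * A.ka y * c) * (A.ch t)⁻¹ := by
    intro c hc y
    rw [← A.act]
    have e1 : c⁻¹ * A.ch t = A.ch t * c⁻¹ := S.comm _ (S.C.inv_mem hc) _ (A.ch_mem t)
    have e2 : (A.ch t)⁻¹ * c = c * (A.ch t)⁻¹ := S.comm _ (S.C.inv_mem (A.ch_mem t)) _ hc
    calc c⁻¹ * (A.ch t * A.ka y * (A.ch t)⁻¹) * c =
        (c⁻¹ * A.ch t) * A.ka y * ((A.ch t)⁻¹ * c) := by group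
      _ = _ := by
        rw [e1, e2]
        group
  have e3 : ((e : A.F) - 1) * x0 = t * ((((-1 : A.Fˣ) : A.F) - 1) * x0) := by
    rw [Units.val_neg, Units.val_one]
    linear_combination x0 * ht
  have e4 : (1 - (e : A.F)) * x2 = t * ((1 - ((-1 : A.Fˣ) : A.F)) * x2) := by
    rw [Units.val_neg, Units.val_one]
    linear_combination -x2 * ht
  rw [e3, e4, key c0 hc0, key c2 hc2]
  simp only [E]
  group

end FldData

end Pool.Agent.A1C
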