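import Pool.Agent.A1C.D2B

/-!
# D2C: the middle point of a path is unique (D2a)

`exists_unit_notMem`, `eq_top_of_cofinite`: infinite fields (a subgroup `H` of `Fˣ` containing all elements outside a finite set `s` is everything: for
`e : Fˣ` choose `f ∉ s ∪ e s`-type exceptional set, `f ∈ H` and `f⁻¹ e ∈ H`, i.e. `f ∉ s` and `f⁻¹ e ∉ s`).

`mid_unique`.  Let `r = iv u0 * iv u2`, `R = cen r`.  `r ≠ 1`, `r² ≠ 1`, so `R` is a line group and `iv u0, iv u2 ∈ line R` (`S.strongly_real`).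
For `t : Fˣ`, `2 t ≠ 1` let `γ t = (E u t)⁻¹ * E v t`.  With `e = 1 - 2 t` (a unit, `≠ 1`) `path_formula` for `u` and for `v` gives
`E u t r (E u t)⁻¹ = E v t r (E v t)⁻¹`, so `γ t ∈ R`.  `γ (t s) = ((E u s)⁻¹ (γ t) (E u s)) (γ s)` (`E_mul`; `Fˣ` is commutative).
Suppose `γ t ≠ 1` for some `t` with `2 t ≠ 1`.  For all `s : Fˣ` with `2 s ≠ 1`, `2 t s ≠ 1` we get `(E u s)⁻¹ (γ t) (E u s) ∈ R`, so
`cj R (E u s) = R` (`LineGrp.cj_eq`).  The `s` with `cj R (E u s) = R` form a subgroup of `Fˣ`, so all `s` have this property, in particular `s = -1`: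
`iv u` normalises `R` (`E_neg_one`).  By `S.mem_line_of_normalizes`, `iv u ∈ line R` or `R = cl (iv u)`.  The first is excluded by `hnc`.
In the second case `iv u0 ∈ line (cl (iv u)) = pol (iv u)` (`line_cl`), so `iv u0` commutes with `iv u` and is different from it, so
`Tor (iv u) (iv u0)` (`tor_of_comm`), contradiction to `Adj.not_tor`.
So `γ t = 1` whenever `2 t ≠ 1`.  Choose `t` with `2 t ≠ 1`, `t ≠ 1`, `t ≠ -1`.  Then `E u t = E v t`, so `g = v u⁻¹` commutes with `ch t`, `ch t ∈ C = cl i`,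
`(ch t)² = ch (t²) ≠ 1`; so `g ∈ C` by `S.comm_iff_of_mem` (PA2) and `S.cl_i`.
-/

namespace Pool.Agent.A1C

universe u

theorem exists_unit_notMem {F : Type u} [Field F] [Infinite F] (s : Finset F) :
    ∃ e : Fˣ, (e : F) ∉ s := by
  classical
  obtain ⟨x, hx⟩ := Infinite.exists_notMem_finset (insert 0 s)
  rw [Finset.mem_insert, not_or] at hx
  exact ⟨Units.mk0 x hx.1, hx.2⟩

theorem eq_top_of_cofinite {F : Type u} [Field F] [Infinite F] (H : Subgroup Fˣ) (s : Finset Fˣ)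
    (h : ∀ e : Fˣ, e ∉ s → e ∈ H) : H = ⊤ := by
  classical
  rw [Subgroup.eq_top_iff']
  intro e
  obtain ⟨f, hf⟩ := exists_unit_notMem ((s ∪ s.image fun x => e * x⁻¹).image fun x : Fˣ => (x : F))
  have h1 : f ∉ s := fun h0 => hf (Finset.mem_image.2 ⟨f, Finset.mem_union_left _ h0, rfl⟩)
  have h2 : f⁻¹ * e ∉ s := fun h0 => hf (Finset.mem_image.2 ⟨f, Finset.mem_union_right _
    (Finset.mem_image.2 ⟨f⁻¹ * e, h0, by
      rw [mul_inv_rev, inv_inv, mul_inv_cancel_left]⟩), rfl⟩)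
  have h3 := H.mul_mem (h f h1) (h _ h2)
  rwa [mul_inv_cancel_left] at h3

variable {M : Type u} [Univ M] {G : Type u} [Group G] [DGrp M G]

namespace FldData

variable {S : Setup G} {A : FldData S}

private theorem d2c_cj_mul (L : Subgroup G) (g h : G) : cj L (g * h) = cj (cj L g) h := by
  ext y
  rw [mem_cj, mem_cj, mem_cj]
  have e : g * h * y * (g * h)⁻¹ = g * (h * y * h⁻¹) * g⁻¹ := by group
  rw [e]

private theorem d2c_cj_one (L : Subgroup G) : cj L 1 = L := by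
  ext y
  rw [mem_cj]
  simp

private def d2cH (A : FldData S) (L : Subgroup G) (u : G) : Subgroup A.Fˣ where
  carrier := {s | cj L (A.E u s) = L}
  mul_mem' := by
    intro a b ha hb
    show cj L (A.E u (a * b)) = L
    rw [A.E_mul, d2c_cj_mul, ha, hb]
  one_mem' := by
    show cj L (A.E u 1) = L
    rw [A.E_one, d2c_cj_one]
  inv_mem' := by
    intro a ha
    show cj L (A.E u a⁻¹) = L
    rw [A.E_inv]
    have h : cj L (A.E u a) = L := ha
    conv_lhs => rw [← h]
    rw [← d2c_cj_mul, mul_inv_cancel, d2c_cj_one]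

theorem mid_unique {u v u0 u2 : G} (h0 : A.Adj u u0) (h2 : A.Adj u u2) (k0 : A.Adj v u0)
    (k2 : A.Adj v u2) (hr : (iv S u0 * iv S u2) * (iv S u0 * iv S u2) ≠ 1)
    (hnc : ∀ L, S.LineGrp L → iv S u0 ∈ line L → iv S u2 ∈ line L → iv S u ∉ line L) :
    v * u⁻¹ ∈ S.C := by
  classical
  have hr1 : iv S u0 * iv S u2 ≠ 1 := by
    intro h
    rw [h] at hr
    exact hr (mul_one 1)
  obtain ⟨hL, hl0, hl2⟩ := S.strongly_real (isInv_iv S u0) (isInv_iv S u2) hr1 hr
  have hγ : ∀ t : A.Fˣ, 2 * (t : A.F) ≠ 1 →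
      (A.E u t)⁻¹ * A.E v t ∈ cen (iv S u0 * iv S u2) := by
    intro t ht
    have he : (1 : A.F) - 2 * t ≠ 0 := sub_ne_zero.2 ht.symm
    have hte : 2 * (t : A.F) = 1 - (Units.mk0 _ he : A.Fˣ) := by
      rw [Units.val_mk0]
      ring
    have p1 := path_formula h0 h2 hte
    have p2 := path_formula k0 k2 hte
    rw [p1] at p2
    rw [mem_cen]
    calc (A.E u t)⁻¹ * A.E v t * (iv S u0 * iv S u2)
        = (A.E u t)⁻¹ * (A.E v t * (iv S u0 * iv S u2) * (A.E v t)⁻¹) * A.E v t := by group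
      _ = (A.E u t)⁻¹ * (A.E u t * (iv S u0 * iv S u2) * (A.E u t)⁻¹) * A.E v t := by rw [p2]
      _ = iv S u0 * iv S u2 * ((A.E u t)⁻¹ * A.E v t) := by group
  have hone : ∀ t : A.Fˣ, 2 * (t : A.F) ≠ 1 → (A.E u t)⁻¹ * A.E v t = 1 := by
    intro t ht
    by_contra hne
    have htop : d2cH A (cen (iv S u0 * iv S u2)) u = ⊤ := by
      refine eq_top_of_cofinite _ {(Units.mk0 2 A.two_ne)⁻¹, (Units.mk0 2 A.two_ne * t)⁻¹} ?_
      intro s hs
      simp only [Finset.mem_insert, Finset.mem_singleton, not_or] at hs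
      have hs1 : 2 * (s : A.F) ≠ 1 := by
        intro h
        refine hs.1 (eq_inv_of_mul_eq_one_right (Units.ext ?_))
        simpa using h
      have hs2 : 2 * ((t * s : A.Fˣ) : A.F) ≠ 1 := by
        intro h
        refine hs.2 (eq_inv_of_mul_eq_one_right (Units.ext ?_))
        rw [Units.val_mul] at h
        simp only [Units.val_mul, Units.val_mk0, Units.val_one]
        rw [mul_assoc]
        exact h
      have g1 := hγ s hs1
      have g2 := hγ (t * s) hs2
      have e : (A.E u s)⁻¹ * ((A.E u t)⁻¹ * A.E v t) * A.E u s =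
          ((A.E u (t * s))⁻¹ * A.E v (t * s)) * ((A.E u s)⁻¹ * A.E v s)⁻¹ := by
        rw [A.E_mul, A.E_mul]
        group
      have g3 : (A.E u s)⁻¹ * ((A.E u t)⁻¹ * A.E v t) * A.E u s ∈
          cen (iv S u0 * iv S u2) := by
        rw [e]
        exact Subgroup.mul_mem _ g2 (Subgroup.inv_mem _ g1)
      exact Setup.LineGrp.cj_eq S hL (hγ t ht) hne g3
    have hm : (-1 : A.Fˣ) ∈ d2cH A (cen (iv S u0 * iv S u2)) u := by
      rw [htop]
      trivial
    have hm' : cj (cen (iv S u0 * iv S u2)) (A.E u (-1)) = cen (iv S u0 * iv S u2) := hm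
    rw [A.E_neg_one] at hm'
    have hu := isInv_iv S u
    have hinv : (iv S u)⁻¹ = iv S u := inv_eq_of_mul_eq_one_left hu.1
    rcases S.mem_line_of_normalizes hL hu (fun x hx => by
      rw [← hm', mem_cj, hinv] at hx
      exact hx) with h3 | h3
    · exact hnc _ hL hl0 hl2 h3
    · have h4 : iv S u0 ∈ pol (iv S u) := by
        rw [← S.line_cl hu, ← h3]
        exact hl0
      have h5 := tor_of_comm hu (isInv_iv S u0) h4.2.1.symm h4.2.2.symm
      exact h0.not_tor.2 ⟨_, h5.1, h5.2.1, h5.2.2⟩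
  obtain ⟨t, ht⟩ := exists_unit_notMem ({1, -1, (2 : A.F)⁻¹} : Finset A.F)
  simp only [Finset.mem_insert, Finset.mem_singleton, not_or] at ht
  have ht2 : 2 * (t : A.F) ≠ 1 := by
    intro h
    exact ht.2.2 (eq_inv_of_mul_eq_one_right h)
  have h6 : A.E u t = A.E v t := inv_mul_eq_one.1 (hone t ht2)
  have h7 : (v * u⁻¹) * A.ch t = A.ch t * (v * u⁻¹) := by
    have h8 : u⁻¹ * A.ch t * u = v⁻¹ * A.ch t * v := h6
    calc (v * u⁻¹) * A.ch t = v * (u⁻¹ * A.ch t * u) * u⁻¹ := by group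
      _ = v * (v⁻¹ * A.ch t * v) * u⁻¹ := by rw [h8]
      _ = A.ch t * (v * u⁻¹) := by group
  have h9 : A.ch t * A.ch t ≠ 1 := by
    intro h
    rw [← map_mul, ← map_one A.ch] at h
    have h10 := A.ch_inj h
    have h11 : (t : A.F) * t = 1 := by
      have := congrArg (fun x : A.Fˣ => (x : A.F)) h10
      simpa using this
    rcases mul_self_eq_one_iff.1 h11 with h12 | h12
    · exact ht.1 h12
    · exact ht.2.1 h12
  have h10 := (S.comm_iff_of_mem S.i_inv (by rw [S.cl_i]; exact A.ch_mem t) h9).1 h7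
  rwa [S.cl_i] at h10

end FldData

end Pool.Agent.A1C
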