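import Pool.Agent.A1C.D2C

/-!
# D2D: the algebra of the parametrisation `(c'', β, c, α, c') ↦ c'' β c α c'`

`K`-facts: `K = A.K` is a unipotent line group: `S.uni_noInv`, `S.uni_inverts`, `S.uni_comm`, `S.uni_notMem_cl`, `S.uni_sqrt` (PA5) with `j = i`, `k = A.k`.
An element `d ∈ C` with `d⁻¹ x d ∈ K` (or `d x d⁻¹ ∈ K`) for one `x ∈ K \ 1` normalises `K` (`LineGrp.cj_eq`), so `d ∈ D` (`ch_range`).

`param_inj`: let `c₁ a c₂ = c₁' a' c₂'`, `p = c₁'⁻¹ c₁`, `y = c₂ c₂'⁻¹`, so `p a y = a'`.  Conjugating with `i` (which inverts `K` and centralises `C`)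
`p a⁻¹ y = a'⁻¹ = y⁻¹ a⁻¹ p⁻¹` and `a' = y⁻¹... ` hence: `a' a' = (y⁻¹ a p⁻¹)(p a y) = y⁻¹ a² y` (from the inverse of the second
equation, `a' = y⁻¹ a p⁻¹`).  So `y⁻¹ a² y ∈ K`, `a² ≠ 1` (`K` has no involutions), so `y ∈ D`; unique square roots in `K`: `a' = y⁻¹ a y`, and
`p a y = y⁻¹ a y` gives `p = y⁻¹`.

`good_path`: let `g = α c'`.  Conjugating with `g⁻¹` the three involutions `iv 1`, `iv (α c')`, `iv (c'' β c α c')` become
`j0 = α i α⁻¹ = i α⁻²`, `i`, `j2 = c⁻¹ (i β²) c = i (c⁻¹ β² c)` and `j0 j2 = α² (c⁻¹ β² c)`; its square is not `1` by `Good`.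
If `j0, i, j2` are on the line of a line group `L`, then `j0, i ∈ line K`, `j0 ≠ i`, so `L = K` (`LineGrp.line_inter`), and `i, j2 ∈ line (cj K c)`
(`mem_line_cj` for `i = c⁻¹ i c`), so `L = cj K c`, so `c` normalises `K`, `c ∈ D`: contradiction.  (`iv` is invariant under left multiplication with `C`.)

`good_unique` (b8): for `α, c` given, `α ≠ 1`, `c ∉ D`, there is at most one `β ∈ K` with `β ≠ 1` and `(α² c⁻¹β²c)² = 1`: with `p = α² i = i α⁻² ∈ line K` and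
`q = i (c⁻¹ β² c) ∈ line (cj K c)` one has `p q = α² c⁻¹ β² c`.  `p ≠ q` (otherwise `p, i ∈ line K ∩ line (cj K c)`, so `p = i`, `α² = 1`).
`(p q)² = 1` says that `p` and `q` commute, so `q ∈ pol p = line (cl p)` (`line_cl`).  `cl p ≠ cj K c` (`K` has no involutions, `p ∈ cl p`).  So two such `β, β'`
give `q = q'` by `LineGrp.line_inter`, so `β² = β'²` and `β = β'` (`uni_sqrt`).
-/

namespace Pool.Agent.A1C

universe u

variable {M : Type u} [Univ M] {G : Type u} [Group G] [DGrp M G]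

namespace FldData

variable {S : Setup G} (A : FldData S)

theorem mem_D_of_cj {d x : G} (hd : d ∈ S.C) (hx : x ∈ A.K) (hx1 : x ≠ 1)
    (h : d⁻¹ * x * d ∈ A.K) : d ∈ A.D := by
  have h1 := Setup.LineGrp.cj_eq S A.lineGrp_K hx hx1 h
  rw [A.mem_D, A.ch_range]
  refine ⟨hd, fun y => ?_⟩
  change y ∈ A.K ↔ d * y * d⁻¹ ∈ A.K
  rw [← mem_cj, h1]

private theorem D2D_mem_D {c : G} (hc : c ∈ S.C) (h : cj A.K c = A.K) : c ∈ A.D := by
  rw [A.mem_D, A.ch_range]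
  refine ⟨hc, fun y => ?_⟩
  change y ∈ A.K ↔ c * y * c⁻¹ ∈ A.K
  rw [← mem_cj, h]

private theorem D2D_noInv {x : G} (hx : x ∈ A.K) (h : x * x = 1) : x = 1 :=
  S.uni_noInv S.i_inv A.k_inv A.k_ne.symm A.not_tor x hx h

private theorem D2D_inverts {x : G} (hx : x ∈ A.K) : S.i * x * S.i = x⁻¹ :=
  S.uni_inverts S.i_inv A.k_inv A.k_ne.symm A.not_tor hx

private theorem D2D_sq_inj {x y : G} (hx : x ∈ A.K) (hy : y ∈ A.K) (h : x * x = y * y) : x = y := by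
  obtain ⟨z, _, hz⟩ := S.uni_sqrt S.i_inv A.k_inv A.k_ne.symm A.not_tor (A.K.mul_mem hx hx)
  rw [hz x ⟨hx, rfl⟩, hz y ⟨hy, h.symm⟩]

private theorem D2D_ic {c : G} (hc : c ∈ S.C) : S.i * c = c * S.i := S.comm _ S.i_mem _ hc

private theorem D2D_ii : S.i * S.i = 1 := S.i_inv.1

theorem param_inj {c₁ a c₂ c₁' a' c₂' : G} (h1 : c₁ ∈ S.C) (h2 : c₂ ∈ S.C) (h1' : c₁' ∈ S.C)
    (h2' : c₂' ∈ S.C) (ha : a ∈ A.K) (ha' : a' ∈ A.K) (hne : a ≠ 1)
    (h : c₁ * a * c₂ = c₁' * a' * c₂') :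
    ∃ y ∈ A.D, c₁ = c₁' * y⁻¹ ∧ a = y * a' * y⁻¹ ∧ c₂ = y * c₂' := by
  have hii : S.i * S.i = 1 := D2D_ii
  obtain ⟨p, hp⟩ : ∃ p, p = c₁'⁻¹ * c₁ := ⟨_, rfl⟩
  obtain ⟨y, hy⟩ : ∃ y, y = c₂ * c₂'⁻¹ := ⟨_, rfl⟩
  have hpC : p ∈ S.C := by rw [hp]; exact S.C.mul_mem (S.C.inv_mem h1') h1
  have hyC : y ∈ S.C := by rw [hy]; exact S.C.mul_mem h2 (S.C.inv_mem h2')
  have e1 : p * a * y = a' := by
    rw [hp, hy]
    calc c₁'⁻¹ * c₁ * a * (c₂ * c₂'⁻¹) = c₁'⁻¹ * (c₁ * a * c₂) * c₂'⁻¹ := by group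
      _ = a' := by rw [h]; group
  have e2 : p * a⁻¹ * y = a'⁻¹ := by
    rw [← D2D_inverts A ha, ← D2D_inverts A ha', ← e1]
    have hp' : S.i * p = p * S.i := D2D_ic hpC
    have hy' : S.i * y = y * S.i := D2D_ic hyC
    calc p * (S.i * a * S.i) * y = p * S.i * a * (S.i * y) := by group
      _ = S.i * p * a * (y * S.i) := by rw [hp', hy']
      _ = S.i * (p * a * y) * S.i := by group
  have e3 : a' = y⁻¹ * a * p⁻¹ := by
    rw [← inv_inv a', ← e2]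
    group
  have e4 : y⁻¹ * (a * a) * y = a' * a' := by
    calc y⁻¹ * (a * a) * y = (y⁻¹ * a * p⁻¹) * (p * a * y) := by group
      _ = a' * a' := by rw [← e3, e1]
  have hyD : y ∈ A.D := by
    refine A.mem_D_of_cj hyC (A.K.mul_mem ha ha) (fun h0 => hne (D2D_noInv A ha h0)) ?_
    rw [e4]
    exact A.K.mul_mem ha' ha'
  have hcj : cj A.K y = A.K := by
    refine Setup.LineGrp.cj_eq S A.lineGrp_K (A.K.mul_mem ha ha)
      (fun h0 => hne (D2D_noInv A ha h0)) ?_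
    rw [e4]
    exact A.K.mul_mem ha' ha'
  have hyK : y⁻¹ * a * y ∈ A.K := by
    rw [← hcj, mem_cj]
    have : y * (y⁻¹ * a * y) * y⁻¹ = a := by group
    rw [this]
    exact ha
  have e5 : y⁻¹ * a * y = a' := by
    refine D2D_sq_inj A hyK ha' ?_
    rw [← e4]
    group
  have e6 : p = y⁻¹ := by
    have : p * (a * y) = y⁻¹ * (a * y) := by
      rw [← mul_assoc, e1, ← e5]
      group
    exact mul_right_cancel this
  refine ⟨y, hyD, ?_, ?_, ?_⟩
  · rw [← e6, hp]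
    group
  · rw [← e5]
    group
  · rw [hy]
    group

private theorem D2D_ka {a : G} (ha : a ∈ A.K) (h : a ≠ 1) : ∃ x : A.F, x ≠ 0 ∧ A.ka x = a := by
  obtain ⟨x, hx⟩ := A.mem_K.1 ha
  refine ⟨x, ?_, hx⟩
  rintro rfl
  exact h (by rw [← hx, A.ka_zero])

theorem good_adj {a c b c' c'' : G} (ha : a ∈ A.K) (hb : b ∈ A.K) (hc : c ∈ S.C) (hc' : c' ∈ S.C)
    (hc'' : c'' ∈ S.C) (h : A.Good a c b) :
    A.Adj (a * c') 1 ∧ A.Adj (a * c') (c'' * b * c * a * c') := by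
  obtain ⟨h1, h2, h3, h4⟩ := h
  obtain ⟨x, hx, hxa⟩ := D2D_ka A ha h1
  obtain ⟨y, hy, hyb⟩ := D2D_ka A hb h2
  constructor
  · refine ⟨1, S.C.one_mem, c'⁻¹, S.C.inv_mem hc', -x, neg_ne_zero.2 hx, ?_⟩
    rw [A.ka_neg, hxa]
    group
  · refine ⟨c, hc, c'', hc'', y, hy, ?_⟩
    rw [hyb]
    group

private theorem D2D_i_mem_line : S.i ∈ line A.K := by
  refine ⟨S.i_inv, fun x hx => D2D_inverts A hx⟩

private theorem D2D_p_eq {a : G} (ha : a ∈ A.K) : S.i * (a⁻¹ * a⁻¹) = a * a * S.i := by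
  have h := D2D_inverts A (A.K.mul_mem ha ha)
  have hii : S.i * S.i = 1 := D2D_ii
  have h2 : (a * a)⁻¹ = a⁻¹ * a⁻¹ := by group
  rw [← h2, ← h]
  calc S.i * (S.i * (a * a) * S.i) = (S.i * S.i) * (a * a * S.i) := by group
    _ = a * a * S.i := by rw [hii, one_mul]

private theorem D2D_p_mem {a : G} (ha : a ∈ A.K) : a * a * S.i ∈ line A.K :=
  Setup.LineGrp.mul_line S A.lineGrp_K (D2D_i_mem_line A) (A.K.mul_mem ha ha)

private theorem D2D_i_mem_cj {c : G} (hc : c ∈ S.C) : S.i ∈ line (cj A.K c) := by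
  have h : S.i = c⁻¹ * S.i * c := by
    rw [mul_assoc, D2D_ic hc]
    group
  rw [h]
  exact Setup.mem_line_cj.2 (D2D_i_mem_line A)

private theorem D2D_q_eq {c b : G} (hc : c ∈ S.C) :
    S.i * (c⁻¹ * (b * b) * c) = c⁻¹ * (S.i * (b * b)) * c := by
  have h : S.i * c⁻¹ = c⁻¹ * S.i := D2D_ic (S.C.inv_mem hc)
  calc S.i * (c⁻¹ * (b * b) * c) = (S.i * c⁻¹) * (b * b) * c := by group
    _ = c⁻¹ * (S.i * (b * b)) * c := by rw [h]; group

private theorem D2D_q_mem {c b : G} (hc : c ∈ S.C) (hb : b ∈ A.K) :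
    S.i * (c⁻¹ * (b * b) * c) ∈ line (cj A.K c) := by
  rw [D2D_q_eq hc]
  exact Setup.mem_line_cj.2 (Setup.LineGrp.line_mul S A.lineGrp_K (D2D_i_mem_line A) (A.K.mul_mem hb hb))

private theorem D2D_q_ne {c b : G} (hb : b ∈ A.K) (hb1 : b ≠ 1) :
    S.i ≠ S.i * (c⁻¹ * (b * b) * c) := by
  intro h
  have h1 : c⁻¹ * (b * b) * c = 1 := by
    have : S.i * (c⁻¹ * (b * b) * c) = S.i * 1 := by rw [mul_one]; exact h.symm
    exact mul_left_cancel this
  apply hb1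
  apply D2D_noInv A hb
  calc b * b = c * (c⁻¹ * (b * b) * c) * c⁻¹ := by group
    _ = 1 := by rw [h1]; group

private theorem D2D_p_ne {a : G} (ha : a ∈ A.K) (ha1 : a ≠ 1) : a * a * S.i ≠ S.i := by
  intro h
  apply ha1
  apply D2D_noInv A ha
  have : a * a * S.i = 1 * S.i := by rw [one_mul]; exact h
  exact mul_right_cancel this

private theorem D2D_pq {a c b : G} :
    a * a * S.i * (S.i * (c⁻¹ * (b * b) * c)) = a * a * (c⁻¹ * (b * b) * c) := by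
  have hii : S.i * S.i = 1 := D2D_ii
  calc a * a * S.i * (S.i * (c⁻¹ * (b * b) * c)) = a * a * (S.i * S.i) * (c⁻¹ * (b * b) * c) := by
        group
    _ = _ := by rw [hii, mul_one]

theorem good_path {a c b c' c'' : G} (ha : a ∈ A.K) (hb : b ∈ A.K) (hc : c ∈ S.C) (hc' : c' ∈ S.C)
    (hc'' : c'' ∈ S.C) (h : A.Good a c b) :
    (iv S 1 * iv S (c'' * b * c * a * c')) * (iv S 1 * iv S (c'' * b * c * a * c')) ≠ 1 ∧
    ∀ L, S.LineGrp L → iv S 1 ∈ line L → iv S (c'' * b * c * a * c') ∈ line L →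
      iv S (a * c') ∉ line L := by
  obtain ⟨h1, h2, h3, h4⟩ := h
  have hii : S.i * S.i = 1 := D2D_ii
  obtain ⟨g, hg⟩ : ∃ g, g = a * c' := ⟨_, rfl⟩
  have e0 : c'' * b * c * a * c' = c'' * (b * c * g) := by rw [hg]; group
  have e1 : iv S (c'' * b * c * a * c') = g⁻¹ * (S.i * (c⁻¹ * (b * b) * c)) * g := by
    rw [e0, iv_mul S hc'', D2D_q_eq hc]
    unfold iv
    have hbi : b⁻¹ * S.i * b = S.i * (b * b) := by
      rw [← D2D_inverts A hb]
      calc S.i * b * S.i * S.i * b = S.i * b * (S.i * S.i) * b := by group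
        _ = S.i * (b * b) := by rw [hii]; group
    calc (b * c * g)⁻¹ * S.i * (b * c * g) = g⁻¹ * (c⁻¹ * (b⁻¹ * S.i * b) * c) * g := by group
      _ = _ := by rw [hbi]
  have e2 : iv S 1 = g⁻¹ * (a * a * S.i) * g := by
    rw [iv_one, ← D2D_p_eq A ha, hg]
    have hci : S.i * c' = c' * S.i := D2D_ic hc'
    have hai : a⁻¹ * S.i = S.i * a := by
      rw [← D2D_inverts A ha]
      calc S.i * a * S.i * S.i = S.i * a * (S.i * S.i) := by group
        _ = S.i * a := by rw [hii, mul_one]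
    calc S.i = c'⁻¹ * (c' * S.i) := by group
      _ = c'⁻¹ * (S.i * c') := by rw [hci]
      _ = c'⁻¹ * (S.i * a) * a⁻¹ * c' := by group
      _ = c'⁻¹ * (a⁻¹ * S.i) * a⁻¹ * c' := by rw [hai]
      _ = (a * c')⁻¹ * (S.i * (a⁻¹ * a⁻¹)) * (a * c') := by group
  have e3 : iv S (a * c') = g⁻¹ * S.i * g := by
    rw [hg]
    rfl
  constructor
  · rw [e1, e2]
    have e4 : g⁻¹ * (a * a * S.i) * g * (g⁻¹ * (S.i * (c⁻¹ * (b * b) * c)) * g) =
        g⁻¹ * (a * a * S.i * (S.i * (c⁻¹ * (b * b) * c))) * g := by group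
    rw [e4, D2D_pq]
    intro h5
    apply h4
    calc a * a * (c⁻¹ * (b * b) * c) * (a * a * (c⁻¹ * (b * b) * c)) =
          g * (g⁻¹ * (a * a * (c⁻¹ * (b * b) * c)) * g * (g⁻¹ * (a * a * (c⁻¹ * (b * b) * c)) * g)) *
            g⁻¹ := by group
      _ = 1 := by rw [h5]; group
  · intro L hL hL1 hL2 hL3
    rw [e1] at hL2
    rw [e2] at hL1
    rw [e3] at hL3
    have conv : ∀ j : G, g⁻¹ * j * g ∈ line L → j ∈ line (cj L g⁻¹) := by
      intro j hj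
      have h5 := (Setup.mem_line_cj (g := g⁻¹)).2 hj
      have e5 : g⁻¹⁻¹ * (g⁻¹ * j * g) * g⁻¹ = j := by group
      rwa [e5] at h5
    have hL' := Setup.LineGrp.cj S hL g⁻¹
    have k1 := conv _ hL1
    have k2 := conv _ hL2
    have k3 := conv _ hL3
    have q1 : cj L g⁻¹ = A.K := by
      by_contra hne
      exact D2D_p_ne A ha h1 (Setup.LineGrp.line_inter S hL' A.lineGrp_K hne k1 k3 (D2D_p_mem A ha)
        (D2D_i_mem_line A))
    have q2 : cj L g⁻¹ = cj A.K c := by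
      by_contra hne
      exact D2D_q_ne A hb h2 (Setup.LineGrp.line_inter S hL' (Setup.LineGrp.cj S A.lineGrp_K c) hne
        k3 k2 (D2D_i_mem_cj A hc) (D2D_q_mem A hc hb))
    exact h3 (D2D_mem_D A hc (q2.symm.trans q1))

theorem good_unique {a c b b' : G} (ha : a ∈ A.K) (hc : c ∈ S.C) (hb : b ∈ A.K) (hb' : b' ∈ A.K)
    (hb1 : b ≠ 1) (hb1' : b' ≠ 1) (ha1 : a ≠ 1) (hcD : c ∉ A.D) (h : ¬ A.Good a c b)
    (h' : ¬ A.Good a c b') : b = b' := by
  have key : ∀ b : G, b ∈ A.K → b ≠ 1 → ¬ A.Good a c b →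
      S.i * (c⁻¹ * (b * b) * c) ∈ line (S.cl (a * a * S.i)) := by
    intro b hb hb1 h
    have hp := D2D_p_mem A ha
    have hq := D2D_q_mem A hc hb
    have hsq : (a * a * (c⁻¹ * (b * b) * c)) * (a * a * (c⁻¹ * (b * b) * c)) = 1 := by
      by_contra hne
      exact h ⟨ha1, hb1, hcD, hne⟩
    rw [← D2D_pq (S := S)] at hsq
    rw [S.line_cl hp.1]
    refine ⟨hq.1, ?_, ?_⟩
    · intro heq
      have hne : A.K ≠ cj A.K c := fun h0 => hcD (D2D_mem_D A hc h0.symm)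
      rw [heq] at hq
      exact D2D_p_ne A ha ha1 (Setup.LineGrp.line_inter S A.lineGrp_K
        (Setup.LineGrp.cj S A.lineGrp_K c) hne hp (D2D_i_mem_line A) hq (D2D_i_mem_cj A hc))
    · have hpp := hp.1.1
      have hqq := hq.1.1
      generalize a * a * S.i = p at *
      generalize S.i * (c⁻¹ * (b * b) * c) = q at *
      calc q * p = (p * p) * (q * p) * (q * q) := by rw [hpp, hqq]; group
        _ = p * (p * q * (p * q)) * q := by group
        _ = p * q := by rw [hsq, mul_one]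
  have hp := D2D_p_mem A ha
  have hcl := S.lineGrp_cl hp.1
  have hne : S.cl (a * a * S.i) ≠ cj A.K c := by
    intro h0
    have h1 := S.self_mem_cl hp.1
    rw [h0, mem_cj] at h1
    have h2 : c * (a * a * S.i) * c⁻¹ * (c * (a * a * S.i) * c⁻¹) = 1 := by
      calc c * (a * a * S.i) * c⁻¹ * (c * (a * a * S.i) * c⁻¹) =
            c * ((a * a * S.i) * (a * a * S.i)) * c⁻¹ := by group
        _ = 1 := by rw [hp.1.1]; group
    have h3 := D2D_noInv A h1 h2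
    apply hp.1.2
    calc a * a * S.i = c⁻¹ * (c * (a * a * S.i) * c⁻¹) * c := by group
      _ = 1 := by rw [h3]; group
  have hq := Setup.LineGrp.line_inter S hcl (Setup.LineGrp.cj S A.lineGrp_K c) hne
    (key b hb hb1 h) (key b' hb' hb1' h') (D2D_q_mem A hc hb) (D2D_q_mem A hc hb')
  apply D2D_sq_inj A hb hb'
  have h1 := mul_left_cancel hq
  calc b * b = c * (c⁻¹ * (b * b) * c) * c⁻¹ := by group
    _ = b' * b' := by rw [h1]; group

end FldData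

end Pool.Agent.A1C
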