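import Pool.Agent.A1C.FldData

/-!
# D2Def: definitions for Part D2 (final file)

Points of `C\G` are represented by elements `u` of `G` (the point is `C u`).  `iv S u` is the involution `i_a` of the point
`a = C u`, `A.E u` is the homomorphism `E_a : Fˣ → D_a`, `A.Adj u v` is the relation `a ~ b`.
`Cfg S F` is the configuration from which Parts (D2c) - (D2f) of the paper proof derive a contradiction.
-/

namespace Pool.Agent.A1C

universe u

variable {M : Type u} [Univ M] {G : Type u} [Group G] [DGrp M G]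

/-- the involution of the point `C u` -/
def iv (S : Setup G) (u : G) : G := u⁻¹ * S.i * u

namespace FldData

variable {S : Setup G} (A : FldData S)

/-- the homomorphism `E_a` for `a = C u` -/
def E (u : G) (e : A.Fˣ) : G := u⁻¹ * A.ch e * u

/-- the points `C u` and `C v` are adjacent -/
def Adj (u v : G) : Prop :=
  ∃ c ∈ S.C, ∃ c' ∈ S.C, ∃ x : A.F, x ≠ 0 ∧ v = c' * A.ka x * c * u

/-- the condition on `(α₁, c, α₂)` which makes the path `1, α₁, α₂ c α₁` good -/
def Good (a c b : G) : Prop :=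
  a ≠ 1 ∧ b ≠ 1 ∧ c ∉ A.D ∧
    (a * a * (c⁻¹ * (b * b) * c)) * (a * a * (c⁻¹ * (b * b) * c)) ≠ 1

end FldData

/-- the final configuration of Part D2 -/
structure Cfg (S : Setup G) (F : Type u) [Field F] where
  E : Fˣ →* G
  E_mem : ∀ e, E e ∈ S.C
  E_inj : Function.Injective E
  E_neg : E (-1) = S.i
  l : G
  l_inv : IsInv l
  l_ne : l ≠ S.i
  l_comm : l * S.i ≠ S.i * l
  i0 : G
  i0_inv : IsInv i0
  i0_pol : i0 ∈ pol l
  E0 : Fˣ →* G
  E0_mem : ∀ e, E0 e ∈ S.cl i0
  E0_inj : Function.Injective E0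
  z : G
  z_mem : z ∈ S.cl l
  z_sq : z * z * (z * z) ≠ 1
  rel : ∀ e t : Fˣ, 2 * (t : F) = 1 - e → E0 e * z⁻¹ * (E0 e)⁻¹ * z = E t * (z * z) * (E t)⁻¹

namespace Cfg

variable {S : Setup G} {F : Type u} [Field F] (Q : Cfg S F)

/-- the conjugates `l_[y]` of `l` -/
def lb (y : Fˣ) : G := (Q.E y)⁻¹ * Q.l * Q.E y

end Cfg

end Pool.Agent.A1C
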