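import Pool.Agent.A1C.D2D

/-!
# D2E: ranks of the fibres

`rk_triple_le`: if the set is not empty fix a member `(c₁', a', c₂')`; by `param_inj` every member is `(c₁' y⁻¹, y a' y⁻¹, y c₂')` with `y ∈ D`, so the set is
contained in the image of `D` under a definable map (`rk_mono`, `rk_image_le`).
`rk_pair_le`: the projection of the set of `rk_triple_le`-type triples: fix a member `(a', c₂')` with `c₁'`, then every member is `(y a' y⁻¹, y c₂')`.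
`fibre_le` (the fibre of `Ψ(c, α, c', β, c'') = c'' β c α c'` over `g` on the good set `Ω`): let `q₀ ∈ Ω` be in the fibre (if it is empty the rank is `0`), `v₀ = α₀ c₀'`.
For `q` in the fibre both `α c'` and `v₀` are middle points of paths from `1` to `g`: by `good_adj`, `good_path` and `mid_unique`, `α c' v₀⁻¹ ∈ C`, i.e.
`c₁ α c' = v₀` with `c₁ ∈ C`.  So `(α, c')` lies in a set of rank `≤ rk D` (`rk_pair_le`), and given `(α, c')` the triple `(c'', β, c)` satisfies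
`c'' β c = g (α c')⁻¹` and lies in a set of rank `≤ rk D` (`rk_triple_le`).  Use `rk_le_image_add` for the map `q ↦ (α, c')` on the fibre (reorder the coordinates with
`rk_injOn` where needed; it is enough that the map `(c, (α, (c', (β, c'')))) ↦ (c'', (β, c))` is injective on the fibres).
-/

namespace Pool.Agent.A1C

universe u

variable {M : Type u} [Univ M] {G : Type u} [Group G] [DGrp M G]

namespace FldData

variable {S : Setup G} (A : FldData S)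

theorem df_K : Df (A.K : Set G) := df_cen _

private theorem D2E_dfK : Df {x : G | x ∈ A.K} := A.df_K

private theorem D2E_dfC (S : Setup G) : Df {x : G | x ∈ S.C} := S.dfC

private theorem D2E_dfD : Df {x : G | x ∈ A.D} := A.df_D

/-- the set `Ω` of the parameters `(c, (α, (c', (β, c''))))` -/
def Om : Set (G × G × G × G × G) :=
  {q | q.1 ∈ S.C ∧ q.2.1 ∈ A.K ∧ q.2.2.1 ∈ S.C ∧ q.2.2.2.1 ∈ A.K ∧ q.2.2.2.2 ∈ S.C}

/-- the map `Ψ` -/
def Psi (q : G × G × G × G × G) : G := q.2.2.2.2 * q.2.2.2.1 * q.1 * q.2.1 * q.2.2.1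

/-- the good parameters -/
def OmG : Set (G × G × G × G × G) := {q | q ∈ A.Om ∧ A.Good q.2.1 q.1 q.2.2.2.1}

theorem df_Om : Df A.Om := by
  have hC := D2E_dfC S
  have hK := D2E_dfK A
  exact DfP.and (DfP.mem hC (by fun_prop)) (DfP.and (DfP.mem hK (by fun_prop))
    (DfP.and (DfP.mem hC (by fun_prop)) (DfP.and (DfP.mem hK (by fun_prop))
      (DfP.mem hC (by fun_prop)))))

theorem df_OmG : Df A.OmG := by
  have hD := D2E_dfD A
  refine DfP.and (DfP.mem A.df_Om (by fun_prop)) ?_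
  exact DfP.and (DfP.not (DfP.eq (by fun_prop) (by fun_prop)))
    (DfP.and (DfP.not (DfP.eq (by fun_prop) (by fun_prop)))
      (DfP.and (DfP.not (DfP.mem hD (by fun_prop)))
        (DfP.not (DfP.eq (by fun_prop) (by fun_prop)))))

theorem df_Psi : DfFun (Psi : G × G × G × G × G → G) := by
  unfold Psi
  fun_prop

private theorem D2E_df_triple (v : G) : Df {p : G × G × G | p.1 ∈ S.C ∧ p.2.1 ∈ A.K ∧ p.2.1 ≠ 1 ∧
    p.2.2 ∈ S.C ∧ p.1 * p.2.1 * p.2.2 = v} := by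
  have hC := D2E_dfC S
  have hK := D2E_dfK A
  exact DfP.and (DfP.mem hC (by fun_prop)) (DfP.and (DfP.mem hK (by fun_prop))
    (DfP.and (DfP.not (DfP.eq (by fun_prop) (by fun_prop))) (DfP.and (DfP.mem hC (by fun_prop))
      (DfP.eq (by fun_prop) (by fun_prop)))))

theorem rk_triple_le (v : G) :
    rk {p : G × G × G | p.1 ∈ S.C ∧ p.2.1 ∈ A.K ∧ p.2.1 ≠ 1 ∧ p.2.2 ∈ S.C ∧
      p.1 * p.2.1 * p.2.2 = v} ≤ rk (A.D : Set G) := by
  have hT := D2E_df_triple A v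
  rcases Set.eq_empty_or_nonempty {p : G × G × G | p.1 ∈ S.C ∧ p.2.1 ∈ A.K ∧ p.2.1 ≠ 1 ∧
    p.2.2 ∈ S.C ∧ p.1 * p.2.1 * p.2.2 = v} with h | ⟨q, hq⟩
  · rw [h, rk_empty]
    exact Nat.zero_le _
  · obtain ⟨q1, q2, q3, q4, q5⟩ := hq
    have hf : DfFun (fun y : G => (q.1 * y⁻¹, (y * q.2.1 * y⁻¹, y * q.2.2))) := by fun_prop
    refine le_trans (rk_mono hT (hf.image A.df_D) ?_) (rk_image_le hf A.df_D)
    rintro ⟨c₁, a, c₂⟩ ⟨p1, p2, p3, p4, p5⟩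
    obtain ⟨y, hy, e1, e2, e3⟩ := A.param_inj p1 p4 q1 q4 p2 q2 p3 (p5.trans q5.symm)
    exact ⟨y, hy, Prod.ext e1.symm (Prod.ext e2.symm e3.symm)⟩

private theorem D2E_df_pair (v : G) : Df {p : G × G | p.1 ∈ A.K ∧ p.1 ≠ 1 ∧ p.2 ∈ S.C ∧
    ∃ c ∈ S.C, c * p.1 * p.2 = v} := by
  have hC := D2E_dfC S
  have hK := D2E_dfK A
  refine DfP.and (DfP.mem hK (by fun_prop)) (DfP.and (DfP.not (DfP.eq (by fun_prop) (by fun_prop)))
    (DfP.and (DfP.mem hC (by fun_prop)) ?_))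
  exact DfP.ex (p := fun (p : G × G) (c : G) => c ∈ S.C ∧ c * p.1 * p.2 = v)
    (DfP.and (DfP.mem hC (by fun_prop)) (DfP.eq (by fun_prop) (by fun_prop)))

theorem rk_pair_le (v : G) :
    rk {p : G × G | p.1 ∈ A.K ∧ p.1 ≠ 1 ∧ p.2 ∈ S.C ∧ ∃ c ∈ S.C, c * p.1 * p.2 = v} ≤
      rk (A.D : Set G) := by
  have hT := D2E_df_pair A v
  rcases Set.eq_empty_or_nonempty {p : G × G | p.1 ∈ A.K ∧ p.1 ≠ 1 ∧ p.2 ∈ S.C ∧
    ∃ c ∈ S.C, c * p.1 * p.2 = v} with h | ⟨q, hq⟩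
  · rw [h, rk_empty]
    exact Nat.zero_le _
  · obtain ⟨q1, q2, q3, c0, q4, q5⟩ := hq
    have hf : DfFun (fun y : G => (y * q.1 * y⁻¹, y * q.2)) := by fun_prop
    refine le_trans (rk_mono hT (hf.image A.df_D) ?_) (rk_image_le hf A.df_D)
    rintro ⟨a, c₂⟩ ⟨p1, p2, p3, c1, p4, p5⟩
    obtain ⟨y, hy, e1, e2, e3⟩ := A.param_inj p4 p3 q4 q3 p1 q1 p2 (p5.trans q5.symm)
    exact ⟨y, hy, Prod.ext e2.symm e3.symm⟩

theorem fibre_le (g : G) :
    rk (A.OmG ∩ Psi ⁻¹' {g}) ≤ rk (A.D : Set G) + rk (A.D : Set G) := by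
  have hW : Df (A.OmG ∩ Psi ⁻¹' {g}) := A.df_OmG.inter (df_Psi.preimage (Df.singleton g))
  rcases Set.eq_empty_or_nonempty (A.OmG ∩ Psi ⁻¹' {g}) with h | ⟨q₀, hq₀⟩
  · rw [h, rk_empty]
    exact Nat.zero_le _
  · have hf : DfFun (fun q : G × G × G × G × G => (q.2.1, q.2.2.1)) := by fun_prop
    have key : ∀ q ∈ A.OmG ∩ Psi ⁻¹' {g},
        A.Adj (q.2.1 * q.2.2.1) 1 ∧ A.Adj (q.2.1 * q.2.2.1) g ∧
        (iv S 1 * iv S g) * (iv S 1 * iv S g) ≠ 1 ∧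
        ∀ L, S.LineGrp L → iv S 1 ∈ line L → iv S g ∈ line L →
          iv S (q.2.1 * q.2.2.1) ∉ line L := by
      rintro q ⟨⟨⟨h1, h2, h3, h4, h5⟩, h6⟩, h7⟩
      have h7' : q.2.2.2.2 * q.2.2.2.1 * q.1 * q.2.1 * q.2.2.1 = g := h7
      have k1 := A.good_adj h2 h4 h1 h3 h5 h6
      have k2 := A.good_path h2 h4 h1 h3 h5 h6
      rw [h7'] at k1 k2
      exact ⟨k1.1, k1.2, k2.1, k2.2⟩
    have hv : ∀ q ∈ A.OmG ∩ Psi ⁻¹' {g},
        (q.2.1, q.2.2.1) ∈ {p : G × G | p.1 ∈ A.K ∧ p.1 ≠ 1 ∧ p.2 ∈ S.C ∧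
          ∃ c ∈ S.C, c * p.1 * p.2 = q₀.2.1 * q₀.2.2.1} := by
      intro q hq
      obtain ⟨a1, a2, a3, a4⟩ := key q hq
      obtain ⟨b1, b2, b3, b4⟩ := key q₀ hq₀
      obtain ⟨⟨⟨h1, h2, h3, h4, h5⟩, h6⟩, h7⟩ := hq
      refine ⟨h2, h6.1, h3, _, mid_unique a1 a2 b1 b2 a3 a4, ?_⟩
      group
    refine le_trans (rk_le_image_add (k := rk (A.D : Set G)) hf hW ?_) ?_
    · rintro ⟨a, c'⟩ _
      have hF : Df ((A.OmG ∩ Psi ⁻¹' {g}) ∩
          (fun q : G × G × G × G × G => (q.2.1, q.2.2.1)) ⁻¹' {(a, c')}) :=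
        hW.inter (hf.preimage (Df.singleton _))
      have hh : DfFun (fun q : G × G × G × G × G => (q.2.2.2.2, (q.2.2.2.1, q.1))) := by fun_prop
      have hinj : Set.InjOn (fun q : G × G × G × G × G => (q.2.2.2.2, (q.2.2.2.1, q.1)))
          ((A.OmG ∩ Psi ⁻¹' {g}) ∩
          (fun q : G × G × G × G × G => (q.2.1, q.2.2.1)) ⁻¹' {(a, c')}) := by
        rintro ⟨x1, x2, x3, x4, x5⟩ ⟨_, hx⟩ ⟨y1, y2, y3, y4, y5⟩ ⟨_, hy⟩ hxy
        simp only [Set.mem_preimage, Set.mem_singleton_iff, Prod.mk.injEq] at hx hy hxy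
        obtain ⟨rfl, rfl⟩ := hx
        obtain ⟨rfl, rfl⟩ := hy
        obtain ⟨rfl, rfl, rfl⟩ := hxy
        rfl
      rw [← rk_injOn hh hF hinj]
      refine le_trans (rk_mono (hh.image hF) (D2E_df_triple A (g * (a * c')⁻¹)) ?_)
        (A.rk_triple_le (g * (a * c')⁻¹))
      rintro _ ⟨q, ⟨⟨⟨⟨h1, h2, h3, h4, h5⟩, h6⟩, h7⟩, h8⟩, rfl⟩
      have h7' : q.2.2.2.2 * q.2.2.2.1 * q.1 * q.2.1 * q.2.2.1 = g := h7
      simp only [Set.mem_preimage, Set.mem_singleton_iff, Prod.mk.injEq] at h8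
      obtain ⟨e1, e2⟩ := h8
      refine ⟨h5, h4, h6.2.1, h1, ?_⟩
      rw [← e1, ← e2, ← h7']
      group
    · refine Nat.add_le_add_right (le_trans (rk_mono (hf.image hW)
        (D2E_df_pair A (q₀.2.1 * q₀.2.2.1)) ?_) (A.rk_pair_le (q₀.2.1 * q₀.2.2.1))) _
      rintro _ ⟨q, hq, rfl⟩
      exact hv q hq

end FldData

end Pool.Agent.A1C
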