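import Pool.Agent.A1C.D2E

/-!
# D2F: generic parameters are good

`Ω` is (definitionally) `C ×ˢ K ×ˢ C ×ˢ K ×ˢ C`, a product of irreducible sets (`S.irrC`, `A.irrK`), rank `3 c + 2 κ` by `rk_prod`; `κ = rk K = rk D` by `A.rk_eq`.
`κ > 0`: `K` is infinite (`A.inf`, `ka_inj`).
`ev_good`: by `ev_prod_iff` (four times) it is enough: for generic `c ∈ C`, generic `α ∈ K`, generic `c' ∈ C`, generic `β ∈ K`, generic `c'' ∈ C`
`Good α c β`.  `c ∉ D` for generic `c` because `rk D < rk C` (`ev_notMem`); `α ≠ 1` for generic `α` (`rk {1} = 0 < κ`); for such `c`, `α` all `β ∈ K`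
except `1` and at most one further element are good (`good_unique`), and finite sets have rank `0 < κ`.
-/

namespace Pool.Agent.A1C

universe u

variable {M : Type u} [Univ M] {G : Type u} [Group G] [DGrp M G]

namespace FldData

variable {S : Setup G} (A : FldData S)

open Filter

theorem rk_K_pos : 0 < rk (A.K : Set G) := by
  rw [Nat.pos_iff_ne_zero]
  intro h
  have h1 : (A.K : Set G).Finite := (rk_eq_zero_iff A.df_K).1 h
  have h2 : (Set.range A.ka).Infinite := Set.infinite_range_of_injective A.ka_inj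
  refine h2 (h1.subset ?_)
  rintro _ ⟨x, rfl⟩
  exact A.ka_mem x

theorem rk_K_eq : rk (A.K : Set G) = rk (A.D : Set G) := A.rk_eq

private theorem D2F_Om : A.Om = (S.C : Set G) ×ˢ ((A.K : Set G) ×ˢ ((S.C : Set G) ×ˢ
    ((A.K : Set G) ×ˢ (S.C : Set G)))) := by
  ext q
  simp only [Om, Set.mem_prod, Set.mem_ofPred_eq, SetLike.mem_coe]

theorem irr_Om : Irr A.Om := by
  rw [D2F_Om]
  exact S.irrC.prod (Irr.prod A.irrK (S.irrC.prod (Irr.prod A.irrK S.irrC)))

theorem rk_Om : rk A.Om = 3 * rk (S.C : Set G) + 2 * rk (A.K : Set G) := by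
  rw [D2F_Om]
  have hC := S.irrC
  have hK : Irr (A.K : Set G) := A.irrK
  have h1 := hK.prod hC
  have h2 := hC.prod h1
  have h3 := hK.prod h2
  rw [rk_prod hC.df h3.df hC.ne h3.ne, rk_prod hK.df h2.df hK.ne h2.ne,
    rk_prod hC.df h1.df hC.ne h1.ne, rk_prod hK.df hC.df hK.ne hC.ne]
  ring

private theorem D2F_dfP {X : Type u} [DTy M X] {f g h : X → G} (hf : DfFun f) (hg : DfFun g)
    (hh : DfFun h) : DfP fun z => A.Good (f z) (g z) (h z) := by
  have hD : Df (A.D : Set G) := A.df_D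
  change DfP fun z => ¬ (f z = 1) ∧ ¬ (h z = 1) ∧ ¬ (g z ∈ (A.D : Set G)) ∧
    ¬ ((f z * f z * ((g z)⁻¹ * (h z * h z) * g z)) *
      (f z * f z * ((g z)⁻¹ * (h z * h z) * g z)) = 1)
  repeat' first
    | assumption
    | fun_prop
    | apply DfP.and
    | apply DfP.not
    | apply DfP.eq
    | (apply DfP.mem; assumption)

private theorem D2F_ev_ne : ∀ᶠ x in gen (A.K : Set G), x ≠ 1 := by
  have h := ev_notMem (A := (A.K : Set G)) (B := {1}) A.df_K (Df.singleton 1) (by
    refine lt_of_le_of_lt (rk_mono (A.df_K.inter (Df.singleton 1)) (Df.singleton 1)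
      Set.inter_subset_right) ?_
    rw [rk_singleton]
    exact A.rk_K_pos)
  exact h.mono fun x hx => by simpa using hx

theorem ev_good (h : rk (A.D : Set G) < rk (S.C : Set G)) :
    ∀ᶠ q in gen A.Om, A.Good q.2.1 q.1 q.2.2.2.1 := by
  have hC := S.irrC
  have hK : Irr (A.K : Set G) := A.irrK
  have h1 := hK.prod hC
  have h2 := hC.prod h1
  have h3 := hK.prod h2
  rw [D2F_Om]
  refine (ev_prod_iff hC h3 (p := fun c r => A.Good r.1 c r.2.2.1)
    (A.D2F_dfP (by fun_prop) (by fun_prop) (by fun_prop))).2 ?_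
  have hcD : ∀ᶠ c in gen (S.C : Set G), c ∉ A.D := by
    refine ev_notMem (B := (A.D : Set G)) hC.df A.df_D ?_
    refine lt_of_le_of_lt (rk_mono (hC.df.inter A.df_D) A.df_D Set.inter_subset_right) h
  filter_upwards [ev_mem (S.C : Set G), hcD] with c hc hcD
  refine (ev_prod_iff hK h2 (p := fun a r => A.Good a c r.2.1)
    (A.D2F_dfP (by fun_prop) (by fun_prop) (by fun_prop))).2 ?_
  filter_upwards [ev_mem (A.K : Set G), A.D2F_ev_ne] with a ha ha1
  refine (ev_prod_iff hC h1 (p := fun c' r => A.Good a c r.1)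
    (A.D2F_dfP (by fun_prop) (by fun_prop) (by fun_prop))).2 ?_
  refine Eventually.of_forall fun c' => ?_
  refine (ev_prod_iff hK hC (p := fun b c'' => A.Good a c b)
    (A.D2F_dfP (by fun_prop) (by fun_prop) (by fun_prop))).2 ?_
  have key : ∀ᶠ b in gen (A.K : Set G), A.Good a c b := by
    have hp : DfP fun b : G => A.Good a c b := A.D2F_dfP (by fun_prop) (by fun_prop) (by fun_prop)
    rw [ev_iff A.df_K hp]
    refine Or.inr ?_
    have hfin : {x : G | x ∈ (A.K : Set G) ∧ ¬ A.Good a c x}.Finite := by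
      have hs : {x : G | x ∈ (A.K : Set G) ∧ x ≠ 1 ∧ ¬ A.Good a c x}.Subsingleton := by
        rintro x ⟨hx, hx1, hx2⟩ y ⟨hy, hy1, hy2⟩
        exact A.good_unique ha hc hx hy hx1 hy1 ha1 hcD hx2 hy2
      refine (hs.finite.insert 1).subset ?_
      rintro x ⟨hx, hx2⟩
      by_cases hx1 : x = 1
      · exact Set.mem_insert_iff.2 (Or.inl hx1)
      · exact Set.mem_insert_iff.2 (Or.inr ⟨hx, hx1, hx2⟩)
    rw [(rk_eq_zero_iff (Df.of_finite hfin)).2 hfin]
    exact A.rk_K_pos
  exact key.mono fun b hb => Eventually.of_forall fun _ => hb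

theorem rk_OmG (h : rk (A.D : Set G) < rk (S.C : Set G)) : rk A.OmG = rk A.Om :=
  ev_rk A.df_Om (A.D2F_dfP (by fun_prop) (by fun_prop) (by fun_prop)) (A.ev_good h)

theorem OmG_nonempty (h : rk (A.D : Set G) < rk (S.C : Set G)) : A.OmG.Nonempty := by
  obtain ⟨q, hq, hq'⟩ := ev_exists A.irr_Om.ne (A.ev_good h)
  exact ⟨q, hq, hq'⟩

end FldData

end Pool.Agent.A1C
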