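import Pool.Agent.A1C.D2Def

/-!
# D2I: (D2c), the relations between the `l_[y]`

`comm_z`: `x (z z) = (z z) x` iff `x ∈ cl l` (`S.comm_iff_of_mem` with `z_sq`), and the same for `z` (`z z ≠ 1`).
`star₀`: let `u, v : Fˣ`, `v = 2 - u`.  Put `t = 1/u`, `e = 1 - 2 t = (u - 2)/u = -v/u` (a unit), `t' = 1/v`, so `2 t' = 1 - e⁻¹` (`e⁻¹ = -u/v`, `1 + u/v = 2/v`).
`ρ = E0 e * z⁻¹ * (E0 e)⁻¹ * z = E t (z z) (E t)⁻¹`, and since `l` inverts `E0 e` (`l ∈ pol i0` by `pol_symm`, `S.pol_inverts`) and commutes with `z`: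
`l ρ l = (E0 e)⁻¹ z⁻¹ (E0 e) z = E0 e⁻¹ z⁻¹ (E0 e⁻¹)⁻¹ z = E t' (z z) (E t')⁻¹`.  So `h = (E t')⁻¹ l (E t)` commutes with `z z`, so `h ∈ cl l` commutes with `l`.
`h = E v * l * (E u)⁻¹`.  `h l = l h` gives `l * lb u * l = lb v`.
`star`: conjugate with `E y`: `(E y)⁻¹ (lb u) (E y) = lb (u y)`, `u = v / y`.
`lb_inj`: if `lb y = lb v` then `E (y v⁻¹)` commutes with `l`; if `y ≠ v` then `E (y v⁻¹) ∈ C \ 1`.  By `S.comm_iff` for `l`: `E(..) ∈ cl l` or `E(..) ∈ pol l`.  In the first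
case `l = i` (`cl_inj`, `cl_i`), excluded.  In the second `E(..)` is an involution of `C`, so it is `i`, and `l` commutes with `i`, excluded.
`lb_i`: `E (-1) = i`.
-/

namespace Pool.Agent.A1C

universe u

variable {M : Type u} [Univ M] {G : Type u} [Group G] [DGrp M G]

namespace Cfg

variable {S : Setup G} {F : Type u} [Field F] (Q : Cfg S F)

theorem comm_zz {x : G} : x * (Q.z * Q.z) = (Q.z * Q.z) * x ↔ x ∈ S.cl Q.l :=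
  S.comm_iff_of_mem Q.l_inv ((S.cl Q.l).mul_mem Q.z_mem Q.z_mem) Q.z_sq

theorem comm_z {x : G} : x * Q.z = Q.z * x ↔ x ∈ S.cl Q.l := by
  refine S.comm_iff_of_mem Q.l_inv Q.z_mem (fun h => Q.z_sq ?_)
  rw [h, one_mul]

theorem l_E0 (e : Fˣ) : Q.l * Q.E0 e * Q.l = (Q.E0 e)⁻¹ :=
  S.pol_inverts Q.i0_inv (pol_symm Q.l_inv Q.i0_pol) (Q.E0_mem e)

theorem lb_isInv (y : Fˣ) : IsInv (Q.lb y) :=
  Q.l_inv.cj (Q.E y)

theorem lb_one : Q.lb 1 = Q.l := by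
  simp [lb]

theorem lb_mul (y s : Fˣ) : (Q.E s)⁻¹ * Q.lb y * Q.E s = Q.lb (y * s) := by
  unfold lb
  rw [map_mul]
  group

theorem i_lb (y : Fˣ) : S.i * Q.lb y * S.i = Q.lb (-y) := by
  have h := Q.lb_mul y (-1)
  rw [Q.E_neg, inv_eq_of_mul_eq_one_left S.i_inv.1, mul_neg, mul_one] at h
  exact h

theorem star₀ (h2 : (2 : F) ≠ 0) {u v : Fˣ} (h : (v : F) = 2 - u) :
    Q.l * Q.lb u * Q.l = Q.lb v := by
  have hu : (u : F) ≠ 0 := u.ne_zero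
  have hv : (v : F) ≠ 0 := v.ne_zero
  have hl : Q.l * Q.l = 1 := Q.l_inv.1
  have hl' : Q.l⁻¹ = Q.l := inv_eq_of_mul_eq_one_left hl
  have r1 := Q.rel (-(v * u⁻¹)) u⁻¹ (by
    push_cast
    rw [h]
    field_simp
    ring)
  have r2 := Q.rel (-(v * u⁻¹))⁻¹ v⁻¹ (by
    have e : (-(v * u⁻¹))⁻¹ = -(u * v⁻¹) := by
      rw [inv_neg, mul_inv, inv_inv, mul_comm]
    rw [e]
    push_cast
    have h' : (2 : F) = u + v := by rw [h]; ring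
    rw [h']
    field_simp
    ring)
  rw [map_inv, map_inv, inv_inv, inv_inv] at r2
  rw [map_inv, inv_inv] at r1
  have hz : Q.l * Q.z = Q.z * Q.l := (Q.comm_z.2 (S.self_mem_cl Q.l_inv))
  have hz' : Q.l * Q.z * Q.l = Q.z := by rw [hz, mul_assoc, hl, mul_one]
  have hz'' : Q.l * Q.z⁻¹ * Q.l = Q.z⁻¹ := by
    have := congrArg (·⁻¹) hz'
    simpa [mul_inv_rev, hl', mul_assoc] using this
  have hE := Q.l_E0 (-(v * u⁻¹))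
  have hE' : Q.l * (Q.E0 (-(v * u⁻¹)))⁻¹ * Q.l = Q.E0 (-(v * u⁻¹)) := by
    have := congrArg (·⁻¹) hE
    simpa [mul_inv_rev, hl', mul_assoc] using this
  have key : Q.l * ((Q.E u)⁻¹ * (Q.z * Q.z) * Q.E u) * Q.l = (Q.E v)⁻¹ * (Q.z * Q.z) * Q.E v := by
    rw [← r1, ← r2]
    generalize Q.E0 (-(v * u⁻¹)) = a at *
    calc Q.l * (a * Q.z⁻¹ * a⁻¹ * Q.z) * Q.l
        = Q.l * (a * (Q.l * Q.l) * Q.z⁻¹ * (Q.l * Q.l) * a⁻¹ * (Q.l * Q.l) * Q.z) * Q.l := by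
          rw [hl]; group
      _ = (Q.l * a * Q.l) * (Q.l * Q.z⁻¹ * Q.l) * (Q.l * a⁻¹ * Q.l) * (Q.l * Q.z * Q.l) := by group
      _ = a⁻¹ * Q.z⁻¹ * a * Q.z := by rw [hE, hz'', hE', hz']
  have hm : Q.E v * Q.l * (Q.E u)⁻¹ ∈ S.cl Q.l := by
    rw [← Q.comm_zz]
    calc Q.E v * Q.l * (Q.E u)⁻¹ * (Q.z * Q.z)
        = Q.E v * (Q.l * ((Q.E u)⁻¹ * (Q.z * Q.z) * Q.E u) * Q.l) * Q.l⁻¹ * (Q.E u)⁻¹ := by group
      _ = Q.E v * ((Q.E v)⁻¹ * (Q.z * Q.z) * Q.E v) * Q.l * (Q.E u)⁻¹ := by rw [key, hl']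
      _ = Q.z * Q.z * (Q.E v * Q.l * (Q.E u)⁻¹) := by group
  have hc : Q.E v * Q.l * (Q.E u)⁻¹ * Q.l = Q.l * (Q.E v * Q.l * (Q.E u)⁻¹) :=
    S.cl_comm hm (S.self_mem_cl Q.l_inv)
  unfold lb
  calc Q.l * ((Q.E u)⁻¹ * Q.l * Q.E u) * Q.l
      = (Q.E v)⁻¹ * (Q.E v * Q.l * (Q.E u)⁻¹ * Q.l) * Q.E u * Q.l := by group
    _ = (Q.E v)⁻¹ * Q.l * Q.E v * (Q.l * Q.l) := by rw [hc]; group
    _ = (Q.E v)⁻¹ * Q.l * Q.E v := by rw [hl, mul_one]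

theorem star (h2 : (2 : F) ≠ 0) {y v w : Fˣ} (h : (w : F) = 2 * y - v) :
    Q.lb y * Q.lb v * Q.lb y = Q.lb w := by
  have hy : (y : F) ≠ 0 := y.ne_zero
  have h0 := Q.star₀ h2 (u := v * y⁻¹) (v := w * y⁻¹) (by
    push_cast
    rw [h]
    field_simp)
  have h1 := Q.lb_mul (v * y⁻¹) y
  have h3 := Q.lb_mul (w * y⁻¹) y
  have h4 := Q.lb_mul 1 y
  rw [inv_mul_cancel_right] at h1 h3
  rw [one_mul, Q.lb_one] at h4
  rw [← h1, ← h3, ← h4, ← h0]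
  group

theorem lb_inj {y v : Fˣ} (h : Q.lb y = Q.lb v) : y = v := by
  by_contra hne
  have hx1 : Q.E (v * y⁻¹) ≠ 1 := by
    intro h1
    have h2 : v * y⁻¹ = 1 := Q.E_inj (by rw [h1, map_one])
    exact hne (mul_inv_eq_one.1 h2).symm
  have hc : Q.E (v * y⁻¹) * Q.l = Q.l * Q.E (v * y⁻¹) := by
    rw [map_mul, map_inv]
    unfold lb at h
    calc Q.E v * (Q.E y)⁻¹ * Q.l = Q.E v * ((Q.E y)⁻¹ * Q.l * Q.E y) * (Q.E y)⁻¹ := by group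
      _ = Q.E v * ((Q.E v)⁻¹ * Q.l * Q.E v) * (Q.E y)⁻¹ := by rw [h]
      _ = Q.l * (Q.E v * (Q.E y)⁻¹) := by group
  rcases (S.comm_iff Q.l_inv).1 hc with h1 | h1
  · have h2 : Q.E (v * y⁻¹) ∈ S.cl S.i := by rw [S.cl_i]; exact Q.E_mem _
    exact Q.l_ne (S.cl_inj Q.l_inv S.i_inv h1 h2 hx1)
  · rcases S.i_uniq _ (Q.E_mem _) h1.1.1 with h2 | h2
    · exact hx1 h2
    · rw [h2] at hc
      exact Q.l_comm hc.symm

end Cfg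

end Pool.Agent.A1C
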