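import Pool.Agent.A1C.D2I

/-!
# D2J: rigidity (D2d)

Let `g ≠ 1` commute with `lb y` for all `y ∉ s`, `s` finite.  For each such `y`: `g ∈ cl (lb y)` or `g ∈ pol (lb y)` (`S.comm_iff`).  `g ∈ cl (lb y)` and `g ∈ cl (lb v)` imply
`lb y = lb v` (`cl_inj`), `y = v` (`lb_inj`).  So enlarging `s` by one element we may assume `g ∈ pol (lb y)` for all `y ∉ s`; so `g` is an involution and
`lb y ∈ pol g` (`pol_symm`).  Let `f : Fˣ`.  `(E f)⁻¹ (lb y) (E f) = lb (y f)`, so for `y ∉ s`: `lb (y f) ∈ pol (g')`, `g' = (E f)⁻¹ g (E f)` (`pol_cj`), and for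
`y f ∉ s` also `lb (y f) ∈ pol g`.  Take two different such `y` (`F` is infinite): the lines `pol g` and `pol g'` have two different common points, so `g = g'`
(`line_cl`, `LineGrp.line_inter`; or `S.pole_unique`).  So `g` commutes with `E f` for all `f`.  Take `f` with `f² ≠ 1`: `g ∈ C` (`S.comm_iff_of_mem`, `cl_i`), so `g = i`.
Then `lb y` commutes with `i` for some `y`, so `l` commutes with `i` (conjugate with `(E y)⁻¹`; `E y` commutes with `i`): contradiction to `l_comm`.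
-/

namespace Pool.Agent.A1C

universe u

variable {M : Type u} [Univ M] {G : Type u} [Group G] [DGrp M G]

namespace Cfg

variable {S : Setup G} {F : Type u} [Field F] (Q : Cfg S F)

private theorem D2J_inf [Infinite F] : Infinite Fˣ := by
  by_contra hfin
  rw [not_infinite_iff_finite] at hfin
  have h1 : (Set.range (fun u : Fˣ => (u : F))).Finite := Set.finite_range _
  have h2 : (Set.univ : Set F) ⊆ insert 0 (Set.range (fun u : Fˣ => (u : F))) := by
    intro x _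
    by_cases hx : x = 0
    · exact Or.inl hx
    · exact Or.inr ⟨Units.mk0 x hx, rfl⟩
  exact Set.infinite_univ ((h1.insert 0).subset h2)

private theorem D2J_sq [Infinite F] : ∃ f : Fˣ, f * f ≠ 1 := by
  classical
  haveI : Infinite Fˣ := D2J_inf
  obtain ⟨f, hf⟩ := Infinite.exists_notMem_finset ({1, -1} : Finset Fˣ)
  refine ⟨f, fun h => hf ?_⟩
  rw [Finset.mem_insert, Finset.mem_singleton]
  have h1 : ((f : F) - 1) * (f + 1) = 0 := by
    have := congrArg (fun u : Fˣ => (u : F)) h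
    simp only [Units.val_mul, Units.val_one] at this
    linear_combination this
  rcases mul_eq_zero.1 h1 with h2 | h2
  · exact Or.inl (Units.ext (by rw [Units.val_one]; exact sub_eq_zero.1 h2))
  · exact Or.inr (Units.ext (by
      rw [Units.val_neg, Units.val_one]; exact eq_neg_of_add_eq_zero_left h2))

theorem rigid [Infinite F] (s : Finset Fˣ) {g : G} (h : ∀ y : Fˣ, y ∉ s → g * Q.lb y = Q.lb y * g) :
    g = 1 := by
  classical
  haveI : Infinite Fˣ := D2J_inf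
  by_contra hg
  -- enlarge `s`
  obtain ⟨s', hs'⟩ : ∃ s' : Finset Fˣ, ∀ y : Fˣ, y ∉ s' → g ∈ pol (Q.lb y) := by
    by_cases hex : ∃ y0, g ∈ S.cl (Q.lb y0)
    · obtain ⟨y0, hy0⟩ := hex
      refine ⟨insert y0 s, fun y hy => ?_⟩
      rw [Finset.mem_insert, not_or] at hy
      rcases (S.comm_iff (Q.lb_isInv y)).1 (h y hy.2) with h1 | h1
      · exact absurd (Q.lb_inj (S.cl_inj (Q.lb_isInv y) (Q.lb_isInv y0) h1 hy0 hg)) hy.1
      · exact h1
    · refine ⟨s, fun y hy => ?_⟩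
      rcases (S.comm_iff (Q.lb_isInv y)).1 (h y hy) with h1 | h1
      · exact absurd ⟨y, h1⟩ hex
      · exact h1
  obtain ⟨y1, hy1⟩ := Infinite.exists_notMem_finset s'
  have hgi : IsInv g := (hs' y1 hy1).1
  have hpol : ∀ y : Fˣ, y ∉ s' → Q.lb y ∈ pol g := fun y hy =>
    pol_symm (Q.lb_isInv y) (hs' y hy)
  have hcomm : ∀ f : Fˣ, g * Q.E f = Q.E f * g := by
    intro f
    let t : Finset Fˣ := s' ∪ s'.image (fun y => y * f⁻¹)
    obtain ⟨a, ha⟩ := Infinite.exists_notMem_finset t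
    obtain ⟨b, hb⟩ := Infinite.exists_notMem_finset (insert a t)
    rw [Finset.mem_insert, not_or] at hb
    have ht : ∀ y : Fˣ, y ∉ t → y ∉ s' ∧ y * f ∉ s' := by
      intro y hy
      rw [Finset.mem_union, not_or] at hy
      refine ⟨hy.1, fun hyf => hy.2 (Finset.mem_image.2 ⟨y * f, hyf, ?_⟩)⟩
      rw [mul_inv_cancel_right]
    have h3 : ∀ y : Fˣ, y ∉ t → Q.lb (y * f) ∈ pol g ∧
        Q.lb (y * f) ∈ pol ((Q.E f)⁻¹ * g * Q.E f) := by
      intro y hy
      refine ⟨hpol _ (ht y hy).2, ?_⟩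
      rw [← Q.lb_mul y f]
      exact (pol_cj (Q.E f)).2 (hpol y (ht y hy).1)
    have hne : Q.lb (a * f) ≠ Q.lb (b * f) := fun h4 =>
      hb.1 (mul_right_cancel (Q.lb_inj h4)).symm
    have h5 : g = (Q.E f)⁻¹ * g * Q.E f :=
      S.pole_unique hne hgi (hgi.cj (Q.E f)) (h3 a ha).1 (h3 b hb.2).1 (h3 a ha).2 (h3 b hb.2).2
    calc g * Q.E f = Q.E f * ((Q.E f)⁻¹ * g * Q.E f) := by group
      _ = Q.E f * g := by rw [← h5]
  obtain ⟨f, hf⟩ := D2J_sq (F := F)
  have hEf : Q.E f ∈ S.cl S.i := by rw [S.cl_i]; exact Q.E_mem f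
  have hEf2 : Q.E f * Q.E f ≠ 1 := by
    rw [← map_mul]
    intro h6
    exact hf (Q.E_inj (by rw [h6, map_one]))
  have hgC : g ∈ S.C := by
    rw [← S.cl_i]
    exact (S.comm_iff_of_mem S.i_inv hEf hEf2).1 (hcomm f)
  rcases S.i_uniq g hgC hgi.1 with h7 | h7
  · exact hg h7
  · have h8 := (hs' y1 hy1).2.2
    rw [h7] at h8
    have h9 := S.comm _ (Q.E_mem y1) _ S.i_mem
    apply Q.l_comm
    unfold lb at h8
    calc Q.l * S.i = Q.E y1 * ((Q.E y1)⁻¹ * Q.l * Q.E y1) * ((Q.E y1)⁻¹ * S.i) := by group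
      _ = Q.E y1 * ((Q.E y1)⁻¹ * Q.l * Q.E y1) * (S.i * (Q.E y1)⁻¹) := by
          congr 1
          calc (Q.E y1)⁻¹ * S.i = (Q.E y1)⁻¹ * (S.i * Q.E y1) * (Q.E y1)⁻¹ := by group
            _ = S.i * (Q.E y1)⁻¹ := by rw [← h9]; group
      _ = Q.E y1 * ((Q.E y1)⁻¹ * Q.l * Q.E y1 * S.i) * (Q.E y1)⁻¹ := by group
      _ = Q.E y1 * (S.i * ((Q.E y1)⁻¹ * Q.l * Q.E y1)) * (Q.E y1)⁻¹ := by rw [h8]
      _ = (Q.E y1 * S.i) * (Q.E y1)⁻¹ * Q.l := by group
      _ = S.i * Q.l := by rw [h9]; group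

end Cfg

end Pool.Agent.A1C
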