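import Pool.Agent.A1C.D2J
import Pool.Agent.A1C.D2C

/-!
# D2K: the translations `T t` (D2e)

For `y, v : Fˣ` let `P = lb y * lb v`.  By `star` for all `s : Fˣ` outside a finite set (`s ≠ 2 v`, `s + 2 (y - v) ≠ 0`)
`P * lb s * P⁻¹ = lb y (lb v (lb s) (lb v)) lb y = lb w`, `w = s + 2 (y - v)`.  By `rigid`, `P` depends only on `2 (y - v)`.  For `t : F` there are
`y, v : Fˣ` with `2 (y - v) = t` (choose `v ≠ 0, - t/2`).  This defines `T`.
`T_act`: `T t * lb s * (T t)⁻¹ = lb w` for all `s w : Fˣ` with `w = s + t` outside a finite set of `s`.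
`T_add`, `T_zero`, `T_neg`: by `rigid` (both sides act in the same way on almost all `lb s`), `T 0 = lb y * lb y = 1`.
`T_conj`: `lb_mul`.  `T_inj`: if `T t = 1` then `lb s = lb (s + t)` for almost all `s`, so `t = 0` (`lb_inj`).
`T_one_i`: `E (-1) = i`, so `i T(-1) i = T 1` and `T 1 * i * T (-1) = T 1 * T 1 * i = T 2 * i`; the element `l⁻¹ T 2 i` commutes with almost all `lb s`:
`i (lb s) i = lb (-s)`, `T 2 (lb (-s)) (T 2)⁻¹ = lb (2 - s) = l (lb s) l` (`star₀`).  So it is `1`.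
The statement is given as the existence of a function with these properties.
-/

namespace Pool.Agent.A1C

universe u

variable {M : Type u} [Univ M] {G : Type u} [Group G] [DGrp M G]

namespace Cfg

variable {S : Setup G} {F : Type u} [Field F] (Q : Cfg S F)

private theorem D2K_inv (y : Fˣ) : (Q.lb y)⁻¹ = Q.lb y :=
  inv_eq_of_mul_eq_one_left (Q.lb_isInv y).1

/-- `P` acts on almost all `lb s` as the translation by `t` -/
private def D2K_Acts (P : G) (t : F) : Prop :=
  ∃ X : Finset F, ∀ s w : Fˣ, (s : F) ∉ X → (w : F) = s + t → P * Q.lb s * P⁻¹ = Q.lb w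

private theorem D2K_acts_lb (h2 : (2 : F) ≠ 0) (y v : Fˣ) :
    Q.D2K_Acts (Q.lb y * Q.lb v) (2 * ((y : F) - v)) := by
  refine ⟨{2 * (v : F)}, fun s w hs hw => ?_⟩
  rw [Finset.mem_singleton] at hs
  have hm : 2 * (v : F) - s ≠ 0 := fun h => hs (sub_eq_zero.1 h).symm
  have h1 : Q.lb v * Q.lb s * Q.lb v = Q.lb (Units.mk0 _ hm) := Q.star h2 rfl
  have h3 : Q.lb y * Q.lb (Units.mk0 _ hm) * Q.lb y = Q.lb w := by
    refine Q.star h2 ?_
    rw [hw, Units.val_mk0]
    ring
  rw [mul_inv_rev, D2K_inv, D2K_inv, ← h3, ← h1]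
  simp only [mul_assoc]

private theorem D2K_acts_mul {P P' : G} {t t' : F} (h : Q.D2K_Acts P t) (h' : Q.D2K_Acts P' t') :
    Q.D2K_Acts (P * P') (t + t') := by
  classical
  obtain ⟨X, hX⟩ := h
  obtain ⟨X', hX'⟩ := h'
  refine ⟨X' ∪ X.image (fun x => x - t') ∪ {-t'}, fun s w hs hw => ?_⟩
  simp only [Finset.mem_union, Finset.mem_singleton, not_or] at hs
  obtain ⟨⟨h1, h2⟩, h3⟩ := hs
  have hm : (s : F) + t' ≠ 0 := fun h => h3 (eq_neg_of_add_eq_zero_left h)
  have e1 := hX' s (Units.mk0 _ hm) h1 rfl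
  have e2 := hX (Units.mk0 _ hm) w (by
    intro h
    refine h2 (Finset.mem_image.2 ⟨_, h, ?_⟩)
    rw [Units.val_mk0]
    ring) (by
    rw [hw, Units.val_mk0]
    ring)
  rw [← e2, ← e1]
  group

private theorem D2K_acts_inv {P : G} {t : F} (h : Q.D2K_Acts P t) : Q.D2K_Acts P⁻¹ (-t) := by
  classical
  obtain ⟨X, hX⟩ := h
  refine ⟨X.image (fun x => x + t), fun s w hs hw => ?_⟩
  have e1 := hX w s (by
    intro h
    refine hs (Finset.mem_image.2 ⟨_, h, ?_⟩)
    rw [hw]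
    ring) (by
    rw [hw]
    ring)
  rw [← e1]
  group

private theorem D2K_eq_one [Infinite F] {P : G} (h : Q.D2K_Acts P 0) : P = 1 := by
  classical
  obtain ⟨X, hX⟩ := h
  refine Q.rigid (X.preimage (fun u : Fˣ => (u : F)) (Units.val_injective.injOn)) fun y hy => ?_
  rw [Finset.mem_preimage] at hy
  have := hX y y hy (add_zero _).symm
  rw [mul_inv_eq_iff_eq_mul] at this
  exact this

private theorem D2K_unique [Infinite F] {P P' : G} {t : F} (h : Q.D2K_Acts P t)
    (h' : Q.D2K_Acts P' t) : P = P' := by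
  have h1 := Q.D2K_acts_mul h (Q.D2K_acts_inv h')
  rw [add_neg_cancel] at h1
  exact mul_inv_eq_one.1 (Q.D2K_eq_one h1)

private theorem D2K_exists [Infinite F] (h2 : (2 : F) ≠ 0) (t : F) : ∃ P, Q.D2K_Acts P t := by
  classical
  obtain ⟨v, hv⟩ := exists_unit_notMem ({-(t / 2)} : Finset F)
  rw [Finset.mem_singleton] at hv
  have hy : t / 2 + (v : F) ≠ 0 := fun h => hv (eq_neg_of_add_eq_zero_right h)
  refine ⟨Q.lb (Units.mk0 _ hy) * Q.lb v, ?_⟩
  have := Q.D2K_acts_lb h2 (Units.mk0 _ hy) v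
  rw [Units.val_mk0, add_sub_cancel_right, mul_div_cancel₀ _ h2] at this
  exact this

private theorem D2K_conj {P : G} {t : F} (h : Q.D2K_Acts P t) (s : Fˣ) :
    Q.D2K_Acts ((Q.E s)⁻¹ * P * Q.E s) (s * t) := by
  classical
  obtain ⟨X, hX⟩ := h
  refine ⟨X.image (fun x => s * x), fun x w hx hw => ?_⟩
  have e1 := hX (x * s⁻¹) (w * s⁻¹) (by
    intro h
    refine hx (Finset.mem_image.2 ⟨_, h, ?_⟩)
    rw [Units.val_mul, mul_left_comm, Units.mul_inv, mul_one]) (by
    rw [Units.val_mul, Units.val_mul, hw, add_mul]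
    congr 1
    rw [mul_comm (s : F) t, mul_assoc, Units.mul_inv, mul_one])
  have e2 := Q.lb_mul (x * s⁻¹) s
  have e3 := Q.lb_mul (w * s⁻¹) s
  rw [inv_mul_cancel_right] at e2 e3
  rw [← e2, ← e3, ← e1]
  group

theorem exists_T [Infinite F] (h2 : (2 : F) ≠ 0) :
    ∃ T : F → G, (∀ s t, T (s + t) = T s * T t) ∧ Function.Injective T ∧
      (∀ (s : Fˣ) (t : F), (Q.E s)⁻¹ * T t * Q.E s = T (s * t)) ∧
      T 1 * S.i * T (-1) = Q.l := by
  classical
  choose T hT using Q.D2K_exists h2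
  have hadd : ∀ s t, T (s + t) = T s * T t := fun s t =>
    Q.D2K_unique (hT _) (Q.D2K_acts_mul (hT s) (hT t))
  have h0 : T 0 = 1 := Q.D2K_eq_one (hT 0)
  have hneg : ∀ t, T (-t) = (T t)⁻¹ := fun t => Q.D2K_unique (hT _) (Q.D2K_acts_inv (hT t))
  have hker : ∀ t, T t = 1 → t = 0 := by
    intro t ht
    obtain ⟨X, hX⟩ := hT t
    obtain ⟨s, hs⟩ := exists_unit_notMem (X ∪ {-t})
    simp only [Finset.mem_union, Finset.mem_singleton, not_or] at hs
    have hm : (s : F) + t ≠ 0 := fun h => hs.2 (eq_neg_of_add_eq_zero_left h)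
    have e1 := hX s (Units.mk0 _ hm) hs.1 rfl
    rw [ht, one_mul, inv_one, mul_one] at e1
    have e2 := congrArg (fun u : Fˣ => (u : F)) (Q.lb_inj e1)
    simp only [Units.val_mk0] at e2
    exact (left_eq_add.1 e2)
  have hconj : ∀ (s : Fˣ) (t : F), (Q.E s)⁻¹ * T t * Q.E s = T (s * t) := fun s t =>
    Q.D2K_unique (Q.D2K_conj (hT t) s) (hT _)
  refine ⟨T, hadd, ?_, hconj, ?_⟩
  · intro s t hst
    have : T (s - t) = 1 := by
      rw [sub_eq_add_neg, hadd, hneg, hst, mul_inv_cancel]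
    exact sub_eq_zero.1 (hker _ this)
  · have hi : S.i * S.i = 1 := S.i_inv.1
    have hi' : (S.i)⁻¹ = S.i := inv_eq_of_mul_eq_one_left hi
    have h1 : S.i * T (-1) * S.i = T 1 := by
      have := hconj (-1) (-1)
      rw [Q.E_neg, hi'] at this
      rw [this]
      congr 1
      simp
    have h3 : T 1 * S.i * T (-1) = T 2 * S.i := by
      have e : (2 : F) = 1 + 1 := by norm_num
      rw [e, hadd]
      nth_rewrite 3 [← h1]
      simp only [mul_assoc, hi, mul_one]
    rw [h3]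
    have hl : Q.l * Q.l = 1 := Q.l_inv.1
    have hl' : (Q.l)⁻¹ = Q.l := inv_eq_of_mul_eq_one_left hl
    obtain ⟨X, hX⟩ := hT 2
    have key : Q.l * (T 2 * S.i) = 1 := by
      refine Q.rigid (((X.image (fun x => -x)) ∪ {2}).preimage (fun u : Fˣ => (u : F))
        (Units.val_injective.injOn)) fun y hy => ?_
      simp only [Finset.mem_preimage, Finset.mem_union, Finset.mem_singleton, not_or] at hy
      obtain ⟨hy1, hy2⟩ := hy
      have hm : (2 : F) - y ≠ 0 := fun h => hy2 (sub_eq_zero.1 h).symm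
      have e1 := hX (-y) (Units.mk0 _ hm) (by
        intro h
        refine hy1 (Finset.mem_image.2 ⟨_, h, ?_⟩)
        simp) (by
        rw [Units.val_mk0, Units.val_neg]
        ring)
      have e2 : Q.l * Q.lb (Units.mk0 _ hm) * Q.l = Q.lb y := by
        refine Q.star₀ h2 ?_
        rw [Units.val_mk0]
        ring
      have e3 := Q.i_lb y
      -- l T2 i lb y = lb y l T2 i
      have e4 : S.i * Q.lb y = Q.lb (-y) * S.i := by
        rw [← e3, mul_assoc, hi, mul_one]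
      have e5 : T 2 * Q.lb (-y) = Q.lb (Units.mk0 _ hm) * T 2 := by
        rw [mul_inv_eq_iff_eq_mul] at e1
        exact e1
      have e6 : Q.l * Q.lb (Units.mk0 _ hm) = Q.lb y * Q.l := by
        rw [← e2, mul_assoc, mul_assoc, hl, mul_one]
      calc Q.l * (T 2 * S.i) * Q.lb y = Q.l * T 2 * (S.i * Q.lb y) := by simp only [mul_assoc]
        _ = Q.l * (T 2 * Q.lb (-y)) * S.i := by rw [e4]; simp only [mul_assoc]
        _ = (Q.l * Q.lb (Units.mk0 _ hm)) * T 2 * S.i := by rw [e5]; simp only [mul_assoc]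
        _ = Q.lb y * (Q.l * (T 2 * S.i)) := by rw [e6]; simp only [mul_assoc]
    rw [← hl']
    exact (eq_inv_of_mul_eq_one_right key)

end Cfg

end Pool.Agent.A1C
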