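import Pool.Agent.A1C.D2K

/-!
# D2L: the final contradiction (D2f)

Let `T` be as in `exists_T`; `T 0 = 1`, `T (-t) = (T t)⁻¹`.  Let `D' s = T 1 * E s * T (-1)`, a homomorphism `Fˣ → G`, injective.
(1) `D' s ∈ cl l`: `S.cl_cj` with `l = g⁻¹ i g`, `g = T (-1) = (T 1)⁻¹`, `cl_i`.
(2) `(D' s)⁻¹ * T t * D' s = T (s t)`.
(3) `E t = T (1/t - 1) * D' t`: `D' t = T 1 * (E t * T (-1) * (E t)⁻¹) * E t = T 1 * T (-1/t) * E t`.
(4) For `e : Fˣ`, `e ≠ 1`, `t = (1-e)/2`, `q = 1/t - 1 = (1+e)/(1-e)`: `E t (z z) (E t)⁻¹ = T q (z z) (T q)⁻¹`, because `D' t` and `z` are in `cl l`, which is commutative.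
So by `rel`: `E0 e z⁻¹ (E0 e)⁻¹ = T q (z z) (T q)⁻¹ z⁻¹`.  If also `e ≠ -1` then `q` is a unit and `T q = (D' q)⁻¹ (T 1) (D' q)`, so the right side is
`(D' q)⁻¹ W (D' q)`, `W = T 1 (z z) (T 1)⁻¹ z⁻¹` (`D' q` commutes with `z`).
(5) For `e, e' ∉ {1, -1}` with `q, q'`: `g = (D' q' * E0 e')⁻¹ * (D' q * E0 e)` commutes with `z⁻¹`, so with `z`, so `g ∈ cl l` (`comm_z`) and `l g = g l`.
`g = (E0 e')⁻¹ * D' (q/q') * E0 e`, `l` inverts `E0 _` (`l_E0`) and commutes with `D' _ ∈ cl l`: `l g l = E0 e' * D' (q/q') * (E0 e)⁻¹ = g`.  So with `d = D' (q/q')`: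
`d⁻¹ * (E0 e')² * d = (E0 e)²`, an element of `cl i0`; `(E0 e')² = E0 (e'²) ≠ 1` is in `cl i0`; so `d` commutes with `i0` (`S.comm_of_cj_mem`).
`i0 ∈ pol l` inverts `d ∈ cl l` (`pol_inverts`), so `d² = 1`, so `(q/q')² = 1`.
(6) Choose `e'` with `e' ≠ ±1` and `e` with `e ≠ ±1`, `e ≠ e'`, `e e' ≠ 1` (`F` infinite).  `q² = q'²` means `q = q'` (then `e = e'`) or `q = -q'`
(then `(1+e)(1-e') = -(1+e')(1-e)`, i.e. `2 = 2 e e'`): contradiction.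
-/

namespace Pool.Agent.A1C

universe u

variable {M : Type u} [Univ M] {G : Type u} [Group G] [DGrp M G]

namespace Cfg

variable {S : Setup G} {F : Type u} [Field F] (Q : Cfg S F)

/-- an element `e ≠ 1, -1` with the associated unit `q = (1 + e)/(1 - e)` -/
private theorem D2L_units (h2 : (2 : F) ≠ 0) {e : Fˣ} (h1 : (e : F) ≠ 1) (h1' : (e : F) ≠ -1) :
    ∃ t q : Fˣ, 2 * (t : F) = 1 - e ∧ (q : F) = (t : F)⁻¹ - 1 ∧ (q : F) * (1 - e) = 1 + e := by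
  have hs : (1 : F) - e ≠ 0 := fun h => h1 (sub_eq_zero.1 h).symm
  have ht : ((1 : F) - e) / 2 ≠ 0 := div_ne_zero hs h2
  have hq : ((1 : F) + e) / (1 - e) ≠ 0 :=
    div_ne_zero (fun h => h1' (eq_neg_of_add_eq_zero_right h)) hs
  refine ⟨Units.mk0 _ ht, Units.mk0 _ hq, ?_, ?_, ?_⟩
  · rw [Units.val_mk0, mul_div_cancel₀ _ h2]
  · rw [Units.val_mk0, Units.val_mk0]
    field_simp
    ring
  · rw [Units.val_mk0, div_mul_cancel₀ _ hs]

include Q in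
theorem false_of_cfg [Infinite F] (h2 : (2 : F) ≠ 0) : False := by
  classical
  obtain ⟨T, hadd, hinj, hconj, hT⟩ := Q.exists_T h2
  have h0 : T 0 = 1 := by
    have := hadd 0 0
    rw [add_zero] at this
    exact left_eq_mul.1 this
  have hneg : ∀ t, T (-t) = (T t)⁻¹ := by
    intro t
    rw [eq_inv_iff_mul_eq_one, ← hadd, neg_add_cancel, h0]
  have hcomm : ∀ s t, T s * T t = T t * T s := by
    intro s t
    rw [← hadd, ← hadd, add_comm]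
  obtain ⟨Dp, hDp⟩ : ∃ Dp : Fˣ → G, ∀ s, Dp s = T 1 * Q.E s * T (-1) := ⟨_, fun _ => rfl⟩
  have hm1 : T (-1) = (T 1)⁻¹ := hneg 1
  have Dp_mul : ∀ s t, Dp (s * t) = Dp s * Dp t := by
    intro s t
    rw [hDp, hDp, hDp, map_mul, hm1]
    group
  have Dp_inj : ∀ s, Dp s = 1 → s = 1 := by
    intro s hs
    rw [hDp, hm1, mul_inv_eq_one, mul_eq_left] at hs
    exact Q.E_inj (hs.trans (map_one Q.E).symm)
  have Dp_one : Dp 1 = 1 := by
    rw [hDp, map_one, hm1, mul_one, mul_inv_cancel]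
  have Dp_inv : ∀ s, Dp s⁻¹ = (Dp s)⁻¹ := by
    intro s
    rw [eq_inv_iff_mul_eq_one, ← Dp_mul, inv_mul_cancel, Dp_one]
  have Dp_mem : ∀ s, Dp s ∈ S.cl Q.l := by
    intro s
    have h1 : S.cl ((T (-1))⁻¹ * S.i * T (-1)) = cj (S.cl S.i) (T (-1)) := S.cl_cj S.i_inv _
    have h3 : (T (-1))⁻¹ * S.i * T (-1) = Q.l := by
      rw [← hneg, neg_neg]
      exact hT
    rw [h3] at h1
    rw [h1, mem_cj, S.cl_i, hDp]
    have : T (-1) * (T 1 * Q.E s * T (-1)) * (T (-1))⁻¹ = Q.E s := by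
      rw [hm1]
      group
    rw [this]
    exact Q.E_mem s
  have Dp_conj : ∀ s t, (Dp s)⁻¹ * T t * Dp s = T (s * t) := by
    intro s t
    have e1 : (T 1)⁻¹ * T t * T 1 = T t := by
      rw [mul_assoc, hcomm t 1, inv_mul_cancel_left]
    have e2 : T 1 * T (s * t) * (T 1)⁻¹ = T (s * t) := by
      rw [hcomm, mul_inv_cancel_right]
    calc (Dp s)⁻¹ * T t * Dp s = T 1 * ((Q.E s)⁻¹ * ((T 1)⁻¹ * T t * T 1) * Q.E s) * (T 1)⁻¹ := by
          rw [hDp, hm1]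
          group
      _ = T (s * t) := by rw [e1, hconj, e2]
  have hl := Q.l_inv
  have hll : Q.l * Q.l = 1 := hl.1
  -- (3)
  have h3 : ∀ t : Fˣ, Q.E t = T ((t : F)⁻¹ - 1) * Dp t := by
    intro t
    have e1 : Q.E t * T (-1) = T (-(t : F)⁻¹) * Q.E t := by
      have := hconj t (-(t : F)⁻¹)
      rw [mul_neg, mul_inv_cancel₀ t.ne_zero] at this
      rw [← this]
      group
    rw [hDp, mul_assoc (T 1), e1, ← mul_assoc, ← mul_assoc, ← hadd, ← hadd]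
    have e2 : (t : F)⁻¹ - 1 + 1 + -(t : F)⁻¹ = 0 := by ring
    rw [e2, h0, one_mul]
  have hzz : Q.z * Q.z ∈ S.cl Q.l := (S.cl Q.l).mul_mem Q.z_mem Q.z_mem
  -- (4)
  have h4 : ∀ e t q : Fˣ, 2 * (t : F) = 1 - e → (q : F) = (t : F)⁻¹ - 1 →
      Dp q * Q.E0 e * Q.z⁻¹ * (Dp q * Q.E0 e)⁻¹ = T 1 * (Q.z * Q.z) * (T 1)⁻¹ * Q.z⁻¹ := by
    intro e t q ht hq
    have e1 := Q.rel e t ht
    have e2 : Q.E t * (Q.z * Q.z) * (Q.E t)⁻¹ = T q * (Q.z * Q.z) * (T q)⁻¹ := by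
      rw [h3 t, ← hq]
      have e3 : Dp t * (Q.z * Q.z) * (Dp t)⁻¹ = Q.z * Q.z := by
        rw [S.cl_comm (Dp_mem t) hzz, mul_inv_cancel_right]
      calc T q * Dp t * (Q.z * Q.z) * (T q * Dp t)⁻¹ =
          T q * (Dp t * (Q.z * Q.z) * (Dp t)⁻¹) * (T q)⁻¹ := by group
        _ = _ := by rw [e3]
    rw [e2] at e1
    have e4 : T q = (Dp q)⁻¹ * T 1 * Dp q := by
      rw [Dp_conj, mul_one]
    have e5 : Dp q * (Q.z * Q.z) * (Dp q)⁻¹ = Q.z * Q.z := by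
      rw [S.cl_comm (Dp_mem q) hzz, mul_inv_cancel_right]
    have e6 : Dp q * Q.z⁻¹ * (Dp q)⁻¹ = Q.z⁻¹ := by
      rw [S.cl_comm (Dp_mem q) ((S.cl Q.l).inv_mem Q.z_mem), mul_inv_cancel_right]
    have e7 : Q.E0 e * Q.z⁻¹ * (Q.E0 e)⁻¹ = T q * (Q.z * Q.z) * (T q)⁻¹ * Q.z⁻¹ := by
      rw [← e1]
      group
    calc Dp q * Q.E0 e * Q.z⁻¹ * (Dp q * Q.E0 e)⁻¹ =
        Dp q * (Q.E0 e * Q.z⁻¹ * (Q.E0 e)⁻¹) * (Dp q)⁻¹ := by group
      _ = Dp q * ((Dp q)⁻¹ * T 1 * Dp q * (Q.z * Q.z) * ((Dp q)⁻¹ * T 1 * Dp q)⁻¹ * Q.z⁻¹) *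
          (Dp q)⁻¹ := by rw [e7, e4]
      _ = T 1 * (Dp q * (Q.z * Q.z) * (Dp q)⁻¹) * (T 1)⁻¹ * (Dp q * Q.z⁻¹ * (Dp q)⁻¹) := by group
      _ = _ := by rw [e5, e6]
  -- (5)
  have h5 : ∀ e q e' q' : Fˣ, (e' : F) ≠ 1 → (e' : F) ≠ -1 →
      Dp q * Q.E0 e * Q.z⁻¹ * (Dp q * Q.E0 e)⁻¹ =
        Dp q' * Q.E0 e' * Q.z⁻¹ * (Dp q' * Q.E0 e')⁻¹ → (q : F) ^ 2 = (q' : F) ^ 2 := by
    intro e q e' q' he1 he2 h
    obtain ⟨g, hg⟩ : ∃ g, g = (Dp q' * Q.E0 e')⁻¹ * (Dp q * Q.E0 e) := ⟨_, rfl⟩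
    have e1 : g * Q.z⁻¹ * g⁻¹ = Q.z⁻¹ := by
      calc g * Q.z⁻¹ * g⁻¹ = (Dp q' * Q.E0 e')⁻¹ * (Dp q * Q.E0 e * Q.z⁻¹ *
            (Dp q * Q.E0 e)⁻¹) * (Dp q' * Q.E0 e') := by
            rw [hg]
            group
        _ = _ := by
            rw [h]
            group
    have e2 : g * Q.z = Q.z * g := by
      have := congrArg (fun x => x⁻¹) e1
      simp only [mul_inv_rev, inv_inv] at this
      rw [← mul_assoc, mul_inv_eq_iff_eq_mul] at this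
      exact this
    have e3 : g * Q.l = Q.l * g := (S.comm_iff hl).2 (Or.inl (Q.comm_z.1 e2))
    obtain ⟨d, hd⟩ : ∃ d, d = Dp (q'⁻¹ * q) := ⟨_, rfl⟩
    have hdm : d ∈ S.cl Q.l := hd ▸ Dp_mem _
    have hdl : d * Q.l = Q.l * d := (S.comm_iff hl).2 (Or.inl hdm)
    have hg2 : g = (Q.E0 e')⁻¹ * d * Q.E0 e := by
      rw [hg, hd, Dp_mul, Dp_inv]
      group
    have e4 : Q.l * (Q.E0 e')⁻¹ = Q.E0 e' * Q.l := by
      have := Q.l_E0 e'
      rw [← this]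
      simp only [mul_assoc]
      rw [← mul_assoc Q.l Q.l, hll, one_mul]
    have e5 : Q.l * Q.E0 e = (Q.E0 e)⁻¹ * Q.l := by
      rw [← Q.l_E0 e, mul_assoc, hll, mul_one]
    have e6 : Q.l * g = Q.E0 e' * d * (Q.E0 e)⁻¹ * Q.l := by
      rw [hg2]
      calc Q.l * ((Q.E0 e')⁻¹ * d * Q.E0 e) = (Q.l * (Q.E0 e')⁻¹) * d * Q.E0 e := by
            simp only [mul_assoc]
        _ = Q.E0 e' * (Q.l * d) * Q.E0 e := by
            rw [e4]
            simp only [mul_assoc]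
        _ = Q.E0 e' * d * (Q.l * Q.E0 e) := by
            rw [← hdl]
            simp only [mul_assoc]
        _ = _ := by
            rw [e5]
            simp only [mul_assoc]
    rw [← e3] at e6
    have e7 := mul_right_cancel e6
    have e8 : d⁻¹ * (Q.E0 e' * Q.E0 e') * d = Q.E0 e * Q.E0 e := by
      rw [hg2] at e7
      calc d⁻¹ * (Q.E0 e' * Q.E0 e') * d =
          d⁻¹ * Q.E0 e' * (Q.E0 e' * d * (Q.E0 e)⁻¹) * Q.E0 e := by group
        _ = d⁻¹ * Q.E0 e' * ((Q.E0 e')⁻¹ * d * Q.E0 e) * Q.E0 e := by rw [e7]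
        _ = _ := by group
    have e9 : Q.E0 e' * Q.E0 e' ≠ 1 := by
      intro h9
      rw [← map_mul] at h9
      have := Q.E0_inj (h9.trans (map_one Q.E0).symm)
      have h10 : (e' : F) * e' = 1 := by
        rw [← Units.val_mul, this, Units.val_one]
      rcases mul_self_eq_one_iff.1 h10 with h | h
      · exact he1 h
      · exact he2 h
    have e10 : d * Q.i0 = Q.i0 * d := by
      refine S.comm_of_cj_mem Q.i0_inv ((S.cl Q.i0).mul_mem (Q.E0_mem e') (Q.E0_mem e')) e9 ?_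
      rw [e8]
      exact (S.cl Q.i0).mul_mem (Q.E0_mem e) (Q.E0_mem e)
    have e11 : Q.i0 * d * Q.i0 = d⁻¹ := S.pol_inverts hl Q.i0_pol hdm
    have e12 : d * d = 1 := by
      rw [← e10, mul_assoc, Q.i0_inv.1, mul_one] at e11
      nth_rewrite 2 [e11]
      exact mul_inv_cancel d
    rw [hd, ← Dp_mul] at e12
    have e13 := Dp_inj _ e12
    have e14 : q * q = q' * q' := by
      have : q' * q' * (q'⁻¹ * q * (q'⁻¹ * q)) = q * q := by
        rw [mul_mul_mul_comm q'⁻¹ q q'⁻¹ q, ← mul_assoc, mul_mul_mul_comm q' q' q'⁻¹ q'⁻¹,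
          mul_inv_cancel, mul_one, one_mul]
      rw [← this, e13, mul_one]
    rw [sq, sq, ← Units.val_mul, ← Units.val_mul, e14]
  -- (6)
  obtain ⟨e', he'⟩ := exists_unit_notMem ({1, -1} : Finset F)
  simp only [Finset.mem_insert, Finset.mem_singleton, not_or] at he'
  obtain ⟨e, he⟩ := exists_unit_notMem ({1, -1, (e' : F), (e' : F)⁻¹} : Finset F)
  simp only [Finset.mem_insert, Finset.mem_singleton, not_or] at he
  obtain ⟨t, q, a1, a2, a3⟩ := D2L_units h2 he.1 he.2.1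
  obtain ⟨t', q', b1, b2, b3⟩ := D2L_units h2 he'.1 he'.2
  have key := h5 e q e' q' he'.1 he'.2 ((h4 e t q a1 a2).trans (h4 e' t' q' b1 b2).symm)
  rcases sq_eq_sq_iff_eq_or_eq_neg.1 key with h | h
  · rw [h] at a3
    -- q' (1 - e) = 1 + e, q' (1 - e') = 1 + e'
    have h6 : (q' + 1 : F) * (e' - e) = 0 := by linear_combination a3 - b3
    rcases mul_eq_zero.1 h6 with h7 | h7
    · have : (q' : F) = -1 := eq_neg_of_add_eq_zero_left h7
      rw [this] at b3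
      exact h2 (by linear_combination -b3)
    · exact he.2.2.1 (sub_eq_zero.1 h7).symm
  · rw [h] at a3
    -- -q' (1 - e) = 1 + e
    have h6 : (2 : F) * (1 - e * e') = 0 := by
      linear_combination (1 - (e' : F)) * (-a3) - (1 - (e : F)) * b3
    rcases mul_eq_zero.1 h6 with h7 | h7
    · exact h2 h7
    · have : (e : F) * e' = 1 := (sub_eq_zero.1 h7).symm
      exact he.2.2.2 (eq_inv_of_mul_eq_one_left this)

end Cfg

end Pool.Agent.A1C
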