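import Pool.Agent.A1C.Basic

/-!
# DA: Boolean operations, coordinate maps, projections

Everything is transported from `Univ` through `DTy.enc`. `enc '' Sᶜ = range enc \ enc '' S` etc.
`Coord.preimage`: `enc '' (φ ⁻¹' S) = range enc ∩ {v | (fun i => v (f i)) ∈ enc '' S}`.
`Df.proj`: `enc '' {x | ∃ y, (x,y) ∈ S} = {v | ∃ w, Fin.append v w ∈ enc '' S}` (`Univ.def_ex`).
`Df.singleton`: `enc '' {x}` is the intersection over `i` of `{v | v i = enc x i}` (`Univ.def_const`; induction over a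
finset of coordinates; the case of no coordinates is `univ`).
`Df.diag`: intersection with the range of the sets `{v | v (castAdd i) = v (natAdd i)}`.
-/

namespace Pool.Agent.A1C

universe u

variable {M : Type u} [Univ M] {X Y Z : Type u} [DTy M X] [DTy M Y] [DTy M Z]

/-- maps which only select coordinates -/
def Coord (φ : X → Y) : Prop :=
  ∃ f : Fin (DTy.dim Y) → Fin (DTy.dim X), ∀ x i, DTy.enc (φ x) i = DTy.enc x (f i)

private theorem df_iff {S : Set X} : Df S ↔ ∃ A : Set (Fin (DTy.dim X) → M), Univ.Def A ∧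
    ∀ x, x ∈ S ↔ DTy.enc x ∈ A := by
  constructor
  · intro h
    refine ⟨DTy.enc '' S, h, fun x => ⟨fun hx => ⟨x, hx, rfl⟩, ?_⟩⟩
    rintro ⟨y, hy, hxy⟩
    rw [← DTy.inj hxy]
    exact hy
  · rintro ⟨A, hA, h⟩
    have h1 : (DTy.enc '' S : Set (Fin (DTy.dim X) → M)) = Set.range (DTy.enc : X → _) ∩ A := by
      ext v
      constructor
      · rintro ⟨x, hx, rfl⟩
        exact ⟨⟨x, rfl⟩, (h x).1 hx⟩
      · rintro ⟨⟨x, rfl⟩, hv⟩
        exact ⟨x, (h x).2 hv, rfl⟩
    unfold Df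
    rw [h1]
    exact Univ.def_inter DTy.def_range hA

private theorem def_all {n : ℕ} {ι : Type*} (s : Finset ι)
    {Q : ι → Set (Fin n → M)} (h : ∀ i ∈ s, Univ.Def (Q i)) :
    Univ.Def {v : Fin n → M | ∀ i ∈ s, v ∈ Q i} := by
  classical
  induction s using Finset.induction_on with
  | empty =>
    have h1 : {v : Fin n → M | ∀ i ∈ (∅ : Finset ι), v ∈ Q i} = Set.univ := by
      ext v
      simp
    rw [h1]
    exact Univ.def_univ
  | insert a s ha ih =>
    have h1 : {v : Fin n → M | ∀ i ∈ insert a s, v ∈ Q i} = Q a ∩ {v | ∀ i ∈ s, v ∈ Q i} := by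
      ext v
      simp [Finset.forall_mem_insert]
    rw [h1]
    exact Univ.def_inter (h a (Finset.mem_insert_self a s))
      (ih fun i hi => h i (Finset.mem_insert_of_mem hi))

theorem Df.univ : Df (Set.univ : Set X) := by
  exact df_iff.2 ⟨Set.univ, Univ.def_univ, fun x => by simp⟩

theorem Df.inter {S T : Set X} (hS : Df S) (hT : Df T) : Df (S ∩ T) := by
  obtain ⟨A, hA, h1⟩ := df_iff.1 hS
  obtain ⟨B, hB, h2⟩ := df_iff.1 hT
  exact df_iff.2 ⟨A ∩ B, Univ.def_inter hA hB, fun x => and_congr (h1 x) (h2 x)⟩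

theorem Df.compl {S : Set X} (hS : Df S) : Df Sᶜ := by
  obtain ⟨A, hA, h1⟩ := df_iff.1 hS
  exact df_iff.2 ⟨Aᶜ, Univ.def_compl hA, fun x => not_congr (h1 x)⟩

theorem Df.empty : Df (∅ : Set X) := by
  have h := Df.compl (Df.univ : Df (Set.univ : Set X))
  rw [Set.compl_univ] at h
  exact h

theorem Df.union {S T : Set X} (hS : Df S) (hT : Df T) : Df (S ∪ T) := by
  have h := (hS.compl.inter hT.compl).compl
  rw [← Set.compl_union, compl_compl] at h
  exact h

theorem Df.diff {S T : Set X} (hS : Df S) (hT : Df T) : Df (S \ T) := by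
  have h := hS.inter hT.compl
  rw [← Set.diff_eq] at h
  exact h

theorem Df.biUnion {ι : Type*} {I : Set ι} (hI : I.Finite) {S : ι → Set X}
    (h : ∀ i ∈ I, Df (S i)) : Df (⋃ i ∈ I, S i) := by
  classical
  obtain ⟨s, rfl⟩ := hI.exists_finset_coe
  induction s using Finset.induction_on with
  | empty => simpa using (Df.empty : Df (∅ : Set X))
  | insert a s ha ih =>
    have h1 : (⋃ i ∈ ((insert a s : Finset ι) : Set ι), S i) = S a ∪ ⋃ i ∈ (s : Set ι), S i := by
      rw [Finset.coe_insert, Set.biUnion_insert]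
    rw [h1]
    exact (h a (by simp)).union (ih s.finite_toSet fun i hi => h i (by simp at hi ⊢; exact Or.inr hi))

theorem Df.biInter {ι : Type*} {I : Set ι} (hI : I.Finite) {S : ι → Set X}
    (h : ∀ i ∈ I, Df (S i)) : Df (⋂ i ∈ I, S i) := by
  have h1 := (Df.biUnion hI (S := fun i => (S i)ᶜ) fun i hi => (h i hi).compl).compl
  have h2 : (⋂ i ∈ I, S i) = (⋃ i ∈ I, (S i)ᶜ)ᶜ := by
    ext x
    simp
  rw [h2]
  exact h1

theorem Df.singleton (x : X) : Df ({x} : Set X) := by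
  refine df_iff.2 ⟨{v | ∀ i ∈ (Finset.univ : Finset (Fin (DTy.dim X))), v ∈
    {v : Fin (DTy.dim X) → M | v i = DTy.enc x i}}, def_all _ fun i _ => Univ.def_const i _, fun y => ?_⟩
  constructor
  · rintro rfl
    intro i _
    rfl
  · intro h
    exact DTy.inj (funext fun i => h i (Finset.mem_univ i))

theorem Df.of_finite {S : Set X} (h : S.Finite) : Df S := by
  have h1 : S = ⋃ x ∈ S, {x} := by simp
  rw [h1]
  exact Df.biUnion h fun x _ => Df.singleton x

theorem Coord.id : Coord (fun x : X => x) := by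
  exact ⟨fun i => i, fun x i => rfl⟩

theorem Coord.fst : Coord (fun p : X × Y => p.1) := by
  exact ⟨Fin.castAdd (DTy.dim Y), fun p i => (Fin.append_left (DTy.enc p.1) (DTy.enc p.2) i).symm⟩

theorem Coord.snd : Coord (fun p : X × Y => p.2) := by
  exact ⟨Fin.natAdd (DTy.dim X), fun p i => (Fin.append_right (DTy.enc p.1) (DTy.enc p.2) i).symm⟩

theorem Coord.comp {φ : X → Y} {ψ : Y → Z} (hψ : Coord ψ) (hφ : Coord φ) :
    Coord (fun x => ψ (φ x)) := by
  obtain ⟨f, hf⟩ := hφ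
  obtain ⟨g, hg⟩ := hψ
  exact ⟨fun i => f (g i), fun x i => by rw [hg, hf]⟩

theorem Coord.pair {φ : X → Y} {ψ : X → Z} (hφ : Coord φ) (hψ : Coord ψ) :
    Coord (fun x => (φ x, ψ x)) := by
  obtain ⟨f, hf⟩ := hφ
  obtain ⟨g, hg⟩ := hψ
  refine ⟨Fin.append f g, fun x i => ?_⟩
  refine Fin.addCases (fun j => ?_) (fun j => ?_) i
  · rw [Fin.append_left]
    exact (Fin.append_left (DTy.enc (φ x)) (DTy.enc (ψ x)) j).trans (hf x j)
  · rw [Fin.append_right]
    exact (Fin.append_right (DTy.enc (φ x)) (DTy.enc (ψ x)) j).trans (hg x j)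

theorem Coord.preimage {φ : X → Y} (h : Coord φ) {S : Set Y} (hS : Df S) :
    Df {x | φ x ∈ S} := by
  obtain ⟨f, hf⟩ := h
  obtain ⟨A, hA, h1⟩ := df_iff.1 hS
  refine df_iff.2 ⟨_, Univ.def_reindex f hA, fun x => ?_⟩
  have h2 : DTy.enc (φ x) = fun i => DTy.enc x (f i) := funext fun i => hf x i
  exact (h1 (φ x)).trans (by rw [h2]; rfl)

theorem Df.proj {S : Set (X × Y)} (h : Df S) : Df {x : X | ∃ y : Y, (x, y) ∈ S} := by
  refine df_iff.2 ⟨_, Univ.def_ex (n := DTy.dim X) (m := DTy.dim Y) h, fun x => ?_⟩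
  constructor
  · rintro ⟨y, hy⟩
    exact ⟨DTy.enc y, ⟨(x, y), hy, rfl⟩⟩
  · rintro ⟨w, ⟨⟨x', y'⟩, hxy, hw⟩⟩
    have h1 : DTy.enc x' = DTy.enc x := by
      funext i
      have h2 := congrFun hw (Fin.castAdd (DTy.dim Y) i)
      have h3 : Fin.append (DTy.enc x') (DTy.enc y') (Fin.castAdd (DTy.dim Y) i) = DTy.enc x' i :=
        Fin.append_left _ _ i
      have h4 : Fin.append (DTy.enc x) w (Fin.castAdd (DTy.dim Y) i) = DTy.enc x i :=
        Fin.append_left _ _ i
      rw [h4] at h2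
      exact h3.symm.trans h2
    have h5 := DTy.inj h1
    subst h5
    exact ⟨y', hxy⟩

theorem Df.diag : Df {p : X × X | p.1 = p.2} := by
  refine df_iff.2 ⟨{v | ∀ i ∈ (Finset.univ : Finset (Fin (DTy.dim X))), v ∈
    {v : Fin (DTy.dim X + DTy.dim X) → M | v (Fin.castAdd _ i) = v (Fin.natAdd _ i)}},
    def_all _ fun i _ => Univ.def_eq _ _, fun p => ?_⟩
  have e1 : ∀ i, DTy.enc p (Fin.castAdd (DTy.dim X) i) = DTy.enc p.1 i := fun i =>
    Fin.append_left (DTy.enc p.1) (DTy.enc p.2) i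
  have e2 : ∀ i, DTy.enc p (Fin.natAdd (DTy.dim X) i) = DTy.enc p.2 i := fun i =>
    Fin.append_right (DTy.enc p.1) (DTy.enc p.2) i
  constructor
  · intro h i _
    have h1 : p.1 = p.2 := h
    change DTy.enc p (Fin.castAdd (DTy.dim X) i) = DTy.enc p (Fin.natAdd (DTy.dim X) i)
    rw [e1, e2, h1]
  · intro h
    refine DTy.inj (funext fun i => ?_)
    have h1 : DTy.enc p (Fin.castAdd (DTy.dim X) i) = DTy.enc p (Fin.natAdd (DTy.dim X) i) :=
      h i (Finset.mem_univ i)
    rw [e1, e2] at h1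
    exact h1

end Pool.Agent.A1C
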