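import Pool.Agent.A1C.DA

/-!
# DB: definable functions

All from DA: the graph of `g ∘ f` is the projection of `{((x, z), y) | y = f x ∧ z = g y}`, an intersection of
preimages of the graphs under coordinate maps. `preimage` and `image` by a projection as well.
`fst`/`snd`/`id`: the graph is the preimage of the diagonal under a coordinate map. `const`: `{p | p.2 = c}`.
`section_left`: preimage of `S` under `y ↦ (x, y)`.
-/

namespace Pool.Agent.A1C

universe u

variable {M : Type u} [Univ M] {X Y Z : Type u} [DTy M X] [DTy M Y] [DTy M Z]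

@[fun_prop]
theorem DfFun.id : DfFun (fun x : X => x) := by
  have h := (Coord.pair (Coord.snd (M := M) (X := X) (Y := X)) Coord.fst).preimage (Df.diag (X := X))
  exact h

@[fun_prop]
theorem DfFun.const (c : Y) : DfFun (fun _ : X => c) := by
  exact (Coord.snd (M := M) (X := X) (Y := Y)).preimage (Df.singleton c)

theorem DfFun.fst : DfFun (fun p : X × Y => p.1) := by
  have h := (Coord.pair (Coord.snd (M := M) (X := X × Y) (Y := X))
    (Coord.comp (Coord.fst (M := M) (X := X) (Y := Y)) (Coord.fst (M := M) (X := X × Y) (Y := X)))).preimage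
    (Df.diag (X := X))
  exact h

theorem DfFun.snd : DfFun (fun p : X × Y => p.2) := by
  have h := (Coord.pair (Coord.snd (M := M) (X := X × Y) (Y := Y))
    (Coord.comp (Coord.snd (M := M) (X := X) (Y := Y)) (Coord.fst (M := M) (X := X × Y) (Y := Y)))).preimage
    (Df.diag (X := Y))
  exact h

@[fun_prop]
theorem DfFun.comp {f : X → Y} {g : Y → Z} (hg : DfFun g) (hf : DfFun f) :
    DfFun (fun x => g (f x)) := by
  have c1 : Coord (fun q : (X × Z) × Y => (q.1.1, q.2)) :=
    Coord.pair (Coord.comp Coord.fst Coord.fst) Coord.snd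
  have c2 : Coord (fun q : (X × Z) × Y => (q.2, q.1.2)) :=
    Coord.pair Coord.snd (Coord.comp Coord.snd Coord.fst)
  have h := ((c1.preimage hf).inter (c2.preimage hg)).proj
  have h1 : {p : X × Z | p.2 = g (f p.1)} = {p : X × Z | ∃ y : Y, (p, y) ∈
      {q : (X × Z) × Y | (q.1.1, q.2) ∈ {p : X × Y | p.2 = f p.1}} ∩
        {q : (X × Z) × Y | (q.2, q.1.2) ∈ {p : Y × Z | p.2 = g p.1}}} := by
    ext p
    constructor
    · intro hp
      exact ⟨f p.1, rfl, hp⟩
    · rintro ⟨y, h1, h2⟩
      have h1' : y = f p.1 := h1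
      have h2' : p.2 = g y := h2
      rw [h1'] at h2'
      exact h2'
  unfold DfFun
  rw [h1]
  exact h

@[fun_prop]
theorem DfFun.pair {f : X → Y} {g : X → Z} (hf : DfFun f) (hg : DfFun g) :
    DfFun (fun x => (f x, g x)) := by
  have c1 : Coord (fun q : X × (Y × Z) => (q.1, q.2.1)) :=
    Coord.pair Coord.fst (Coord.comp Coord.fst Coord.snd)
  have c2 : Coord (fun q : X × (Y × Z) => (q.1, q.2.2)) :=
    Coord.pair Coord.fst (Coord.comp Coord.snd Coord.snd)
  have h := (c1.preimage hf).inter (c2.preimage hg)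
  have h1 : {p : X × (Y × Z) | p.2 = (f p.1, g p.1)} =
      {q : X × (Y × Z) | (q.1, q.2.1) ∈ {p : X × Y | p.2 = f p.1}} ∩
        {q : X × (Y × Z) | (q.1, q.2.2) ∈ {p : X × Z | p.2 = g p.1}} := by
    ext p
    constructor
    · intro hp
      have hp' : p.2 = (f p.1, g p.1) := hp
      exact ⟨congrArg Prod.fst hp', congrArg Prod.snd hp'⟩
    · rintro ⟨h1, h2⟩
      exact Prod.ext h1 h2
  unfold DfFun
  rw [h1]
  exact h

@[fun_prop]
theorem DfFun.fst' {f : X → Y × Z} (hf : DfFun f) : DfFun (fun x => (f x).1) := by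
  exact DfFun.comp (DfFun.fst (M := M) (X := Y) (Y := Z)) hf

@[fun_prop]
theorem DfFun.snd' {f : X → Y × Z} (hf : DfFun f) : DfFun (fun x => (f x).2) := by
  exact DfFun.comp (DfFun.snd (M := M) (X := Y) (Y := Z)) hf

theorem DfFun.preimage {f : X → Y} (hf : DfFun f) {S : Set Y} (hS : Df S) :
    Df {x | f x ∈ S} := by
  have h := (Df.inter hf ((Coord.snd (M := M) (X := X) (Y := Y)).preimage hS)).proj
  have h1 : {x | f x ∈ S} = {x : X | ∃ y : Y, (x, y) ∈ {p : X × Y | p.2 = f p.1} ∩
      {p : X × Y | p.2 ∈ S}} := by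
    ext x
    constructor
    · intro hx
      exact ⟨f x, rfl, hx⟩
    · rintro ⟨y, h1, h2⟩
      have h1' : y = f x := h1
      have h2' : y ∈ S := h2
      rw [h1'] at h2'
      exact h2'
  rw [h1]
  exact h

theorem DfFun.image {f : X → Y} (hf : DfFun f) {S : Set X} (hS : Df S) : Df (f '' S) := by
  have c1 : Coord (fun q : Y × X => (q.2, q.1)) := Coord.pair Coord.snd Coord.fst
  have h := ((c1.preimage hf).inter ((Coord.snd (M := M) (X := Y) (Y := X)).preimage hS)).proj
  have h1 : f '' S = {y : Y | ∃ x : X, (y, x) ∈ {q : Y × X | (q.2, q.1) ∈ {p : X × Y | p.2 = f p.1}} ∩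
      {p : Y × X | p.2 ∈ S}} := by
    ext y
    constructor
    · rintro ⟨x, hx, rfl⟩
      exact ⟨x, rfl, hx⟩
    · rintro ⟨x, h1, h2⟩
      have h1' : y = f x := h1
      exact ⟨x, h2, h1'.symm⟩
  rw [h1]
  exact h

theorem DfFun.eq {f g : X → Y} (hf : DfFun f) (hg : DfFun g) : Df {x | f x = g x} := by
  exact (DfFun.pair hf hg).preimage (Df.diag (X := Y))

theorem Df.section_left {S : Set (X × Y)} (hS : Df S) (x : X) : Df {y | (x, y) ∈ S} := by
  exact (DfFun.pair (DfFun.const (X := Y) x) DfFun.id).preimage hS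

theorem Df.section_right {S : Set (X × Y)} (hS : Df S) (y : Y) : Df {x | (x, y) ∈ S} := by
  exact (DfFun.pair DfFun.id (DfFun.const (X := X) y)).preimage hS

theorem Df.prod {S : Set X} {T : Set Y} (hS : Df S) (hT : Df T) : Df (S ×ˢ T) := by
  exact ((Coord.fst (M := M) (X := X) (Y := Y)).preimage hS).inter
    ((Coord.snd (M := M) (X := X) (Y := Y)).preimage hT)

end Pool.Agent.A1C
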