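import Pool.Agent.A1C.DB

/-!
# DC: the calculus of definable predicates

Rules for `DfP (fun x => …)`: connectives, quantifiers over definable types, equality of definable functions,
membership in definable sets (hypotheses `Df S` in the context). The usual proof of such a goal is the line

`repeat' first | assumption | fun_prop | apply DfP.and | apply DfP.or | apply DfP.not | apply DfP.iff
  | apply DfP.ex | apply DfP.all | apply DfP.eq | (apply DfP.mem; assumption) | apply DfP.imp | exact DfP.const _`
-/

namespace Pool.Agent.A1C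

universe u

variable {M : Type u} [Univ M] {X Y Z : Type u} [DTy M X] [DTy M Y] [DTy M Z]

theorem DfP.and {p q : X → Prop} (hp : DfP p) (hq : DfP q) : DfP (fun x => p x ∧ q x) :=
  Df.inter hp hq

theorem DfP.or {p q : X → Prop} (hp : DfP p) (hq : DfP q) : DfP (fun x => p x ∨ q x) :=
  Df.union hp hq

theorem DfP.not {p : X → Prop} (hp : DfP p) : DfP (fun x => ¬ p x) :=
  Df.compl hp

theorem DfP.imp {p q : X → Prop} (hp : DfP p) (hq : DfP q) : DfP (fun x => p x → q x) := by
  have h : (fun x => p x → q x) = fun x => ¬ p x ∨ q x := by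
    funext x
    exact propext imp_iff_not_or
  rw [h]
  exact hp.not.or hq

theorem DfP.iff {p q : X → Prop} (hp : DfP p) (hq : DfP q) : DfP (fun x => (p x ↔ q x)) := by
  have h : (fun x => (p x ↔ q x)) = fun x => (p x → q x) ∧ (q x → p x) := by
    funext x
    exact propext iff_iff_implies_and_implies
  rw [h]
  exact (hp.imp hq).and (hq.imp hp)

theorem DfP.const (P : Prop) : DfP (fun _ : X => P) := by
  by_cases h : P
  · have h2 : (fun _ : X => P) = fun _ => True := by
      funext x
      exact propext (by simp [h])
    rw [h2]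
    exact Df.univ
  · have h2 : (fun _ : X => P) = fun _ => False := by
      funext x
      exact propext (by simp [h])
    rw [h2]
    exact Df.empty

theorem DfP.ex {p : X → Y → Prop} (h : DfP fun z : X × Y => p z.1 z.2) :
    DfP (fun x => ∃ y, p x y) :=
  Df.proj (S := {z : X × Y | p z.1 z.2}) h

theorem DfP.all {p : X → Y → Prop} (h : DfP fun z : X × Y => p z.1 z.2) :
    DfP (fun x => ∀ y, p x y) := by
  have h2 : (fun x => ∀ y, p x y) = fun x => ¬ ∃ y, ¬ p x y := by
    funext x
    exact propext not_exists_not.symm
  rw [h2]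
  exact (DfP.ex h.not).not

theorem DfP.eq {f g : X → Y} (hf : DfFun f) (hg : DfFun g) : DfP (fun x => f x = g x) :=
  hf.eq hg

theorem DfP.mem {f : X → Y} {S : Set Y} (hS : Df S) (hf : DfFun f) :
    DfP (fun x => f x ∈ S) :=
  hf.preimage hS

theorem DfP.comp {f : X → Y} {p : Y → Prop} (hp : DfP p) (hf : DfFun f) :
    DfP (fun x => p (f x)) :=
  hf.preimage (S := {y | p y}) hp

example (S : Set X) (hS : Df S) (f : X → Y) (hf : DfFun f) :
    DfP (fun p : X × X => ∃ y : Y, y = f p.1 ∧ ¬ (p.2 ∈ S) ∧ ∀ x : X, f x = y → x ∈ S) := by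
  repeat' first
    | assumption | fun_prop | apply DfP.and | apply DfP.or | apply DfP.not | apply DfP.iff
    | apply DfP.ex | apply DfP.all | apply DfP.eq | (apply DfP.mem; assumption) | apply DfP.imp

end Pool.Agent.A1C
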