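import Pool.Agent.A1C.DC

/-!
# DD: definability in groups

`DfFun.inv`: graph `{p | p.1 * p.2 = 1}`. The double centraliser `zeta x` is uniformly definable and abelian.
-/

namespace Pool.Agent.A1C

universe u

variable {M : Type u} [Univ M] {X : Type u} [DTy M X] {Γ : Type u} [Group Γ] [DGrp M Γ]

@[fun_prop]
theorem DfFun.mul {f g : X → Γ} (hf : DfFun f) (hg : DfFun g) : DfFun (fun x => f x * g x) :=
  DfFun.comp (g := fun p : Γ × Γ => p.1 * p.2) DGrp.mul_df (hf.pair hg)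

@[fun_prop]
theorem DfFun.inv {f : X → Γ} (hf : DfFun f) : DfFun (fun x => (f x)⁻¹) := by
  have h : {p : X × Γ | p.2 = (f p.1)⁻¹} = {p : X × Γ | p.2 * f p.1 = 1} := by
    ext p
    simp only [Set.mem_ofPred_eq]
    exact eq_inv_iff_mul_eq_one
  change Df {p : X × Γ | p.2 = (f p.1)⁻¹}
  rw [h]
  exact DfFun.eq (f := fun p : X × Γ => p.2 * f p.1) (g := fun _ => (1 : Γ)) (by fun_prop) (by fun_prop)

@[fun_prop]
theorem DfFun.pow {f : X → Γ} (hf : DfFun f) (n : ℕ) : DfFun (fun x => f x ^ n) := by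
  induction n with
  | zero =>
    simp only [pow_zero]
    exact DfFun.const 1
  | succ n ih =>
    simp only [pow_succ]
    exact ih.mul hf

/-- the double centraliser of an element: `Z(C(x))` -/
def zeta (x : Γ) : Subgroup Γ where
  carrier := {y | ∀ u, u * x = x * u → u * y = y * u}
  mul_mem' := by
    intro a b ha hb u hu
    rw [← mul_assoc, ha u hu, mul_assoc, hb u hu, mul_assoc]
  one_mem' := by
    intro u _
    rw [mul_one, one_mul]
  inv_mem' := by
    intro a ha u hu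
    have := ha u hu
    rw [eq_inv_mul_iff_mul_eq, ← mul_assoc, ← this, mul_assoc, mul_inv_cancel, mul_one]

theorem mem_zeta {x y : Γ} : y ∈ zeta x ↔ ∀ u, u * x = x * u → u * y = y * u := Iff.rfl

theorem self_mem_zeta (x : Γ) : x ∈ zeta x := fun _ h => h

theorem zeta_comm {x y z : Γ} (hy : y ∈ zeta x) (hz : z ∈ zeta x) : y * z = z * y :=
  hz y (hy x rfl).symm

theorem zeta_conj {x y : Γ} (g : Γ) (h : y ∈ zeta x) : g⁻¹ * y * g ∈ zeta (g⁻¹ * x * g) := by
  intro u hu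
  have h1 : (g * u * g⁻¹) * x = x * (g * u * g⁻¹) := by
    have h2 : g * (u * (g⁻¹ * x * g)) * g⁻¹ = g * (g⁻¹ * x * g * u) * g⁻¹ := by rw [hu]
    calc (g * u * g⁻¹) * x = g * (u * (g⁻¹ * x * g)) * g⁻¹ := by group
      _ = g * (g⁻¹ * x * g * u) * g⁻¹ := h2
      _ = x * (g * u * g⁻¹) := by group
  have h3 := h _ h1
  calc u * (g⁻¹ * y * g) = g⁻¹ * ((g * u * g⁻¹) * y) * g := by group
    _ = g⁻¹ * (y * (g * u * g⁻¹)) * g := by rw [h3]
    _ = g⁻¹ * y * g * u := by group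

theorem zeta_inv (x : Γ) : zeta x⁻¹ = zeta x := by
  have key : ∀ u : Γ, (u * x⁻¹ = x⁻¹ * u ↔ u * x = x * u) := by
    intro u
    constructor
    · intro h
      have h2 : Commute u x⁻¹ := h
      exact (Commute.inv_right_iff.mp h2)
    · intro h
      have h2 : Commute u x := h
      exact Commute.inv_right_iff.mpr h2
  ext y
  rw [mem_zeta, mem_zeta]
  constructor
  · intro h u hu
    exact h u ((key u).mpr hu)
  · intro h u hu
    exact h u ((key u).mp hu)

/-- the centraliser of an element -/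
def cen (x : Γ) : Subgroup Γ where
  carrier := {y | y * x = x * y}
  mul_mem' := by
    intro a b ha hb
    rw [Set.mem_ofPred_eq] at *
    rw [mul_assoc, hb, ← mul_assoc, ha, mul_assoc]
  one_mem' := by
    rw [Set.mem_ofPred_eq, one_mul, mul_one]
  inv_mem' := by
    intro a ha
    rw [Set.mem_ofPred_eq] at *
    rw [inv_mul_eq_iff_eq_mul, ← mul_assoc, ha, mul_assoc, mul_inv_cancel, mul_one]

theorem mem_cen {x y : Γ} : y ∈ cen x ↔ y * x = x * y := Iff.rfl

/-- conjugate subgroup `g⁻¹ H g` -/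
def cj (H : Subgroup Γ) (g : Γ) : Subgroup Γ where
  carrier := {y | g * y * g⁻¹ ∈ H}
  mul_mem' := by
    intro a b ha hb
    rw [Set.mem_ofPred_eq] at *
    have h2 : g * (a * b) * g⁻¹ = (g * a * g⁻¹) * (g * b * g⁻¹) := by group
    rw [h2]
    exact H.mul_mem ha hb
  one_mem' := by
    rw [Set.mem_ofPred_eq]
    simp
  inv_mem' := by
    intro a ha
    rw [Set.mem_ofPred_eq] at *
    have h2 : g * a⁻¹ * g⁻¹ = (g * a * g⁻¹)⁻¹ := by group
    rw [h2]
    exact H.inv_mem ha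

theorem mem_cj {H : Subgroup Γ} {g y : Γ} : y ∈ cj H g ↔ g * y * g⁻¹ ∈ H := Iff.rfl

theorem df_cen (x : Γ) : Df (cen x : Set Γ) :=
  DfFun.eq (f := fun y : Γ => y * x) (g := fun y => x * y) (by fun_prop) (by fun_prop)

theorem dfP_mem_zeta : DfP (fun p : Γ × Γ => p.2 ∈ zeta p.1) := by
  have h : (fun p : Γ × Γ => p.2 ∈ zeta p.1) =
      fun p : Γ × Γ => ∀ u : Γ, u * p.1 = p.1 * u → u * p.2 = p.2 * u := rfl
  rw [h]
  repeat' first
    | assumption | fun_prop | apply DfP.all | apply DfP.eq | apply DfP.imp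

theorem df_zeta (x : Γ) : Df (zeta x : Set Γ) :=
  Df.section_left (S := {p : Γ × Γ | p.2 ∈ zeta p.1}) dfP_mem_zeta x

theorem df_bot : Df ((⊥ : Subgroup Γ) : Set Γ) := by
  rw [Subgroup.coe_bot]
  exact Df.singleton 1

theorem df_cj {H : Subgroup Γ} (hH : Df (H : Set Γ)) (g : Γ) : Df (cj H g : Set Γ) :=
  DfFun.preimage (f := fun y : Γ => g * y * g⁻¹) (by fun_prop) hH

theorem df_inf {H K : Subgroup Γ} (hH : Df (H : Set Γ)) (hK : Df (K : Set Γ)) :
    Df ((H ⊓ K : Subgroup Γ) : Set Γ) := by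
  rw [Subgroup.coe_inf]
  exact hH.inter hK

theorem df_smul {S : Set Γ} (hS : Df S) (g : Γ) : Df ((fun x => g * x) '' S) :=
  DfFun.image (f := fun x : Γ => g * x) (by fun_prop) hS

theorem df_setmul {S T : Set Γ} (hS : Df S) (hT : Df T) :
    Df {z : Γ | ∃ a ∈ S, ∃ b ∈ T, z = a * b} := by
  change DfP (fun z : Γ => ∃ a, a ∈ S ∧ ∃ b, b ∈ T ∧ z = a * b)
  repeat' first
    | assumption | fun_prop | apply DfP.and | apply DfP.ex | apply DfP.eq
    | (apply DfP.mem; assumption)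

/-- powers of an abelian subgroup -/
theorem df_pow_image {H : Subgroup Γ} (hH : Df (H : Set Γ)) (n : ℕ) :
    Df {z : Γ | ∃ a ∈ H, z = a ^ n} := by
  have h : {z : Γ | ∃ a ∈ H, z = a ^ n} = (fun a : Γ => a ^ n) '' (H : Set Γ) := by
    ext z
    simp only [Set.mem_ofPred_eq, Set.mem_image, SetLike.mem_coe]
    constructor
    · rintro ⟨a, ha, rfl⟩
      exact ⟨a, ha, rfl⟩
    · rintro ⟨a, ha, rfl⟩
      exact ⟨a, ha, rfl⟩
  rw [h]
  exact DfFun.image (by fun_prop) hH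

end Pool.Agent.A1C
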