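import Mathlib

/-!
# EA: identification of `PGL₂(F)` (pure group theory, Mathlib only)

`B = K C`. `G` acts on `G ⧸ B`; `e : OnePoint F → G ⧸ B`, `∞ ↦ B`, `x ↦ ψ x w B` is a bijection. `ψ b` acts as
`x ↦ x + b`, `φ a` as `x ↦ a x`, `w` as `x ↦ α / x` for some `α ≠ 0`. The action is faithful, its range is the range of the action of
`GL₂(F)`.
-/

namespace Pool.Agent.A1C

open OnePoint Matrix

/-! ### the action of `GL₂(F)` -/

section gltwo

variable {F : Type*} [Field F] [DecidableEq F]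

private theorem EA_gl_one {g : GL (Fin 2) F} (h : ∀ x : OnePoint F, g • x = x) :
    ∃ u : Fˣ, g = GeneralLinearGroup.scalar (Fin 2) u := by
  have h1 : g 1 0 = 0 := smul_infty_eq_self_iff.1 (h ∞)
  have hdet : g 0 0 * g 1 1 ≠ 0 := by
    have := g.det_ne_zero
    rw [det_fin_two] at this
    rw [h1, mul_zero, sub_zero] at this
    exact this
  have h11 : g 1 1 ≠ 0 := fun hh => hdet (by rw [hh, mul_zero])
  have h00 : g 0 0 ≠ 0 := fun hh => hdet (by rw [hh, zero_mul])
  have h2 := h ((0 : F) : OnePoint F)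
  rw [smul_some_eq_ite, h1, if_neg (by simpa using h11)] at h2
  have h3 : g 0 1 = 0 := by
    have := coe_eq_coe.1 h2
    simpa [h11] using this
  have h4 := h ((1 : F) : OnePoint F)
  rw [smul_some_eq_ite, h1, if_neg (by simpa using h11)] at h4
  have h5 : g 0 0 = g 1 1 := by
    have := coe_eq_coe.1 h4
    rw [h3] at this
    simp only [mul_one, add_zero, zero_add] at this
    exact (div_eq_one_iff_eq h11).1 this
  refine ⟨Units.mk0 (g 1 1) h11, ?_⟩
  ext i j
  fin_cases i <;> fin_cases j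
  · simpa using h5
  · simpa using h3
  · simpa using h1
  · simp

/-- the homomorphism from `PGL₂(F)` to the permutations of the projective line -/
private noncomputable def EA_sig (F : Type*) [Field F] [DecidableEq F] :
    ProjGenLinGroup (Fin 2) F →* Equiv.Perm (OnePoint F) :=
  ProjGenLinGroup.lift (MulAction.toPermHom (GL (Fin 2) F) (OnePoint F)) (by
    ext u x : 2
    show GeneralLinearGroup.scalar (Fin 2) u • x = x
    induction x using OnePoint.rec with
    | infty => rw [smul_infty_eq_ite]; simp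
    | coe x => rw [smul_some_eq_ite]; simp)

private theorem EA_sig_mk (g : GL (Fin 2) F) (x : OnePoint F) :
    EA_sig F (ProjGenLinGroup.mk g) x = g • x := rfl

private theorem EA_sig_inj : Function.Injective (EA_sig F) := by
  rw [injective_iff_map_eq_one]
  intro a ha
  induction a using ProjGenLinGroup.induction_on with
  | mk g =>
    obtain ⟨u, hu⟩ := EA_gl_one (g := g) (fun x => by rw [← EA_sig_mk, ha]; rfl)
    rw [hu, ProjGenLinGroup.mk_scalar]

end gltwo

/-- a permutation group of the projective line containing the right maps is `PGL₂(F)` -/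
private theorem EA_range {G F : Type*} [Group G] [Field F] [DecidableEq F]
    (ρ : G →* Equiv.Perm (OnePoint F)) (hinj : Function.Injective ρ) (K C : F → G)
    (w : G) (α : F) (hα : α ≠ 0)
    (hK : ∀ b x : F, ρ (K b) x = ((x + b : F) : OnePoint F)) (hK' : ∀ b, ρ (K b) ∞ = ∞)
    (hC : ∀ a x : F, a ≠ 0 → ρ (C a) x = ((a * x : F) : OnePoint F))
    (hC' : ∀ a, a ≠ 0 → ρ (C a) ∞ = ∞)
    (hw : ρ w ∞ = ((0 : F) : OnePoint F)) (hw0 : ρ w ((0 : F) : OnePoint F) = ∞)
    (hwx : ∀ x : F, x ≠ 0 → ρ w x = ((α / x : F) : OnePoint F))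
    (hcov : ∀ g : G, (∃ b a, a ≠ 0 ∧ g = K b * C a) ∨
      ∃ b a b', a ≠ 0 ∧ g = K b * C a * w * K b') :
    Nonempty (G ≃* ProjGenLinGroup (Fin 2) F) := by
  -- the three kinds of generators are in the range
  have rK : ∀ b, ρ (K b) ∈ (EA_sig F).range := by
    intro b
    refine ⟨ProjGenLinGroup.mk (GeneralLinearGroup.mkOfDetNeZero !![1, b; 0, 1] (by simp)), ?_⟩
    refine Equiv.ext fun x => ?_
    rw [EA_sig_mk]
    induction x using OnePoint.rec with
    | infty =>
      rw [hK', smul_infty_eq_ite]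
      simp [GeneralLinearGroup.mkOfDetNeZero]
    | coe x =>
      rw [hK, smul_some_eq_ite]
      simp [GeneralLinearGroup.mkOfDetNeZero]
  have rC : ∀ a, a ≠ 0 → ρ (C a) ∈ (EA_sig F).range := by
    intro a ha
    refine ⟨ProjGenLinGroup.mk (GeneralLinearGroup.mkOfDetNeZero !![a, 0; 0, 1] (by simpa)), ?_⟩
    refine Equiv.ext fun x => ?_
    rw [EA_sig_mk]
    induction x using OnePoint.rec with
    | infty =>
      rw [hC' a ha, smul_infty_eq_ite]
      simp [GeneralLinearGroup.mkOfDetNeZero]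
    | coe x =>
      rw [hC a x ha, smul_some_eq_ite]
      simp [GeneralLinearGroup.mkOfDetNeZero]
  have rw' : ρ w ∈ (EA_sig F).range := by
    refine ⟨ProjGenLinGroup.mk (GeneralLinearGroup.mkOfDetNeZero !![0, α; 1, 0] (by simpa)), ?_⟩
    refine Equiv.ext fun x => ?_
    rw [EA_sig_mk]
    induction x using OnePoint.rec with
    | infty =>
      rw [hw, smul_infty_eq_ite]
      simp [GeneralLinearGroup.mkOfDetNeZero]
    | coe x =>
      rw [smul_some_eq_ite]
      by_cases hx : x = 0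
      · rw [hx, hw0]
        simp [GeneralLinearGroup.mkOfDetNeZero]
      · rw [hwx x hx]
        simp [GeneralLinearGroup.mkOfDetNeZero, hx]
  have h1 : ρ.range ≤ (EA_sig F).range := by
    rintro _ ⟨g, rfl⟩
    rcases hcov g with ⟨b, a, ha, rfl⟩ | ⟨b, a, b', ha, rfl⟩
    · rw [map_mul]
      exact mul_mem (rK b) (rC a ha)
    · rw [map_mul, map_mul, map_mul]
      exact mul_mem (mul_mem (mul_mem (rK b) (rC a ha)) rw') (rK b')
  have h2 : (EA_sig F).range ≤ ρ.range := by
    rintro _ ⟨A, rfl⟩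
    induction A using ProjGenLinGroup.induction_on with
    | mk g =>
      have hdet : g 0 0 * g 1 1 - g 0 1 * g 1 0 ≠ 0 := by
        have := g.det_ne_zero
        rwa [det_fin_two] at this
      obtain ⟨p, hp⟩ : ∃ p, p = g 0 0 := ⟨_, rfl⟩
      obtain ⟨q, hq⟩ : ∃ q, q = g 0 1 := ⟨_, rfl⟩
      obtain ⟨r, hr⟩ : ∃ r, r = g 1 0 := ⟨_, rfl⟩
      obtain ⟨s, hs⟩ : ∃ s, s = g 1 1 := ⟨_, rfl⟩
      rw [← hp, ← hq, ← hr, ← hs] at hdet
      by_cases hr0 : r = 0
      · rw [hr0, mul_zero, sub_zero] at hdet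
        have hp0 : p ≠ 0 := fun hh => hdet (by rw [hh, zero_mul])
        have hs0 : s ≠ 0 := fun hh => hdet (by rw [hh, mul_zero])
        refine ⟨K (q / s) * C (p / s), Equiv.ext fun x => ?_⟩
        rw [EA_sig_mk, map_mul, Equiv.Perm.mul_apply]
        induction x using OnePoint.rec with
        | infty =>
          rw [hC' _ (div_ne_zero hp0 hs0), hK', smul_infty_eq_ite, ← hr, if_pos hr0]
        | coe x =>
          rw [hC _ _ (div_ne_zero hp0 hs0), hK, smul_some_eq_ite, ← hr, ← hs, ← hp, ← hq, hr0,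
            if_neg (by simpa using hs0)]
          have e : p / s * x + q / s = (p * x + q) / (0 * x + s) := by
            rw [zero_mul, zero_add]
            field_simp
          rw [e]
      · obtain ⟨β, hβ⟩ : ∃ β, β = (q * r - p * s) / (r ^ 2 * α) := ⟨_, rfl⟩
        have hβ0 : β ≠ 0 := by
          rw [hβ]
          refine div_ne_zero (fun hh => hdet ?_) (mul_ne_zero (pow_ne_zero 2 hr0) hα)
          rw [← neg_eq_zero, ← hh]
          ring
        refine ⟨K (p / r) * C β * w * K (s / r), Equiv.ext fun x => ?_⟩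
        rw [EA_sig_mk, map_mul, map_mul, map_mul, Equiv.Perm.mul_apply, Equiv.Perm.mul_apply,
          Equiv.Perm.mul_apply]
        induction x using OnePoint.rec with
        | infty =>
          rw [hK', hw, hC _ _ hβ0, hK, smul_infty_eq_ite, ← hr, if_neg hr0, ← hp]
          congr 1
          ring
        | coe x =>
          rw [hK, smul_some_eq_ite, ← hr, ← hs, ← hp, ← hq]
          have e : x + s / r = (r * x + s) / r := by field_simp
          by_cases hx : r * x + s = 0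
          · have hx2 : x + s / r = 0 := by
              rw [e, hx, zero_div]
            rw [hx2, hw0, hC' _ hβ0, hK', if_pos hx]
          · have hx2 : x + s / r ≠ 0 := by
              rw [e]
              exact div_ne_zero hx hr0
            rw [hwx _ hx2, hC _ _ hβ0, hK, if_neg hx]
            congr 1
            have hx3 : x * r + s ≠ 0 := by rwa [mul_comm]
            rw [hβ, e]
            field_simp
            ring
  have h3 : ρ.range = (EA_sig F).range := le_antisymm h1 h2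
  exact ⟨(MonoidHom.ofInjective hinj).trans ((MulEquiv.subgroupCongr h3).trans
    (MonoidHom.ofInjective EA_sig_inj).symm)⟩

/-- the subgroup `K C` -/
private def EA_B {G : Type*} [Group G] (K C : Subgroup G)
    (hn : ∀ c ∈ C, ∀ x ∈ K, c * x * c⁻¹ ∈ K) : Subgroup G where
  carrier := {g | ∃ x ∈ K, ∃ c ∈ C, g = x * c}
  mul_mem' := by
    rintro _ _ ⟨x, hx, c, hc, rfl⟩ ⟨x', hx', c', hc', rfl⟩
    refine ⟨x * (c * x' * c⁻¹), mul_mem hx (hn c hc x' hx'), c * c', mul_mem hc hc', ?_⟩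
    group
  one_mem' := ⟨1, one_mem K, 1, one_mem C, by simp⟩
  inv_mem' := by
    rintro _ ⟨x, hx, c, hc, rfl⟩
    refine ⟨c⁻¹ * x⁻¹ * (c⁻¹)⁻¹, hn c⁻¹ (inv_mem hc) x⁻¹ (inv_mem hx), c⁻¹, inv_mem hc, ?_⟩
    group

/-- identification: `B = K C`, `G = B ∪ B w K` -/
theorem pgl_ident {G F : Type*} [Group G] [Field F] (K C : Subgroup G) (w : G)
    (φ : Fˣ ≃* C) (ψ : Multiplicative F ≃* K)
    (hact : ∀ (a : Fˣ) (x : F), (φ a : G) * (ψ (Multiplicative.ofAdd x) : G) * (φ a : G)⁻¹ =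
      ψ (Multiplicative.ofAdd ((a : F) * x)))
    (hw : w * w = 1) (hinv : ∀ c ∈ C, w * c * w = c⁻¹)
    (hwB : ∀ y ∈ K, ∀ c ∈ C, w ≠ y * c)
    (hKw : ∀ x ∈ K, x ≠ 1 → ∀ y ∈ K, ∀ c ∈ C, w * x * w ≠ y * c)
    (hcov : ∀ g : G, (∃ x ∈ K, ∃ c ∈ C, g = x * c) ∨
      ∃ x ∈ K, ∃ c ∈ C, ∃ y ∈ K, g = x * c * w * y) :
    Nonempty (G ≃* ProjGenLinGroup (Fin 2) F) := by
  classical
  obtain ⟨k, hk⟩ : ∃ k : F → G, k = fun x => (ψ (Multiplicative.ofAdd x) : G) := ⟨_, rfl⟩
  have kK : ∀ x, k x ∈ K := fun x => by rw [hk]; exact (ψ _).2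
  have k0 : k 0 = 1 := by
    rw [hk]
    show ((ψ 1 : K) : G) = 1
    rw [map_one]
    rfl
  have kadd : ∀ x y, k x * k y = k (x + y) := fun x y => by
    rw [hk]
    show (ψ (Multiplicative.ofAdd x) : G) * (ψ (Multiplicative.ofAdd y) : G) =
      (ψ (Multiplicative.ofAdd (x + y)) : G)
    rw [ofAdd_add, map_mul]
    rfl
  have kinj : ∀ x, k x = 1 → x = 0 := by
    intro x hx
    rw [hk] at hx
    have h1 : ψ (Multiplicative.ofAdd x) = 1 := Subtype.ext hx
    have h2 := (map_eq_one_iff ψ ψ.injective).1 h1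
    exact h2
  have kinv : ∀ x, (k x)⁻¹ = k (-x) := fun x => by
    rw [inv_eq_iff_mul_eq_one, kadd, add_neg_cancel, k0]
  have ksur : ∀ y ∈ K, ∃ x, y = k x := by
    intro y hy
    refine ⟨Multiplicative.toAdd (ψ.symm ⟨y, hy⟩), ?_⟩
    rw [hk]
    show y = ((ψ (Multiplicative.ofAdd (Multiplicative.toAdd (ψ.symm ⟨y, hy⟩))) : K) : G)
    rw [ofAdd_toAdd, MulEquiv.apply_symm_apply]
  obtain ⟨c, hc⟩ : ∃ c : F → G, c = fun a => if h : a = 0 then 1 else (φ (Units.mk0 a h) : G) :=
    ⟨_, rfl⟩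
  have cC : ∀ a, c a ∈ C := fun a => by
    rw [hc]
    dsimp only
    split_ifs with h
    · exact one_mem C
    · exact (φ _).2
  have cact : ∀ a x, a ≠ 0 → c a * k x * (c a)⁻¹ = k (a * x) := by
    intro a x ha
    rw [hc, hk]
    dsimp only
    rw [dif_neg ha]
    exact hact (Units.mk0 a ha) x
  have csur : ∀ y ∈ C, ∃ a, a ≠ 0 ∧ y = c a := by
    intro y hy
    refine ⟨((φ.symm ⟨y, hy⟩ : Fˣ) : F), Units.ne_zero _, ?_⟩
    rw [hc]
    dsimp only
    rw [dif_neg (Units.ne_zero _), Units.mk0_val, MulEquiv.apply_symm_apply]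
  have c1 : c 1 = 1 := by
    rw [hc]
    dsimp only
    rw [dif_neg one_ne_zero, Units.mk0_one, map_one]
    rfl
  have hn : ∀ y ∈ C, ∀ x ∈ K, y * x * y⁻¹ ∈ K := by
    intro y hy x hx
    obtain ⟨a, ha, rfl⟩ := csur y hy
    obtain ⟨x, rfl⟩ := ksur x hx
    rw [cact a x ha]
    exact kK _
  obtain ⟨B, hB⟩ : ∃ B : Subgroup G, B = EA_B K C hn := ⟨_, rfl⟩
  have memB : ∀ g, g ∈ B ↔ ∃ x ∈ K, ∃ y ∈ C, g = x * y := fun g => by rw [hB]; rfl
  have KB : ∀ x ∈ K, x ∈ B := fun x hx => (memB x).2 ⟨x, hx, 1, one_mem C, by simp⟩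
  have CB : ∀ x ∈ C, x ∈ B := fun x hx => (memB x).2 ⟨1, one_mem K, x, hx, by simp⟩
  have wB : w ∉ B := fun h => by
    obtain ⟨x, hx, y, hy, e⟩ := (memB w).1 h
    exact hwB x hx y hy e
  have winv : w⁻¹ = w := by rw [inv_eq_iff_mul_eq_one, hw]
  have cw : ∀ y ∈ C, y * w = w * y⁻¹ := by
    intro y hy
    rw [← hinv y hy]
    simp only [← mul_assoc, hw, one_mul]
  -- the points
  obtain ⟨e, he⟩ : ∃ e : OnePoint F → G ⧸ B,
      e = fun p => p.elim ((1 : G) : G ⧸ B) (fun x => ((k x * w : G) : G ⧸ B)) := ⟨_, rfl⟩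
  have einf : e ∞ = ((1 : G) : G ⧸ B) := by rw [he]; rfl
  have ecoe : ∀ x : F, e (x : OnePoint F) = ((k x * w : G) : G ⧸ B) := fun x => by rw [he]; rfl
  have einj : Function.Injective e := by
    have h1 : ∀ x : F, e (x : OnePoint F) ≠ e ∞ := by
      intro x h
      rw [einf, ecoe] at h
      have h2 := QuotientGroup.eq.1 h.symm
      rw [inv_one, one_mul] at h2
      apply wB
      have h3 := mul_mem (KB _ (kK (-x))) h2
      rwa [← mul_assoc, kadd, neg_add_cancel, k0, one_mul] at h3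
    intro p q hpq
    induction p using OnePoint.rec with
    | infty =>
      induction q using OnePoint.rec with
      | infty => rfl
      | coe y => exact absurd hpq.symm (h1 y)
    | coe x =>
      induction q using OnePoint.rec with
      | infty => exact absurd hpq (h1 x)
      | coe y =>
        rw [ecoe, ecoe] at hpq
        have h2 := QuotientGroup.eq.1 hpq
        rw [_root_.mul_inv_rev, winv, kinv] at h2
        have h3 : w * k (-x) * (k y * w) = w * k (-x + y) * w := by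
          rw [← kadd]; simp only [mul_assoc]
        rw [h3] at h2
        obtain ⟨a, ha, b, hb, e4⟩ := (memB _).1 h2
        by_contra hne
        refine hKw (k (-x + y)) (kK _) (fun h5 => hne ?_) a ha b hb e4
        have h6 := kinj _ h5
        have h7 : x = y := by
          have : y = x + (-x + y) := by ring
          rw [this, h6, add_zero]
        rw [h7]
  have esur : Function.Surjective e := by
    intro q
    induction q using QuotientGroup.induction_on with
    | H g =>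
      rcases hcov g⁻¹ with ⟨x, hx, y, hy, e1⟩ | ⟨x, hx, y, hy, z, hz, e1⟩
      · refine ⟨∞, ?_⟩
        rw [einf]
        apply QuotientGroup.eq.2
        rw [inv_one, one_mul]
        have h1 : g⁻¹ ∈ B := (memB _).2 ⟨x, hx, y, hy, e1⟩
        exact (inv_mem_iff).1 h1
      · obtain ⟨a, ha⟩ := ksur z⁻¹ (inv_mem hz)
        refine ⟨(a : OnePoint F), ?_⟩
        rw [ecoe]
        apply QuotientGroup.eq.2
        have h1 : g = z⁻¹ * w * (y⁻¹ * x⁻¹) := by
          rw [← inv_inv g, e1]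
          simp only [_root_.mul_inv_rev, winv, mul_assoc]
        rw [h1, ← ha, inv_mul_cancel_left]
        exact mul_mem (CB _ (inv_mem hy)) (KB _ (inv_mem hx))
  obtain ⟨E, hE⟩ : ∃ E : OnePoint F ≃ G ⧸ B, E = Equiv.ofBijective e ⟨einj, esur⟩ := ⟨_, rfl⟩
  have Ee : ∀ p, E p = e p := fun p => by rw [hE]; rfl
  obtain ⟨ρ, hρ⟩ : ∃ ρ : G →* Equiv.Perm (OnePoint F), ∀ g p, ρ g p = E.symm (g • E p) := by
    refine ⟨(E.symm.permCongrHom.toMonoidHom).comp (MulAction.toPermHom G (G ⧸ B)), ?_⟩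
    intro g p
    rfl
  have hρe : ∀ g p q, g • e p = e q → ρ g p = q := by
    intro g p q h
    rw [hρ, Ee, h, ← Ee, Equiv.symm_apply_apply]
  have hρe' : ∀ g p, g • e p = e (ρ g p) := by
    intro g p
    rw [hρ, ← Ee (E.symm _), Equiv.apply_symm_apply, Ee]
  have fixinf : ∀ g, g ∈ B → ρ g ∞ = ∞ := by
    intro g hg
    apply hρe
    rw [einf]
    show ((g * 1 : G) : G ⧸ B) = ((1 : G) : G ⧸ B)
    apply QuotientGroup.eq.2
    rw [mul_one, mul_one]
    exact inv_mem hg
  have hK : ∀ b x : F, ρ (k b) x = ((x + b : F) : OnePoint F) := by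
    intro b x
    apply hρe
    rw [ecoe, ecoe]
    show ((k b * (k x * w) : G) : G ⧸ B) = ((k (x + b) * w : G) : G ⧸ B)
    rw [← mul_assoc, kadd, add_comm b x]
  have hC : ∀ a x : F, a ≠ 0 → ρ (c a) x = ((a * x : F) : OnePoint F) := by
    intro a x ha
    apply hρe
    rw [ecoe, ecoe]
    show ((c a * (k x * w) : G) : G ⧸ B) = ((k (a * x) * w : G) : G ⧸ B)
    have h1 : c a * (k x * w) = k (a * x) * w * (c a)⁻¹ := by
      rw [← cact a x ha]
      simp only [mul_assoc]
      rw [← cw (c a) (cC a), inv_mul_cancel_left]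
    rw [h1]
    apply QuotientGroup.eq.2
    rw [_root_.mul_inv_rev, inv_inv, mul_assoc, inv_mul_cancel, mul_one]
    exact CB _ (cC a)
  have hwi : ρ w ∞ = ((0 : F) : OnePoint F) := by
    apply hρe
    rw [einf, ecoe, k0, one_mul]
    show ((w * 1 : G) : G ⧸ B) = ((w : G) : G ⧸ B)
    rw [mul_one]
  have hw0 : ρ w ((0 : F) : OnePoint F) = ∞ := by
    apply hρe
    rw [einf, ecoe, k0, one_mul]
    show ((w * w : G) : G ⧸ B) = ((1 : G) : G ⧸ B)
    rw [hw]
  obtain ⟨α, hα⟩ : ∃ α : F, ρ w ((1 : F) : OnePoint F) = (α : OnePoint F) := by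
    rcases h : ρ w ((1 : F) : OnePoint F) with _ | α
    · exfalso
      have h1 : ρ w ((1 : F) : OnePoint F) = ρ w ((0 : F) : OnePoint F) := by
        rw [hw0]; exact h
      have h2 := (ρ w).injective h1
      exact one_ne_zero (coe_eq_coe.1 h2)
    · exact ⟨α, rfl⟩
  have hα0 : α ≠ 0 := by
    rintro rfl
    rw [← hwi] at hα
    have h2 := (ρ w).injective hα
    exact coe_ne_infty _ h2
  have hwx : ∀ x : F, x ≠ 0 → ρ w x = ((α / x : F) : OnePoint F) := by
    intro x hx
    have h1 : w * c x = (c x)⁻¹ * w := by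
      have := cw (c x)⁻¹ (inv_mem (cC x))
      rw [this, inv_inv]
    have h2 : ρ w (x : OnePoint F) = ρ (w * c x) ((1 : F) : OnePoint F) := by
      rw [map_mul, Equiv.Perm.mul_apply, hC x 1 hx, mul_one]
    rw [h2, h1, map_mul, Equiv.Perm.mul_apply, hα, map_inv, Equiv.Perm.inv_eq_iff_eq, hC _ _ hx,
      mul_div_cancel₀ _ hx]
  have hinj : Function.Injective ρ := by
    rw [injective_iff_map_eq_one]
    intro g hg
    have h1 : ρ g ∞ = ∞ := by rw [hg]; rfl
    have h2 := hρe' g ∞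
    rw [h1, einf] at h2
    have h3 : g ∈ B := by
      have h4 : ((g * 1 : G) : G ⧸ B) = ((1 : G) : G ⧸ B) := h2
      have h5 := QuotientGroup.eq.1 h4
      rw [mul_one, mul_one] at h5
      exact (inv_mem_iff).1 h5
    obtain ⟨x, hx, y, hy, rfl⟩ := (memB g).1 h3
    obtain ⟨b, rfl⟩ := ksur x hx
    obtain ⟨a, ha, rfl⟩ := csur y hy
    have h6 : ρ (k b * c a) ((0 : F) : OnePoint F) = ((0 : F) : OnePoint F) := by rw [hg]; rfl
    rw [map_mul, Equiv.Perm.mul_apply, hC _ _ ha, mul_zero, hK, zero_add] at h6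
    have hb := coe_eq_coe.1 h6
    have h7 : ρ (k b * c a) ((1 : F) : OnePoint F) = ((1 : F) : OnePoint F) := by rw [hg]; rfl
    rw [map_mul, Equiv.Perm.mul_apply, hC _ _ ha, mul_one, hK, hb, add_zero] at h7
    have ha1 := coe_eq_coe.1 h7
    rw [hb, ha1, k0, c1, one_mul]
  refine EA_range ρ hinj k c w α hα0 hK (fun b => fixinf _ (KB _ (kK b))) hC
    (fun a _ => fixinf _ (CB _ (cC a))) hwi hw0 hwx ?_
  intro g
  rcases hcov g with ⟨x, hx, y, hy, e1⟩ | ⟨x, hx, y, hy, z, hz, e1⟩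
  · obtain ⟨b, rfl⟩ := ksur x hx
    obtain ⟨a, ha, rfl⟩ := csur y hy
    exact Or.inl ⟨b, a, ha, e1⟩
  · obtain ⟨b, rfl⟩ := ksur x hx
    obtain ⟨a, ha, rfl⟩ := csur y hy
    obtain ⟨b', rfl⟩ := ksur z hz
    exact Or.inr ⟨b, a, b', ha, e1⟩

end Pool.Agent.A1C
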