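import Pool.Agent.A1C.PB5

/-!
# FDef: the field structure obtained at the end of Part D1 (final file)

`F^* = D` and `F_+ = K`, `D` acts on `K` by conjugation as multiplication.
-/

namespace Pool.Agent.A1C

universe u

/-- `D` and `K` are the multiplicative and the additive group of the field `F` -/
structure FD {M : Type u} [Univ M] {G : Type u} [Group G] [DGrp M G] (S : BSetup G)
    (F : Type u) [Field F] where
  φ : Fˣ ≃* S.D
  ψ : Multiplicative F ≃* S.K
  act : ∀ (a : Fˣ) (x : F), (φ a : G) * (ψ (Multiplicative.ofAdd x) : G) * (φ a : G)⁻¹ =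
    (ψ (Multiplicative.ofAdd ((a : F) * x)) : G)
  inf : Infinite F
  two : (2 : F) ≠ 0
  neg : ((φ (-1) : S.D) : G) = S.i

end Pool.Agent.A1C
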