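import Pool.Agent.A1C.PD4

/-!
# PD5: the common neighbours have rank at most `rk C` (D1c), end of the algebra

`E_const`: for such an `h` put `x₁ = (d d')⁻¹ E h (d d') ∈ A_{dd'}`, `y₁ = (d'⁻¹ E h d')⁻¹ ∈ A_{d'}`; then `x₁ y₁ = d'⁻¹ (d⁻¹ E h d) d' ∈ X = cj A_d d'`. `j = x₁ c₀`
and `k = c₀ y₁` are involutions (`LineGrp.line_mul`, `mul_line`) with `j k = x₁ y₁`. None of `x₁, y₁, x₁ y₁` is `1` (`gamma_ne`). So `j, k` are on the line of `X`
(`mem_line_of_mul_mem`), `j` and `c₀` on the line of `A_{dd'}`. `A_{dd'} ≠ X`: otherwise `y₁ ∈ A_{dd'} ∩ A_{d'}`, against `A_ne`. So `j` is the unique common point of the two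
lines (`line_inter`), the same for all `h`, and so is `E h (d d') = d d' j c₀`.
`rk_common_le`: `{h | ...}` is contained in `{h | h⁻¹ i h = i} ∪ {h | E h (dd') = g₀}`; the first set is `C ∪ w C`; the second is empty or contained in a coset
`(C ∪ w C) h₁` (`comm_of_cj_mem` for `dd' ∈ C \ 1`).
-/

namespace Pool.Agent.A1C

universe u

namespace BSetup

variable {M : Type u} [Univ M] {G : Type u} [Group G] [DGrp M G] {S : BSetup G}
  {x y l o : G}

theorem gamma_cocycle {d d' h : G} (hd : d ∈ S.D) (hd' : d' ∈ S.D) :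
    ((d * d')⁻¹ * E h (d * d')) * (d'⁻¹ * E h d')⁻¹ = d'⁻¹ * (d⁻¹ * E h d) * d' := by
  unfold E
  group

private theorem PD5_step (hg : S.Good x y l o) {d d' : G} (hd : S.Adm x y d)
    (hd' : S.Adm x y d') (hdd : S.Adm x y (d * d')) {h : G} (hx : x * h⁻¹ ∈ S.W)
    (hy : y * h⁻¹ ∈ S.W) (hh : h⁻¹ * S.i * h ≠ S.i) :
    ((d * d')⁻¹ * E h (d * d')) * (l * o) ∈ line (cen (rho x y (S.i * (d * d')⁻¹))) ∧
    ((d * d')⁻¹ * E h (d * d')) * (l * o) ∈ line (cj (cen (rho x y (S.i * d⁻¹))) d') ∧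
    cen (rho x y (S.i * (d * d')⁻¹)) ≠ cj (cen (rho x y (S.i * d⁻¹))) d' := by
  have L1 := hg.A_line hd
  have L2 := hg.A_line hd'
  have L3 := hg.A_line hdd
  have hX := Setup.LineGrp.cj S.toSetup L1.1 d'
  have g1 := hg.gamma_mem hd hx hy
  have g2 := hg.gamma_mem hd' hx hy
  have g3 := hg.gamma_mem hdd hx hy
  set A1 := cen (rho x y (S.i * d⁻¹)) with hA1
  set A2 := cen (rho x y (S.i * d'⁻¹)) with hA2
  set A3 := cen (rho x y (S.i * (d * d')⁻¹)) with hA3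
  set x₁ := (d * d')⁻¹ * E h (d * d') with hx₁
  set y₁ := (d'⁻¹ * E h d')⁻¹ with hy₁
  have hy₁m : y₁ ∈ A2 := A2.inv_mem g2
  have hcoc : x₁ * y₁ = d'⁻¹ * (d⁻¹ * E h d) * d' := gamma_cocycle hd.ht hd'.ht
  have hzX : x₁ * y₁ ∈ cj A1 d' := by
    rw [mem_cj, hcoc]
    have e : d' * (d'⁻¹ * (d⁻¹ * E h d) * d') * d'⁻¹ = d⁻¹ * E h d := by group
    rw [e]
    exact g1
  have hz1 : x₁ * y₁ ≠ 1 := by
    intro h1
    rw [hcoc] at h1
    apply gamma_ne hd.ht hd.ht1 hh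
    calc d⁻¹ * E h d = d' * (d'⁻¹ * (d⁻¹ * E h d) * d') * d'⁻¹ := by group
      _ = 1 := by rw [h1]; group
  have hy1 : y₁ ≠ 1 := by
    intro h1
    apply gamma_ne hd'.ht hd'.ht1 hh
    exact inv_eq_one.mp h1
  have hj : x₁ * (l * o) ∈ line A3 := Setup.LineGrp.mul_line S.toSetup L3.1 L3.2.1 g3
  have hk : (l * o) * y₁ ∈ line A2 := Setup.LineGrp.line_mul S.toSetup L2.1 L2.2.1 hy₁m
  have hc0 : IsInv (l * o) := hg.c0_inv
  have hjk : (x₁ * (l * o)) * ((l * o) * y₁) = x₁ * y₁ := by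
    calc (x₁ * (l * o)) * ((l * o) * y₁) = x₁ * ((l * o) * (l * o)) * y₁ := by group
      _ = x₁ * y₁ := by rw [hc0.1, mul_one]
  have hne : x₁ * (l * o) ≠ (l * o) * y₁ := by
    intro h1
    apply hz1
    rw [← hjk, h1]
    exact hk.1.1
  have hlX := Setup.LineGrp.mem_line_of_mul_mem S.toSetup hX hj.1 hk.1 hne (by
    rw [hjk]; exact hzX)
  refine ⟨hj, hlX.1, ?_⟩
  intro heq
  have hy3 : y₁ ∈ A3 := by
    have e : y₁ = x₁⁻¹ * (x₁ * y₁) := by group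
    rw [e]
    apply A3.mul_mem (A3.inv_mem g3)
    rw [heq]
    exact hzX
  exact hg.A_ne hd hd' hdd (Setup.LineGrp.eq_of_mem S.toSetup L2.1 L3.1 hy₁m hy3 hy1)

theorem Good.E_const (hg : S.Good x y l o) {d d' : G} (hd : S.Adm x y d) (hd' : S.Adm x y d')
    (hdd : S.Adm x y (d * d')) :
    ∃ g₀ : G, ∀ h : G, x * h⁻¹ ∈ S.W → y * h⁻¹ ∈ S.W → h⁻¹ * S.i * h ≠ S.i →
      E h (d * d') = g₀ := by
  by_cases hex : ∃ h : G, x * h⁻¹ ∈ S.W ∧ y * h⁻¹ ∈ S.W ∧ h⁻¹ * S.i * h ≠ S.i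
  swap
  · exact ⟨1, fun h h1 h2 h3 => absurd ⟨h, h1, h2, h3⟩ hex⟩
  obtain ⟨h₀, h1, h2, h3⟩ := hex
  refine ⟨E h₀ (d * d'), ?_⟩
  intro h hx hy hh
  have s0 := PD5_step hg hd hd' hdd h1 h2 h3
  have s1 := PD5_step hg hd hd' hdd hx hy hh
  have hj := Setup.LineGrp.line_inter S.toSetup (hg.A_line hdd).1
    (Setup.LineGrp.cj S.toSetup (hg.A_line hd).1 d') s0.2.2 s1.1 s0.1 s1.2.1 s0.2.1
  have e := mul_right_cancel hj
  exact mul_left_cancel e

private theorem PD5_cen (S : BSetup G) {g : G} (h : g * S.i = S.i * g) :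
    g ∈ (S.C : Set G) ∪ pol S.i := by
  rcases (S.toSetup.comm_iff S.i_inv).1 h with h1 | h1
  · rw [S.toSetup.cl_i] at h1
    exact Or.inl h1
  · exact Or.inr h1

theorem Good.rk_common_le (hg : S.Good x y l o) {d d' : G} (hd : S.Adm x y d)
    (hd' : S.Adm x y d') (hdd : S.Adm x y (d * d')) :
    rk {h : G | x * h⁻¹ ∈ S.W ∧ y * h⁻¹ ∈ S.W} ≤ rk (S.C : Set G) := by
  obtain ⟨g₀, hg₀⟩ := hg.E_const hd hd' hdd
  have hW := S.df_W
  have hdf0 : ∀ W : Set G, Df W → Df {h : G | x * h⁻¹ ∈ W ∧ y * h⁻¹ ∈ W} := by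
    intro W hWd
    show DfP fun h : G => x * h⁻¹ ∈ W ∧ y * h⁻¹ ∈ W
    repeat' first | assumption | fun_prop | apply DfP.and | apply DfP.or | apply DfP.not | apply DfP.iff | apply DfP.ex | apply DfP.all | apply DfP.eq | (apply DfP.mem; assumption) | apply DfP.imp | exact DfP.const _
  have hdf := hdf0 S.W hW
  have hNd : Df ((S.C : Set G) ∪ pol S.i) := S.dfC.union (Setup.df_pol S.i)
  have hNr : rk ((S.C : Set G) ∪ pol S.i) = rk (S.C : Set G) := by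
    rw [rk_union S.dfC (Setup.df_pol S.i), S.toSetup.rk_pol S.i_inv, max_self]
  have hdC : d * d' ∈ S.C := hdd.ht.2
  by_cases hex : ∃ h₁ : G, E h₁ (d * d') = g₀
  · obtain ⟨h₁, hh₁⟩ := hex
    have hNd2 : Df ((fun z => z * h₁) '' ((S.C : Set G) ∪ pol S.i)) := DfFun.image (f := fun z => z * h₁) (by fun_prop) hNd
    have hsub : {h : G | x * h⁻¹ ∈ S.W ∧ y * h⁻¹ ∈ S.W} ⊆
        ((S.C : Set G) ∪ pol S.i) ∪ ((fun z => z * h₁) '' ((S.C : Set G) ∪ pol S.i)) := by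
      rintro h ⟨hx, hy⟩
      by_cases hh : h⁻¹ * S.i * h = S.i
      · left
        apply PD5_cen
        calc h * S.i = h * (h⁻¹ * S.i * h) := by rw [hh]
          _ = S.i * h := by group
      · right
        have h1 := hg₀ h hx hy hh
        refine ⟨h * h₁⁻¹, ?_, by group⟩
        apply PD5_cen
        have h2 : (h * h₁⁻¹)⁻¹ * (d * d') * (h * h₁⁻¹) = d * d' := by
          have h3 : h⁻¹ * (d * d') * h = h₁⁻¹ * (d * d') * h₁ := by
            have := h1.trans hh₁.symm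
            exact this
          calc (h * h₁⁻¹)⁻¹ * (d * d') * (h * h₁⁻¹) = h₁ * (h⁻¹ * (d * d') * h) * h₁⁻¹ := by group
            _ = h₁ * (h₁⁻¹ * (d * d') * h₁) * h₁⁻¹ := by rw [h3]
            _ = d * d' := by group
        refine S.toSetup.comm_of_cj_mem S.i_inv (x := d * d') (by rw [S.toSetup.cl_i]; exact hdC)
          hdd.ht1 ?_
        rw [h2, S.toSetup.cl_i]
        exact hdC
    refine (rk_mono hdf (hNd.union hNd2) hsub).trans ?_
    rw [rk_union hNd hNd2, rk_mul_right _ hNd, hNr, max_self]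
  · have hsub : {h : G | x * h⁻¹ ∈ S.W ∧ y * h⁻¹ ∈ S.W} ⊆ (S.C : Set G) ∪ pol S.i := by
      rintro h ⟨hx, hy⟩
      by_cases hh : h⁻¹ * S.i * h = S.i
      · apply PD5_cen
        calc h * S.i = h * (h⁻¹ * S.i * h) := by rw [hh]
          _ = S.i * h := by group
      · exact absurd ⟨h, hg₀ h hx hy hh⟩ hex
    exact (rk_mono hdf hNd hsub).trans hNr.le

end BSetup

end Pool.Agent.A1C
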