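import Pool.Agent.A1C.PD3
import Pool.Agent.A1C.PD5

/-!
# PD6: `rk K = rk D` and consequences (D1d)

`rk_K_eq_rk_D`: `rk_D_le` and otherwise `exists_good` with `F = {i d⁻¹, i d'⁻¹, i (d d')⁻¹}` against `Good.rk_common_le`; `d, d' ∈ D` with
`d, d', d d' ∉ {1, i}` exist because `D` is infinite (`rk_D_pos`, `rk_eq_zero_iff`).
`D_regular_K0`: for `x ∈ K0 \ 1` the orbit `{d x d⁻¹ : d ∈ D}` has rank `rk D = rk K0`, so it is generic in `K0`; two generic subsets of `K0` meet.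
`D_irr`: `D` is in definable bijection with `K0 \ 1`.
`K0_eq`: `D` is connected and acts on `K / K0` (finite) trivially: for `x ∈ K` the set of `d ∈ D` with `d x d⁻¹ x⁻¹ ∈ K0` is a definable subgroup of finite index; `i ∈ D` and
`i x i = x⁻¹`, so `x² ∈ K0`, `x² = z²` with `z ∈ K0` (`K0_sqrt`), `x = z` (`K_sqrt`).
-/

namespace Pool.Agent.A1C

universe u

namespace BSetup

variable {M : Type u} [Univ M] {G : Type u} [Group G] [DGrp M G] (S : BSetup G)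

theorem rk_K_eq_rk_D : rk (S.K : Set G) = rk (S.D : Set G) := by
  refine le_antisymm ?_ S.rk_D_le
  by_contra hlt
  push Not at hlt
  have hinf : (S.D : Set G).Infinite := by
    intro hf
    have h1 := S.rk_D_pos
    rw [(rk_eq_zero_iff S.df_D).2 hf] at h1
    exact lt_irrefl _ h1
  have hiD := S.i_mem_D
  obtain ⟨d, hd, hd1⟩ := hinf.exists_notMem_finset ({1, S.i} : Set G).toFinite.toFinset
  obtain ⟨d', hd', hd1'⟩ := hinf.exists_notMem_finset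
    ({1, S.i, d⁻¹, d⁻¹ * S.i} : Set G).toFinite.toFinset
  simp only [Set.Finite.mem_toFinset, Set.mem_insert_iff, Set.mem_singleton_iff, not_or]
    at hd1 hd1'
  obtain ⟨a1, a2⟩ := hd1
  obtain ⟨b1, b2, b3, b4⟩ := hd1'
  have c1 : d * d' ≠ 1 := fun h => b3 (eq_inv_of_mul_eq_one_right h)
  have c2 : d * d' ≠ S.i := fun h => b4 (by rw [← h, inv_mul_cancel_left])
  have hne : ∀ t : G, t ≠ S.i → S.i * t⁻¹ ≠ 1 := fun t ht h => ht (mul_inv_eq_one.1 h).symm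
  have hdd : d * d' ∈ S.D := mul_mem hd hd'
  obtain ⟨x, hx, y, hy, l, o, hl, ho, hxl, hyl, -, hli, hlp, hol, hoi, hF, hr⟩ :=
    S.exists_good hlt (({S.i * d⁻¹, S.i * d'⁻¹, S.i * (d * d')⁻¹} : Set G).toFinite.toFinset) (by
      intro e he
      rw [Set.Finite.mem_toFinset] at he
      rcases he with rfl | rfl | he
      · exact ⟨mul_mem hiD (inv_mem hd), hne d a2⟩
      · exact ⟨mul_mem hiD (inv_mem hd'), hne d' b2⟩
      · rw [Set.mem_singleton_iff] at he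
        subst he
        exact ⟨mul_mem hiD (inv_mem hdd), hne _ c2⟩)
  have hg : S.Good x y l o := ⟨hx, hy, hl, ho, hxl, hyl, hli, hlp, hol, hoi⟩
  have A1 : S.Adm x y d := ⟨hd, a1, a2, (hF _ (by simp)).1, (hF _ (by simp)).2⟩
  have A2 : S.Adm x y d' := ⟨hd', b1, b2, (hF _ (by simp)).1, (hF _ (by simp)).2⟩
  have A3 : S.Adm x y (d * d') := ⟨hdd, c1, c2, (hF _ (by simp)).1, (hF _ (by simp)).2⟩
  exact absurd hr (not_lt.2 (hg.rk_common_le A1 A2 A3))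

private theorem PD6_fun (x : G) : DfFun (fun d : G => d * x * d⁻¹) := by fun_prop

private theorem PD6_inj {x : G} (hx : x ∈ S.K) (hx1 : x ≠ 1) :
    Set.InjOn (fun d : G => d * x * d⁻¹) (S.D : Set G) := by
  intro d hd e he h
  have h1 : d * x * d⁻¹ = e * x * e⁻¹ := h
  by_contra hne
  have h2 : e⁻¹ * d ≠ 1 := fun hh => hne (inv_mul_eq_one.1 hh).symm
  refine hx1 (S.D_free (mul_mem (inv_mem he) hd) h2 hx ?_)
  calc e⁻¹ * d * x = e⁻¹ * (d * x * d⁻¹) * d := by group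
    _ = x * (e⁻¹ * d) := by rw [h1]; group

private theorem PD6_irrK0 : Irr (S.K0 : Set G) := (conn_iff_irr S.K0_conn.1).1 S.K0_conn

private theorem PD6_orbit {x : G} (hx : x ∈ S.K0) (hx1 : x ≠ 1) :
    Df ((fun d : G => d * x * d⁻¹) '' (S.D : Set G)) ∧
      (fun d : G => d * x * d⁻¹) '' (S.D : Set G) ⊆ (S.K0 : Set G) ∧
      ¬ Small ((fun d : G => d * x * d⁻¹) '' (S.D : Set G)) (S.K0 : Set G) := by
  refine ⟨(PD6_fun x).image S.df_D, ?_, ?_⟩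
  · rintro _ ⟨d, hd, rfl⟩
    exact S.D_conj_K0 hd hx
  · rintro (h | h)
    · have h1 : (1 : G) * x * 1⁻¹ ∈ (fun d : G => d * x * d⁻¹) '' (S.D : Set G) :=
        ⟨1, one_mem _, rfl⟩
      rw [h] at h1
      exact h1
    · rw [rk_injOn (PD6_fun x) S.df_D (S.PD6_inj (S.K0_le hx) hx1), S.rk_K0, S.rk_K_eq_rk_D] at h
      exact lt_irrefl _ h

theorem D_regular_K0 {x y : G} (hx : x ∈ S.K0) (hx1 : x ≠ 1) (hy : y ∈ S.K0) (hy1 : y ≠ 1) :
    ∃! d, d ∈ S.D ∧ d * x * d⁻¹ = y := by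
  obtain ⟨a1, a2, a3⟩ := S.PD6_orbit hx hx1
  obtain ⟨b1, b2, b3⟩ := S.PD6_orbit hy hy1
  obtain ⟨z, ⟨d, hd, e1⟩, ⟨e, he, e2⟩⟩ := S.PD6_irrK0.inter_nonempty a1 b1 a2 b2 a3 b3
  have e3 : d * x * d⁻¹ = e * y * e⁻¹ := e1.trans e2.symm
  refine ⟨e⁻¹ * d, ⟨mul_mem (inv_mem he) hd, ?_⟩, ?_⟩
  · calc e⁻¹ * d * x * (e⁻¹ * d)⁻¹ = e⁻¹ * (d * x * d⁻¹) * e := by group
      _ = y := by rw [e3]; group
  · rintro f ⟨hf, e4⟩
    refine S.PD6_inj (S.K0_le hx) hx1 hf (mul_mem (inv_mem he) hd) ?_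
    show f * x * f⁻¹ = e⁻¹ * d * x * (e⁻¹ * d)⁻¹
    rw [e4]
    symm
    calc e⁻¹ * d * x * (e⁻¹ * d)⁻¹ = e⁻¹ * (d * x * d⁻¹) * e := by group
      _ = y := by rw [e3]; group

theorem D_irr : Irr (S.D : Set G) := by
  obtain ⟨x, hx, hx1⟩ := S.K0_exists_ne
  have hinj := S.PD6_inj (S.K0_le hx) hx1
  have hf := PD6_fun (M := M) x
  have hrk : ∀ B : Set G, B ⊆ (S.D : Set G) → Df B →
      Small ((fun d : G => d * x * d⁻¹) '' B) (S.K0 : Set G) → Small B (S.D : Set G) := by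
    rintro B hB hdB (h | h)
    · exact Or.inl (Set.image_eq_empty.1 h)
    · refine Or.inr ?_
      rw [rk_injOn hf hdB (hinj.mono hB), S.rk_K0, S.rk_K_eq_rk_D] at h
      exact h
  refine ⟨S.df_D, ⟨1, one_mem _⟩, ?_⟩
  intro B hB hdB
  have hsub : (fun d : G => d * x * d⁻¹) '' B ⊆ (S.K0 : Set G) := by
    rintro _ ⟨d, hd, rfl⟩
    exact S.D_conj_K0 (hB hd) hx
  rcases S.PD6_irrK0.small_or _ hsub (hf.image hdB) with h | h
  · exact Or.inl (hrk B hB hdB h)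
  · right
    have hd2 : Df ((S.D : Set G) \ B) := S.df_D.diff hdB
    refine hrk _ Set.sdiff_subset hd2 (small_mono (hf.image hd2)
      (S.K0_conn.1.diff (hf.image hdB)) ?_ h)
    rintro _ ⟨d, ⟨hd, hdn⟩, rfl⟩
    refine ⟨S.D_conj_K0 hd hx, ?_⟩
    rintro ⟨e, he, e1⟩
    exact hdn (hinj (hB he) hd e1 ▸ he)

theorem K0_eq : S.K0 = S.K := by
  refine le_antisymm S.K0_le fun x hx => ?_
  have hfin : Finite (S.K ⧸ (S.K0.subgroupOf S.K)) := by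
    apply Nat.finite_of_card_ne_zero
    exact idc_index S.df_K
  have hdf : ∀ c : G, Df {d : G | c⁻¹ * (d * x * d⁻¹) ∈ (S.K0 : Set G)} := fun c => by
    have hf : DfFun (fun d : G => c⁻¹ * (d * x * d⁻¹)) := by fun_prop
    exact hf.preimage S.K0_conn.1
  obtain ⟨q, -, hq⟩ := S.D_irr.exists_not_small
    (I := (Set.univ : Set (S.K ⧸ (S.K0.subgroupOf S.K)))) Set.finite_univ
    (S := fun q => {d : G | ((q.out : S.K) : G)⁻¹ * (d * x * d⁻¹) ∈ (S.K0 : Set G)})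
    (fun q _ => hdf _) (by
      intro d hd
      have hm : d * x * d⁻¹ ∈ S.K := S.B_conj hd.1 hx
      refine Set.mem_iUnion₂.2 ⟨QuotientGroup.mk ⟨d * x * d⁻¹, hm⟩, Set.mem_univ _, ?_⟩
      have h1 : ((QuotientGroup.mk ⟨d * x * d⁻¹, hm⟩ : S.K ⧸ (S.K0.subgroupOf S.K)).out :
          S.K ⧸ (S.K0.subgroupOf S.K)) = QuotientGroup.mk ⟨d * x * d⁻¹, hm⟩ :=
        QuotientGroup.out_eq' _
      have h2 := QuotientGroup.eq.1 h1
      exact Subgroup.mem_subgroupOf.1 h2)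
  obtain ⟨c, hc⟩ : ∃ c : G, c = ((q.out : S.K) : G) := ⟨_, rfl⟩
  rw [← hc] at hq
  obtain ⟨P, hP⟩ : ∃ P : Set G, P = (S.D : Set G) ∩
      {d : G | c⁻¹ * (d * x * d⁻¹) ∈ (S.K0 : Set G)} := ⟨_, rfl⟩
  rw [← hP] at hq
  have hPd : Df P := by rw [hP]; exact S.df_D.inter (hdf c)
  have hPD : P ⊆ (S.D : Set G) := by rw [hP]; exact Set.inter_subset_left
  have hii : S.i * S.i = 1 := S.i_inv.1
  obtain ⟨z, hz1, ⟨e, he, hz2⟩⟩ := S.D_irr.inter_nonempty hPd (df_smul hPd S.i) hPD (by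
      rintro _ ⟨d, hd, rfl⟩
      exact mul_mem S.i_mem_D (hPD hd)) hq (by
      rintro (h | h)
      · exact hq (Or.inl (Set.image_eq_empty.1 h))
      · rw [rk_smul P hPd] at h
        exact hq (Or.inr h))
  have hz2' : S.i * e = z := hz2
  rw [hP] at hz1 he
  have m1 : c⁻¹ * (e * x * e⁻¹) ∈ S.K0 := he.2
  have m2 : c⁻¹ * (z * x * z⁻¹) ∈ S.K0 := hz1.2
  have heD : e ∈ S.D := he.1
  obtain ⟨y, hy⟩ : ∃ y, y = e * x * e⁻¹ := ⟨_, rfl⟩
  have hyK : y ∈ S.K := by rw [hy]; exact S.B_conj heD.1 hx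
  have iinv : S.i⁻¹ = S.i := by rw [inv_eq_iff_mul_eq_one, hii]
  have e5 : z * x * z⁻¹ = y⁻¹ := by
    rw [← S.i_inverts hyK, hy, ← hz2', _root_.mul_inv_rev, iinv]
    simp only [mul_assoc]
  rw [e5] at m2
  rw [← hy] at m1
  have m3 : y * y ∈ S.K0 := by
    have := mul_mem (inv_mem m2) m1
    have e6 : (c⁻¹ * y⁻¹)⁻¹ * (c⁻¹ * y) = y * y := by group
    rwa [e6] at this
  obtain ⟨z', hz', e7⟩ := S.K0_sqrt m3
  obtain ⟨u, -, hu⟩ := S.K_sqrt (S.K0_le m3)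
  have e8 : y = z' := (hu y ⟨hyK, rfl⟩).trans (hu z' ⟨S.K0_le hz', e7⟩).symm
  have m4 : y ∈ S.K0 := by rw [e8]; exact hz'
  have m5 := S.D_conj_K0' heD m4
  have e9 : e⁻¹ * y * e = x := by rw [hy]; group
  rwa [e9] at m5

theorem D_regular {x y : G} (hx : x ∈ S.K) (hx1 : x ≠ 1) (hy : y ∈ S.K) (hy1 : y ≠ 1) :
    ∃! d, d ∈ S.D ∧ d * x * d⁻¹ = y := by
  rw [← S.K0_eq] at hx hy
  exact S.D_regular_K0 hx hx1 hy hy1

end BSetup

end Pool.Agent.A1C
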