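import Pool.Agent.A1C.EA
import Pool.Agent.A1C.FDef
import Pool.Agent.A1C.PD6

/-!
# EB: Part E, identification of `G`

For `g ∉ B` the map `B × K → G`, `(b, x) ↦ b g x` is injective (`K_inf_cj_B`), so `B g K` has rank `3 rk C = rk G`; two such sets meet, so
`G = B ∪ B w K`. Then `pgl_ident`.
-/

namespace Pool.Agent.A1C

universe u

namespace BSetup

variable {M : Type u} [Univ M] {G : Type u} [Group G] [DGrp M G] (S : BSetup G)

private theorem EB_double (hDC : S.D = S.C) {g : G} (hg : g ∉ S.B) :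
    Df {z : G | ∃ a ∈ S.B, ∃ b ∈ S.K, z = a * g * b} ∧
      rk {z : G | ∃ a ∈ S.B, ∃ b ∈ S.K, z = a * g * b} = rk (Set.univ : Set G) := by
  have hf : DfFun (fun p : G × G => p.1 * g * p.2) := by fun_prop
  have hset : {z : G | ∃ a ∈ S.B, ∃ b ∈ S.K, z = a * g * b} =
      (fun p : G × G => p.1 * g * p.2) '' ((S.B : Set G) ×ˢ (S.K : Set G)) := by
    ext z
    constructor
    · rintro ⟨a, ha, b, hb, rfl⟩
      exact ⟨(a, b), ⟨ha, hb⟩, rfl⟩
    · rintro ⟨⟨a, b⟩, ⟨ha, hb⟩, rfl⟩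
      exact ⟨a, ha, b, hb, rfl⟩
  have hinj : Set.InjOn (fun p : G × G => p.1 * g * p.2) ((S.B : Set G) ×ˢ (S.K : Set G)) := by
    rintro ⟨a, b⟩ ⟨ha, hb⟩ ⟨a', b'⟩ ⟨ha', hb'⟩ h
    have h1 : a * g * b = a' * g * b' := h
    have h2 : g * (b * b'⁻¹) * g⁻¹ = a⁻¹ * a' := by
      have h3 : g * b = a⁻¹ * (a' * g * b') := by
        rw [← h1]
        group
      calc g * (b * b'⁻¹) * g⁻¹ = (g * b) * b'⁻¹ * g⁻¹ := by group
        _ = a⁻¹ * a' := by
          rw [h3]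
          group
    have h4 : b * b'⁻¹ = 1 := by
      apply S.K_inf_cj_B hg (mul_mem hb (inv_mem hb'))
      rw [mem_cj, h2]
      exact mul_mem (inv_mem ha) ha'
    have h5 : b = b' := mul_inv_eq_one.1 h4
    have h6 : a = a' := by
      rw [h4, mul_one, mul_inv_cancel] at h2
      exact inv_mul_eq_one.1 h2.symm
    rw [h5, h6]
  have hd : Df ((S.B : Set G) ×ˢ (S.K : Set G)) := Df.prod S.df_B S.df_K
  refine ⟨?_, ?_⟩
  · rw [hset]
    exact hf.image hd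
  · rw [hset, rk_injOn hf hd hinj, rk_prod S.df_B S.df_K ⟨1, one_mem _⟩ ⟨1, one_mem _⟩, S.rk_B,
      S.toSetup.rk_univ_eq, S.rk_K_eq_rk_D, hDC]
    ring

/-- `G = B ∪ B w K` -/
theorem EB_cover (hDC : S.D = S.C) (g : G) : (∃ x ∈ S.K, ∃ c ∈ S.C, g = x * c) ∨
    ∃ x ∈ S.K, ∃ c ∈ S.C, ∃ y ∈ S.K, g = x * c * S.w * y := by
  by_cases hg : g ∈ S.B
  · obtain ⟨x, hx, d, hd, e⟩ := S.B_decomp hg
    exact Or.inl ⟨x, hx, d, hDC ▸ hd, e⟩
  · right
    obtain ⟨d1, r1⟩ := EB_double S hDC hg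
    obtain ⟨d2, r2⟩ := EB_double S hDC S.w_notMem_B
    have hs : ∀ h : G, rk {z : G | ∃ a ∈ S.B, ∃ b ∈ S.K, z = a * h * b} =
        rk (Set.univ : Set G) → ¬ Small {z : G | ∃ a ∈ S.B, ∃ b ∈ S.K, z = a * h * b}
          (Set.univ : Set G) := by
      rintro h hr (h1 | h1)
      · have h2 : h ∈ {z : G | ∃ a ∈ S.B, ∃ b ∈ S.K, z = a * h * b} :=
          ⟨1, one_mem _, 1, one_mem _, by simp⟩
        rw [h1] at h2
        exact h2
      · rw [hr] at h1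
        exact lt_irrefl _ h1
    obtain ⟨z, ⟨a, ha, b, hb, e1⟩, ⟨a', ha', b', hb', e2⟩⟩ :=
      S.irr.inter_nonempty d1 d2 (Set.subset_univ _) (Set.subset_univ _) (hs g r1) (hs S.w r2)
    obtain ⟨x, hx, d, hd, e3⟩ := S.B_decomp (mul_mem (inv_mem ha) ha')
    refine ⟨x, hx, d, hDC ▸ hd, b' * b⁻¹, mul_mem hb' (inv_mem hb), ?_⟩
    rw [← e3]
    have h3 : a * g * b = a' * S.w * b' := by rw [← e1, ← e2]
    calc g = a⁻¹ * (a * g * b) * b⁻¹ := by group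
      _ = a⁻¹ * a' * S.w * (b' * b⁻¹) := by
        rw [h3]
        group

/-- Part E -/
theorem identification (hDC : S.D = S.C) {F : Type u} [Field F] (fd : FD S F) :
    Nonempty (G ≃* Matrix.ProjGenLinGroup (Fin 2) F) := by
  refine pgl_ident S.K S.C S.w (fd.φ.trans (MulEquiv.subgroupCongr hDC)) fd.ψ ?_ S.w_inv.1
    S.w_inverts ?_ ?_ (S.EB_cover hDC)
  · intro a x
    exact fd.act a x
  · intro y hy c hc e
    apply S.w_notMem_B
    rw [e]
    have hc' : c ∈ S.D := hDC ▸ hc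
    exact mul_mem (S.K_le_B hy) hc'.1
  · intro x hx hx1 y hy c hc e
    apply hx1
    refine S.K_inf_cj_B S.w_notMem_B hx ?_
    rw [mem_cj]
    have hw : S.w⁻¹ = S.w := by rw [inv_eq_iff_mul_eq_one, S.w_inv.1]
    have hc' : c ∈ S.D := hDC ▸ hc
    rw [hw, e]
    exact mul_mem (S.K_le_B hy) hc'.1

end BSetup

end Pool.Agent.A1C
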