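import Pool.Agent.A1C.FINDef
import Pool.Agent.A1C.DD

/-!
# FIN1: from Borovik-Poizat axioms to `Univ` and `DGrp`
-/

namespace Pool.Agent.A1C

universe u v w

open Set

variable {L : FirstOrder.Language.{v, w}} {G : Type u} [L.Structure G]

theorem lDef_inter {n : ℕ} {A B : Set (Fin n → G)} (hA : LDef L A) (hB : LDef L B) :
    LDef L (A ∩ B) := Set.Definable.inter hA hB

theorem lDef_union {n : ℕ} {A B : Set (Fin n → G)} (hA : LDef L A) (hB : LDef L B) :
    LDef L (A ∪ B) := Set.Definable.union hA hB

theorem lDef_compl {n : ℕ} {A : Set (Fin n → G)} (hA : LDef L A) : LDef L Aᶜ :=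
  Set.Definable.compl hA

theorem lDef_reindex {m n : ℕ} (f : Fin m → Fin n) {A : Set (Fin m → G)} (hA : LDef L A) :
    LDef L {v : Fin n → G | (fun i => v (f i)) ∈ A} :=
  Set.Definable.preimage_comp f hA

theorem lDef_ex {n m : ℕ} {A : Set (Fin (n + m) → G)} (hA : LDef L A) :
    LDef L {v : Fin n → G | ∃ w : Fin m → G, Fin.append v w ∈ A} := by
  have h1 : (Set.univ : Set G).Definable L {z : Fin n ⊕ Fin m → G | (fun i => z (finSumFinEquiv.symm i)) ∈ A} :=
    Set.Definable.preimage_comp (finSumFinEquiv.symm) hA
  have h2 := Set.Definable.exists_of_finite h1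
  have h3 : {v : Fin n → G | ∃ w : Fin m → G, Fin.append v w ∈ A} =
      {v : Fin n → G | ∃ w : Fin m → G, Sum.elim v w ∈
        {z : Fin n ⊕ Fin m → G | (fun i => z (finSumFinEquiv.symm i)) ∈ A}} := by
    ext v
    simp only [Set.mem_ofPred_eq]
    refine exists_congr fun w => ?_
    have h4 : (fun i => Sum.elim v w (finSumFinEquiv.symm i)) = Fin.append v w := by
      funext i
      refine Fin.addCases (fun j => ?_) (fun j => ?_) i
      · simp
      · simp
    rw [h4]
  unfold LDef
  rw [h3]
  exact h2

theorem lDef_const {n : ℕ} (i : Fin n) (a : G) : LDef L {v : Fin n → G | v i = a} := by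
  exact Set.DefinableFun.ofPred_eq_const (Set.DefinableFun.proj L) (Set.mem_univ a)

theorem lDef_eq {n : ℕ} (i j : Fin n) : LDef L {v : Fin n → G | v i = v j} := by
  exact Set.DefinableFun.ofPred_eq (Set.DefinableFun.proj L) (Set.DefinableFun.proj L)

theorem lDef_univ {n : ℕ} : LDef L (Set.univ : Set (Fin n → G)) := Set.definable_univ

theorem lDef_empty {n : ℕ} : LDef L (∅ : Set (Fin n → G)) := Set.definable_empty

theorem lDef_all {n m : ℕ} {A : Set (Fin (n + m) → G)} (hA : LDef L A) :
    LDef L {v : Fin n → G | ∀ w : Fin m → G, Fin.append v w ∈ A} := by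
  have h := lDef_compl (lDef_ex (lDef_compl hA))
  have h2 : {v : Fin n → G | ∀ w : Fin m → G, Fin.append v w ∈ A} =
      {v : Fin n → G | ∃ w : Fin m → G, Fin.append v w ∈ Aᶜ}ᶜ := by
    ext v
    simp
  rw [h2]
  exact h

/-- finite conjunctions -/
theorem lDef_forall_fin {n k : ℕ} {P : Fin k → Set (Fin n → G)} (h : ∀ i, LDef L (P i)) :
    LDef L {v : Fin n → G | ∀ i, v ∈ P i} := by
  have h2 : {v : Fin n → G | ∀ i, v ∈ P i} = ⋂ i, P i := by
    ext v
    simp
  rw [h2]
  exact Set.definable_iInter_of_finite h

namespace RankFun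

variable (R : RankFun L G)

theorem rk_singleton {n : ℕ} (a : Fin n → G) : R.rk ({a} : Set (Fin n → G)) = 0 := by
  have hd : LDef L ({a} : Set (Fin n → G)) := by
    have h2 : ({a} : Set (Fin n → G)) = {v : Fin n → G | ∀ i, v ∈ {v : Fin n → G | v i = a i}} := by
      ext v
      simp [funext_iff]
    rw [h2]
    exact lDef_forall_fin fun i => lDef_const i (a i)
  by_contra h
  have h1 : 0 + 1 ≤ R.rk ({a} : Set (Fin n → G)) := by omega
  obtain ⟨B, hB, hdis⟩ := (R.monotonicity hd (Set.singleton_nonempty a) 0).1 h1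
  have h2 : ∀ i, a ∈ B i := by
    intro i
    obtain ⟨x, hx⟩ := (hB i).2.1
    have h3 := (hB i).2.2.1 hx
    rw [Set.mem_singleton_iff] at h3
    rw [← h3]
    exact hx
  exact Set.disjoint_left.1 (hdis 0 1 (by norm_num)) (h2 0) (h2 1)

/-- definable bijections preserve the rank -/
theorem rk_bij {n m : ℕ} {A : Set (Fin n → G)} {f : (Fin n → G) → (Fin m → G)}
    (hf : LDefFun L A f) (hA : A.Nonempty) (hinj : Set.InjOn f A) :
    R.rk A = R.rk (f '' A) := by
  have h := R.additivity hf hA 0 (by
    rintro b ⟨a, ha, rfl⟩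
    have h2 : fib A f (f a) = {a} := by
      ext x
      simp only [fib, Set.mem_ofPred_eq, Set.mem_singleton_iff]
      constructor
      · rintro ⟨hx, hxa⟩
        exact hinj hx ha hxa
      · rintro rfl
        exact ⟨ha, rfl⟩
    rw [h2]
    exact R.rk_singleton a)
  rw [h, add_zero]

/-- sections -/
def sec {n m : ℕ} (A : Set (Fin (n + m) → G)) (v : Fin n → G) : Set (Fin m → G) :=
  {w | Fin.append v w ∈ A}

/-- projection to the first coordinates -/
def prj {n m : ℕ} (z : Fin (n + m) → G) : Fin n → G := fun i => z (Fin.castAdd m i)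

theorem prj_append {n m : ℕ} (v : Fin n → G) (w : Fin m → G) : prj (Fin.append v w) = v := by
  funext i
  simp [prj]

theorem append_prj {n m : ℕ} (z : Fin (n + m) → G) :
    Fin.append (prj z) (fun i => z (Fin.natAdd n i)) = z := by
  funext i
  refine Fin.addCases (fun j => ?_) (fun j => ?_) i
  · simp [prj]
  · simp

theorem prj_defFun {n m : ℕ} {A : Set (Fin (n + m) → G)} (hA : LDef L A) :
    LDefFun L A (prj : (Fin (n + m) → G) → (Fin n → G)) := by
  refine ⟨hA, ?_⟩
  have h1 : {z : Fin (n + m + n) → G | ∃ a ∈ A, z = Fin.append a (prj a)} =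
      {z | (fun i => z (Fin.castAdd n i)) ∈ A} ∩
        {z | ∀ i : Fin n, z ∈ {z : Fin (n + m + n) → G |
          z (Fin.natAdd (n + m) i) = z (Fin.castAdd n (Fin.castAdd m i))}} := by
    ext z
    simp only [Set.mem_ofPred_eq, Set.mem_inter_iff]
    constructor
    · rintro ⟨a, ha, rfl⟩
      refine ⟨?_, ?_⟩
      · simpa using ha
      · intro i
        simp [prj]
    · rintro ⟨h1, h2⟩
      refine ⟨_, h1, ?_⟩
      funext i
      refine Fin.addCases (fun j => ?_) (fun j => ?_) i
      · simp
      · simp only [Fin.append_right, prj]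
        exact h2 j
  rw [h1]
  exact lDef_inter (lDef_reindex _ hA) (lDef_forall_fin fun i => lDef_eq _ _)

theorem sec_def {n m : ℕ} {A : Set (Fin (n + m) → G)} (hA : LDef L A) (v : Fin n → G) :
    LDef L (sec A v) := by
  have h1 : LDef L {z : Fin (m + n) → G | (fun i => z (Fin.addCases (fun j => Fin.natAdd m j)
      (fun j => Fin.castAdd n j) i : Fin (m + n))) ∈ A ∧
        ∀ i : Fin n, z ∈ {z : Fin (m + n) → G | z (Fin.natAdd m i) = v i}} :=
    lDef_inter (lDef_reindex _ hA) (lDef_forall_fin fun i => lDef_const _ _)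
  have h2 := lDef_ex h1
  have h3 : sec A v = {w : Fin m → G | ∃ v' : Fin n → G, Fin.append w v' ∈
      {z : Fin (m + n) → G | (fun i => z (Fin.addCases (fun j => Fin.natAdd m j)
      (fun j => Fin.castAdd n j) i : Fin (m + n))) ∈ A ∧
        ∀ i : Fin n, z ∈ {z : Fin (m + n) → G | z (Fin.natAdd m i) = v i}}} := by
    ext w
    simp only [sec, Set.mem_ofPred_eq]
    have key : ∀ v' : Fin n → G, (fun i => Fin.append w v' (Fin.addCases (fun j => Fin.natAdd m j)
      (fun j => Fin.castAdd n j) i : Fin (m + n))) = Fin.append v' w := by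
      intro v'
      funext i
      refine Fin.addCases (fun j => ?_) (fun j => ?_) i
      · simp
      · simp
    constructor
    · intro h
      refine ⟨v, ?_, ?_⟩
      · rw [key]
        exact h
      · intro i
        simp
    · rintro ⟨v', h1, h2⟩
      rw [key] at h1
      have h4 : v' = v := by
        funext i
        have := h2 i
        simpa using this
      rw [← h4]
      exact h1
  rw [h3]
  exact h2

theorem image_sec {n m : ℕ} (A : Set (Fin (n + m) → G)) (v : Fin n → G) :
    (fun w : Fin m → G => Fin.append v w) '' sec A v = fib A prj v := by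
  ext z
  simp only [Set.mem_image, sec, fib, Set.mem_ofPred_eq]
  constructor
  · rintro ⟨w, hw, rfl⟩
    exact ⟨hw, prj_append v w⟩
  · rintro ⟨hz, rfl⟩
    exact ⟨fun i => z (Fin.natAdd n i), by rw [append_prj]; exact hz, append_prj z⟩

theorem append_inj {n m : ℕ} (v : Fin n → G) :
    Function.Injective (fun w : Fin m → G => Fin.append v w) := by
  intro w w' h
  funext i
  have := congrFun h (Fin.natAdd n i)
  simpa using this

theorem rk_sec {n m : ℕ} {A : Set (Fin (n + m) → G)} (hA : LDef L A) (v : Fin n → G)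
    (hne : (sec A v).Nonempty) : R.rk (sec A v) = R.rk (fib A prj v) := by
  rw [← image_sec]
  apply R.rk_bij _ hne (append_inj v).injOn
  refine ⟨sec_def hA v, ?_⟩
  have h1 : {z : Fin (m + (n + m)) → G | ∃ a ∈ sec A v, z = Fin.append a (Fin.append v a)} =
      {z | (fun i => z (Fin.castAdd (n + m) i)) ∈ sec A v} ∩
        ({z | ∀ i : Fin n, z ∈ {z : Fin (m + (n + m)) → G |
          z (Fin.natAdd m (Fin.castAdd m i)) = v i}} ∩
        {z | ∀ i : Fin m, z ∈ {z : Fin (m + (n + m)) → G |
          z (Fin.natAdd m (Fin.natAdd n i)) = z (Fin.castAdd (n + m) i)}}) := by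
    ext z
    simp only [Set.mem_ofPred_eq, Set.mem_inter_iff]
    constructor
    · rintro ⟨a, ha, rfl⟩
      refine ⟨?_, ?_, ?_⟩
      · simpa using ha
      · intro i
        simp
      · intro i
        simp
    · rintro ⟨h1, h2, h3⟩
      refine ⟨_, h1, ?_⟩
      funext i
      refine Fin.addCases (fun j => ?_) (fun j => ?_) i
      · simp
      · refine Fin.addCases (fun j => ?_) (fun j => ?_) j
        · simp only [Fin.append_right, Fin.append_left]
          exact h2 j
        · simp only [Fin.append_right]
          exact h3 j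
  rw [h1]
  exact lDef_inter (lDef_reindex _ (sec_def hA v)) (lDef_inter
    (lDef_forall_fin fun i => lDef_const _ _) (lDef_forall_fin fun i => lDef_eq _ _))

theorem sec_nonempty_iff {n m : ℕ} (A : Set (Fin (n + m) → G)) (v : Fin n → G) :
    (sec A v).Nonempty ↔ (fib A prj v).Nonempty := by
  rw [← image_sec, Set.image_nonempty]

open Classical in
/-- the ranked universe of the definable sets -/
noncomputable abbrev toUniv : Univ G where
  Def := fun {n} A => LDef L A
  rk₀ := fun {n} A => if A = ∅ then 0 else R.rk A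
  def_univ := lDef_univ
  def_inter := lDef_inter
  def_compl := lDef_compl
  def_eq := lDef_eq
  def_const := lDef_const
  def_reindex := lDef_reindex
  def_ex := lDef_ex
  rk_empty₀ := by
    intro n
    exact if_pos rfl
  rk_succ_le₀ := by
    intro n A hA hne k
    rw [if_neg hne.ne_empty, R.monotonicity hA hne k]
    refine exists_congr fun B => and_congr ?_ Iff.rfl
    refine forall_congr' fun i => ?_
    constructor
    · rintro ⟨h1, h2, h3, h4⟩
      refine ⟨h1, h2, h3, ?_⟩
      rw [if_neg h2.ne_empty]
      exact h4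
    · rintro ⟨h1, h2, h3, h4⟩
      rw [if_neg h2.ne_empty] at h4
      exact ⟨h1, h2, h3, h4⟩
  def_rk₀ := by
    intro n m A hA k
    have h1 : LDef L {b | (fib A prj b).Nonempty ∧ R.rk (fib A prj b) = k} :=
      R.definability (prj_defFun hA) k
    have h2 : LDef L {v : Fin n → G | ¬ ∃ w : Fin m → G, Fin.append v w ∈ A} :=
      lDef_compl (lDef_ex hA)
    by_cases hk : k = 0
    · have h3 := lDef_union h1 h2
      have h4 : {v : Fin n → G | (if sec A v = ∅ then 0 else R.rk (sec A v)) = k} =
          {b | (fib A prj b).Nonempty ∧ R.rk (fib A prj b) = k} ∪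
          {v : Fin n → G | ¬ ∃ w : Fin m → G, Fin.append v w ∈ A} := by
        ext v
        simp only [Set.mem_union, Set.mem_ofPred_eq]
        by_cases hv : (sec A v).Nonempty
        · rw [if_neg hv.ne_empty, ← sec_nonempty_iff, ← R.rk_sec hA v hv]
          constructor
          · intro h
            exact Or.inl ⟨hv, h⟩
          · rintro (h | h)
            · exact h.2
            · exact absurd hv h
        · rw [if_pos (Set.not_nonempty_iff_eq_empty.1 hv), hk]
          refine ⟨fun _ => Or.inr hv, fun _ => rfl⟩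
      rw [← h4] at h3
      exact h3
    · have h4 : {v : Fin n → G | (if sec A v = ∅ then 0 else R.rk (sec A v)) = k} =
          {b | (fib A prj b).Nonempty ∧ R.rk (fib A prj b) = k} := by
        ext v
        simp only [Set.mem_ofPred_eq]
        by_cases hv : (sec A v).Nonempty
        · rw [if_neg hv.ne_empty, ← sec_nonempty_iff, ← R.rk_sec hA v hv]
          constructor
          · intro h
            exact ⟨hv, h⟩
          · intro h
            exact h.2
        · rw [if_pos (Set.not_nonempty_iff_eq_empty.1 hv)]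
          constructor
          · intro h
            exact absurd h.symm hk
          · rintro ⟨h, -⟩
            rw [← sec_nonempty_iff] at h
            exact absurd h hv
      rw [← h4] at h1
      exact h1
  rk_add₀ := by
    intro n m A f hA hf hne k hk
    rw [if_neg hne.ne_empty, if_neg (hne.image f).ne_empty]
    refine R.additivity ⟨hA, hf⟩ hne k ?_
    intro b hb
    have h := hk b hb
    have h2 : (A ∩ f ⁻¹' {b}).Nonempty := by
      obtain ⟨a, ha, rfl⟩ := hb
      exact ⟨a, ha, rfl⟩
    rw [if_neg h2.ne_empty] at h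
    exact h
  elim₀ := by
    intro n m A hA
    obtain ⟨N, hN⟩ := R.elimination (prj_defFun hA)
    refine ⟨N, fun v hv => ?_⟩
    by_contra h
    push Not at h
    have h1 : (fib A prj v).Finite := by
      rw [← image_sec]
      exact Set.Finite.image _ hv
    apply hN v _ h1
    have h2 : ((sec A v).ncard : ℕ∞) = (sec A v).encard := Set.Finite.cast_ncard_eq hv
    rw [← image_sec, (append_inj v).encard_image, ← h2]
    exact_mod_cast h.le

end RankFun

end Pool.Agent.A1C
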