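import Pool.Agent.A1C.Setup

/-!
# P0H: the hypotheses of the theorem, minimal tori, the statement of Lemma M (final file)

`Hyp G`: `G` connected, no infinite elementary abelian `2`-subgroup, an involution, `C < G` definable, connected, proper, TI, of finite even index
in its normaliser `H.N`. `LemM G` is the statement of Lemma M (Part 0b) for the definable subgroups of `G`; it is a hypothesis of the modules of
Parts 0c, 0d, which prove `Nonempty (Setup G)` (P0D4).
-/

namespace Pool.Agent.A1C

universe u

/-- no infinite elementary abelian `2`-subgroup -/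
def U2 (G : Type u) [Group G] : Prop :=
  ∀ E : Subgroup G, (∀ x ∈ E, x * x = 1) → (E : Set G).Finite

/-- the hypotheses of the theorem -/
structure Hyp {M : Type u} [Univ M] (G : Type u) [Group G] [DGrp M G] where
  C : Subgroup G
  conn : Conn (⊤ : Subgroup G)
  u2 : U2 G
  exInv : ∃ j : G, IsInv j
  connC : Conn C
  neTop : C ≠ ⊤
  tiC : ∀ g : G, cj C g ≠ C → cj C g ⊓ C = ⊥
  index_ne : C.relIndex (Subgroup.normalizer (C : Set G)) ≠ 0
  even : Even (C.relIndex (Subgroup.normalizer (C : Set G)))

/-- the normaliser of `C` -/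
def Hyp.N {M : Type u} [Univ M] {G : Type u} [Group G] [DGrp M G] (H : Hyp G) : Subgroup G :=
  Subgroup.normalizer (H.C : Set G)

/-- minimal torus: connected, abelian, with an involution; its proper connected subgroups have no involution -/
structure MinTorus {M : Type u} [Univ M] {G : Type u} [Group G] [DGrp M G] (A : Subgroup G) :
    Prop where
  conn : Conn A
  comm : ∀ x ∈ A, ∀ y ∈ A, x * y = y * x
  exInv : ∃ j ∈ A, IsInv j
  min : ∀ K : Subgroup G, K ≤ A → Conn K → K ≠ A → NoInv K

/-- the statement of Lemma M -/
def LemM {M : Type u} [Univ M] (G : Type u) [Group G] [DGrp M G] : Prop :=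
  ∀ H : Subgroup G, Conn H → (∃ j ∈ H, IsInv j) →
    (∀ K : Subgroup G, K ≤ H → Conn K → K ≠ H → NoInv K) → ∀ x ∈ H, ∀ y ∈ H, x * y = y * x

end Pool.Agent.A1C
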