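import Pool.Agent.A1C.FIN1
import Pool.Agent.A1C.P0H

/-!
# FIN2: the group as a definable group, the hypotheses `Hyp`
-/

namespace Pool.Agent.A1C

universe u v w

open Set

variable {L : FirstOrder.Language.{v, w}} {G : Type u} [L.Structure G]

theorem fin2_image (S : Set G) :
    ((fun (x : G) (_ : Fin 1) => x) '' S : Set (Fin 1 → G)) = {x : Fin 1 → G | x 0 ∈ S} := by
  ext v
  simp only [Set.mem_image, Set.mem_ofPred_eq]
  constructor
  · rintro ⟨x, hx, rfl⟩
    exact hx
  · intro h
    exact ⟨v 0, h, funext fun i => by rw [Subsingleton.elim i 0]⟩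

/-- the group as a definable group -/
noncomputable abbrev RankFun.toDGrp [Group G] (R : RankFun L G)
    (hmul : LDef L {z : Fin 3 → G | z 0 * z 1 = z 2}) : @DGrp G R.toUniv G _ :=
  let _ := R.toUniv
  { (inferInstance : DTy G G) with
    mul_df := by
      change LDef L (DTy.enc '' {p : (G × G) × G | p.2 = p.1.1 * p.1.2})
      have h : (DTy.enc '' {p : (G × G) × G | p.2 = p.1.1 * p.1.2} : Set (Fin 3 → G)) =
          {z : Fin 3 → G | z 0 * z 1 = z 2} := by
        ext z
        constructor
        · rintro ⟨p, hp, rfl⟩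
          exact hp.symm
        · intro h
          refine ⟨((z 0, z 1), z 2), h.symm, ?_⟩
          funext i
          fin_cases i <;> rfl
      rw [h]
      exact hmul }

theorem fin2_df_iff [Group G] (R : RankFun L G)
    (hmul : LDef L {z : Fin 3 → G | z 0 * z 1 = z 2}) (S : Set G) :
    (@Df G R.toUniv G (@DGrp.toDTy G R.toUniv G _ (R.toDGrp hmul)) S) ↔ LDef₁ L S := by
  change LDef L ((fun (x : G) (_ : Fin 1) => x) '' S : Set (Fin 1 → G)) ↔ LDef₁ L S
  rw [fin2_image]
  rfl

end Pool.Agent.A1C
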