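import Pool.Agent.A1C.GC3

/-!
# GC4: the definable hull, squares in definable abelian groups

`hull x` is the smallest definable subgroup containing `x` (`df_sInf`); it is contained in `zeta x`, hence abelian.
`index_sq_le`: proof (R5) of the paper: the decreasing sequence `{a ^ (2 ^ n)}` stabilises at `B`; `A = B * A[2^n]`; squaring acts on the finite
group `A / B`, the index of its image is the order of its kernel, and the kernel is the image of `A[2]`.
(Possible in elementary terms: choose representatives.)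
-/

namespace Pool.Agent.A1C

universe u

variable {M : Type u} [Univ M] {Γ : Type u} [Group Γ] [DGrp M Γ]

open Filter

/-- uniqueness of the `2`-part (R7) -/
theorem two_part_unique {V V' : Subgroup Γ} (hV : Df (V : Set Γ)) (hV' : Df (V' : Set Γ))
    (h2 : NoInv V) (h2' : NoInv V') {a v a' v' : Γ} {n n' : ℕ} (ha : a ^ (2 ^ n) = 1)
    (ha' : a' ^ (2 ^ n') = 1) (hv : v ∈ V) (hv' : v' ∈ V') (hc : a * v = v * a)
    (hc' : a' * v' = v' * a') (h : a * v = a' * v') : a = a' ∧ v = v' := by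
  have e1 : (a * v) ^ (2 ^ (n + n')) = v ^ (2 ^ (n + n')) := by
    rw [(show Commute a v from hc).mul_pow, pow_add 2 n n', pow_mul a, ha, one_pow, one_mul]
  have e2 : (a' * v') ^ (2 ^ (n + n')) = v' ^ (2 ^ (n + n')) := by
    rw [(show Commute a' v' from hc').mul_pow, add_comm n n', pow_add 2 n' n, pow_mul a', ha', one_pow,
      one_mul]
  have e3 : v ^ (2 ^ (n + n')) = v' ^ (2 ^ (n + n')) := by rw [← e1, h, e2]
  have h3 : v' ∈ hull (v ^ (2 ^ (n + n'))) := by
    rw [e3]
    exact NoInv.mem_hull_pow hV' h2' hv' _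
  have h4 : v' ∈ V := hull_le hV (V.pow_mem hv _) h3
  have h5 : v * v' = v' * v := hull_comm_of_comm h3 (by rw [← pow_succ', ← pow_succ])
  have h6 : v * v'⁻¹ = 1 := by
    refine NoInv.two_pow h2 (V.mul_mem hv (V.inv_mem h4)) (n + n') ?_
    rw [(show Commute v v'⁻¹ from (show Commute v v' from h5).inv_right).mul_pow, inv_pow, e3, mul_inv_cancel]
  have h7 : v = v' := mul_inv_eq_one.1 h6
  subst h7
  exact ⟨mul_right_cancel h, rfl⟩

/-- the `2`-part of `a v` lies in the hull -/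
theorem two_part_mem_hull {V : Subgroup Γ} (hV : Df (V : Set Γ)) (h2 : NoInv V) {a v : Γ} {n : ℕ}
    (ha : a ^ (2 ^ n) = 1) (hv : v ∈ V) (hc : a * v = v * a) : a ∈ hull (a * v) := by
  have e1 : (a * v) ^ (2 ^ n) = v ^ (2 ^ n) := by
    rw [(show Commute a v from hc).mul_pow, ha, one_mul]
  have h3 : v ∈ hull ((a * v) ^ (2 ^ n)) := by
    rw [e1]
    exact NoInv.mem_hull_pow hV h2 hv n
  have h4 : v ∈ hull (a * v) := hull_mono ((hull (a * v)).pow_mem (self_mem_hull _) _) h3
  have h5 := (hull (a * v)).mul_mem (self_mem_hull (a * v)) ((hull (a * v)).inv_mem h4)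
  rwa [mul_inv_cancel_right] at h5

/-- (R8): `t v` is conjugate to `t` if `t` inverts `v`, by an element of `hull v` -/
theorem conj_of_inverted {V : Subgroup Γ} (hV : Df (V : Set Γ)) (h2 : NoInv V) {t v : Γ} (hv : v ∈ V)
    (h : t⁻¹ * v * t = v⁻¹) : ∃ u ∈ hull v, u * u = v ∧ u⁻¹ * t * u = t * v := by
  obtain ⟨u, hu, huv⟩ := NoInv.hull_sqrt hV h2 hv
  refine ⟨u, hu, huv, ?_⟩
  have h1 : t⁻¹ * u * t = u⁻¹ := hull_inv h hu
  have h3 : u⁻¹ * t = t * u := by
    have : (t⁻¹ * u * t)⁻¹ = u := by rw [h1, inv_inv]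
    calc u⁻¹ * t = t * (t⁻¹ * u * t)⁻¹ := by group
      _ = t * u := by rw [this]
  rw [h3, mul_assoc, huv]

/-- an involutory automorphism (conjugation by `t`, `t * t = 1`) with trivial fixed points inverts (A2) -/
theorem inverts_of_fixedPointFree {V : Subgroup Γ} (hV : Df (V : Set Γ)) (h2 : NoInv V) {t : Γ}
    (ht : t * t = 1) (hn : ∀ x ∈ V, t * x * t ∈ V) (hfix : ∀ x ∈ V, t * x = x * t → x = 1) {x : Γ}
    (hx : x ∈ V) : t * x * t = x⁻¹ := by
  have ht' : t⁻¹ = t := inv_eq_of_mul_eq_one_left ht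
  have hgV : x⁻¹ * (t * x * t) ∈ V := V.mul_mem (V.inv_mem hx) (hn x hx)
  have hg : t⁻¹ * (x⁻¹ * (t * x * t)) * t = (x⁻¹ * (t * x * t))⁻¹ := by
    have : (x⁻¹ * (t * x * t))⁻¹ = t⁻¹ * x⁻¹ * t⁻¹ * x := by group
    rw [this, ht']
    calc t * (x⁻¹ * (t * x * t)) * t = t * x⁻¹ * t * x * (t * t) := by group
      _ = t * x⁻¹ * t * x := by rw [ht, mul_one]
  obtain ⟨h, hh, hhg⟩ := NoInv.hull_sqrt hV h2 hgV
  have hhV : h ∈ V := hull_le hV hgV hh
  have h3 : t⁻¹ * h * t = h⁻¹ := hull_inv hg hh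
  have h4 : x * h = 1 := by
    apply hfix _ (V.mul_mem hx hhV)
    have e1 : t * x = x * (h * h) * t := by
      rw [hhg]
      calc t * x = t * x * (t * t) := by rw [ht, mul_one]
        _ = x * (x⁻¹ * (t * x * t)) * t := by group
    have e2 : t * h = h⁻¹ * t := by
      calc t * h = t * h * (t * t) := by rw [ht, mul_one]
        _ = (t⁻¹ * h * t) * t := by rw [ht']; group
        _ = h⁻¹ * t := by rw [h3]
    calc t * (x * h) = t * x * h := by group
      _ = x * (h * h) * (t * h) := by rw [e1]; group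
      _ = x * h * t := by rw [e2]; group
  have h5 : x = h⁻¹ := mul_eq_one_iff_eq_inv.1 h4
  rw [h5, inv_inv]
  calc t * h⁻¹ * t = t * (t⁻¹ * h * t) * t := by rw [h3]
    _ = h * (t * t) := by group
    _ = h := by rw [ht, mul_one]

end Pool.Agent.A1C
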