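import Pool.Agent.A1C.GB3
import Pool.Agent.A1C.GC4

/-!
# MDef (part 0b, Lemma M): definitions and first lemmas

* `U2perp Γ`: no infinite elementary abelian `2`-subgroup.
* `T2 x`: `x` is a `2`-element. `Z2 Γ`: the group of central `2`-elements.
* `pwr A hc n`: the group of `n`-th powers of an abelian subgroup `A`.
* `MinG Γ`: the counterexample to Lemma M: `Γ` is connected, has an involution, no proper
  connected definable subgroup has an involution, `Γ` is not abelian. The aim of the files M* is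
  `MinG Γ → False` (`MinG.false` in MG3).
* `IsP2 E h x`: `x` is the `2`-part of `h`; `p2 E h`: the `2`-part of `h`;
  `rt E h`: the square root of the `2'`-part of `h`. Here `2 ^ E` is an exponent of all
  `2`-elements.
* `IsKappa κ`: see MF1.
-/

set_option autoImplicit false

namespace Pool.Agent.A1C

universe u

variable {M : Type u} [Univ M]

open Filter

/-- no infinite elementary abelian `2`-subgroup -/
def U2perp (Γ : Type u) [Group Γ] : Prop :=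
  ∀ E : Subgroup Γ, (∀ x ∈ E, x * x = 1) → (E : Set Γ).Finite

/-- `2`-elements -/
def T2 {Γ : Type u} [Group Γ] (x : Γ) : Prop := ∃ n : ℕ, x ^ (2 ^ n) = 1

section group

variable {Γ : Type u} [Group Γ]

theorem T2.one : T2 (1 : Γ) := ⟨0, by simp⟩

theorem T2.of_sq {x : Γ} (h : x * x = 1) : T2 x := ⟨1, by rw [pow_one, pow_two]; exact h⟩

theorem T2.mono {x : Γ} {n m : ℕ} (h : n ≤ m) (hx : x ^ (2 ^ n) = 1) : x ^ (2 ^ m) = 1 := by
  obtain ⟨k, rfl⟩ := Nat.exists_eq_add_of_le h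
  rw [pow_add, pow_mul, hx, one_pow]

theorem T2.mul {x y : Γ} (hc : x * y = y * x) (hx : T2 x) (hy : T2 y) : T2 (x * y) := by
  obtain ⟨n, hn⟩ := hx
  obtain ⟨m, hm⟩ := hy
  refine ⟨n + m, ?_⟩
  rw [(show Commute x y from hc).mul_pow, T2.mono (Nat.le_add_right n m) hn,
    T2.mono (Nat.le_add_left m n) hm, one_mul]

theorem T2.inv {x : Γ} (hx : T2 x) : T2 x⁻¹ := by
  obtain ⟨n, hn⟩ := hx
  exact ⟨n, by rw [inv_pow, hn, inv_one]⟩

theorem T2.pow {x : Γ} (hx : T2 x) (k : ℕ) : T2 (x ^ k) := by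
  obtain ⟨n, hn⟩ := hx
  exact ⟨n, by rw [← pow_mul, mul_comm, pow_mul, hn, one_pow]⟩

theorem T2.conj {x : Γ} (hx : T2 x) (g : Γ) : T2 (g⁻¹ * x * g) := by
  obtain ⟨n, hn⟩ := hx
  refine ⟨n, ?_⟩
  have h : (g⁻¹ * x * g) ^ (2 ^ n) = g⁻¹ * x ^ (2 ^ n) * g := by
    have h2 := conj_pow (i := 2 ^ n) (a := g⁻¹) (b := x)
    simpa using h2
  rw [h, hn]
  simp

/-- square roots in a divisible subgroup can be iterated -/
theorem exists_two_pow_root {B : Subgroup Γ} (h : ∀ x ∈ B, ∃ y ∈ B, y * y = x) (n : ℕ) {x : Γ}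
    (hx : x ∈ B) : ∃ y ∈ B, y ^ (2 ^ n) = x := by
  induction n with
  | zero => exact ⟨x, hx, by simp⟩
  | succ n ih =>
    obtain ⟨y, hy, hyx⟩ := ih
    obtain ⟨z, hz, hzy⟩ := h y hy
    refine ⟨z, hz, ?_⟩
    rw [pow_succ, mul_comm, pow_mul, pow_two, hzy, hyx]

variable (Γ) in
/-- the central `2`-elements -/
def Z2 : Subgroup Γ where
  carrier := {x | (∀ y : Γ, x * y = y * x) ∧ T2 x}
  mul_mem' := by
    rintro a b ⟨ha, ha2⟩ ⟨hb, hb2⟩
    exact ⟨fun y => by rw [mul_assoc, hb y, ← mul_assoc, ha y, mul_assoc], ha2.mul (ha b) hb2⟩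
  one_mem' := ⟨fun y => by rw [one_mul, mul_one], T2.one⟩
  inv_mem' := by
    rintro a ⟨ha, ha2⟩
    refine ⟨fun y => ?_, ha2.inv⟩
    rw [inv_mul_eq_iff_eq_mul, ← mul_assoc, ha y, mul_assoc, mul_inv_cancel, mul_one]

theorem mem_Z2 {x : Γ} : x ∈ Z2 Γ ↔ (∀ y : Γ, x * y = y * x) ∧ T2 x := Iff.rfl

/-- the `n`-th powers of an abelian subgroup -/
def pwr (A : Subgroup Γ) (hc : ∀ x ∈ A, ∀ y ∈ A, x * y = y * x) (n : ℕ) : Subgroup Γ where
  carrier := {z | ∃ a ∈ A, z = a ^ n}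
  mul_mem' := by
    rintro _ _ ⟨a, ha, rfl⟩ ⟨b, hb, rfl⟩
    exact ⟨a * b, A.mul_mem ha hb, ((show Commute a b from hc a ha b hb).mul_pow n).symm⟩
  one_mem' := ⟨1, A.one_mem, (one_pow n).symm⟩
  inv_mem' := by
    rintro _ ⟨a, ha, rfl⟩
    exact ⟨a⁻¹, A.inv_mem ha, (inv_pow a n).symm⟩

theorem mem_pwr {A : Subgroup Γ} {hc : ∀ x ∈ A, ∀ y ∈ A, x * y = y * x} {n : ℕ} {z : Γ} :
    z ∈ pwr A hc n ↔ ∃ a ∈ A, z = a ^ n := Iff.rfl

theorem pwr_le {A : Subgroup Γ} {hc : ∀ x ∈ A, ∀ y ∈ A, x * y = y * x} {n : ℕ} :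
    pwr A hc n ≤ A := by
  rintro _ ⟨a, ha, rfl⟩
  exact A.pow_mem ha n

/-- `x` is the `2`-part of `h` -/
def IsP2 (E : ℕ) (h x : Γ) : Prop :=
  x ∈ zeta h ∧ x ^ (2 ^ E) = 1 ∧ ∃ v ∈ zeta h, h = x * v ^ (2 ^ E)

open Classical in
/-- the `2`-part of `h` -/
noncomputable def p2 (E : ℕ) (h : Γ) : Γ := if H : ∃ x, IsP2 E h x then H.choose else 1

/-- `x` is the square root of the `2'`-part of `h` -/
def IsRt (E : ℕ) (h x : Γ) : Prop := ∃ v ∈ zeta h, x = v ^ (2 ^ E) ∧ h = p2 E h * (x * x)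

open Classical in
/-- the square root of the `2'`-part of `h` -/
noncomputable def rt (E : ℕ) (h : Γ) : Γ := if H : ∃ x, IsRt E h x then H.choose else 1

end group

variable {Γ : Type u} [Group Γ] [DGrp M Γ]

theorem df_pwr {A : Subgroup Γ} {hc : ∀ x ∈ A, ∀ y ∈ A, x * y = y * x} (hA : Df (A : Set Γ))
    (n : ℕ) : Df (pwr A hc n : Set Γ) := df_pow_image hA n

/-- the minimal counterexample to Lemma M -/
structure MinG (Γ : Type u) [Group Γ] [DGrp M Γ] : Prop where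
  conn : Conn (⊤ : Subgroup Γ)
  inv : ∃ t : Γ, t * t = 1 ∧ t ≠ 1
  min : ∀ K : Subgroup Γ, Conn K → K ≠ ⊤ → NoInv K
  u2 : U2perp Γ
  na : ∃ x y : Γ, x * y ≠ y * x

/-- the cosets `κ s` of `idc (cen s)` in `cen s`, for the involutions `s` -/
structure IsKappa (κ : Γ → Set Γ) : Prop where
  conj : ∀ s, s * s = 1 → s ≠ 1 → ∀ g y, y ∈ κ (g⁻¹ * s * g) ↔ g * y * g⁻¹ ∈ κ s
  cen : ∀ s, s * s = 1 → s ≠ 1 → ∀ p ∈ κ s, p * s = s * p
  coset : ∀ s, s * s = 1 → s ≠ 1 → ∀ p ∈ κ s, ∀ q, q ∈ κ s ↔ p⁻¹ * q ∈ idc (Pool.Agent.A1C.cen s)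
  good : ∃ s z, s * s = 1 ∧ s ≠ 1 ∧ z * z = 1 ∧ z ≠ 1 ∧ z ∈ κ s ∧ s * z ≠ 1 ∧ z ∈ κ (s * z)

end Pool.Agent.A1C
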