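import Pool.Agent.A1C.GC4
import Pool.Agent.A1C.MDef

/-!
# MH1: definable subgroups as groups

`DGrp.sub H hH`: the coordinates of `x : H` are those of `x : Γ`. `def_range`: the range of `enc ∘ Subtype.val` is `enc '' H`. `mul_df`: the graph of the
multiplication of `H` has the image `enc '' {z : (Γ × Γ) × Γ | z.1.1 ∈ H ∧ z.1.2 ∈ H ∧ z.2 = z.1.1 * z.1.2}` under the coordinate map (the coordinates of a
product are the concatenation `Fin.append`).
`sub_df_iff`, `sub_rk`: by definition `enc '' S` (for `H`) is `enc '' (Subtype.val '' S)` (for `Γ`): `Set.image_image` or `Set.image_comp`.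
`sub_conn_iff`: for `K : Subgroup H` the subgroup `K.map H.subtype` of `Γ`: definable iff `K` is; the subgroups `L ≤ K` and `L' ≤ K.map H.subtype` correspond
(`Subgroup.map_subtype_le`, `Subgroup.subgroupOf_map_subtype`), with the same index (`Subgroup.relIndex_map_map_of_injective`).

-/

set_option autoImplicit false

namespace Pool.Agent.A1C

universe u

variable {M : Type u} [Univ M] {Γ : Type u} [Group Γ] [DGrp M Γ]

open Filter

open Classical in
/-- a definable subgroup as a definable group -/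
@[reducible] noncomputable def DGrp.sub (H : Subgroup Γ) (hH : Df (H : Set Γ)) : DGrp M H where
  dim := DTy.dim Γ
  enc x := DTy.enc (x : Γ)
  inj := fun x y h => Subtype.ext (DTy.inj h)
  def_range := by
    have h : Set.range (fun x : H => (DTy.enc (x : Γ) : Fin (DTy.dim Γ) → M)) =
        DTy.enc '' (H : Set Γ) := by
      ext v
      constructor
      · rintro ⟨x, rfl⟩
        exact ⟨x, x.2, rfl⟩
      · rintro ⟨x, hx, rfl⟩
        exact ⟨⟨x, hx⟩, rfl⟩
    rw [h]
    exact hH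
  mul_df := by
    have hd : Df {z : (Γ × Γ) × Γ | (z.1.1 ∈ H ∧ z.1.2 ∈ H) ∧ z.2 = z.1.1 * z.1.2} := by
      refine Df.inter (Df.inter ?_ ?_) ?_
      · exact DfP.mem (f := fun z : (Γ × Γ) × Γ => z.1.1) hH (by fun_prop)
      · exact DfP.mem (f := fun z : (Γ × Γ) × Γ => z.1.2) hH (by fun_prop)
      · exact DfP.eq (f := fun z : (Γ × Γ) × Γ => z.2) (g := fun z => z.1.1 * z.1.2)
          (by fun_prop) (by fun_prop)
    have key : (fun z : (H × H) × H => Fin.append (Fin.append (DTy.enc (z.1.1 : Γ) : Fin (DTy.dim Γ) → M)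
        (DTy.enc (z.1.2 : Γ))) (DTy.enc (z.2 : Γ))) '' {p : (H × H) × H | p.2 = p.1.1 * p.1.2} =
        DTy.enc '' {z : (Γ × Γ) × Γ | (z.1.1 ∈ H ∧ z.1.2 ∈ H) ∧ z.2 = z.1.1 * z.1.2} := by
      ext v
      constructor
      · rintro ⟨z, hz, rfl⟩
        refine ⟨(((z.1.1 : Γ), (z.1.2 : Γ)), (z.2 : Γ)), ⟨⟨z.1.1.2, z.1.2.2⟩, ?_⟩, rfl⟩
        have h1 : z.2 = z.1.1 * z.1.2 := hz
        show (z.2 : Γ) = (z.1.1 : Γ) * (z.1.2 : Γ)
        rw [h1]
        rfl
      · rintro ⟨z, ⟨⟨h1, h2⟩, h3⟩, rfl⟩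
        refine ⟨((⟨z.1.1, h1⟩, ⟨z.1.2, h2⟩), ⟨z.2, ?_⟩), ?_, rfl⟩
        · rw [h3]
          exact H.mul_mem h1 h2
        · exact Subtype.ext h3
    have h4 : Univ.Def (DTy.enc '' {z : (Γ × Γ) × Γ | (z.1.1 ∈ H ∧ z.1.2 ∈ H) ∧
        z.2 = z.1.1 * z.1.2}) := hd
    rw [← key] at h4
    exact h4

theorem sub_df_iff (H : Subgroup Γ) (hH : Df (H : Set Γ)) (S : Set H) :
    (letI := DGrp.sub H hH; Df S) ↔ Df (Subtype.val '' S : Set Γ) := by
  have h : (fun x : H => (DTy.enc (x : Γ) : Fin (DTy.dim Γ) → M)) '' S =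
      DTy.enc '' (Subtype.val '' S : Set Γ) := by
    rw [Set.image_image]
  show Univ.Def ((fun x : H => (DTy.enc (x : Γ) : Fin (DTy.dim Γ) → M)) '' S) ↔ _
  rw [h]
  exact Iff.rfl

theorem sub_conn_iff (H : Subgroup Γ) (hH : Df (H : Set Γ)) (K : Subgroup H) :
    (letI := DGrp.sub H hH; Conn K) ↔ Conn (K.map H.subtype) := by
  have hinj : Function.Injective H.subtype := Subtype.val_injective
  have hdf : ∀ L : Subgroup H, (letI := DGrp.sub H hH; Df (L : Set H)) ↔
      Df ((L.map H.subtype : Subgroup Γ) : Set Γ) := by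
    intro L
    rw [sub_df_iff]
    rfl
  constructor
  · intro h
    letI := DGrp.sub H hH
    refine ⟨(hdf K).1 h.1, ?_⟩
    intro L' hLK hL' hi
    obtain ⟨L, rfl⟩ : ∃ L : Subgroup H, L' = L.map H.subtype := by
      refine ⟨L'.subgroupOf H, ?_⟩
      rw [Subgroup.subgroupOf_map_subtype, inf_of_le_left]
      exact hLK.trans (Subgroup.map_subtype_le K)
    have hLK' : L ≤ K := (Subgroup.map_le_map_iff_of_injective hinj).1 hLK
    have hi' : L.relIndex K ≠ 0 := by
      rw [Subgroup.relIndex_map_map_of_injective _ _ hinj] at hi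
      exact hi
    rw [h.2 L hLK' ((hdf L).2 hL') hi']
  · intro h
    letI := DGrp.sub H hH
    refine ⟨(hdf K).2 h.1, ?_⟩
    intro L hLK hL hi
    have h1 := h.2 (L.map H.subtype) (Subgroup.map_mono hLK) ((hdf L).1 hL)
      (by rw [Subgroup.relIndex_map_map_of_injective _ _ hinj]; exact hi)
    exact Subgroup.map_injective hinj h1

end Pool.Agent.A1C
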