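import Pool.Agent.A1C.MG3
import Pool.Agent.A1C.MH1

/-!
# MH2: Lemma M

`lemmaM`: suppose `H` is not abelian. `letI := DGrp.sub H hH.1`. `MinG H`: `conn` by `sub_conn_iff` (`(⊤ : Subgroup H).map H.subtype = H`:
`← MonoidHom.range_eq_map`, `Subgroup.range_subtype`); `inv`: the involution of `H` as an element of the subtype; `min`: for `K : Subgroup H` connected, `K ≠ ⊤`:
`K.map H.subtype` is connected (`sub_conn_iff`), `≤ H`, `≠ H` (injectivity of `Subgroup.map`), so has no involution by `hmin`; `u2`: a subgroup `E` of `H` with `x * x = 1` gives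
`E.map H.subtype`; `na`. Then `MinG.false`.
(The existence of minimal tori is in P0C1.)

-/

set_option autoImplicit false

namespace Pool.Agent.A1C

universe u

variable {M : Type u} [Univ M] {Γ : Type u} [Group Γ] [DGrp M Γ]

open Filter

theorem lemmaM (hU : U2perp Γ) {H : Subgroup Γ} (hH : Conn H) (hinv : ∃ t ∈ H, t * t = 1 ∧ t ≠ 1)
    (hmin : ∀ K : Subgroup Γ, Conn K → K ≤ H → K ≠ H → NoInv K) :
    ∀ x ∈ H, ∀ y ∈ H, x * y = y * x := by
  by_contra hna
  push Not at hna
  obtain ⟨x, hx, y, hy, hxy⟩ := hna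
  have htop : (⊤ : Subgroup H).map H.subtype = H := by
    rw [← MonoidHom.range_eq_map, Subgroup.range_subtype]
  letI := DGrp.sub H hH.1
  have hG : MinG H := by
    refine ⟨?_, ?_, ?_, ?_, ?_⟩
    · rw [sub_conn_iff H hH.1 ⊤, htop]
      exact hH
    · obtain ⟨t, ht, ht2, ht1⟩ := hinv
      exact ⟨⟨t, ht⟩, Subtype.ext ht2, fun h => ht1 (congrArg Subtype.val h)⟩
    · intro K hK hne
      have hK' : Conn (K.map H.subtype) := (sub_conn_iff H hH.1 K).1 hK
      have hne' : K.map H.subtype ≠ H := by
        intro h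
        apply hne
        apply Subgroup.map_injective (f := H.subtype) Subtype.val_injective
        rw [h, htop]
      have h2 := hmin _ hK' (Subgroup.map_subtype_le K) hne'
      intro z hz hzz
      have h3 := h2 (z : Γ) ⟨z, hz, rfl⟩ (congrArg Subtype.val hzz)
      exact Subtype.ext h3
    · intro E hE
      have h1 : ((E.map H.subtype : Subgroup Γ) : Set Γ).Finite := by
        apply hU
        rintro _ ⟨z, hz, rfl⟩
        exact congrArg Subtype.val (hE z hz)
      have h2 : ((fun z : H => (z : Γ)) '' (E : Set H)).Finite := h1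
      exact Set.Finite.of_finite_image h2 (Subtype.val_injective.injOn)
    · exact ⟨⟨x, hx⟩, ⟨y, hy⟩, fun h => hxy (congrArg Subtype.val h)⟩
  exact hG.false

end Pool.Agent.A1C
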