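import Pool.Agent.A1C.P0D3

/-!
# P0D4: the final theorem of Parts 0a, 0c, 0d
-/

namespace Pool.Agent.A1C

universe u

variable {M : Type u} [Univ M] {G : Type u} [Group G] [DGrp M G]

/-- Parts 0a, 0c, 0d: the hypotheses of the theorem and Lemma M give the setup of Parts A-F -/
theorem exists_setup (H : Hyp G) (hM : LemM G) : Nonempty (Setup G) := by
  obtain ⟨w, hwN, hwC, hw, hwinv⟩ := H.exists_w
  obtain ⟨i, hiC, hi⟩ := H.exists_inv_mem hM
  refine ⟨{ C := H.C, i := i, w := w, irr := H.irr_univ, dfC := H.connC.1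
            irrC := (conn_iff_irr H.connC.1).1 H.connC
            comm := fun x hx y hy => H.comm hx hy
            sqrt := fun x hx => H.sqrt hx
            i_mem := hiC, i_inv := hi, i_uniq := ?_, w_notMem := hwC, w_inv := hw
            w_inverts := hwinv, ti := ?_, inv_conj := ?_, cover := H.cover }⟩
  · intro x hx hxx
    by_cases h1 : x = 1
    · exact Or.inl h1
    · exact Or.inr (H.inv_unique hM hx ⟨hxx, h1⟩ hiC hi)
  · intro g x hx h1 hg
    exact H.mem_or_mem hM hwN hwC (H.mem_N_of_ti hx h1 hg)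
  · intro j hj
    obtain ⟨g, hg⟩ := H.exists_conj_mem hM hj
    refine ⟨g, ?_⟩
    have h2 : IsInv (g * j * g⁻¹) := by
      refine ⟨?_, ?_⟩
      · calc g * j * g⁻¹ * (g * j * g⁻¹) = g * (j * j) * g⁻¹ := by group
          _ = 1 := by rw [hj.1]; group
      · intro h
        apply hj.2
        calc j = g⁻¹ * (g * j * g⁻¹) * g := by group
          _ = 1 := by rw [h]; group
    rw [← H.inv_unique hM hg h2 hiC hi]
    group

end Pool.Agent.A1C
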