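import Mathlib

/-!
# FldAlg: a field from a regular abelian group of automorphisms
-/

namespace Pool.Agent.A1C

universe u

theorem fldAlg_zero {A D : Type u} [AddCommGroup A] (act : D → A → A)
    (ha : ∀ d x y, act d (x + y) = act d x + act d y) (d : D) : act d 0 = 0 := by
  have h := ha d 0 0
  rw [add_zero] at h
  exact left_eq_add.mp h

theorem fldAlg_main {A D : Type u} [AddCommGroup A] [CommGroup D] (act : D → A → A)
    (h1 : ∀ x, act 1 x = x) (hm : ∀ d e x, act (d * e) x = act d (act e x))
    (ha : ∀ d x y, act d (x + y) = act d x + act d y) (x₀ : A) (hx₀ : x₀ ≠ 0)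
    (hreg : ∀ x y, x ≠ 0 → y ≠ 0 → ∃! d, act d x = y) :
    ∃ (F : Type u) (_ : Field F) (e : F ≃+ A) (φ : Fˣ ≃* D),
    e 1 = x₀ ∧ ∀ (a : Fˣ) (x : F), e ((a : F) * x) = act (φ a) (e x) := by
  classical
  have hz : ∀ d : D, act d 0 = 0 := fldAlg_zero act ha
  have hnz : ∀ (d : D) (x : A), x ≠ 0 → act d x ≠ 0 := by
    intro d x hx h
    apply hx
    have h2 : act (d⁻¹) (act d x) = x := by rw [← hm, inv_mul_cancel, h1]
    rw [← h2, h, hz]
  -- the element `δ x`
  let δ : A → D := fun x => if h : x ≠ 0 then (hreg x₀ x hx₀ h).choose else 1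
  have hδ : ∀ x, x ≠ 0 → act (δ x) x₀ = x := by
    intro x hx
    have h := (hreg x₀ x hx₀ hx).choose_spec.1
    simp only [δ, dif_pos hx]
    exact h
  have huniq : ∀ d e : D, act d x₀ = act e x₀ → d = e := by
    intro d e h
    obtain ⟨f, -, hf⟩ := hreg x₀ (act d x₀) hx₀ (hnz d x₀ hx₀)
    rw [hf d rfl, hf e h.symm]
  have hδact : ∀ d x, x ≠ 0 → δ (act d x) = d * δ x := by
    intro d x hx
    apply huniq
    rw [hδ _ (hnz d x hx), hm, hδ x hx]
  have hδ1 : δ x₀ = 1 := by
    apply huniq
    rw [hδ _ hx₀, h1]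
  let mul : A → A → A := fun x y => if x = 0 then 0 else act (δ x) y
  have mul_def' : ∀ x y, x ≠ 0 → mul x y = act (δ x) y := by
    intro x y hx
    simp only [mul, if_neg hx]
  have zero_mul' : ∀ y, mul 0 y = 0 := by
    intro y
    simp only [mul, if_true]
  have mul_zero' : ∀ x, mul x 0 = 0 := by
    intro x
    by_cases hx : x = 0
    · rw [hx, zero_mul']
    · rw [mul_def' _ _ hx, hz]
  have mul_comm' : ∀ x y, mul x y = mul y x := by
    intro x y
    by_cases hx : x = 0
    · rw [hx, zero_mul', mul_zero']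
    by_cases hy : y = 0
    · rw [hy, zero_mul', mul_zero']
    rw [mul_def' _ _ hx, mul_def' _ _ hy]
    conv_lhs => rw [← hδ y hy]
    conv_rhs => rw [← hδ x hx]
    rw [← hm, ← hm, mul_comm]
  have mul_assoc' : ∀ x y z, mul (mul x y) z = mul x (mul y z) := by
    intro x y z
    by_cases hx : x = 0
    · rw [hx, zero_mul', zero_mul', zero_mul']
    by_cases hy : y = 0
    · rw [hy, zero_mul', mul_zero', zero_mul']
    rw [mul_def' x y hx, mul_def' y z hy, mul_def' x _ hx, mul_def' _ z (hnz _ _ hy),
      hδact _ _ hy, hm]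
  have left_distrib' : ∀ x y z, mul x (y + z) = mul x y + mul x z := by
    intro x y z
    by_cases hx : x = 0
    · rw [hx, zero_mul', zero_mul', zero_mul', add_zero]
    rw [mul_def' _ _ hx, mul_def' _ _ hx, mul_def' _ _ hx, ha]
  have one_mul' : ∀ x, mul x₀ x = x := by
    intro x
    rw [mul_def' _ _ hx₀, hδ1, h1]
  letI ring : CommRing A :=
    { (inferInstance : AddCommGroup A) with
      mul := mul
      one := x₀
      left_distrib := left_distrib'
      right_distrib := by
        intro x y z
        change mul (x + y) z = mul x z + mul y z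
        rw [mul_comm' (x + y) z, left_distrib', mul_comm' z x, mul_comm' z y]
      zero_mul := zero_mul'
      mul_zero := mul_zero'
      mul_assoc := mul_assoc'
      one_mul := one_mul'
      mul_one := by
        intro x
        change mul x x₀ = x
        rw [mul_comm', one_mul']
      mul_comm := mul_comm' }
  have hmul : ∀ x y : A, x * y = mul x y := fun _ _ => rfl
  have hone : (1 : A) = x₀ := rfl
  have hfield : IsField A := by
    refine ⟨⟨x₀, 0, hx₀⟩, mul_comm', ?_⟩
    intro x hx
    refine ⟨act (δ x)⁻¹ x₀, ?_⟩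
    rw [hmul, mul_def' _ _ hx, ← hm, mul_inv_cancel, h1]
    rfl
  letI fld : Field A := hfield.toField
  refine ⟨A, fld, AddEquiv.refl A, ?_, rfl, ?_⟩
  · refine
      { toFun := fun a => δ (a : A)
        invFun := fun d => Units.mk0 (act d x₀) (hnz d x₀ hx₀)
        left_inv := ?_
        right_inv := ?_
        map_mul' := ?_ }
    · intro a
      apply Units.ext
      exact hδ _ a.ne_zero
    · intro d
      change δ (act d x₀) = d
      rw [hδact _ _ hx₀, hδ1, mul_one]
    · intro a b
      change δ (mul (a : A) (b : A)) = δ (a : A) * δ (b : A)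
      rw [mul_def' _ _ a.ne_zero, hδact _ _ b.ne_zero]
  · intro a x
    change mul (a : A) x = act (δ (a : A)) x
    rw [mul_def' _ _ a.ne_zero]

end Pool.Agent.A1C
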