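import Pool.Agent.A1C.FDef
import Pool.Agent.A1C.FldAlg
import Pool.Agent.A1C.PD6

/-!
# PD7: the field (D1d)

`F` is the additive group `Additive S.K` with the multiplication obtained from the regular action of the abelian group `D` on `K \ 1` (`FldAlg`).
Infinite: `rk_K_pos`. `2 ≠ 0`: `K_noInv`. `φ (-1) = i`: `i x₀ i = x₀⁻¹`.
-/

namespace Pool.Agent.A1C

universe u

namespace BSetup

variable {M : Type u} [Univ M] {G : Type u} [Group G] [DGrp M G] (S : BSetup G)

/-- conjugation of `K` by elements of `D`, written additively -/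
private def pd7act (d : S.D) (x : Additive S.K) : Additive S.K :=
  Additive.ofMul ⟨(d : G) * ((Additive.toMul x : S.K) : G) * (d : G)⁻¹,
    S.B_conj d.2.1 (Additive.toMul x).2⟩

private theorem pd7act_coe (d : S.D) (x : Additive S.K) :
    ((Additive.toMul (pd7act S d x) : S.K) : G) =
      (d : G) * ((Additive.toMul x : S.K) : G) * (d : G)⁻¹ := rfl

private theorem pd7ext {x y : Additive S.K}
    (h : ((Additive.toMul x : S.K) : G) = ((Additive.toMul y : S.K) : G)) : x = y :=
  Additive.toMul.injective (Subtype.ext h)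

private theorem pd7ne {x : Additive S.K} (hx : x ≠ 0) :
    ((Additive.toMul x : S.K) : G) ≠ 1 := by
  intro h
  apply hx
  apply pd7ext S
  rw [h]
  rfl

theorem exists_FD : ∃ (F : Type u) (_ : Field F), Nonempty (FD S F) := by
  classical
  let iK : CommGroup S.K :=
    { (inferInstance : Group S.K) with
      mul_comm := fun a b => Subtype.ext (S.K_comm a.2 b.2) }
  let iD : CommGroup S.D :=
    { (inferInstance : Group S.D) with
      mul_comm := fun a b => Subtype.ext (S.D_comm a.2 b.2.2) }
  have h1 : ∀ x, pd7act S 1 x = x := by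
    intro x
    apply pd7ext S
    rw [pd7act_coe]
    simp
  have hm : ∀ d e x, pd7act S (d * e) x = pd7act S d (pd7act S e x) := by
    intro d e x
    apply pd7ext S
    rw [pd7act_coe, pd7act_coe, pd7act_coe, Subgroup.coe_mul]
    group
  have ha : ∀ d x y, pd7act S d (x + y) = pd7act S d x + pd7act S d y := by
    intro d x y
    apply pd7ext S
    rw [pd7act_coe, toMul_add, toMul_add, Subgroup.coe_mul, Subgroup.coe_mul, pd7act_coe,
      pd7act_coe]
    group
  let x₀ : Additive S.K := Additive.ofMul ⟨S.i * S.k, S.ik_mem.1⟩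
  have hx₀ : x₀ ≠ 0 := by
    intro h
    apply S.ik_mem.2
    have h2 : ((Additive.toMul x₀ : S.K) : G) = ((Additive.toMul (0 : Additive S.K) : S.K) : G) := by
      rw [h]
    exact h2
  have hreg : ∀ x y : Additive S.K, x ≠ 0 → y ≠ 0 → ∃! d, pd7act S d x = y := by
    intro x y hx hy
    obtain ⟨d, ⟨hd, hd2⟩, hu⟩ := S.D_regular (Additive.toMul x).2 (pd7ne S hx)
      (Additive.toMul y).2 (pd7ne S hy)
    refine ⟨⟨d, hd⟩, ?_, ?_⟩
    · apply pd7ext S
      rw [pd7act_coe]
      exact hd2
    · intro e he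
      apply Subtype.ext
      apply hu
      refine ⟨e.2, ?_⟩
      rw [← pd7act_coe, he]
  obtain ⟨F, hF, e, φ, he1, hact⟩ := fldAlg_main (pd7act S) h1 hm ha x₀ hx₀ hreg
  have hval : ∀ (a : Fˣ) (x : F), ((φ a : S.D) : G) * ((Additive.toMul (e x) : S.K) : G) *
      ((φ a : S.D) : G)⁻¹ = ((Additive.toMul (e ((a : F) * x)) : S.K) : G) := by
    intro a x
    rw [hact, pd7act_coe]
  have hneg : ((φ (-1) : S.D) : G) = S.i := by
    have hx1 := pd7ne S hx₀
    have h2 := hval (-1) 1
    rw [Units.val_neg, Units.val_one, neg_mul, one_mul, map_neg, he1] at h2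
    have h3 : S.i * ((Additive.toMul x₀ : S.K) : G) * S.i⁻¹ =
        ((Additive.toMul (-x₀) : S.K) : G) := by
      rw [inv_eq_of_mul_eq_one_left S.i_inv.1, S.i_inverts (Additive.toMul x₀).2, toMul_neg]
      rfl
    obtain ⟨f, -, hf⟩ := S.D_regular (Additive.toMul x₀).2 hx1 (Additive.toMul (-x₀)).2
      (pd7ne S (neg_ne_zero.2 hx₀))
    rw [hf _ ⟨(φ (-1)).2, h2⟩, hf _ ⟨S.i_mem_D, h3⟩]
  have htwo : (2 : F) ≠ 0 := by
    intro h
    have h2 : e 1 + e 1 = 0 := by
      rw [← map_add, one_add_one_eq_two, h, map_zero]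
    rw [he1] at h2
    have h3 : (S.i * S.k) * (S.i * S.k) = 1 := by
      have h4 : ((Additive.toMul (x₀ + x₀) : S.K) : G) = 1 := by
        rw [h2]; rfl
      exact h4
    exact S.ik_mem.2 (S.K_noInv _ S.ik_mem.1 h3)
  have hinf : Infinite F := by
    have h2 : Infinite S.K := by
      have h3 : (S.K : Set G).Infinite := by
        intro hfin
        have := S.rk_K_pos
        rw [(rk_eq_zero_iff S.df_K).2 hfin] at this
        exact lt_irrefl _ this
      exact h3.to_subtype
    exact Infinite.of_injective (fun x : S.K => e.symm (Additive.ofMul x)) (by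
      intro x y hxy
      exact Additive.ofMul.injective (e.symm.injective hxy))
  refine ⟨F, hF, ⟨⟨φ, AddEquiv.toMultiplicativeLeft e, ?_, hinf, htwo, hneg⟩⟩⟩
  intro a x
  exact hval a x

end BSetup

end Pool.Agent.A1C
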