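import Pool.Agent.A1C.GC4

/-!
# PF11: in a connected definable group with only one involution the involution is a square (part (f8))

`t` is central: `g⁻¹ t g` is an involution, so it is `t`. Suppose `t` is not a square. For `h : Γ` the subgroup `A = zeta h` is definable and abelian (`df_zeta`, `zeta_comm`), contains
`h` (`self_mem_zeta`) and `t` (central: it commutes with everything commuting with `h`), `{x ∈ A | x * x = 1} ⊆ {1, t}` has at most two elements. By `index_sq_le` for `m = 3`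
and the elements `1, t, h`: one of `1⁻¹ t`, `t⁻¹ 1 = t`, `1⁻¹ h`, `h⁻¹ 1`, `t⁻¹ h = t h`, `h⁻¹ t` is a square in `A`; `t` is not, so `h = y y` or `t h = y y` with `y ∈ zeta h`
(a square root of `h⁻¹` is the inverse of a square root of `h`). Not both (`t` would be a square, as `A` is abelian).
`Q = {h | ∃ y ∈ zeta h, y * y = h}` is definable (`dfP_mem_zeta`, recipe), `univ = Q ∪ t Q` disjoint (`zeta (t h) = zeta h`), `1 ∈ Q`, and `rk (t Q) = rk Q` (`df_smul`, `rk_injOn`). So
`rk Q = rk univ` (`rk_union`) and neither `Q` nor its complement `t Q` is small: contradiction to `irr.small_or`.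
-/

namespace Pool.Agent.A1C

universe u

variable {M : Type u} [Univ M] {Γ : Type u} [Group Γ] [DGrp M Γ]

theorem central_inv_sq (irr : Irr (Set.univ : Set Γ)) {t : Γ} (ht : t * t = 1) (ht1 : t ≠ 1)
    (huniq : ∀ x : Γ, x * x = 1 → x = 1 ∨ x = t) : ∃ y : Γ, y * y = t := by
  by_contra hno
  have htinv : t⁻¹ = t := inv_eq_of_mul_eq_one_left ht
  have hcen : ∀ g : Γ, g * t = t * g := by
    intro g
    have h1 : g * t * g⁻¹ * (g * t * g⁻¹) = 1 := by
      calc g * t * g⁻¹ * (g * t * g⁻¹) = g * (t * t) * g⁻¹ := by group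
        _ = 1 := by rw [ht]; group
    rcases huniq _ h1 with h2 | h2
    · exfalso
      apply ht1
      calc t = g⁻¹ * (g * t * g⁻¹) * g := by group
        _ = 1 := by rw [h2]; group
    · calc g * t = g * t * g⁻¹ * g := by group
        _ = t * g := by rw [h2]
  have hz : ∀ h y : Γ, y ∈ zeta h → y ∈ zeta (t * h) := by
    intro h y hy u hu
    refine hy u ?_
    have h1 : t * (u * h) = t * (h * u) := by
      calc t * (u * h) = (t * u) * h := by group
        _ = u * t * h := by rw [hcen u]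
        _ = u * (t * h) := by group
        _ = t * h * u := hu
        _ = t * (h * u) := by group
    exact mul_left_cancel h1
  have hz' : ∀ h y : Γ, y ∈ zeta (t * h) → y ∈ zeta h := by
    intro h y hy
    have h1 := hz (t * h) y hy
    have h2 : t * (t * h) = h := by rw [← mul_assoc, ht, one_mul]
    rwa [h2] at h1
  have hor : ∀ h : Γ, (∃ y ∈ zeta h, y * y = h) ∨ ∃ y ∈ zeta h, y * y = t * h := by
    intro h
    by_contra hcon
    rw [not_or] at hcon
    obtain ⟨hc1, hc2⟩ := hcon
    have hsub : {x | x ∈ zeta h ∧ x * x = 1} ⊆ {1, t} := by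
      rintro x ⟨_, hx⟩
      exact huniq x hx
    have hfin : {x | x ∈ zeta h ∧ x * x = 1}.Finite := (Set.toFinite {1, t}).subset hsub
    have hcard : {x | x ∈ zeta h ∧ x * x = 1}.ncard ≤ 2 :=
      (Set.ncard_le_ncard hsub (Set.toFinite _)).trans (Set.ncard_pair (Ne.symm ht1)).le
    have htz : t ∈ zeta h := fun u _ => hcen u
    have h3 := index_sq_le (df_zeta h) (fun x hx y hy => zeta_comm hx hy) hfin 3 ![1, t, h] (by
      intro j
      fin_cases j
      · exact (zeta h).one_mem
      · exact htz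
      · exact self_mem_zeta h) (by
      intro j k hjk
      rintro ⟨y, hy, hyy⟩
      have hyi : y⁻¹ * y⁻¹ = (y * y)⁻¹ := by group
      fin_cases j <;> fin_cases k
      · exact hjk rfl
      · exact hno ⟨y, by simpa using hyy⟩
      · exact hc1 ⟨y, hy, by simpa using hyy⟩
      · refine hno ⟨y, ?_⟩
        have h4 : y * y = t⁻¹ * 1 := by simpa using hyy
        rw [h4, htinv, mul_one]
      · exact hjk rfl
      · refine hc2 ⟨y, hy, ?_⟩
        have h4 : y * y = t⁻¹ * h := by simpa using hyy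
        rw [h4, htinv]
      · refine hc1 ⟨y⁻¹, (zeta h).inv_mem hy, ?_⟩
        have h4 : y * y = h⁻¹ * 1 := by simpa using hyy
        rw [hyi, h4]
        group
      · refine hc2 ⟨y⁻¹, (zeta h).inv_mem hy, ?_⟩
        have h4 : y * y = h⁻¹ * t := by simpa using hyy
        rw [hyi, h4, mul_inv_rev, inv_inv, htinv]
      · exact hjk rfl)
    omega
  have hnb : ∀ h y z : Γ, y ∈ zeta h → z ∈ zeta h → y * y = h → z * z = t * h → False := by
    intro h y z hy hz1 hyy hzz
    refine hno ⟨z * y⁻¹, ?_⟩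
    have h1 : y⁻¹ * z = z * y⁻¹ := zeta_comm ((zeta h).inv_mem hy) hz1
    calc z * y⁻¹ * (z * y⁻¹) = z * (y⁻¹ * z) * y⁻¹ := by group
      _ = z * (z * y⁻¹) * y⁻¹ := by rw [h1]
      _ = (z * z) * (y * y)⁻¹ := by group
      _ = t * h * h⁻¹ := by rw [hyy, hzz]
      _ = t := by group
  have hQ : Df {h : Γ | ∃ y ∈ zeta h, y * y = h} := by
    change DfP (fun h : Γ => ∃ y : Γ, y ∈ zeta h ∧ y * y = h)
    apply DfP.ex
    apply DfP.and dfP_mem_zeta
    apply DfP.eq
    · fun_prop
    · fun_prop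
  have htQ : Df ((fun x => t * x) '' {h : Γ | ∃ y ∈ zeta h, y * y = h}) := df_smul hQ t
  have hunion : (Set.univ : Set Γ) = {h : Γ | ∃ y ∈ zeta h, y * y = h} ∪
      (fun x => t * x) '' {h : Γ | ∃ y ∈ zeta h, y * y = h} := by
    symm
    rw [Set.eq_univ_iff_forall]
    intro h
    rcases hor h with h1 | ⟨y, hy, hyy⟩
    · exact Or.inl h1
    · refine Or.inr ⟨t * h, ⟨y, hz h y hy, hyy⟩, ?_⟩
      change t * (t * h) = h
      rw [← mul_assoc, ht, one_mul]
  have hdiff : (Set.univ : Set Γ) \ {h : Γ | ∃ y ∈ zeta h, y * y = h} =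
      (fun x => t * x) '' {h : Γ | ∃ y ∈ zeta h, y * y = h} := by
    ext h
    constructor
    · rintro ⟨_, h1⟩
      have h2 : h ∈ {h : Γ | ∃ y ∈ zeta h, y * y = h} ∪
          (fun x => t * x) '' {h : Γ | ∃ y ∈ zeta h, y * y = h} := by
        rw [← hunion]
        trivial
      exact h2.resolve_left h1
    · rintro ⟨h', ⟨z, hz1, hzz⟩, rfl⟩
      refine ⟨trivial, ?_⟩
      rintro ⟨y, hy, hyy⟩
      exact hnb h' z y hz1 (hz' h' y hy) hzz hyy
  have hrk1 : rk ((fun x => t * x) '' {h : Γ | ∃ y ∈ zeta h, y * y = h}) =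
      rk {h : Γ | ∃ y ∈ zeta h, y * y = h} := by
    refine rk_injOn (f := fun x : Γ => t * x) (by fun_prop) hQ ?_
    intro a _ b _ hab
    exact mul_left_cancel hab
  have hrk2 : rk (Set.univ : Set Γ) = rk {h : Γ | ∃ y ∈ zeta h, y * y = h} := by
    rw [hunion, rk_union hQ htQ, hrk1, max_self]
  have h1Q : (1 : Γ) ∈ {h : Γ | ∃ y ∈ zeta h, y * y = h} := ⟨1, (zeta 1).one_mem, mul_one 1⟩
  rcases irr.small_or _ (Set.subset_univ _) hQ with h1 | h1
  · rcases h1 with h1 | h1
    · rw [h1] at h1Q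
      exact h1Q
    · omega
  · rw [hdiff] at h1
    rcases h1 with h1 | h1
    · have h2 : t * 1 ∈ (fun x => t * x) '' {h : Γ | ∃ y ∈ zeta h, y * y = h} := ⟨1, h1Q, rfl⟩
      rw [h1] at h2
      exact h2
    · omega

end Pool.Agent.A1C
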