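import Pool.Agent.A1C.PF12

/-!
# PF13: `cjp i` is the only involution of the group of homologies (part (f7))

Write `Q = S.plane hT`, `i = S.pt`, `o = S.w` as a point (`o` on the axis: `perp o i`), `o' = i o` (an involution, the common point of the axis and the line of `o`:
`tor_of_comm`), `r = cjp o`, an involution of the plane which preserves `C3` (`cjp_c3`), fixes exactly `o` and the points of the line of `o` (`cjp_fix`).
The line through `i, o` has pole `o'` and the line through `i, o'` has pole `o` (`tor_of_comm`). Let `s` be a point on none of the lines of `i, o, o'`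
(`exists_off`); so `s ≠ i, o, o'`. `C3 s o (r s)` holds (a common pole `m` of `s, o` commutes with `o`, so `r` fixes it, `cjp_perp`).
KEY LEMMA: if `h ∈ homs i`, `h * h = 1`, `h ≠ 1`, then `h (r s)` is on the line through `s, o'`. PROOF: `f = r * h` satisfies `f * f = 1` (`cjp_comm`), preserves `C3`, and maps the axis to itself; for
`e` on the axis `f e = r e` is `e` iff `e = o` or `e = o'` (`cjp_fix`, `meet_unique`). `f s ≠ s`: otherwise `r s = h⁻¹ s = h s`, which is on the lines `line(i,s)` and `line(s,o)`; these are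
different (`s` is not on the line of `o'`), so `r s = s`: contradiction to `cjp_fix`. Let `k` be the common pole of `s ≠ f s`, and `e` a point on the lines of `k` and `i` (`k ≠ i`).
`C3 (f s) (f f s = s) (f e)`, so `f e` is also on the line of `k` and on the axis, so `f e = e` (`meet_unique`), `e = o` or `e = o'`.
If `e = o`: `f s = r (h s) = h (r s)` is on `line(s,o)` and on `line(i, r s)` (`lines`), and so is `r s`; the lines are different (otherwise `i` is on the line `line(s,o)`, so `s` is on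
`line(i,o)`), so `h (r s) = r s` and `h = 1` by `hom_unique` (`r s ≠ i`, `r s` not on the axis): contradiction. So `e = o'`: `C3 s o' (h (r s))`.
MAIN: for two such `h, h'` both `h (r s)` and `h' (r s)` are on `line(s,o')` and on `line(i, r s)`, two different lines (otherwise `i` is on `line(s,o')`, so `s` is on `line(i,o')`), so they are equal
(`meet_unique`) and `h = h'` (`hom_unique` for `h'⁻¹ h`).
-/

namespace Pool.Agent.A1C

universe u

private theorem PF13_c3 {P : Type u} (Q : Pl P) {r : Equiv.Perm P}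
    (hperp : ∀ x y, Q.perp (r x) (r y) ↔ Q.perp x y) {a b c : P} (h : Q.C3 a b c) :
    Q.C3 (r a) (r b) (r c) := by
  obtain ⟨p, h1, h2, h3⟩ := h
  exact ⟨r p, (hperp a p).2 h1, (hperp b p).2 h2, (hperp c p).2 h3⟩

private theorem PF13_key {P : Type u} (Q : Pl P) {i o o' s : P} {r h : Equiv.Perm P}
    (hoi : Q.perp o i) (hio' : Q.perp i o') (hoo' : Q.perp o o')
    (hr : ∀ x, r (r x) = x) (hperp : ∀ x y, Q.perp (r x) (r y) ↔ Q.perp x y)
    (hfix : ∀ x, r x = x ↔ x = o ∨ Q.perp x o)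
    (hs1 : ¬ Q.perp s i) (hs2 : ¬ Q.perp s o) (hs3 : ¬ Q.perp s o')
    (hh : Q.IsHom i h) (hcomm : ∀ x, r (h x) = h (r x)) (hhh : ∀ x, h (h x) = x)
    (hne : h ≠ 1) : Q.C3 s o' (h (r s)) := by
  have hio : i ≠ o := fun h0 => Q.irrefl i (by rw [h0] at hoi ⊢; exact hoi)
  have hso : s ≠ o := fun h0 => hs1 (by rw [h0]; exact hoi)
  have hsi : s ≠ i := fun h0 => hs2 (by rw [h0]; exact Q.symm _ _ hoi)
  have hri : r i = i := (hfix i).2 (Or.inr (Q.symm _ _ hoi))
  have hrsi : r s ≠ i := by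
    intro h0
    apply hsi
    have h1 := hr s
    rw [h0, hri] at h1
    exact h1.symm
  have hrsE : ¬ Q.perp (r s) i := by
    intro h0
    apply hs1
    have h1 := hperp s i
    rw [hri] at h1
    exact h1.1 h0
  -- `s, o, r s` are on a line
  obtain ⟨m, hsm, hom⟩ := Q.ex s o hso
  have hrm : r m = m := (hfix m).2 (Or.inr (Q.symm _ _ hom))
  have hrsm : Q.perp (r s) m := by
    have h1 := (hperp s m).2 hsm
    rwa [hrm] at h1
  have hrss : r s ≠ s := by
    intro h0
    rcases (hfix s).1 h0 with h1 | h1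
    · exact hso h1
    · exact hs2 h1
  have hffs : ∀ x, r (h (r (h x))) = x := by
    intro x
    rw [hcomm (r (h x)), hr, hhh]
  have hfs : r (h s) ≠ s := by
    intro h0
    have h1 : h s = r s := by
      have h4 := hr (h s)
      rw [h0] at h4
      exact h4.symm
    obtain ⟨q, hq1, hq2, hq3⟩ := hh.lines s
    rw [h1] at hq3
    have h2 : q = m := Q.uniq s (r s) q m (Ne.symm hrss) hq2 hq3 hsm hrsm
    rw [h2] at hq1
    have h3 : m = o' := Q.uniq i o m o' hio hq1 hom hio' hoo'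
    rw [h3] at hsm
    exact hs3 hsm
  obtain ⟨k, hsk, hfk⟩ := Q.ex s (r (h s)) (Ne.symm hfs)
  have hki : k ≠ i := fun h0 => hs1 (by rw [← h0]; exact hsk)
  obtain ⟨e, hke, hie⟩ := Q.ex k i hki
  have hek : Q.perp e k := Q.symm _ _ hke
  have hei : Q.perp e i := Q.symm _ _ hie
  have hhe : h e = e := hh.axis e hei
  have hfe : r e = e := by
    have h1 : Q.C3 (h s) (h (r (h s))) (h e) := (hh.coll _ _ _).2 ⟨k, hsk, hfk, hek⟩
    obtain ⟨k', h2, h3, h4⟩ := PF13_c3 Q hperp h1
    rw [hffs s] at h3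
    rw [hhe] at h4
    have h5 : k' = k := Q.uniq s (r (h s)) k' k (Ne.symm hfs) h3 h2 hsk hfk
    rw [h5] at h4
    have h6 : Q.perp (r e) i := by
      have h7 := (hperp e i).2 hei
      rwa [hri] at h7
    exact Q.meet_unique hki h4 h6 hek hei
  rcases (hfix e).1 hfe with he | he
  · exfalso
    rw [he] at hek
    have h1 : m = k := Q.uniq s o m k hso hsm hom hsk hek
    rw [h1] at hrsm
    obtain ⟨q, hq1, hq2, hq3⟩ := hh.lines (r s)
    rw [hcomm s] at hfk
    have h2 : h (r s) = r s := by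
      by_contra h0
      have h3 : q = k := Q.uniq (h (r s)) (r s) q k h0 hq3 hq2 hfk hrsm
      rw [h3] at hq1
      have h4 : k = o' := Q.uniq i o k o' hio hq1 hek hio' hoo'
      rw [h4] at hsk
      exact hs3 hsk
    exact hne (Q.hom_unique hh h2 hrsi hrsE)
  · have hio2 : i ≠ o := hio
    have h1 : e = o' := Q.meet_unique hio2 hei he (Q.symm _ _ hio') (Q.symm _ _ hoo')
    rw [h1] at hek
    rw [hcomm s] at hfk
    exact ⟨k, hsk, hek, hfk⟩

namespace Setup

variable {M : Type u} [Univ M] {G : Type u} [Group G] [DGrp M G] (S : Setup G)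

theorem hom_inv_unique (hT : AllTor G) {h h' : Equiv.Perm (invs G)}
    (hh : (S.plane hT).IsHom S.pt h) (hh' : (S.plane hT).IsHom S.pt h') (h2 : h * h = 1)
    (h2' : h' * h' = 1) (h1 : h ≠ 1) (h1' : h' ≠ 1) : h = h' := by
  have hw : S.w ∈ pol S.i := by
    refine ⟨S.w_inv, ?_, ?_⟩
    · intro h
      exact S.w_notMem (h ▸ S.i_mem)
    · have h1 := S.w_inverts S.i S.i_mem
      have h2 : S.i⁻¹ = S.i := inv_eq_of_mul_eq_one_left S.i_inv.1
      rw [h2] at h1
      calc S.w * S.i = S.w * S.i * (S.w * S.w) := by rw [S.w_inv.1, mul_one]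
        _ = (S.w * S.i * S.w) * S.w := by group
        _ = S.i * S.w := by rw [h1]
  obtain ⟨hv1, hv2, hv3⟩ := tor_of_comm S.i_inv S.w_inv (Ne.symm hw.2.1) hw.2.2.symm
  set Q := S.plane hT with hQ
  let i : invs G := S.pt
  let o : invs G := ⟨S.w, S.w_inv⟩
  let o' : invs G := ⟨S.i * S.w, hv1⟩
  have hoi : Q.perp o i := hw
  have hio' : Q.perp i o' := hv2
  have hoo' : Q.perp o o' := hv3
  have hr : ∀ x, cjp o.1 (cjp o.1 x) = x := by
    intro x
    have h3 : cjp (S.w * S.w) = cjp S.w * cjp S.w := cjp_mul _ _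
    rw [S.w_inv.1] at h3
    have h4 : cjp (1 : G) x = x := by
      apply Subtype.ext
      rw [cjp_val]
      group
    rw [h3] at h4
    exact h4
  have hperp : ∀ x y, Q.perp (cjp o.1 x) (cjp o.1 y) ↔ Q.perp x y := S.cjp_perp hT o.1
  have hfix : ∀ x, cjp o.1 x = x ↔ x = o ∨ Q.perp x o := fun x => S.cjp_fix hT o x
  obtain ⟨s, hs⟩ := Q.exists_off i (F := {i, o, o'}) (Set.toFinite _)
  have hs1 : ¬ Q.perp s i := hs i (by simp)
  have hs2 : ¬ Q.perp s o := hs o (by simp)
  have hs3 : ¬ Q.perp s o' := hs o' (by simp)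
  have hcomm : ∀ g : Equiv.Perm (invs G), Q.IsHom i g → ∀ x, cjp o.1 (g x) = g (cjp o.1 x) := by
    intro g hg x
    have h3 := S.cjp_comm hT (g := S.w) hw.2.2 hg
    exact Equiv.congr_fun h3 x
  have hsq : ∀ g : Equiv.Perm (invs G), g * g = 1 → ∀ x, g (g x) = x := fun g hg x =>
    Equiv.congr_fun hg x
  obtain ⟨k, hk1, hk2, hk3⟩ := PF13_key Q hoi hio' hoo' hr hperp hfix hs1 hs2 hs3 hh (hcomm h hh)
    (hsq h h2) h1
  obtain ⟨k', hk1', hk2', hk3'⟩ := PF13_key Q hoi hio' hoo' hr hperp hfix hs1 hs2 hs3 hh'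
    (hcomm h' hh') (hsq h' h2') h1'
  have hso' : s ≠ o' := fun h0 => hs1 (by rw [h0]; exact Q.symm _ _ hio')
  have hkk : k' = k := Q.uniq s o' k' k hso' hk1' hk2' hk1 hk2
  rw [hkk] at hk3'
  have hri : cjp o.1 i = i := (hfix i).2 (Or.inr (Q.symm _ _ hoi))
  have hsi : s ≠ i := fun h0 => hs2 (by rw [h0]; exact Q.symm _ _ hoi)
  have hrsi : cjp o.1 s ≠ i := by
    intro h0
    apply hsi
    have h3 := hr s
    rw [h0, hri] at h3
    exact h3.symm
  have hrsE : ¬ Q.perp (cjp o.1 s) i := by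
    intro h0
    apply hs1
    have h3 := hperp s i
    rw [hri] at h3
    exact h3.1 h0
  obtain ⟨q, hq1, hq2, hq3⟩ := hh.lines (cjp o.1 s)
  obtain ⟨q', hq1', hq2', hq3'⟩ := hh'.lines (cjp o.1 s)
  have hqq : q' = q := Q.uniq i (cjp o.1 s) q' q (Ne.symm hrsi) hq1' hq2' hq1 hq2
  rw [hqq] at hq3'
  have hio'2 : i ≠ o' := fun h0 => Q.irrefl i (by nth_rewrite 2 [h0]; exact hio')
  have hkq : k ≠ q := by
    intro h0
    rw [← h0] at hq1
    have h3 : k = o := Q.uniq i o' k o hio'2 hq1 hk2 (Q.symm _ _ hoi) (Q.symm _ _ hoo')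
    rw [h3] at hk1
    exact hs2 hk1
  have heq : h (cjp o.1 s) = h' (cjp o.1 s) := Q.meet_unique hkq hk3 hq3 hk3' hq3'
  have hmem : h'⁻¹ * h ∈ Q.homs i := (Q.homs i).mul_mem ((Q.homs i).inv_mem hh') hh
  have hfixp : (h'⁻¹ * h) (cjp o.1 s) = cjp o.1 s := by
    show h'.symm (h (cjp o.1 s)) = cjp o.1 s
    rw [heq, Equiv.symm_apply_apply]
  have hone := Q.hom_unique (Q.mem_homs.1 hmem) hfixp hrsi hrsE
  exact (inv_mul_eq_one.1 hone).symm

end Setup

end Pool.Agent.A1C
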