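import Pool.Agent.A1C.PF10
import Pool.Agent.A1C.PF11
import Pool.Agent.A1C.PF13

/-!
# PF14: end of Part F (part (f9))

* `exists_sqrt_iota`: `exists_dgrp` and `central_inv_sq` for the group `(S.plane hT).homs S.pt` and `t = ⟨cjp i, _⟩` (`iota_mem`, `iota_sq`, `iota_ne_one`,
  `hom_inv_unique`).
* `not_allTor`: `c ∈ C` with `c c = i` (`S.sqrt`), `j = cjp c * h⁻¹` with `h h = cjp i`. `c` commutes with `i` (`S.comm`), so `cjp c` commutes with `h` and `h⁻¹` (`cjp_comm`), and
  `j * j = cjp (c c) * (h h)⁻¹ = 1`. `j` preserves `C3` (`cjp_c3`, `coll`, for `h⁻¹ ∈ homs i`), `j i = i`, and for `e` on the axis `j e = c e c⁻¹` is on the axis and `≠ e`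
  (`e c e = c⁻¹` by `pol_inverts`, so `c e c⁻¹ = c c e = i e ≠ e`). Let `s ≠ i` be a point not on the axis (`exists_off`, `F = {i, w}`, where `w ∈ pol i`, so `i` is on the line of `w`).
  `j s ≠ s`: otherwise the line through `i, s` is fixed by `j`, and its common point with the axis is fixed: contradiction. The line through `s, j s` is fixed by `j`, and it is not the axis, so
  its common point with the axis is fixed (`meet_unique`): contradiction.
* `exists_uni`: otherwise `Tor i k` for all involutions `k ≠ i`, and by conjugation (`S.inv_conj`, `tor_cj`) `AllTor G`.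
-/

namespace Pool.Agent.A1C

universe u

namespace Setup

variable {M : Type u} [Univ M] {G : Type u} [Group G] [DGrp M G] (S : Setup G)

theorem exists_sqrt_iota (hT : AllTor G) :
    ∃ h, (S.plane hT).IsHom S.pt h ∧ h * h = cjp S.i := by
  obtain ⟨inst, hirr⟩ := S.exists_dgrp hT
  letI := inst
  obtain ⟨y, hy⟩ := central_inv_sq (M := M) (Γ := (S.plane hT).homs S.pt) hirr
    (t := ⟨cjp S.i, S.iota_mem hT⟩) (Subtype.ext S.iota_sq)
    (fun h => S.iota_ne_one hT (congrArg Subtype.val h)) (by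
      intro x hx
      by_cases h1 : x = 1
      · exact Or.inl h1
      · refine Or.inr (Subtype.ext ?_)
        exact S.hom_inv_unique hT x.2 (S.iota_mem hT) (congrArg Subtype.val hx) S.iota_sq
          (fun h => h1 (Subtype.ext h)) (S.iota_ne_one hT))
  exact ⟨y.1, y.2, congrArg Subtype.val hy⟩

include S in
theorem not_allTor : ¬ AllTor G := by
  intro hT
  obtain ⟨c, hcC, hcc⟩ := S.sqrt S.i S.i_mem
  obtain ⟨h, hh, hhh⟩ := S.exists_sqrt_iota hT
  set Q := S.plane hT with hQ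
  have hci : c * S.i = S.i * c := S.comm c hcC S.i S.i_mem
  have hcm : cjp c * h = h * cjp c := S.cjp_comm hT hci hh
  have hinv : Q.IsHom S.pt h⁻¹ := (Q.homs S.pt).inv_mem hh
  set j : Equiv.Perm (invs G) := cjp c * h⁻¹ with hj
  have hjj : j * j = 1 := by
    have h1 : h⁻¹ * cjp c = cjp c * h⁻¹ := by
      calc h⁻¹ * cjp c = h⁻¹ * (cjp c * h) * h⁻¹ := by group
        _ = h⁻¹ * (h * cjp c) * h⁻¹ := by rw [hcm]
        _ = cjp c * h⁻¹ := by group
    calc j * j = cjp c * (h⁻¹ * cjp c) * h⁻¹ := by rw [hj]; group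
      _ = cjp c * (cjp c * h⁻¹) * h⁻¹ := by rw [h1]
      _ = (cjp c * cjp c) * (h * h)⁻¹ := by group
      _ = 1 := by rw [← cjp_mul, hcc, hhh, mul_inv_cancel]
  have hjja : ∀ x, j (j x) = x := fun x => Equiv.congr_fun hjj x
  have hjc : ∀ x y z, Q.C3 x y z → Q.C3 (j x) (j y) (j z) := by
    intro x y z h0
    have h1 : Q.C3 (h⁻¹ x) (h⁻¹ y) (h⁻¹ z) := (hinv.coll x y z).2 h0
    exact (S.cjp_c3 hT c _ _ _).2 h1
  have hcji : cjp c S.pt = S.pt := by
    apply Subtype.ext
    rw [cjp_val]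
    change c * S.i * c⁻¹ = S.i
    rw [hci]
    group
  have hji : j S.pt = S.pt := by
    change cjp c (h⁻¹ S.pt) = S.pt
    rw [hinv.center, hcji]
  have hjax : ∀ e, Q.perp e S.pt → Q.perp (j e) S.pt ∧ j e ≠ e := by
    intro e he
    have h1 : j e = cjp c e := by
      change cjp c (h⁻¹ e) = cjp c e
      rw [hinv.axis e he]
    rw [h1]
    constructor
    · have h2 := (S.cjp_perp hT c e S.pt).2 he
      rwa [hcji] at h2
    · intro h2
      have h3 : c * e.1 * c⁻¹ = e.1 := by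
        have := congrArg Subtype.val h2
        rwa [cjp_val] at this
      have h4 : e.1 * c * e.1 = c⁻¹ :=
        S.pol_inverts S.i_inv he (by rw [S.cl_i]; exact hcC)
      have he2 : e.1 * e.1 = 1 := e.2.1
      have h5 : c * e.1 * c⁻¹ = S.i * e.1 := by
        rw [← h4]
        calc c * e.1 * (e.1 * c * e.1) = c * (e.1 * e.1) * c * e.1 := by group
          _ = c * c * e.1 := by rw [he2, mul_one]
          _ = S.i * e.1 := by rw [hcc]
      rw [h5] at h3
      exact S.i_inv.2 (mul_eq_right.1 h3)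
  have hw : S.w ∈ pol S.i := by
    refine ⟨S.w_inv, ?_, ?_⟩
    · intro h
      exact S.w_notMem (h ▸ S.i_mem)
    · have h1 := S.w_inverts S.i S.i_mem
      have h2 : S.i⁻¹ = S.i := inv_eq_of_mul_eq_one_left S.i_inv.1
      rw [h2] at h1
      calc S.w * S.i = S.w * S.i * (S.w * S.w) := by rw [S.w_inv.1, mul_one]
        _ = (S.w * S.i * S.w) * S.w := by group
        _ = S.i * S.w := by rw [h1]
  obtain ⟨s, hs⟩ := Q.exists_off S.pt (F := {S.pt, ⟨S.w, S.w_inv⟩}) (Set.toFinite _)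
  have hsE : ¬ Q.perp s S.pt := hs _ (Or.inl rfl)
  have hsw : ¬ Q.perp s ⟨S.w, S.w_inv⟩ := hs _ (Or.inr rfl)
  have hsi : S.pt ≠ s := by
    intro h0
    apply hsw
    rw [← h0]
    exact pol_symm S.i_inv hw
  -- the fixed line has a fixed point on the axis
  have key : ∀ p x y, x ≠ y → Q.perp x p → Q.perp y p → p ≠ S.pt →
      (j x = x ∧ j y = y ∨ j x = y ∧ j y = x) → False := by
    intro p x y hxy hxp hyp hp hor
    obtain ⟨e, he1, he2⟩ := Q.ex p S.pt hp
    have he1' : Q.perp e p := Q.symm _ _ he1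
    have he2' : Q.perp e S.pt := Q.symm _ _ he2
    obtain ⟨h1, h2⟩ := hjax e he2'
    obtain ⟨p', h3, h4, h5⟩ := hjc x y e ⟨p, hxp, hyp, he1'⟩
    have h6 : p' = p := by
      rcases hor with ⟨h7, h8⟩ | ⟨h7, h8⟩
      · rw [h7] at h3
        rw [h8] at h4
        exact Q.uniq x y p' p hxy h3 h4 hxp hyp
      · rw [h7] at h3
        rw [h8] at h4
        exact Q.uniq x y p' p hxy h4 h3 hxp hyp
    rw [h6] at h5
    exact h2 (Q.meet_unique hp h5 h1 he1' he2')
  by_cases hjs : j s = s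
  · obtain ⟨p, h1, h2⟩ := Q.ex S.pt s hsi
    exact key p S.pt s hsi h1 h2 (fun h0 => hsE (by rw [← h0]; exact h2)) (Or.inl ⟨hji, hjs⟩)
  · obtain ⟨p, h1, h2⟩ := Q.ex s (j s) (Ne.symm hjs)
    exact key p s (j s) (Ne.symm hjs) h1 h2 (fun h0 => hsE (by rw [← h0]; exact h1))
      (Or.inr ⟨rfl, hjja s⟩)

/-- Part F: a unipotent pair exists -/
theorem exists_uni : ∃ k, IsInv k ∧ k ≠ S.i ∧ ¬ Tor S.i k := by
  by_contra hcon
  push Not at hcon
  apply S.not_allTor
  intro j k hj hk hjk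
  obtain ⟨g, hg⟩ := S.inv_conj j hj
  have h1 : k = g⁻¹ * (g * k * g⁻¹) * g := by group
  have hk' : IsInv (g * k * g⁻¹) := by
    have := hk.cj g⁻¹
    rwa [inv_inv] at this
  rw [hg, h1, tor_cj]
  apply hcon _ hk'
  intro h2
  apply hjk
  rw [hg, ← h2]
  group

end Setup

end Pool.Agent.A1C
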