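import Pool.Agent.A1C.FIN2
import Pool.Agent.A1C.P0D4
import Pool.Agent.A1C.MH2
import Pool.Agent.A1C.PF14
import Pool.Agent.A1C.BRI
import Pool.Agent.A1C.EB
import Pool.Agent.A1C.PD7

/-!
# FIN3: assembly
-/

namespace Pool.Agent.A1C

universe u v w

theorem hyp_pgl {M : Type u} [Univ M] {G : Type u} [Group G] [DGrp M G] (H : Hyp G) :
    ∃ (F : Type u) (_ : Field F), Nonempty (G ≃* Matrix.ProjGenLinGroup (Fin 2) F) := by
  have hM : LemM G := by
    intro K hK hinv hmin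
    refine lemmaM H.u2 hK ?_ (fun K' h1 h2 h3 => hmin K' h2 h1 h3)
    obtain ⟨j, hj, hj2⟩ := hinv
    exact ⟨j, hj, hj2.1, hj2.2⟩
  obtain ⟨S⟩ := exists_setup H hM
  obtain ⟨k, hk, hne, htor⟩ := S.exists_uni
  let B : BSetup G := { toSetup := S, k := k, k_inv := hk, k_ne := hne, k_tor := htor }
  obtain ⟨F, hF, ⟨fd⟩⟩ := B.exists_FD
  exact ⟨F, hF, B.identification B.D_eq_C fd⟩

end Pool.Agent.A1C
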