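import Mathlib

/-!
# FINDef: the official statement (definitions)

Ranked groups in the sense of Borovik and Poizat. `L` is a first-order language, `G` an `L`-structure; definable means definable
in `L` with parameters from `G`.
-/

namespace Pool.Agent.A1C

universe u v w

/-- `A ⊆ G^n` is definable with parameters -/
def LDef (L : FirstOrder.Language.{v, w}) {G : Type u} [L.Structure G] {n : ℕ}
    (A : Set (Fin n → G)) : Prop :=
  (Set.univ : Set G).Definable L A

/-- `S ⊆ G` is definable with parameters -/
def LDef₁ (L : FirstOrder.Language.{v, w}) {G : Type u} [L.Structure G] (S : Set G) : Prop :=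
  LDef L {x : Fin 1 → G | x 0 ∈ S}

/-- the restriction of `f` to `A` is a definable function: `A` and the graph are definable -/
def LDefFun (L : FirstOrder.Language.{v, w}) {G : Type u} [L.Structure G] {n m : ℕ}
    (A : Set (Fin n → G)) (f : (Fin n → G) → (Fin m → G)) : Prop :=
  LDef L A ∧ LDef L {z : Fin (n + m) → G | ∃ a ∈ A, z = Fin.append a (f a)}

/-- the fibre over `b` of the function `f` with domain `A` -/
def fib {G : Type u} {n m : ℕ} (A : Set (Fin n → G)) (f : (Fin n → G) → (Fin m → G))
    (b : Fin m → G) : Set (Fin n → G) := {a | a ∈ A ∧ f a = b}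

/-- A rank function on the nonempty definable sets, satisfying the Borovik-Poizat axioms. -/
structure RankFun (L : FirstOrder.Language.{v, w}) (G : Type u) [L.Structure G] where
  /-- the rank -/
  rk : ∀ {n : ℕ}, Set (Fin n → G) → ℕ
  /-- axiom A: `rk A ≥ k + 1` iff `A` contains infinitely many pairwise disjoint nonempty
  definable subsets of rank at least `k` -/
  monotonicity : ∀ {n : ℕ} {A : Set (Fin n → G)}, LDef L A → A.Nonempty → ∀ k : ℕ,
    (k + 1 ≤ rk A ↔ ∃ B : ℕ → Set (Fin n → G),
      (∀ i, LDef L (B i) ∧ (B i).Nonempty ∧ B i ⊆ A ∧ k ≤ rk (B i)) ∧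
        ∀ i j, i ≠ j → Disjoint (B i) (B j))
  /-- axiom B: the set of the points over which the fibre has rank `k` is definable -/
  definability : ∀ {n m : ℕ} {A : Set (Fin n → G)} {f : (Fin n → G) → (Fin m → G)},
    LDefFun L A f → ∀ k : ℕ, LDef L {b | (fib A f b).Nonempty ∧ rk (fib A f b) = k}
  /-- axiom C: if all the fibres of `f : A → B` (onto) have rank `k` then
  `rk A = rk B + k` -/
  additivity : ∀ {n m : ℕ} {A : Set (Fin n → G)} {f : (Fin n → G) → (Fin m → G)},
    LDefFun L A f → A.Nonempty → ∀ k : ℕ, (∀ b ∈ f '' A, rk (fib A f b) = k) →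
      rk A = rk (f '' A) + k
  /-- axiom D: for some `N` every fibre with at least `N` elements is infinite -/
  elimination : ∀ {n m : ℕ} {A : Set (Fin n → G)} {f : (Fin n → G) → (Fin m → G)},
    LDefFun L A f → ∃ N : ℕ, ∀ b, (N : ℕ∞) ≤ (fib A f b).encard → (fib A f b).Infinite

end Pool.Agent.A1C
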