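import Pool.Agent.A1C.PA7

/-!
# FldData: the situation after Part D1 (final file)

A unipotent pair `(i, k)`, `K = cen (i k)`, `D = N_C(K)`; the field `F` with additive group `K` (`ka : F → G` is a bijection onto
`K`) and multiplicative group `D` (`ch : Fˣ → G` is a bijection onto `D`), the action of `D` on `K` by conjugation is the
multiplication of `F`.
-/

namespace Pool.Agent.A1C

universe u

/-- the situation after Part D1 -/
structure FldData {M : Type u} [Univ M] {G : Type u} [Group G] [DGrp M G] (S : Setup G) where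
  k : G
  k_inv : IsInv k
  k_ne : k ≠ S.i
  not_tor : ¬ Tor S.i k
  F : Type u
  [fld : Field F]
  ka : F → G
  ch : Fˣ →* G
  ka_add : ∀ x y, ka (x + y) = ka x * ka y
  ka_inj : Function.Injective ka
  ka_range : ∀ g, g ∈ cen (S.i * k) ↔ ∃ x, ka x = g
  ch_inj : Function.Injective ch
  ch_range : ∀ g, (∃ e, ch e = g) ↔
    g ∈ S.C ∧ ∀ x, x ∈ cen (S.i * k) ↔ g * x * g⁻¹ ∈ cen (S.i * k)
  act : ∀ (e : Fˣ) (x : F), ch e * ka x * (ch e)⁻¹ = ka (e * x)
  ch_neg_one : ch (-1) = S.i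
  inf : Infinite F
  two_ne : (2 : F) ≠ 0
  irrK : Irr (cen (S.i * k) : Set G)
  rk_eq : rk (cen (S.i * k) : Set G) = rk {g : G | ∃ e, ch e = g}

attribute [instance] FldData.fld FldData.inf

namespace FldData

variable {M : Type u} [Univ M] {G : Type u} [Group G] [DGrp M G] {S : Setup G} (A : FldData S)

/-- the unipotent line group `K` -/
def K : Subgroup G := cen (S.i * A.k)

/-- the group `D = N_C(K)` -/
def D : Subgroup G := A.ch.range

theorem mem_K {g : G} : g ∈ A.K ↔ ∃ x, A.ka x = g := A.ka_range g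

theorem mem_D {g : G} : g ∈ A.D ↔ ∃ e, A.ch e = g := Iff.rfl

theorem ka_mem (x : A.F) : A.ka x ∈ A.K := (A.ka_range _).2 ⟨x, rfl⟩

theorem ka_zero : A.ka 0 = 1 := by
  have h := A.ka_add 0 0
  rw [add_zero] at h
  exact (left_eq_mul.1 h)

theorem ka_neg (x : A.F) : A.ka (-x) = (A.ka x)⁻¹ := by
  rw [eq_inv_iff_mul_eq_one, ← A.ka_add, neg_add_cancel, A.ka_zero]

theorem ka_ne {x : A.F} (hx : x ≠ 0) : A.ka x ≠ 1 := by
  rw [← A.ka_zero]
  exact fun h => hx (A.ka_inj h)

theorem ch_mem (e : A.Fˣ) : A.ch e ∈ S.C := ((A.ch_range _).1 ⟨e, rfl⟩).1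

theorem ch_mem_D (e : A.Fˣ) : A.ch e ∈ A.D := ⟨e, rfl⟩

theorem D_le : A.D ≤ S.C := by
  rintro _ ⟨e, rfl⟩
  exact A.ch_mem e

theorem df_D : Df (A.D : Set G) := by
  have hC : Df (S.C : Set G) := S.dfC
  have hK : Df (cen (S.i * A.k) : Set G) := df_cen _
  have h : (A.D : Set G) = {g : G | g ∈ (S.C : Set G) ∧
      ∀ x, x ∈ (cen (S.i * A.k) : Set G) ↔ g * x * g⁻¹ ∈ (cen (S.i * A.k) : Set G)} := by
    ext g
    exact A.ch_range g
  rw [h]
  change DfP (fun g : G => g ∈ (S.C : Set G) ∧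
      ∀ x, x ∈ (cen (S.i * A.k) : Set G) ↔ g * x * g⁻¹ ∈ (cen (S.i * A.k) : Set G))
  repeat' first
    | assumption
    | fun_prop
    | apply DfP.and
    | apply DfP.or
    | apply DfP.not
    | apply DfP.iff
    | apply DfP.ex
    | apply DfP.all
    | apply DfP.eq
    | (apply DfP.mem; assumption)
    | apply DfP.imp
    | exact DfP.const _

theorem lineGrp_K : S.LineGrp A.K :=
  Or.inr ⟨S.i, A.k, S.i_inv, A.k_inv, A.k_ne.symm, A.not_tor, rfl⟩

end FldData

end Pool.Agent.A1C
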