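import Pool.Agent.A1C.RE1

/-!
# RE2: products, fibrations, images (Fubini)

`irr_image`: a partition of the image into two non small sets gives a partition of `A` into two non small sets.
-/

namespace Pool.Agent.A1C

universe u

variable {M : Type u} [Univ M] {X Y Z : Type u} [DTy M X] [DTy M Y] [DTy M Z]

open Filter

/-- the fibres of the restriction of `f` to the preimage of `B` -/
private theorem re2_small {f : X → Y} (hf : DfFun f) {A : Set X} (hA : Df A) (hne : A.Nonempty)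
    {k : ℕ} (h : ∀ y ∈ f '' A, rk (A ∩ f ⁻¹' {y}) = k) {B : Set Y} (hB : Df B)
    (hBA : B ⊆ f '' A) : Small B (f '' A) ↔ Small (A ∩ f ⁻¹' B) A := by
  have hdf : Df (A ∩ f ⁻¹' B) := hA.inter (hf.preimage hB)
  have himg : f '' (A ∩ f ⁻¹' B) = B := by
    ext y
    constructor
    · rintro ⟨x, hx, rfl⟩
      exact hx.2
    · intro hy
      obtain ⟨x, hx, rfl⟩ := hBA hy
      exact ⟨x, ⟨hx, hy⟩, rfl⟩
  have h1 := rk_eq_add hf hA hne h
  rcases (A ∩ f ⁻¹' B).eq_empty_or_nonempty with h0 | h0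
  · have hB0 : B = ∅ := by rw [← himg, h0, Set.image_empty]
    exact ⟨fun _ => Or.inl h0, fun _ => Or.inl hB0⟩
  · have h2 : rk (A ∩ f ⁻¹' B) = rk B + k := by
      have h3 := rk_eq_add hf hdf h0 (k := k) (by
        intro y hy
        rw [himg] at hy
        rw [← h y (hBA hy)]
        congr 1
        ext x
        constructor
        · rintro ⟨⟨h3, h4⟩, h5⟩
          exact ⟨h3, h5⟩
        · rintro ⟨h3, h4⟩
          have h5 : f x = y := h4
          refine ⟨⟨h3, ?_⟩, h4⟩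
          change f x ∈ B
          rw [h5]
          exact hy)
      rw [himg] at h3
      exact h3
    have hB0 : B ≠ ∅ := by
      rw [← himg]
      exact (h0.image f).ne_empty
    unfold Small
    constructor
    · rintro (h3 | h3)
      · exact absurd h3 hB0
      · right
        omega
    · rintro (h3 | h3)
      · exact absurd h3 h0.ne_empty
      · right
        omega

theorem irr_image {f : X → Y} (hf : DfFun f) {A : Set X} (hA : Irr A) {k : ℕ}
    (h : ∀ y ∈ f '' A, rk (A ∩ f ⁻¹' {y}) = k) : Irr (f '' A) := by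
  refine ⟨hf.image hA.df, hA.ne.image f, fun B hBA hB => ?_⟩
  have hB' : Df (f '' A \ B) := (hf.image hA.df).diff hB
  rw [re2_small hf hA.df hA.ne h hB hBA, re2_small hf hA.df hA.ne h hB' Set.sdiff_subset]
  have h1 : A ∩ f ⁻¹' (f '' A \ B) = A \ (A ∩ f ⁻¹' B) := by
    ext x
    constructor
    · rintro ⟨h1, h2⟩
      exact ⟨h1, fun h3 => h2.2 h3.2⟩
    · rintro ⟨h1, h2⟩
      exact ⟨h1, ⟨x, h1, rfl⟩, fun h3 => h2 ⟨h1, h3⟩⟩
  rw [h1]
  exact hA.small_or _ Set.inter_subset_left (hA.df.inter (hf.preimage hB))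

theorem ev_image_iff {f : X → Y} (hf : DfFun f) {A : Set X} (hA : Irr A) {k : ℕ}
    (h : ∀ y ∈ f '' A, rk (A ∩ f ⁻¹' {y}) = k) {p : Y → Prop} (hp : DfP p) :
    (∀ᶠ y in gen (f '' A), p y) ↔ ∀ᶠ x in gen A, p (f x) := by
  have himg := hf.image hA.df
  have hB : Df {y | y ∈ f '' A ∧ ¬ p y} := himg.inter hp.not
  rw [ev_iff himg hp, ev_iff hA.df (hp.comp hf),
    re2_small hf hA.df hA.ne h hB (fun y hy => hy.1)]
  have h1 : A ∩ f ⁻¹' {y | y ∈ f '' A ∧ ¬ p y} = {x | x ∈ A ∧ ¬ p (f x)} := by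
    ext x
    constructor
    · rintro ⟨h1, h2⟩
      exact ⟨h1, h2.2⟩
    · rintro ⟨h1, h2⟩
      exact ⟨h1, ⟨x, h1, rfl⟩, h2⟩
  rw [h1]

/-- definable bijections preserve genericity (no definability of `p` needed) -/
theorem ev_inj_iff {f : X → Y} (hf : DfFun f) {A : Set X} (hA : Df A) (h : Set.InjOn f A)
    {p : Y → Prop} : (∀ᶠ y in gen (f '' A), p y) ↔ ∀ᶠ x in gen A, p (f x) := by
  constructor
  · rintro ⟨B, h1, h2, h3, h4⟩
    have hdf : Df (A ∩ f ⁻¹' B) := hA.inter (hf.preimage h2)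
    have himg : f '' (A ∩ f ⁻¹' B) = B := by
      ext y
      constructor
      · rintro ⟨x, hx, rfl⟩
        exact hx.2
      · intro hy
        obtain ⟨x, hx, rfl⟩ := h1 hy
        exact ⟨x, ⟨hx, hy⟩, rfl⟩
    refine ⟨A ∩ f ⁻¹' B, Set.inter_subset_left, hdf, ?_, ?_⟩
    · rcases h3 with h3 | h3
      · left
        rw [h3, Set.preimage_empty, Set.inter_empty]
      · right
        rw [← rk_injOn hf hdf (h.mono Set.inter_subset_left), himg, ← rk_injOn hf hA h]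
        exact h3
    · rintro x ⟨hx, hx2⟩
      exact h4 ⟨⟨x, hx, rfl⟩, fun h5 => hx2 ⟨hx, h5⟩⟩
  · rintro ⟨B, h1, h2, h3, h4⟩
    refine ⟨f '' B, Set.image_mono h1, hf.image h2, ?_, ?_⟩
    · rcases h3 with h3 | h3
      · left
        rw [h3, Set.image_empty]
      · right
        rw [rk_injOn hf h2 (h.mono h1), rk_injOn hf hA h]
        exact h3
    · rintro y ⟨⟨x, hx, rfl⟩, hx2⟩
      exact h4 ⟨hx, fun h5 => hx2 ⟨x, h5, rfl⟩⟩

theorem irr_of_inj {f : X → Y} (hf : DfFun f) {A : Set X} (hA : Irr A) (h : Set.InjOn f A) :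
    Irr (f '' A) := by
  refine irr_image hf hA (k := 0) ?_
  rintro y ⟨x, hx, rfl⟩
  have e : A ∩ f ⁻¹' {f x} = {x} := by
    ext z
    constructor
    · rintro ⟨hz, h1⟩
      exact h hz hx h1
    · rintro rfl
      exact ⟨hx, rfl⟩
  rw [e]
  exact rk_singleton x

/-- a definable relation `S` with irreducible total space, projected to the second coordinate, fibres of constant rank -/
theorem irr_snd {S : Set (X × Y)} (hS : Irr S) {k : ℕ}
    (h : ∀ y, (∃ x, (x, y) ∈ S) → rk {x | (x, y) ∈ S} = k) :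
    Irr {y | ∃ x, (x, y) ∈ S} := by
  have h1 : {y | ∃ x, (x, y) ∈ S} = (fun p : X × Y => p.2) '' S := by
    ext y
    constructor
    · rintro ⟨x, hx⟩
      exact ⟨(x, y), hx, rfl⟩
    · rintro ⟨⟨x, y'⟩, hx, rfl⟩
      exact ⟨x, hx⟩
  rw [h1]
  refine irr_image DfFun.snd hS (k := k) ?_
  intro y hy
  rw [← h1] at hy
  rw [← h y hy]
  have h2 : Df {x | (x, y) ∈ S} := Df.section_right hS.df y
  have h3 : DfFun (fun x : X => (x, y)) := by fun_prop
  rw [← rk_injOn h3 h2 (fun a _ b _ hab => congrArg Prod.fst hab)]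
  congr 1
  ext ⟨a, b⟩
  constructor
  · rintro ⟨h4, h5⟩
    have h6 : b = y := h5
    subst h6
    exact ⟨a, h4, rfl⟩
  · rintro ⟨x, hx, hxe⟩
    obtain ⟨rfl, rfl⟩ := Prod.mk.inj hxe
    exact ⟨hx, rfl⟩

/-- generic fibre rank: on an irreducible set the fibre rank of a definable function is generically constant -/
theorem exists_generic_fibre_rank {f : X → Y} (hf : DfFun f) {A : Set X} (hA : Irr A) :
    ∃ k : ℕ, (∀ᶠ x in gen A, rk (A ∩ f ⁻¹' {f x}) = k) ∧
      rk A = rk (f '' {x | x ∈ A ∧ rk (A ∩ f ⁻¹' {f x}) = k}) + k := by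
  have hAd := hA.df
  have hrel : DfP fun z : X × X => z.2 ∈ A ∧ f z.2 = f z.1 :=
    DfP.and (DfP.mem hAd (by fun_prop)) (DfP.eq (hf.comp DfFun.snd) (hf.comp DfFun.fst))
  have hset : ∀ x, A ∩ f ⁻¹' {f x} = {z | z ∈ A ∧ f z = f x} := fun x => rfl
  have hk : ∀ k : ℕ, DfP fun x => rk (A ∩ f ⁻¹' {f x}) = k := fun k =>
    DfP.rk_eq (p := fun x z => z ∈ A ∧ f z = f x) hrel k
  obtain ⟨k, -, hev⟩ := hA.ev_of_finite_cases (I := {k | k ≤ rk A}) (Set.finite_le_nat _)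
    (p := fun k x => rk (A ∩ f ⁻¹' {f x}) = k) (fun k _ => hk k)
    (Eventually.of_forall fun x => ⟨_, by
      have h1 : Df (A ∩ f ⁻¹' {f x}) := hAd.inter (hf.preimage (Df.singleton _))
      exact rk_mono h1 hAd Set.inter_subset_left, rfl⟩)
  refine ⟨k, hev, ?_⟩
  have hne : {x | x ∈ A ∧ rk (A ∩ f ⁻¹' {f x}) = k}.Nonempty := by
    obtain ⟨x, hx, hx2⟩ := ev_exists hA.ne hev
    exact ⟨x, hx, hx2⟩
  rw [← ev_rk hAd (hk k) hev]
  refine rk_eq_add hf (hAd.inter (hk k)) hne ?_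
  rintro y ⟨x, ⟨hx, hx2⟩, rfl⟩
  rw [← hx2]
  congr 1
  ext z
  constructor
  · rintro ⟨⟨h1, -⟩, h3⟩
    exact ⟨h1, h3⟩
  · rintro ⟨h1, h3⟩
    have h4 : f z = f x := h3
    refine ⟨⟨h1, ?_⟩, h3⟩
    change rk (A ∩ f ⁻¹' {f z}) = rk (A ∩ f ⁻¹' {f x})
    rw [h4]

end Pool.Agent.A1C
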