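import Pool.Agent.A1C.DD
import Pool.Agent.A1C.RE2

/-!
# GA1: definable subgroups, ranks and connectedness

`Conn H`: `H` is definable and has no proper definable subgroup of finite index.
`relIndex_ne_zero_of_rk`: otherwise there are infinitely many disjoint cosets of rank `rk K` in `H`.
-/

namespace Pool.Agent.A1C

universe u

variable {M : Type u} [Univ M] {Γ : Type u} [Group Γ] [DGrp M Γ]

open Filter

/-- connected definable subgroup -/
def Conn (H : Subgroup Γ) : Prop :=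
  Df (H : Set Γ) ∧ ∀ K : Subgroup Γ, K ≤ H → Df (K : Set Γ) → K.relIndex H ≠ 0 → K = H

theorem rk_smul (S : Set Γ) (hS : Df S) (g : Γ) : rk ((fun x => g * x) '' S) = rk S :=
  rk_injOn (by fun_prop) hS (fun _ _ _ _ h => mul_left_cancel h)

theorem rk_mul_right (S : Set Γ) (hS : Df S) (g : Γ) : rk ((fun x => x * g) '' S) = rk S :=
  rk_injOn (by fun_prop) hS (fun _ _ _ _ h => mul_right_cancel h)

theorem rk_cj (H : Subgroup Γ) (hH : Df (H : Set Γ)) (g : Γ) :
    rk (cj H g : Set Γ) = rk (H : Set Γ) := by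
  have h : (cj H g : Set Γ) = (fun y : Γ => g⁻¹ * y * g) '' (H : Set Γ) := by
    ext y
    rw [Set.mem_image]
    constructor
    · intro hy
      exact ⟨g * y * g⁻¹, hy, by group⟩
    · rintro ⟨z, hz, rfl⟩
      change g * (g⁻¹ * z * g) * g⁻¹ ∈ H
      have h2 : g * (g⁻¹ * z * g) * g⁻¹ = z := by group
      rw [h2]
      exact hz
  rw [h]
  refine rk_injOn (by fun_prop) hH ?_
  intro a _ b _ hab
  exact mul_left_cancel (mul_right_cancel hab)

theorem rk_eq_of_relIndex {H K : Subgroup Γ} (hH : Df (H : Set Γ)) (hK : Df (K : Set Γ))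
    (hKH : K ≤ H) (h : K.relIndex H ≠ 0) : rk (K : Set Γ) = rk (H : Set Γ) := by
  refine le_antisymm (rk_mono hK hH hKH) ?_
  have hfin : Finite (H ⧸ K.subgroupOf H) := Subgroup.index_ne_zero_iff_finite.mp h
  have hcov : (H : Set Γ) = ⋃ q ∈ (Set.univ : Set (H ⧸ K.subgroupOf H)),
      (fun x => ((q.out : H) : Γ) * x) '' (K : Set Γ) := by
    ext x
    simp only [Set.mem_univ, Set.iUnion_true, Set.mem_iUnion, Set.mem_image, SetLike.mem_coe]
    constructor
    · intro hx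
      refine ⟨((⟨x, hx⟩ : H) : H ⧸ K.subgroupOf H), _, ?_, mul_inv_cancel_left _ x⟩
      have h1 : (((⟨x, hx⟩ : H) : H ⧸ K.subgroupOf H).out : H ⧸ K.subgroupOf H) =
          ((⟨x, hx⟩ : H) : H ⧸ K.subgroupOf H) := Quotient.out_eq' _
      rw [QuotientGroup.eq, Subgroup.mem_subgroupOf] at h1
      exact h1
    · rintro ⟨q, y, hy, rfl⟩
      exact H.mul_mem q.out.2 (hKH hy)
  rw [hcov]
  exact rk_biUnion_le Set.finite_univ (fun q _ => df_smul hK _) (fun q _ => (rk_smul _ hK _).le)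

theorem relIndex_ne_zero_of_rk {H K : Subgroup Γ} (hH : Df (H : Set Γ)) (hK : Df (K : Set Γ))
    (hKH : K ≤ H) (h : rk (H : Set Γ) ≤ rk (K : Set Γ)) : K.relIndex H ≠ 0 := by
  intro h0
  have hinf : Infinite (H ⧸ K.subgroupOf H) := by
    by_contra hfin
    rw [not_infinite_iff_finite] at hfin
    exact (Subgroup.index_ne_zero_iff_finite.mpr hfin) h0
  have h1 : rk (K : Set Γ) + 1 ≤ rk (H : Set Γ) := by
    rw [rk_succ_le_iff hH ⟨1, H.one_mem⟩]
    refine ⟨fun i => (fun x => (((Infinite.natEmbedding (H ⧸ K.subgroupOf H) i).out : H) : Γ) * x) ''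
      (K : Set Γ), fun i => ⟨df_smul hK _, ⟨_, ⟨1, K.one_mem, rfl⟩⟩, ?_, (rk_smul _ hK _).ge⟩, ?_⟩
    · rintro _ ⟨y, hy, rfl⟩
      exact H.mul_mem (Subtype.coe_prop _) (hKH hy)
    · intro i j hij
      rw [Set.disjoint_left]
      rintro _ ⟨y, hy, rfl⟩ ⟨z, hz, hyz⟩
      refine hij ((Infinite.natEmbedding (H ⧸ K.subgroupOf H)).injective ?_)
      obtain ⟨a, ha⟩ : ∃ a, a = Infinite.natEmbedding (H ⧸ K.subgroupOf H) i := ⟨_, rfl⟩
      obtain ⟨b, hb⟩ : ∃ b, b = Infinite.natEmbedding (H ⧸ K.subgroupOf H) j := ⟨_, rfl⟩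
      rw [← ha, ← hb] at hyz ⊢
      have h2 : (a.out : H ⧸ K.subgroupOf H) = (b.out : H ⧸ K.subgroupOf H) := by
        rw [QuotientGroup.eq, Subgroup.mem_subgroupOf]
        have h3 : ((a.out : H) : Γ)⁻¹ * ((b.out : H) : Γ) = y * z⁻¹ := by
          simp only at hyz
          rw [inv_mul_eq_iff_eq_mul, ← mul_assoc, ← hyz, mul_assoc, mul_inv_cancel, mul_one]
        change ((a.out : H) : Γ)⁻¹ * ((b.out : H) : Γ) ∈ K
        rw [h3]
        exact K.mul_mem hy (K.inv_mem hz)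
      exact (QuotientGroup.out_eq' a).symm.trans (h2.trans (QuotientGroup.out_eq' b))
  omega

end Pool.Agent.A1C
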