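import Pool.Agent.A1C.GA1

/-!
# GA2: definable subgroups, ranks and connectedness

`Conn H`: `H` is definable and has no proper definable subgroup of finite index.
`rk_lt_of_index`: infinitely many disjoint cosets of rank `rk K` in `H`. `dcc`: the ranks stabilise, then all indices are finite and
bounded by `exists_deg_bound` (cosets), so they stabilise too.
`conn_iff_irr`: (<=) a proper subgroup of finite index has at least two disjoint cosets of full rank.
(=>) `exists_irr_decomp` for `H` gives pieces `P i`. `H` acts by left translation on the pieces up to small sets; the stabiliser of a piece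
(`{h | ¬ Small (h P i ∩ P i) H}`, definable by `DfP.rk_lt` etc.) is a definable subgroup of finite index, so it is `H`. If there were two pieces `P 0, P 1`: consider
`{(g,h) | h ∈ P 1, g h ∈ P 0}` in `H × P 1`: for every `g` the fibre is small in `P 1` (as `g P 1` is `P 1` up to small), for every `h` the fibre `P 0 h⁻¹` has
rank `rk H`: contradiction by `rk_rel_le` and `rk_rel_fst`. (If `H` is finite: `H = 1`.)
-/

namespace Pool.Agent.A1C

universe u

variable {M : Type u} [Univ M] {Γ : Type u} [Group Γ] [DGrp M Γ]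

open Filter

open Classical in
/-- the degree of a definable subgroup -/
private noncomputable def dg51 (H : Subgroup Γ) : ℕ :=
  if h : Df (H : Set Γ) then Nat.find (exists_deg_bound h ⟨1, H.one_mem⟩) else 0

/-- the measure of a definable subgroup: rank and degree -/
private noncomputable def ms51 (H : Subgroup Γ) : ℕ ×ₗ ℕ := toLex (rk (H : Set Γ), dg51 H)

private theorem ms_lt51 {H K : Subgroup Γ} (hH : Df (H : Set Γ)) (hK : Df (K : Set Γ))
    (h : K < H) : ms51 K < ms51 H := by
  classical
  have hle : K ≤ H := h.le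
  have hr : rk (K : Set Γ) ≤ rk (H : Set Γ) := rk_mono hK hH hle
  unfold ms51
  rw [Prod.Lex.toLex_lt_toLex]
  rcases lt_or_eq_of_le hr with h1 | h1
  · exact Or.inl h1
  · refine Or.inr ⟨h1, ?_⟩
    show dg51 K < dg51 H
    have hbH := exists_deg_bound hH ⟨1, H.one_mem⟩
    have hbK := exists_deg_bound hK ⟨1, K.one_mem⟩
    have eH : dg51 H = Nat.find hbH := by
      unfold dg51
      rw [dif_pos hH]
    have eK : dg51 K = Nat.find hbK := by
      unfold dg51
      rw [dif_pos hK]
    rw [eH, eK]
    obtain ⟨g, hgH, hgK⟩ := SetLike.exists_of_lt h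
    have hsp := Nat.find_spec hbH
    have key : ∀ (n : ℕ) (B : Fin n → Set Γ),
        (∀ i, Df (B i) ∧ (B i).Nonempty ∧ B i ⊆ (K : Set Γ) ∧ rk (B i) = rk (K : Set Γ)) →
        (∀ i j, i ≠ j → Disjoint (B i) (B j)) → n + 1 ≤ Nat.find hbH := by
      intro n B hB hd
      have hdis : ∀ i, Disjoint ((fun x => g * x) '' (K : Set Γ)) (B i) := by
        intro i
        rw [Set.disjoint_left]
        rintro x ⟨k, hk, rfl⟩ hx
        have h2 : g * k ∈ K := (hB i).2.2.1 hx
        exact hgK ((K.mul_mem_cancel_right hk).1 h2)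
      refine hsp (n + 1) (Fin.cons ((fun x => g * x) '' (K : Set Γ)) B) ?_ ?_
      · intro i
        refine Fin.cases ?_ (fun j => ?_) i
        · rw [Fin.cons_zero]
          refine ⟨df_smul hK g, ⟨g * 1, 1, K.one_mem, rfl⟩, ?_, ?_⟩
          · rintro x ⟨k, hk, rfl⟩
            exact H.mul_mem hgH (hle hk)
          · rw [rk_smul _ hK g, h1]
        · rw [Fin.cons_succ]
          obtain ⟨a1, a2, a3, a4⟩ := hB j
          exact ⟨a1, a2, a3.trans hle, a4.trans h1⟩
      · intro i j
        refine Fin.cases ?_ (fun i' => ?_) i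
        · refine Fin.cases ?_ (fun j' => ?_) j
          · intro h2
            exact absurd rfl h2
          · intro _
            rw [Fin.cons_zero, Fin.cons_succ]
            exact hdis j'
        · refine Fin.cases ?_ (fun j' => ?_) j
          · intro _
            rw [Fin.cons_zero, Fin.cons_succ]
            exact (hdis i').symm
          · intro h2
            rw [Fin.cons_succ, Fin.cons_succ]
            exact hd i' j' (fun h3 => h2 (by rw [h3]))
    have h1' : 1 ≤ Nat.find hbH := by
      have := key 0 (fun i => i.elim0) (fun i => i.elim0) (fun i => i.elim0)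
      omega
    have h2 : Nat.find hbK ≤ Nat.find hbH - 1 := by
      refine Nat.find_min' hbK ?_
      intro n B hB hd
      have := key n B hB hd
      omega
    omega

private theorem exists_minimal51 (P : Subgroup Γ → Prop) (hP : ∀ H, P H → Df (H : Set Γ)) :
    ∀ (m : ℕ ×ₗ ℕ) (H : Subgroup Γ), P H → ms51 H = m →
      ∃ K ≤ H, P K ∧ ∀ L, P L → L ≤ K → L = K := by
  intro m
  induction m using WellFoundedLT.induction with
  | ind m ih =>
    intro H hH hm
    by_cases h : ∀ L, P L → L ≤ H → L = H
    · exact ⟨H, le_rfl, hH, h⟩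
    · push Not at h
      obtain ⟨L, hL, hLH, hne⟩ := h
      obtain ⟨K, hKL, hK, hmin⟩ := ih (ms51 L)
        (hm ▸ ms_lt51 (hP H hH) (hP L hL) (lt_of_le_of_ne hLH hne)) L hL rfl
      exact ⟨K, hKL.trans hLH, hK, hmin⟩

theorem dcc (H : ℕ → Subgroup Γ) (hH : ∀ n, Df (H n : Set Γ)) (hanti : Antitone H) :
    ∃ n, ∀ m, n ≤ m → H m = H n := by
  obtain ⟨K, -, ⟨n, hn⟩, hmin⟩ := exists_minimal51 (fun L => ∃ n, L = H n)
    (fun L hL => by
      obtain ⟨n, rfl⟩ := hL
      exact hH n) _ (H 0) ⟨0, rfl⟩ rfl
  refine ⟨n, fun m hm => ?_⟩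
  rw [← hn]
  exact hmin (H m) ⟨m, rfl⟩ (by rw [hn]; exact hanti hm)

/-- minimal elements of nonempty classes of definable subgroups -/
theorem exists_minimal (P : Subgroup Γ → Prop) (hP : ∀ H, P H → Df (H : Set Γ)) {H : Subgroup Γ}
    (hH : P H) : ∃ K ≤ H, P K ∧ ∀ L, P L → L ≤ K → L = K := by
  exact exists_minimal51 P hP _ H hH rfl

/-- intersections of definable subgroups are finite intersections -/
theorem df_sInf (S : Set (Subgroup Γ)) (hS : ∀ H ∈ S, Df (H : Set Γ)) :
    Df ((sInf S : Subgroup Γ) : Set Γ) ∧ ∃ T ⊆ S, T.Finite ∧ sInf T = sInf S := by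
  obtain ⟨K, -, ⟨T, hTS, hTf, hTK⟩, hmin⟩ := exists_minimal
    (fun K : Subgroup Γ => ∃ T ⊆ S, T.Finite ∧ sInf T = K)
    (fun K hK => by
      obtain ⟨T, hTS, hTf, rfl⟩ := hK
      rw [Subgroup.coe_sInf]
      exact Df.biInter hTf fun L hL => hS L (hTS hL))
    (H := ⊤) ⟨∅, Set.empty_subset _, Set.finite_empty, sInf_empty⟩
  have h1 : ∀ L ∈ S, K ≤ L := by
    intro L hL
    have h2 := hmin (sInf (insert L T)) ⟨insert L T, Set.insert_subset hL hTS,
      hTf.insert L, rfl⟩ (by
        rw [← hTK]
        exact sInf_le_sInf (Set.subset_insert L T))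
    rw [← h2]
    exact sInf_le (Set.mem_insert L T)
  have h3 : sInf T = sInf S := by
    refine le_antisymm ?_ (sInf_le_sInf hTS)
    rw [hTK]
    exact le_sInf h1
  refine ⟨?_, T, hTS, hTf, h3⟩
  rw [← h3, Subgroup.coe_sInf]
  exact Df.biInter hTf fun L hL => hS L (hTS hL)

end Pool.Agent.A1C
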