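import Pool.Agent.A1C.GA2

/-!
# GA3: definable subgroups, ranks and connectedness

`Conn H`: `H` is definable and has no proper definable subgroup of finite index.
`rk_lt_of_index`: infinitely many disjoint cosets of rank `rk K` in `H`. `dcc`: the ranks stabilise, then all indices are finite and
bounded by `exists_deg_bound` (cosets), so they stabilise too.
`conn_iff_irr`: (<=) a proper subgroup of finite index has at least two disjoint cosets of full rank.
(=>) `exists_irr_decomp` for `H` gives pieces `P i`. `H` acts by left translation on the pieces up to small sets; the stabiliser of a piece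
(`{h | ¬ Small (h P i ∩ P i) H}`, definable by `DfP.rk_lt` etc.) is a definable subgroup of finite index, so it is `H`. If there were two pieces `P 0, P 1`: consider
`{(g,h) | h ∈ P 1, g h ∈ P 0}` in `H × P 1`: for every `g` the fibre is small in `P 1` (as `g P 1` is `P 1` up to small), for every `h` the fibre `P 0 h⁻¹` has
rank `rk H`: contradiction by `rk_rel_le` and `rk_rel_fst`. (If `H` is finite: `H = 1`.)
-/

namespace Pool.Agent.A1C

universe u

variable {M : Type u} [Univ M] {Γ : Type u} [Group Γ] [DGrp M Γ]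

open Filter

private theorem key1 {P Q : Set Γ} (hP : Df P) (hr : rk Q = rk P) {p : Γ → Prop} (g : Γ)
    (h : ∀ᶠ y in gen Q, p y) : ∀ᶠ x in gen P, g * x ∈ Q → p (g * x) := by
  obtain ⟨B, hBQ, hB, hs, hT⟩ := h
  have hD : Df ((fun x => g⁻¹ * x) '' B) := df_smul hB _
  refine ev_of_small (B := (fun x => g⁻¹ * x) '' B ∩ P) (hD.inter hP) Set.inter_subset_right
    ?_ ?_
  · have hs1 : Small ((fun x => g⁻¹ * x) '' B) P := by
      rcases hs with hs | hs
      · left
        rw [hs, Set.image_empty]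
      · right
        rw [rk_smul B hB, ← hr]
        exact hs
    exact small_mono (hD.inter hP) hD Set.inter_subset_left hs1
  · intro x hxP hxB hgx
    refine hT ⟨hgx, fun hb => hxB ⟨⟨g * x, hb, ?_⟩, hxP⟩⟩
    simp

private theorem key2 {P Q : Set Γ} (hP : Irr P) (hQ : Irr Q) (hr : rk Q = rk P) (g : Γ)
    (h : ∀ᶠ x in gen P, g * x ∈ Q) : ∀ᶠ y in gen Q, g⁻¹ * y ∈ P := by
  have hp : DfP fun y : Γ => g⁻¹ * y ∈ P := DfP.mem hP.df (by fun_prop)
  rcases hQ.ev_or hp with h1 | h1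
  · exact h1
  · exfalso
    obtain ⟨x, hx, h2, h3⟩ := ev_exists hP.ne (h.and (key1 hP.df hr g h1))
    apply h3 h2
    simpa using hx

private def stab (H : Subgroup Γ) {P : Set Γ} (hP : Irr P) : Subgroup Γ where
  carrier := {g | g ∈ H ∧ ∀ᶠ x in gen P, g * x ∈ P}
  mul_mem' := by
    rintro a b ⟨haH, ha⟩ ⟨hbH, hb⟩
    refine ⟨H.mul_mem haH hbH, ?_⟩
    filter_upwards [hb, key1 hP.df rfl b ha] with x h1 h2
    rw [mul_assoc]
    exact h2 h1
  one_mem' := by
    refine ⟨H.one_mem, ?_⟩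
    filter_upwards [ev_mem P] with x hx
    rw [one_mul]
    exact hx
  inv_mem' := by
    rintro a ⟨haH, ha⟩
    exact ⟨H.inv_mem haH, key2 hP hP rfl a ha⟩

private theorem df_stab {H : Subgroup Γ} (hH : Df (H : Set Γ)) {P : Set Γ} (hP : Irr P) :
    Df (stab H hP : Set Γ) := by
  have h1 : DfP fun g : Γ => ∀ᶠ x in gen {x | x ∈ P}, g * x ∈ P := by
    refine DfP.ev (q := fun _ x => x ∈ P) (p := fun g x => g * x ∈ P) ?_ ?_
    · exact DfP.mem hP.df DfFun.snd
    · exact DfP.mem hP.df (by fun_prop)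
  exact DfP.and (p := fun g => g ∈ H) hH h1

private theorem stab_index {H : Subgroup Γ} (hH : Df (H : Set Γ)) {P : Set Γ} (hP : Irr P)
    (hPH : P ⊆ H) (hr : rk P = rk (H : Set Γ)) : (stab H hP).relIndex H ≠ 0 := by
  obtain ⟨n, Q, hn, hQ, hQd, hQu⟩ := exists_irr_decomp hH ⟨1, H.one_mem⟩
  have hi : ∀ g : H, ∃ i, ∀ᶠ x in gen P, (g : Γ) * x ∈ Q i := by
    intro g
    obtain ⟨i, _, hi⟩ := hP.ev_of_finite_cases (I := (Set.univ : Set (Fin n))) Set.finite_univ
      (p := fun i x => (g : Γ) * x ∈ Q i)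
      (fun i _ => DfP.mem (hQ i).1.df (by fun_prop)) (by
        filter_upwards [ev_mem P] with x hx
        have h1 : (g : Γ) * x ∈ (H : Set Γ) := H.mul_mem g.2 (hPH hx)
        rw [hQu, Set.mem_iUnion] at h1
        obtain ⟨i, hi⟩ := h1
        exact ⟨i, Set.mem_univ _, hi⟩)
    exact ⟨i, hi⟩
  choose i hi using hi
  have hkey : ∀ g g' : H, i g = i g' → ((g' : Γ)⁻¹ * (g : Γ)) ∈ stab H hP := by
    intro g g' hgg
    refine ⟨H.mul_mem (H.inv_mem g'.2) g.2, ?_⟩
    have h1 := hi g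
    have h2 := hi g'
    rw [← hgg] at h2
    have hrr : rk (Q (i g)) = rk P := by rw [(hQ _).2.2, hr]
    have h3 := key2 hP (hQ (i g)).1 hrr _ h2
    filter_upwards [h1, key1 hP.df hrr g h3] with x h4 h5
    rw [mul_assoc]
    exact h5 h4
  have hinj : Function.Injective fun q : H ⧸ (stab H hP).subgroupOf H => i q.out := by
    intro q q' hqq
    have h1 := hkey _ _ hqq
    have h2 : (q'.out : H ⧸ (stab H hP).subgroupOf H) = (q.out : H ⧸ (stab H hP).subgroupOf H) := by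
      rw [QuotientGroup.eq, Subgroup.mem_subgroupOf]
      exact h1
    exact ((QuotientGroup.out_eq' q').symm.trans (h2.trans (QuotientGroup.out_eq' q))).symm
  have hfin : Finite (H ⧸ (stab H hP).subgroupOf H) := Finite.of_injective _ hinj
  exact Subgroup.index_ne_zero_iff_finite.mpr hfin

private theorem compl_small {H : Subgroup Γ} (hH : Df (H : Set Γ)) {P : Set Γ} (hP : Irr P)
    (hPH : P ⊆ H) (hr : rk P = rk (H : Set Γ)) (hst : ∀ g ∈ H, ∀ᶠ x in gen P, g * x ∈ P) :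
    Small ((H : Set Γ) \ P) H := by
  by_contra hns
  have hQ : Df ((H : Set Γ) \ P) := hH.diff hP.df
  set Q : Set Γ := (H : Set Γ) \ P with hQdef
  have hQne : Q.Nonempty := by
    rw [Set.nonempty_iff_ne_empty]
    exact fun h => hns (Or.inl h)
  have hQr : rk Q = rk (H : Set Γ) := by
    refine le_antisymm (rk_mono hQ hH Set.sdiff_subset) ?_
    exact not_lt.mp fun h => hns (Or.inr h)
  have hW : Df {z : Γ × Γ | z.1 ∈ H ∧ z.2 ∈ P ∧ z.1 * z.2 ∈ Q} :=
    DfP.and (DfP.mem (S := (H : Set Γ)) hH DfFun.fst)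
      (DfP.and (DfP.mem hP.df DfFun.snd) (DfP.mem hQ (by fun_prop)))
  obtain ⟨x0, hx0⟩ := hP.ne
  obtain ⟨y0, hy0⟩ := hQne
  have hW0 : (y0 * x0⁻¹, x0) ∈ {z : Γ × Γ | z.1 ∈ H ∧ z.2 ∈ P ∧ z.1 * z.2 ∈ Q} := by
    refine ⟨H.mul_mem hy0.1 (H.inv_mem (hPH hx0)), hx0, ?_⟩
    have h1 : y0 * x0⁻¹ * x0 = y0 := by group
    change y0 * x0⁻¹ * x0 ∈ Q
    rw [h1]
    exact hy0
  have h1 : rk {z : Γ × Γ | z.1 ∈ H ∧ z.2 ∈ P ∧ z.1 * z.2 ∈ Q} =
      rk {x | ∃ g, (g, x) ∈ {z : Γ × Γ | z.1 ∈ H ∧ z.2 ∈ P ∧ z.1 * z.2 ∈ Q}} +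
        rk (H : Set Γ) := by
    refine rk_rel_snd hW ⟨_, hW0⟩ ?_
    rintro x ⟨g0, _, hx, _⟩
    have h2 : {g | (g, x) ∈ {z : Γ × Γ | z.1 ∈ H ∧ z.2 ∈ P ∧ z.1 * z.2 ∈ Q}} =
        (fun y => y * x⁻¹) '' Q := by
      ext g
      constructor
      · rintro ⟨_, _, hg⟩
        exact ⟨g * x, hg, by group⟩
      · rintro ⟨y, hy, rfl⟩
        refine ⟨H.mul_mem hy.1 (H.inv_mem (hPH hx)), hx, ?_⟩
        change y * x⁻¹ * x ∈ Q
        have h3 : y * x⁻¹ * x = y := by group
        rw [h3]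
        exact hy
    rw [h2, rk_mul_right Q hQ, hQr]
  have h2 : {x | ∃ g, (g, x) ∈ {z : Γ × Γ | z.1 ∈ H ∧ z.2 ∈ P ∧ z.1 * z.2 ∈ Q}} = P := by
    ext x
    constructor
    · rintro ⟨g, _, hx, _⟩
      exact hx
    · intro hx
      refine ⟨y0 * x⁻¹, H.mul_mem hy0.1 (H.inv_mem (hPH hx)), hx, ?_⟩
      change y0 * x⁻¹ * x ∈ Q
      have h3 : y0 * x⁻¹ * x = y0 := by group
      rw [h3]
      exact hy0
  rw [h2] at h1
  have hfib : ∀ g ∈ H, Small {x | x ∈ P ∧ g * x ∈ Q} P := by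
    intro g hg
    have hd : DfP fun x : Γ => g * x ∈ P := DfP.mem hP.df (by fun_prop)
    refine small_mono ?_ (hP.df.inter (DfP.not hd)) ?_ ((ev_iff hP.df hd).mp (hst g hg))
    · exact DfP.and (p := fun x => x ∈ P) hP.df (DfP.mem hQ (by fun_prop))
    · rintro x ⟨hx1, hx2⟩
      exact ⟨hx1, hx2.2⟩
  rcases Nat.eq_zero_or_pos (rk P) with h0 | hpos
  · rcases hfib _ hW0.1 with h3 | h3
    · have : x0 ∈ {x | x ∈ P ∧ (y0 * x0⁻¹) * x ∈ Q} := ⟨hW0.2.1, hW0.2.2⟩
      rw [h3] at this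
      exact this
    · rw [h0] at h3
      exact absurd h3 (Nat.not_lt_zero _)
  · have h4 : rk {z : Γ × Γ | z.1 ∈ H ∧ z.2 ∈ P ∧ z.1 * z.2 ∈ Q} ≤
        rk {g | ∃ x, (g, x) ∈ {z : Γ × Γ | z.1 ∈ H ∧ z.2 ∈ P ∧ z.1 * z.2 ∈ Q}} +
          (rk P - 1) := by
      refine rk_rel_le hW ?_
      rintro g ⟨x, hg, _⟩
      have h5 : {x | (g, x) ∈ {z : Γ × Γ | z.1 ∈ H ∧ z.2 ∈ P ∧ z.1 * z.2 ∈ Q}} =
          {x | x ∈ P ∧ g * x ∈ Q} := by
        ext x
        exact ⟨fun h => h.2, fun h => ⟨hg, h⟩⟩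
      rw [h5]
      rcases hfib g hg with h6 | h6
      · rw [h6, rk_empty]
        exact Nat.zero_le _
      · omega
    have h5 : rk {g | ∃ x, (g, x) ∈ {z : Γ × Γ | z.1 ∈ H ∧ z.2 ∈ P ∧ z.1 * z.2 ∈ Q}} ≤
        rk (H : Set Γ) := by
      refine rk_mono (DfP.ex (p := fun g x => g ∈ H ∧ x ∈ P ∧ g * x ∈ Q) hW) hH ?_
      rintro g ⟨x, hg, _⟩
      exact hg
    omega

theorem conn_iff_irr {H : Subgroup Γ} (hH : Df (H : Set Γ)) : Conn H ↔ Irr (H : Set Γ) := by
  constructor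
  · rintro ⟨_, hc⟩
    obtain ⟨P, hPH, hP, hr⟩ := exists_irr_subset hH ⟨1, H.one_mem⟩
    have hst : stab H hP = H :=
      hc _ (fun g hg => hg.1) (df_stab hH hP) (stab_index hH hP hPH hr)
    have hsm := compl_small hH hP hPH hr (fun g hg => by
      rw [← hst] at hg
      exact hg.2)
    refine ⟨hH, ⟨1, H.one_mem⟩, ?_⟩
    intro B hBH hB
    have hQ : Df ((H : Set Γ) \ P) := hH.diff hP.df
    have hBP : Df (B ∩ P) := hB.inter hP.df
    have hS : ∀ C : Set Γ, Small C P → Small C (H : Set Γ) := by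
      intro C hC
      unfold Small at hC ⊢
      rw [← hr]
      exact hC
    rcases hP.small_or (B ∩ P) Set.inter_subset_right hBP with h | h
    · left
      refine small_mono hB (hBP.union hQ) ?_ (small_union hBP hQ (hS _ h) hsm)
      intro x hx
      by_cases hxP : x ∈ P
      · exact Or.inl ⟨hx, hxP⟩
      · exact Or.inr ⟨hBH hx, hxP⟩
    · right
      have hPB : Df (P \ (B ∩ P)) := hP.df.diff hBP
      refine small_mono (hH.diff hB) (hPB.union hQ) ?_ (small_union hPB hQ (hS _ h) hsm)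
      rintro x ⟨hx, hxB⟩
      by_cases hxP : x ∈ P
      · exact Or.inl ⟨hxP, fun h => hxB h.1⟩
      · exact Or.inr ⟨hx, hxP⟩
  · intro hI
    refine ⟨hH, ?_⟩
    intro K hKH hK hidx
    by_contra hne
    obtain ⟨g, hgH, hgK⟩ : ∃ g ∈ H, g ∉ K := by
      by_contra hcon
      push Not at hcon
      exact hne (le_antisymm hKH hcon)
    have hr : rk (K : Set Γ) = rk (H : Set Γ) := rk_eq_of_relIndex hH hK hKH hidx
    rcases hI.small_or (K : Set Γ) hKH hK with h | h
    · rcases h with h | h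
      · have : (1 : Γ) ∈ (K : Set Γ) := K.one_mem
        rw [h] at this
        exact this
      · omega
    · have hsub : (fun x => g * x) '' (K : Set Γ) ⊆ (H : Set Γ) \ K := by
        rintro _ ⟨x, hx, rfl⟩
        refine ⟨H.mul_mem hgH (hKH hx), fun hgx => hgK ?_⟩
        have h1 : g = g * x * x⁻¹ := by group
        rw [h1]
        exact K.mul_mem hgx (K.inv_mem hx)
      have hd : Df ((fun x => g * x) '' (K : Set Γ)) := df_smul hK g
      rcases small_mono hd (hH.diff hK) hsub h with h1 | h1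
      · have : g * 1 ∈ (fun x => g * x) '' (K : Set Γ) := ⟨1, K.one_mem, rfl⟩
        rw [h1] at this
        exact this
      · rw [rk_smul _ hK] at h1
        omega

end Pool.Agent.A1C
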