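import Pool.Agent.A1C.GA3

/-!
# GA4: definable subgroups, ranks and connectedness

`Conn H`: `H` is definable and has no proper definable subgroup of finite index.
`rk_lt_of_index`: infinitely many disjoint cosets of rank `rk K` in `H`. `dcc`: the ranks stabilise, then all indices are finite and
bounded by `exists_deg_bound` (cosets), so they stabilise too.
`conn_iff_irr`: (<=) a proper subgroup of finite index has at least two disjoint cosets of full rank.
(=>) `exists_irr_decomp` for `H` gives pieces `P i`. `H` acts by left translation on the pieces up to small sets; the stabiliser of a piece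
(`{h | ¬ Small (h P i ∩ P i) H}`, definable by `DfP.rk_lt` etc.) is a definable subgroup of finite index, so it is `H`. If there were two pieces `P 0, P 1`: consider
`{(g,h) | h ∈ P 1, g h ∈ P 0}` in `H × P 1`: for every `g` the fibre is small in `P 1` (as `g P 1` is `P 1` up to small), for every `h` the fibre `P 0 h⁻¹` has
rank `rk H`: contradiction by `rk_rel_le` and `rk_rel_fst`. (If `H` is finite: `H = 1`.)
-/

namespace Pool.Agent.A1C

universe u

variable {M : Type u} [Univ M] {Γ : Type u} [Group Γ] [DGrp M Γ]

open Filter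

/-- the connected component -/
theorem exists_idc {H : Subgroup Γ} (hH : Df (H : Set Γ)) :
    ∃ K ≤ H, Conn K ∧ K.relIndex H ≠ 0 := by
  obtain ⟨K, hKH, ⟨_, hKd, hKi⟩, hmin⟩ := exists_minimal
    (fun K : Subgroup Γ => K ≤ H ∧ Df (K : Set Γ) ∧ K.relIndex H ≠ 0) (fun _ h => h.2.1)
    (H := H) ⟨le_rfl, hH, by rw [Subgroup.relIndex_self]; exact one_ne_zero⟩
  refine ⟨K, hKH, ⟨hKd, fun L hLK hLd hLi => ?_⟩, hKi⟩
  refine hmin L ⟨hLK.trans hKH, hLd, ?_⟩ hLK
  rw [← Subgroup.relIndex_mul_relIndex L K H hLK hKH]
  exact mul_ne_zero hLi hKi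

end Pool.Agent.A1C
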