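import Pool.Agent.A1C.GA4

/-!
# GB1: the connected component and generic elements of groups
-/

namespace Pool.Agent.A1C

universe u

variable {M : Type u} [Univ M] {Γ : Type u} [Group Γ] [DGrp M Γ]

open Filter

open Classical in
/-- the connected component (`⊥` if `H` is not definable) -/
noncomputable def idc (H : Subgroup Γ) : Subgroup Γ :=
  if hH : Df (H : Set Γ) then (exists_idc hH).choose else ⊥

private theorem cj_comap51 (H : Subgroup Γ) (g : Γ) :
    cj H g = H.comap (MulAut.conj g).toMonoidHom := by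
  ext x
  rfl

private theorem relIndex_cj51 (H K : Subgroup Γ) (g : Γ) :
    (cj H g).relIndex (cj K g) = H.relIndex K := by
  rw [cj_comap51, cj_comap51, Subgroup.relIndex_comap,
    Subgroup.map_comap_eq_self_of_surjective (MulAut.conj g).surjective]

private theorem cj_cj51 (H : Subgroup Γ) (g : Γ) : cj (cj H g) g⁻¹ = H := by
  ext x
  rw [mem_cj, mem_cj]
  have : g * (g⁻¹ * x * g⁻¹⁻¹) * g⁻¹ = x := by group
  rw [this]

private theorem cj_cj51' (H : Subgroup Γ) (g : Γ) : cj (cj H g⁻¹) g = H := by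
  have := cj_cj51 H g⁻¹
  rwa [inv_inv] at this

private theorem cj_mono51 {H K : Subgroup Γ} (h : H ≤ K) (g : Γ) : cj H g ≤ cj K g :=
  fun _ hx => h hx

private theorem conn_cj51 {H : Subgroup Γ} (hH : Conn H) (g : Γ) : Conn (cj H g) := by
  refine ⟨df_cj hH.1 g, fun L hL hLd hi => ?_⟩
  have h1 : cj L g⁻¹ ≤ H := by
    have := cj_mono51 hL g⁻¹
    rwa [cj_cj51] at this
  have h2 : (cj L g⁻¹).relIndex H ≠ 0 := by
    have h3 := relIndex_cj51 L (cj H g) g⁻¹
    rw [cj_cj51] at h3
    rw [h3]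
    exact hi
  have h4 := hH.2 (cj L g⁻¹) h1 (df_cj hLd g⁻¹) h2
  rw [← h4, cj_cj51']

theorem idc_le (H : Subgroup Γ) : idc H ≤ H := by
  unfold idc
  split_ifs with h
  · exact (exists_idc h).choose_spec.1
  · exact bot_le

theorem idc_conn {H : Subgroup Γ} (hH : Df (H : Set Γ)) : Conn (idc H) := by
  unfold idc
  rw [dif_pos hH]
  exact (exists_idc hH).choose_spec.2.1

theorem idc_index {H : Subgroup Γ} (hH : Df (H : Set Γ)) : (idc H).relIndex H ≠ 0 := by
  unfold idc
  rw [dif_pos hH]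
  exact (exists_idc hH).choose_spec.2.2

theorem idc_rk {H : Subgroup Γ} (hH : Df (H : Set Γ)) :
    rk (idc H : Set Γ) = rk (H : Set Γ) := by
  exact rk_eq_of_relIndex hH (idc_conn hH).1 (idc_le H) (idc_index hH)

/-- every connected subgroup of `H` is contained in `idc H` (`K ⊓ idc H` has finite index in `K`) -/
theorem le_idc {H K : Subgroup Γ} (hH : Df (H : Set Γ)) (hK : Conn K) (h : K ≤ H) :
    K ≤ idc H := by
  have h1 : (idc H ⊓ K).relIndex K ≠ 0 := by
    rw [Subgroup.inf_relIndex_right]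
    exact fun h0 => idc_index hH (Subgroup.relIndex_eq_zero_of_le_right h h0)
  have h2 := hK.2 (idc H ⊓ K) inf_le_right (df_inf (idc_conn hH).1 hK.1) h1
  rw [← h2]
  exact inf_le_left

/-- `idc H` is contained in every definable subgroup of finite index of `H` -/
theorem idc_le_of_index {H K : Subgroup Γ} (hH : Df (H : Set Γ)) (hK : Df (K : Set Γ)) (h : K ≤ H)
    (hi : K.relIndex H ≠ 0) : idc H ≤ K := by
  have h1 : (K ⊓ idc H).relIndex (idc H) ≠ 0 := by
    rw [Subgroup.inf_relIndex_right]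
    exact fun h0 => hi (Subgroup.relIndex_eq_zero_of_le_right (idc_le H) h0)
  have h2 := (idc_conn hH).2 (K ⊓ idc H) inf_le_right (df_inf hK (idc_conn hH).1) h1
  rw [← h2]
  exact inf_le_left

theorem idc_mono {H K : Subgroup Γ} (hH : Df (H : Set Γ)) (hK : Df (K : Set Γ)) (h : K ≤ H) :
    idc K ≤ idc H := by
  exact le_idc hH (idc_conn hK) ((idc_le K).trans h)

theorem idc_eq_of_index {H K : Subgroup Γ} (hH : Df (H : Set Γ)) (hK : Df (K : Set Γ))
    (h : K ≤ H) (hi : K.relIndex H ≠ 0) : idc K = idc H := by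
  exact le_antisymm (idc_mono hH hK h) (le_idc hK (idc_conn hH) (idc_le_of_index hH hK h hi))

theorem idc_cj {H : Subgroup Γ} (hH : Df (H : Set Γ)) (g : Γ) : idc (cj H g) = cj (idc H) g := by
  refine le_antisymm ?_ ?_
  · refine idc_le_of_index (df_cj hH g) (df_cj (idc_conn hH).1 g) (cj_mono51 (idc_le H) g) ?_
    rw [relIndex_cj51]
    exact idc_index hH
  · exact le_idc (df_cj hH g) (conn_cj51 (idc_conn hH) g) (cj_mono51 (idc_le H) g)

theorem conn_cj {H : Subgroup Γ} (hH : Conn H) (g : Γ) : Conn (cj H g) := by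
  exact conn_cj51 hH g

/-- elements normalising `H` normalise `idc H` -/
theorem idc_normal {H : Subgroup Γ} (hH : Df (H : Set Γ)) {g : Γ}
    (hg : ∀ x, x ∈ H ↔ g * x * g⁻¹ ∈ H) {x : Γ} (hx : x ∈ idc H) : g * x * g⁻¹ ∈ idc H := by
  have h1 : cj H g = H := by
    ext y
    rw [mem_cj]
    exact (hg y).symm
  have h2 := idc_cj hH g
  rw [h1] at h2
  have h3 : x ∈ cj (idc H) g := by
    rw [← h2]
    exact hx
  exact mem_cj.1 h3

end Pool.Agent.A1C
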