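import Pool.Agent.A1C.GB1

/-!
# GB2: the connected component and generic elements of groups
-/

namespace Pool.Agent.A1C

universe u

variable {M : Type u} [Univ M] {Γ : Type u} [Group Γ] [DGrp M Γ]

open Filter

/-- a definable subgroup of full rank of a connected group is everything -/
theorem Conn.eq_of_rk {H K : Subgroup Γ} (hH : Conn H) (hK : Df (K : Set Γ)) (h : K ≤ H)
    (hr : rk (H : Set Γ) ≤ rk (K : Set Γ)) : K = H := by
  exact hH.2 K h hK (relIndex_ne_zero_of_rk hH.1 hK h hr)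

/-- a definable subgroup containing the generic elements of a connected group -/
theorem Conn.le_of_ev {H K : Subgroup Γ} (hH : Conn H) (hK : Df (K : Set Γ))
    (h : ∀ᶠ x in gen (H : Set Γ), x ∈ K) : H ≤ K := by
  have h1 : rk {x | x ∈ (H : Set Γ) ∧ x ∈ K} = rk (H : Set Γ) := ev_rk hH.1 hK h
  have h2 : rk (H : Set Γ) ≤ rk ((H ⊓ K : Subgroup Γ) : Set Γ) := h1.symm.le
  have h3 := hH.eq_of_rk (df_inf hH.1 hK) inf_le_left h2
  exact inf_eq_left.1 h3

theorem Conn.pos {H : Subgroup Γ} (hH : Conn H) (hne : H ≠ ⊥) : 0 < rk (H : Set Γ) := by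
  by_contra h
  exact hne (hH.eq_of_rk df_bot bot_le (by omega)).symm

/-- translation invariance of genericity -/
theorem Conn.ev_mul_left {H : Subgroup Γ} (hH : Conn H) {h : Γ} (hh : h ∈ H) {p : Γ → Prop} :
    (∀ᶠ x in gen (H : Set Γ), p (h * x)) ↔ ∀ᶠ x in gen (H : Set Γ), p x := by
  have hf : DfFun (fun x : Γ => h * x) := DfFun.mul (DfFun.const h) DfFun.id
  have e : (fun x : Γ => h * x) '' (H : Set Γ) = (H : Set Γ) := by
    ext y
    constructor
    · rintro ⟨x, hx, rfl⟩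
      exact H.mul_mem hh hx
    · intro hy
      exact ⟨h⁻¹ * y, H.mul_mem (H.inv_mem hh) hy, mul_inv_cancel_left h y⟩
  have key := ev_inj_iff hf hH.1 ((mul_right_injective h).injOn) (p := p)
  rw [e] at key
  exact key.symm

theorem Conn.ev_mul_right {H : Subgroup Γ} (hH : Conn H) {h : Γ} (hh : h ∈ H) {p : Γ → Prop} :
    (∀ᶠ x in gen (H : Set Γ), p (x * h)) ↔ ∀ᶠ x in gen (H : Set Γ), p x := by
  have hf : DfFun (fun x : Γ => x * h) := DfFun.mul DfFun.id (DfFun.const h)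
  have e : (fun x : Γ => x * h) '' (H : Set Γ) = (H : Set Γ) := by
    ext y
    constructor
    · rintro ⟨x, hx, rfl⟩
      exact H.mul_mem hx hh
    · intro hy
      exact ⟨y * h⁻¹, H.mul_mem hy (H.inv_mem hh), inv_mul_cancel_right y h⟩
  have key := ev_inj_iff hf hH.1 ((mul_left_injective h).injOn) (p := p)
  rw [e] at key
  exact key.symm

theorem Conn.ev_inv {H : Subgroup Γ} (hH : Conn H) {p : Γ → Prop} :
    (∀ᶠ x in gen (H : Set Γ), p x⁻¹) ↔ ∀ᶠ x in gen (H : Set Γ), p x := by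
  have hf : DfFun (fun x : Γ => x⁻¹) := DfFun.inv DfFun.id
  have e : (fun x : Γ => x⁻¹) '' (H : Set Γ) = (H : Set Γ) := by
    ext y
    constructor
    · rintro ⟨x, hx, rfl⟩
      exact H.inv_mem hx
    · intro hy
      exact ⟨y⁻¹, H.inv_mem hy, inv_inv y⟩
  have key := ev_inj_iff hf hH.1 (inv_injective.injOn) (p := p)
  rw [e] at key
  exact key.symm

/-- `X X = H` for a generic subset -/
theorem Conn.exists_mul {H : Subgroup Γ} (hH : Conn H) {p : Γ → Prop}
    (hp : ∀ᶠ x in gen (H : Set Γ), p x) {h : Γ} (hh : h ∈ H) :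
    ∃ a ∈ H, ∃ b ∈ H, p a ∧ p b ∧ h = a * b := by
  have h1 : ∀ᶠ x in gen (H : Set Γ), p (x⁻¹ * h) :=
    (hH.ev_inv (p := fun x => p (x * h))).2 ((hH.ev_mul_right hh).2 hp)
  obtain ⟨a, ha, h2, h3⟩ := ev_exists ⟨1, H.one_mem⟩ (hp.and h1)
  exact ⟨a, ha, a⁻¹ * h, H.mul_mem (H.inv_mem ha) hh, h2, h3, (mul_inv_cancel_left a h).symm⟩

end Pool.Agent.A1C
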