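import Pool.Agent.A1C.GB2

/-!
# GB3: the connected component and generic elements of groups
-/

namespace Pool.Agent.A1C

universe u

variable {M : Type u} [Univ M] {Γ : Type u} [Group Γ] [DGrp M Γ]

open Filter

/-- finitely many conjugates under a connected group: centralised -/
theorem Conn.comm_of_finite {H : Subgroup Γ} (hH : Conn H) {x : Γ}
    (hfin : {y | ∃ h ∈ H, y = h⁻¹ * x * h}.Finite) {h : Γ} (hh : h ∈ H) : h * x = x * h := by
  have hK : H ⊓ cen x = H := by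
    refine hH.2 (H ⊓ cen x) inf_le_left (df_inf hH.1 (df_cen x)) ?_
    have : Finite {y | ∃ h ∈ H, y = h⁻¹ * x * h} := hfin
    let f : H → {y | ∃ h ∈ H, y = h⁻¹ * x * h} := fun h =>
      ⟨(h : Γ) * x * (h : Γ)⁻¹, (h : Γ)⁻¹, H.inv_mem h.2, by rw [inv_inv]⟩
    have hf : ∀ a b : H, f a = f b ↔ a⁻¹ * b ∈ (H ⊓ cen x).subgroupOf H := by
      intro a b
      rw [Subgroup.mem_subgroupOf, Subgroup.mem_inf, mem_cen]
      constructor
      · intro hab
        have h1 : (a : Γ) * x * (a : Γ)⁻¹ = (b : Γ) * x * (b : Γ)⁻¹ := congrArg Subtype.val hab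
        refine ⟨(a⁻¹ * b).2, ?_⟩
        have h2 : x * ((a : Γ)⁻¹ * (b : Γ)) = (a : Γ)⁻¹ * (b : Γ) * x := by
          calc x * ((a : Γ)⁻¹ * (b : Γ)) = (a : Γ)⁻¹ * ((a : Γ) * x * (a : Γ)⁻¹) * (b : Γ) := by
                group
            _ = (a : Γ)⁻¹ * ((b : Γ) * x * (b : Γ)⁻¹) * (b : Γ) := by rw [h1]
            _ = (a : Γ)⁻¹ * (b : Γ) * x := by group
        rw [Subgroup.coe_mul, Subgroup.coe_inv]
        exact h2.symm
      · rintro ⟨_, h2⟩
        rw [Subgroup.coe_mul, Subgroup.coe_inv] at h2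
        apply Subtype.ext
        change (a : Γ) * x * (a : Γ)⁻¹ = (b : Γ) * x * (b : Γ)⁻¹
        calc (a : Γ) * x * (a : Γ)⁻¹ = (a : Γ) * (x * ((a : Γ)⁻¹ * (b : Γ))) * (b : Γ)⁻¹ := by
              group
          _ = (a : Γ) * ((a : Γ)⁻¹ * (b : Γ) * x) * (b : Γ)⁻¹ := by rw [h2]
          _ = (b : Γ) * x * (b : Γ)⁻¹ := by group
    have hfinq : Finite (H ⧸ (H ⊓ cen x).subgroupOf H) := by
      refine Finite.of_injective (β := {y | ∃ h ∈ H, y = h⁻¹ * x * h})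
        (Quotient.lift f fun a b hab => (hf a b).2 (QuotientGroup.leftRel_apply.1 hab)) ?_
      intro a b
      refine Quotient.inductionOn₂ a b fun a b hab => ?_
      exact Quotient.sound (QuotientGroup.leftRel_apply.2 ((hf a b).1 hab))
    exact Subgroup.index_ne_zero_of_finite
  have h1 : h ∈ H ⊓ cen x := by
    rw [hK]
    exact hh
  exact mem_cen.1 h1.2

/-- a connected group centralises the finite sets which it normalises -/
theorem Conn.comm_of_normalizes_finite {H : Subgroup Γ} (hH : Conn H) {F : Set Γ} (hF : F.Finite)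
    (hn : ∀ h ∈ H, ∀ x ∈ F, h⁻¹ * x * h ∈ F) {h x : Γ} (hh : h ∈ H) (hx : x ∈ F) :
    h * x = x * h := by
  refine hH.comm_of_finite (hF.subset ?_) hh
  rintro y ⟨g, hg, rfl⟩
  exact hn g hg x hx

private theorem GB3_centralizer (S : Set Γ) :
    Subgroup.centralizer S = sInf ((fun x : Γ => cen x) '' S) := by
  ext g
  rw [Subgroup.mem_centralizer_iff, Subgroup.mem_sInf]
  constructor
  · rintro h _ ⟨x, hx, rfl⟩
    exact mem_cen.2 (h x hx).symm
  · intro h x hx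
    exact (mem_cen.1 (h _ ⟨x, hx, rfl⟩)).symm

/-- the centraliser of any set is definable -/
theorem df_centralizer (S : Set Γ) : Df ((Subgroup.centralizer S : Subgroup Γ) : Set Γ) := by
  rw [GB3_centralizer]
  refine (df_sInf _ ?_).1
  rintro _ ⟨x, _, rfl⟩
  exact df_cen x

include M in
theorem centralizer_eq_finite (S : Set Γ) :
    ∃ T ⊆ S, T.Finite ∧ Subgroup.centralizer T = Subgroup.centralizer S := by
  have h := (df_sInf ((fun x : Γ => cen x) '' S) (by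
    rintro _ ⟨x, _, rfl⟩
    exact df_cen x)).2
  obtain ⟨T, hTS, hT, he⟩ := Set.exists_subset_image_finite_and.1 h
  refine ⟨T, hTS, hT, ?_⟩
  rw [GB3_centralizer, GB3_centralizer, he]

/-- the union of all conjugates of a definable set `V`: the conjugacy map has fibres of rank at most `k` -/
theorem rk_union_conj {V : Set Γ} (hV : Df V) (hne : V.Nonempty) {k : ℕ}
    (h : ∀ v ∈ V, rk {g : Γ | g * v * g⁻¹ ∈ V} ≤ k) :
    rk (Set.univ : Set Γ) + rk V ≤ rk {y : Γ | ∃ g, ∃ v ∈ V, y = g⁻¹ * v * g} + k := by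
  have hf : DfFun (fun p : Γ × Γ => p.1⁻¹ * p.2 * p.1) := by
    fun_prop
  have hA : Df ((Set.univ : Set Γ) ×ˢ V) := Df.prod Df.univ hV
  have him : (fun p : Γ × Γ => p.1⁻¹ * p.2 * p.1) '' ((Set.univ : Set Γ) ×ˢ V) =
      {y : Γ | ∃ g, ∃ v ∈ V, y = g⁻¹ * v * g} := by
    ext y
    constructor
    · rintro ⟨⟨g, v⟩, ⟨_, hv⟩, rfl⟩
      exact ⟨g, v, hv, rfl⟩
    · rintro ⟨g, v, hv, rfl⟩
      exact ⟨(g, v), ⟨Set.mem_univ _, hv⟩, rfl⟩
  rw [← rk_prod Df.univ hV Set.univ_nonempty hne, ← him]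
  refine rk_le_image_add hf hA ?_
  rintro _ ⟨⟨g₀, v₀⟩, ⟨_, hv₀⟩, rfl⟩
  have hv₀' : v₀ ∈ V := hv₀
  have hD : Df {g : Γ | g * v₀ * g⁻¹ ∈ V} := by
    refine DfP.mem hV ?_
    fun_prop
  have hfib : ((Set.univ : Set Γ) ×ˢ V) ∩ (fun p : Γ × Γ => p.1⁻¹ * p.2 * p.1) ⁻¹'
      {g₀⁻¹ * v₀ * g₀} = (fun g : Γ => (g * g₀, g * v₀ * g⁻¹)) '' {g : Γ | g * v₀ * g⁻¹ ∈ V} := by
    ext ⟨g, v⟩
    constructor
    · rintro ⟨⟨_, hv⟩, he⟩
      have he' : g⁻¹ * v * g = g₀⁻¹ * v₀ * g₀ := he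
      have hv' : v ∈ V := hv
      have e : v = g * g₀⁻¹ * v₀ * (g * g₀⁻¹)⁻¹ := by
        calc v = g * (g⁻¹ * v * g) * g⁻¹ := by group
          _ = g * (g₀⁻¹ * v₀ * g₀) * g⁻¹ := by rw [he']
          _ = _ := by group
      refine ⟨g * g₀⁻¹, ?_, ?_⟩
      · change g * g₀⁻¹ * v₀ * (g * g₀⁻¹)⁻¹ ∈ V
        rw [← e]
        exact hv'
      · refine Prod.ext ?_ e.symm
        change g * g₀⁻¹ * g₀ = g
        group
    · rintro ⟨g', hg', he⟩
      obtain ⟨rfl, rfl⟩ := Prod.ext_iff.1 he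
      refine ⟨⟨Set.mem_univ _, hg'⟩, ?_⟩
      change (g' * g₀)⁻¹ * (g' * v₀ * g'⁻¹) * (g' * g₀) = g₀⁻¹ * v₀ * g₀
      group
  rw [hfib]
  refine le_trans (rk_image_le ?_ hD) (h v₀ hv₀')
  fun_prop

end Pool.Agent.A1C
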