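import Pool.Agent.A1C.GB3

/-!
# GC1: the definable hull, squares in definable abelian groups

`hull x` is the smallest definable subgroup containing `x` (`df_sInf`); it is contained in `zeta x`, hence abelian.
`index_sq_le`: proof (R5) of the paper: the decreasing sequence `{a ^ (2 ^ n)}` stabilises at `B`; `A = B * A[2^n]`; squaring acts on the finite
group `A / B`, the index of its image is the order of its kernel, and the kernel is the image of `A[2]`.
(Possible in elementary terms: choose representatives.)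
-/

namespace Pool.Agent.A1C

universe u

variable {M : Type u} [Univ M] {Γ : Type u} [Group Γ] [DGrp M Γ]

open Filter

/-- the definable hull -/
def hull (x : Γ) : Subgroup Γ := sInf {H | Df (H : Set Γ) ∧ x ∈ H}

theorem df_hull (x : Γ) : Df (hull x : Set Γ) := by
  unfold hull
  have h := df_sInf {H : Subgroup Γ | Df (H : Set Γ) ∧ x ∈ H} (fun H h => by
    rw [Set.mem_ofPred_eq] at h
    exact h.1)
  exact h.1

theorem self_mem_hull (x : Γ) : x ∈ hull x := by
  unfold hull
  rw [Subgroup.mem_sInf]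
  intro H h
  rw [Set.mem_ofPred_eq] at h
  exact h.2

theorem hull_le {x : Γ} {H : Subgroup Γ} (hH : Df (H : Set Γ)) (h : x ∈ H) : hull x ≤ H := by
  unfold hull
  refine sInf_le ?_
  rw [Set.mem_ofPred_eq]
  exact ⟨hH, h⟩

theorem hull_mono {x y : Γ} (h : y ∈ hull x) : hull y ≤ hull x := by
  exact hull_le (df_hull x) h

theorem hull_comm {x y z : Γ} (hy : y ∈ hull x) (hz : z ∈ hull x) : y * z = z * y := by
  have h : hull x ≤ zeta x := hull_le (df_zeta x) (self_mem_zeta x)
  exact zeta_comm (h hy) (h hz)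

/-- everything commuting with `x` commutes with `hull x` -/
theorem hull_comm_of_comm {x y z : Γ} (hy : y ∈ hull x) (hz : z * x = x * z) : z * y = y * z := by
  have h : hull x ≤ zeta x := hull_le (df_zeta x) (self_mem_zeta x)
  exact h hy z hz

theorem hull_cj (x g : Γ) : hull (g⁻¹ * x * g) = cj (hull x) g := by
  refine le_antisymm (hull_le (df_cj (df_hull x) g) ?_) ?_
  · rw [mem_cj]
    have e : g * (g⁻¹ * x * g) * g⁻¹ = x := by group
    rw [e]
    exact self_mem_hull x
  · intro y hy
    rw [mem_cj] at hy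
    have h1 : hull x ≤ cj (hull (g⁻¹ * x * g)) g⁻¹ := by
      refine hull_le (df_cj (df_hull _) _) ?_
      rw [mem_cj, inv_inv]
      exact self_mem_hull _
    have h2 := h1 hy
    rw [mem_cj] at h2
    have e : g⁻¹ * (g * y * g⁻¹) * g⁻¹⁻¹ = y := by group
    rwa [e] at h2

/-- an element inverting `x` inverts `hull x` -/
theorem hull_inv {x t y : Γ} (h : t⁻¹ * x * t = x⁻¹) (hy : y ∈ hull x) : t⁻¹ * y * t = y⁻¹ := by
  let K : Subgroup Γ :=
    { carrier := {y | y ∈ hull x ∧ t⁻¹ * y * t = y⁻¹}
      mul_mem' := by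
        rintro a b ⟨ha, ha'⟩ ⟨hb, hb'⟩
        refine ⟨(hull x).mul_mem ha hb, ?_⟩
        have e : t⁻¹ * (a * b) * t = (t⁻¹ * a * t) * (t⁻¹ * b * t) := by group
        rw [e, ha', hb', ← mul_inv_rev, hull_comm ha hb]
      one_mem' := ⟨(hull x).one_mem, by simp⟩
      inv_mem' := by
        rintro a ⟨ha, ha'⟩
        refine ⟨(hull x).inv_mem ha, ?_⟩
        have e : t⁻¹ * a⁻¹ * t = (t⁻¹ * a * t)⁻¹ := by group
        rw [e, ha'] }
  have hK : Df (K : Set Γ) := by
    have h1 : Df ((hull x : Set Γ) ∩ {y : Γ | t⁻¹ * y * t = y⁻¹}) :=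
      (df_hull x).inter (DfFun.eq (f := fun y : Γ => t⁻¹ * y * t) (g := fun y : Γ => y⁻¹)
        (by fun_prop) (by fun_prop))
    exact h1
  exact (hull_le hK ⟨self_mem_hull x, h⟩ hy).2

end Pool.Agent.A1C
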