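import Pool.Agent.A1C.GC1

/-!
# GC2: the definable hull, squares in definable abelian groups

`hull x` is the smallest definable subgroup containing `x` (`df_sInf`); it is contained in `zeta x`, hence abelian.
`index_sq_le`: proof (R5) of the paper: the decreasing sequence `{a ^ (2 ^ n)}` stabilises at `B`; `A = B * A[2^n]`; squaring acts on the finite
group `A / B`, the index of its image is the order of its kernel, and the kernel is the image of `A[2]`.
(Possible in elementary terms: choose representatives.)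
-/

namespace Pool.Agent.A1C

universe u

variable {M : Type u} [Univ M] {Γ : Type u} [Group Γ] [DGrp M Γ]

open Filter

/-- the subgroup of `k`-th powers of an abelian subgroup -/
private def GC2_pow (A : Subgroup Γ) (hc : ∀ x ∈ A, ∀ y ∈ A, x * y = y * x) (k : ℕ) : Subgroup Γ where
  carrier := {z | ∃ a ∈ A, z = a ^ k}
  mul_mem' := by
    rintro _ _ ⟨a, ha, rfl⟩ ⟨b, hb, rfl⟩
    exact ⟨a * b, A.mul_mem ha hb, ((show Commute a b from hc a ha b hb).mul_pow k).symm⟩
  one_mem' := ⟨1, A.one_mem, (one_pow k).symm⟩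
  inv_mem' := by
    rintro _ ⟨a, ha, rfl⟩
    exact ⟨a⁻¹, A.inv_mem ha, (inv_pow a k).symm⟩

private theorem GC2_fin {A : Subgroup Γ} (hc : ∀ x ∈ A, ∀ y ∈ A, x * y = y * x)
    (hf : {x | x ∈ A ∧ x * x = 1}.Finite) (b : Γ) : {x | x ∈ A ∧ x * x = b}.Finite := by
  rcases Set.eq_empty_or_nonempty {x | x ∈ A ∧ x * x = b} with h | ⟨x0, hx0, hx1⟩
  · rw [h]
    exact Set.finite_empty
  · refine (hf.image (fun x => x0 * x)).subset ?_
    rintro x ⟨hx, hx2⟩
    refine ⟨x0⁻¹ * x, ⟨A.mul_mem (A.inv_mem hx0) hx, ?_⟩, ?_⟩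
    · have h1 : x * x0⁻¹ = x0⁻¹ * x := hc x hx _ (A.inv_mem hx0)
      calc x0⁻¹ * x * (x0⁻¹ * x) = x0⁻¹ * (x * x0⁻¹) * x := by group
        _ = x0⁻¹ * x0⁻¹ * (x * x) := by rw [h1]; group
        _ = 1 := by rw [hx2, ← hx1]; group
    · show x0 * (x0⁻¹ * x) = x
      group

/-- a connected definable abelian group with finitely many involutions is `2`-divisible -/
theorem Conn.sq {A : Subgroup Γ} (hA : Conn A) (hc : ∀ x ∈ A, ∀ y ∈ A, x * y = y * x)
    (hf : {x | x ∈ A ∧ x * x = 1}.Finite) {x : Γ} (hx : x ∈ A) : ∃ y ∈ A, y * y = x := by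
  have hdf : DfFun (fun x : Γ => x * x) := by fun_prop
  have hK : Df (GC2_pow A hc 2 : Set Γ) := df_pow_image hA.1 2
  have hKA : GC2_pow A hc 2 ≤ A := by
    rintro _ ⟨a, ha, rfl⟩
    exact A.pow_mem ha 2
  have himg : (fun x : Γ => x * x) '' (A : Set Γ) = (GC2_pow A hc 2 : Set Γ) := by
    ext z
    constructor
    · rintro ⟨a, ha, rfl⟩
      exact ⟨a, ha, (pow_two a).symm⟩
    · rintro ⟨a, ha, rfl⟩
      exact ⟨a, ha, (pow_two a).symm⟩
  have hr : rk (A : Set Γ) ≤ rk (GC2_pow A hc 2 : Set Γ) := by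
    have := rk_le_image_add hdf hA.1 (k := 0) (fun y _ => by
      refine le_of_eq ?_
      have hfin : ((A : Set Γ) ∩ (fun x : Γ => x * x) ⁻¹' {y}).Finite := by
        refine (GC2_fin hc hf y).subset ?_
        rintro x ⟨h1, h2⟩
        exact ⟨h1, h2⟩
      refine (rk_eq_zero_iff ?_).2 hfin
      have h1 := hA.1
      have : DfP (fun x : Γ => x ∈ (A : Set Γ) ∧ x * x = y) := by
        apply DfP.and
        · apply DfP.mem h1
          fun_prop
        · apply DfP.eq <;> fun_prop
      exact this)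
    rw [himg] at this
    simpa using this
  have hEq := Conn.eq_of_rk hA hK hKA hr
  have hx' : x ∈ GC2_pow A hc 2 := by rw [hEq]; exact hx
  obtain ⟨y, hy, hxy⟩ := hx'
  exact ⟨y, hy, by rw [hxy, pow_two]⟩

theorem Conn.two_pow_root {A : Subgroup Γ} (hA : Conn A) (hc : ∀ x ∈ A, ∀ y ∈ A, x * y = y * x)
    (hf : {x | x ∈ A ∧ x * x = 1}.Finite) {x : Γ} (hx : x ∈ A) (n : ℕ) :
    ∃ y ∈ A, y ^ (2 ^ n) = x := by
  induction n generalizing x with
  | zero => exact ⟨x, hx, by simp⟩
  | succ n ih =>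
    obtain ⟨y, hy, hyx⟩ := Conn.sq hA hc hf hx
    obtain ⟨z, hz, hzy⟩ := ih hy
    refine ⟨z, hz, ?_⟩
    rw [pow_succ, pow_mul, hzy, pow_two, hyx]

private theorem GC2_count {K : Type*} [CommGroup K] [Finite K] (m : ℕ) (a : Fin m → K)
    (hne : ∀ j k, j ≠ k → ¬ ∃ y, y * y = (a j)⁻¹ * a k) : m ≤ {x : K | x * x = 1}.ncard := by
  set f : K →* K := powMonoidHom 2 with hfdef
  have h1 : Nat.card f.ker * f.ker.index = Nat.card K := f.ker.card_mul_index
  have h2 : f.ker.index = Nat.card f.range := Subgroup.index_ker f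
  have h3 : Nat.card f.range * f.range.index = Nat.card K := f.range.card_mul_index
  have h4 : f.range.index = Nat.card f.ker := by
    have hp : 0 < Nat.card f.range := Nat.card_pos
    rw [h2, mul_comm] at h1
    exact Nat.eq_of_mul_eq_mul_left hp (h3.trans h1.symm)
  have h5 : m ≤ f.range.index := by
    have hinj : Function.Injective (fun j => (QuotientGroup.mk (a j) : K ⧸ f.range)) := by
      intro j k hjk
      by_contra hne'
      have := QuotientGroup.eq.1 hjk
      obtain ⟨y, hy⟩ := this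
      exact hne j k hne' ⟨y, by rw [← hy, hfdef, powMonoidHom_apply, pow_two]⟩
    have := Nat.card_le_card_of_injective _ hinj
    rwa [Nat.card_fin] at this
  rw [h4] at h5
  refine h5.trans (le_of_eq ?_)
  have h6 : (f.ker : Set K) = {x : K | x * x = 1} := by
    ext x
    show x ∈ f.ker ↔ x * x = 1
    rw [MonoidHom.mem_ker, hfdef, powMonoidHom_apply, pow_two]
  rw [← h6, ← Nat.card_coe_set_eq]
  rfl

private theorem GC2_comm {G : Type*} [CommGroup G] (hf : {x : G | x * x = 1}.Finite) (n : ℕ)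
    (hst : ∀ a : G, ∃ b : G, a ^ (2 ^ n) = b ^ (2 ^ (n + (n + 1)))) (m : ℕ) (a : Fin m → G)
    (hne : ∀ j k, j ≠ k → ¬ ∃ y, y * y = (a j)⁻¹ * a k) : m ≤ {x : G | x * x = 1}.ncard := by
  have hfin : ∀ n : ℕ, {x : G | x ^ (2 ^ n) = 1}.Finite := by
    intro n
    induction n with
    | zero => simp
    | succ n ih =>
      refine (Set.Finite.preimage' ih (f := fun x : G => x * x) ?_).subset ?_
      · intro b _
        rcases Set.eq_empty_or_nonempty ((fun x : G => x * x) ⁻¹' {b}) with h | ⟨x0, hx0⟩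
        · rw [h]
          exact Set.finite_empty
        · refine (hf.image (fun x => x0 * x)).subset ?_
          intro x hx
          refine ⟨x0⁻¹ * x, ?_, by show x0 * (x0⁻¹ * x) = x; group⟩
          have e1 : x0 * x0 = b := hx0
          have e2 : x * x = b := hx
          show x0⁻¹ * x * (x0⁻¹ * x) = 1
          rw [mul_mul_mul_comm, e2, ← mul_inv, e1, inv_mul_cancel]
      · intro x hx
        show (x * x) ^ (2 ^ n) = 1
        rw [← pow_two, ← pow_mul, ← pow_succ']
        exact hx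
  set K : Subgroup G := (powMonoidHom (2 ^ n) : G →* G).ker with hK
  have hKfin : Finite K := by
    have : (K : Set G) = {x : G | x ^ (2 ^ n) = 1} := by
      ext x
      show x ∈ K ↔ x ^ (2 ^ n) = 1
      rw [hK, MonoidHom.mem_ker, powMonoidHom_apply]
    have h2 := hfin n
    rw [← this] at h2
    exact h2.to_subtype
  have hdec : ∀ g : G, ∃ k : K, ∃ c : G, g = c * c * k := by
    intro g
    obtain ⟨b, hb⟩ := hst g
    have e : g ^ (2 ^ n) = (b ^ (2 ^ n) * b ^ (2 ^ n)) ^ (2 ^ n) := by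
      rw [hb, ← pow_add, ← pow_mul]
      congr 1
      rw [pow_add, pow_succ]
      ring
    refine ⟨⟨(b ^ (2 ^ n) * b ^ (2 ^ n))⁻¹ * g, ?_⟩, b ^ (2 ^ n), ?_⟩
    · rw [hK, MonoidHom.mem_ker, powMonoidHom_apply, mul_pow, inv_pow, e, inv_mul_cancel]
    · show g = b ^ 2 ^ n * b ^ 2 ^ n * ((b ^ (2 ^ n) * b ^ (2 ^ n))⁻¹ * g)
      rw [mul_inv_cancel_left]
  choose k c hkc using hdec
  have h1 := GC2_count (K := K) m (fun j => k (a j)) (by
    rintro i j hij ⟨y, hy⟩
    apply hne i j hij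
    refine ⟨(c (a i))⁻¹ * c (a j) * y, ?_⟩
    have hy' : (y : G) * y = (k (a i) : G)⁻¹ * k (a j) := by
      have := congrArg (Subtype.val) hy
      simpa using this
    calc (c (a i))⁻¹ * c (a j) * y * ((c (a i))⁻¹ * c (a j) * y)
        = (c (a i) * c (a i))⁻¹ * (c (a j) * c (a j)) * ((y : G) * y) := by
          rw [mul_inv]
          simp only [mul_comm, mul_left_comm, mul_assoc]
      _ = (c (a i) * c (a i) * k (a i))⁻¹ * (c (a j) * c (a j) * k (a j)) := by
          rw [hy', mul_inv (c (a i) * c (a i))]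
          simp only [mul_comm, mul_left_comm, mul_assoc]
      _ = (a i)⁻¹ * a j := by rw [← hkc, ← hkc])
  refine h1.trans ?_
  rw [← Nat.card_coe_set_eq, ← Nat.card_coe_set_eq]
  have := hf.to_subtype
  refine Nat.card_le_card_of_injective
    (fun x : {x : K | x * x = 1} => (⟨(x.1 : G), ?_⟩ : {x : G | x * x = 1})) ?_
  · have := x.2
    have h3 : (x.1 : K) * x.1 = 1 := this
    have := congrArg Subtype.val h3
    simpa using this
  · intro x y hxy
    have := congrArg Subtype.val hxy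
    exact Subtype.ext (Subtype.ext this)

/-- index of the squares at most the number of elements with `x² = 1`: any `m` pairwise incongruent elements modulo squares satisfy `m ≤ ncard` -/
theorem index_sq_le {A : Subgroup Γ} (hA : Df (A : Set Γ)) (hc : ∀ x ∈ A, ∀ y ∈ A, x * y = y * x)
    (hf : {x | x ∈ A ∧ x * x = 1}.Finite) (m : ℕ) (a : Fin m → Γ) (ha : ∀ j, a j ∈ A)
    (hne : ∀ j k, j ≠ k → ¬ ∃ y ∈ A, y * y = (a j)⁻¹ * a k) :
    m ≤ {x | x ∈ A ∧ x * x = 1}.ncard := by
  obtain ⟨n, hn⟩ := dcc (fun n => GC2_pow A hc (2 ^ n)) (fun n => df_pow_image hA (2 ^ n)) (by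
    refine antitone_nat_of_succ_le ?_
    rintro n _ ⟨a, ha, rfl⟩
    exact ⟨a ^ 2, A.pow_mem ha 2, by rw [← pow_mul, ← pow_succ']⟩)
  let _ : CommGroup A := { (inferInstance : Group A) with
    mul_comm := fun x y => Subtype.ext (hc x x.2 y y.2) }
  have hf' : {x : A | x * x = 1}.Finite := by
    refine Set.Finite.of_finite_image (f := Subtype.val) (hf.subset ?_) Subtype.val_injective.injOn
    rintro _ ⟨x, hx, rfl⟩
    refine ⟨x.2, ?_⟩
    have hx' : x * x = 1 := hx
    have := congrArg Subtype.val hx'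
    simpa using this
  have h1 := GC2_comm (G := A) hf' n (fun x => by
    have h2 : ((x : Γ) ^ (2 ^ n)) ∈ GC2_pow A hc (2 ^ (n + (n + 1))) := by
      have : GC2_pow A hc (2 ^ (n + (n + 1))) = GC2_pow A hc (2 ^ n) := hn (n + (n + 1)) (by omega)
      rw [this]
      exact ⟨x, x.2, rfl⟩
    obtain ⟨b, hb, hb2⟩ := h2
    exact ⟨⟨b, hb⟩, Subtype.ext hb2⟩) m (fun j => ⟨a j, ha j⟩) (by
    rintro j k hjk ⟨y, hy⟩
    exact hne j k hjk ⟨y, y.2, congrArg Subtype.val hy⟩)
  refine h1.trans ?_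
  rw [← Nat.card_coe_set_eq, ← Nat.card_coe_set_eq]
  have := hf.to_subtype
  refine Nat.card_le_card_of_injective
    (fun x : {x : A | x * x = 1} => (⟨(x.1 : Γ), x.1.2, congrArg Subtype.val x.2⟩ : {x | x ∈ A ∧ x * x = 1})) ?_
  intro x y hxy
  have := congrArg Subtype.val hxy
  exact Subtype.ext (Subtype.ext this)

end Pool.Agent.A1C
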