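import Pool.Agent.A1C.GC2

/-!
# GC3: the definable hull, squares in definable abelian groups

`hull x` is the smallest definable subgroup containing `x` (`df_sInf`); it is contained in `zeta x`, hence abelian.
`index_sq_le`: proof (R5) of the paper: the decreasing sequence `{a ^ (2 ^ n)}` stabilises at `B`; `A = B * A[2^n]`; squaring acts on the finite
group `A / B`, the index of its image is the order of its kernel, and the kernel is the image of `A[2]`.
(Possible in elementary terms: choose representatives.)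
-/

namespace Pool.Agent.A1C

universe u

variable {M : Type u} [Univ M] {Γ : Type u} [Group Γ] [DGrp M Γ]

open Filter

/-- no elements of order two -/
def NoInv (H : Subgroup Γ) : Prop := ∀ x ∈ H, x * x = 1 → x = 1

theorem NoInv.two_pow {H : Subgroup Γ} (hH : NoInv H) {x : Γ} (hx : x ∈ H) (n : ℕ)
    (h : x ^ (2 ^ n) = 1) : x = 1 := by
  induction n with
  | zero => simpa using h
  | succ n ih =>
    apply ih
    apply hH _ (H.pow_mem hx _)
    rw [← pow_two, ← pow_mul, ← pow_succ]
    exact h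

/-- a definable abelian group without involutions is uniquely `2`-divisible -/
theorem NoInv.sq {A : Subgroup Γ} (hA : Df (A : Set Γ)) (hc : ∀ x ∈ A, ∀ y ∈ A, x * y = y * x)
    (h2 : NoInv A) {x : Γ} (hx : x ∈ A) : ∃ y ∈ A, y * y = x := by
  have hset : {x | x ∈ A ∧ x * x = 1} = {(1 : Γ)} := by
    ext z
    constructor
    · rintro ⟨h1, h3⟩
      exact h2 z h1 h3
    · intro hz
      have hz : z = 1 := hz
      subst hz
      exact ⟨A.one_mem, one_mul 1⟩
  by_contra hcon
  have := index_sq_le hA hc (by rw [hset]; exact Set.finite_singleton _) 2 ![1, x] (by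
    intro j
    fin_cases j
    · exact A.one_mem
    · exact hx) (by
    intro j k hjk
    fin_cases j <;> fin_cases k
    · exact absurd rfl hjk
    · rintro ⟨y, hy, hyx⟩
      apply hcon
      refine ⟨y, hy, ?_⟩
      simpa using hyx
    · rintro ⟨y, hy, hyx⟩
      apply hcon
      refine ⟨y⁻¹, A.inv_mem hy, ?_⟩
      have h3 : y * y = x⁻¹ := by simpa using hyx
      rw [← mul_inv_rev, h3, inv_inv]
    · exact absurd rfl hjk)
  rw [hset, Set.ncard_singleton] at this
  omega

/-- square root in the hull -/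
theorem NoInv.hull_sqrt {V : Subgroup Γ} (hV : Df (V : Set Γ)) (h2 : NoInv V) {x : Γ} (hx : x ∈ V) :
    ∃ y ∈ hull x, y * y = x := by
  refine NoInv.sq (df_hull x) (fun y hy z hz => hull_comm hy hz) ?_ (self_mem_hull x)
  intro y hy hyy
  exact h2 y (hull_le hV hx hy) hyy

private theorem GC3_base {V : Subgroup Γ} (hV : Df (V : Set Γ)) (h2 : NoInv V) {x : Γ}
    (hx : x ∈ V) : x ∈ hull (x ^ 2) := by
  obtain ⟨y, hy, hyx⟩ := NoInv.hull_sqrt hV h2 (V.pow_mem hx 2)
  have hyV : y ∈ V := hull_le hV (V.pow_mem hx 2) hy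
  have hc : x * y = y * x := hull_comm_of_comm hy (by rw [pow_two, mul_assoc])
  have h3 : x * y⁻¹ = 1 := by
    apply h2 _ (V.mul_mem hx (V.inv_mem hyV))
    have h4 : x * y⁻¹ = y⁻¹ * x := by
      rw [eq_inv_mul_iff_mul_eq, ← mul_assoc, ← hc, mul_assoc, mul_inv_cancel, mul_one]
    calc x * y⁻¹ * (x * y⁻¹) = x * (y⁻¹ * x) * y⁻¹ := by group
      _ = x * (x * y⁻¹) * y⁻¹ := by rw [h4]
      _ = (x ^ 2) * (y * y)⁻¹ := by rw [pow_two]; group
      _ = 1 := by rw [hyx, mul_inv_cancel]
  rw [mul_inv_eq_one] at h3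
  have h5 : y ∈ hull (x ^ 2) := hy
  rwa [← h3] at h5

/-- `x ∈ d(x^{2^n})` -/
theorem NoInv.mem_hull_pow {V : Subgroup Γ} (hV : Df (V : Set Γ)) (h2 : NoInv V) {x : Γ}
    (hx : x ∈ V) (n : ℕ) : x ∈ hull (x ^ (2 ^ n)) := by
  induction n with
  | zero =>
    rw [pow_zero, pow_one]
    exact self_mem_hull x
  | succ n ih =>
    have h1 := GC3_base hV h2 (V.pow_mem hx (2 ^ n))
    rw [← pow_mul, ← pow_succ] at h1
    exact hull_mono h1 ih

end Pool.Agent.A1C
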