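import Pool.Agent.A1C.MDef

/-!
# MA1: divisible abelian `2`-subgroups (part 0b, M1)

`div_le_idc`. Let `m = (idc K).relIndex K ≠ 0` (`idc_index`), `x ∈ P`. Choose `N` with `m < 2 ^ N` and, by
`exists_two_pow_root`, `y ∈ P` with `y ^ (2 ^ N) = x`. `Subgroup.exists_pow_mem_of_relIndex_ne_zero` gives `0 < n ≤ m` with
`y ^ n ∈ idc K`. As `orderOf y` is a power of `2` (`orderOf_dvd_of_pow_eq_one`, `Nat.dvd_prime_pow`),
`d = Nat.gcd n (orderOf y)` is a power of `2`, `d ≤ n < 2 ^ N`, so `d ∣ 2 ^ N`. `y ^ d` is a power of `y ^ n` (Bezout), so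
`y ^ d ∈ idc K` and `x = (y ^ d) ^ (2 ^ N / d) ∈ idc K`.

`MinG.noInv_of_div`. Suppose `b ∈ B`, `b * b = 1`, `b ≠ 1`. Let `P` be the subgroup of the `2`-elements of `B` (closed under
products since `B` is abelian, `T2.mul`). It is abelian and: for `x ∈ P` there is `y ∈ B` with `y * y = x`, and `T2 y`, so `y ∈ P`.
`C = Subgroup.centralizer P` is definable (`df_centralizer`), `P ≤ C`, so `P ≤ idc C` (`div_le_idc`). `idc C` is connected
(`idc_conn`) and contains the involution `b`, so `idc C = ⊤` by `hΓ.min`, hence `C = ⊤` (`idc_le`): the elements of `P` are central.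
`K = Subgroup.centralizer Set.univ` (the centre) is definable, `P ≤ K`, so again `P ≤ idc K`, `idc K = ⊤`, `K = ⊤`: `Γ` is abelian,
contradiction to `hΓ.na`.

-/

set_option autoImplicit false

namespace Pool.Agent.A1C

universe u

variable {M : Type u} [Univ M] {Γ : Type u} [Group Γ] [DGrp M Γ]

open Filter

theorem div_le_idc {K : Subgroup Γ} (hK : Df (K : Set Γ)) {P : Subgroup Γ} (hPK : P ≤ K)
    (hT : ∀ x ∈ P, T2 x) (hdiv : ∀ x ∈ P, ∃ y ∈ P, y * y = x) : P ≤ idc K := by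
  intro x hx
  obtain ⟨N, hN⟩ : ∃ N : ℕ, (idc K).relIndex K < 2 ^ N :=
    ⟨(idc K).relIndex K, Nat.lt_two_pow_self⟩
  obtain ⟨y, hy, hyx⟩ := exists_two_pow_root hdiv N hx
  obtain ⟨n, hn0, hnm, hyn⟩ :=
    Subgroup.exists_pow_mem_of_relIndex_ne_zero (idc_index hK) (hPK hy)
  have hyn' : y ^ n ∈ idc K := hyn.1
  obtain ⟨k, hk⟩ := hT y hy
  have hod : orderOf y ∣ 2 ^ k := orderOf_dvd_of_pow_eq_one hk
  have hgd : Nat.gcd n (orderOf y) ∣ 2 ^ k := (Nat.gcd_dvd_right _ _).trans hod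
  obtain ⟨j, _, hj⟩ := (Nat.dvd_prime_pow Nat.prime_two).1 hgd
  have hle : Nat.gcd n (orderOf y) ≤ n := Nat.gcd_le_left _ hn0
  have hlt : 2 ^ j < 2 ^ N := by
    rw [← hj]
    exact lt_of_le_of_lt (hle.trans hnm) hN
  have hjN : j ≤ N := ((Nat.pow_lt_pow_iff_right (by norm_num : 1 < 2)).1 hlt).le
  have hmem : y ^ (2 ^ j) ∈ idc K := by
    have hc : y ^ (Nat.gcd n (orderOf y)) = (y ^ n) ^ (Nat.gcdA n (orderOf y)) := by
      rw [← zpow_natCast y (Nat.gcd n (orderOf y)), Nat.gcd_eq_gcd_ab, zpow_add, zpow_mul,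
        zpow_mul, zpow_natCast, zpow_natCast, pow_orderOf_eq_one, one_zpow, mul_one]
    rw [← hj, hc]
    exact (idc K).zpow_mem hyn' _
  rw [← hyx, ← Nat.sub_add_cancel hjN, add_comm, pow_add, pow_mul]
  exact (idc K).pow_mem hmem _

theorem MinG.noInv_of_div (hΓ : MinG Γ) {B : Subgroup Γ} (hc : ∀ x ∈ B, ∀ y ∈ B, x * y = y * x)
    (hdiv : ∀ x ∈ B, ∃ y ∈ B, y * y = x) : NoInv B := by
  intro b hb hbb
  by_contra hb1
  let P : Subgroup Γ :=
    { carrier := {x | x ∈ B ∧ T2 x}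
      mul_mem' := by
        rintro x y ⟨hx, hx2⟩ ⟨hy, hy2⟩
        exact ⟨B.mul_mem hx hy, hx2.mul (hc x hx y hy) hy2⟩
      one_mem' := ⟨B.one_mem, T2.one⟩
      inv_mem' := by
        rintro x ⟨hx, hx2⟩
        exact ⟨B.inv_mem hx, hx2.inv⟩ }
  have hPT : ∀ x ∈ P, T2 x := fun x hx => hx.2
  have hPc : ∀ x ∈ P, ∀ y ∈ P, x * y = y * x := fun x hx y hy => hc x hx.1 y hy.1
  have hPdiv : ∀ x ∈ P, ∃ y ∈ P, y * y = x := by
    rintro x ⟨hx, n, hn⟩
    obtain ⟨y, hy, hyx⟩ := hdiv x hx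
    refine ⟨y, ⟨hy, n + 1, ?_⟩, hyx⟩
    rw [pow_succ, mul_comm, pow_mul, pow_two, hyx, hn]
  have hbP : b ∈ P := ⟨hb, T2.of_sq hbb⟩
  have key : ∀ S : Set Γ, P ≤ Subgroup.centralizer S → Subgroup.centralizer S = ⊤ := by
    intro S hS
    have h1 : P ≤ idc (Subgroup.centralizer S) := div_le_idc (df_centralizer S) hS hPT hPdiv
    have h2 : idc (Subgroup.centralizer S) = ⊤ := by
      by_contra h3
      exact hb1 (hΓ.min _ (idc_conn (df_centralizer S)) h3 b (h1 hbP) hbb)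
    exact top_le_iff.1 (h2 ▸ idc_le (Subgroup.centralizer S))
  have h1 : Subgroup.centralizer (P : Set Γ) = ⊤ := by
    refine key _ ?_
    intro x hx
    rw [Subgroup.mem_centralizer_iff]
    intro y hy
    exact hPc y hy x hx
  have h2 : Subgroup.centralizer (Set.univ : Set Γ) = ⊤ := by
    refine key _ ?_
    intro x hx
    rw [Subgroup.mem_centralizer_iff]
    intro y _
    have hy : y ∈ Subgroup.centralizer (P : Set Γ) := by rw [h1]; exact Subgroup.mem_top y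
    rw [Subgroup.mem_centralizer_iff] at hy
    exact (hy x hx).symm
  obtain ⟨x, y, hxy⟩ := hΓ.na
  apply hxy
  have hy : y ∈ Subgroup.centralizer (Set.univ : Set Γ) := by rw [h2]; exact Subgroup.mem_top y
  rw [Subgroup.mem_centralizer_iff] at hy
  exact hy x (Set.mem_univ x)

end Pool.Agent.A1C
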