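import Pool.Agent.A1C.MA1

/-!
# MA2: decomposition of definable abelian subgroups (part 0b, M1)

`finite_sq_one`: the set is the carrier of a subgroup (abelian), apply `U2perp`.
`finite_two_pow`: induction on `n`: squaring maps `{x ∈ A | x ^ 2 ^ (n+1) = 1}` into `{x ∈ A | x ^ 2 ^ n = 1}`, the fibres are cosets of
`{x ∈ A | x * x = 1}`: `Set.Finite.of_finite_fibers`.
`MinG.decomp`: `A n = pwr A hc (2 ^ n)` is a decreasing sequence of definable subgroups (`df_pwr`, `pow_succ`, `pow_mul`). By `dcc` there is `k`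
with `A m = A k` for `m ≥ k`; `B = A k`. For `x ∈ B = A (k+1)`: `x = a ^ (2 ^ (k+1)) = (a ^ (2 ^ k)) * (a ^ (2 ^ k))`. So `B` is abelian (`pwr_le`) and
divisible, `NoInv B` by `MinG.noInv_of_div`. For `x ∈ A`, `T2 x`: `x ^ (2 ^ k) ∈ B` is a `2`-element (`T2.pow`), so it is `1`
(`NoInv.two_pow`). For `a ∈ A`: `a ^ (2 ^ k) ∈ B`, so (`exists_two_pow_root`) `b ^ (2 ^ k) = a ^ (2 ^ k)` for some `b ∈ B`; `x = a * b⁻¹`.
`MinG.decompE`: with `k`, `B` of `MinG.decomp`: `pwr A hc (2 ^ E) = B`: for `a = x * b` one has `a ^ (2 ^ E) = b ^ (2 ^ E) ∈ B` (`x` is a `2`-element, `hE`), and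
every `b ∈ B` is `c ^ (2 ^ E)` with `c ∈ B` (`exists_two_pow_root`). (Use `div`: the divisibility of `B` is the fourth item of `decomp`.)

-/

set_option autoImplicit false

namespace Pool.Agent.A1C

universe u

variable {M : Type u} [Univ M] {Γ : Type u} [Group Γ] [DGrp M Γ]

open Filter

theorem finite_sq_one (hU : U2perp Γ) {A : Subgroup Γ} (hc : ∀ x ∈ A, ∀ y ∈ A, x * y = y * x) :
    {x | x ∈ A ∧ x * x = 1}.Finite := by
  let E : Subgroup Γ :=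
    { carrier := {x | x ∈ A ∧ x * x = 1}
      mul_mem' := by
        rintro x y ⟨hx, hx2⟩ ⟨hy, hy2⟩
        refine ⟨A.mul_mem hx hy, ?_⟩
        have h1 : x * y * (x * y) = x * x * (y * y) := by
          rw [mul_assoc x y, ← mul_assoc y x y, hc y hy x hx, mul_assoc x y y, ← mul_assoc]
        rw [h1, hx2, hy2, one_mul]
      one_mem' := ⟨A.one_mem, one_mul 1⟩
      inv_mem' := by
        rintro x ⟨hx, hx2⟩
        exact ⟨A.inv_mem hx, by rw [← mul_inv_rev, hx2, inv_one]⟩ }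
  exact hU E (fun x hx => hx.2)

theorem finite_two_pow (hU : U2perp Γ) {A : Subgroup Γ} (hc : ∀ x ∈ A, ∀ y ∈ A, x * y = y * x)
    (n : ℕ) : {x | x ∈ A ∧ x ^ (2 ^ n) = 1}.Finite := by
  induction n with
  | zero =>
    refine (Set.finite_singleton (1 : Γ)).subset ?_
    rintro x ⟨_, hx⟩
    simpa using hx
  | succ n ih =>
    refine Set.Finite.of_finite_fibers (fun x => x * x) (ih.subset ?_) ?_
    · rintro _ ⟨x, ⟨hx, hx2⟩, rfl⟩
      refine ⟨A.mul_mem hx hx, ?_⟩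
      change (x * x) ^ 2 ^ n = 1
      rw [← pow_two, ← pow_mul, ← pow_succ']
      exact hx2
    · rintro z ⟨x, ⟨hx, hx2⟩, hz⟩
      refine ((finite_sq_one hU hc).image (fun y => x * y)).subset ?_
      rintro w ⟨⟨hw, hw2⟩, hwz⟩
      refine ⟨x⁻¹ * w, ⟨A.mul_mem (A.inv_mem hx) hw, ?_⟩, mul_inv_cancel_left x w⟩
      have h1 : x * x = w * w := by
        have h2 : w * w = z := hwz
        have h3 : x * x = z := hz
        rw [h2, h3]
      have hcw : Commute x⁻¹ w := (show Commute x w from hc x hx w hw).inv_left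
      rw [mul_assoc, ← mul_assoc w, ← hcw.eq, mul_assoc, ← mul_assoc x⁻¹, ← h1]
      group

theorem MinG.decomp (hΓ : MinG Γ) {A : Subgroup Γ} (hA : Df (A : Set Γ))
    (hc : ∀ x ∈ A, ∀ y ∈ A, x * y = y * x) :
    ∃ k : ℕ, NoInv (pwr A hc (2 ^ k)) ∧ (∀ x ∈ A, T2 x → x ^ (2 ^ k) = 1) ∧
      (∀ a ∈ A, ∃ x ∈ A, ∃ b ∈ pwr A hc (2 ^ k), x ^ (2 ^ k) = 1 ∧ a = x * b) ∧
      ∀ b ∈ pwr A hc (2 ^ k), ∃ c ∈ pwr A hc (2 ^ k), c * c = b := by
  obtain ⟨k, hk⟩ := dcc (fun n => pwr A hc (2 ^ n)) (fun n => df_pwr hA (2 ^ n)) (by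
    refine antitone_nat_of_succ_le ?_
    rintro n _ ⟨a, ha, rfl⟩
    refine ⟨a ^ 2, A.pow_mem ha 2, ?_⟩
    rw [← pow_mul, ← pow_succ'])
  have hdiv : ∀ b ∈ pwr A hc (2 ^ k), ∃ c ∈ pwr A hc (2 ^ k), c * c = b := by
    intro b hb
    have h1 : pwr A hc (2 ^ (k + 1)) = pwr A hc (2 ^ k) := hk (k + 1) (Nat.le_succ k)
    rw [← h1] at hb
    obtain ⟨a, ha, rfl⟩ := hb
    refine ⟨a ^ (2 ^ k), ⟨a, ha, rfl⟩, ?_⟩
    rw [← pow_two, ← pow_mul, ← pow_succ]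
  have hno : NoInv (pwr A hc (2 ^ k)) :=
    hΓ.noInv_of_div (fun x hx y hy => hc x (pwr_le hx) y (pwr_le hy)) hdiv
  refine ⟨k, hno, ?_, ?_, hdiv⟩
  · intro x hx hx2
    obtain ⟨n, hn⟩ := hx2.pow (2 ^ k)
    exact hno.two_pow ⟨x, hx, rfl⟩ n hn
  · intro a ha
    obtain ⟨b, hb, hba⟩ := exists_two_pow_root hdiv k (x := a ^ (2 ^ k)) ⟨a, ha, rfl⟩
    have hbA : b ∈ A := pwr_le hb
    have hcab : Commute a b⁻¹ := (show Commute a b from hc a ha b hbA).inv_right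
    refine ⟨a * b⁻¹, A.mul_mem ha (A.inv_mem hbA), b, hb, ?_, by group⟩
    rw [hcab.mul_pow, inv_pow, hba, mul_inv_cancel]

theorem MinG.decompE (hΓ : MinG Γ) {E : ℕ} (hE : ∀ x : Γ, T2 x → x ^ (2 ^ E) = 1) {A : Subgroup Γ}
    (hA : Df (A : Set Γ)) (hc : ∀ x ∈ A, ∀ y ∈ A, x * y = y * x) :
    NoInv (pwr A hc (2 ^ E)) ∧
      (∀ a ∈ A, ∃ x ∈ A, ∃ b ∈ pwr A hc (2 ^ E), x ^ (2 ^ E) = 1 ∧ a = x * b) ∧
      ∀ b ∈ pwr A hc (2 ^ E), ∃ c ∈ pwr A hc (2 ^ E), c * c = b := by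
  obtain ⟨k, h1, h2, h3, h4⟩ := hΓ.decomp hA hc
  have he : pwr A hc (2 ^ E) = pwr A hc (2 ^ k) := by
    ext z
    constructor
    · rintro ⟨a, ha, rfl⟩
      obtain ⟨x, hx, b, hb, hxk, rfl⟩ := h3 a ha
      have hxb : Commute x b := hc x hx b (pwr_le hb)
      rw [hxb.mul_pow, hE x ⟨k, hxk⟩, one_mul]
      exact (pwr A hc (2 ^ k)).pow_mem hb _
    · intro hz
      obtain ⟨y, hy, hyz⟩ := exists_two_pow_root h4 E hz
      exact ⟨y, pwr_le hy, hyz.symm⟩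
  rw [he]
  refine ⟨h1, ?_, h4⟩
  intro a ha
  obtain ⟨x, hx, b, hb, hxk, hab⟩ := h3 a ha
  exact ⟨x, hx, b, hb, hE x ⟨k, hxk⟩, hab⟩

end Pool.Agent.A1C
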