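import Pool.Agent.A1C.MA2

/-!
# MA3: the central `2`-elements (part 0b, M1)

The centre `K = Subgroup.centralizer Set.univ` is definable (`df_centralizer`) and abelian. `MinG.decomp` gives `k` with `x ^ (2 ^ k) = 1` for all central
`2`-elements. `finite_two_pow` gives finiteness.

-/

set_option autoImplicit false

namespace Pool.Agent.A1C

universe u

variable {M : Type u} [Univ M] {Γ : Type u} [Group Γ] [DGrp M Γ]

open Filter

private theorem MA3_comm : ∀ x ∈ Subgroup.centralizer (Set.univ : Set Γ),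
    ∀ y ∈ Subgroup.centralizer (Set.univ : Set Γ), x * y = y * x := by
  intro x hx y _
  rw [Subgroup.mem_centralizer_iff] at hx
  exact (hx y (Set.mem_univ y)).symm

private theorem MA3_mem {z : Γ} (hz : z ∈ Z2 Γ) : z ∈ Subgroup.centralizer (Set.univ : Set Γ) := by
  rw [Subgroup.mem_centralizer_iff]
  intro y _
  exact ((mem_Z2.1 hz).1 y).symm

theorem MinG.Z2_exp (hΓ : MinG Γ) : ∃ e : ℕ, ∀ z ∈ Z2 Γ, z ^ (2 ^ e) = 1 := by
  obtain ⟨k, _, h2, _⟩ := hΓ.decomp (df_centralizer (Set.univ : Set Γ)) MA3_comm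
  exact ⟨k, fun z hz => h2 z (MA3_mem hz) (mem_Z2.1 hz).2⟩

theorem MinG.Z2_finite (hΓ : MinG Γ) : (Z2 Γ : Set Γ).Finite := by
  obtain ⟨e, he⟩ := hΓ.Z2_exp
  refine (finite_two_pow hΓ.u2 (A := Subgroup.centralizer (Set.univ : Set Γ)) MA3_comm e).subset ?_
  intro z hz
  exact ⟨MA3_mem hz, he z hz⟩

end Pool.Agent.A1C
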