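import Pool.Agent.A1C.MA2

/-!
# MB1: the `2`-part of an element and the square root of its `2'`-part (part 0b)

Everywhere `A = zeta h`, definable (`df_zeta`), abelian (`zeta_comm`), `h ∈ A` (`self_mem_zeta`), `Q = pwr A _ (2 ^ E)`;
`MinG.decompE` for `A`.
* existence in `p2_spec`: the decomposition `h = x * b`, `b = v ^ (2 ^ E)`.
* `p2_eq` (uniqueness): if `h = x * b = x' * b'` with `x, x' ∈ A`, `x ^ (2 ^ E) = x' ^ (2 ^ E) = 1`, `b, b' ∈ Q`, then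
  `x'⁻¹ * x = b' * b⁻¹ ∈ Q` has `(x'⁻¹ * x) ^ (2 ^ E) = 1` (commute), so it is `1` (`NoInv.two_pow`).
* `rt_spec`: `h = p2 E h * b`, `b ∈ Q`, and `b = c * c` with `c ∈ Q` by `decompE`; `c = v ^ (2 ^ E)`. `rt_eq`: `x * x = x' * x'`, `x, x' ∈ Q`
  commute, so `(x'⁻¹ * x) * (x'⁻¹ * x) = 1`, `x'⁻¹ * x ∈ Q`, so `= 1`.
* conjugation: `IsP2 E h x → IsP2 E (g⁻¹ * h * g) (g⁻¹ * x * g)` (`zeta_conj`, `conj_pow`), then `p2_eq`; the same for `IsRt`.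
* inverse: `zeta_inv`; `IsP2 E h x → IsP2 E h⁻¹ x⁻¹` (commuting factors), the same for `IsRt`.
* `p2_mul_Z2`: `zeta (h * ζ) = zeta h` for central `ζ` and `ζ ∈ zeta h`; `IsP2 E (h * ζ) (x * ζ)`.
* definability: `DfFun (p2 E)` is `Df {p : Γ × Γ | p.2 = p2 E p.1}`, and `p.2 = p2 E p.1 ↔ IsP2 E p.1 p.2`, a predicate in the calculus of DC (use
  `dfP_mem_zeta` and `DfP.comp` for the membership in `zeta p.1`; `∃ v ∈ zeta h` is `DfP.ex` of a conjunction). `IsRt` uses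
  `DfFun (p2 E)`.

-/

set_option autoImplicit false

namespace Pool.Agent.A1C

universe u

variable {M : Type u} [Univ M] {Γ : Type u} [Group Γ] [DGrp M Γ]

open Filter

private theorem zc51 {G : Type u} [Group G] (h : G) : ∀ x ∈ zeta h, ∀ y ∈ zeta h, x * y = y * x :=
  fun _ hx _ hy => zeta_comm hx hy

private theorem conjPow51 {G : Type u} [Group G] (g x : G) (n : ℕ) :
    (g⁻¹ * x * g) ^ n = g⁻¹ * x ^ n * g := by
  have h2 := conj_pow (i := n) (a := g⁻¹) (b := x)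
  simpa using h2

private theorem zetaMul51 {G : Type u} [Group G] (h : G) {ζ : G} (hζ : ∀ y, ζ * y = y * ζ) :
    zeta (h * ζ) = zeta h := by
  have key : ∀ u : G, (u * (h * ζ) = h * ζ * u ↔ u * h = h * u) := by
    intro u
    rw [mul_assoc h ζ u, hζ u, ← mul_assoc, ← mul_assoc]
    exact mul_left_inj ζ
  ext y
  rw [mem_zeta, mem_zeta]
  constructor
  · intro hy u hu
    exact hy u ((key u).2 hu)
  · intro hy u hu
    exact hy u ((key u).1 hu)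

section

variable (hΓ : MinG Γ) {E : ℕ} (hE : ∀ x : Γ, T2 x → x ^ (2 ^ E) = 1)
include hΓ hE

theorem p2_spec (h : Γ) : IsP2 E h (p2 E h) := by
  obtain ⟨x, hx, b, ⟨v, hv, rfl⟩, hx2, e⟩ :=
    (hΓ.decompE hE (df_zeta h) (zc51 h)).2.1 h (self_mem_zeta h)
  have H : ∃ x, IsP2 E h x := ⟨x, hx, hx2, v, hv, e⟩
  unfold p2
  rw [dif_pos H]
  exact H.choose_spec

private theorem uniq51 {h x x' b b' : Γ} (hx : x ∈ zeta h) (hx' : x' ∈ zeta h)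
    (hx2 : x ^ (2 ^ E) = 1) (hx2' : x' ^ (2 ^ E) = 1) (hb : b ∈ pwr (zeta h) (zc51 h) (2 ^ E))
    (hb' : b' ∈ pwr (zeta h) (zc51 h) (2 ^ E)) (e : x * b = x' * b') : x = x' := by
  have h1 := (hΓ.decompE hE (df_zeta h) (zc51 h)).1
  have e1 : x'⁻¹ * x = b' * b⁻¹ := by
    rw [inv_mul_eq_iff_eq_mul, ← mul_assoc, ← e, mul_assoc, mul_inv_cancel, mul_one]
  have h2 : x'⁻¹ * x ∈ pwr (zeta h) (zc51 h) (2 ^ E) := by
    rw [e1]
    exact Subgroup.mul_mem _ hb' (Subgroup.inv_mem _ hb)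
  have h3 : (x'⁻¹ * x) ^ (2 ^ E) = 1 := by
    have hc : Commute x'⁻¹ x := zeta_comm ((zeta h).inv_mem hx') hx
    rw [hc.mul_pow, inv_pow, hx2, hx2', inv_one, one_mul]
  have h4 := h1.two_pow h2 E h3
  exact (inv_mul_eq_one.1 h4).symm

theorem p2_eq {h x : Γ} (hx : IsP2 E h x) : x = p2 E h := by
  obtain ⟨h1, h2, v, hv, e⟩ := hx
  obtain ⟨h1', h2', v', hv', e'⟩ := p2_spec hΓ hE h
  exact uniq51 hΓ hE h1 h1' h2 h2' ⟨v, hv, rfl⟩ ⟨v', hv', rfl⟩ (e.symm.trans e')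

theorem rt_spec (h : Γ) : IsRt E h (rt E h) := by
  obtain ⟨h1', h2', v', hv', e'⟩ := p2_spec hΓ hE h
  obtain ⟨c, ⟨w, hw, rfl⟩, hc⟩ := (hΓ.decompE hE (df_zeta h) (zc51 h)).2.2 (v' ^ (2 ^ E))
    ⟨v', hv', rfl⟩
  have H : ∃ x, IsRt E h x := ⟨w ^ (2 ^ E), w, hw, rfl, by rw [hc]; exact e'⟩
  unfold rt
  rw [dif_pos H]
  exact H.choose_spec

theorem rt_eq {h x : Γ} (hx : IsRt E h x) : x = rt E h := by
  obtain ⟨v, hv, hxv, e⟩ := hx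
  obtain ⟨v', hv', hxv', e'⟩ := rt_spec hΓ hE h
  have hn := (hΓ.decompE hE (df_zeta h) (zc51 h)).1
  have m1 : x ∈ pwr (zeta h) (zc51 h) (2 ^ E) := ⟨v, hv, hxv⟩
  have m2 : rt E h ∈ pwr (zeta h) (zc51 h) (2 ^ E) := ⟨v', hv', hxv'⟩
  have e1 : x * x = rt E h * rt E h := mul_left_cancel (e.symm.trans e')
  have hc : x * rt E h = rt E h * x := zeta_comm (pwr_le m1) (pwr_le m2)
  have h2 : (rt E h)⁻¹ * x = 1 := by
    refine hn _ (Subgroup.mul_mem _ (Subgroup.inv_mem _ m2) m1) ?_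
    have e2 : (rt E h)⁻¹ * x * ((rt E h)⁻¹ * x) = (rt E h)⁻¹ * (rt E h)⁻¹ * (x * x) := by
      have hc2 : x * (rt E h)⁻¹ = (rt E h)⁻¹ * x :=
        ((show Commute x (rt E h) from hc).inv_right)
      rw [mul_assoc, ← mul_assoc x, hc2]
      group
    rw [e2, e1]
    group
  exact (inv_mul_eq_one.1 h2).symm

theorem p2_conj (h g : Γ) : p2 E (g⁻¹ * h * g) = g⁻¹ * p2 E h * g := by
  obtain ⟨h1, h2, v, hv, e⟩ := p2_spec hΓ hE h
  refine (p2_eq hΓ hE ⟨zeta_conj g h1, ?_, g⁻¹ * v * g, zeta_conj g hv, ?_⟩).symm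
  · rw [conjPow51, h2]
    group
  · rw [conjPow51]
    have e2 : g⁻¹ * h * g = g⁻¹ * (p2 E h * v ^ (2 ^ E)) * g := by rw [← e]
    rw [e2]
    group

theorem rt_conj (h g : Γ) : rt E (g⁻¹ * h * g) = g⁻¹ * rt E h * g := by
  obtain ⟨v, hv, hxv, e⟩ := rt_spec hΓ hE h
  refine (rt_eq hΓ hE ⟨g⁻¹ * v * g, zeta_conj g hv, ?_, ?_⟩).symm
  · rw [conjPow51, ← hxv]
  · rw [p2_conj hΓ hE]
    have e2 : g⁻¹ * h * g = g⁻¹ * (p2 E h * (rt E h * rt E h)) * g := by rw [← e]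
    rw [e2]
    group

theorem p2_inv (h : Γ) : p2 E h⁻¹ = (p2 E h)⁻¹ := by
  obtain ⟨h1, h2, v, hv, e⟩ := p2_spec hΓ hE h
  refine (p2_eq hΓ hE ⟨?_, ?_, v⁻¹, ?_, ?_⟩).symm
  · rw [zeta_inv]
    exact (zeta h).inv_mem h1
  · rw [inv_pow, h2, inv_one]
  · rw [zeta_inv]
    exact (zeta h).inv_mem hv
  · have hc : p2 E h * v ^ (2 ^ E) = v ^ (2 ^ E) * p2 E h :=
      zeta_comm h1 ((zeta h).pow_mem hv _)
    have e2 : h⁻¹ = (v ^ (2 ^ E) * p2 E h)⁻¹ := by rw [← hc, ← e]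
    rw [e2, mul_inv_rev, inv_pow]

theorem rt_inv (h : Γ) : rt E h⁻¹ = (rt E h)⁻¹ := by
  obtain ⟨v, hv, hxv, e⟩ := rt_spec hΓ hE h
  have h1 := (p2_spec hΓ hE h).1
  have h2 : rt E h ∈ zeta h := by
    rw [hxv]
    exact (zeta h).pow_mem hv _
  refine (rt_eq hΓ hE ⟨v⁻¹, ?_, ?_, ?_⟩).symm
  · rw [zeta_inv]
    exact (zeta h).inv_mem hv
  · rw [inv_pow, ← hxv]
  · rw [p2_inv hΓ hE]
    have hc : p2 E h * (rt E h * rt E h) = (rt E h * rt E h) * p2 E h :=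
      zeta_comm h1 ((zeta h).mul_mem h2 h2)
    have e2 : h⁻¹ = ((rt E h * rt E h) * p2 E h)⁻¹ := by rw [← hc, ← e]
    rw [e2, mul_inv_rev, mul_inv_rev]

theorem p2_mul_Z2 (h : Γ) {ζ : Γ} (hζ : ζ ∈ Z2 Γ) : p2 E (h * ζ) = p2 E h * ζ := by
  obtain ⟨h1, h2, v, hv, e⟩ := p2_spec hΓ hE h
  have hz : ζ ∈ zeta h := fun u _ => (hζ.1 u).symm
  refine (p2_eq hΓ hE ⟨?_, ?_, v, ?_, ?_⟩).symm
  · rw [zetaMul51 h hζ.1]
    exact (zeta h).mul_mem h1 hz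
  · have hc : Commute (p2 E h) ζ := (hζ.1 _).symm
    rw [hc.mul_pow, h2, hE ζ hζ.2, one_mul]
  · rw [zetaMul51 h hζ.1]
    exact hv
  · have e2 : h * ζ = p2 E h * v ^ (2 ^ E) * ζ := by rw [← e]
    rw [e2, mul_assoc, mul_assoc, hζ.1]

theorem p2_T2 (h : Γ) : T2 (p2 E h) := by
  exact ⟨E, (p2_spec hΓ hE h).2.1⟩

/-- `h = (2-part) * (root)²`, everything commutes -/
theorem p2_rt (h : Γ) : h = p2 E h * (rt E h * rt E h) ∧ p2 E h * rt E h = rt E h * p2 E h := by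
  obtain ⟨v, hv, hxv, e⟩ := rt_spec hΓ hE h
  refine ⟨e, zeta_comm (p2_spec hΓ hE h).1 ?_⟩
  rw [hxv]
  exact (zeta h).pow_mem hv _

theorem dfFun_p2 : DfFun (p2 E : Γ → Γ) := by
  have h1 : {p : Γ × Γ | p.2 = p2 E p.1} = {p : Γ × Γ | IsP2 E p.1 p.2} := by
    ext p
    constructor
    · intro h
      show IsP2 E p.1 p.2
      rw [show p.2 = p2 E p.1 from h]
      exact p2_spec hΓ hE p.1
    · intro h
      exact p2_eq hΓ hE h
  change Df {p : Γ × Γ | p.2 = p2 E p.1}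
  rw [h1]
  change DfP fun p : Γ × Γ => p.2 ∈ zeta p.1 ∧ p.2 ^ (2 ^ E) = 1 ∧
    ∃ v, v ∈ zeta p.1 ∧ p.1 = p.2 * v ^ (2 ^ E)
  refine DfP.and dfP_mem_zeta (DfP.and (DfP.eq (by fun_prop) (by fun_prop)) (DfP.ex ?_))
  refine DfP.and ?_ (DfP.eq (by fun_prop) (by fun_prop))
  exact DfP.comp (f := fun z : (Γ × Γ) × Γ => (z.1.1, z.2)) (p := fun p : Γ × Γ => p.2 ∈ zeta p.1)
    dfP_mem_zeta (by fun_prop)

theorem dfFun_rt : DfFun (rt E : Γ → Γ) := by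
  have hp := dfFun_p2 hΓ hE
  have h1 : {p : Γ × Γ | p.2 = rt E p.1} = {p : Γ × Γ | IsRt E p.1 p.2} := by
    ext p
    constructor
    · intro h
      show IsRt E p.1 p.2
      rw [show p.2 = rt E p.1 from h]
      exact rt_spec hΓ hE p.1
    · intro h
      exact rt_eq hΓ hE h
  change Df {p : Γ × Γ | p.2 = rt E p.1}
  rw [h1]
  change DfP fun p : Γ × Γ => ∃ v, v ∈ zeta p.1 ∧ p.2 = v ^ (2 ^ E) ∧
    p.1 = p2 E p.1 * (p.2 * p.2)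
  refine DfP.ex (DfP.and ?_ (DfP.and (DfP.eq (by fun_prop) (by fun_prop)) ?_))
  · exact DfP.comp (f := fun z : (Γ × Γ) × Γ => (z.1.1, z.2))
      (p := fun p : Γ × Γ => p.2 ∈ zeta p.1) dfP_mem_zeta (by fun_prop)
  · refine DfP.eq (by fun_prop) ?_
    have h2 : DfFun (fun z : (Γ × Γ) × Γ => p2 E z.1.1) := DfFun.comp hp (by fun_prop)
    have h3 : DfFun (fun z : (Γ × Γ) × Γ => z.1.2) := by fun_prop
    exact h2.mul (h3.mul h3)

end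

end Pool.Agent.A1C
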