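import Pool.Agent.A1C.MA3
import Pool.Agent.A1C.MB1

/-!
# MB2: there is a `2`-element outside `Z2` (part 0b, M2)

Suppose that all `2`-elements are in `Z2 Γ`. With `e` of `MinG.Z2_exp` one has `hE : ∀ x, T2 x → x ^ (2 ^ e) = 1`. The `2`-part `p2 e h` is in the finite set
`Z2 Γ` for all `h`. `⊤` is irreducible (`conn_iff_irr`), so by `Irr.ev_of_finite_cases` there is one `z` with `∀ᶠ h in gen ⊤, p2 e h = z`
(definability: `dfFun_p2`, `DfP.eq`). Let `ζ` be an involution; it is in `Z2 Γ`. By `Conn.ev_mul_right` also `∀ᶠ h, p2 e (h * ζ) = z`. For one `h` with both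
(`ev_exists`): `z = p2 e (h * ζ) = p2 e h * ζ = z * ζ`, so `ζ = 1`, contradiction.

-/

set_option autoImplicit false

namespace Pool.Agent.A1C

universe u

variable {M : Type u} [Univ M] {Γ : Type u} [Group Γ] [DGrp M Γ]

open Filter

theorem MinG.exists_T2_notMem (hΓ : MinG Γ) : ∃ t : Γ, T2 t ∧ t ∉ Z2 Γ := by
  by_contra hcon
  push Not at hcon
  obtain ⟨e, he⟩ := hΓ.Z2_exp
  have hE : ∀ x : Γ, T2 x → x ^ (2 ^ e) = 1 := fun x hx => he x (hcon x hx)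
  have hirr : Irr ((⊤ : Subgroup Γ) : Set Γ) := (conn_iff_irr hΓ.conn.1).1 hΓ.conn
  obtain ⟨z, -, hz⟩ := Irr.ev_of_finite_cases hΓ.Z2_finite hirr
    (p := fun z h => p2 e h = z) (fun z _ => DfP.eq (dfFun_p2 hΓ hE) (DfFun.const z))
    (Eventually.of_forall fun h => ⟨p2 e h, hcon _ (p2_T2 hΓ hE h), rfl⟩)
  obtain ⟨ζ, hζ2, hζ1⟩ := hΓ.inv
  have hζ : ζ ∈ Z2 Γ := hcon ζ (T2.of_sq hζ2)
  have hz2 := (hΓ.conn.ev_mul_right (h := ζ) (Subgroup.mem_top ζ)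
    (p := fun h => p2 e h = z)).2 hz
  obtain ⟨h, -, h1, h2⟩ := ev_exists ⟨1, Subgroup.mem_top 1⟩ (hz.and hz2)
  rw [p2_mul_Z2 hΓ hE h hζ, h1] at h2
  exact hζ1 (mul_eq_left.1 h2)

end Pool.Agent.A1C
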