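import Pool.Agent.A1C.MDef

/-!
# MC1: generosity (part 0b, M3)

`noInv_cen`: `idc (cen a) = ⊤` would imply `cen a = ⊤` (`idc_le`), `a` central, `a ∈ Z2 Γ`. So `idc (cen a) ≠ ⊤` is connected (`idc_conn`, `df_cen`), hence
`NoInv` by `hΓ.min`.
`generous`: `W = (fun x => a * x) '' idc (cen a)`, definable (`df_smul`), of rank `k = rk (idc (cen a)) = rk (cen a)` (`rk_smul`, `idc_rk`). For
`w = a * v ∈ W`: `{g | g * w * g⁻¹ ∈ W} ⊆ cen a`: `(g * a * g⁻¹) * (g * v * g⁻¹) = a * v'`; apply `two_part_unique` with the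
subgroups `cj (idc (cen a)) g⁻¹` (contains `g * v * g⁻¹`; `NoInv` and definable) and `idc (cen a)`; so `g * a * g⁻¹ = a`. (Both
products commute, since `v, v' ∈ cen a`.) So its rank is `≤ rk (cen a) = k` (`rk_mono`; the set is definable: `DfP`). `rk_union_conj` for `W`.
`conj'`: the two sets `Y_a, Y_b` of `generous` have rank `rk ⊤`, are definable (`DfP.ex` ...) and `⊤` is irreducible; they are not small in
`univ` (nonempty and of full rank); `Irr.inter_nonempty` gives `g⁻¹ * (a * v) * g = g'⁻¹ * (b * v') * g'`. Conjugate: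
`a * v = (h⁻¹ * b * h) * (h⁻¹ * v' * h)` with `h = g' * g⁻¹`; `two_part_unique` (subgroups `idc (cen a)` and `cj (idc (cen b)) h`) gives
`a = h⁻¹ * b * h`, so `b = (h⁻¹)⁻¹ * a * h⁻¹`.

-/

set_option autoImplicit false

namespace Pool.Agent.A1C

universe u

variable {M : Type u} [Univ M] {Γ : Type u} [Group Γ] [DGrp M Γ]

open Filter

private theorem noInvCj51 {H : Subgroup Γ} (h : NoInv H) (g : Γ) : NoInv (cj H g) := by
  intro x hx hx2
  have h1 : g * x * g⁻¹ = 1 := by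
    refine h _ (mem_cj.1 hx) ?_
    have e : g * x * g⁻¹ * (g * x * g⁻¹) = g * (x * x) * g⁻¹ := by group
    rw [e, hx2]
    group
  have e : x = g⁻¹ * (g * x * g⁻¹) * g := by group
  rw [e, h1]
  group

private theorem dfY51 (a : Γ) :
    Df {y : Γ | ∃ g, ∃ v ∈ idc (cen a), y = g⁻¹ * (a * v) * g} := by
  have hV : Df (idc (cen a) : Set Γ) := (idc_conn (df_cen a)).1
  have h1 : {y : Γ | ∃ g, ∃ v ∈ idc (cen a), y = g⁻¹ * (a * v) * g} =
      (fun p : Γ × Γ => p.1⁻¹ * (a * p.2) * p.1) ''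
        ((Set.univ : Set Γ) ×ˢ (idc (cen a) : Set Γ)) := by
    ext y
    constructor
    · rintro ⟨g, v, hv, rfl⟩
      exact ⟨(g, v), ⟨trivial, hv⟩, rfl⟩
    · rintro ⟨⟨g, v⟩, ⟨-, hv⟩, rfl⟩
      exact ⟨g, v, hv, rfl⟩
  rw [h1]
  exact DfFun.image (by fun_prop) (Df.prod Df.univ hV)

theorem MinG.noInv_cen (hΓ : MinG Γ) {a : Γ} (ha : T2 a) (hz : a ∉ Z2 Γ) :
    NoInv (idc (cen a)) := by
  refine hΓ.min _ (idc_conn (df_cen a)) fun h => hz ?_
  refine ⟨fun y => ?_, ha⟩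
  have h1 : y ∈ idc (cen a) := by
    rw [h]
    exact Subgroup.mem_top y
  exact (mem_cen.1 (idc_le _ h1)).symm

theorem MinG.generous (hΓ : MinG Γ) {a : Γ} (ha : T2 a) (hz : a ∉ Z2 Γ) :
    rk (Set.univ : Set Γ) ≤ rk {y : Γ | ∃ g, ∃ v ∈ idc (cen a), y = g⁻¹ * (a * v) * g} := by
  have hV : Df (idc (cen a) : Set Γ) := (idc_conn (df_cen a)).1
  have hVn := hΓ.noInv_cen ha hz
  obtain ⟨n, hn⟩ := ha
  set W : Set Γ := (fun x => a * x) '' (idc (cen a) : Set Γ) with hW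
  have hWd : Df W := df_smul hV a
  have hWne : W.Nonempty := ⟨a * 1, 1, (idc (cen a)).one_mem, rfl⟩
  have key := rk_union_conj hWd hWne (k := rk (idc (cen a) : Set Γ)) (by
    rintro w ⟨v, hv, rfl⟩
    rw [idc_rk (df_cen a)]
    refine rk_mono (DfFun.preimage (f := fun g : Γ => g * (a * v) * g⁻¹) (by fun_prop) hWd)
      (df_cen a) ?_
    rintro g ⟨v', hv', e⟩
    have hvc : v * a = a * v := idc_le _ hv
    have hvc' : v' * a = a * v' := idc_le _ hv'
    have h1 : g * a * g⁻¹ * (g * v * g⁻¹) = a * v' := by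
      have e2 : g * a * g⁻¹ * (g * v * g⁻¹) = g * (a * v) * g⁻¹ := by group
      rw [e2]
      exact e.symm
    have h2 := two_part_unique (V := cj (idc (cen a)) g⁻¹) (V' := idc (cen a)) (df_cj hV g⁻¹) hV
      (noInvCj51 hVn g⁻¹) hVn (a := g * a * g⁻¹) (v := g * v * g⁻¹) (a' := a) (v' := v')
      (n := n) (n' := n) (by
        rw [conj_pow, hn]
        group) hn (by
        rw [mem_cj]
        have e3 : g⁻¹ * (g * v * g⁻¹) * g⁻¹⁻¹ = v := by group
        rw [e3]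
        exact hv) hv' (by
        have e3 : g * a * g⁻¹ * (g * v * g⁻¹) = g * (a * v) * g⁻¹ := by group
        have e4 : g * v * g⁻¹ * (g * a * g⁻¹) = g * (v * a) * g⁻¹ := by group
        rw [e3, e4, hvc]) hvc'.symm h1
    show g * a = a * g
    have h3 := h2.1
    rw [mul_inv_eq_iff_eq_mul] at h3
    exact h3)
  have hr : rk W = rk (idc (cen a) : Set Γ) := rk_smul _ hV a
  have hs : {y : Γ | ∃ g, ∃ v ∈ W, y = g⁻¹ * v * g} =
      {y : Γ | ∃ g, ∃ v ∈ idc (cen a), y = g⁻¹ * (a * v) * g} := by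
    ext y
    constructor
    · rintro ⟨g, _, ⟨v, hv, rfl⟩, rfl⟩
      exact ⟨g, v, hv, rfl⟩
    · rintro ⟨g, v, hv, rfl⟩
      exact ⟨g, a * v, ⟨v, hv, rfl⟩, rfl⟩
  rw [hr, hs] at key
  omega

theorem MinG.conj' (hΓ : MinG Γ) {a b : Γ} (ha : T2 a) (hza : a ∉ Z2 Γ) (hb : T2 b)
    (hzb : b ∉ Z2 Γ) : ∃ g : Γ, b = g⁻¹ * a * g := by
  have hirr : Irr (Set.univ : Set Γ) := by
    have := (conn_iff_irr hΓ.conn.1).1 hΓ.conn
    rwa [Subgroup.coe_top] at this
  have hns : ∀ a : Γ, T2 a → a ∉ Z2 Γ →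
      ¬ Small {y : Γ | ∃ g, ∃ v ∈ idc (cen a), y = g⁻¹ * (a * v) * g} Set.univ := by
    intro a ha hza h
    rcases h with h | h
    · have h1 : a ∈ {y : Γ | ∃ g, ∃ v ∈ idc (cen a), y = g⁻¹ * (a * v) * g} :=
        ⟨1, 1, (idc (cen a)).one_mem, by group⟩
      rw [h] at h1
      exact h1
    · exact absurd (hΓ.generous ha hza) (not_le.2 h)
  obtain ⟨y, ⟨g, v, hv, e1⟩, g', v', hv', e2⟩ := hirr.inter_nonempty (dfY51 a) (dfY51 b)
    (Set.subset_univ _) (Set.subset_univ _) (hns a ha hza) (hns b hb hzb)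
  have hVa : Df (idc (cen a) : Set Γ) := (idc_conn (df_cen a)).1
  have hVb : Df (idc (cen b) : Set Γ) := (idc_conn (df_cen b)).1
  have hna := hΓ.noInv_cen ha hza
  have hnb := hΓ.noInv_cen hb hzb
  obtain ⟨n, hn⟩ := ha
  obtain ⟨m, hm⟩ := hb
  have hvc : v * a = a * v := idc_le _ hv
  have hvc' : v' * b = b * v' := idc_le _ hv'
  set h := g' * g⁻¹ with hh
  have e3 : a * v = h⁻¹ * b * h * (h⁻¹ * v' * h) := by
    have e4 : a * v = g * (g⁻¹ * (a * v) * g) * g⁻¹ := by group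
    rw [e4, ← e1, e2, hh]
    group
  have key := two_part_unique (V := idc (cen a)) (V' := cj (idc (cen b)) h) hVa (df_cj hVb h)
    hna (noInvCj51 hnb h) (a := a) (v := v) (a' := h⁻¹ * b * h) (v' := h⁻¹ * v' * h)
    (n := n) (n' := m) hn (by
      have e5 : (h⁻¹ * b * h) ^ (2 ^ m) = h⁻¹ * b ^ (2 ^ m) * h := by
        have h2 := conj_pow (i := 2 ^ m) (a := h⁻¹) (b := b)
        simpa using h2
      rw [e5, hm]
      group) hv (by
      rw [mem_cj]
      have e5 : h * (h⁻¹ * v' * h) * h⁻¹ = v' := by group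
      rw [e5]
      exact hv') hvc.symm (by
      have e5 : h⁻¹ * b * h * (h⁻¹ * v' * h) = h⁻¹ * (b * v') * h := by group
      have e6 : h⁻¹ * v' * h * (h⁻¹ * b * h) = h⁻¹ * (v' * b) * h := by group
      rw [e5, e6, hvc']) e3
  refine ⟨h⁻¹, ?_⟩
  rw [key.1]
  group

end Pool.Agent.A1C
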