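import Pool.Agent.A1C.MC1
import Pool.Agent.A1C.MA3

/-!
# MC2: squares of `2`-elements are central (part 0b, M3)

`sq_mem`: if `a ∈ Z2 Γ` it is clear. Otherwise suppose `a * a ∉ Z2 Γ`; it is a `2`-element, so `a * a = g⁻¹ * a * g` by
`MinG.conj'`. Let `n` be the least natural number with `a ^ (2 ^ n) = 1` (`Nat.find`); `n ≠ 0` (otherwise `a = 1 ∈ Z2 Γ`), `n = m + 1`.
`(a * a) ^ (2 ^ m) = a ^ (2 ^ (m + 1)) = 1`, so `g⁻¹ * a ^ (2 ^ m) * g = 1`, `a ^ (2 ^ m) = 1`: contradiction to the minimality of `n`.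
`exists_E`: `E = e + 1` with `e` of `MinG.Z2_exp`.

-/

set_option autoImplicit false

namespace Pool.Agent.A1C

universe u

variable {M : Type u} [Univ M] {Γ : Type u} [Group Γ] [DGrp M Γ]

open Filter

theorem MinG.sq_mem (hΓ : MinG Γ) {a : Γ} (ha : T2 a) : a * a ∈ Z2 Γ := by
  classical
  by_cases hza : a ∈ Z2 Γ
  · exact (Z2 Γ).mul_mem hza hza
  by_contra hcon
  have haa : T2 (a * a) := ha.mul rfl ha
  obtain ⟨g, hg⟩ := hΓ.conj' ha hza haa hcon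
  obtain ⟨n, hspec, hmin⟩ : ∃ n : ℕ, a ^ (2 ^ n) = 1 ∧ ∀ m, m < n → a ^ (2 ^ m) ≠ 1 :=
    ⟨Nat.find ha, Nat.find_spec ha, fun m hm => Nat.find_min ha hm⟩
  have hn0 : n ≠ 0 := by
    intro h0
    rw [h0, pow_zero, pow_one] at hspec
    exact hza (by rw [hspec]; exact (Z2 Γ).one_mem)
  obtain ⟨m, hm⟩ := Nat.exists_eq_succ_of_ne_zero hn0
  have h1 : (a * a) ^ (2 ^ m) = 1 := by
    rw [← pow_two, ← pow_mul, ← pow_succ']
    rw [hm] at hspec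
    exact hspec
  rw [hg] at h1
  have h2 : (g⁻¹ * a * g) ^ (2 ^ m) = g⁻¹ * a ^ (2 ^ m) * g := by
    have h2 := conj_pow (i := 2 ^ m) (a := g⁻¹) (b := a)
    simpa using h2
  rw [h2] at h1
  have h3 : a ^ (2 ^ m) = 1 := by
    have e : a ^ (2 ^ m) = g * (g⁻¹ * a ^ (2 ^ m) * g) * g⁻¹ := by group
    rw [e, h1]
    group
  exact hmin m (by rw [hm]; exact Nat.lt_succ_self m) h3

theorem MinG.exists_E (hΓ : MinG Γ) : ∃ E : ℕ, ∀ x : Γ, T2 x → x ^ (2 ^ E) = 1 := by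
  obtain ⟨e, he⟩ := hΓ.Z2_exp
  refine ⟨e + 1, fun x hx => ?_⟩
  have h1 := he _ (hΓ.sq_mem hx)
  rw [← pow_two, ← pow_mul, ← pow_succ'] at h1
  exact h1

end Pool.Agent.A1C
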