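import Pool.Agent.A1C.MDef

/-!
# MD0: generic pairs and cosets

* `irr_univ2`: `Irr.prod` of `conn_iff_irr`; `Set.univ ×ˢ Set.univ = Set.univ`, `Subgroup.coe_top`.
* `ev2_left`, `ev2_right`, `ev2_swap`: `ev_inj_iff` for the injective definable maps `q ↦ (u * q.1, q.2)` etc. (`fun_prop` for `DfFun`) with
  `A = univ`; the image is `univ`.
* `exists_cosets`: `K.relIndex L ≠ 0` says that `L ⧸ K.subgroupOf L` is finite (`Subgroup.finiteIndex_iff`, `Subgroup.relIndex`); choose representatives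
  (`Quotient.out`); `x⁻¹ ∈ L` is in the left coset `c' K`, i.e. `c'⁻¹ * x⁻¹ ∈ K`, `x * c' ∈ K`, `c = c'⁻¹`.
* `ev_coset`: `exists_cosets` gives a finite `F ⊆ L`; `∀ᶠ q, ∃ c ∈ F, ψ q * c⁻¹ ∈ K`; `Irr.ev_of_finite_cases`
  (definability: `DfP.mem hK`, `fun_prop`).

-/

set_option autoImplicit false

namespace Pool.Agent.A1C

universe u

variable {M : Type u} [Univ M] {Γ : Type u} [Group Γ] [DGrp M Γ]

open Filter

theorem irr_univ2 (hG : Conn (⊤ : Subgroup Γ)) : Irr (Set.univ : Set (Γ × Γ)) := by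
  have h1 : Irr ((⊤ : Subgroup Γ) : Set Γ) := (conn_iff_irr (by
    rw [Subgroup.coe_top]
    exact Df.univ)).1 hG
  rw [Subgroup.coe_top] at h1
  have h2 := h1.prod h1
  rwa [Set.univ_prod_univ] at h2

theorem ev2_left {p : Γ × Γ → Prop} (h : ∀ᶠ q in gen (Set.univ : Set (Γ × Γ)), p q) (u : Γ) :
    ∀ᶠ q in gen (Set.univ : Set (Γ × Γ)), p (u * q.1, q.2) := by
  have hf : DfFun (fun q : Γ × Γ => (u * q.1, q.2)) := by fun_prop
  have hinj : Set.InjOn (fun q : Γ × Γ => (u * q.1, q.2)) Set.univ := by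
    rintro ⟨a, b⟩ - ⟨a', b'⟩ - h
    simp only [Prod.mk.injEq, mul_right_inj] at h
    exact Prod.ext h.1 h.2
  have himg : (fun q : Γ × Γ => (u * q.1, q.2)) '' Set.univ = Set.univ := by
    refine Set.eq_univ_of_forall fun q => ⟨(u⁻¹ * q.1, q.2), trivial, ?_⟩
    simp
  have h1 := ev_inj_iff hf Df.univ hinj (p := p)
  rw [himg] at h1
  exact h1.1 h

theorem ev2_right {p : Γ × Γ → Prop} (h : ∀ᶠ q in gen (Set.univ : Set (Γ × Γ)), p q) (u : Γ) :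
    ∀ᶠ q in gen (Set.univ : Set (Γ × Γ)), p (q.1, u * q.2) := by
  have hf : DfFun (fun q : Γ × Γ => (q.1, u * q.2)) := by fun_prop
  have hinj : Set.InjOn (fun q : Γ × Γ => (q.1, u * q.2)) Set.univ := by
    rintro ⟨a, b⟩ - ⟨a', b'⟩ - h
    simp only [Prod.mk.injEq, mul_right_inj] at h
    exact Prod.ext h.1 h.2
  have himg : (fun q : Γ × Γ => (q.1, u * q.2)) '' Set.univ = Set.univ := by
    refine Set.eq_univ_of_forall fun q => ⟨(q.1, u⁻¹ * q.2), trivial, ?_⟩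
    simp
  have h1 := ev_inj_iff hf Df.univ hinj (p := p)
  rw [himg] at h1
  exact h1.1 h

theorem ev2_swap {p : Γ × Γ → Prop} (h : ∀ᶠ q in gen (Set.univ : Set (Γ × Γ)), p q) :
    ∀ᶠ q in gen (Set.univ : Set (Γ × Γ)), p (q.2, q.1) := by
  have hf : DfFun (fun q : Γ × Γ => (q.2, q.1)) := by fun_prop
  have hinj : Set.InjOn (fun q : Γ × Γ => (q.2, q.1)) Set.univ := by
    rintro ⟨a, b⟩ - ⟨a', b'⟩ - h
    simp only [Prod.mk.injEq] at h
    exact Prod.ext h.2 h.1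
  have himg : (fun q : Γ × Γ => (q.2, q.1)) '' Set.univ = Set.univ :=
    Set.eq_univ_of_forall fun q => ⟨(q.2, q.1), trivial, rfl⟩
  have h1 := ev_inj_iff hf Df.univ hinj (p := p)
  rw [himg] at h1
  exact h1.1 h

theorem exists_cosets {G : Type u} [Group G] {K L : Subgroup G} (h : K.relIndex L ≠ 0) :
    ∃ F : Set G, F.Finite ∧ F ⊆ L ∧ ∀ x ∈ L, ∃ c ∈ F, x * c⁻¹ ∈ K := by
  have hfi : (K.subgroupOf L).FiniteIndex := ⟨h⟩
  have hfin : Finite (L ⧸ K.subgroupOf L) := inferInstance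
  refine ⟨Set.range fun a : L ⧸ K.subgroupOf L => ((a.out : L) : G)⁻¹, Set.finite_range _,
    ?_, ?_⟩
  · rintro _ ⟨a, rfl⟩
    exact L.inv_mem (a.out : L).2
  · intro x hx
    refine ⟨_, ⟨QuotientGroup.mk (⟨x⁻¹, L.inv_mem hx⟩ : L), rfl⟩, ?_⟩
    have h1 := QuotientGroup.mk_out_eq_mul (K.subgroupOf L) (⟨x⁻¹, L.inv_mem hx⟩ : L)
    obtain ⟨k, hk⟩ := h1
    rw [inv_inv, hk]
    show x * (x⁻¹ * ((k : L) : G)) ∈ K
    rw [mul_inv_cancel_left]
    exact Subgroup.mem_subgroupOf.1 k.2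

/-- a definable function with values in `L` is generically in one coset of `K` -/
theorem ev_coset (hG : Conn (⊤ : Subgroup Γ)) {K L : Subgroup Γ} (hK : Df (K : Set Γ))
    (h : K.relIndex L ≠ 0) {ψ : Γ × Γ → Γ} (hψ : DfFun ψ)
    (hL : ∀ᶠ q in gen (Set.univ : Set (Γ × Γ)), ψ q ∈ L) :
    ∃ c ∈ L, ∀ᶠ q in gen (Set.univ : Set (Γ × Γ)), ψ q * c⁻¹ ∈ K := by
  obtain ⟨F, hF, hFL, hcov⟩ := exists_cosets h
  have h1 : ∀ᶠ q in gen (Set.univ : Set (Γ × Γ)), ∃ c ∈ F, ψ q * c⁻¹ ∈ K := by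
    filter_upwards [hL] with q hq
    exact hcov _ hq
  obtain ⟨c, hc, hc2⟩ := Irr.ev_of_finite_cases hF (irr_univ2 hG)
    (p := fun c q => ψ q * c⁻¹ ∈ K) (fun c _ => by
      refine DfP.mem (S := (K : Set Γ)) hK ?_
      exact hψ.mul (DfFun.const _)) h1
  exact ⟨c, hFL hc, hc2⟩

end Pool.Agent.A1C
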