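import Pool.Agent.A1C.MB2
import Pool.Agent.A1C.MC2
import Pool.Agent.A1C.MD0

/-!
# MD1: there are no central `2`-elements (part 0b; replaces M4-M6 for `Z ≠ 1`)

Notation `x ^ g = g⁻¹ * x * g`.
`Z2_bot`. Take `t` with `T2 t`, `t ∉ Z2 Γ` (`exists_T2_notMem`), `E` with `hE` (`exists_E`), and `ζ ∈ Z2 Γ`; to show `ζ = 1`.
`t * ζ` is a `2`-element not in `Z2 Γ`, so `t * ζ = t ^ u` for some `u` (`conj'`). `V = idc (cen t)`, `NoInv V` (`noInv_cen`).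
For `q : Γ × Γ` put `i = t ^ q.1`, `j = t ^ q.2`, `y = i⁻¹ * j`, `z = p2 E y`, `ψ q = q.1 * z * q.1⁻¹`; `ψ` is definable (`dfFun_p2`, `fun_prop`).
(1) `i` inverts `y`: `i * i = j * j` is central (`t * t ∈ Z2 Γ` by `sq_mem`, and conjugation fixes it), so
  `i⁻¹ * y * i = i⁻¹ * i⁻¹ * j * i = j⁻¹ * i = y⁻¹` [`i⁻¹ * i⁻¹ = (i * i)⁻¹ = (j * j)⁻¹` central]. By `p2_conj`, `p2_inv`: `i⁻¹ * z * i = z⁻¹`.
(2) `z⁻¹ * i * z = i * (i⁻¹ * z⁻¹ * i) * z = i * z * z`, and `z * z ∈ Z2 Γ` by `sq_mem` (`p2_T2`). Conjugating by `q.1⁻¹`: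
  `(ψ q)⁻¹ * t * ψ q = t * (z * z)`. So `ψ q ∈ L`, where `L = {u | t⁻¹ * (u⁻¹ * t * u) ∈ Z2 Γ}` is a subgroup (`Z2 Γ` is central).
(3) `V.relIndex L ≠ 0`: `cen t ≤ L`, `V` has finite index in `cen t` (`idc_index`), and `cen t` has finite index in `L`, because
  `u ↦ t⁻¹ * (u⁻¹ * t * u)` is a map of `L` to the finite set `Z2 Γ` (`Z2_finite`) which takes equal values at `u, u'` only if
  `u * u'⁻¹ ∈ cen t` (or: it is a homomorphism `L → Z2 Γ` with kernel `cen t`; `Subgroup.relIndex_ker`). `Subgroup.relIndex_ne_zero_trans`.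
(4) `ev_coset` for `K = V`, `L`: `c ∈ L` with `∀ᶠ q, ψ q * c⁻¹ ∈ V`. By `ev2_right` with `u`: `∀ᶠ q, ψ (q.1, u * q.2) * c⁻¹ ∈ V`. But
  `t ^ (u * q.2) = (t * ζ) ^ q.2 = j * ζ`, so `ψ (q.1, u * q.2) = q.1 * (z * ζ) * q.1⁻¹ = ψ q * ζ` (`p2_mul_Z2`, `ζ` central). For one `q` with both
  (`ev_exists`): `ζ = (ψ q * ζ * c⁻¹) * (ψ q * c⁻¹)⁻¹ ∈ V` (`ζ` central), so `ζ = 1` by `NoInv.two_pow`.
`sq_one`: `sq_mem` and `Z2_bot`. `notMem_Z2`, `conj`, `noInv`: special cases of the earlier results for involutions (`T2.of_sq`).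

-/

set_option autoImplicit false

namespace Pool.Agent.A1C

universe u

variable {M : Type u} [Univ M] {Γ : Type u} [Group Γ] [DGrp M Γ]

open Filter

private theorem invConj51 {G : Type u} [Group G] {i j : G} (h : i * i = j * j) :
    i⁻¹ * (i⁻¹ * j) * i = (i⁻¹ * j)⁻¹ := by
  have e2 : i⁻¹ * i⁻¹ = j⁻¹ * j⁻¹ := by
    rw [← mul_inv_rev, ← mul_inv_rev, h]
  have e3 : i⁻¹ * (i⁻¹ * j) * i = (i⁻¹ * i⁻¹) * j * i := by group
  rw [e3, e2]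
  group

private theorem flip51 {G : Type u} [Group G] {i z : G} (h : i⁻¹ * z * i = z⁻¹) :
    i⁻¹ * z⁻¹ * i = z := by
  have e : i⁻¹ * z⁻¹ * i = (i⁻¹ * z * i)⁻¹ := by group
  rw [e, h, inv_inv]

private theorem finIndex51 {G : Type u} [Group G] {t : G} (hfin : (Z2 G : Set G).Finite)
    (L : Subgroup G) (hL : ∀ u, u ∈ L ↔ t⁻¹ * (u⁻¹ * t * u) ∈ Z2 G) :
    (cen t).relIndex L ≠ 0 := by
  have hm : ∀ a b : L, t⁻¹ * ((((a * b : L) : G))⁻¹ * t * ((a * b : L) : G)) =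
      (t⁻¹ * ((a : G)⁻¹ * t * a)) * (t⁻¹ * ((b : G)⁻¹ * t * b)) := by
    intro a b
    have hz := ((hL a).1 a.2).1 (b : G)
    have e1 : t⁻¹ * ((((a * b : L) : G))⁻¹ * t * ((a * b : L) : G)) =
        (t⁻¹ * ((b : G)⁻¹ * t * b)) * ((b : G)⁻¹ * ((t⁻¹ * ((a : G)⁻¹ * t * a)) * b)) := by
      rw [Subgroup.coe_mul]
      group
    rw [e1, hz, ← mul_assoc (b : G)⁻¹, inv_mul_cancel, one_mul]
    exact (((hL a).1 a.2).1 _).symm
  let f : L →* G :=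
    { toFun := fun a => t⁻¹ * ((a : G)⁻¹ * t * a)
      map_one' := by simp
      map_mul' := hm }
  have hk : (cen t).subgroupOf L = f.ker := by
    ext a
    rw [Subgroup.mem_subgroupOf, MonoidHom.mem_ker, mem_cen]
    show _ ↔ t⁻¹ * ((a : G)⁻¹ * t * a) = 1
    constructor
    · intro h
      rw [mul_assoc, ← h]
      simp
    · intro h
      have h1 : (a : G)⁻¹ * t * a = t := by
        have := eq_mul_of_inv_mul_eq h
        simpa using this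
      have h2 : t * a = a * t := by
        rw [mul_assoc, inv_mul_eq_iff_eq_mul] at h1
        exact h1
      exact h2.symm
  have h1 : (cen t).relIndex L = Nat.card f.range := by
    rw [Subgroup.relIndex, hk, Subgroup.index_ker]
  rw [h1]
  have hfr : (f.range : Set G).Finite := by
    refine hfin.subset ?_
    rintro _ ⟨a, rfl⟩
    exact (hL a).1 a.2
  have : Finite f.range := hfr.to_subtype
  exact Nat.card_pos.ne'

theorem MinG.Z2_bot (hΓ : MinG Γ) : Z2 Γ = ⊥ := by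
  obtain ⟨t, ht, htz⟩ := hΓ.exists_T2_notMem
  obtain ⟨E, hE⟩ := hΓ.exists_E
  rw [Subgroup.eq_bot_iff_forall]
  intro ζ hζ
  have hζc : ∀ y, ζ * y = y * ζ := hζ.1
  have htζ : T2 (t * ζ) := ht.mul (hζc t).symm hζ.2
  have htζz : t * ζ ∉ Z2 Γ := fun h => htz (by
    have := (Z2 Γ).mul_mem h ((Z2 Γ).inv_mem hζ)
    simpa using this)
  obtain ⟨u, hu⟩ := hΓ.conj' ht htz htζ htζz
  have hVn : NoInv (idc (cen t)) := hΓ.noInv_cen ht htz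
  have hVd : Df (idc (cen t) : Set Γ) := (idc_conn (df_cen t)).1
  have htt : ∀ y, (t * t) * y = y * (t * t) := (hΓ.sq_mem ht).1
  let L : Subgroup Γ :=
    { carrier := {u | t⁻¹ * (u⁻¹ * t * u) ∈ Z2 Γ}
      mul_mem' := by
        intro a b ha hb
        have hz := ha.1 b
        have e1 : t⁻¹ * ((a * b)⁻¹ * t * (a * b)) =
            (t⁻¹ * (b⁻¹ * t * b)) * (b⁻¹ * ((t⁻¹ * (a⁻¹ * t * a)) * b)) := by
          group
        show t⁻¹ * ((a * b)⁻¹ * t * (a * b)) ∈ Z2 Γ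
        rw [e1, hz, ← mul_assoc b⁻¹, inv_mul_cancel, one_mul]
        exact (Z2 Γ).mul_mem hb ha
      one_mem' := by
        show t⁻¹ * (1⁻¹ * t * 1) ∈ Z2 Γ
        have : t⁻¹ * ((1 : Γ)⁻¹ * t * 1) = 1 := by group
        rw [this]
        exact (Z2 Γ).one_mem
      inv_mem' := by
        intro a ha
        have hi := (Z2 Γ).inv_mem ha
        have e1 : t⁻¹ * (a⁻¹⁻¹ * t * a⁻¹) = a * (t⁻¹ * (a⁻¹ * t * a))⁻¹ * a⁻¹ := by
          group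
        show t⁻¹ * (a⁻¹⁻¹ * t * a⁻¹) ∈ Z2 Γ
        rw [e1, ← hi.1 a, mul_assoc, mul_inv_cancel, mul_one]
        exact hi }
  have hL : ∀ u, u ∈ L ↔ t⁻¹ * (u⁻¹ * t * u) ∈ Z2 Γ := fun u => Iff.rfl
  have hidx : (idc (cen t)).relIndex L ≠ 0 :=
    Subgroup.relIndex_ne_zero_trans (idc_index (df_cen t)) (finIndex51 hΓ.Z2_finite L hL)
  set y : Γ × Γ → Γ := fun q => (q.1⁻¹ * t * q.1)⁻¹ * (q.2⁻¹ * t * q.2) with hy
  set ψ : Γ × Γ → Γ := fun q => q.1 * p2 E (y q) * q.1⁻¹ with hψ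
  have hyd : DfFun y := by
    rw [hy]
    fun_prop
  have hψd : DfFun ψ := by
    have h1 : DfFun (fun q : Γ × Γ => p2 E (y q)) := DfFun.comp (dfFun_p2 hΓ hE) hyd
    have h2 : DfFun (fun q : Γ × Γ => q.1) := DfFun.fst
    exact (h2.mul h1).mul h2.inv
  have hsq : ∀ g : Γ, (g⁻¹ * t * g) * (g⁻¹ * t * g) = t * t := by
    intro g
    have e1 : (g⁻¹ * t * g) * (g⁻¹ * t * g) = g⁻¹ * ((t * t) * g) := by group
    rw [e1, htt, ← mul_assoc, inv_mul_cancel, one_mul]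
  have hψL : ∀ q, ψ q ∈ L := by
    intro q
    rw [hL]
    have hi := hsq q.1
    have hj := hsq q.2
    set i := q.1⁻¹ * t * q.1 with hidef
    set j := q.2⁻¹ * t * q.2 with hjdef
    set z := p2 E (y q) with hz
    have e1 : i⁻¹ * (y q) * i = (y q)⁻¹ := invConj51 (hi.trans hj.symm)
    have e3 : i⁻¹ * z * i = z⁻¹ := by
      rw [hz, ← p2_conj hΓ hE, e1, p2_inv hΓ hE]
    have e4 : i⁻¹ * z⁻¹ * i = z := flip51 e3
    have hzz := hΓ.sq_mem (p2_T2 hΓ hE (y q))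
    rw [← hz] at hzz
    have e5 : t⁻¹ * ((ψ q)⁻¹ * t * ψ q) = z * z := by
      have e6 : (ψ q)⁻¹ * t * ψ q = q.1 * (i * ((i⁻¹ * z⁻¹ * i) * z)) * q.1⁻¹ := by
        show (q.1 * z * q.1⁻¹)⁻¹ * t * (q.1 * z * q.1⁻¹) = _
        rw [hidef]
        group
      rw [e6, e4]
      have e7 : q.1 * (i * (z * z)) * q.1⁻¹ = (q.1 * i) * ((z * z) * q.1⁻¹) := by group
      rw [e7, hzz.1, hidef]
      group
    rw [e5]
    exact hzz
  obtain ⟨c, -, hc⟩ := ev_coset hΓ.conn hVd hidx hψd (Eventually.of_forall hψL)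
  have hc2 := ev2_right hc u
  have hne : (Set.univ : Set (Γ × Γ)).Nonempty := ⟨(1, 1), trivial⟩
  obtain ⟨q, -, h1, h2⟩ := ev_exists hne (hc.and hc2)
  have e1 : ψ (q.1, u * q.2) = ψ q * ζ := by
    have e2 : y (q.1, u * q.2) = y q * ζ := by
      show (q.1⁻¹ * t * q.1)⁻¹ * ((u * q.2)⁻¹ * t * (u * q.2)) =
        (q.1⁻¹ * t * q.1)⁻¹ * (q.2⁻¹ * t * q.2) * ζ
      have e3 : (u * q.2)⁻¹ * t * (u * q.2) = q.2⁻¹ * (u⁻¹ * t * u) * q.2 := by group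
      rw [e3, ← hu]
      have e4 : q.2⁻¹ * (t * ζ) * q.2 = q.2⁻¹ * t * (ζ * q.2) := by group
      rw [e4, hζc]
      group
    show q.1 * p2 E (y (q.1, u * q.2)) * q.1⁻¹ = q.1 * p2 E (y q) * q.1⁻¹ * ζ
    have e5 : q.1 * (p2 E (y q) * ζ) * q.1⁻¹ = q.1 * p2 E (y q) * (ζ * q.1⁻¹) := by group
    rw [e2, p2_mul_Z2 hΓ hE _ hζ, e5, hζc]
    group
  rw [e1] at h2
  have h3 : ζ ∈ idc (cen t) := by
    have h4 := (idc (cen t)).mul_mem h2 ((idc (cen t)).inv_mem h1)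
    have e2 : ψ q * ζ * c⁻¹ * (ψ q * c⁻¹)⁻¹ = ζ := by
      rw [← hζc (ψ q)]
      group
    rwa [e2] at h4
  obtain ⟨n, hn⟩ := hζ.2
  exact hVn.two_pow h3 n hn

theorem MinG.sq_one (hΓ : MinG Γ) {x : Γ} (hx : T2 x) : x * x = 1 := by
  have h1 := hΓ.sq_mem hx
  rw [hΓ.Z2_bot, Subgroup.mem_bot] at h1
  exact h1

theorem MinG.hE1 (hΓ : MinG Γ) : ∀ x : Γ, T2 x → x ^ (2 ^ 1) = 1 := by
  intro x hx
  rw [pow_one, pow_two]
  exact hΓ.sq_one hx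

theorem MinG.conj (hΓ : MinG Γ) {a b : Γ} (ha : a * a = 1) (ha1 : a ≠ 1) (hb : b * b = 1)
    (hb1 : b ≠ 1) : ∃ g : Γ, b = g⁻¹ * a * g := by
  have h : ∀ x : Γ, x ≠ 1 → x ∉ Z2 Γ := by
    intro x hx
    rw [hΓ.Z2_bot, Subgroup.mem_bot]
    exact hx
  exact hΓ.conj' (T2.of_sq ha) (h a ha1) (T2.of_sq hb) (h b hb1)

theorem MinG.noInv (hΓ : MinG Γ) {a : Γ} (ha : a * a = 1) (ha1 : a ≠ 1) :
    NoInv (idc (cen a)) := by
  refine hΓ.noInv_cen (T2.of_sq ha) ?_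
  rw [hΓ.Z2_bot, Subgroup.mem_bot]
  exact ha1

end Pool.Agent.A1C
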