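import Pool.Agent.A1C.MD1

/-!
# ME1: two involutions (part 0b, M4 with `Z = 1`)

`E = 1`, `hE = hΓ.hE1`. `zz i j = p2 1 (i * j)`, `xx i j = rt 1 (i * j)`, `y = i * j`.
`i⁻¹ * y * i = i * i * j * i = j * i = y⁻¹`, in the same way `j` inverts `y`. By `p2_conj`, `p2_inv`: `i * z * i = z⁻¹`. `z * z = 1` (`p2_T2`, `sq_one`), so `z` commutes with
`i`, and with `j`. `j * i = y⁻¹`, so `zz j i = (zz i j)⁻¹ = zz i j`. `rt_conj`, `rt_inv`: `i * x * i = x⁻¹`, so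
`x⁻¹ * i * x = i * (i * x⁻¹ * i) * x = i * (x * x)`, and `y = z * (x * x)` (`p2_rt`), `x * x = z * y` (`z * z = 1`), `i * (x * x) = i * z * i * j = z * j = j * z`.
Definability: `dfFun_p2`, `dfFun_rt`.

-/

set_option autoImplicit false

namespace Pool.Agent.A1C

universe u

variable {M : Type u} [Univ M] {Γ : Type u} [Group Γ] [DGrp M Γ]

open Filter

/-- the `2`-part of `i * j` -/
noncomputable def zz {G : Type u} [Group G] (i j : G) : G := p2 1 (i * j)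

/-- the square root of the `2'`-part of `i * j` -/
noncomputable def xx {G : Type u} [Group G] (i j : G) : G := rt 1 (i * j)

private theorem conjInv51 {G : Type u} [Group G] {i j : G} (hi : i * i = 1) (hj : j * j = 1) :
    i⁻¹ * (i * j) * i = (i * j)⁻¹ ∧ j⁻¹ * (i * j) * j = (i * j)⁻¹ ∧ (i * j)⁻¹ = j * i := by
  have hi' : i⁻¹ = i := inv_eq_of_mul_eq_one_left hi
  have hj' : j⁻¹ = j := inv_eq_of_mul_eq_one_left hj
  have e3 : (i * j)⁻¹ = j * i := by rw [mul_inv_rev, hi', hj']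
  refine ⟨?_, ?_, e3⟩
  · rw [e3]
    group
  · rw [e3, hj', mul_assoc j, mul_assoc i, hj, mul_one]

private theorem zinv51 (hΓ : MinG Γ) (i j : Γ) : (zz i j)⁻¹ = zz i j := by
  refine inv_eq_of_mul_eq_one_left ?_
  exact hΓ.sq_one (p2_T2 hΓ hΓ.hE1 (i * j))

section

variable (hΓ : MinG Γ)
include hΓ

theorem zz_sq (i j : Γ) : zz i j * zz i j = 1 := by
  exact hΓ.sq_one (p2_T2 hΓ hΓ.hE1 (i * j))

theorem zz_conj (i j g : Γ) : zz (g⁻¹ * i * g) (g⁻¹ * j * g) = g⁻¹ * zz i j * g := by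
  unfold zz
  have e : g⁻¹ * i * g * (g⁻¹ * j * g) = g⁻¹ * (i * j) * g := by group
  rw [e, p2_conj hΓ hΓ.hE1]

theorem zz_xx_comm (i j : Γ) : zz i j * xx i j = xx i j * zz i j := by
  exact (p2_rt hΓ hΓ.hE1 (i * j)).2

theorem zz_comm_left {i j : Γ} (hi : i * i = 1) (hj : j * j = 1) : zz i j * i = i * zz i j := by
  have h1 : i⁻¹ * zz i j * i = (zz i j)⁻¹ := by
    unfold zz
    rw [← p2_conj hΓ hΓ.hE1, (conjInv51 hi hj).1, p2_inv hΓ hΓ.hE1]
  rw [zinv51 hΓ] at h1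
  rw [mul_assoc, inv_mul_eq_iff_eq_mul] at h1
  exact h1

theorem zz_comm_right {i j : Γ} (hi : i * i = 1) (hj : j * j = 1) :
    zz i j * j = j * zz i j := by
  have h1 : j⁻¹ * zz i j * j = (zz i j)⁻¹ := by
    unfold zz
    rw [← p2_conj hΓ hΓ.hE1, (conjInv51 hi hj).2.1, p2_inv hΓ hΓ.hE1]
  rw [zinv51 hΓ] at h1
  rw [mul_assoc, inv_mul_eq_iff_eq_mul] at h1
  exact h1

theorem zz_symm {i j : Γ} (hi : i * i = 1) (hj : j * j = 1) : zz j i = zz i j := by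
  have h1 : zz j i = (zz i j)⁻¹ := by
    unfold zz
    rw [← (conjInv51 hi hj).2.2, p2_inv hΓ hΓ.hE1]
  rw [h1, zinv51 hΓ]

theorem xx_conj {i j : Γ} (hi : i * i = 1) (hj : j * j = 1) :
    (xx i j)⁻¹ * i * xx i j = j * zz i j := by
  have hi' : i⁻¹ = i := inv_eq_of_mul_eq_one_left hi
  have h1 : i⁻¹ * xx i j * i = (xx i j)⁻¹ := by
    unfold xx
    rw [← rt_conj hΓ hΓ.hE1, (conjInv51 hi hj).1, rt_inv hΓ hΓ.hE1]
  have h2 : i * j = zz i j * (xx i j * xx i j) := (p2_rt hΓ hΓ.hE1 (i * j)).1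
  have h3 := zz_comm_left hΓ hi hj
  have h4 := zz_comm_right hΓ hi hj
  have h5 := zz_sq hΓ i j
  rw [← h1, hi']
  have e1 : i * xx i j * i * i * xx i j = i * xx i j * (i * i) * xx i j := by group
  rw [e1, hi, mul_one, mul_assoc]
  have h6 : xx i j * xx i j = zz i j * (i * j) := by
    rw [h2, ← mul_assoc, h5, one_mul]
  rw [h6, ← mul_assoc, ← h3, mul_assoc, ← mul_assoc i i j, hi, one_mul, h4]

theorem dfFun_zz {X : Type u} [DTy M X] {f g : X → Γ} (hf : DfFun f) (hg : DfFun g) :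
    DfFun (fun x => zz (f x) (g x)) := by
  exact DfFun.comp (dfFun_p2 hΓ hΓ.hE1) (hf.mul hg)

theorem dfFun_xx {X : Type u} [DTy M X] {f g : X → Γ} (hf : DfFun f) (hg : DfFun g) :
    DfFun (fun x => xx (f x) (g x)) := by
  exact DfFun.comp (dfFun_rt hΓ hΓ.hE1) (hf.mul hg)

end

end Pool.Agent.A1C
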