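import Pool.Agent.A1C.ME1

/-!
# ME2: generically the `2`-part is not trivial (part 0b, M5)

Let `i = q.1⁻¹ * t * q.1`, `j = q.2⁻¹ * t * q.2` (involutions), `z = zz i j`, `x = xx i j`. Suppose the claim fails; by `Irr.not_ev` (`irr_univ2`, `DfP.eq`,
`dfFun_zz`) `∀ᶠ q, z = 1` (`¬ ¬`). Let `φ q = q.1 * x * q.2⁻¹` (definable). If `z = 1` then, by `xx_conj`,
`(φ q)⁻¹ * t * φ q = q.2 * (x⁻¹ * i * x) * q.2⁻¹ = q.2 * j * q.2⁻¹ = t`, so `φ q ∈ cen t`. `ev_coset` with `L = cen t`, `K = idc (cen t)`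
(`idc_index (df_cen t)`): `c` with `∀ᶠ q, φ q * c⁻¹ ∈ K`. `ev2_left` with `u = t`: since `(t * q.1)⁻¹ * t * (t * q.1) = q.1⁻¹ * t * q.1`,
`φ (t * q.1, q.2) = t * φ q`, so `∀ᶠ q, t * φ q * c⁻¹ ∈ K`. Hence `t ∈ K` (`ev_exists`), contradiction to `hΓ.noInv ht ht1`.

-/

set_option autoImplicit false

namespace Pool.Agent.A1C

universe u

variable {M : Type u} [Univ M] {Γ : Type u} [Group Γ] [DGrp M Γ]

open Filter

theorem MinG.ev_zz_ne (hΓ : MinG Γ) {t : Γ} (ht : t * t = 1) (ht1 : t ≠ 1) :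
    ∀ᶠ q in gen (Set.univ : Set (Γ × Γ)),
      zz (q.1⁻¹ * t * q.1) (q.2⁻¹ * t * q.2) ≠ 1 := by
  set z : Γ × Γ → Γ := fun q => zz (q.1⁻¹ * t * q.1) (q.2⁻¹ * t * q.2) with hz
  have hzd : DfFun z := dfFun_zz hΓ (f := fun q : Γ × Γ => q.1⁻¹ * t * q.1)
    (g := fun q : Γ × Γ => q.2⁻¹ * t * q.2) (by fun_prop) (by fun_prop)
  have hxd : DfFun (fun q : Γ × Γ => xx (q.1⁻¹ * t * q.1) (q.2⁻¹ * t * q.2)) :=
    dfFun_xx hΓ (f := fun q : Γ × Γ => q.1⁻¹ * t * q.1)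
    (g := fun q : Γ × Γ => q.2⁻¹ * t * q.2) (by fun_prop) (by fun_prop)
  by_contra hcon
  have hzP : DfP (fun q : Γ × Γ => z q = 1) := DfP.eq hzd (DfFun.const 1)
  have h1 : ∀ᶠ q in gen (Set.univ : Set (Γ × Γ)), z q = 1 := by
    have h2 := ((irr_univ2 hΓ.conn).not_ev hzP.not).1 hcon
    filter_upwards [h2] with q hq
    exact not_not.1 hq
  have hinvc : ∀ g : Γ, (g⁻¹ * t * g) * (g⁻¹ * t * g) = 1 := by
    intro g
    have e1 : (g⁻¹ * t * g) * (g⁻¹ * t * g) = g⁻¹ * ((t * t) * g) := by group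
    rw [e1, ht, one_mul, inv_mul_cancel]
  set φ : Γ × Γ → Γ := fun q => q.1 * xx (q.1⁻¹ * t * q.1) (q.2⁻¹ * t * q.2) * q.2⁻¹ with hφ
  have hφd : DfFun φ := by
    have h2 : DfFun (fun q : Γ × Γ => q.1) := DfFun.fst
    have h3 : DfFun (fun q : Γ × Γ => q.2) := DfFun.snd
    exact (h2.mul hxd).mul h3.inv
  have h2 : ∀ᶠ q in gen (Set.univ : Set (Γ × Γ)), φ q ∈ cen t := by
    filter_upwards [h1] with q hq
    have h3 := xx_conj hΓ (hinvc q.1) (hinvc q.2)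
    have hq' : zz (q.1⁻¹ * t * q.1) (q.2⁻¹ * t * q.2) = 1 := hq
    rw [hq', mul_one] at h3
    rw [mem_cen]
    show q.1 * xx (q.1⁻¹ * t * q.1) (q.2⁻¹ * t * q.2) * q.2⁻¹ * t =
      t * (q.1 * xx (q.1⁻¹ * t * q.1) (q.2⁻¹ * t * q.2) * q.2⁻¹)
    generalize xx (q.1⁻¹ * t * q.1) (q.2⁻¹ * t * q.2) = x at h3 ⊢
    have e1 : q.1 * x * q.2⁻¹ * t = q.1 * x * (q.2⁻¹ * t * q.2) * q.2⁻¹ := by group
    rw [e1, ← h3]
    group
  obtain ⟨c, -, hc⟩ := ev_coset hΓ.conn (idc_conn (df_cen t)).1 (idc_index (df_cen t)) hφd h2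
  have hne : (Set.univ : Set (Γ × Γ)).Nonempty := ⟨(1, 1), trivial⟩
  obtain ⟨q, -, h3, h4⟩ := ev_exists hne (hc.and (ev2_left hc t))
  have e1 : φ (t * q.1, q.2) = t * φ q := by
    have e2 : (t * q.1)⁻¹ * t * (t * q.1) = q.1⁻¹ * t * q.1 := by group
    show (t * q.1) * xx ((t * q.1)⁻¹ * t * (t * q.1)) (q.2⁻¹ * t * q.2) * q.2⁻¹ =
      t * (q.1 * xx (q.1⁻¹ * t * q.1) (q.2⁻¹ * t * q.2) * q.2⁻¹)
    rw [e2]
    group
  rw [e1] at h4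
  have h5 := (idc (cen t)).mul_mem h4 ((idc (cen t)).inv_mem h3)
  have e2 : t * φ q * c⁻¹ * (φ q * c⁻¹)⁻¹ = t := by group
  rw [e2] at h5
  exact ht1 (hΓ.noInv ht ht1 t h5 ht)

end Pool.Agent.A1C
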