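import Pool.Agent.A1C.ME2

/-!
# MF1: the cosets `κ s` (part 0b, M6)

Fix an involution `t` (`hΓ.inv`), `V = idc (cen t)`. `V` is normal in `cen t`: for `v ∈ cen t`, `w ∈ V`: `v * w * v⁻¹ ∈ V` (`idc_normal`).
`ψ q = q.1 * zz i j * q.1⁻¹` with `i = q.1⁻¹ * t * q.1`, `j = q.2⁻¹ * t * q.2`. `zz i j` commutes with `i` (`zz_comm_left`), so `ψ q ∈ cen t`.
`ev_coset` (`L = cen t`, `K = V`): `c ∈ cen t` with `∀ᶠ q, ψ q * c⁻¹ ∈ V`. Put `κt = {y | y * c⁻¹ ∈ V}`, `κ s = {y | ∃ g, s = g⁻¹ * t * g ∧ g * y * g⁻¹ ∈ κt}`.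
(a) For `v ∈ cen t`: `v * c * v⁻¹ * c⁻¹ ∈ V`: `ev2_left` with `u = v`: `(v * q.1)⁻¹ * t * (v * q.1) = i`, so `ψ (v * q.1, q.2) = v * ψ q * v⁻¹`;
  for one `q`: `w = ψ q * c⁻¹ ∈ V` and `v * ψ q * v⁻¹ * c⁻¹ = (v * w * v⁻¹) * (v * c * v⁻¹ * c⁻¹) ∈ V`.
(b) So `y ∈ κt ↔ v * y * v⁻¹ ∈ κt` for `v ∈ cen t` (`→` from (a): `v * y * v⁻¹ * c⁻¹ = (v * (y * c⁻¹) * v⁻¹) * (v * c * v⁻¹ * c⁻¹)`; `←` with `v⁻¹`).
(c) If `s = g⁻¹ * t * g` then `y ∈ κ s ↔ g * y * g⁻¹ ∈ κt` (two such `g, g'` differ by `g' * g⁻¹ ∈ cen t`).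
`conj`: every involution `s` is `g⁻¹ * t * g` (`hΓ.conj`), then (c) for `s` and for `h⁻¹ * s * h` with `g * h`.
`cen`: `g * p * g⁻¹ ∈ κt ⊆ cen t` (`V ≤ cen t`, `c ∈ cen t`), conjugate by `g`.
`coset`: `idc (cen s) = cj V g` (`idc_cj`, `cen s = cj (cen t) g`), so the claim is: for `P = g * p * g⁻¹ ∈ κt`: `Q ∈ κt ↔ P⁻¹ * Q ∈ V`. `P = w * c`, `w ∈ V`, and
  `Q * c⁻¹ = P * (P⁻¹ * Q) * P⁻¹ * w`, `P ∈ cen t` normalises `V`.
`good`: take `q` generic such that `ψ q ∈ κt`, `ψ (q.2, q.1) ∈ κt` (`ev2_swap`) and `zz i j ≠ 1` (`ev_zz_ne`); `s = j`, `z = zz i j`.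
  `z ∈ κ i` and `z = zz j i ∈ κ j` by (c) (`zz_symm`); `z * z = 1`. With `x = xx i j`: `x⁻¹ * i * x = j * z` (`xx_conj`), so `j * z ≠ 1`, and by `conj`
  `z ∈ κ (x⁻¹ * i * x) ↔ x * z * x⁻¹ ∈ κ i`, and `x * z * x⁻¹ = z` (`zz_xx_comm`).

-/

set_option autoImplicit false

namespace Pool.Agent.A1C

universe u

variable {M : Type u} [Univ M] {Γ : Type u} [Group Γ] [DGrp M Γ]

open Filter

theorem MinG.exists_kappa (hΓ : MinG Γ) : ∃ κ : Γ → Set Γ, IsKappa κ := by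
  obtain ⟨t, ht, ht1⟩ := hΓ.inv
  set V := idc (cen t) with hV
  have hVd : Df (V : Set Γ) := (idc_conn (df_cen t)).1
  have hVle : V ≤ cen t := idc_le _
  -- normality
  have hnorm : ∀ v ∈ cen t, ∀ w ∈ V, v * w * v⁻¹ ∈ V := by
    intro v hv w hw
    refine idc_normal (df_cen t) (fun x => ?_) hw
    constructor
    · intro hx
      exact (cen t).mul_mem ((cen t).mul_mem hv hx) ((cen t).inv_mem hv)
    · intro hx
      have h1 := (cen t).mul_mem ((cen t).mul_mem ((cen t).inv_mem hv) hx) hv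
      have e : v⁻¹ * (v * x * v⁻¹) * v = x := by group
      rwa [e] at h1
  have hinvc : ∀ g : Γ, (g⁻¹ * t * g) * (g⁻¹ * t * g) = 1 := by
    intro g
    have e1 : (g⁻¹ * t * g) * (g⁻¹ * t * g) = g⁻¹ * ((t * t) * g) := by group
    rw [e1, ht, one_mul, inv_mul_cancel]
  set z : Γ × Γ → Γ := fun q => zz (q.1⁻¹ * t * q.1) (q.2⁻¹ * t * q.2) with hz
  set ψ : Γ × Γ → Γ := fun q => q.1 * z q * q.1⁻¹ with hψ
  have hzd : DfFun z := dfFun_zz hΓ (f := fun q : Γ × Γ => q.1⁻¹ * t * q.1)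
    (g := fun q : Γ × Γ => q.2⁻¹ * t * q.2) (by fun_prop) (by fun_prop)
  have hψd : DfFun ψ := by
    have h2 : DfFun (fun q : Γ × Γ => q.1) := DfFun.fst
    exact (h2.mul hzd).mul h2.inv
  have hψc : ∀ q, ψ q ∈ cen t := by
    intro q
    rw [mem_cen]
    have h1 := zz_comm_left hΓ (hinvc q.1) (hinvc q.2)
    have h2 : z q * (q.1⁻¹ * t * q.1) = (q.1⁻¹ * t * q.1) * z q := h1
    have e1 : ψ q * t = q.1 * (z q * (q.1⁻¹ * t * q.1)) * q.1⁻¹ := by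
      show q.1 * z q * q.1⁻¹ * t = _
      group
    rw [e1, h2]
    show _ = t * (q.1 * z q * q.1⁻¹)
    group
  obtain ⟨c, hcc, hc⟩ := ev_coset hΓ.conn hVd (idc_index (df_cen t)) hψd
    (Eventually.of_forall hψc)
  have hne : (Set.univ : Set (Γ × Γ)).Nonempty := ⟨(1, 1), trivial⟩
  have hψ1 : ∀ v ∈ cen t, ∀ q, ψ (v * q.1, q.2) = v * ψ q * v⁻¹ := by
    intro v hv q
    have e1 : (v * q.1)⁻¹ * t * (v * q.1) = q.1⁻¹ * t * q.1 := by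
      have h1 : v * t = t * v := hv
      have e2 : (v * q.1)⁻¹ * t * (v * q.1) = q.1⁻¹ * (v⁻¹ * (t * v)) * q.1 := by group
      rw [e2, ← h1, inv_mul_cancel_left]
    have e2 : z (v * q.1, q.2) = z q := by
      show zz ((v * q.1)⁻¹ * t * (v * q.1)) (q.2⁻¹ * t * q.2) = _
      rw [e1]
    show (v * q.1) * z (v * q.1, q.2) * (v * q.1)⁻¹ = v * (q.1 * z q * q.1⁻¹) * v⁻¹
    rw [e2]
    group
  -- (a)
  have ha : ∀ v ∈ cen t, v * c * v⁻¹ * c⁻¹ ∈ V := by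
    intro v hv
    obtain ⟨q, -, h1, h2⟩ := ev_exists hne (hc.and (ev2_left hc v))
    rw [hψ1 v hv] at h2
    have h3 := hnorm v hv _ h1
    have h4 := V.mul_mem (V.inv_mem h3) h2
    have e : (v * (ψ q * c⁻¹) * v⁻¹)⁻¹ * (v * ψ q * v⁻¹ * c⁻¹) = v * c * v⁻¹ * c⁻¹ := by group
    rwa [e] at h4
  -- (b)
  have hb1 : ∀ v ∈ cen t, ∀ y, y * c⁻¹ ∈ V → v * y * v⁻¹ * c⁻¹ ∈ V := by
    intro v hv y hy
    have h3 := V.mul_mem (hnorm v hv _ hy) (ha v hv)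
    have e : v * (y * c⁻¹) * v⁻¹ * (v * c * v⁻¹ * c⁻¹) = v * y * v⁻¹ * c⁻¹ := by group
    rwa [e] at h3
  have hb : ∀ v ∈ cen t, ∀ y, (y * c⁻¹ ∈ V ↔ v * y * v⁻¹ * c⁻¹ ∈ V) := by
    intro v hv y
    refine ⟨hb1 v hv y, fun h => ?_⟩
    have h1 := hb1 v⁻¹ ((cen t).inv_mem hv) _ h
    have e : v⁻¹ * (v * y * v⁻¹) * v⁻¹⁻¹ = y := by group
    rwa [e] at h1
  set κ : Γ → Set Γ := fun s => {y | ∃ g, s = g⁻¹ * t * g ∧ (g * y * g⁻¹) * c⁻¹ ∈ V} with hκ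
  -- (c)
  have hcκ : ∀ g y, y ∈ κ (g⁻¹ * t * g) ↔ (g * y * g⁻¹) * c⁻¹ ∈ V := by
    intro g y
    constructor
    · rintro ⟨g', hg', hy⟩
      have hv : g * g'⁻¹ ∈ cen t := by
        rw [mem_cen]
        have h1 : g * (g⁻¹ * t * g) * g'⁻¹ = g * (g'⁻¹ * t * g') * g'⁻¹ := by rw [hg']
        have e1 : g * (g⁻¹ * t * g) * g'⁻¹ = t * (g * g'⁻¹) := by group
        have e2 : g * (g'⁻¹ * t * g') * g'⁻¹ = g * g'⁻¹ * t := by group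
        rw [e1, e2] at h1
        exact h1.symm
      have h2 := hb1 _ hv _ hy
      have e : g * g'⁻¹ * (g' * y * g'⁻¹) * (g * g'⁻¹)⁻¹ = g * y * g⁻¹ := by group
      rwa [e] at h2
    · intro h
      exact ⟨g, rfl, h⟩
  have hall : ∀ s : Γ, s * s = 1 → s ≠ 1 → ∃ g, s = g⁻¹ * t * g := fun s hs hs1 =>
    hΓ.conj ht ht1 hs hs1
  have hconj : ∀ s, s * s = 1 → s ≠ 1 → ∀ g y, y ∈ κ (g⁻¹ * s * g) ↔ g * y * g⁻¹ ∈ κ s := by
    intro s hs hs1 g y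
    obtain ⟨g₀, rfl⟩ := hall s hs hs1
    have e1 : g⁻¹ * (g₀⁻¹ * t * g₀) * g = (g₀ * g)⁻¹ * t * (g₀ * g) := by group
    rw [e1, hcκ, hcκ]
    have e2 : g₀ * g * y * (g₀ * g)⁻¹ = g₀ * (g * y * g⁻¹) * g₀⁻¹ := by group
    rw [e2]
  have hκcen : ∀ y, y * c⁻¹ ∈ V → y ∈ cen t := by
    intro y hy
    have h1 := (cen t).mul_mem (hVle hy) hcc
    have e : y * c⁻¹ * c = y := by group
    rwa [e] at h1
  refine ⟨κ, ⟨hconj, ?_, ?_, ?_⟩⟩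
  · intro s hs hs1 p hp
    obtain ⟨g, rfl⟩ := hall s hs hs1
    rw [hcκ] at hp
    have h1 : (g * p * g⁻¹) * t = t * (g * p * g⁻¹) := hκcen _ hp
    have e1 : p * (g⁻¹ * t * g) = g⁻¹ * ((g * p * g⁻¹) * t) * g := by group
    rw [e1, h1]
    group
  · intro s hs hs1 p hp q
    obtain ⟨g, rfl⟩ := hall s hs hs1
    rw [hcκ] at hp ⊢
    have e1 : Pool.Agent.A1C.cen (g⁻¹ * t * g) = cj (Pool.Agent.A1C.cen t) g := by
      ext x
      rw [mem_cen, mem_cj, mem_cen]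
      constructor
      · intro h
        have e2 : g * x * g⁻¹ * t = g * (x * (g⁻¹ * t * g)) * g⁻¹ := by group
        rw [e2, h]
        group
      · intro h
        have e2 : x * (g⁻¹ * t * g) = g⁻¹ * (g * x * g⁻¹ * t) * g := by group
        rw [e2, h]
        group
    rw [e1, idc_cj (df_cen t), mem_cj, ← hV]
    have hP : g * p * g⁻¹ ∈ cen t := hκcen _ hp
    have e3 : g * (p⁻¹ * q) * g⁻¹ = (g * p * g⁻¹)⁻¹ * (g * q * g⁻¹) := by group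
    rw [e3]
    generalize g * p * g⁻¹ = P at hp hP ⊢
    generalize g * q * g⁻¹ = Q
    constructor
    · intro hQ
      have h1 := V.mul_mem (V.inv_mem hp) hQ
      have h2 : c * P⁻¹ * (Q * c⁻¹) ∈ V := by
        have e : (P * c⁻¹)⁻¹ * (Q * c⁻¹) = c * P⁻¹ * (Q * c⁻¹) := by group
        rwa [e] at h1
      have h3 := hnorm c⁻¹ ((cen t).inv_mem hcc) _ h2
      have e : c⁻¹ * (c * P⁻¹ * (Q * c⁻¹)) * c⁻¹⁻¹ = P⁻¹ * Q := by group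
      rwa [e] at h3
    · intro hQ
      have h1 := V.mul_mem (hnorm P hP _ hQ) hp
      have e : P * (P⁻¹ * Q) * P⁻¹ * (P * c⁻¹) = Q * c⁻¹ := by group
      rwa [e] at h1
  · obtain ⟨q, -, ⟨h1, h2⟩, h3⟩ := ev_exists hne ((hc.and (ev2_swap hc)).and
      (hΓ.ev_zz_ne ht ht1))
    have hi := hinvc q.1
    have hj := hinvc q.2
    have hzi : z q ∈ κ (q.1⁻¹ * t * q.1) := (hcκ q.1 (z q)).2 h1
    have hzj : z q ∈ κ (q.2⁻¹ * t * q.2) := by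
      rw [hcκ]
      have e : z q = z (q.2, q.1) := (zz_symm hΓ hj hi)
      rw [e]
      exact h2
    have hi1 : q.1⁻¹ * t * q.1 ≠ 1 := by
      intro h
      refine ht1 ?_
      have e : t = q.1 * (q.1⁻¹ * t * q.1) * q.1⁻¹ := by group
      rw [e, h]
      group
    have hj1 : q.2⁻¹ * t * q.2 ≠ 1 := by
      intro h
      refine ht1 ?_
      have e : t = q.2 * (q.2⁻¹ * t * q.2) * q.2⁻¹ := by group
      rw [e, h]
      group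
    have hx := xx_conj hΓ hi hj
    have hxc := zz_xx_comm hΓ (q.1⁻¹ * t * q.1) (q.2⁻¹ * t * q.2)
    refine ⟨q.2⁻¹ * t * q.2, z q, hj, hj1, zz_sq hΓ _ _, h3, hzj, ?_, ?_⟩
    · intro h
      rw [show z q = zz (q.1⁻¹ * t * q.1) (q.2⁻¹ * t * q.2) from rfl, ← hx] at h
      refine hi1 ?_
      have e : ∀ x i : Γ, x⁻¹ * i * x = 1 → i = 1 := by
        intro x i h
        have e : i = x * (x⁻¹ * i * x) * x⁻¹ := by group
        rw [e, h]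
        group
      exact e _ _ h
    · rw [show z q = zz (q.1⁻¹ * t * q.1) (q.2⁻¹ * t * q.2) from rfl, ← hx, hconj _ hi hi1]
      have e : xx (q.1⁻¹ * t * q.1) (q.2⁻¹ * t * q.2) *
          zz (q.1⁻¹ * t * q.1) (q.2⁻¹ * t * q.2) *
          (xx (q.1⁻¹ * t * q.1) (q.2⁻¹ * t * q.2))⁻¹ =
          zz (q.1⁻¹ * t * q.1) (q.2⁻¹ * t * q.2) := by
        rw [← hxc, mul_assoc, mul_inv_cancel, mul_one]
      rw [e]
      exact hzi

end Pool.Agent.A1C
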