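import Pool.Agent.A1C.MD1

/-!
# MF2: the main property of `κ` (part 0b, M7)

Let `(s₀, z₀)` be the good pair and `s` an involution; `s = g⁻¹ * s₀ * g` (`hΓ.conj`), `z = g⁻¹ * z₀ * g`. By `hκ.conj` (for `s₀` and for the involution `s₀ * z₀`:
`z₀` commutes with `s₀` by `hκ.cen`, so `(s₀ * z₀) * (s₀ * z₀) = 1`): `z * z = 1`, `z ≠ 1`, `z ∈ κ s`, `s * z ≠ 1`,
`z ∈ κ (s * z)`.
Let `p ∈ κ s`, `p * p = 1`, `V = idc (cen s)` (`NoInv V` by `hΓ.noInv`, definable). `v = z⁻¹ * p ∈ V` (`hκ.coset`). `p = z * v`, and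
`p * p = 1`, `z * z = 1` give `z⁻¹ * v * z = v⁻¹`. `conj_of_inverted` (with `t = z`): `u ∈ hull v`, `u⁻¹ * z * u = z * v = p`.
`hull v ≤ V ≤ cen s` (`hull_le`, `idc_le`), so `u` commutes with `s`. Hence `p ≠ 1`, `s * p = u⁻¹ * (s * z) * u ≠ 1`, and by `hκ.conj` for `s * z`:
`p ∈ κ (u⁻¹ * (s * z) * u) ↔ u * p * u⁻¹ = z ∈ κ (s * z)`.

-/

set_option autoImplicit false

namespace Pool.Agent.A1C

universe u

variable {M : Type u} [Univ M] {Γ : Type u} [Group Γ] [DGrp M Γ]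

open Filter

private theorem twoInv51 {G : Type u} [Group G] {z p : G} (hz : z * z = 1) (hp : p * p = 1) :
    z⁻¹ * (z⁻¹ * p) * z = (z⁻¹ * p)⁻¹ := by
  have hz' : z⁻¹ = z := inv_eq_of_mul_eq_one_left hz
  have hp' : p⁻¹ = p := inv_eq_of_mul_eq_one_left hp
  rw [mul_inv_rev, inv_inv, hp', hz', ← mul_assoc z z p, hz, one_mul]

theorem IsKappa.main (hΓ : MinG Γ) {κ : Γ → Set Γ} (hκ : IsKappa κ) {s : Γ} (hs : s * s = 1)
    (hs1 : s ≠ 1) :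
    (∃ p ∈ κ s, p * p = 1) ∧ ∀ p ∈ κ s, p * p = 1 → p ≠ 1 ∧ s * p ≠ 1 ∧ p ∈ κ (s * p) := by
  obtain ⟨s₀, z₀, hs₀, hs₀1, hz₀, hz₀1, hzκ, hsz1, hzκ2⟩ := hκ.good
  obtain ⟨g, rfl⟩ := hΓ.conj hs₀ hs₀1 hs hs1
  have hc₀ : z₀ * s₀ = s₀ * z₀ := hκ.cen s₀ hs₀ hs₀1 z₀ hzκ
  have hsz : (s₀ * z₀) * (s₀ * z₀) = 1 := by
    rw [mul_assoc, ← mul_assoc z₀ s₀ z₀, hc₀, mul_assoc s₀ z₀ z₀, hz₀, mul_one, hs₀]
  set s := g⁻¹ * s₀ * g with hsd
  set z := g⁻¹ * z₀ * g with hzd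
  have hcj : ∀ x : Γ, x * x = 1 → (g⁻¹ * x * g) * (g⁻¹ * x * g) = 1 := by
    intro x hx
    have e : (g⁻¹ * x * g) * (g⁻¹ * x * g) = g⁻¹ * ((x * x) * g) := by group
    rw [e, hx, one_mul, inv_mul_cancel]
  have hne : ∀ k x : Γ, x ≠ 1 → k⁻¹ * x * k ≠ 1 := by
    intro k x hx h
    refine hx ?_
    have e : x = k * (k⁻¹ * x * k) * k⁻¹ := by group
    rw [e, h]
    group
  have hz : z * z = 1 := hcj z₀ hz₀
  have hszg : s * z = g⁻¹ * (s₀ * z₀) * g := by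
    rw [hsd, hzd]
    group
  have hszs : (s * z) * (s * z) = 1 := by
    rw [hszg]
    exact hcj _ hsz
  have hszne : s * z ≠ 1 := by
    rw [hszg]
    exact hne g _ hsz1
  have hzs : z ∈ κ s := by
    rw [hsd, hκ.conj s₀ hs₀ hs₀1]
    have e : g * z * g⁻¹ = z₀ := by
      rw [hzd]
      group
    rw [e]
    exact hzκ
  have hzsz : z ∈ κ (s * z) := by
    rw [hszg, hκ.conj _ hsz hsz1]
    have e : g * z * g⁻¹ = z₀ := by
      rw [hzd]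
      group
    rw [e]
    exact hzκ2
  refine ⟨⟨z, hzs, hz⟩, fun p hp hp2 => ?_⟩
  have hVn : NoInv (idc (Pool.Agent.A1C.cen s)) := hΓ.noInv hs hs1
  have hVd : Df (idc (Pool.Agent.A1C.cen s) : Set Γ) := (idc_conn (df_cen s)).1
  have hv : z⁻¹ * p ∈ idc (Pool.Agent.A1C.cen s) := (hκ.coset s hs hs1 z hzs p).1 hp
  have hinv : z⁻¹ * (z⁻¹ * p) * z = (z⁻¹ * p)⁻¹ := twoInv51 hz hp2
  obtain ⟨u, hu, -, huz⟩ := conj_of_inverted hVd hVn hv hinv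
  rw [mul_inv_cancel_left] at huz
  have hus : u ∈ Pool.Agent.A1C.cen s := idc_le _ (hull_le hVd hv hu)
  have hus' : u⁻¹ * s * u = s := by
    rw [mem_cen] at hus
    rw [mul_assoc, ← hus, inv_mul_cancel_left]
  have e1 : s * p = u⁻¹ * (s * z) * u := by
    have e2 : u⁻¹ * (s * z) * u = (u⁻¹ * s * u) * (u⁻¹ * z * u) := by group
    rw [e2, hus', huz]
  have hz1 : z ≠ 1 := hne g _ hz₀1
  refine ⟨?_, ?_, ?_⟩
  · rw [← huz]
    exact hne u z hz1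
  · rw [e1]
    exact hne u _ hszne
  · rw [e1, hκ.conj _ hszs hszne]
    have e2 : u * p * u⁻¹ = z := by
      rw [← huz]
      group
    rw [e2]
    exact hzsz

end Pool.Agent.A1C
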