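import Pool.Agent.A1C.MDef

/-!
# MG1: a maximal elementary abelian `2`-subgroup (part 0b, M8)

Pure group theory. Zorn's lemma (`zorn_subset_nonempty` or `zorn_le_nonempty₀`) for the subgroups `S` with `t ∈ S` and `∀ x ∈ S, x * x = 1`: the union of a
chain of subgroups is a subgroup (`Subgroup.mem_sSup_of_directedOn`). Start: `Subgroup.zpowers t`. Finite by `U2perp`. If `p * p = 1` commutes with all
elements of `S` then `{x | ∃ s ∈ S, x = s ∨ x = s * p}` is a subgroup of the same kind (the elements of `S` commute with each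
other, because `x * x = 1` for all `x ∈ S`), so by maximality `p ∈ S`. (Alternative without Zorn: by `U2perp` an increasing sequence of such subgroups
would have an infinite union.)

-/

set_option autoImplicit false

namespace Pool.Agent.A1C

universe u

variable {M : Type u} [Univ M] {Γ : Type u} [Group Γ] [DGrp M Γ]

open Filter

theorem exists_maxElem {G : Type u} [Group G] (hU : U2perp G) {t : G} (ht : t * t = 1) :
    ∃ S : Subgroup G, t ∈ S ∧ (∀ x ∈ S, x * x = 1) ∧ (S : Set G).Finite ∧
      ∀ p : G, p * p = 1 → (∀ x ∈ S, p * x = x * p) → p ∈ S := by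
  have h0 : Subgroup.zpowers t ∈ {S : Subgroup G | t ∈ S ∧ ∀ x ∈ S, x * x = 1} := by
    refine ⟨Subgroup.mem_zpowers t, ?_⟩
    rintro x ⟨n, rfl⟩
    show t ^ n * t ^ n = 1
    rw [← (Commute.refl t).mul_zpow, ht, one_zpow]
  obtain ⟨S, _, hS⟩ := zorn_le_nonempty₀ {S : Subgroup G | t ∈ S ∧ ∀ x ∈ S, x * x = 1}
    (by
      intro c hc hchain y hy
      refine ⟨sSup c, ⟨?_, ?_⟩, fun z hz => le_sSup hz⟩
      · exact (le_sSup hy) (hc hy).1
      · intro x hx
        obtain ⟨K, hK, hxK⟩ := (Subgroup.mem_sSup_of_directedOn ⟨y, hy⟩ hchain.directedOn).1 hx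
        exact (hc hK).2 x hxK)
    (Subgroup.zpowers t) h0
  have hSt : t ∈ S := hS.prop.1
  have hS2 : ∀ x ∈ S, x * x = 1 := hS.prop.2
  have hinv : ∀ x ∈ S, x⁻¹ = x := fun x hx => inv_eq_of_mul_eq_one_left (hS2 x hx)
  have hcomm : ∀ x ∈ S, ∀ y ∈ S, x * y = y * x := by
    intro x hx y hy
    have h1 := hinv _ (S.mul_mem hx hy)
    rw [mul_inv_rev, hinv x hx, hinv y hy] at h1
    exact h1.symm
  refine ⟨S, hSt, hS2, hU S hS2, ?_⟩
  intro p hp hpc
  let T : Subgroup G :=
    { carrier := {x | ∃ s ∈ S, x = s ∨ x = s * p}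
      mul_mem' := by
        rintro a b ⟨s, hs, h1⟩ ⟨r, hr, h2⟩
        refine ⟨s * r, S.mul_mem hs hr, ?_⟩
        rcases h1 with h1 | h1 <;> rcases h2 with h2 | h2
        · left; rw [h1, h2]
        · right; rw [h1, h2, mul_assoc]
        · right
          rw [h1, h2, mul_assoc, mul_assoc, hpc r hr]
        · left
          rw [h1, h2]
          calc s * p * (r * p) = s * (p * r) * p := by group
            _ = s * (r * p) * p := by rw [hpc r hr]
            _ = s * r * (p * p) := by group
            _ = s * r := by rw [hp, mul_one]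
      one_mem' := ⟨1, S.one_mem, Or.inl rfl⟩
      inv_mem' := by
        rintro a ⟨s, hs, h1⟩
        refine ⟨s, hs, ?_⟩
        rcases h1 with h1 | h1
        · left; rw [h1, hinv s hs]
        · right
          rw [h1, mul_inv_rev, hinv s hs, inv_eq_of_mul_eq_one_left hp, hpc s hs] }
  have hT : T ∈ {S : Subgroup G | t ∈ S ∧ ∀ x ∈ S, x * x = 1} := by
    refine ⟨⟨t, hSt, Or.inl rfl⟩, ?_⟩
    rintro x ⟨s, hs, h1⟩
    rcases h1 with h1 | h1
    · rw [h1, hS2 s hs]
    · rw [h1]
      calc s * p * (s * p) = s * (p * s) * p := by group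
        _ = s * (s * p) * p := by rw [hpc s hs]
        _ = (s * s) * (p * p) := by group
        _ = 1 := by rw [hS2 s hs, hp, mul_one]
  have hle : S ≤ T := fun x hx => ⟨x, hx, Or.inl rfl⟩
  exact hS.le_of_ge hT hle ⟨1, S.one_mem, Or.inr (one_mul p).symm⟩

end Pool.Agent.A1C
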