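import Pool.Agent.A1C.MDef

/-!
# MG2: midpoints (part 0b, M8)

`J = {p ∈ K | p * p = 1}`. For `p, q ∈ J`: `v = p⁻¹ * q ∈ V`, `p⁻¹ * v * p = v⁻¹` (as `p * p = q * q = 1`).
`mid_unique`: two elements `u, u'` of `hull v` with `u * u = u' * u'` are equal (`hull_comm`, `NoInv V`, `hull_le`).
`mid` (existence and uniqueness of the midpoint `m`): `m = p * u`, where `u ∈ hull (p⁻¹ * q)`, `u * u = p⁻¹ * q` (`conj_of_inverted` or `NoInv.hull_sqrt`).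
* `m ∈ J`: `p⁻¹ * m = u ∈ V`; `p⁻¹ * u * p = u⁻¹` (`hull_inv`), `m * m = p * u * p * u = (p⁻¹ * u * p) * u = 1` (using `p = p⁻¹`).
* symmetric: `q⁻¹ * p = v⁻¹`, `hull v⁻¹ = hull v` (`hull_mono`), root `u⁻¹`, `q * u⁻¹ = p * v * u⁻¹ = p * u`.
* equivariant: `hull (σ⁻¹ * v * σ) = cj (hull v) σ` (`hull_cj`).
`fixed_point`: `m(p,q)` = the midpoint. Induction over the finite set `S` (`Set.Finite.induction_on` over finite subsets `F ⊆ S`: there is `p ∈ J` with `σ⁻¹ * p * σ = p` for all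
`σ ∈ F`). Step, new `σ ∈ S`: `p₁ = m(p, σ⁻¹ * p * σ)`. `σ⁻¹ * p₁ * σ = m(σ⁻¹ * p * σ, σ⁻¹ * σ⁻¹ * p * σ * σ) = m(σ⁻¹ * p * σ, p) = p₁` (`σ * σ = 1`). For `τ ∈ F`: `τ` commutes with
`σ` (all elements of `S` have `x * x = 1`, so `S` is abelian), so `τ⁻¹ * p₁ * τ = m(τ⁻¹ * p * τ, σ⁻¹ * (τ⁻¹ * p * τ) * σ) = p₁`.

-/

set_option autoImplicit false

namespace Pool.Agent.A1C

universe u

variable {M : Type u} [Univ M] {Γ : Type u} [Group Γ] [DGrp M Γ]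

open Filter

/-- the midpoint of two involutions of the coset `p V` -/
def IsMid {G : Type u} [Group G] [DGrp M G] (p q m : G) : Prop :=
  ∃ u ∈ hull (p⁻¹ * q), u * u = p⁻¹ * q ∧ m = p * u

theorem exists_mid {V : Subgroup Γ} (hV : Df (V : Set Γ)) (h2 : NoInv V) {p q : Γ}
    (hp : p * p = 1) (hq : q * q = 1) (hv : p⁻¹ * q ∈ V) :
    ∃ m : Γ, IsMid p q m ∧ m * m = 1 ∧ p⁻¹ * m ∈ V := by
  obtain ⟨u, hu, huv⟩ := NoInv.hull_sqrt hV h2 hv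
  have hpi : p⁻¹ = p := inv_eq_of_mul_eq_one_left hp
  have hqi : q⁻¹ = q := inv_eq_of_mul_eq_one_left hq
  have h1 : p⁻¹ * (p⁻¹ * q) * p = (p⁻¹ * q)⁻¹ := by
    rw [mul_inv_rev, hpi, hqi, inv_eq_of_mul_eq_one_left hp, ← mul_assoc p p q, hp, one_mul]
  have h3 : p⁻¹ * u * p = u⁻¹ := hull_inv h1 hu
  refine ⟨p * u, ⟨u, hu, huv, rfl⟩, ?_, ?_⟩
  · calc p * u * (p * u) = p * p * (p⁻¹ * u * p) * u := by group
      _ = 1 := by rw [hp, h3, one_mul, inv_mul_cancel]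
  · rw [inv_mul_cancel_left]
    exact hull_le hV hv hu

theorem IsMid.unique {V : Subgroup Γ} (hV : Df (V : Set Γ)) (h2 : NoInv V) {p q m m' : Γ}
    (hv : p⁻¹ * q ∈ V) (h : IsMid p q m) (h' : IsMid p q m') : m = m' := by
  obtain ⟨u, hu, huv, rfl⟩ := h
  obtain ⟨w, hw, hwv, rfl⟩ := h'
  have hc : u * w = w * u := hull_comm hu hw
  have hle := hull_le hV hv
  have hc' : Commute u w := hc
  have h3 : (u⁻¹ * w) * (u⁻¹ * w) = 1 := by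
    have e1 : w * u⁻¹ = u⁻¹ * w := (hc'.inv_left).symm.eq
    calc (u⁻¹ * w) * (u⁻¹ * w) = u⁻¹ * (w * u⁻¹) * w := by group
      _ = u⁻¹ * (u⁻¹ * w) * w := by rw [e1]
      _ = (u * u)⁻¹ * (w * w) := by group
      _ = 1 := by rw [huv, hwv, inv_mul_cancel]
  have h4 : u⁻¹ * w = 1 := h2 _ (V.mul_mem (V.inv_mem (hle hu)) (hle hw)) h3
  rw [inv_mul_eq_one.1 h4]

theorem IsMid.symm {p q m : Γ} (h : IsMid p q m) : IsMid q p m := by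
  obtain ⟨u, hu, huv, rfl⟩ := h
  refine ⟨u⁻¹, ?_, ?_, ?_⟩
  · have h1 : p⁻¹ * q ∈ hull (q⁻¹ * p) := by
      have h2 := (hull (q⁻¹ * p)).inv_mem (self_mem_hull (q⁻¹ * p))
      rwa [mul_inv_rev, inv_inv] at h2
    exact Subgroup.inv_mem _ (hull_mono h1 hu)
  · rw [← mul_inv_rev, huv, mul_inv_rev, inv_inv]
  · rw [eq_mul_inv_iff_mul_eq, mul_assoc, huv, mul_inv_cancel_left]

theorem IsMid.conj {p q m : Γ} (h : IsMid p q m) (σ : Γ) :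
    IsMid (σ⁻¹ * p * σ) (σ⁻¹ * q * σ) (σ⁻¹ * m * σ) := by
  obtain ⟨u, hu, huv, rfl⟩ := h
  have e1 : (σ⁻¹ * p * σ)⁻¹ * (σ⁻¹ * q * σ) = σ⁻¹ * (p⁻¹ * q) * σ := by group
  refine ⟨σ⁻¹ * u * σ, ?_, ?_, ?_⟩
  · rw [e1, hull_cj]
    show σ * (σ⁻¹ * u * σ) * σ⁻¹ ∈ hull (p⁻¹ * q)
    have e2 : σ * (σ⁻¹ * u * σ) * σ⁻¹ = u := by group
    rw [e2]; exact hu
  · rw [e1, ← huv]; group
  · group

theorem fixed_point {V : Subgroup Γ} (hV : Df (V : Set Γ)) (h2 : NoInv V) {K : Set Γ}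
    (hK : ∀ p ∈ K, ∀ q, q ∈ K ↔ p⁻¹ * q ∈ V) {S : Subgroup Γ} (hSf : (S : Set Γ).Finite)
    (hS : ∀ x ∈ S, x * x = 1) (hSK : ∀ σ ∈ S, ∀ p ∈ K, σ⁻¹ * p * σ ∈ K)
    (hne : ∃ p ∈ K, p * p = 1) : ∃ p ∈ K, p * p = 1 ∧ ∀ σ ∈ S, p * σ = σ * p := by
  classical
  have hinv : ∀ x ∈ S, x⁻¹ = x := fun x hx => inv_eq_of_mul_eq_one_left (hS x hx)
  have hcomm : ∀ x ∈ S, ∀ y ∈ S, x * y = y * x := by
    intro x hx y hy
    have h1 := hinv _ (S.mul_mem hx hy)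
    rw [mul_inv_rev, hinv x hx, hinv y hy] at h1
    exact h1.symm
  have key : ∀ F : Finset Γ, (∀ σ ∈ F, σ ∈ S) → ∃ p ∈ K, p * p = 1 ∧ ∀ σ ∈ F, σ⁻¹ * p * σ = p := by
    intro F
    induction F using Finset.induction_on with
    | empty =>
      intro _
      obtain ⟨p, hp, hpp⟩ := hne
      exact ⟨p, hp, hpp, by simp⟩
    | insert σ F hσF ih =>
      intro hF
      obtain ⟨p, hp, hpp, hfix⟩ := ih (fun τ hτ => hF τ (Finset.mem_insert_of_mem hτ))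
      have hσ : σ ∈ S := hF σ (Finset.mem_insert_self _ _)
      have hσσ : σ * σ = 1 := hS σ hσ
      have hq : σ⁻¹ * p * σ ∈ K := hSK σ hσ p hp
      have hqq : (σ⁻¹ * p * σ) * (σ⁻¹ * p * σ) = 1 := by
        calc (σ⁻¹ * p * σ) * (σ⁻¹ * p * σ) = σ⁻¹ * (p * p) * σ := by group
          _ = 1 := by rw [hpp, mul_one, inv_mul_cancel]
      have hv : p⁻¹ * (σ⁻¹ * p * σ) ∈ V := (hK p hp _).1 hq
      have hv' : (σ⁻¹ * p * σ)⁻¹ * p ∈ V := (hK _ hq _).1 hp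
      obtain ⟨m, hm, hmm, hmV⟩ := exists_mid hV h2 hpp hqq hv
      have hmK : m ∈ K := (hK p hp m).2 hmV
      refine ⟨m, hmK, hmm, ?_⟩
      intro τ hτ
      rw [Finset.mem_insert] at hτ
      rcases hτ with rfl | hτ
      · have h3 := hm.conj τ
        have e1 : τ⁻¹ * (τ⁻¹ * p * τ) * τ = p := by
          have e2 : τ⁻¹ * (τ⁻¹ * p * τ) * τ = (τ * τ)⁻¹ * p * (τ * τ) := by group
          rw [e2, hσσ, inv_one, one_mul, mul_one]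
        rw [e1] at h3
        exact IsMid.unique hV h2 hv' h3 hm.symm
      · have h3 := hm.conj τ
        have hτS : τ ∈ S := hF τ (Finset.mem_insert_of_mem hτ)
        have e1 : τ⁻¹ * (σ⁻¹ * p * σ) * τ = σ⁻¹ * p * σ := by
          have e2 : τ⁻¹ * (σ⁻¹ * p * σ) * τ = (σ * τ)⁻¹ * p * (σ * τ) := by group
          have e3 : (τ * σ)⁻¹ * p * (τ * σ) = σ⁻¹ * (τ⁻¹ * p * τ) * σ := by group
          rw [e2, hcomm σ hσ τ hτS, e3, hfix τ hτ]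
        rw [e1, hfix τ hτ] at h3
        exact IsMid.unique hV h2 hv h3 hm
  obtain ⟨p, hp, hpp, hfix⟩ := key hSf.toFinset (by simp)
  refine ⟨p, hp, hpp, ?_⟩
  intro σ hσ
  have h3 := hfix σ (by simpa using hσ)
  calc p * σ = σ * (σ⁻¹ * p * σ) := by group
    _ = σ * p := by rw [h3]

end Pool.Agent.A1C
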