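import Pool.Agent.A1C.MF1
import Pool.Agent.A1C.MF2
import Pool.Agent.A1C.MG1
import Pool.Agent.A1C.MG2

/-!
# MG3: the end of the proof of Lemma M (part 0b, M8)

`even_card`: `f` is an involution without fixed points of the finite set `S \ {1}`, so it has an even number of elements (e.g. `Finset.sum_involution` in `ZMod 2` for the
constant function `1`); but `|S|` is even, because `t` has order `2` (`Subgroup` Lagrange: `orderOf_dvd_natCard`), so `|S| - 1` is odd.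
`MinG.false`: `κ` of `exists_kappa`, `t` an involution (`hΓ.inv`), `S` of `exists_maxElem hΓ.u2`. The elements of `S` commute. For `s ∈ S`, `s ≠ 1`:
`V = idc (cen s)` is definable, `NoInv` (`hΓ.noInv`). `fixed_point` for `V`, `K = κ s` (`hκ.coset`; `hSK` from `hκ.conj` with `g = σ` and
`σ⁻¹ * s * σ = s`; `hne` from `IsKappa.main`) gives `p ∈ κ s`, `p * p = 1`, commuting with `S`, so `p ∈ S`. It is unique: if `p' ∈ κ s ∩ S`
then `p⁻¹ * p' ∈ V` (`hκ.coset`) and `(p⁻¹ * p') * (p⁻¹ * p') = 1`, so `p = p'`. Choose `k s` (`choose`). By `IsKappa.main` `k s ≠ 1`, `s * k s ≠ 1`,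
`k s ∈ κ (s * k s)`, so `k (s * k s) = k s` by uniqueness. `f s = s * k s` (for `s ∈ S`, `s ≠ 1`): `f (f s) = s * k s * k s = s`, `f s ≠ s`, `f s ∈ S`,
`f s ≠ 1`: contradiction by `even_card`.

-/

set_option autoImplicit false

namespace Pool.Agent.A1C

universe u

variable {M : Type u} [Univ M] {Γ : Type u} [Group Γ] [DGrp M Γ]

open Filter

theorem even_card {G : Type u} [Group G] {S : Subgroup G} (hSf : (S : Set G).Finite) {t : G}
    (ht : t ∈ S) (ht2 : t * t = 1) (ht1 : t ≠ 1) (f : G → G)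
    (hf : ∀ s ∈ S, s ≠ 1 → f s ∈ S ∧ f s ≠ 1 ∧ f s ≠ s ∧ f (f s) = s) : False := by
  classical
  set F : Finset G := hSf.toFinset.erase 1 with hF
  have hmem : ∀ s, s ∈ F ↔ s ≠ 1 ∧ s ∈ S := by
    intro s
    rw [hF, Finset.mem_erase, Set.Finite.mem_toFinset, SetLike.mem_coe]
  have h1 : ∑ _s ∈ F, (1 : ZMod 2) = 0 := by
    refine Finset.sum_involution (fun s _ => f s) ?_ ?_ ?_ ?_
    · intro s _
      exact CharTwo.add_self_eq_zero 1
    · intro s hs _
      exact (hf s ((hmem s).1 hs).2 ((hmem s).1 hs).1).2.2.1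
    · intro s hs
      have h2 := hf s ((hmem s).1 hs).2 ((hmem s).1 hs).1
      exact (hmem _).2 ⟨h2.2.1, h2.1⟩
    · intro s hs
      exact (hf s ((hmem s).1 hs).2 ((hmem s).1 hs).1).2.2.2
  have h2 : 2 ∣ F.card := by
    rw [Finset.sum_const, nsmul_eq_mul, mul_one] at h1
    exact (ZMod.natCast_eq_zero_iff _ _).1 h1
  have h3 : Nat.card S = F.card + 1 := by
    have h4 : (1 : G) ∈ hSf.toFinset := by
      rw [Set.Finite.mem_toFinset]
      exact S.one_mem
    rw [hF, Finset.card_erase_add_one h4, ← Set.ncard_eq_toFinset_card _ hSf]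
    rfl
  have h4 : orderOf t = 2 := orderOf_eq_prime (by rw [pow_two]; exact ht2) ht1
  have h5 := Subgroup.orderOf_dvd_natCard S ht
  rw [h4, h3] at h5
  omega

theorem MinG.false (hΓ : MinG Γ) : False := by
  classical
  obtain ⟨κ, hκ⟩ := hΓ.exists_kappa
  obtain ⟨t, ht2, ht1⟩ := hΓ.inv
  obtain ⟨S, htS, hS2, hSf, hSmax⟩ := exists_maxElem hΓ.u2 ht2
  have hSc : ∀ x ∈ S, ∀ y ∈ S, x * y = y * x := by
    intro x hx y hy
    have e1 := hS2 _ (S.mul_mem hx hy)
    have e2 := hS2 x hx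
    have e3 := hS2 y hy
    have i1 : x⁻¹ = x := inv_eq_of_mul_eq_one_left e2
    have i2 : y⁻¹ = y := inv_eq_of_mul_eq_one_left e3
    have i3 : (x * y)⁻¹ = x * y := inv_eq_of_mul_eq_one_left e1
    rw [← i3, mul_inv_rev, i1, i2]
  have hex : ∀ s ∈ S, s ≠ 1 → ∃ p ∈ κ s, p ∈ S := by
    intro s hs hs1
    have hs2 := hS2 s hs
    have hVd : Df (idc (cen s) : Set Γ) := (idc_conn (df_cen s)).1
    obtain ⟨p, hp, hp2, hpc⟩ := fixed_point hVd (hΓ.noInv hs2 hs1) (K := κ s)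
      (hκ.coset s hs2 hs1) hSf hS2 (fun σ hσ p hp => by
        have h1 := hκ.conj s hs2 hs1 σ (σ⁻¹ * p * σ)
        have e1 : σ⁻¹ * s * σ = s := by
          rw [mul_assoc, hSc s hs σ hσ, inv_mul_cancel_left]
        have e2 : σ * (σ⁻¹ * p * σ) * σ⁻¹ = p := by group
        rw [e1, e2] at h1
        exact h1.2 hp) (hκ.main hΓ hs2 hs1).1
    exact ⟨p, hp, hSmax p hp2 hpc⟩
  have huniq : ∀ s ∈ S, s ≠ 1 → ∀ p p', p ∈ κ s → p ∈ S → p' ∈ κ s → p' ∈ S → p = p' := by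
    intro s hs hs1 p p' hp hpS hp' hpS'
    have hs2 := hS2 s hs
    have h1 := (hκ.coset s hs2 hs1 p hp p').1 hp'
    have h2 := hΓ.noInv hs2 hs1 _ h1 (hS2 _ (S.mul_mem (S.inv_mem hpS) hpS'))
    exact inv_mul_eq_one.1 h2
  choose! k hk hkS using hex
  refine even_card hSf htS ht2 ht1 (fun s => s * k s) fun s hs hs1 => ?_
  have hs2 := hS2 s hs
  have hkm := (hκ.main hΓ hs2 hs1).2 (k s) (hk s hs hs1) (hS2 _ (hkS s hs hs1))
  have hfS : s * k s ∈ S := S.mul_mem hs (hkS s hs hs1)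
  refine ⟨hfS, hkm.2.1, fun h => hkm.1 (mul_eq_left.1 h), ?_⟩
  have h1 : k (s * k s) = k s := huniq _ hfS hkm.2.1 _ _ (hk _ hfS hkm.2.1) (hkS _ hfS hkm.2.1)
    hkm.2.2 (hkS s hs hs1)
  show s * k s * k (s * k s) = s
  rw [h1, mul_assoc, hS2 _ (hkS s hs hs1), mul_one]

end Pool.Agent.A1C
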