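import Pool.Agent.A1C.MH2
import Pool.Agent.A1C.P0H

/-!
# MH3: Lemma M in the form of `P0H`
-/

set_option autoImplicit false

namespace Pool.Agent.A1C

universe u

variable {M : Type u} [Univ M] {G : Type u} [Group G] [DGrp M G]

/-- Lemma M: minimal connected groups with an involution are abelian -/
theorem lemM_of_u2 (hu : U2 G) : LemM G := by
  intro H hH hinv hmin
  obtain ⟨j, hj, hj'⟩ := hinv
  exact lemmaM hu hH ⟨j, hj, hj'⟩ (fun K hK hKH hne => hmin K hKH hK hne)

end Pool.Agent.A1C
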