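import Pool.Agent.A1C.P0H

/-!
# P0A1: (a1), the normaliser of `C` (80 lines)

`mem_N`: `Subgroup.mem_normalizer_iff`. `df_N`: `N` is given by a definable predicate (`DfP.all`, `DfP.iff`, `DfP.mem`).
`C_ne_bot`: if `C = ⊥` then `N = ⊤` and `⊥` has finite index in `⊤`, so `⊥ = ⊤` by `H.conn`: there is no involution. `rk_C_pos`: `Conn.pos`.
`rk_N`: `rk_eq_of_relIndex`. `le_C_of_conn`: `K ≤ idc N` (`le_idc`) and `idc N ≤ C` (`idc_le_of_index`).
`mem_N_of_ti`: with `y = g⁻¹ x g ∈ C`, `y ≠ 1` and `y ∈ cj C g` (`g y g⁻¹ = x ∈ C`), so `cj C g ⊓ C ≠ ⊥`, so `cj C g = C`, so `g` normalises `C`.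
`mem_N_of_comm`: `u⁻¹ x u = x`. `coset_pow`: induction, `(a x)^(n+1) = a^n c (a x) = a^(n+1) (a⁻¹ c a) x`.
`exists_pow_mem`: `Subgroup.exists_pow_mem_of_relIndex_ne_zero`. `exists_sq_mem`: the quotient group `N / C` (`C.subgroupOf N` is normal) has even
order, so an element of order two (`exists_prime_orderOf_dvd_card`).
-/

namespace Pool.Agent.A1C

universe u

namespace Hyp

variable {M : Type u} [Univ M] {G : Type u} [Group G] [DGrp M G] (H : Hyp G)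

theorem mem_N {g : G} : g ∈ H.N ↔ ∀ x, x ∈ H.C ↔ g * x * g⁻¹ ∈ H.C :=
  Subgroup.mem_normalizer_iff

theorem df_N : Df (H.N : Set G) := by
  have hC : Df (H.C : Set G) := H.connC.1
  have h : (H.N : Set G) = {g : G | ∀ x, x ∈ (H.C : Set G) ↔ g * x * g⁻¹ ∈ (H.C : Set G)} := by
    ext g
    exact H.mem_N
  rw [h]
  change DfP (fun g : G => ∀ x, x ∈ (H.C : Set G) ↔ g * x * g⁻¹ ∈ (H.C : Set G))
  repeat' first
    | assumption | fun_prop | apply DfP.all | apply DfP.iff | (apply DfP.mem; assumption)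

theorem C_le_N : H.C ≤ H.N := Subgroup.le_normalizer

theorem conj_mem {a x : G} (ha : a ∈ H.N) (hx : x ∈ H.C) : a * x * a⁻¹ ∈ H.C :=
  (H.mem_N.1 ha x).1 hx

theorem conj_mem' {a x : G} (ha : a ∈ H.N) (hx : x ∈ H.C) : a⁻¹ * x * a ∈ H.C := by
  rw [H.mem_N.1 ha]
  have h : a * (a⁻¹ * x * a) * a⁻¹ = x := by group
  rw [h]
  exact hx

theorem C_ne_bot : H.C ≠ ⊥ := by
  intro hC
  have hN : H.N = ⊤ := by
    rw [eq_top_iff]
    intro g _
    rw [H.mem_N]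
    intro x
    rw [hC, Subgroup.mem_bot, Subgroup.mem_bot]
    exact (conj_eq_one_iff).symm
  have h1 : (⊥ : Subgroup G).relIndex ⊤ ≠ 0 := by
    have := H.index_ne
    change H.C.relIndex H.N ≠ 0 at this
    rwa [hN, hC] at this
  have h2 : (⊥ : Subgroup G) = ⊤ := H.conn.2 ⊥ bot_le df_bot h1
  obtain ⟨j, _, hj⟩ := H.exInv
  have h3 : j ∈ (⊥ : Subgroup G) := by
    rw [h2]
    trivial
  exact hj (Subgroup.mem_bot.1 h3)

theorem rk_C_pos : 0 < rk (H.C : Set G) := H.connC.pos H.C_ne_bot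

theorem rk_N : rk (H.N : Set G) = rk (H.C : Set G) :=
  (rk_eq_of_relIndex H.df_N H.connC.1 H.C_le_N H.index_ne).symm

theorem le_C_of_conn {K : Subgroup G} (hK : Conn K) (h : K ≤ H.N) : K ≤ H.C :=
  (le_idc H.df_N hK h).trans (idc_le_of_index H.df_N H.connC.1 H.C_le_N H.index_ne)

/-- TI in the form used later -/
theorem mem_N_of_ti {g x : G} (hx : x ∈ H.C) (h1 : x ≠ 1) (hg : g⁻¹ * x * g ∈ H.C) :
    g ∈ H.N := by
  have hy : g⁻¹ * x * g ∈ cj H.C g := by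
    rw [mem_cj]
    have h : g * (g⁻¹ * x * g) * g⁻¹ = x := by group
    rw [h]
    exact hx
  have hne : g⁻¹ * x * g ≠ 1 := by
    intro h
    apply h1
    calc x = g * (g⁻¹ * x * g) * g⁻¹ := by group
      _ = 1 := by rw [h]; group
  have hcj : cj H.C g = H.C := by
    by_contra hcon
    have h2 : g⁻¹ * x * g ∈ cj H.C g ⊓ H.C := ⟨hy, hg⟩
    rw [H.tiC g hcon, Subgroup.mem_bot] at h2
    exact hne h2
  rw [H.mem_N]
  intro z
  rw [← mem_cj, hcj]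

theorem mem_N_of_comm {u x : G} (hx : x ∈ H.C) (h1 : x ≠ 1) (hu : u * x = x * u) :
    u ∈ H.N := by
  refine H.mem_N_of_ti hx h1 ?_
  have h : u⁻¹ * x * u = x := by
    rw [mul_assoc, ← hu]
    group
  rw [h]
  exact hx

theorem coset_pow {a x : G} (ha : a ∈ H.N) (hx : x ∈ H.C) (n : ℕ) :
    ∃ y ∈ H.C, (a * x) ^ n = a ^ n * y := by
  induction n with
  | zero =>
    refine ⟨1, H.C.one_mem, ?_⟩
    simp
  | succ n ih =>
    obtain ⟨y, hy, h⟩ := ih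
    refine ⟨(a⁻¹ * y * a) * x, H.C.mul_mem (H.conj_mem' ha hy) hx, ?_⟩
    rw [pow_succ, h, pow_succ]
    group

theorem exists_pow_mem {a : G} (ha : a ∈ H.N) : ∃ n : ℕ, 0 < n ∧ a ^ n ∈ H.C := by
  obtain ⟨n, h1, _, h2⟩ := Subgroup.exists_pow_mem_of_relIndex_ne_zero H.index_ne ha
  exact ⟨n, h1, h2.1⟩

theorem exists_sq_mem : ∃ a ∈ H.N, a ∉ H.C ∧ a * a ∈ H.C := by
  have hn : (H.C.subgroupOf H.N).Normal := Subgroup.normal_in_normalizer
  have hne : Nat.card (H.N ⧸ H.C.subgroupOf H.N) ≠ 0 := H.index_ne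
  have hfin : Finite (H.N ⧸ H.C.subgroupOf H.N) := Nat.finite_of_card_ne_zero hne
  have heven : 2 ∣ Nat.card (H.N ⧸ H.C.subgroupOf H.N) := H.even.two_dvd
  obtain ⟨q, hq⟩ := exists_prime_orderOf_dvd_card' (G := H.N ⧸ H.C.subgroupOf H.N) 2 heven
  obtain ⟨⟨a, ha⟩, rfl⟩ := QuotientGroup.mk_surjective q
  refine ⟨a, ha, ?_, ?_⟩
  · intro haC
    have h1 : ((⟨a, ha⟩ : H.N) : H.N ⧸ H.C.subgroupOf H.N) = 1 := by
      rw [QuotientGroup.eq_one_iff, Subgroup.mem_subgroupOf]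
      exact haC
    rw [h1, orderOf_one] at hq
    exact absurd hq (by norm_num)
  · have h2 := pow_orderOf_eq_one ((⟨a, ha⟩ : H.N) : H.N ⧸ H.C.subgroupOf H.N)
    rw [hq, ← QuotientGroup.mk_pow, QuotientGroup.eq_one_iff, Subgroup.mem_subgroupOf] at h2
    rw [← pow_two]
    exact h2

end Hyp

end Pool.Agent.A1C
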