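import Pool.Agent.A1C.P0A1

/-!
# P0A2: (a2), the union of the conjugates of `C` is generic (80 lines)

`rk_conj`: `rk_union_conj` for `V = C \ {1}` (`rk V = rk C`, as `C` is infinite: `rk_union` with a singleton and `rk_C_pos`): for `v ∈ V` the set
`{g | g v g⁻¹ ∈ V}` is contained in `N` (`mem_N_of_ti` for `g⁻¹`), of rank `rk C`. So `rk univ + rk C ≤ rk (union) + rk C`; the other inequality is
`rk_mono`. `cover`: `rk_mono` twice.
`meet`: by `rk_union_conj` (with `k = rk V`) the union of the conjugates of `V` has full rank too; `univ` is irreducible (`conn_iff_irr`), so the two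
unions meet (`Irr.inter_nonempty`; they are nonempty definable of rank `rk univ`, so not small): `g⁻¹ v g = h⁻¹ x h`, `x ∈ C`, `x ≠ 1`, and `h g⁻¹` does it.
-/

namespace Pool.Agent.A1C

universe u

namespace Hyp

variable {M : Type u} [Univ M] {G : Type u} [Group G] [DGrp M G] (H : Hyp G)

theorem irr_univ (H : Hyp G) : Irr (Set.univ : Set G) := by
  have h := (conn_iff_irr H.conn.1).1 H.conn
  rwa [Subgroup.coe_top] at h

private theorem P0A2_df {V : Set G} (hV : Df V) :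
    Df {y : G | ∃ g, ∃ x ∈ V, y = g⁻¹ * x * g} := by
  change DfP (fun y : G => ∃ g : G, ∃ x, x ∈ V ∧ y = g⁻¹ * x * g)
  repeat' first
    | assumption | fun_prop | apply DfP.and | apply DfP.ex | apply DfP.eq
    | (apply DfP.mem; assumption)

private theorem P0A2_df_ne : Df {x : G | x ∈ H.C ∧ x ≠ 1} :=
  Df.inter H.connC.1 (Df.singleton (1 : G)).compl

private theorem P0A2_exists : ∃ x, x ∈ H.C ∧ x ≠ 1 := by
  by_contra hcon
  apply H.C_ne_bot
  rw [eq_bot_iff]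
  intro x hx
  rw [Subgroup.mem_bot]
  by_contra h
  exact hcon ⟨x, hx, h⟩

private theorem P0A2_rk_ne : rk (H.C : Set G) ≤ rk {x : G | x ∈ H.C ∧ x ≠ 1} := by
  have h1 : (H.C : Set G) = {x : G | x ∈ H.C ∧ x ≠ 1} ∪ {1} := by
    ext x
    constructor
    · intro hx
      by_cases h : x = 1
      · exact Or.inr h
      · exact Or.inl ⟨hx, h⟩
    · rintro (h | h)
      · exact h.1
      · rw [Set.mem_singleton_iff.1 h]
        exact H.C.one_mem
  have h2 : rk (H.C : Set G) = max (rk {x : G | x ∈ H.C ∧ x ≠ 1}) 0 := by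
    conv_lhs => rw [h1]
    rw [rk_union (P0A2_df_ne H) (Df.singleton 1), rk_singleton]
  rw [h2]
  have := H.rk_C_pos
  omega

theorem rk_conj : rk {y : G | ∃ g, ∃ x ∈ {x | x ∈ H.C ∧ x ≠ 1}, y = g⁻¹ * x * g} =
    rk (Set.univ : Set G) := by
  apply le_antisymm
  · exact rk_mono (P0A2_df (P0A2_df_ne H)) Df.univ (Set.subset_univ _)
  · have h := rk_union_conj (P0A2_df_ne H) (P0A2_exists H) (k := rk (H.C : Set G)) (by
      rintro v ⟨hv, hv1⟩
      rw [← H.rk_N]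
      refine rk_mono ?_ H.df_N ?_
      · exact DfFun.preimage (f := fun g : G => g * v * g⁻¹) (by fun_prop) (P0A2_df_ne H)
      · rintro g ⟨hg, _⟩
        have h2 : g⁻¹ ∈ H.N := H.mem_N_of_ti hv hv1 (by rw [inv_inv]; exact hg)
        have h3 := H.N.inv_mem h2
        rwa [inv_inv] at h3)
    have h2 := P0A2_rk_ne H
    omega

theorem cover : rk {y : G | ∃ g, ∃ x ∈ H.C, y = g⁻¹ * x * g} = rk (Set.univ : Set G) := by
  have hd : Df {y : G | ∃ g, ∃ x ∈ H.C, y = g⁻¹ * x * g} := P0A2_df (V := (H.C : Set G)) H.connC.1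
  apply le_antisymm
  · exact rk_mono hd Df.univ (Set.subset_univ _)
  · rw [← H.rk_conj]
    refine rk_mono (P0A2_df (P0A2_df_ne H)) hd ?_
    rintro y ⟨g, x, hx, rfl⟩
    exact ⟨g, x, hx.1, rfl⟩

/-- a generous set meets the union of the conjugates of `C` -/
theorem meet {V : Set G} (hV : Df V) (hne : V.Nonempty)
    (h : ∀ v ∈ V, rk {g : G | g * v * g⁻¹ ∈ V} ≤ rk V) :
    ∃ v ∈ V, v ≠ 1 ∧ ∃ g, g * v * g⁻¹ ∈ H.C := by
  have h1 := rk_union_conj hV hne h
  have hns : ∀ S : Set G, S.Nonempty → rk (Set.univ : Set G) ≤ rk S → ¬ Small S Set.univ := by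
    intro S hS hr hsm
    rcases hsm with h2 | h2
    · exact hS.ne_empty h2
    · omega
  obtain ⟨v0, hv0⟩ := hne
  obtain ⟨x0, hx0⟩ := P0A2_exists H
  obtain ⟨y, ⟨g, v, hv, hy⟩, ⟨k, x, hx, hy'⟩⟩ := H.irr_univ.inter_nonempty (P0A2_df hV)
    (P0A2_df (P0A2_df_ne H)) (Set.subset_univ _) (Set.subset_univ _)
    (hns _ ⟨1⁻¹ * v0 * 1, 1, v0, hv0, rfl⟩ (by omega))
    (hns _ ⟨1⁻¹ * x0 * 1, 1, x0, hx0, rfl⟩ H.rk_conj.ge)
  have hvx : k * g⁻¹ * v * (k * g⁻¹)⁻¹ = x := by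
    calc k * g⁻¹ * v * (k * g⁻¹)⁻¹ = k * (g⁻¹ * v * g) * k⁻¹ := by group
      _ = k * (k⁻¹ * x * k) * k⁻¹ := by rw [← hy, hy']
      _ = x := by group
  refine ⟨v, hv, ?_, k * g⁻¹, ?_⟩
  · intro h2
    apply hx.2
    rw [← hvx, h2]
    group
  · rw [hvx]
    exact hx.1

end Hyp

end Pool.Agent.A1C
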