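import Pool.Agent.A1C.P0A2

/-!
# P0A3: (a3) (80 lines)

Suppose not. `C` is irreducible (`conn_iff_irr`), so for generic `x ∈ C` we have `(a x)^n ≠ 1` (`Irr.not_ev`). Let
`V = {y | ∃ x ∈ C, y = a x ∧ y^n ≠ 1}`, the image of `{x ∈ C | (a x)^n ≠ 1}` under `x ↦ a x`: it has rank `rk C` (`ev_rk`, `rk_smul`). For `v ∈ V` we have
`v^n ∈ C` (`coset_pow`), `v^n ≠ 1`. If `g v g⁻¹ ∈ V` then `g v^n g⁻¹ = (g v g⁻¹)^n ∈ C`, so `g⁻¹ ∈ N`, `g ∈ N` (`mem_N_of_ti`): the set of these `g` has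
rank at most `rk N = rk C = rk V`. By `meet` there are `v ∈ V` and `g` with `g v g⁻¹ ∈ C`. Again `g v^n g⁻¹ ∈ C`, so `g ∈ N`, so `v ∈ C` (`conj_mem'`),
`a = v x⁻¹ ∈ C`: contradiction.
-/

namespace Pool.Agent.A1C

universe u

namespace Hyp

variable {M : Type u} [Univ M] {G : Type u} [Group G] [DGrp M G] (H : Hyp G)

theorem ev_pow {a : G} (ha : a ∈ H.N) (ha' : a ∉ H.C) {n : ℕ} (hn : a ^ n ∈ H.C) :
    ∀ᶠ x in gen (H.C : Set G), (a * x) ^ n = 1 := by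
  have hirr : Irr (H.C : Set G) := (conn_iff_irr H.connC.1).1 H.connC
  have hdp : DfP (fun x : G => (a * x) ^ n = 1) := DfP.eq (by fun_prop) (by fun_prop)
  by_contra hcon
  have hgen := (hirr.not_ev hdp).1 hcon
  obtain ⟨V, hVdef⟩ : ∃ V : Set G, V = (fun x => a * x) '' {x | x ∈ (H.C : Set G) ∧
      ¬ (a * x) ^ n = 1} := ⟨_, rfl⟩
  have hdS : Df {x | x ∈ (H.C : Set G) ∧ ¬ (a * x) ^ n = 1} :=
    DfP.and (DfP.mem (f := fun x : G => x) H.connC.1 DfFun.id) (DfP.not hdp)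
  have hrS : rk {x | x ∈ (H.C : Set G) ∧ ¬ (a * x) ^ n = 1} = rk (H.C : Set G) :=
    ev_rk H.connC.1 (DfP.not hdp) hgen
  have hVdf : Df V := by
    rw [hVdef]
    exact df_smul hdS a
  have hVrk : rk V = rk (H.C : Set G) := by
    rw [hVdef, rk_smul _ hdS a, hrS]
  have hVne : V.Nonempty := by
    obtain ⟨x, hx, hx1⟩ := ev_exists (A := (H.C : Set G)) ⟨1, H.C.one_mem⟩ hgen
    rw [hVdef]
    exact ⟨a * x, x, ⟨hx, hx1⟩, rfl⟩
  have hpow : ∀ v ∈ V, v ^ n ∈ H.C ∧ v ^ n ≠ 1 := by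
    intro v hv
    rw [hVdef] at hv
    obtain ⟨x, ⟨hx, hx1⟩, rfl⟩ := hv
    refine ⟨?_, hx1⟩
    obtain ⟨y, hy, hyx⟩ := H.coset_pow ha hx n
    show (a * x) ^ n ∈ H.C
    rw [hyx]
    exact H.C.mul_mem hn hy
  have hgN : ∀ v ∈ V, ∀ g : G, (g * v * g⁻¹) ^ n ∈ H.C → g ∈ H.N := by
    intro v hv g hg
    obtain ⟨h1, h2⟩ := hpow v hv
    rw [conj_pow] at hg
    have h3 : g⁻¹ ∈ H.N := by
      apply H.mem_N_of_ti h1 h2
      rw [inv_inv]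
      exact hg
    have h4 := H.N.inv_mem h3
    rwa [inv_inv] at h4
  obtain ⟨v, hv, hv1, g, hg⟩ := H.meet hVdf hVne (by
    intro v hv
    have hdg : Df {g : G | g * v * g⁻¹ ∈ V} :=
      DfP.mem (f := fun g : G => g * v * g⁻¹) hVdf (by fun_prop)
    calc rk {g : G | g * v * g⁻¹ ∈ V} ≤ rk (H.N : Set G) := by
          apply rk_mono hdg H.df_N
          intro g hg
          exact hgN v hv g (hpow _ hg).1
      _ = rk (H.C : Set G) := H.rk_N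
      _ = rk V := hVrk.symm)
  have hgN' : g ∈ H.N := hgN v hv g (H.C.pow_mem hg n)
  have hvC : v ∈ H.C := by
    have h1 := H.conj_mem' hgN' hg
    have h2 : g⁻¹ * (g * v * g⁻¹) * g = v := by group
    rwa [h2] at h1
  rw [hVdef] at hv
  obtain ⟨x, ⟨hx, hx1⟩, hxv⟩ := hv
  apply ha'
  have h5 : a = v * x⁻¹ := by
    rw [← hxv]
    show a = a * x * x⁻¹
    group
  rw [h5]
  exact H.C.mul_mem hvC (H.C.inv_mem hx)

end Hyp

end Pool.Agent.A1C
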