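import Pool.Agent.A1C.P0A3

/-!
# P0A4: (a4), `C` is abelian and inverted by an involution `w` of `N` (100 lines)

`exists_w_ev`: `a` from `exists_sq_mem`; by `ev_pow` (`n = 2`) `(a x)^2 = 1` for generic `x ∈ C`; choose such an `x0 ∈ C` (`ev_exists`), `w = a x0`; `w ∉ C`, so
`w ≠ 1`. `ev_pow` for `w`: `(w x)^2 = 1` for generic `x`, i.e. `w x w = x⁻¹`.
`comm`: for generic `x`, for generic `y` (in `C`): `x`, `y` and `x y` are inverted (`Conn.ev_mul_left` for `x y`, `x ∈ C` by `ev_mem`), so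
`y⁻¹ x⁻¹ = w x y w = (w x w)(w y w) = x⁻¹ y⁻¹` (`w w = 1`), so `x` and `y` commute. Hence for generic `x` we have `C ≤ cen x` (`Conn.le_of_ev`), i.e. `x` commutes
with every element of `C`. For `z ∈ C` the generic `x` lie in `cen z`, so `C ≤ cen z`.
`exists_w`: the set of the `x` with `w x w = x⁻¹` and `x ∈ C` is a definable subgroup (abelian!) containing the generic elements of `C`, so it contains `C`.
-/

namespace Pool.Agent.A1C

universe u

namespace Hyp

variable {M : Type u} [Univ M] {G : Type u} [Group G] [DGrp M G] (H : Hyp G)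

theorem exists_w_ev : ∃ w ∈ H.N, w ∉ H.C ∧ IsInv w ∧
    ∀ᶠ x in gen (H.C : Set G), w * x * w = x⁻¹ := by
  obtain ⟨a, haN, haC, ha2⟩ := H.exists_sq_mem
  have h1 := H.ev_pow haN haC (n := 2) (by rw [pow_two]; exact ha2)
  have hne : (H.C : Set G).Nonempty := ⟨1, H.C.one_mem⟩
  obtain ⟨x0, hx0, hx0'⟩ := ev_exists hne h1
  have hwN : a * x0 ∈ H.N := H.N.mul_mem haN (H.C_le_N hx0)
  have hwC : a * x0 ∉ H.C := fun h => haC ((H.C.mul_mem_cancel_right hx0).1 h)
  have hw2 : a * x0 * (a * x0) = 1 := by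
    rw [← pow_two]
    exact hx0'
  refine ⟨a * x0, hwN, hwC, ⟨hw2, fun h => hwC (by rw [h]; exact H.C.one_mem)⟩, ?_⟩
  have h2 := H.ev_pow hwN hwC (n := 2) (by rw [pow_two, hw2]; exact H.C.one_mem)
  refine h2.mono fun x hx => ?_
  rw [pow_two, ← mul_assoc] at hx
  exact eq_inv_of_mul_eq_one_left hx

theorem comm {x y : G} (hx : x ∈ H.C) (hy : y ∈ H.C) : x * y = y * x := by
  obtain ⟨w, _, _, hw, hev⟩ := H.exists_w_ev
  have h1 : ∀ᶠ x in gen (H.C : Set G), H.C ≤ cen x := by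
    refine (hev.and (ev_mem (H.C : Set G))).mono fun a ha => ?_
    refine H.connC.le_of_ev (df_cen a) ?_
    have h2 := (H.connC.ev_mul_left ha.2 (p := fun z => w * z * w = z⁻¹)).2 hev
    refine (hev.and h2).mono fun b hb => ?_
    rw [mem_cen]
    have h3 : w * (a * b) * w = (w * a * w) * (w * b * w) := by
      calc w * (a * b) * w = w * a * (1 : G) * b * w := by group
        _ = w * a * (w * w) * b * w := by rw [hw.1]
        _ = (w * a * w) * (w * b * w) := by group
    rw [hb.2, ha.1, hb.1, mul_inv_rev] at h3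
    have h4 : a * b = b * a := by
      have h5 := congrArg (fun z => z⁻¹) h3
      simpa [mul_inv_rev] using h5
    exact h4.symm
  have h2 : H.C ≤ cen y := by
    refine H.connC.le_of_ev (df_cen y) ?_
    refine h1.mono fun a ha => ?_
    rw [mem_cen]
    exact (mem_cen.1 (ha hy)).symm
  exact mem_cen.1 (h2 hx)

theorem exists_w : ∃ w ∈ H.N, w ∉ H.C ∧ IsInv w ∧ ∀ x ∈ H.C, w * x * w = x⁻¹ := by
  obtain ⟨w, hwN, hwC, hw, hev⟩ := H.exists_w_ev
  have hC : Df (H.C : Set G) := H.connC.1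
  let K : Subgroup G :=
    { carrier := {x | x ∈ H.C ∧ w * x * w = x⁻¹}
      mul_mem' := by
        rintro a b ⟨ha, ha'⟩ ⟨hb, hb'⟩
        refine ⟨H.C.mul_mem ha hb, ?_⟩
        calc w * (a * b) * w = w * a * (1 : G) * b * w := by group
          _ = w * a * (w * w) * b * w := by rw [hw.1]
          _ = (w * a * w) * (w * b * w) := by group
          _ = a⁻¹ * b⁻¹ := by rw [ha', hb']
          _ = (b * a)⁻¹ := by rw [mul_inv_rev]
          _ = (a * b)⁻¹ := by rw [H.comm ha hb]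
      one_mem' := ⟨H.C.one_mem, by rw [mul_one, hw.1, inv_one]⟩
      inv_mem' := by
        rintro a ⟨ha, ha'⟩
        refine ⟨H.C.inv_mem ha, ?_⟩
        have h1 : w⁻¹ = w := inv_eq_of_mul_eq_one_left hw.1
        calc w * a⁻¹ * w = w⁻¹ * a⁻¹ * w⁻¹ := by rw [h1]
          _ = (w * a * w)⁻¹ := by group
          _ = a⁻¹⁻¹ := by rw [ha'] }
  have hK : Df (K : Set G) :=
    Df.inter hC (DfFun.eq (f := fun x : G => w * x * w) (g := fun x => x⁻¹) (by fun_prop)
      (by fun_prop))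
  have hle : H.C ≤ K := H.connC.le_of_ev hK
    ((hev.and (ev_mem (H.C : Set G))).mono fun x hx => ⟨hx.2, hx.1⟩)
  exact ⟨w, hwN, hwC, hw, fun x hx => (hle hx).2⟩

end Hyp

end Pool.Agent.A1C
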