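import Pool.Agent.A1C.P0A4

/-!
# P0A5: (a5) and `2`-divisibility of `C` (80 lines)

`pow_eq_one_of_comm`: for generic `y ∈ C` both `(a y)^n = 1` and `(a (x y))^n = 1` (`ev_pow`, `Conn.ev_mul_left`). Fix such a `y ∈ C` (`ev_exists`; use `ev_mem`).
`x` commutes with `a` and with `y` (`comm`), so `a (x y) = x (a y)` and `1 = (x (a y))^n = x^n (a y)^n = x^n`.
`inverts_of_sq`: for generic `y ∈ C` both `(a y)^2 = 1` and `(a (x y))^2 = 1`; fix such a `y`. With `u = a x a⁻¹ ∈ C` and `v = a y a ∈ C` (it is `y⁻¹`):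
`1 = a x y a x y = u (a y a) x y = u v x y = (u x)(v y)` by commutativity and `v y = 1`, so `a x a⁻¹ = x⁻¹`, hence `a⁻¹ x a = x⁻¹`.
`two_torsion_finite`: it is an elementary abelian `2`-subgroup (`H.u2`). `sqrt`, `root`: `Conn.sq`, `Conn.two_pow_root`.
-/

namespace Pool.Agent.A1C

universe u

namespace Hyp

variable {M : Type u} [Univ M] {G : Type u} [Group G] [DGrp M G] (H : Hyp G)

theorem pow_eq_one_of_comm {a : G} (ha : a ∈ H.N) (ha' : a ∉ H.C) {n : ℕ} (hn : a ^ n ∈ H.C)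
    {x : G} (hx : x ∈ H.C) (hc : a * x = x * a) : x ^ n = 1 := by
  have h1 := H.ev_pow ha ha' hn
  have h2 : ∀ᶠ y in gen (H.C : Set G), (a * (x * y)) ^ n = 1 :=
    (H.connC.ev_mul_left hx (p := fun z => (a * z) ^ n = 1)).2 h1
  obtain ⟨y, hy, h3, h4⟩ := ev_exists (A := (H.C : Set G)) ⟨1, H.C.one_mem⟩ (h1.and h2)
  have h5 : a * (x * y) = x * (a * y) := by
    rw [← mul_assoc, hc, mul_assoc]
  have h6 : Commute x (a * y) := by
    show x * (a * y) = a * y * x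
    rw [← mul_assoc, ← hc, mul_assoc, H.comm hx hy, ← mul_assoc]
  rw [h5, h6.mul_pow, h3, mul_one] at h4
  exact h4

theorem inverts_of_sq {a : G} (ha : a ∈ H.N) (ha' : a ∉ H.C) (h2 : a * a ∈ H.C)
    {x : G} (hx : x ∈ H.C) : a⁻¹ * x * a = x⁻¹ := by
  have hn : a ^ 2 ∈ H.C := by
    rw [pow_two]
    exact h2
  have h1 := H.ev_pow ha ha' hn
  have h3 : ∀ᶠ y in gen (H.C : Set G), (a * (x * y)) ^ 2 = 1 :=
    (H.connC.ev_mul_left hx (p := fun z => (a * z) ^ 2 = 1)).2 h1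
  obtain ⟨y, hy, h4, h5⟩ := ev_exists (A := (H.C : Set G)) ⟨1, H.C.one_mem⟩ (h1.and h3)
  rw [pow_two] at h4 h5
  -- `a y a = y⁻¹`
  have h6 : a * y * a = y⁻¹ := by
    rw [eq_inv_iff_mul_eq_one, mul_assoc]
    rw [← mul_assoc] at h4
    rw [← mul_assoc]
    exact h4
  have h7 : a * (x * y) * a = (x * y)⁻¹ := by
    rw [eq_inv_iff_mul_eq_one, mul_assoc]
    exact h5
  have hu : a * x * a⁻¹ ∈ H.C := H.conj_mem ha hx
  have h8 : a * x * a⁻¹ * y⁻¹ = (x * y)⁻¹ := by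
    rw [← h7, ← h6]
    group
  have h9 : a * x * a⁻¹ = x⁻¹ := by
    rw [mul_inv_rev, H.comm (H.C.inv_mem hy) (H.C.inv_mem hx)] at h8
    exact mul_right_cancel h8
  have h10 : a * x⁻¹ * a⁻¹ = x := by
    have h11 : a * x⁻¹ * a⁻¹ = (a * x * a⁻¹)⁻¹ := by group
    rw [h11, h9, inv_inv]
  calc a⁻¹ * x * a = a⁻¹ * (a * x⁻¹ * a⁻¹) * a := by rw [h10]
    _ = x⁻¹ := by group

theorem two_torsion_finite : {x | x ∈ H.C ∧ x * x = 1}.Finite := by
  have h := H.u2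
    { carrier := {x | x ∈ H.C ∧ x * x = 1}
      mul_mem' := by
        rintro x y ⟨hx, hx2⟩ ⟨hy, hy2⟩
        refine ⟨H.C.mul_mem hx hy, ?_⟩
        have h1 : Commute x y := H.comm hx hy
        rw [← pow_two] at hx2 hy2 ⊢
        rw [h1.mul_pow, hx2, hy2, mul_one]
      one_mem' := ⟨H.C.one_mem, mul_one 1⟩
      inv_mem' := by
        rintro x ⟨hx, hx2⟩
        refine ⟨H.C.inv_mem hx, ?_⟩
        rw [← mul_inv_rev, hx2, inv_one] }
    (fun x hx => hx.2)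
  exact h

theorem sqrt {x : G} (hx : x ∈ H.C) : ∃ y ∈ H.C, y * y = x :=
  Conn.sq H.connC (fun _ hx _ hy => H.comm hx hy) H.two_torsion_finite hx

theorem root {x : G} (hx : x ∈ H.C) (n : ℕ) : ∃ y ∈ H.C, y ^ (2 ^ n) = x :=
  Conn.two_pow_root H.connC (fun _ hx _ hy => H.comm hx hy) H.two_torsion_finite hx n

end Hyp

end Pool.Agent.A1C
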