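import Pool.Agent.A1C.P0H

/-!
# P0C1: minimal tori (Lemma A0 and (t0)) (120 lines)

`torsion_finite`: induction on `m`. `W[2]` is an elementary abelian subgroup, finite by `U2`. The map `x ↦ x * x` sends `W[2^(m+1)]` to `W[2^m]` and its fibres
are empty or contained in `x0 W[2]`.
`exists_minTorus`: `exists_minimal` for the class of the connected subgroups which are not `NoInv`; `LemM` gives commutativity (`¬ NoInv` is the existence of
an involution).
`MinTorus.root`: `Conn.two_pow_root` and `torsion_finite` (`m = 1`; `x ^ 2 = x * x`).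
`MinTorus.le_of_two` (t0): `K = E ⊓ A` is definable, `k = (idc K).relIndex K ≠ 0`. Let `j ∈ A` be the involution, choose `r` with `k < 2^r` and `b ∈ A` with
`b^(2^r) = j`. `b` is a `2`-element, so `b ∈ K`, and `b^n ∈ idc K` for an `n` with `0 < n ≤ k` (`Subgroup.exists_pow_mem_of_relIndex_ne_zero`). Write `n = 2^s l`,
`l` odd, `s < r`. Then `(b^n)^(2^(r-s)) = j^l = j ∈ idc K`. So `idc K` is not `NoInv`, by `hA.min` it is `A`, so `A ≤ K ≤ E`.
-/

namespace Pool.Agent.A1C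

universe u

variable {M : Type u} [Univ M] {G : Type u} [Group G] [DGrp M G]

theorem torsion_finite (hu : U2 G) {W : Subgroup G} (hc : ∀ x ∈ W, ∀ y ∈ W, x * y = y * x)
    (m : ℕ) : {x | x ∈ W ∧ x ^ (2 ^ m) = 1}.Finite := by
  have h2 : {x | x ∈ W ∧ x * x = 1}.Finite := by
    have h := hu
      { carrier := {x | x ∈ W ∧ x * x = 1}
        mul_mem' := by
          rintro x y ⟨hx, hx2⟩ ⟨hy, hy2⟩
          refine ⟨W.mul_mem hx hy, ?_⟩
          have h1 : Commute x y := hc _ hx _ hy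
          rw [← pow_two] at hx2 hy2 ⊢
          rw [h1.mul_pow, hx2, hy2, mul_one]
        one_mem' := ⟨W.one_mem, mul_one 1⟩
        inv_mem' := by
          rintro x ⟨hx, hx2⟩
          refine ⟨W.inv_mem hx, ?_⟩
          rw [← mul_inv_rev, hx2, inv_one] }
      (fun x hx => hx.2)
    exact h
  induction m with
  | zero =>
    apply Set.Finite.subset (Set.finite_singleton (1 : G))
    rintro x ⟨_, hx⟩
    rw [pow_zero, pow_one] at hx
    exact hx
  | succ m ih =>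
    have hsub : {x | x ∈ W ∧ x ^ (2 ^ (m + 1)) = 1} =
        {x | x ∈ W ∧ x ^ (2 ^ (m + 1)) = 1} ∩ (fun x => x * x) ⁻¹' {x | x ∈ W ∧ x ^ (2 ^ m) = 1} := by
      ext x
      constructor
      · rintro ⟨hx, hx2⟩
        refine ⟨⟨hx, hx2⟩, W.mul_mem hx hx, ?_⟩
        show (x * x) ^ (2 ^ m) = 1
        rw [← pow_two, ← pow_mul, ← pow_succ']
        exact hx2
      · intro h
        exact h.1
    rw [hsub]
    apply Set.Finite.subset (Set.Finite.biUnion ih (t := fun y => {x | x ∈ W ∧ x * x = y}) ?_)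
    · rintro x ⟨⟨hx, _⟩, hx2⟩
      simp only [Set.mem_iUnion]
      exact ⟨x * x, hx2, hx, rfl⟩
    · intro y _
      rcases Set.eq_empty_or_nonempty {x | x ∈ W ∧ x * x = y} with he | ⟨x0, hx0, hx0y⟩
      · rw [he]
        exact Set.finite_empty
      · apply Set.Finite.subset (h2.image (fun z => x0 * z))
        rintro x ⟨hx, hxy⟩
        refine ⟨x0⁻¹ * x, ⟨W.mul_mem (W.inv_mem hx0) hx, ?_⟩, by group⟩
        have h1 : Commute x0⁻¹ x := hc _ (W.inv_mem hx0) _ hx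
        rw [← pow_two, h1.mul_pow, pow_two, pow_two, hxy, ← hx0y]
        group

theorem exists_minTorus (hM : LemM G) {L : Subgroup G} (hL : Conn L) (hinv : ¬ NoInv L) :
    ∃ A ≤ L, MinTorus A := by
  obtain ⟨A, hAL, ⟨hA, hAi⟩, hmin⟩ := exists_minimal
    (fun K : Subgroup G => Conn K ∧ ¬ NoInv K) (fun K hK => hK.1.1) (H := L) ⟨hL, hinv⟩
  have hm : ∀ K : Subgroup G, K ≤ A → Conn K → K ≠ A → NoInv K := by
    intro K hKA hK hne
    by_contra hno
    exact hne (hmin K ⟨hK, hno⟩ hKA)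
  have hAi' : ∃ j ∈ A, IsInv j := by
    unfold NoInv at hAi
    push Not at hAi
    obtain ⟨t, ht, ht2, ht1⟩ := hAi
    exact ⟨t, ht, ht2, ht1⟩
  exact ⟨A, hAL, hA, hM A hA hAi' hm, hAi', hm⟩

/-- divisibility of connected abelian groups -/
theorem conn_root (hu : U2 G) {A : Subgroup G} (hA : Conn A)
    (hc : ∀ x ∈ A, ∀ y ∈ A, x * y = y * x) {x : G} (hx : x ∈ A) (n : ℕ) :
    ∃ y ∈ A, y ^ (2 ^ n) = x := by
  have h := torsion_finite hu hc 1
  rw [pow_one] at h
  simp only [pow_two] at h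
  exact Conn.two_pow_root hA hc h hx n

/-- (t0) -/
theorem MinTorus.le_of_two (hu : U2 G) {A E : Subgroup G} (hA : MinTorus A)
    (hE : Df (E : Set G)) (h : ∀ x ∈ A, ∀ n : ℕ, x ^ (2 ^ n) = 1 → x ∈ E) : A ≤ E := by
  have hK : Df ((E ⊓ A : Subgroup G) : Set G) := df_inf hE hA.conn.1
  have hi := idc_index hK
  obtain ⟨j, hj, hj2, hj1⟩ := hA.exInv
  obtain ⟨k, hk⟩ : ∃ k : ℕ, k = (idc (E ⊓ A)).relIndex (E ⊓ A) := ⟨_, rfl⟩
  obtain ⟨r, hr⟩ : ∃ r : ℕ, k < 2 ^ r := ⟨k, Nat.lt_two_pow_self⟩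
  obtain ⟨b, hb, hbj⟩ := conn_root hu hA.conn hA.comm hj r
  have hb2 : b ^ (2 ^ (r + 1)) = 1 := by
    rw [pow_succ, pow_mul, hbj, pow_two, hj2]
  have hbK : b ∈ E ⊓ A := ⟨h b hb (r + 1) hb2, hb⟩
  obtain ⟨n, hn0, hnk, hbn⟩ := Subgroup.exists_pow_mem_of_relIndex_ne_zero hi hbK
  obtain ⟨s, l, hl, hnsl⟩ := Nat.exists_eq_two_pow_mul_odd (n := n) (by omega)
  have hsr : s < r := by
    have h1 : 2 ^ s ≤ n := by
      rw [hnsl]
      exact Nat.le_mul_of_pos_right _ hl.pos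
    have h2 : 2 ^ s < 2 ^ r := lt_of_le_of_lt (h1.trans (by rw [hk]; exact hnk)) hr
    exact (Nat.pow_lt_pow_iff_right (by norm_num)).1 h2
  have hjn : j ∈ idc (E ⊓ A) := by
    have h3 : (b ^ n) ^ (2 ^ (r - s)) = j := by
      have h4 : n * 2 ^ (r - s) = 2 ^ r * l := by
        rw [hnsl]
        have h5 : 2 ^ r = 2 ^ s * 2 ^ (r - s) := by
          rw [← pow_add]
          congr 1
          omega
        rw [h5]
        ring
      rw [← pow_mul, h4, pow_mul, hbj]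
      obtain ⟨m, hm⟩ := hl
      rw [hm, pow_succ, pow_mul, pow_two, hj2, one_pow, one_mul]
    have h6 := (idc (E ⊓ A)).pow_mem hbn.1 (2 ^ (r - s))
    rwa [h3] at h6
  have hKA : idc (E ⊓ A) ≤ A := (idc_le _).trans inf_le_right
  have hKeq : idc (E ⊓ A) = A := by
    by_contra hne
    exact hj1 (hA.min _ hKA (idc_conn hK) hne j hjn hj2)
  intro x hx
  rw [← hKeq] at hx
  exact (idc_le _ hx).1

end Pool.Agent.A1C
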