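import Pool.Agent.A1C.P0C1

/-!
# P0C2: (t1) (60 lines)

Let `F n = {a ∈ A | a^(2^n) = 1}` (increasing in `n`) and `H n = Subgroup.centralizer (F n)`, definable by `df_centralizer`, antitone. By `dcc` there is `m` with
`H n = H m` for all `n ≥ m`. If `u` commutes with `F m` then `u ∈ H n` for all `n`, i.e. all `2`-elements of `A` lie in `cen u`; by (t0) `A ≤ cen u`.
-/

namespace Pool.Agent.A1C

universe u

variable {M : Type u} [Univ M] {G : Type u} [Group G] [DGrp M G]

/-- (t1) -/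
theorem MinTorus.exists_exponent (hu : U2 G) {A : Subgroup G} (hA : MinTorus A) :
    ∃ m : ℕ, ∀ u : G, (∀ a ∈ A, a ^ (2 ^ m) = 1 → u * a = a * u) → ∀ a ∈ A, u * a = a * u := by
  obtain ⟨m, hm⟩ := dcc (fun n : ℕ => Subgroup.centralizer {a | a ∈ A ∧ a ^ (2 ^ n) = 1})
    (fun n => df_centralizer _) (antitone_nat_of_succ_le fun n => by
      refine Subgroup.centralizer_le ?_
      rintro a ⟨ha, h⟩
      refine ⟨ha, ?_⟩
      rw [pow_succ, pow_mul, h, one_pow])
  refine ⟨m, fun u h a ha => ?_⟩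
  have h1 : u ∈ Subgroup.centralizer {a | a ∈ A ∧ a ^ (2 ^ m) = 1} := by
    rw [Subgroup.mem_centralizer_iff]
    rintro a ⟨ha, h2⟩
    exact (h a ha h2).symm
  have h2 : A ≤ cen u := by
    refine hA.le_of_two hu (df_cen u) fun x hx n hn => ?_
    rw [mem_cen]
    rcases le_total m n with h3 | h3
    · have h4 := hm n h3
      rw [← h4, Subgroup.mem_centralizer_iff] at h1
      exact h1 x ⟨hx, hn⟩
    · have h5 : x ^ (2 ^ m) = 1 := by
        obtain ⟨k, rfl⟩ := Nat.exists_eq_add_of_le h3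
        rw [pow_add, pow_mul, hn, one_pow]
      exact (h x hx h5).symm
  exact (h2 ha).symm

end Pool.Agent.A1C
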