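import Pool.Agent.A1C.P0C1

/-!
# P0C3: Lemma A1, the double centraliser `W` and the subgroup `E` (120 lines)

`dcen A x` is `W`, `gcap A x` is `E` of the paper proof. `df_dcen`: `df_centralizer`. `dcen_comm`: let `Q` be the set of the definition. `y ∈ W` commutes with
`x` and with `A` because `x ∈ Q` and `A ⊆ Q` (`A` is abelian and centralised by `x`), so `y ∈ Q`, so every `z ∈ W` commutes with `y`.
`zeta_le_dcen`: `y ∈ zeta (x s)`, `u ∈ Q`: `u` commutes with `x` and `s`, so with `x s`, so with `y`.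
`df_gcap`: `DfP.ev` (with `q x y = (y ∈ A)`) applied to the definable predicate `y ∈ zeta (x * s)` (`dfP_mem_zeta.comp`).
`idc_gcap_le`: for all `y ∈ idc E`, for generic `s ∈ A`: `y ∈ zeta (x s)`. By `ev_comm` (`A` and `idc E` are irreducible, `conn_iff_irr`): for generic `s ∈ A`, for
generic `y ∈ idc E`: `y ∈ zeta (x s)`; then `Conn.le_of_ev`.
`ev_torsion`: the set `T` of the `y ∈ W` with `y^(2^m) = 1` is finite (`torsion_finite`). For each `y ∈ T` either `y ∈ zeta (x s)` for generic `s ∈ A` (then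
`y ∈ E`) or `y ∉ zeta (x s)` for generic `s` (`Irr.ev_or`) (then `y ∉ E`). Intersect over `T` (`Filter.eventually_all_finite`).
-/

namespace Pool.Agent.A1C

universe u

variable {M : Type u} [Univ M] {G : Type u} [Group G] [DGrp M G]

open Filter

/-- the double centraliser of `A` and `x` -/
def dcen (A : Subgroup G) (x : G) : Subgroup G :=
  Subgroup.centralizer {u | u * x = x * u ∧ ∀ a ∈ A, u * a = a * u}

theorem df_dcen (A : Subgroup G) (x : G) : Df (dcen A x : Set G) :=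
  df_centralizer _

theorem le_dcen {A : Subgroup G} {x : G} : A ≤ dcen A x := by
  intro a ha
  rw [dcen, Subgroup.mem_centralizer_iff]
  rintro u ⟨_, hu⟩
  exact hu a ha

theorem self_mem_dcen {A : Subgroup G} {x : G} : x ∈ dcen A x := by
  rw [dcen, Subgroup.mem_centralizer_iff]
  rintro u ⟨hu, _⟩
  exact hu

theorem dcen_comm {A : Subgroup G} {x : G} (hc : ∀ a ∈ A, ∀ b ∈ A, a * b = b * a)
    (hx : ∀ a ∈ A, x * a = a * x) : ∀ y ∈ dcen A x, ∀ z ∈ dcen A x, y * z = z * y := by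
  intro y hy z hz
  rw [dcen, Subgroup.mem_centralizer_iff] at hy hz
  refine hz y ⟨?_, ?_⟩
  · exact (hy x ⟨rfl, hx⟩).symm
  · intro a ha
    exact (hy a ⟨(hx a ha).symm, hc a ha⟩).symm

theorem zeta_le_dcen {A : Subgroup G} {x s : G} (hs : s ∈ A) : zeta (x * s) ≤ dcen A x := by
  intro y hy
  rw [dcen, Subgroup.mem_centralizer_iff]
  rintro u ⟨h1, h2⟩
  refine hy u ?_
  rw [← mul_assoc, h1, mul_assoc, h2 s hs, ← mul_assoc]

/-- the elements of the double centraliser which lie in `zeta (x * s)` for generic `s ∈ A` -/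
def gcap (A : Subgroup G) (x : G) : Subgroup G where
  carrier := {y | y ∈ dcen A x ∧ ∀ᶠ s in gen (A : Set G), y ∈ zeta (x * s)}
  mul_mem' := by
    rintro a b ⟨h1, h2⟩ ⟨h3, h4⟩
    exact ⟨(dcen A x).mul_mem h1 h3, h2.mp (h4.mono fun s h5 h6 => (zeta (x * s)).mul_mem h6 h5)⟩
  one_mem' := ⟨(dcen A x).one_mem, Eventually.of_forall fun s => (zeta (x * s)).one_mem⟩
  inv_mem' := by
    rintro a ⟨h1, h2⟩
    exact ⟨(dcen A x).inv_mem h1, h2.mono fun s h5 => (zeta (x * s)).inv_mem h5⟩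

theorem mem_gcap {A : Subgroup G} {x y : G} :
    y ∈ gcap A x ↔ y ∈ dcen A x ∧ ∀ᶠ s in gen (A : Set G), y ∈ zeta (x * s) := Iff.rfl

theorem df_gcap {A : Subgroup G} (hA : Df (A : Set G)) (x : G) : Df (gcap A x : Set G) := by
  have h1 : DfP (fun y : G => y ∈ dcen A x) := df_dcen A x
  have h2 : DfP (fun y : G => ∀ᶠ s in gen {s : G | s ∈ A}, y ∈ zeta (x * s)) :=
    DfP.ev (X := G) (Y := G) (q := fun _ s => s ∈ A) (p := fun y s => y ∈ zeta (x * s))
      (DfP.mem hA (by fun_prop))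
      (DfP.comp (f := fun z : G × G => (x * z.2, z.1)) dfP_mem_zeta (by fun_prop))
  exact DfP.and h1 h2

theorem idc_gcap_le {A : Subgroup G} (hA : Conn A) (x : G) :
    ∀ᶠ s in gen (A : Set G), idc (gcap A x) ≤ zeta (x * s) := by
  have hE : Df (gcap A x : Set G) := df_gcap hA.1 x
  have hI : Irr (idc (gcap A x) : Set G) := (conn_iff_irr (idc_conn hE).1).1 (idc_conn hE)
  have hAI : Irr (A : Set G) := (conn_iff_irr hA.1).1 hA
  have h : ∀ᶠ y in gen (idc (gcap A x) : Set G), ∀ᶠ s in gen (A : Set G), y ∈ zeta (x * s) :=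
    (ev_mem _).mono fun y hy => ((mem_gcap.1 (idc_le _ hy)).2)
  have h' := (ev_comm hI hAI (p := fun y s => y ∈ zeta (x * s))
    (DfP.comp (f := fun z : G × G => (x * z.2, z.1)) dfP_mem_zeta (by fun_prop))).1 h
  exact h'.mono fun s hs => (idc_conn hE).le_of_ev (df_zeta _) hs

theorem ev_torsion (hu : U2 G) {A : Subgroup G} (hA : Conn A)
    (hc : ∀ a ∈ A, ∀ b ∈ A, a * b = b * a) {x : G} (hx : ∀ a ∈ A, x * a = a * x) (m : ℕ) :
    ∀ᶠ s in gen (A : Set G), ∀ y ∈ dcen A x, y ^ (2 ^ m) = 1 →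
      (y ∈ zeta (x * s) ↔ y ∈ gcap A x) := by
  have hAI : Irr (A : Set G) := (conn_iff_irr hA.1).1 hA
  have hfin := torsion_finite hu (dcen_comm hc hx) m
  have key : ∀ᶠ s in gen (A : Set G), ∀ y ∈ {y | y ∈ dcen A x ∧ y ^ (2 ^ m) = 1},
      (y ∈ zeta (x * s) ↔ y ∈ gcap A x) := by
    rw [Filter.eventually_all_finite hfin]
    rintro y ⟨hy, _⟩
    have hp : DfP (fun s : G => y ∈ zeta (x * s)) :=
      DfP.comp (f := fun s : G => (x * s, y)) dfP_mem_zeta (by fun_prop)
    rcases hAI.ev_or hp with h | h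
    · have hE : y ∈ gcap A x := mem_gcap.2 ⟨hy, h⟩
      exact h.mono fun s hs => ⟨fun _ => hE, fun _ => hs⟩
    · have hE : y ∉ gcap A x := by
        intro hE
        obtain ⟨s, _, h1, h2⟩ := ev_exists hAI.ne ((mem_gcap.1 hE).2.and h)
        exact h2 h1
      exact h.mono fun s hs => ⟨fun h3 => absurd h3 hs, fun h3 => absurd h3 hE⟩
  exact key.mono fun s hs y hy h1 => hs y ⟨hy, h1⟩

end Pool.Agent.A1C
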