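import Pool.Agent.A1C.P0C1

/-!
# P0C4: Lemma A1, the algebraic core (130 lines)

Everything happens in the abelian group `W`. `E0 = idc E` is connected, so `2^k`-divisible (`conn_root`), and contained in `F` and `F'`.
Claim (for `F` and for `F'`): `f ∈ F`, `v = f^(2^m)`, `v * v ∈ E0` implies `v ∈ E0`. Proof: `f^(2^(m+1)) = e^(2^(m+1))` with `e ∈ E0`; `f e⁻¹ ∈ F` has
`(2^(m+1))`-th power `1`, so lies in `E` by `h2`, so `f ∈ E`. Some power `f^n`, `0 < n ≤ 2^m`, lies in `E0`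
(`Subgroup.exists_pow_mem_of_relIndex_ne_zero`, `idc_index`, `hm`) and `f^(2^(m+1)) ∈ E0`; write `n = 2^s l`, `l` odd, `s ≤ m`: as `gcd(n, 2^(m+1)) = 2^s` (Bezout,
`Int.gcd_eq_gcd_ab` or `zpow`), `f^(2^s) ∈ E0`, so `v ∈ E0`.
Let `Q` be the subgroup of the `z` which are `2^m`-th powers of elements of `F` and of elements of `F'` (definable: `df_pow_image`, intersection), `Q0 = idc Q`. `E0 ≤ Q`
(divisibility), so `E0 ≤ Q0` (`le_idc`). If `q ∈ Q`, `q * q ∈ Q0`: then `q * q = r * r`, `r ∈ Q0` (`conn_root`), `(q r⁻¹)^2 = 1 ∈ E0`, `q r⁻¹ ∈ Q` is a `2^m`-th power of an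
element of `F`, so by the claim `q r⁻¹ ∈ E0 ≤ Q0` and `q ∈ Q0`. For `q ∈ Q` some power `q^(2^a l)`, `l` odd, is in `Q0`, so `q^l ∈ Q0`, `q^l = r^2` with `r ∈ Q0`, and
`q = (q^(-(l-1)/2) r)^2`: every element of `Q` is a square in `Q`, so a `2^m`-th power `d^(2^m)` of some `d ∈ Q`.
`eta = y^(2^m) = (y t)^(2^m)` lies in `Q`, `eta = d^(2^m)`, `d ∈ Q ≤ F ∩ F'`. `y d⁻¹ ∈ F` and `y t d⁻¹ ∈ F'` have `2^m`-th power `1` (so also `2^(m+1)`-th),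
so both are in `E`, and so is the quotient `t`.
-/

namespace Pool.Agent.A1C

universe u

variable {M : Type u} [Univ M] {G : Type u} [Group G] [DGrp M G]

private theorem P0C4_gcd {H : Subgroup G} {f : G} {a b : ℕ} (ha : f ^ a ∈ H) (hb : f ^ b ∈ H) :
    f ^ (Nat.gcd a b) ∈ H := by
  have h : f ^ (Nat.gcd a b) = (f ^ a) ^ (Nat.gcdA a b) * (f ^ b) ^ (Nat.gcdB a b) := by
    rw [← zpow_natCast f (Nat.gcd a b), Nat.gcd_eq_gcd_ab, zpow_add, zpow_mul, zpow_mul,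
      zpow_natCast, zpow_natCast]
  rw [h]
  exact H.mul_mem (H.zpow_mem ha _) (H.zpow_mem hb _)

private theorem P0C4_claim (hu : U2 G) {W E F : Subgroup G}
    (hW : ∀ x ∈ W, ∀ y ∈ W, x * y = y * x)
    (hE : Df (E : Set G)) (hEW : E ≤ W) (hFW : F ≤ W) (h1 : idc E ≤ F) {m : ℕ}
    (hm : (idc E).relIndex E ≤ 2 ^ m)
    (h2 : ∀ y ∈ W, y ^ (2 ^ (m + 1)) = 1 → (y ∈ F ↔ y ∈ E))
    {f : G} (hf : f ∈ F) (hv : f ^ (2 ^ m) * f ^ (2 ^ m) ∈ idc E) : f ^ (2 ^ m) ∈ idc E := by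
  have hEc : ∀ x ∈ idc E, ∀ y ∈ idc E, x * y = y * x := fun x hx y hy =>
    hW x (hEW (idc_le E hx)) y (hEW (idc_le E hy))
  obtain ⟨e, he, hee⟩ := conn_root hu (idc_conn hE) hEc hv (m + 1)
  have hff : f ^ (2 ^ m) * f ^ (2 ^ m) = f ^ (2 ^ (m + 1)) := by
    rw [← pow_add, pow_succ, mul_two]
  have hfe : Commute f e⁻¹ :=
    hW f (hFW hf) e⁻¹ (W.inv_mem (hEW (idc_le E he)))
  have hg1 : (f * e⁻¹) ^ (2 ^ (m + 1)) = 1 := by
    rw [hfe.mul_pow, inv_pow, hee, hff, mul_inv_cancel]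
  have hgF : f * e⁻¹ ∈ F := F.mul_mem hf (F.inv_mem (h1 he))
  have hgE : f * e⁻¹ ∈ E := (h2 _ (hFW hgF) hg1).1 hgF
  have hfE : f ∈ E := by
    have := E.mul_mem hgE (idc_le E he)
    rwa [inv_mul_cancel_right] at this
  obtain ⟨n, hn0, hn1, hn2⟩ := Subgroup.exists_pow_mem_of_relIndex_ne_zero (idc_index hE) hfE
  have hn3 : f ^ n ∈ idc E := hn2.1
  have h4 : f ^ (2 ^ (m + 1)) ∈ idc E := by rw [← hff]; exact hv
  have h5 := P0C4_gcd hn3 h4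
  obtain ⟨s, hs, hgs⟩ := (Nat.dvd_prime_pow Nat.prime_two).1 (Nat.gcd_dvd_right n (2 ^ (m + 1)))
  have hsm : s ≤ m := by
    by_contra hcon
    have hs' : s = m + 1 := by omega
    have hd : 2 ^ (m + 1) ∣ n := by
      rw [← hs', ← hgs]
      exact Nat.gcd_dvd_left _ _
    have := Nat.le_of_dvd hn0 hd
    have h6 : 2 ^ m < 2 ^ (m + 1) := Nat.pow_lt_pow_right (by norm_num) (by omega)
    omega
  rw [hgs] at h5
  have h7 : f ^ (2 ^ m) = (f ^ (2 ^ s)) ^ (2 ^ (m - s)) := by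
    rw [← pow_mul, ← pow_add, Nat.add_sub_cancel' hsm]
  rw [h7]
  exact (idc E).pow_mem h5 _

/-- the subgroup of the `k`-th powers -/
private def P0C4_pw (F : Subgroup G) (hc : ∀ x ∈ F, ∀ y ∈ F, x * y = y * x) (k : ℕ) :
    Subgroup G where
  carrier := {z | ∃ a ∈ F, z = a ^ k}
  mul_mem' := by
    rintro _ _ ⟨a, ha, rfl⟩ ⟨b, hb, rfl⟩
    exact ⟨a * b, F.mul_mem ha hb, ((show Commute a b from hc a ha b hb).mul_pow k).symm⟩
  one_mem' := ⟨1, F.one_mem, (one_pow k).symm⟩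
  inv_mem' := by
    rintro _ ⟨a, ha, rfl⟩
    exact ⟨a⁻¹, F.inv_mem ha, (inv_pow a k).symm⟩

theorem P0C4_core (hu : U2 G) {W E F F' : Subgroup G} (hW : ∀ x ∈ W, ∀ y ∈ W, x * y = y * x)
    (hE : Df (E : Set G)) (hF : Df (F : Set G)) (hF' : Df (F' : Set G)) (hEW : E ≤ W)
    (hFW : F ≤ W) (hFW' : F' ≤ W) (h1 : idc E ≤ F) (h1' : idc E ≤ F') {m : ℕ}
    (hm : (idc E).relIndex E ≤ 2 ^ m)
    (h2 : ∀ y ∈ W, y ^ (2 ^ (m + 1)) = 1 → (y ∈ F ↔ y ∈ E))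
    (h2' : ∀ y ∈ W, y ^ (2 ^ (m + 1)) = 1 → (y ∈ F' ↔ y ∈ E))
    {y t : G} (hy : y ∈ F) (ht : t ∈ W) (hyt : y * t ∈ F') (htm : t ^ (2 ^ m) = 1) : t ∈ E := by
  have hEc : ∀ x ∈ idc E, ∀ y ∈ idc E, x * y = y * x := fun x hx y hy =>
    hW x (hEW (idc_le E hx)) y (hEW (idc_le E hy))
  have hFc : ∀ x ∈ F, ∀ y ∈ F, x * y = y * x := fun x hx y hy => hW x (hFW hx) y (hFW hy)
  have hFc' : ∀ x ∈ F', ∀ y ∈ F', x * y = y * x := fun x hx y hy => hW x (hFW' hx) y (hFW' hy)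
  obtain ⟨Q, hQ⟩ : ∃ Q : Subgroup G, Q = P0C4_pw F hFc (2 ^ m) ⊓ P0C4_pw F' hFc' (2 ^ m) :=
    ⟨_, rfl⟩
  have hQm : ∀ z, z ∈ Q ↔ (∃ a ∈ F, z = a ^ (2 ^ m)) ∧ (∃ a ∈ F', z = a ^ (2 ^ m)) := by
    intro z
    rw [hQ]
    rfl
  have hQdf : Df (Q : Set G) := by
    rw [hQ]
    exact df_inf (df_pow_image hF _) (df_pow_image hF' _)
  have hQF : Q ≤ F := by
    intro z hz
    obtain ⟨⟨a, ha, rfl⟩, _⟩ := (hQm z).1 hz
    exact F.pow_mem ha _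
  have hQF' : Q ≤ F' := by
    intro z hz
    obtain ⟨_, ⟨a, ha, rfl⟩⟩ := (hQm z).1 hz
    exact F'.pow_mem ha _
  have hQc : ∀ x ∈ Q, ∀ y ∈ Q, x * y = y * x := fun x hx y hy => hFc x (hQF hx) y (hQF hy)
  have hQ0c : ∀ x ∈ idc Q, ∀ y ∈ idc Q, x * y = y * x := fun x hx y hy =>
    hQc x (idc_le Q hx) y (idc_le Q hy)
  have hEQ : idc E ≤ idc Q := by
    refine le_idc hQdf (idc_conn hE) ?_
    intro e he
    obtain ⟨d, hd, hde⟩ := conn_root hu (idc_conn hE) hEc he m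
    exact (hQm e).2 ⟨⟨d, h1 hd, hde.symm⟩, ⟨d, h1' hd, hde.symm⟩⟩
  -- square roots of elements of the component
  have c2 : ∀ q ∈ Q, q * q ∈ idc Q → q ∈ idc Q := by
    intro q hq hqq
    obtain ⟨r, hr, hrr⟩ := conn_root hu (idc_conn hQdf) hQ0c hqq 1
    have hrr' : r * r = q * q := by rw [← hrr, pow_one, pow_two]
    have hrQ : r ∈ Q := idc_le Q hr
    have hgQ : q * r⁻¹ ∈ Q := Q.mul_mem hq (Q.inv_mem hrQ)
    have hgg : (q * r⁻¹) * (q * r⁻¹) = 1 := by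
      have hqr : Commute q r⁻¹ := hQc q hq r⁻¹ (Q.inv_mem hrQ)
      rw [← pow_two, hqr.mul_pow, inv_pow, pow_two, pow_two, hrr', mul_inv_cancel]
    obtain ⟨⟨f, hf, hfg⟩, _⟩ := (hQm _).1 hgQ
    have h3 : q * r⁻¹ ∈ idc E := by
      rw [hfg]
      refine P0C4_claim hu hW hE hEW hFW h1 hm h2 hf ?_
      rw [← hfg, hgg]
      exact (idc E).one_mem
    have := (idc Q).mul_mem (hEQ h3) hr
    rwa [inv_mul_cancel_right] at this
  have c2' : ∀ a : ℕ, ∀ q ∈ Q, q ^ (2 ^ a) ∈ idc Q → q ∈ idc Q := by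
    intro a
    induction a with
    | zero => intro q _ h; simpa using h
    | succ a ih =>
      intro q hq h
      refine ih q hq (c2 _ (Q.pow_mem hq _) ?_)
      rwa [← pow_add, ← mul_two, ← pow_succ]
  have c3 : ∀ q ∈ Q, ∃ d ∈ Q, d * d = q := by
    intro q hq
    obtain ⟨n, hn0, _, hn2⟩ := Subgroup.exists_pow_mem_of_relIndex_ne_zero (idc_index hQdf) hq
    obtain ⟨a, l, hl, hal⟩ := Nat.exists_eq_two_pow_mul_odd hn0.ne'
    have h3 : q ^ l ∈ idc Q := by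
      refine c2' a _ (Q.pow_mem hq _) ?_
      rw [← pow_mul, mul_comm, ← hal]
      exact hn2.1
    obtain ⟨k, hk⟩ := hl
    obtain ⟨r, hr, hrr⟩ := conn_root hu (idc_conn hQdf) hQ0c h3 1
    have hrQ : r ∈ Q := idc_le Q hr
    refine ⟨r * (q ^ k)⁻¹, Q.mul_mem hrQ (Q.inv_mem (Q.pow_mem hq k)), ?_⟩
    have hrq : Commute r (q ^ k)⁻¹ := hQc _ hrQ _ (Q.inv_mem (Q.pow_mem hq k))
    rw [← pow_two, hrq.mul_pow]
    rw [pow_one] at hrr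
    rw [hrr, hk, inv_pow, ← pow_mul, mul_comm k 2, pow_succ]
    have h4 : Commute (q ^ (2 * k)) q := (Commute.refl q).pow_left _
    rw [h4.eq, mul_inv_cancel_right]
  have c4 : ∀ j : ℕ, ∀ q ∈ Q, ∃ d ∈ Q, d ^ (2 ^ j) = q := by
    intro j
    induction j with
    | zero => intro q hq; exact ⟨q, hq, by simp⟩
    | succ j ih =>
      intro q hq
      obtain ⟨d, hd, hdq⟩ := ih q hq
      obtain ⟨e, he, hed⟩ := c3 d hd
      refine ⟨e, he, ?_⟩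
      rw [pow_succ, mul_comm, pow_mul, pow_two, hed, hdq]
  have hyW : y ∈ W := hFW hy
  have hcyt : Commute y t := hW y hyW t ht
  have heta : y ^ (2 ^ m) ∈ Q := by
    refine (hQm _).2 ⟨⟨y, hy, rfl⟩, ⟨y * t, hyt, ?_⟩⟩
    rw [hcyt.mul_pow, htm, mul_one]
  obtain ⟨d, hd, hdy⟩ := c4 m _ heta
  have hdW : d ∈ W := hFW (hQF hd)
  have e1 : y * d⁻¹ ∈ F := F.mul_mem hy (F.inv_mem (hQF hd))
  have e2 : y * t * d⁻¹ ∈ F' := F'.mul_mem hyt (F'.inv_mem (hQF' hd))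
  have p1 : (y * d⁻¹) ^ (2 ^ m) = 1 := by
    have : Commute y d⁻¹ := hW y hyW _ (W.inv_mem hdW)
    rw [this.mul_pow, inv_pow, hdy, mul_inv_cancel]
  have p2 : (y * t * d⁻¹) ^ (2 ^ m) = 1 := by
    have : Commute (y * t) d⁻¹ := hW _ (W.mul_mem hyW ht) _ (W.inv_mem hdW)
    rw [this.mul_pow, hcyt.mul_pow, htm, mul_one, inv_pow, hdy, mul_inv_cancel]
  have p1' : (y * d⁻¹) ^ (2 ^ (m + 1)) = 1 := by
    rw [pow_succ, pow_mul, p1, one_pow]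
  have p2' : (y * t * d⁻¹) ^ (2 ^ (m + 1)) = 1 := by
    rw [pow_succ, pow_mul, p2, one_pow]
  have q1 : y * d⁻¹ ∈ E := (h2 _ (hFW e1) p1').1 e1
  have q2 : y * t * d⁻¹ ∈ E := (h2' _ (hFW' e2) p2').1 e2
  have h5 : t = (y * d⁻¹)⁻¹ * (y * t * d⁻¹) := by
    have h6 : y * t * d⁻¹ = (y * d⁻¹) * t := by
      have h7 : t * d⁻¹ = d⁻¹ * t := hW t ht _ (W.inv_mem hdW)
      rw [mul_assoc, h7, mul_assoc]
    rw [h6, inv_mul_cancel_left]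
  rw [h5]
  exact E.mul_mem (E.inv_mem q1) q2

end Pool.Agent.A1C
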