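import Pool.Agent.A1C.P0C2
import Pool.Agent.A1C.P0C3
import Pool.Agent.A1C.P0C4

/-!
# P0C5: Lemma A1 (60 lines)

Let `W = dcen A x`, `E = gcap A x`. By (t0) (`MinTorus.le_of_two`, applied to `E`) it is enough that every `t ∈ A` with `t^(2^n) = 1` lies in `E`: then `A ≤ E`, `A ≤ idc E`
(`le_idc`), and `idc_gcap_le` finishes. Choose `m ≥ n` with `(idc E).relIndex E ≤ 2^m`; `t^(2^m) = 1`. The properties `idc E ≤ zeta (x s)` (`idc_gcap_le`),
`ev_torsion` for `m + 1` hold for generic `s`, and also with `s` replaced by `s t` (`Conn.ev_mul_right`). Pick such an `s ∈ A` (`ev_exists`) and apply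
`P0C4_core` with `F = zeta (x s)`, `F' = zeta (x (s t))`, `y = x s` (`self_mem_zeta`, `df_zeta`, `zeta_le_dcen`).
-/

namespace Pool.Agent.A1C

universe u

variable {M : Type u} [Univ M] {G : Type u} [Group G] [DGrp M G]

/-- Lemma A1 -/
theorem MinTorus.ev_le_zeta (hu : U2 G) {A : Subgroup G} (hA : MinTorus A) {x : G}
    (hx : ∀ a ∈ A, x * a = a * x) : ∀ᶠ s in gen (A : Set G), A ≤ zeta (x * s) := by
  have hE := df_gcap hA.conn.1 x
  have hAE : A ≤ gcap A x := by
    refine hA.le_of_two hu hE fun t ht n hn => ?_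
    have hmi : (idc (gcap A x)).relIndex (gcap A x) ≤
        2 ^ (max n ((idc (gcap A x)).relIndex (gcap A x))) :=
      (le_max_right n _).trans Nat.lt_two_pow_self.le
    have htm : t ^ (2 ^ (max n ((idc (gcap A x)).relIndex (gcap A x)))) = 1 := by
      obtain ⟨k, hk⟩ := Nat.exists_eq_add_of_le (le_max_left n
        ((idc (gcap A x)).relIndex (gcap A x)))
      rw [hk, pow_add, pow_mul, hn, one_pow]
    generalize max n ((idc (gcap A x)).relIndex (gcap A x)) = m at hmi htm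
    have e1 := (idc_gcap_le hA.conn x).and (ev_torsion hu hA.conn hA.comm hx (m + 1))
    have e2 := (hA.conn.ev_mul_right ht (p := fun s => idc (gcap A x) ≤ zeta (x * s) ∧
      ∀ y ∈ dcen A x, y ^ (2 ^ (m + 1)) = 1 → (y ∈ zeta (x * s) ↔ y ∈ gcap A x))).2 e1
    obtain ⟨s, hs, ⟨h1, h2⟩, h1', h2'⟩ := ev_exists ⟨1, A.one_mem⟩ (e1.and e2)
    refine P0C4_core hu (dcen_comm hA.comm hx) hE (df_zeta (x * s)) (df_zeta (x * (s * t)))
      (fun y hy => hy.1) (zeta_le_dcen hs) (zeta_le_dcen (A.mul_mem hs ht)) h1 h1' hmi h2 h2'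
      (y := x * s) (self_mem_zeta _) (le_dcen ht) ?_ htm
    rw [mul_assoc]
    exact self_mem_zeta _
  have h3 : A ≤ idc (gcap A x) := le_idc hE hA.conn hAE
  filter_upwards [idc_gcap_le hA.conn x] with s hs
  exact h3.trans hs

end Pool.Agent.A1C
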