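import Pool.Agent.A1C.P0C5

/-!
# P0C6: the set `Y` of Lemma A2 is generic in `C(A)°` (80 lines)

`cenA A` is the centraliser of `A` (definable by `df_centralizer`), `ySet A` is `Y`. `df_ySet`: `A ≤ zeta y` means `∀ a, a ∈ A → a ∈ zeta y` (`dfP_mem_zeta`).
`A ≤ idc (cenA A)` by `le_idc`. `rk_ySet`: for every `x ∈ idc (cenA A)`, for generic `s ∈ A`: `x s ∈ Y` (`MinTorus.ev_le_zeta`). By `ev_comm`: for generic `s ∈ A`, for
generic `x ∈ idc (cenA A)`: `x s ∈ Y`; take one such `s` (`ev_exists`); `Conn.ev_mul_right` gives: the generic `x` is in `Y`; then `ev_rk`, `idc_rk`.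
-/

namespace Pool.Agent.A1C

universe u

open Filter

variable {M : Type u} [Univ M] {G : Type u} [Group G] [DGrp M G]

/-- the centraliser of a subgroup -/
def cenA (A : Subgroup G) : Subgroup G := Subgroup.centralizer (A : Set G)

theorem mem_cenA {A : Subgroup G} {x : G} : x ∈ cenA A ↔ ∀ a ∈ A, a * x = x * a :=
  Subgroup.mem_centralizer_iff

theorem df_cenA (A : Subgroup G) : Df (cenA A : Set G) :=
  df_centralizer _

/-- the elements `y` of `C(A)°` with `A ≤ Z(C(y))` -/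
def ySet (A : Subgroup G) : Set G := {y | y ∈ idc (cenA A) ∧ A ≤ zeta y}

theorem df_ySet {A : Subgroup G} (hA : Df (A : Set G)) : Df (ySet A) := by
  have h1 : DfP (fun y : G => y ∈ idc (cenA A)) := (idc_conn (df_cenA A)).1
  have h2 : DfP (fun y : G => ∀ a, a ∈ A → a ∈ zeta y) :=
    DfP.all (X := G) (Y := G) (p := fun y a => a ∈ A → a ∈ zeta y)
      (DfP.imp (DfP.mem hA (by fun_prop))
        (DfP.comp (f := fun z : G × G => (z.1, z.2)) dfP_mem_zeta (by fun_prop)))
  exact DfP.and h1 h2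

private theorem P0C6_ev (hu : U2 G) {A : Subgroup G} (hA : MinTorus A) :
    ∀ᶠ x in gen (idc (cenA A) : Set G), A ≤ zeta x := by
  have hC : Conn (idc (cenA A)) := idc_conn (df_cenA A)
  have hI : Irr (idc (cenA A) : Set G) := (conn_iff_irr hC.1).1 hC
  have hAI : Irr (A : Set G) := (conn_iff_irr hA.conn.1).1 hA.conn
  have hle : A ≤ idc (cenA A) := le_idc (df_cenA A) hA.conn fun a ha =>
    mem_cenA.2 fun b hb => hA.comm b hb a ha
  have h : ∀ᶠ x in gen (idc (cenA A) : Set G), ∀ᶠ s in gen (A : Set G), A ≤ zeta (x * s) :=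
    (ev_mem _).mono fun x hx => hA.ev_le_zeta hu fun a ha =>
      (mem_cenA.1 (idc_le _ hx) a ha).symm
  have hp : DfP (fun z : G × G => A ≤ zeta (z.1 * z.2)) :=
    DfP.all (X := G × G) (Y := G) (p := fun z a => a ∈ A → a ∈ zeta (z.1 * z.2))
      (DfP.imp (DfP.mem hA.conn.1 (by fun_prop))
        (DfP.comp (f := fun z : (G × G) × G => (z.1.1 * z.1.2, z.2)) dfP_mem_zeta
          (by fun_prop)))
  have h' := (ev_comm hI hAI (p := fun x s => A ≤ zeta (x * s)) hp).1 h
  obtain ⟨s, hs, hs'⟩ := ev_exists hAI.ne h'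
  exact (hC.ev_mul_right (hle hs) (p := fun x => A ≤ zeta x)).1 hs'

theorem ySet_nonempty (hu : U2 G) {A : Subgroup G} (hA : MinTorus A) : (ySet A).Nonempty := by
  obtain ⟨x, hx, hx'⟩ := ev_exists ⟨1, (idc (cenA A)).one_mem⟩ (P0C6_ev hu hA)
  exact ⟨x, hx, hx'⟩

theorem rk_ySet (hu : U2 G) {A : Subgroup G} (hA : MinTorus A) :
    rk (ySet A) = rk (cenA A : Set G) := by
  have hC : Conn (idc (cenA A)) := idc_conn (df_cenA A)
  have hp : DfP (fun x : G => A ≤ zeta x) :=
    DfP.all (X := G) (Y := G) (p := fun y a => a ∈ A → a ∈ zeta y)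
      (DfP.imp (DfP.mem hA.conn.1 (by fun_prop))
        (DfP.comp (f := fun z : G × G => (z.1, z.2)) dfP_mem_zeta (by fun_prop)))
  rw [← idc_rk (df_cenA A)]
  exact ev_rk hC.1 hp (P0C6_ev hu hA)

end Pool.Agent.A1C
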