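import Pool.Agent.A1C.P0C6

/-!
# P0C7: the fibres in Lemma A2 (100 lines)

Let `m` be from (t1) (`MinTorus.exists_exponent`), `T = {a ∈ A | a^(2^m) = 1}` and `T' = {b ∈ zeta v | b^(2^m) = 1}`, both finite (`torsion_finite`; `zeta v` is abelian,
`zeta_comm`). Let `D = {g | g v g⁻¹ ∈ Y}`. For `g ∈ D` and `a ∈ T` we have `a ∈ zeta (g v g⁻¹)`, so `g⁻¹ a g ∈ zeta v` (`zeta_conj`), in `T'`. For a function `f : T → T'` let
`D_f = {g | ∀ a ∈ T, g⁻¹ a g = f a}`. There are finitely many `f`, `D` is contained in the union of the `D_f`. If `g0 ∈ D_f` then `D_f ⊆ cenA A * g0`: for `g ∈ D_f`, `g g0⁻¹`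
commutes with all `a ∈ T`, so with `A`, by (t1). So `rk D ≤ rk (cenA A)` (`rk_mul_right`, `rk_biUnion_le`, `rk_mono`; the right cosets are definable).
(One can avoid the sets `D_f`: the relation `g ~ g'` iff `g⁻¹ a g = g'⁻¹ a g'` for all `a ∈ T` has finitely many classes on `D`; choose a finite set `R ⊆ D` of
representatives, `D ⊆ ⋃ g0 ∈ R, cenA A * g0`.)
-/

namespace Pool.Agent.A1C

universe u

variable {M : Type u} [Univ M] {G : Type u} [Group G] [DGrp M G]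

theorem rk_fibre_ySet (hu : U2 G) {A : Subgroup G} (hA : MinTorus A) (v : G) :
    rk {g : G | g * v * g⁻¹ ∈ ySet A} ≤ rk (cenA A : Set G) := by
  classical
  obtain ⟨m, hm⟩ := hA.exists_exponent hu
  have hT : {a | a ∈ A ∧ a ^ (2 ^ m) = 1}.Finite := torsion_finite hu hA.comm m
  have hT' : {b | b ∈ zeta v ∧ b ^ (2 ^ m) = 1}.Finite :=
    torsion_finite hu (fun x hx y hy => zeta_comm hx hy) m
  set T : Set G := {a | a ∈ A ∧ a ^ (2 ^ m) = 1} with hTd
  set T' : Set G := {b | b ∈ zeta v ∧ b ^ (2 ^ m) = 1} with hTd'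
  have : Finite T := hT
  set D : Set G := {g : G | g * v * g⁻¹ ∈ ySet A} with hD
  have hDdf : Df D := DfFun.preimage (f := fun g : G => g * v * g⁻¹) (by fun_prop)
    (df_ySet hA.conn.1)
  obtain ⟨φ, hφ⟩ : ∃ φ : G → (T → G), ∀ g a, φ g a = g⁻¹ * (a : G) * g :=
    ⟨fun g a => g⁻¹ * (a : G) * g, fun _ _ => rfl⟩
  have hφD : ∀ g ∈ D, ∀ a : T, φ g a ∈ T' := by
    rintro g hg ⟨a, haA, ha⟩
    have h1 : a ∈ zeta (g * v * g⁻¹) := hg.2 haA
    have h2 := zeta_conj g h1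
    rw [hφ]
    refine ⟨?_, ?_⟩
    · have h3 : g⁻¹ * (g * v * g⁻¹) * g = v := by group
      rwa [h3] at h2
    · have h3 : (g⁻¹ * a * g) ^ (2 ^ m) = g⁻¹ * a ^ (2 ^ m) * g := by
        have := conj_pow (i := 2 ^ m) (a := g⁻¹) (b := a)
        rwa [inv_inv] at this
      change (g⁻¹ * a * g) ^ (2 ^ m) = 1
      rw [h3, ha, mul_one, inv_mul_cancel]
  have hfin : (φ '' D).Finite := by
    refine (Set.Finite.pi' (t := fun _ : T => T') fun _ => hT').subset ?_
    rintro _ ⟨g, hg, rfl⟩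
    exact fun a => hφD g hg a
  have hch : ∀ w : T → G, ∃ g0 : G, w ∈ φ '' D → φ g0 = w := by
    intro w
    by_cases hw : w ∈ φ '' D
    · obtain ⟨g, _, hg⟩ := hw
      exact ⟨g, fun _ => hg⟩
    · exact ⟨1, fun h => absurd h hw⟩
  choose r hr using hch
  have hsub : D ⊆ ⋃ w ∈ φ '' D, (fun x => x * r w) '' (cenA A : Set G) := by
    intro g hg
    have hw : φ g ∈ φ '' D := ⟨g, hg, rfl⟩
    refine Set.mem_biUnion hw ⟨g * (r (φ g))⁻¹, ?_, inv_mul_cancel_right _ _⟩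
    have h0 := hr _ hw
    refine mem_cenA.2 fun a ha => ?_
    refine (hm (g * (r (φ g))⁻¹) (fun b hb hb' => ?_) a ha).symm
    have h1 := congrFun h0 ⟨b, hb, hb'⟩
    rw [hφ, hφ] at h1
    simp only at h1
    set g0 := r (φ g) with hg0
    have h2 : b * g = g * (g0⁻¹ * b * g0) := by
      rw [h1]; group
    calc g * g0⁻¹ * b = g * (g0⁻¹ * b * g0) * g0⁻¹ := by group
      _ = b * g * g0⁻¹ := by rw [h2]
      _ = b * (g * g0⁻¹) := by group
  have hdfc : ∀ w ∈ φ '' D, Df ((fun x => x * r w) '' (cenA A : Set G)) := fun w _ =>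
    DfFun.image (f := fun x : G => x * r w) (by fun_prop) (df_cenA A)
  refine (rk_mono hDdf (Df.biUnion hfin hdfc) hsub).trans ?_
  exact rk_biUnion_le hfin hdfc fun w _ => (rk_mul_right _ (df_cenA A) _).le

end Pool.Agent.A1C
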