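import Pool.Agent.A1C.P0A5
import Pool.Agent.A1C.P0C7

/-!
# P0C8: Lemma A2 (60 lines)

`H.meet` for `V = ySet A` (`df_ySet`, `ySet_nonempty`, `rk_fibre_ySet`, `rk_ySet`): there are `v ∈ Y`, `v ≠ 1`, and `g` with `x = g v g⁻¹ ∈ C`. `v ∈ idc (cenA A) ≤ cenA A`, so
every `a ∈ A` commutes with `v`, `g a g⁻¹` commutes with `x ∈ C`, `x ≠ 1`: `g a g⁻¹ ∈ N` (`mem_N_of_comm`). So `cj A g⁻¹ ≤ N` is connected (`conn_cj`), hence `≤ C`
(`le_C_of_conn`), i.e. `A ≤ cj C g`. Use `H.u2`.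
-/

namespace Pool.Agent.A1C

universe u

namespace Hyp

variable {M : Type u} [Univ M] {G : Type u} [Group G] [DGrp M G] (H : Hyp G)

/-- Lemma A2 -/
theorem exists_conj_le {A : Subgroup G} (hA : MinTorus A) : ∃ g, A ≤ cj H.C g := by
  obtain ⟨v, hv, hv1, g, hg⟩ := H.meet (df_ySet hA.conn.1) (ySet_nonempty H.u2 hA)
    (fun v _ => (rk_fibre_ySet H.u2 hA v).trans (rk_ySet H.u2 hA).ge)
  have hvc : v ∈ cenA A := idc_le _ hv.1
  have hne : g * v * g⁻¹ ≠ 1 := by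
    intro h
    apply hv1
    have h2 : v = g⁻¹ * (g * v * g⁻¹) * g := by group
    rw [h2, h]
    group
  have hN : cj A g⁻¹ ≤ H.N := by
    intro y hy
    rw [mem_cj, inv_inv] at hy
    refine H.mem_N_of_comm hg hne ?_
    have h1 := mem_cenA.1 hvc _ hy
    calc y * (g * v * g⁻¹) = g * ((g⁻¹ * y * g) * v) * g⁻¹ := by group
      _ = g * (v * (g⁻¹ * y * g)) * g⁻¹ := by rw [h1]
      _ = g * v * g⁻¹ * y := by group
  have hC := H.le_C_of_conn (conn_cj hA.conn g⁻¹) hN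
  refine ⟨g, fun a ha => ?_⟩
  rw [mem_cj]
  apply hC
  rw [mem_cj]
  have h2 : g⁻¹ * (g * a * g⁻¹) * g⁻¹⁻¹ = a := by group
  rw [h2]
  exact ha

end Hyp

end Pool.Agent.A1C
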