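import Pool.Agent.A1C.P0A5

/-!
# P0C9: an involution with `C(j)°` of odd type is conjugate into `C` (80 lines)

`V = idc (cen j)`, `X = {y | ∃ v ∈ V, y = j v}`, `rk X = rk V = rk (cen j)` (`rk_smul`, `idc_rk`). For `y = j v ∈ X` and `g` with `g y g⁻¹ = j v' ∈ X`:
`(g j g⁻¹)(g v g⁻¹) = j v'` with `g v g⁻¹ ∈ cj V g⁻¹` (`NoInv`, definable by `df_cj`), `g j g⁻¹` commutes with `g v g⁻¹`, `j` commutes with `v'` (`v, v' ∈ V ≤ cen j`), all of
order dividing `2` (`two_part_unique` with `n = n' = 1`): `g j g⁻¹ = j`, `g ∈ cen j`. So `rk {g | g y g⁻¹ ∈ X} ≤ rk (cen j) = rk X` and `H.meet` gives `v ∈ V` and `g` with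
`g (j v) g⁻¹ ∈ C`. By `two_part_mem_hull` `j ∈ hull (j v)`, and `hull (j v) ≤ cj C g` (`hull_le`, `df_cj`), so `g j g⁻¹ ∈ C`.
-/

namespace Pool.Agent.A1C

universe u

namespace Hyp

variable {M : Type u} [Univ M] {G : Type u} [Group G] [DGrp M G] (H : Hyp G)

theorem exists_conj_mem_of_noInv {j : G} (hj : IsInv j) (h : NoInv (idc (cen j))) :
    ∃ g, g * j * g⁻¹ ∈ H.C := by
  have hjj : j * j = 1 := hj.1
  have hji : j⁻¹ = j := inv_eq_of_mul_eq_one_left hjj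
  have hdc : Df (cen j : Set G) := df_cen j
  have hV : Df (idc (cen j) : Set G) := (idc_conn hdc).1
  have hVc : ∀ v ∈ idc (cen j), v * j = j * v := fun v hv => mem_cen.1 (idc_le (cen j) hv)
  have hXeq : {y : G | j * y ∈ idc (cen j)} = (fun x => j * x) '' (idc (cen j) : Set G) := by
    ext y
    constructor
    · intro hy
      exact ⟨j * y, hy, by show j * (j * y) = y; rw [← mul_assoc, hjj, one_mul]⟩
    · rintro ⟨x, hx, rfl⟩
      show j * (j * x) ∈ idc (cen j)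
      rw [← mul_assoc, hjj, one_mul]
      exact hx
  have hX : Df {y : G | j * y ∈ idc (cen j)} :=
    DfFun.preimage (f := fun y : G => j * y) (by fun_prop) hV
  have hXrk : rk {y : G | j * y ∈ idc (cen j)} = rk (cen j : Set G) := by
    rw [hXeq, rk_smul _ hV, idc_rk hdc]
  obtain ⟨y, hy, hy1, g, hg⟩ := H.meet hX ⟨j, by
      show j * j ∈ idc (cen j)
      rw [hjj]; exact Subgroup.one_mem _⟩ (by
    intro y hy
    rw [hXrk]
    refine rk_mono (DfFun.preimage (f := fun g : G => g * y * g⁻¹) (by fun_prop) hX) hdc ?_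
    intro g hg
    have hg' : j * (g * y * g⁻¹) ∈ idc (cen j) := hg
    have hy' : j * y ∈ idc (cen j) := hy
    have hV1 : Df (cj (idc (cen j)) g⁻¹ : Set G) := df_cj hV g⁻¹
    have hN1 : NoInv (cj (idc (cen j)) g⁻¹) := by
      intro x hx hxx
      have h1 : g⁻¹ * x * g⁻¹⁻¹ ∈ idc (cen j) := hx
      have h2 : g⁻¹ * x * g⁻¹⁻¹ = 1 := by
        apply h _ h1
        calc g⁻¹ * x * g⁻¹⁻¹ * (g⁻¹ * x * g⁻¹⁻¹) = g⁻¹ * (x * x) * g := by group
          _ = 1 := by rw [hxx, mul_one, inv_mul_cancel]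
      calc x = g * (g⁻¹ * x * g⁻¹⁻¹) * g⁻¹ := by group
        _ = 1 := by rw [h2, mul_one, mul_inv_cancel]
    have ha : (g * j * g⁻¹) ^ (2 ^ 1) = 1 := by
      rw [pow_one, pow_two]
      calc g * j * g⁻¹ * (g * j * g⁻¹) = g * (j * j) * g⁻¹ := by group
        _ = 1 := by rw [hjj, mul_one, mul_inv_cancel]
    have ha' : j ^ (2 ^ 1) = 1 := by rw [pow_one, pow_two, hjj]
    have hv1 : g * (j * y) * g⁻¹ ∈ cj (idc (cen j)) g⁻¹ := by
      show g⁻¹ * (g * (j * y) * g⁻¹) * g⁻¹⁻¹ ∈ idc (cen j)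
      have e : g⁻¹ * (g * (j * y) * g⁻¹) * g⁻¹⁻¹ = j * y := by group
      rw [e]; exact hy'
    have hc1 : (g * j * g⁻¹) * (g * (j * y) * g⁻¹) = (g * (j * y) * g⁻¹) * (g * j * g⁻¹) := by
      calc (g * j * g⁻¹) * (g * (j * y) * g⁻¹) = g * (j * (j * y)) * g⁻¹ := by group
        _ = g * ((j * y) * j) * g⁻¹ := by rw [hVc _ hy']
        _ = _ := by group
    have hc2 : j * (j * (g * y * g⁻¹)) = (j * (g * y * g⁻¹)) * j := (hVc _ hg').symm
    have hE : (g * j * g⁻¹) * (g * (j * y) * g⁻¹) = j * (j * (g * y * g⁻¹)) := by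
      calc (g * j * g⁻¹) * (g * (j * y) * g⁻¹) = g * (j * j) * y * g⁻¹ := by group
        _ = (j * j) * (g * y * g⁻¹) := by rw [hjj]; group
        _ = _ := by group
    have h3 := (two_part_unique hV1 hV hN1 h ha ha' hv1 hg' hc1 hc2 hE).1
    show g * j = j * g
    calc g * j = (g * j * g⁻¹) * g := by group
      _ = j * g := by rw [h3])
  refine ⟨g, ?_⟩
  have hy' : j * y ∈ idc (cen j) := hy
  have h4 : j ∈ hull (j * (j * y)) :=
    two_part_mem_hull (n := 1) hV h (by rw [pow_one, pow_two, hjj]) hy' (hVc _ hy').symm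
  rw [← mul_assoc, hjj, one_mul] at h4
  have h5 : hull y ≤ cj H.C g := hull_le (df_cj H.connC.1 g) hg
  exact h5 h4

end Hyp

end Pool.Agent.A1C
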