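import Pool.Agent.A1C.P0C8
import Pool.Agent.A1C.P0C9

/-!
# P0D1: (d2), every involution is conjugate into `C` (70 lines)

`exists_conj_mem`: if `idc (cen j)` is `NoInv`: `exists_conj_mem_of_noInv`. Otherwise there is a minimal torus `A ≤ idc (cen j)` (`exists_minTorus`), and `A ≤ cj C g` for some
`g` (`exists_conj_le`). Let `j' = g j g⁻¹`. If `j' ∈ C` we are done. Every `a' = g a g⁻¹` (`a ∈ A`) lies in `C` and commutes with `j'`; there is `a ∈ A`, `a ≠ 1`, so
`j' ∈ N` (`mem_N_of_comm`). If `j' ∉ C` then `j'` inverts `C` (`inverts_of_sq`, `j' j' = 1 ∈ C`), so `a' = a'⁻¹`: all elements of `A` satisfy `a * a = 1`. So `A` is finite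
(`H.u2`), `rk A = 0`, `A = ⊥` (`Conn.pos`): contradiction to the involution in `A`.
`exists_inv_mem`: apply it to an involution of `G`.
-/

namespace Pool.Agent.A1C

universe u

namespace Hyp

variable {M : Type u} [Univ M] {G : Type u} [Group G] [DGrp M G] (H : Hyp G)

private theorem P0D1_isInv_cj {j : G} (hj : IsInv j) (g : G) : IsInv (g * j * g⁻¹) := by
  refine ⟨?_, ?_⟩
  · calc g * j * g⁻¹ * (g * j * g⁻¹) = g * (j * j) * g⁻¹ := by group
      _ = 1 := by rw [hj.1]; group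
  · intro h
    apply hj.2
    calc j = g⁻¹ * (g * j * g⁻¹) * g := by group
      _ = 1 := by rw [h]; group

/-- (d2) -/
theorem exists_conj_mem (hM : LemM G) {j : G} (hj : IsInv j) : ∃ g, g * j * g⁻¹ ∈ H.C := by
  by_cases hV : NoInv (idc (cen j))
  · exact H.exists_conj_mem_of_noInv hj hV
  · obtain ⟨A, hAV, hA⟩ := exists_minTorus hM (idc_conn (df_cen j)) hV
    obtain ⟨g, hg⟩ := H.exists_conj_le hA
    refine ⟨g, ?_⟩
    by_contra hjC
    have hj' : IsInv (g * j * g⁻¹) := P0D1_isInv_cj hj g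
    have hmem : ∀ a ∈ A, g * a * g⁻¹ ∈ H.C := fun a ha => mem_cj.1 (hg ha)
    have hcomm : ∀ a ∈ A, (g * j * g⁻¹) * (g * a * g⁻¹) = (g * a * g⁻¹) * (g * j * g⁻¹) := by
      intro a ha
      have h1 : a * j = j * a := mem_cen.1 (idc_le _ (hAV ha))
      calc (g * j * g⁻¹) * (g * a * g⁻¹) = g * (j * a) * g⁻¹ := by group
        _ = g * (a * j) * g⁻¹ := by rw [h1]
        _ = (g * a * g⁻¹) * (g * j * g⁻¹) := by group
    obtain ⟨a₀, ha₀, hinv₀⟩ := hA.exInv
    have hne : ∀ {a : G}, a ≠ 1 → g * a * g⁻¹ ≠ 1 := by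
      intro a ha h
      apply ha
      calc a = g⁻¹ * (g * a * g⁻¹) * g := by group
        _ = 1 := by rw [h]; group
    have hN : g * j * g⁻¹ ∈ H.N :=
      H.mem_N_of_comm (hmem a₀ ha₀) (hne hinv₀.2) (hcomm a₀ ha₀)
    have hsq : ∀ a ∈ A, a * a = 1 := by
      intro a ha
      have h1 := H.inverts_of_sq hN hjC (by rw [hj'.1]; exact H.C.one_mem) (hmem a ha)
      have h2 : (g * j * g⁻¹)⁻¹ * (g * a * g⁻¹) * (g * j * g⁻¹) = g * a * g⁻¹ := by
        rw [mul_assoc, ← hcomm a ha, inv_mul_cancel_left]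
      rw [h2] at h1
      have h3 : g * (a * a) * g⁻¹ = 1 := by
        calc g * (a * a) * g⁻¹ = (g * a * g⁻¹) * (g * a * g⁻¹) := by group
          _ = (g * a * g⁻¹) * (g * a * g⁻¹)⁻¹ := by rw [← h1]
          _ = 1 := mul_inv_cancel _
      calc a * a = g⁻¹ * (g * (a * a) * g⁻¹) * g := by group
        _ = 1 := by rw [h3]; group
    have hfin : (A : Set G).Finite := H.u2 A hsq
    have hrk : rk (A : Set G) = 0 := (rk_eq_zero_iff hA.conn.1).2 hfin
    have hbot : A ≠ ⊥ := by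
      rintro rfl
      exact hinv₀.2 (Subgroup.mem_bot.1 ha₀)
    have := hA.conn.pos hbot
    omega

theorem exists_inv_mem (hM : LemM G) : ∃ i ∈ H.C, IsInv i := by
  obtain ⟨j, hj⟩ := H.exInv
  obtain ⟨g, hg⟩ := H.exists_conj_mem hM hj
  exact ⟨_, hg, P0D1_isInv_cj hj g⟩

end Hyp

end Pool.Agent.A1C
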