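import Pool.Agent.A1C.P0D1

/-!
# P0D2: (d1) and (d3) (100 lines)

`mem_of_centralizes` (d1): suppose `a ∈ N` centralises `C`, `a ∉ C`. There is `n > 0` with `a^n ∈ C` (`exists_pow_mem`), so `x^n = 1` for all `x ∈ C`
(`pow_eq_one_of_comm`). Let `i ∈ C` be an involution (`exists_inv_mem`) and `x ∈ C` with `x^(2^n) = i` (`root`). The order of `x` is `2^(n+1)`
(`orderOf_eq_prime_pow`), it divides `n`, but `n < 2^(n+1)`: contradiction.
`mem_N_cj`: TI for a conjugate: if `x ∈ cj C g`, `x ≠ 1`, `u x = x u`, then `g u g⁻¹ ∈ N` (`mem_N_of_comm`).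
`inv_unique` (d3): suppose `i ≠ j` are involutions of `C`. Let `w` be as in `exists_w`; by `exists_conj_mem` `w' = g w g⁻¹ ∈ C` for some `g`. `w` inverts `i`, i.e. commutes with `i`
(`w i w = i⁻¹ = i`), and with `j`. Hence `i' = g i g⁻¹` and `j' = g j g⁻¹` commute with `w' ∈ C`, `w' ≠ 1`: `i', j' ∈ N`. If `i' ∈ C`: `i ∈ C`, `i ≠ 1` and `g i g⁻¹ ∈ C`, so `g⁻¹ ∈ N`
(`mem_N_of_ti`), `g ∈ N`, so `w = g⁻¹ w' g ∈ C`: contradiction. So `i' ∉ C` and in the same way `j' ∉ C`, both invert `C` (`inverts_of_sq`), so `i' j' ∈ N` centralises `C`, so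
`i' j' ∈ C` by (d1). But `i j ∈ C`, `i j ≠ 1` and `g (i j) g⁻¹ ∈ C`: again `g ∈ N` and `w ∈ C`, contradiction.
-/

namespace Pool.Agent.A1C

universe u

namespace Hyp

variable {M : Type u} [Univ M] {G : Type u} [Group G] [DGrp M G] (H : Hyp G)

/-- (d1) -/
theorem mem_of_centralizes (hM : LemM G) {a : G} (ha : a ∈ H.N)
    (h : ∀ x ∈ H.C, a * x = x * a) : a ∈ H.C := by
  by_contra haC
  obtain ⟨n, hn, hna⟩ := H.exists_pow_mem ha
  obtain ⟨i, hiC, hi⟩ := H.exists_inv_mem hM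
  obtain ⟨x, hx, hxi⟩ := H.root hiC n
  have h1 : x ^ n = 1 := H.pow_eq_one_of_comm ha haC hna hx (h x hx)
  have h2 : orderOf x = 2 ^ (n + 1) := by
    have : Fact (Nat.Prime 2) := ⟨Nat.prime_two⟩
    refine orderOf_eq_prime_pow ?_ ?_
    · rw [hxi]
      exact hi.2
    · rw [pow_succ, pow_mul, hxi, pow_two, hi.1]
  have h3 := Nat.le_of_dvd hn (orderOf_dvd_of_pow_eq_one h1)
  rw [h2] at h3
  have h4 : n < 2 ^ n := Nat.lt_two_pow_self
  have h5 : 2 ^ (n + 1) = 2 * 2 ^ n := pow_succ' 2 n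
  omega

/-- (d3) -/
theorem inv_unique (hM : LemM G) {i j : G} (hi : i ∈ H.C) (hi' : IsInv i) (hj : j ∈ H.C)
    (hj' : IsInv j) : i = j := by
  by_contra hne
  obtain ⟨w, hwN, hwC, hw, hwinv⟩ := H.exists_w
  obtain ⟨g, hg⟩ := H.exists_conj_mem hM hw
  have hne1 : ∀ {a : G}, a ≠ 1 → g * a * g⁻¹ ≠ 1 := by
    intro a ha h
    apply ha
    calc a = g⁻¹ * (g * a * g⁻¹) * g := by group
      _ = 1 := by rw [h]; group
  have hcomm : ∀ {k : G}, k ∈ H.C → IsInv k →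
      (g * k * g⁻¹) * (g * w * g⁻¹) = (g * w * g⁻¹) * (g * k * g⁻¹) := by
    intro k hk hk'
    have h1 : k⁻¹ = k := inv_eq_of_mul_eq_one_left hk'.1
    have h2 := hwinv k hk
    rw [h1] at h2
    have h3 : k * w = w * k := by
      calc k * w = (w * k * w) * w := by rw [h2]
        _ = w * k * (w * w) := by group
        _ = w * k := by rw [hw.1, mul_one]
    calc (g * k * g⁻¹) * (g * w * g⁻¹) = g * (k * w) * g⁻¹ := by group
      _ = g * (w * k) * g⁻¹ := by rw [h3]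
      _ = (g * w * g⁻¹) * (g * k * g⁻¹) := by group
  have hN : ∀ {k : G}, k ∈ H.C → IsInv k → g * k * g⁻¹ ∈ H.N := fun hk hk' =>
    H.mem_N_of_comm hg (hne1 hw.2) (hcomm hk hk')
  have hnot : ∀ {k : G}, k ∈ H.C → k ≠ 1 → g * k * g⁻¹ ∉ H.C := by
    intro k hk hk1 hgk
    have h1 : g⁻¹ ∈ H.N := H.mem_N_of_ti hk hk1 (by rw [inv_inv]; exact hgk)
    have h2 : g ∈ H.N := by
      have := H.N.inv_mem h1
      rwa [inv_inv] at this
    apply hwC
    have h3 := H.conj_mem' h2 hg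
    have h4 : g⁻¹ * (g * w * g⁻¹) * g = w := by group
    rw [h4] at h3
    exact h3
  have hinvt : ∀ {k : G}, k ∈ H.C → IsInv k → ∀ x ∈ H.C,
      (g * k * g⁻¹)⁻¹ * x * (g * k * g⁻¹) = x⁻¹ := by
    intro k hk hk' x hx
    refine H.inverts_of_sq (hN hk hk') (hnot hk hk'.2) ?_ hx
    have : g * k * g⁻¹ * (g * k * g⁻¹) = 1 := by
      calc g * k * g⁻¹ * (g * k * g⁻¹) = g * (k * k) * g⁻¹ := by group
        _ = 1 := by rw [hk'.1]; group
    rw [this]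
    exact H.C.one_mem
  have hij : (g * i * g⁻¹) * (g * j * g⁻¹) ∈ H.C := by
    refine H.mem_of_centralizes hM (H.N.mul_mem (hN hi hi') (hN hj hj')) fun x hx => ?_
    have h1 := hinvt hi hi' x hx
    have h2 := hinvt hj hj' x⁻¹ (H.C.inv_mem hx)
    rw [inv_inv] at h2
    have h3 : ((g * i * g⁻¹) * (g * j * g⁻¹))⁻¹ * x * ((g * i * g⁻¹) * (g * j * g⁻¹)) = x := by
      calc ((g * i * g⁻¹) * (g * j * g⁻¹))⁻¹ * x * ((g * i * g⁻¹) * (g * j * g⁻¹))
          = (g * j * g⁻¹)⁻¹ * ((g * i * g⁻¹)⁻¹ * x * (g * i * g⁻¹)) * (g * j * g⁻¹) := by group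
        _ = x := by rw [h1, h2]
    calc (g * i * g⁻¹) * (g * j * g⁻¹) * x
        = (g * i * g⁻¹) * (g * j * g⁻¹) * (((g * i * g⁻¹) * (g * j * g⁻¹))⁻¹ * x *
          ((g * i * g⁻¹) * (g * j * g⁻¹))) := by rw [h3]
      _ = x * ((g * i * g⁻¹) * (g * j * g⁻¹)) := by group
  have hijC : i * j ∈ H.C := H.C.mul_mem hi hj
  have hij1 : i * j ≠ 1 := by
    intro h
    apply hne
    calc i = i * (j * j) := by rw [hj'.1, mul_one]
      _ = (i * j) * j := by group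
      _ = j := by rw [h, one_mul]
  apply hnot hijC hij1
  have h4 : g * (i * j) * g⁻¹ = (g * i * g⁻¹) * (g * j * g⁻¹) := by group
  rw [h4]
  exact hij

end Hyp

end Pool.Agent.A1C
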