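import Pool.Agent.A1C.P0D2

/-!
# P0D3: (d4), `N = C ∪ w C` (100 lines)

`sq_mem`: let `i ∈ C` be the involution (`exists_inv_mem`, `inv_unique`); every `a ∈ N` commutes with `i` (`a⁻¹ i a ∈ C` is an involution, so it is `i`).
Let `a ∈ N`, `a ∉ C` and `n > 0` minimal with `a^n ∈ C` (`Nat.find`, `exists_pow_mem`). By `pow_eq_one_of_comm` (`x = i`): `i^n = 1`, so `n = 2 k` is even (`k > 0`).
`b = a^k ∉ C` (minimality), `b * b ∈ C`, so `b` inverts `C` (`inverts_of_sq`).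
If `k = 2 l` is even: `d = a^l`, `b = d * d`. Take `c ∈ C` with `c * c = i` (`sqrt`). `c' = d⁻¹ c d ∈ C`, `c' * c' = i`, so `(c' c⁻¹)^2 = 1` (`comm`), `c' = c` or `c' = i c = c⁻¹`
(`c⁻¹ = c i` as `c^4 = 1`). In both cases `d⁻¹ c' d = c`, so `b⁻¹ c b = c`; but `b⁻¹ c b = c⁻¹`, so `c * c = 1`: contradiction.
So `k` is odd. If `a * a ∉ C`, `pow_eq_one_of_comm` for `a * a` and the exponent `k` (`(a * a)^k = a^n ∈ C`, `x = i`): `i^k = 1`, `i = 1`: contradiction.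
`mem_or_mem`: let `a ∈ N`, `a ∉ C`: `a` inverts `C` (`sq_mem`, `inverts_of_sq`), `w` inverts `C` too, so `w a` centralises `C` and `w a ∈ C` by (d1).
-/

namespace Pool.Agent.A1C

universe u

namespace Hyp

variable {M : Type u} [Univ M] {G : Type u} [Group G] [DGrp M G] (H : Hyp G)

private theorem P0D3_comm_i (hM : LemM G) {i : G} (hi : i ∈ H.C) (hi' : IsInv i) {a : G}
    (ha : a ∈ H.N) : a * i = i * a := by
  have h1 : a * i * a⁻¹ ∈ H.C := H.conj_mem ha hi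
  have h2 : IsInv (a * i * a⁻¹) := by
    refine ⟨?_, ?_⟩
    · calc a * i * a⁻¹ * (a * i * a⁻¹) = a * (i * i) * a⁻¹ := by group
        _ = 1 := by rw [hi'.1]; group
    · intro h
      apply hi'.2
      calc i = a⁻¹ * (a * i * a⁻¹) * a := by group
        _ = 1 := by rw [h]; group
  have h3 := H.inv_unique hM h1 h2 hi hi'
  calc a * i = a * i * a⁻¹ * a := by group
    _ = i * a := by rw [h3]

private theorem P0D3_pow_odd {i : G} (hi : i * i = 1) (k : ℕ) : i ^ (2 * k + 1) = i := by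
  rw [pow_succ, pow_mul, pow_two, hi, one_pow, one_mul]

theorem sq_mem (hM : LemM G) {a : G} (ha : a ∈ H.N) : a * a ∈ H.C := by
  classical
  obtain ⟨i, hiC, hi⟩ := H.exists_inv_mem hM
  by_cases haC : a ∈ H.C
  · exact H.C.mul_mem haC haC
  have hex := H.exists_pow_mem ha
  obtain ⟨n, hn, hmin⟩ : ∃ n, (0 < n ∧ a ^ n ∈ H.C) ∧ ∀ m, m < n → ¬ (0 < m ∧ a ^ m ∈ H.C) :=
    ⟨Nat.find hex, Nat.find_spec hex, fun m hm => Nat.find_min hex hm⟩
  have hin : i ^ n = 1 := H.pow_eq_one_of_comm ha haC hn.2 hiC (P0D3_comm_i H hM hiC hi ha)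
  rcases Nat.even_or_odd' n with ⟨k, hk | hk⟩
  swap
  · rw [hk, P0D3_pow_odd hi.1] at hin
    exact absurd hin hi.2
  have hk0 : 0 < k := by omega
  have hbC : a ^ k ∉ H.C := fun h => hmin k (by omega) ⟨hk0, h⟩
  have hbN : a ^ k ∈ H.N := H.N.pow_mem ha k
  have hb2 : a ^ k * a ^ k ∈ H.C := by
    rw [← pow_add, ← two_mul, ← hk]
    exact hn.2
  rcases Nat.even_or_odd' k with ⟨l, hl | hl⟩
  · exfalso
    have hdN : a ^ l ∈ H.N := H.N.pow_mem ha l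
    have hdd : a ^ k = a ^ l * a ^ l := by
      rw [hl, two_mul, pow_add]
    obtain ⟨c, hc, hcc⟩ := H.sqrt hiC
    have hc' : (a ^ l)⁻¹ * c * a ^ l ∈ H.C := H.conj_mem' hdN hc
    have hli : a ^ l * i = i * a ^ l := P0D3_comm_i H hM hiC hi hdN
    have hsq : (a ^ l)⁻¹ * c * a ^ l * ((a ^ l)⁻¹ * c * a ^ l) = i := by
      calc (a ^ l)⁻¹ * c * a ^ l * ((a ^ l)⁻¹ * c * a ^ l) = (a ^ l)⁻¹ * (c * c) * a ^ l := by
            group
        _ = (a ^ l)⁻¹ * (i * a ^ l) := by rw [hcc, mul_assoc]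
        _ = (a ^ l)⁻¹ * (a ^ l * i) := by rw [hli]
        _ = i := by group
    have hcl : (a ^ k)⁻¹ * c * a ^ k = c := by
      have hq : (a ^ l)⁻¹ * c * a ^ l * c⁻¹ = 1 ∨ (a ^ l)⁻¹ * c * a ^ l * c⁻¹ = i := by
        have hm : (a ^ l)⁻¹ * c * a ^ l * c⁻¹ ∈ H.C := H.C.mul_mem hc' (H.C.inv_mem hc)
        have hm2 : (a ^ l)⁻¹ * c * a ^ l * c⁻¹ * ((a ^ l)⁻¹ * c * a ^ l * c⁻¹) = 1 := by
          have hcm : c⁻¹ * ((a ^ l)⁻¹ * c * a ^ l) = (a ^ l)⁻¹ * c * a ^ l * c⁻¹ :=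
            H.comm (H.C.inv_mem hc) hc'
          calc (a ^ l)⁻¹ * c * a ^ l * c⁻¹ * ((a ^ l)⁻¹ * c * a ^ l * c⁻¹)
              = (a ^ l)⁻¹ * c * a ^ l * (c⁻¹ * ((a ^ l)⁻¹ * c * a ^ l)) * c⁻¹ := by group
            _ = (a ^ l)⁻¹ * c * a ^ l * ((a ^ l)⁻¹ * c * a ^ l * c⁻¹) * c⁻¹ := by rw [hcm]
            _ = (a ^ l)⁻¹ * c * a ^ l * ((a ^ l)⁻¹ * c * a ^ l) * (c * c)⁻¹ := by group
            _ = 1 := by rw [hsq, hcc]; group
        by_cases h1 : (a ^ l)⁻¹ * c * a ^ l * c⁻¹ = 1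
        · exact Or.inl h1
        · exact Or.inr (H.inv_unique hM hm ⟨hm2, h1⟩ hiC hi)
      have hstep : (a ^ l)⁻¹ * c * a ^ l = c ∨ (a ^ l)⁻¹ * c * a ^ l = i * c := by
        rcases hq with h1 | h1
        · left
          exact mul_inv_eq_one.1 h1
        · right
          exact mul_inv_eq_iff_eq_mul.1 h1
      rw [hdd]
      rcases hstep with h1 | h1
      · calc (a ^ l * a ^ l)⁻¹ * c * (a ^ l * a ^ l)
            = (a ^ l)⁻¹ * ((a ^ l)⁻¹ * c * a ^ l) * a ^ l := by group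
          _ = c := by rw [h1, h1]
      · calc (a ^ l * a ^ l)⁻¹ * c * (a ^ l * a ^ l)
            = (a ^ l)⁻¹ * ((a ^ l)⁻¹ * c * a ^ l) * a ^ l := by group
          _ = (a ^ l)⁻¹ * (i * c) * a ^ l := by rw [h1]
          _ = (a ^ l)⁻¹ * (i * a ^ l) * ((a ^ l)⁻¹ * c * a ^ l) := by group
          _ = (a ^ l)⁻¹ * (a ^ l * i) * (i * c) := by rw [hli, h1]
          _ = i * i * c := by group
          _ = c := by rw [hi.1, one_mul]
    have hinv := H.inverts_of_sq hbN hbC hb2 hc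
    rw [hcl] at hinv
    apply hi.2
    rw [← hcc]
    nth_rewrite 1 [hinv]
    exact inv_mul_cancel c
  · by_contra hcon
    have haa : a * a ∈ H.N := H.N.mul_mem ha ha
    have hpow : (a * a) ^ k ∈ H.C := by
      rw [← pow_two, ← pow_mul, ← hk]
      exact hn.2
    have h1 := H.pow_eq_one_of_comm haa hcon hpow hiC (P0D3_comm_i H hM hiC hi haa)
    rw [hl, P0D3_pow_odd hi.1] at h1
    exact hi.2 h1

/-- (d4) -/
theorem mem_or_mem (hM : LemM G) {w : G} (hw : w ∈ H.N) (hw' : w ∉ H.C) {a : G} (ha : a ∈ H.N) :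
    a ∈ H.C ∨ w * a ∈ H.C := by
  by_cases haC : a ∈ H.C
  · exact Or.inl haC
  right
  refine H.mem_of_centralizes hM (H.N.mul_mem hw ha) fun x hx => ?_
  have h1 := H.inverts_of_sq ha haC (H.sq_mem hM ha) (H.C.inv_mem hx)
  have h2 := H.inverts_of_sq hw hw' (H.sq_mem hM hw) hx
  have h3 : x⁻¹ * a = a * x := by
    calc x⁻¹ * a = a * (a⁻¹ * x⁻¹ * a) := by group
      _ = a * x := by rw [h1, inv_inv]
  have h4 : x * w = w * x⁻¹ := by
    calc x * w = w * (w⁻¹ * x * w) := by group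
      _ = w * x⁻¹ := by rw [h2]
  calc w * a * x = w * (a * x) := by group
    _ = w * (x⁻¹ * a) := by rw [h3]
    _ = w * x⁻¹ * a := by group
    _ = x * w * a := by rw [h4]
    _ = x * (w * a) := by group

end Hyp

end Pool.Agent.A1C
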