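import Pool.Agent.A1C.Setup

/-!
# PA1: the groups `C_l` and the polars

(d5) and the notation after it. `x ∈ C`, `x² ≠ 1`: the centraliser is `C` (by `ti` an element commuting with `x ∈ C \ 1` is in `C ∪ w C`, and the
elements of `w C` invert `C`). `cl_eq`: if `g⁻¹ i g = h⁻¹ i h` then `g h⁻¹` commutes with `i`, so lies in `C ∪ w C`, and
normalises `C`. Everything else is conjugated from `l = i`.
-/

namespace Pool.Agent.A1C

universe u

namespace Setup

variable {M : Type u} [Univ M] {G : Type u} [Group G] [DGrp M G] (S : Setup G)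

private theorem PA1_norm {u : G} (hu : u ∈ S.C ∨ S.w * u ∈ S.C) (z : G) :
    u * z * u⁻¹ ∈ S.C ↔ z ∈ S.C := by
  have hww : S.w * S.w = 1 := S.w_inv.1
  rcases hu with hu | hu
  · constructor
    · intro h
      have h1 := S.C.mul_mem (S.C.mul_mem (S.C.inv_mem hu) h) hu
      have e : u⁻¹ * (u * z * u⁻¹) * u = z := by group
      rwa [e] at h1
    · intro h
      exact S.C.mul_mem (S.C.mul_mem hu h) (S.C.inv_mem hu)
  · have hwi : S.w⁻¹ = S.w := inv_eq_of_mul_eq_one_right hww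
    have e1 : u * z * u⁻¹ = S.w * ((S.w * u) * z * (S.w * u)⁻¹) * S.w := by
      rw [mul_inv_rev, hwi]
      calc u * z * u⁻¹ = (S.w * S.w) * u * z * u⁻¹ * (S.w * S.w) := by rw [hww]; group
        _ = _ := by group
    constructor
    · intro h
      have h2 : (S.w * u) * z * (S.w * u)⁻¹ = S.w * (u * z * u⁻¹) * S.w := by
        rw [mul_inv_rev, hwi]
        group
      rw [S.w_inverts _ h] at h2
      have h3 := S.C.mul_mem (S.C.mul_mem (S.C.inv_mem hu) (S.C.inv_mem h)) hu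
      rw [← h2] at h3
      have e : (S.w * u)⁻¹ * (S.w * u * z * (S.w * u)⁻¹) * (S.w * u) = z := by group
      rwa [e] at h3
    · intro h
      have h4 : (S.w * u) * z * (S.w * u)⁻¹ ∈ S.C :=
        S.C.mul_mem (S.C.mul_mem hu h) (S.C.inv_mem hu)
      rw [e1, S.w_inverts _ h4]
      exact S.C.inv_mem h4

theorem cl_eq {l g : G} (h : l = g⁻¹ * S.i * g) : S.cl l = cj S.C g := by
  have hex : ∃ g, l = g⁻¹ * S.i * g := ⟨g, h⟩
  unfold cl
  rw [dif_pos hex]
  have hs := hex.choose_spec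
  set k := hex.choose with hk
  have hi : g⁻¹ * S.i * g = k⁻¹ * S.i * k := h.symm.trans hs
  have hu : g * k⁻¹ ∈ S.C ∨ S.w * (g * k⁻¹) ∈ S.C := by
    refine S.ti (g * k⁻¹) S.i S.i_mem S.i_inv.2 ?_
    have e : (g * k⁻¹)⁻¹ * S.i * (g * k⁻¹) = S.i := by
      calc (g * k⁻¹)⁻¹ * S.i * (g * k⁻¹) = k * (g⁻¹ * S.i * g) * k⁻¹ := by group
        _ = k * (k⁻¹ * S.i * k) * k⁻¹ := by rw [hi]
        _ = S.i := by group
    rw [e]
    exact S.i_mem
  ext y
  rw [mem_cj, mem_cj]
  have := S.PA1_norm hu (k * y * k⁻¹)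
  have e : g * k⁻¹ * (k * y * k⁻¹) * (g * k⁻¹)⁻¹ = g * y * g⁻¹ := by group
  rw [e] at this
  exact this.symm

theorem cl_i : S.cl S.i = S.C := by
  rw [S.cl_eq (g := 1) (by group)]
  ext y
  rw [mem_cj]
  simp

private theorem PA1_core (z : G) :
    z ∈ S.C ↔ z * S.i = S.i * z ∧ (z * z = 1 → z = 1 ∨ z = S.i) := by
  constructor
  · intro h
    exact ⟨S.comm _ h _ S.i_mem, S.i_uniq z h⟩
  · rintro ⟨h1, h2⟩
    have e : z⁻¹ * S.i * z = S.i := by
      rw [mul_assoc, ← h1]
      group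
    rcases S.ti z S.i S.i_mem S.i_inv.2 (by rw [e]; exact S.i_mem) with h | h
    · exact h
    · have hww : S.w * S.w = 1 := S.w_inv.1
      have hz : z = S.w * (S.w * z) := by
        rw [← mul_assoc, hww, one_mul]
      have hzz : z * z = 1 := by
        calc z * z = (S.w * (S.w * z)) * (S.w * (S.w * z)) := by rw [← hz]
          _ = (S.w * (S.w * z) * S.w) * (S.w * z) := by group
          _ = (S.w * z)⁻¹ * (S.w * z) := by rw [S.w_inverts _ h]
          _ = 1 := by group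
      rcases h2 hzz with h3 | h3
      · rw [h3]
        exact S.C.one_mem
      · rw [h3]
        exact S.i_mem

theorem mem_cl {l : G} (hl : IsInv l) {x : G} :
    x ∈ S.cl l ↔ x * l = l * x ∧ (x * x = 1 → x = 1 ∨ x = l) := by
  obtain ⟨g, hg⟩ := S.inv_conj l hl
  rw [S.cl_eq hg, mem_cj, S.PA1_core]
  have hi : S.i = g * l * g⁻¹ := by
    rw [hg]
    group
  rw [hi]
  refine and_congr ?_ (imp_congr ?_ (or_congr ?_ ?_))
  · constructor
    · intro h
      have : g * (x * l) * g⁻¹ = g * (l * x) * g⁻¹ := by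
        calc g * (x * l) * g⁻¹ = g * x * g⁻¹ * (g * l * g⁻¹) := by group
          _ = g * l * g⁻¹ * (g * x * g⁻¹) := h
          _ = _ := by group
      exact mul_left_cancel (mul_right_cancel this)
    · intro h
      calc g * x * g⁻¹ * (g * l * g⁻¹) = g * (x * l) * g⁻¹ := by group
        _ = g * (l * x) * g⁻¹ := by rw [h]
        _ = _ := by group
  · constructor
    · intro h
      have h' : g * (x * x) * g⁻¹ = 1 := by
        rw [← h]
        group
      have := congrArg (fun t => g⁻¹ * t * g) h'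
      simpa [mul_assoc] using this
    · intro h
      calc g * x * g⁻¹ * (g * x * g⁻¹) = g * (x * x) * g⁻¹ := by group
        _ = 1 := by rw [h]; group
  · constructor
    · intro h
      have := congrArg (fun t => g⁻¹ * t * g) h
      simpa [mul_assoc] using this
    · rintro rfl
      group
  · constructor
    · intro h
      exact mul_left_cancel (mul_right_cancel h)
    · rintro rfl
      rfl

theorem df_cl (l : G) : Df (S.cl l : Set G) := by
  unfold cl
  split_ifs with h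
  · exact df_cj S.dfC _
  · exact df_bot

theorem irr_cl {l : G} (hl : IsInv l) : Irr (S.cl l : Set G) := by
  obtain ⟨g, hg⟩ := S.inv_conj l hl
  rw [S.cl_eq hg]
  exact (conn_iff_irr (df_cj S.dfC g)).1 (conn_cj ((conn_iff_irr S.dfC).2 S.irrC) g)

theorem rk_cl {l : G} (hl : IsInv l) : rk (S.cl l : Set G) = rk (S.C : Set G) := by
  obtain ⟨g, hg⟩ := S.inv_conj l hl
  rw [S.cl_eq hg]
  exact rk_cj S.C S.dfC g

theorem cl_comm {l x y : G} (hx : x ∈ S.cl l) (hy : y ∈ S.cl l) : x * y = y * x := by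
  unfold cl at hx hy
  split_ifs at hx hy with h
  · rw [mem_cj] at hx hy
    have h1 := S.comm _ hx _ hy
    set g := h.choose
    have : g * (x * y) * g⁻¹ = g * (y * x) * g⁻¹ := by
      calc g * (x * y) * g⁻¹ = g * x * g⁻¹ * (g * y * g⁻¹) := by group
        _ = g * y * g⁻¹ * (g * x * g⁻¹) := h1
        _ = _ := by group
    exact mul_left_cancel (mul_right_cancel this)
  · rw [Subgroup.mem_bot] at hx hy
    rw [hx, hy]

theorem cl_sqrt {l x : G} (hl : IsInv l) (hx : x ∈ S.cl l) : ∃ y ∈ S.cl l, y * y = x := by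
  obtain ⟨g, hg⟩ := S.inv_conj l hl
  rw [S.cl_eq hg] at hx ⊢
  rw [mem_cj] at hx
  obtain ⟨z, hz, hzx⟩ := S.sqrt _ hx
  refine ⟨g⁻¹ * z * g, ?_, ?_⟩
  · rw [mem_cj]
    have e : g * (g⁻¹ * z * g) * g⁻¹ = z := by group
    rw [e]
    exact hz
  · calc g⁻¹ * z * g * (g⁻¹ * z * g) = g⁻¹ * (z * z) * g := by group
      _ = g⁻¹ * (g * x * g⁻¹) * g := by rw [hzx]
      _ = x := by group

theorem self_mem_cl {l : G} (hl : IsInv l) : l ∈ S.cl l :=
  (S.mem_cl hl).2 ⟨rfl, fun _ => Or.inr rfl⟩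

theorem cl_inv_eq {l x : G} (hl : IsInv l) (hx : x ∈ S.cl l) (h : x * x = 1) :
    x = 1 ∨ x = l :=
  ((S.mem_cl hl).1 hx).2 h

theorem cl_cj {l : G} (hl : IsInv l) (g : G) : S.cl (g⁻¹ * l * g) = cj (S.cl l) g := by
  obtain ⟨k, hk⟩ := S.inv_conj l hl
  have e : g⁻¹ * l * g = (k * g)⁻¹ * S.i * (k * g) := by
    rw [hk]
    group
  rw [S.cl_eq e, S.cl_eq hk]
  ext y
  rw [mem_cj, mem_cj, mem_cj]
  have e2 : k * g * y * (k * g)⁻¹ = k * (g * y * g⁻¹) * k⁻¹ := by group
  rw [e2]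

end Setup

end Pool.Agent.A1C
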