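import Pool.Agent.A1C.PA1

/-!
# PA2: the groups `C_l` and the polars

(d5) and the notation after it. `x ∈ C`, `x² ≠ 1`: the centraliser is `C` (by `ti` an element commuting with `x ∈ C \ 1` is in `C ∪ w C`, and the
elements of `w C` invert `C`). `cl_eq`: if `g⁻¹ i g = h⁻¹ i h` then `g h⁻¹` commutes with `i`, so lies in `C ∪ w C`, and
normalises `C`. Everything else is conjugated from `l = i`.
-/

namespace Pool.Agent.A1C

universe u

namespace Setup

variable {M : Type u} [Univ M] {G : Type u} [Group G] [DGrp M G] (S : Setup G)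

private theorem PA2_inv_eq {j : G} (h : j * j = 1) : j⁻¹ = j :=
  inv_eq_of_mul_eq_one_left h

/-- `C_G(l) = C_l ∪ pol l` -/
theorem comm_iff {l : G} (hl : IsInv l) {x : G} : x * l = l * x ↔ x ∈ S.cl l ∨ x ∈ pol l := by
  constructor
  · intro h
    by_cases hx : x ∈ S.cl l
    · exact Or.inl hx
    · rw [S.mem_cl hl] at hx
      push Not at hx
      obtain ⟨h1, h2, h3⟩ := hx h
      exact Or.inr ⟨⟨h1, h2⟩, h3, h⟩
  · rintro (h | h)
    · exact ((S.mem_cl hl).1 h).1
    · exact h.2.2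

private theorem PA2_notMem {l j : G} (hl : IsInv l) (hj : j ∈ pol l) : j ∉ S.cl l := by
  intro h
  rcases S.cl_inv_eq hl h hj.1.1 with h1 | h1
  · exact hj.1.2 h1
  · exact hj.2.1 h1

private theorem PA2_mul_cl {l j x : G} (hl : IsInv l) (hj : j ∈ pol l) (hx : x ∈ S.cl l) :
    j * x ∈ pol l := by
  have h1 : j * x * l = l * (j * x) := by
    have h2 := ((S.mem_cl hl).1 hx).1
    rw [mul_assoc, h2, ← mul_assoc, hj.2.2, mul_assoc]
  rcases (S.comm_iff hl).1 h1 with h | h
  · exfalso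
    apply S.PA2_notMem hl hj
    have := (S.cl l).mul_mem h ((S.cl l).inv_mem hx)
    rwa [mul_inv_cancel_right] at this
  · exact h

theorem pol_inverts {l j x : G} (hl : IsInv l) (hj : j ∈ pol l) (hx : x ∈ S.cl l) :
    j * x * j = x⁻¹ := by
  have h := (S.PA2_mul_cl hl hj hx).1.1
  rw [eq_inv_iff_mul_eq_one, ← h]
  group

theorem pol_notMem {l j : G} (hl : IsInv l) (hj : j ∈ pol l) : j ∉ S.cl l :=
  S.PA2_notMem hl hj

private theorem PA2_exists {l : G} (hl : IsInv l) : ∃ x ∈ S.cl l, x * x ≠ 1 := by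
  obtain ⟨y, hy, h⟩ := S.cl_sqrt hl (S.self_mem_cl hl)
  exact ⟨y, hy, by rw [h]; exact hl.2⟩

theorem pol_mul_pol {l j k : G} (hl : IsInv l) (hj : j ∈ pol l) (hk : k ∈ pol l) :
    j * k ∈ S.cl l := by
  have h1 : j * k * l = l * (j * k) := by
    rw [mul_assoc, hk.2.2, ← mul_assoc, hj.2.2, mul_assoc]
  rcases (S.comm_iff hl).1 h1 with h | h
  · exact h
  · exfalso
    obtain ⟨y, hy, hyy⟩ := S.PA2_exists hl
    have e1 := S.pol_inverts hl h hy
    have e2 := S.pol_inverts hl hk hy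
    have e3 := S.pol_inverts hl hj ((S.cl l).inv_mem hy)
    have e4 : (j * k)⁻¹ = j * k := PA2_inv_eq h.1.1
    have e5 : k⁻¹ = k := PA2_inv_eq hk.1.1
    have e6 : j⁻¹ = j := PA2_inv_eq hj.1.1
    have e7 : j * k = k * j := by
      rw [← e4, mul_inv_rev, e5, e6]
    apply hyy
    have e8 : y = y⁻¹ := by
      calc y = j * y⁻¹ * j := by rw [e3, inv_inv]
        _ = j * (k * y * k) * j := by rw [e2]
        _ = j * k * y * (k * j) := by group
        _ = j * k * y * (j * k) := by rw [← e7]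
        _ = y⁻¹ := e1
    calc y * y = y * y⁻¹ := by rw [← e8]
      _ = 1 := mul_inv_cancel y

theorem pol_mul_cl {l j x : G} (hl : IsInv l) (hj : j ∈ pol l) (hx : x ∈ S.cl l) :
    j * x ∈ pol l :=
  S.PA2_mul_cl hl hj hx

theorem cl_mul_pol {l j x : G} (hl : IsInv l) (hj : j ∈ pol l) (hx : x ∈ S.cl l) :
    x * j ∈ pol l := by
  have h := S.pol_inverts hl hj hx
  have h2 : x * j = j * x⁻¹ := by
    rw [← h]
    calc x * j = (j * j) * x * j := by rw [hj.1.1, one_mul]
      _ = j * (j * x * j) := by group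
  rw [h2]
  exact S.pol_mul_cl hl hj ((S.cl l).inv_mem hx)

private theorem PA2_comm_i {u : G} (h : u ∈ S.C ∨ S.w * u ∈ S.C) : u * S.i * u⁻¹ = S.i := by
  have hi := S.i_inv
  have hii : S.i⁻¹ = S.i := PA2_inv_eq hi.1
  rcases h with h | h
  · rw [S.comm u h S.i S.i_mem, mul_inv_cancel_right]
  · have h1 := S.comm _ h S.i S.i_mem
    have h2 := S.w_inverts S.i S.i_mem
    rw [hii] at h2
    have hww : S.w * S.w = 1 := S.w_inv.1
    have hw : S.w⁻¹ = S.w := PA2_inv_eq hww
    have h3 : (S.w * u) * S.i * (S.w * u)⁻¹ = S.i := by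
      rw [h1, mul_inv_cancel_right]
    have h4 : S.w * (u * S.i * u⁻¹) * S.w = S.i := by
      rw [← h3]
      conv_rhs => rw [mul_inv_rev, hw]
      rw [h3]
      group
    have h5 : S.w * (S.w * (u * S.i * u⁻¹) * S.w) * S.w = u * S.i * u⁻¹ := by
      calc S.w * (S.w * (u * S.i * u⁻¹) * S.w) * S.w
          = (S.w * S.w) * (u * S.i * u⁻¹) * (S.w * S.w) := by group
        _ = u * S.i * u⁻¹ := by rw [hww, one_mul, mul_one]
    rw [← h5, h4, h2]

/-- different `C_l` meet trivially -/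
theorem cl_inj {l l' x : G} (hl : IsInv l) (hl' : IsInv l') (hx : x ∈ S.cl l)
    (hx' : x ∈ S.cl l') (hne : x ≠ 1) : l = l' := by
  obtain ⟨g, hg⟩ := S.inv_conj l hl
  obtain ⟨h, hh⟩ := S.inv_conj l' hl'
  rw [S.cl_eq hg, mem_cj] at hx
  rw [S.cl_eq hh, mem_cj] at hx'
  have h1 : g * x * g⁻¹ ≠ 1 := by
    intro h0
    apply hne
    have : x = g⁻¹ * (g * x * g⁻¹) * g := by group
    rw [this, h0]
    group
  have h2 := S.ti (g * h⁻¹) (g * x * g⁻¹) hx h1 (by
    have : (g * h⁻¹)⁻¹ * (g * x * g⁻¹) * (g * h⁻¹) = h * x * h⁻¹ := by group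
    rw [this]
    exact hx')
  have h3 := S.PA2_comm_i h2
  rw [hg, hh]
  conv_lhs => rw [← h3]
  group

/-- an element conjugating a nontrivial element of `C_l` into `C_k` conjugates `l` to `k` -/
theorem cj_eq_of_mem {l k x g : G} (hl : IsInv l) (hk : IsInv k) (hx : x ∈ S.cl l) (hne : x ≠ 1)
    (h : g⁻¹ * x * g ∈ S.cl k) : g⁻¹ * l * g = k := by
  have h1 : IsInv (g⁻¹ * l * g) := by
    constructor
    · calc g⁻¹ * l * g * (g⁻¹ * l * g) = g⁻¹ * (l * l) * g := by group
        _ = 1 := by rw [hl.1]; group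
    · intro h0
      apply hl.2
      have : l = g * (g⁻¹ * l * g) * g⁻¹ := by group
      rw [this, h0]
      group
  refine S.cl_inj h1 hk (x := g⁻¹ * x * g) ?_ h ?_
  · rw [S.cl_cj hl, mem_cj]
    have : g * (g⁻¹ * x * g) * g⁻¹ = x := by group
    rw [this]
    exact hx
  · intro h0
    apply hne
    have : x = g * (g⁻¹ * x * g) * g⁻¹ := by group
    rw [this, h0]
    group

/-- an element conjugating a nontrivial element of `C_l` into `C_l` commutes with `l` -/
theorem comm_of_cj_mem {l x g : G} (hl : IsInv l) (hx : x ∈ S.cl l) (hne : x ≠ 1)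
    (h : g⁻¹ * x * g ∈ S.cl l) : g * l = l * g := by
  have h1 := S.cj_eq_of_mem hl hl hx hne h
  calc g * l = g * (g⁻¹ * l * g) := by rw [h1]
    _ = l * g := by group

/-- centraliser of a noninvolution of `C_l` -/
theorem comm_iff_of_mem {l x : G} (hl : IsInv l) (hx : x ∈ S.cl l) (h : x * x ≠ 1) {y : G} :
    y * x = x * y ↔ y ∈ S.cl l := by
  constructor
  · intro hy
    have hne : x ≠ 1 := by
      rintro rfl
      exact h (one_mul 1)
    have h1 : y⁻¹ * x * y = x := by
      rw [mul_assoc, ← hy, inv_mul_cancel_left]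
    have h2 := S.comm_of_cj_mem hl hx hne (g := y) (by rw [h1]; exact hx)
    rcases (S.comm_iff hl).1 h2 with h3 | h3
    · exact h3
    · exfalso
      apply h
      have h4 := S.pol_inverts hl h3 hx
      rw [hy, mul_assoc, h3.1.1, mul_one] at h4
      calc x * x = x * x⁻¹ := by rw [← h4]
        _ = 1 := mul_inv_cancel x
  · intro hy
    exact S.cl_comm hy hx

theorem exists_mem_cl_sq_ne {l : G} (hl : IsInv l) : ∃ x ∈ S.cl l, x * x ≠ 1 :=
  S.PA2_exists hl

end Setup

end Pool.Agent.A1C
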