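import Pool.Agent.A1C.PA2

/-!
# PA3: ranks and irreducibility of `I` and of the polars

`irr_invs`: `I` is the image of `G` under `g ↦ g⁻¹ i g`; the fibres are cosets of `N = C ∪ w C`, of rank `rk C` (`irr_image`, `ev_image_iff`).
`pol l = j C_l` for `j ∈ pol l` (nonempty: conjugate of `w`).
`rk_C_pos`: `C` is infinite: it is irreducible, nontrivial, and every element is a square (a finite irreducible set is a point).
-/

namespace Pool.Agent.A1C

universe u

theorem pol_symm {G : Type u} [Group G] {l j : G} (hl : IsInv l) (hj : j ∈ pol l) : l ∈ pol j :=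
  ⟨hl, hj.2.1.symm, hj.2.2.symm⟩

theorem IsInv.cj {G : Type u} [Group G] {j : G} (hj : IsInv j) (g : G) : IsInv (g⁻¹ * j * g) := by
  refine ⟨?_, fun h => hj.2 ?_⟩
  · have h1 : g⁻¹ * j * g * (g⁻¹ * j * g) = g⁻¹ * (j * j) * g := by group
    rw [h1, hj.1]
    group
  · have h1 : j = g * (g⁻¹ * j * g) * g⁻¹ := by group
    rw [h1, h]
    group

theorem pol_cj {G : Type u} [Group G] {l j : G} (g : G) :
    g⁻¹ * j * g ∈ pol (g⁻¹ * l * g) ↔ j ∈ pol l := by
  have hcj : ∀ a : G, g * (g⁻¹ * a * g) * g⁻¹ = a := fun a => by group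
  constructor
  · rintro ⟨h1, h2, h3⟩
    refine ⟨?_, ?_, ?_⟩
    · have h4 := h1.cj g⁻¹
      rwa [inv_inv, hcj] at h4
    · rintro rfl
      exact h2 rfl
    · have h4 : g * (g⁻¹ * j * g * (g⁻¹ * l * g)) * g⁻¹ = g * (g⁻¹ * l * g * (g⁻¹ * j * g)) * g⁻¹ := by
        rw [h3]
      have h5 : ∀ a b : G, g * (g⁻¹ * a * g * (g⁻¹ * b * g)) * g⁻¹ = a * b := fun a b => by group
      rwa [h5, h5] at h4
  · rintro ⟨h1, h2, h3⟩
    refine ⟨h1.cj g, fun h4 => h2 ?_, ?_⟩
    · rw [← hcj j, h4, hcj]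
    · have h5 : ∀ a b : G, g⁻¹ * a * g * (g⁻¹ * b * g) = g⁻¹ * (a * b) * g := fun a b => by group
      rw [h5, h5, h3]

namespace Setup

variable {M : Type u} [Univ M] {G : Type u} [Group G] [DGrp M G] (S : Setup G)

open Filter

private theorem pa3_inv : DfP fun j : G => IsInv j := by
  unfold IsInv
  repeat' first | assumption | fun_prop | apply DfP.and | apply DfP.or | apply DfP.not | apply DfP.iff | apply DfP.ex | apply DfP.all | apply DfP.eq | (apply DfP.mem; assumption) | apply DfP.imp | exact DfP.const _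

theorem df_invs : Df (invs G) := pa3_inv

theorem df_pol (l : G) : Df (pol l) := by
  show DfP fun j : G => (j * j = 1 ∧ ¬ j = 1) ∧ (¬ j = l) ∧ j * l = l * j
  repeat' first | assumption | fun_prop | apply DfP.and | apply DfP.or | apply DfP.not | apply DfP.iff | apply DfP.ex | apply DfP.all | apply DfP.eq | (apply DfP.mem; assumption) | apply DfP.imp | exact DfP.const _

theorem dfP_mem_pol : DfP fun p : G × G => p.1 ∈ pol p.2 := by
  show DfP fun p : G × G => (p.1 * p.1 = 1 ∧ ¬ p.1 = 1) ∧ (¬ p.1 = p.2) ∧ p.1 * p.2 = p.2 * p.1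
  repeat' first | assumption | fun_prop | apply DfP.and | apply DfP.or | apply DfP.not | apply DfP.iff | apply DfP.ex | apply DfP.all | apply DfP.eq | (apply DfP.mem; assumption) | apply DfP.imp | exact DfP.const _

include S in
theorem dfP_mem_cl : DfP fun p : G × G => IsInv p.2 ∧ p.1 ∈ S.cl p.2 := by
  have h : (fun p : G × G => IsInv p.2 ∧ p.1 ∈ S.cl p.2) = fun p : G × G =>
      (p.2 * p.2 = 1 ∧ ¬ p.2 = 1) ∧
        (p.1 * p.2 = p.2 * p.1 ∧ (p.1 * p.1 = 1 → p.1 = 1 ∨ p.1 = p.2)) := by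
    funext p
    apply propext
    exact and_congr_right fun hl => S.mem_cl hl
  rw [h]
  repeat' first | assumption | fun_prop | apply DfP.and | apply DfP.or | apply DfP.not | apply DfP.iff | apply DfP.ex | apply DfP.all | apply DfP.eq | (apply DfP.mem; assumption) | apply DfP.imp | exact DfP.const _

theorem dfP_tor : DfP fun p : G × G => Tor p.1 p.2 := by
  show DfP fun p : G × G => ∃ l : G, (l * l = 1 ∧ ¬ l = 1) ∧
    ((p.1 * p.1 = 1 ∧ ¬ p.1 = 1) ∧ (¬ p.1 = l) ∧ p.1 * l = l * p.1) ∧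
    ((p.2 * p.2 = 1 ∧ ¬ p.2 = 1) ∧ (¬ p.2 = l) ∧ p.2 * l = l * p.2)
  repeat' first | assumption | fun_prop | apply DfP.and | apply DfP.or | apply DfP.not | apply DfP.iff | apply DfP.ex | apply DfP.all | apply DfP.eq | (apply DfP.mem; assumption) | apply DfP.imp | exact DfP.const _

private theorem pa3_image : invs G = (fun g : G => g⁻¹ * S.i * g) '' Set.univ := by
  ext j
  constructor
  · intro hj
    obtain ⟨g, hg⟩ := S.inv_conj j hj
    exact ⟨g, trivial, hg.symm⟩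
  · rintro ⟨g, _, rfl⟩
    exact S.i_inv.cj g

private theorem pa3_fun : DfFun (fun g : G => g⁻¹ * S.i * g) := by fun_prop

private theorem pa3_pol_eq {l j : G} (hl : IsInv l) (hj : j ∈ pol l) :
    pol l = (fun x => j * x) '' (S.cl l : Set G) := by
  ext k
  constructor
  · intro hk
    refine ⟨j * k, S.pol_mul_pol hl hj hk, ?_⟩
    show j * (j * k) = k
    rw [← mul_assoc, hj.1.1, one_mul]
  · rintro ⟨x, hx, rfl⟩
    exact S.pol_mul_cl hl hj hx

private theorem pa3_w : S.w ∈ pol S.i := by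
  refine ⟨S.w_inv, ?_, ?_⟩
  · intro h
    exact S.w_notMem (h ▸ S.i_mem)
  · have h1 := S.w_inverts S.i S.i_mem
    have h2 : S.i⁻¹ = S.i := inv_eq_of_mul_eq_one_left S.i_inv.1
    rw [h2] at h1
    calc S.w * S.i = S.w * S.i * (S.w * S.w) := by rw [S.w_inv.1, mul_one]
      _ = (S.w * S.i * S.w) * S.w := by group
      _ = S.i * S.w := by rw [h1]

include S in
theorem pol_nonempty {l : G} (hl : IsInv l) : (pol l).Nonempty := by
  obtain ⟨g, rfl⟩ := S.inv_conj l hl
  exact ⟨g⁻¹ * S.w * g, (pol_cj g).2 S.pa3_w⟩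

include S in
theorem irr_pol {l : G} (hl : IsInv l) : Irr (pol l) := by
  obtain ⟨j, hj⟩ := S.pol_nonempty hl
  rw [S.pa3_pol_eq hl hj]
  refine irr_of_inj ?_ (S.irr_cl hl) (fun _ _ _ _ h => mul_left_cancel h)
  fun_prop

theorem rk_pol {l : G} (hl : IsInv l) : rk (pol l) = rk (S.C : Set G) := by
  obtain ⟨j, hj⟩ := S.pol_nonempty hl
  rw [S.pa3_pol_eq hl hj, rk_smul _ (S.df_cl l) j, S.rk_cl hl]

private theorem pa3_cen : rk (cen S.i : Set G) = rk (S.C : Set G) := by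
  have h : (cen S.i : Set G) = (S.cl S.i : Set G) ∪ pol S.i := by
    ext x
    exact S.comm_iff S.i_inv
  rw [h, rk_union (S.df_cl S.i) (df_pol S.i), S.rk_cl S.i_inv, S.rk_pol S.i_inv, max_self]

private theorem pa3_fib (y : G) (hy : y ∈ (fun g : G => g⁻¹ * S.i * g) '' Set.univ) :
    rk (Set.univ ∩ (fun g : G => g⁻¹ * S.i * g) ⁻¹' {y}) = rk (S.C : Set G) := by
  obtain ⟨h, _, rfl⟩ := hy
  have h1 : (Set.univ ∩ (fun g : G => g⁻¹ * S.i * g) ⁻¹' {h⁻¹ * S.i * h}) =
      (fun x => x * h) '' (cen S.i : Set G) := by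
    ext g
    constructor
    · rintro ⟨_, hg⟩
      have hg' : g⁻¹ * S.i * g = h⁻¹ * S.i * h := hg
      refine ⟨g * h⁻¹, ?_, by group⟩
      show (g * h⁻¹) * S.i = S.i * (g * h⁻¹)
      calc (g * h⁻¹) * S.i = g * (h⁻¹ * S.i * h) * h⁻¹ := by group
        _ = g * (g⁻¹ * S.i * g) * h⁻¹ := by rw [hg']
        _ = S.i * (g * h⁻¹) := by group
    · rintro ⟨x, hx, rfl⟩
      refine ⟨trivial, ?_⟩
      have hx' : x * S.i = S.i * x := hx
      show (x * h)⁻¹ * S.i * (x * h) = h⁻¹ * S.i * h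
      calc (x * h)⁻¹ * S.i * (x * h) = h⁻¹ * (x⁻¹ * (S.i * x)) * h := by group
        _ = h⁻¹ * (x⁻¹ * (x * S.i)) * h := by rw [hx']
        _ = h⁻¹ * S.i * h := by group
  show rk (Set.univ ∩ (fun g : G => g⁻¹ * S.i * g) ⁻¹' {h⁻¹ * S.i * h}) = rk (S.C : Set G)
  rw [h1, rk_mul_right _ (df_cen S.i) h, S.pa3_cen]

include S in
theorem irr_invs : Irr (invs G) := by
  rw [S.pa3_image]
  exact irr_image S.pa3_fun S.irr S.pa3_fib

theorem rk_invs : rk (invs G) + rk (S.C : Set G) = rk (Set.univ : Set G) := by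
  rw [S.pa3_image]
  exact (rk_eq_add S.pa3_fun Df.univ Set.univ_nonempty S.pa3_fib).symm

theorem ev_invs_iff {p : G → Prop} (hp : DfP p) :
    (∀ᶠ j in gen (invs G), p j) ↔ ∀ᶠ g in gen (Set.univ : Set G), p (g⁻¹ * S.i * g) := by
  rw [S.pa3_image]
  exact ev_image_iff S.pa3_fun S.irr S.pa3_fib hp

theorem rk_C_pos : 0 < rk (S.C : Set G) := by
  by_contra h
  have h0 : rk (S.C : Set G) = 0 := by omega
  have h1 := S.irrC.small_or {1} (Set.singleton_subset_iff.2 S.C.one_mem) (Df.singleton 1)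
  unfold Small at h1
  rw [h0] at h1
  rcases h1 with (h1 | h1) | (h1 | h1)
  · exact Set.singleton_ne_empty _ h1
  · omega
  · have h2 : S.i ∈ (S.C : Set G) \ {1} := ⟨S.i_mem, S.i_inv.2⟩
    rw [h1] at h2
    exact h2
  · omega

end Setup

end Pool.Agent.A1C
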