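import Pool.Agent.A1C.PA3

/-!
# PA4: toral pairs (A1)
-/

namespace Pool.Agent.A1C

universe u

theorem Tor.symm {G : Type u} [Group G] {j k : G} (h : Tor j k) : Tor k j := by
  obtain ⟨l, hl, hj, hk⟩ := h
  exact ⟨l, hl, hk, hj⟩

theorem tor_cj {G : Type u} [Group G] {j k : G} (g : G) :
    Tor (g⁻¹ * j * g) (g⁻¹ * k * g) ↔ Tor j k := by
  constructor
  · rintro ⟨l, hl, hj, hk⟩
    have e : g⁻¹ * (g * l * g⁻¹) * g = l := by group
    have hl' : IsInv (g * l * g⁻¹) := by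
      have h := hl.cj g⁻¹
      rwa [inv_inv] at h
    rw [← e, pol_cj] at hj hk
    exact ⟨_, hl', hj, hk⟩
  · rintro ⟨l, hl, hj, hk⟩
    exact ⟨_, hl.cj g, (pol_cj g).2 hj, (pol_cj g).2 hk⟩

theorem pole_spec {G : Type u} [Group G] {j k : G} (h : Tor j k) :
    IsInv (pole j k) ∧ j ∈ pol (pole j k) ∧ k ∈ pol (pole j k) := by
  have h' : ∃ l, IsInv l ∧ j ∈ pol l ∧ k ∈ pol l := h
  unfold pole
  rw [dif_pos h']
  exact h'.choose_spec

private theorem PA4_ne {G : Type u} [Group G] {j k : G} (hj : IsInv j) (hne : j ≠ k) :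
    j * k ≠ 1 := by
  intro h
  apply hne
  exact mul_left_cancel (hj.1.trans h.symm)

private theorem PA4_inv {G : Type u} [Group G] {j : G} (hj : IsInv j) : j⁻¹ = j :=
  inv_eq_of_mul_eq_one_left hj.1

/-- two different commuting involutions are toral, the pole is the product -/
theorem tor_of_comm {G : Type u} [Group G] {j k : G} (hj : IsInv j) (hk : IsInv k) (hne : j ≠ k)
    (h : j * k = k * j) : IsInv (j * k) ∧ j ∈ pol (j * k) ∧ k ∈ pol (j * k) := by
  have e1 : j * (j * k) = k := by rw [← mul_assoc, hj.1, one_mul]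
  have e2 : (j * k) * j = k := by rw [mul_assoc, ← h, e1]
  have e3 : (j * k) * k = j := by rw [mul_assoc, hk.1, mul_one]
  have e4 : k * (j * k) = j := by rw [← mul_assoc, ← h, e3]
  refine ⟨⟨?_, PA4_ne hj hne⟩, ⟨hj, ?_, ?_⟩, ⟨hk, ?_, ?_⟩⟩
  · rw [← mul_assoc, e2, hk.1]
  · intro h1
    apply hk.2
    have h2 : j * 1 = j * k := by rw [mul_one]; exact h1
    exact (mul_left_cancel h2).symm
  · rw [e1, e2]
  · intro h1
    apply hj.2
    have h2 : 1 * k = j * k := by rw [one_mul]; exact h1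
    exact (mul_right_cancel h2).symm
  · rw [e3, e4]

namespace Setup

variable {M : Type u} [Univ M] {G : Type u} [Group G] [DGrp M G] (S : Setup G)

/-- (A1) `jk ∈ C_l` implies `j, k ∈ pol l` -/
theorem mem_pol_of_mul_mem {j k l : G} (hj : IsInv j) (hk : IsInv k) (hne : j ≠ k)
    (hl : IsInv l) (h : j * k ∈ S.cl l) : j ∈ pol l ∧ k ∈ pol l := by
  have hr : j * k ≠ 1 := PA4_ne hj hne
  have ij := PA4_inv hj
  have ik := PA4_inv hk
  have hinv : (j * k)⁻¹ ∈ S.cl l := (S.cl l).inv_mem h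
  have h1 : j * l = l * j := by
    apply S.comm_of_cj_mem hl h hr
    have e : j⁻¹ * (j * k) * j = (j * k)⁻¹ := by
      rw [mul_inv_rev, ij, ik, ← mul_assoc, hj.1, one_mul]
    rw [e]
    exact hinv
  have h2 : k * l = l * k := by
    apply S.comm_of_cj_mem hl h hr
    have e : k⁻¹ * (j * k) * k = (j * k)⁻¹ := by
      rw [mul_inv_rev, ij, ik, mul_assoc, mul_assoc, hk.1, mul_one]
    rw [e]
    exact hinv
  refine ⟨⟨hj, ?_, h1⟩, ⟨hk, ?_, h2⟩⟩
  · rintro rfl
    have h3 : k ∈ S.cl j := by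
      have h4 := (S.cl j).mul_mem (S.self_mem_cl hj) h
      rwa [← mul_assoc, hj.1, one_mul] at h4
    rcases S.cl_inv_eq hj h3 hk.1 with h5 | h5
    · exact hk.2 h5
    · exact hne h5.symm
  · rintro rfl
    have h3 : j ∈ S.cl k := by
      have h4 := (S.cl k).mul_mem h (S.self_mem_cl hk)
      rwa [mul_assoc, hk.1, mul_one] at h4
    rcases S.cl_inv_eq hk h3 hj.1 with h5 | h5
    · exact hj.2 h5
    · exact hne h5

theorem tor_iff {j k : G} (hj : IsInv j) (hk : IsInv k) (hne : j ≠ k) :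
    Tor j k ↔ ∃ l, IsInv l ∧ j * k ∈ S.cl l := by
  constructor
  · rintro ⟨l, hl, h1, h2⟩
    exact ⟨l, hl, S.pol_mul_pol hl h1 h2⟩
  · rintro ⟨l, hl, h⟩
    exact ⟨l, hl, S.mem_pol_of_mul_mem hj hk hne hl h⟩

include S in
theorem pole_unique {j k l l' : G} (hne : j ≠ k) (hl : IsInv l) (hl' : IsInv l')
    (hj : j ∈ pol l) (hk : k ∈ pol l) (hj' : j ∈ pol l') (hk' : k ∈ pol l') : l = l' := by
  exact S.cl_inj hl hl' (S.pol_mul_pol hl hj hk) (S.pol_mul_pol hl' hj' hk')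
    (PA4_ne hj.1 hne)

include S in
theorem pole_eq {j k l : G} (hne : j ≠ k) (hl : IsInv l) (hj : j ∈ pol l) (hk : k ∈ pol l) :
    pole j k = l := by
  obtain ⟨h1, h2, h3⟩ := pole_spec (⟨l, hl, hj, hk⟩ : Tor j k)
  exact S.pole_unique hne h1 hl h2 h3 hj hk

private theorem PA4_sq {j k l z : G} (hl : IsInv l) (hj : j ∈ pol l) (hz : z ∈ S.cl l)
    (h : z * z = j * k) : z⁻¹ * j * z = k := by
  rw [← S.pol_inverts hl hj hz, mul_assoc (j * z) j j, hj.1.1, mul_one, mul_assoc, h, ← mul_assoc,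
    hj.1.1, one_mul]

/-- a midpoint of a toral pair -/
theorem tor_sqrt {j k l : G} (hl : IsInv l) (hj : j ∈ pol l) (hk : k ∈ pol l) :
    ∃ z ∈ S.cl l, z * z = j * k ∧ z⁻¹ * j * z = k := by
  obtain ⟨z, hz, h⟩ := S.cl_sqrt hl (S.pol_mul_pol hl hj hk)
  exact ⟨z, hz, h, S.PA4_sq hl hj hz h⟩

/-- every square root in `C_l` of `jk` conjugates `j` to `k` -/
theorem tor_conj_of_sq {j k l z : G} (hl : IsInv l) (hj : j ∈ pol l) (hz : z ∈ S.cl l)
    (h : z * z = j * k) : z⁻¹ * j * z = k := by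
  exact S.PA4_sq hl hj hz h

/-- `l` is not orthogonal to a point of its own polar line ... the polar of `l` does not contain `l` -/
theorem not_mem_pol_self {l : G} : l ∉ pol l := by
  exact fun h => h.2.1 rfl

end Setup

end Pool.Agent.A1C
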