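import Pool.Agent.A1C.PA4

/-!
# PA5: unipotent pairs (A2)

`j ≠ k` involutions, not toral, `K = cen (j * k)`. All proofs are in (A2) of A1_PROOF.md. `inverts_of_fixedPointFree` (GC4) for `V = K`, `t = j`.
-/

namespace Pool.Agent.A1C

universe u

namespace Setup

variable {M : Type u} [Univ M] {G : Type u} [Group G] [DGrp M G] (S : Setup G)

private theorem PA5_notMem {j k : G} (hj : IsInv j) (hk : IsInv k) (hne : j ≠ k) (h : ¬ Tor j k)
    {l : G} (hl : IsInv l) : j * k ∉ S.cl l := fun hm =>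
  h ((S.tor_iff hj hk hne).2 ⟨l, hl, hm⟩)

private theorem PA5_inv {j k : G} (hj : IsInv j) (hk : IsInv k) : (j * k)⁻¹ = k * j := by
  have h1 : j⁻¹ = j := inv_eq_of_mul_eq_one_left hj.1
  have h2 : k⁻¹ = k := inv_eq_of_mul_eq_one_left hk.1
  rw [mul_inv_rev, h1, h2]

include S in
theorem uni_noInv {j k : G} (hj : IsInv j) (hk : IsInv k) (hne : j ≠ k) (h : ¬ Tor j k) :
    NoInv (cen (j * k)) := by
  intro l hl hll
  by_contra hl1
  have hli : IsInv l := ⟨hll, hl1⟩
  have h1 : j * k * l = l * (j * k) := (mem_cen.1 hl).symm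
  rcases (S.comm_iff hli).1 h1 with h2 | h2
  · exact PA5_notMem S hj hk hne h hli h2
  · exact PA5_notMem S hj hk hne h h2.1 (S.self_mem_cl h2.1)

include S in
theorem uni_inverts {j k : G} (hj : IsInv j) (hk : IsInv k) (hne : j ≠ k) (h : ¬ Tor j k)
    {x : G} (hx : x ∈ cen (j * k)) : j * x * j = x⁻¹ := by
  have hno := S.uni_noInv hj hk hne h
  refine inverts_of_fixedPointFree (df_cen (j * k)) hno hj.1 ?_ ?_ hx
  · intro y hy
    have h1 : y * (j * k)⁻¹ = (j * k)⁻¹ * y := by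
      have h2 : y * (j * k) = (j * k) * y := mem_cen.1 hy
      calc y * (j * k)⁻¹ = (j * k)⁻¹ * ((j * k) * y) * (j * k)⁻¹ := by group
        _ = (j * k)⁻¹ * y := by rw [← h2]; group
    rw [PA5_inv hj hk] at h1
    rw [mem_cen]
    calc j * y * j * (j * k) = j * y * (j * j) * k := by group
      _ = j * y * k := by rw [hj.1, mul_one]
      _ = j * (y * (k * j)) * j := by
        calc j * y * k = j * y * k * (j * j) := by rw [hj.1, mul_one]
          _ = j * (y * (k * j)) * j := by group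
      _ = j * k * (j * y * j) := by rw [h1]; group
  · intro y hy hjy
    by_contra hy1
    rcases (S.comm_iff hj).1 hjy.symm with h2 | h2
    · have h3 : y * y ≠ 1 := fun h3 => hy1 (hno y hy h3)
      have h4 := (S.comm_iff_of_mem hj h2 h3).1 (mem_cen.1 hy).symm
      exact PA5_notMem S hj hk hne h hj h4
    · exact hy1 (hno y hy h2.1.1)

include S in
theorem uni_inverts' {j k : G} (hj : IsInv j) (hk : IsInv k) (hne : j ≠ k) (h : ¬ Tor j k)
    {x : G} (hx : x ∈ cen (j * k)) : k * x * k = x⁻¹ := by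
  refine S.uni_inverts hk hj hne.symm (fun h' => h h'.symm) ?_
  rw [← PA5_inv hj hk, mem_cen]
  have h2 : x * (j * k) = (j * k) * x := mem_cen.1 hx
  calc x * (j * k)⁻¹ = (j * k)⁻¹ * ((j * k) * x) * (j * k)⁻¹ := by group
    _ = (j * k)⁻¹ * x := by rw [← h2]; group

include S in
theorem uni_comm {j k : G} (hj : IsInv j) (hk : IsInv k) (hne : j ≠ k) (h : ¬ Tor j k)
    {x y : G} (hx : x ∈ cen (j * k)) (hy : y ∈ cen (j * k)) : x * y = y * x := by
  have h1 := S.uni_inverts hj hk hne h hx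
  have h2 := S.uni_inverts hj hk hne h hy
  have h3 := S.uni_inverts hj hk hne h ((cen (j * k)).mul_mem hy hx)
  have h4 : j * (y * x) * j = (j * y * j) * (j * x * j) := by
    calc j * (y * x) * j = j * y * 1 * x * j := by group
      _ = j * y * (j * j) * x * j := by rw [hj.1]
      _ = (j * y * j) * (j * x * j) := by group
  rw [h3, h1, h2, mul_inv_rev] at h4
  have h5 := congrArg (fun z => z⁻¹) h4
  simp only [mul_inv_rev, inv_inv] at h5
  exact h5.symm

theorem uni_notMem_cl {j k : G} (hj : IsInv j) (hk : IsInv k) (hne : j ≠ k) (h : ¬ Tor j k)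
    {x : G} (hx : x ∈ cen (j * k)) (hx1 : x ≠ 1) {l : G} (hl : IsInv l) : x ∉ S.cl l := by
  intro hm
  have h3 : x * x ≠ 1 := fun h3 => hx1 (S.uni_noInv hj hk hne h x hx h3)
  exact PA5_notMem S hj hk hne h hl ((S.comm_iff_of_mem hl hm h3).1 (mem_cen.1 hx).symm)

include S in
/-- for `x ∈ K`, `j x` is an involution, and `(j, j x)` is a nontoral pair if `x ≠ 1` -/
private theorem PA5_mul {j k x : G} (hj : IsInv j) (hk : IsInv k) (hne : j ≠ k) (h : ¬ Tor j k)
    (hx : x ∈ cen (j * k)) :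
    IsInv (j * x) ∧ j * (j * x) = x ∧ (x ≠ 1 → j ≠ j * x) ∧ (x ≠ 1 → ¬ Tor j (j * x)) := by
  have e : j * (j * x) = x := by rw [← mul_assoc, hj.1, one_mul]
  have hi : IsInv (j * x) := by
    constructor
    · calc j * x * (j * x) = (j * x * j) * x := by group
        _ = 1 := by rw [S.uni_inverts hj hk hne h hx, inv_mul_cancel]
    · intro h1
      have h2 : x = j := by
        rw [← e, h1, mul_one]
      subst h2
      exact hj.2 (S.uni_noInv hj hk hne h _ hx hj.1)
  have hn : x ≠ 1 → j ≠ j * x := fun hx1 h1 => hx1 (mul_eq_left.1 h1.symm)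
  refine ⟨hi, e, hn, fun hx1 ht => ?_⟩
  obtain ⟨l, hl, hm⟩ := (S.tor_iff hj hi (hn hx1)).1 ht
  rw [e] at hm
  exact S.uni_notMem_cl hj hk hne h hx hx1 hl hm

include S in
theorem uni_cen {j k : G} (hj : IsInv j) (hk : IsInv k) (hne : j ≠ k) (h : ¬ Tor j k)
    {x : G} (hx : x ∈ cen (j * k)) (hx1 : x ≠ 1) : cen x = cen (j * k) := by
  obtain ⟨hi, e, hn, ht⟩ := PA5_mul S hj hk hne h hx
  ext y
  constructor
  · intro hy
    have h1 : j * k ∈ cen (j * (j * x)) := by
      rw [e]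
      exact (mem_cen.1 hx).symm
    have h2 : y ∈ cen (j * (j * x)) := by
      rw [e]
      exact hy
    exact S.uni_comm hj hi (hn hx1) (ht hx1) h2 h1
  · intro hy
    exact S.uni_comm hj hk hne h hy hx

include S in
/-- unique square roots in `K` -/
theorem uni_sqrt {j k : G} (hj : IsInv j) (hk : IsInv k) (hne : j ≠ k) (h : ¬ Tor j k)
    {x : G} (hx : x ∈ cen (j * k)) : ∃! z, z ∈ cen (j * k) ∧ z * z = x := by
  have hno := S.uni_noInv hj hk hne h
  obtain ⟨z, hz, hzx⟩ := NoInv.sq (df_cen (j * k))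
    (fun x hx y hy => S.uni_comm hj hk hne h hx hy) hno hx
  refine ⟨z, ⟨hz, hzx⟩, ?_⟩
  rintro y ⟨hy, hyx⟩
  have hc : z⁻¹ * y = y * z⁻¹ := S.uni_comm hj hk hne h ((cen (j * k)).inv_mem hz) hy
  have h1 : y * z⁻¹ = 1 := by
    refine hno _ ((cen (j * k)).mul_mem hy ((cen (j * k)).inv_mem hz)) ?_
    calc y * z⁻¹ * (y * z⁻¹) = y * (z⁻¹ * y) * z⁻¹ := by group
      _ = (y * y) * (z * z)⁻¹ := by rw [hc]; group
      _ = 1 := by rw [hyx, hzx, mul_inv_cancel]
  exact mul_inv_eq_one.1 h1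

include S in
/-- the square root of `jk` conjugates `j` to `k` -/
theorem uni_conj {j k z : G} (hj : IsInv j) (hk : IsInv k) (hne : j ≠ k) (h : ¬ Tor j k)
    (hz : z ∈ cen (j * k)) (hzz : z * z = j * k) : z⁻¹ * j * z = k := by
  rw [← S.uni_inverts hj hk hne h hz]
  calc j * z * j * j * z = j * z * (j * j) * z := by group
    _ = j * (z * z) := by rw [hj.1]; group
    _ = (j * j) * k := by rw [hzz]; group
    _ = k := by rw [hj.1, one_mul]

include S in
/-- involutions normalising `K` invert `K` and lie in `j K` -/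
theorem uni_normalizer {j k l : G} (hj : IsInv j) (hk : IsInv k) (hne : j ≠ k) (h : ¬ Tor j k)
    (hl : IsInv l) (hn : ∀ x ∈ cen (j * k), l * x * l ∈ cen (j * k)) :
    (∀ x ∈ cen (j * k), l * x * l = x⁻¹) ∧ j * l ∈ cen (j * k) := by
  have hno := S.uni_noInv hj hk hne h
  have hinv : ∀ x ∈ cen (j * k), l * x * l = x⁻¹ := by
    intro x hx
    refine inverts_of_fixedPointFree (df_cen (j * k)) hno hl.1 hn ?_ hx
    intro y hy hly
    by_contra hy1
    rcases (S.comm_iff hl).1 hly.symm with h2 | h2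
    · exact S.uni_notMem_cl hj hk hne h hy hy1 hl h2
    · exact hy1 (hno y hy h2.1.1)
  refine ⟨hinv, ?_⟩
  have hr : j * k ∈ cen (j * k) := mem_cen.2 rfl
  have h1 := hinv _ hr
  have h2 := S.uni_inverts hj hk hne h hr
  rw [mem_cen]
  have h3 : l * (j * k) = (j * k)⁻¹ * l := by
    rw [← h1]
    calc l * (j * k) = l * (j * k) * (l * l) := by rw [hl.1, mul_one]
      _ = l * (j * k) * l * l := by group
  have h4 : j * (j * k)⁻¹ = (j * k) * j := by
    rw [← h2]
    calc j * (j * (j * k) * j) = (j * j) * ((j * k) * j) := by group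
      _ = (j * k) * j := by rw [hj.1, one_mul]
  calc j * l * (j * k) = j * (l * (j * k)) := by group
    _ = (j * (j * k)⁻¹) * l := by rw [h3]; group
    _ = j * k * (j * l) := by rw [h4]; group

include S in
/-- for `x ∈ K`, `j x` is an involution, and `(j, j x)` is a nontoral pair if `x ≠ 1` -/
theorem uni_mul {j k x : G} (hj : IsInv j) (hk : IsInv k) (hne : j ≠ k) (h : ¬ Tor j k)
    (hx : x ∈ cen (j * k)) : IsInv (j * x) ∧ (x ≠ 1 → ¬ Tor j (j * x)) := by
  obtain ⟨hi, _, _, ht⟩ := PA5_mul S hj hk hne h hx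
  exact ⟨hi, ht⟩

end Setup

end Pool.Agent.A1C
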