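import Pool.Agent.A1C.PA5

/-!
# PA6: line groups and lines (A3)

`L` is a line group: `L = C_l` or `L = K = cen (j * k)` for a unipotent pair. `line L` is `pol l`, resp. `j K`.
-/

namespace Pool.Agent.A1C

universe u

namespace Setup

variable {M : Type u} [Univ M] {G : Type u} [Group G] [DGrp M G] (S : Setup G)

private theorem PA6_ne {j k : G} (hj : IsInv j) (hne : j ≠ k) : j * k ≠ 1 := by
  intro h
  apply hne
  exact mul_left_cancel (hj.1.trans h.symm)

theorem line_cl {l : G} (hl : IsInv l) : line (S.cl l) = pol l := by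
  ext j
  constructor
  · rintro ⟨hj, h⟩
    have hl' : l⁻¹ = l := inv_eq_of_mul_eq_one_left hl.1
    have h1 : j * l * j = l := by rw [h l (S.self_mem_cl hl), hl']
    refine ⟨hj, ?_, ?_⟩
    · rintro rfl
      obtain ⟨x, hx, hxx⟩ := S.exists_mem_cl_sq_ne hl
      apply hxx
      have h2 := h x hx
      rw [S.cl_comm (S.self_mem_cl hl) hx, mul_assoc, hj.1, mul_one] at h2
      nth_rewrite 1 [h2]
      exact inv_mul_cancel x
    · calc j * l = j * l * (j * j) := by rw [hj.1, mul_one]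
        _ = j * l * j * j := by rw [mul_assoc, mul_assoc, mul_assoc]
        _ = l * j := by rw [h1]
  · intro hj
    exact ⟨hj.1, fun x hx => S.pol_inverts hl hj hx⟩

theorem lineGrp_cl {l : G} (hl : IsInv l) : S.LineGrp (S.cl l) := by
  exact Or.inl ⟨l, hl, rfl⟩

theorem lineGrp_uni {j k : G} (hj : IsInv j) (hk : IsInv k) (hne : j ≠ k) (h : ¬ Tor j k) :
    S.LineGrp (cen (j * k)) := by
  exact Or.inr ⟨j, k, hj, hk, hne, h, rfl⟩

include S in
theorem mem_line_uni {j k : G} (hj : IsInv j) (hk : IsInv k) (hne : j ≠ k) (h : ¬ Tor j k) {l : G} :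
    l ∈ line (cen (j * k)) ↔ ∃ x ∈ cen (j * k), l = j * x := by
  constructor
  · rintro ⟨hl, h1⟩
    refine ⟨j * l, ?_, ?_⟩
    · exact (S.uni_normalizer hj hk hne h hl
        (fun x hx => by rw [h1 x hx]; exact (cen (j * k)).inv_mem hx)).2
    · rw [← mul_assoc, hj.1, one_mul]
  · rintro ⟨x, hx, rfl⟩
    refine ⟨(S.uni_mul hj hk hne h hx).1, fun y hy => ?_⟩
    have h1 := S.uni_inverts hj hk hne h ((cen (j * k)).mul_mem hx hy)
    calc j * x * y * (j * x) = j * (x * y) * j * x := by simp only [mul_assoc]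
      _ = (x * y)⁻¹ * x := by rw [h1]
      _ = y⁻¹ := by rw [mul_inv_rev, mul_assoc, inv_mul_cancel, mul_one]

theorem LineGrp.df {L : Subgroup G} (hL : S.LineGrp L) : Df (L : Set G) := by
  rcases hL with ⟨l, _, rfl⟩ | ⟨j, k, _, _, _, _, rfl⟩
  · exact S.df_cl l
  · exact df_cen _

theorem LineGrp.comm {L : Subgroup G} (hL : S.LineGrp L) {x y : G} (hx : x ∈ L) (hy : y ∈ L) :
    x * y = y * x := by
  rcases hL with ⟨l, _, rfl⟩ | ⟨j, k, hj, hk, hne, h, rfl⟩
  · exact S.cl_comm hx hy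
  · exact S.uni_comm hj hk hne h hx hy

/-- (A3) different line groups meet trivially -/
theorem LineGrp.eq_of_mem {L L' : Subgroup G} (hL : S.LineGrp L) (hL' : S.LineGrp L') {x : G}
    (hx : x ∈ L) (hx' : x ∈ L') (hne : x ≠ 1) : L = L' := by
  rcases hL with ⟨l, hl, rfl⟩ | ⟨j, k, hj, hk, hjk, h, rfl⟩
  · rcases hL' with ⟨l', hl', rfl⟩ | ⟨j', k', hj', hk', hjk', h', rfl⟩
    · rw [S.cl_inj hl hl' hx hx' hne]
    · exact absurd hx (S.uni_notMem_cl hj' hk' hjk' h' hx' hne hl)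
  · rcases hL' with ⟨l', hl', rfl⟩ | ⟨j', k', hj', hk', hjk', h', rfl⟩
    · exact absurd hx' (S.uni_notMem_cl hj hk hjk h hx hne hl')
    · rw [← S.uni_cen hj hk hjk h hx hne, S.uni_cen hj' hk' hjk' h' hx' hne]

theorem LineGrp.cen_eq {L : Subgroup G} (hL : S.LineGrp L) {x : G} (hx : x ∈ L)
    (hne : x * x ≠ 1) : cen x = L := by
  rcases hL with ⟨l, hl, rfl⟩ | ⟨j, k, hj, hk, hjk, h, rfl⟩
  · ext y
    exact S.comm_iff_of_mem hl hx hne
  · exact S.uni_cen hj hk hjk h hx (fun h1 => hne (by rw [h1, mul_one]))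

theorem LineGrp.mul_mem {L : Subgroup G} (hL : S.LineGrp L) {j k : G} (hj : j ∈ line L)
    (hk : k ∈ line L) : j * k ∈ L := by
  rcases hL with ⟨l, hl, rfl⟩ | ⟨a, b, ha, hb, hab, h, rfl⟩
  · rw [S.line_cl hl] at hj hk
    exact S.pol_mul_pol hl hj hk
  · obtain ⟨x, hx, rfl⟩ := (S.mem_line_uni ha hb hab h).1 hj
    obtain ⟨y, hy, rfl⟩ := (S.mem_line_uni ha hb hab h).1 hk
    have e : a * x * (a * y) = x⁻¹ * y := by
      rw [← S.uni_inverts ha hb hab h hx]
      simp only [mul_assoc]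
    rw [e]
    exact (cen (a * b)).mul_mem ((cen (a * b)).inv_mem hx) hy

theorem LineGrp.line_mul {L : Subgroup G} (hL : S.LineGrp L) {j x : G} (hj : j ∈ line L)
    (hx : x ∈ L) : j * x ∈ line L := by
  rcases hL with ⟨l, hl, rfl⟩ | ⟨a, b, ha, hb, hab, h, rfl⟩
  · rw [S.line_cl hl] at hj ⊢
    exact S.pol_mul_cl hl hj hx
  · obtain ⟨y, hy, rfl⟩ := (S.mem_line_uni ha hb hab h).1 hj
    exact (S.mem_line_uni ha hb hab h).2 ⟨y * x, (cen (a * b)).mul_mem hy hx, mul_assoc _ _ _⟩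

theorem LineGrp.mul_line {L : Subgroup G} (hL : S.LineGrp L) {j x : G} (hj : j ∈ line L)
    (hx : x ∈ L) : x * j ∈ line L := by
  have h1 : x * j = j * x⁻¹ := by
    rw [← hj.2 x hx, ← mul_assoc, ← mul_assoc, hj.1.1, one_mul]
  rw [h1]
  exact LineGrp.line_mul S hL hj (L.inv_mem hx)

/-- involutions with product in `L \ 1` are on the line of `L` -/
theorem LineGrp.mem_line_of_mul_mem {L : Subgroup G} (hL : S.LineGrp L) {j k : G} (hj : IsInv j)
    (hk : IsInv k) (hne : j ≠ k) (h : j * k ∈ L) : j ∈ line L ∧ k ∈ line L := by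
  rcases hL with ⟨l, hl, rfl⟩ | ⟨a, b, ha, hb, hab, h', rfl⟩
  · rw [S.line_cl hl]
    exact S.mem_pol_of_mul_mem hj hk hne hl h
  · have h1 : j * k ≠ 1 := PA6_ne hj hne
    have h2 : cen (j * k) = cen (a * b) := S.uni_cen ha hb hab h' h h1
    have h3 : ¬ Tor j k := by
      intro ht
      obtain ⟨l, hl, hl'⟩ := (S.tor_iff hj hk hne).1 ht
      exact S.uni_notMem_cl ha hb hab h' h h1 hl hl'
    rw [← h2]
    exact ⟨⟨hj, fun x hx => S.uni_inverts hj hk hne h3 hx⟩,
      ⟨hk, fun x hx => S.uni_inverts' hj hk hne h3 hx⟩⟩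

/-- two different lines meet in at most one point -/
theorem LineGrp.line_inter {L L' : Subgroup G} (hL : S.LineGrp L) (hL' : S.LineGrp L')
    (hne : L ≠ L') {j k : G} (hj : j ∈ line L) (hk : k ∈ line L) (hj' : j ∈ line L')
    (hk' : k ∈ line L') : j = k := by
  by_contra h
  exact hne (LineGrp.eq_of_mem S hL hL' (LineGrp.mul_mem S hL hj hk)
    (LineGrp.mul_mem S hL' hj' hk') (PA6_ne hj.1 h))

/-- two different involutions are on a line -/
theorem exists_line {j k : G} (hj : IsInv j) (hk : IsInv k) (hne : j ≠ k) :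
    ∃ L, S.LineGrp L ∧ j ∈ line L ∧ k ∈ line L := by
  by_cases h : Tor j k
  · obtain ⟨l, hl, h1, h2⟩ := h
    exact ⟨S.cl l, S.lineGrp_cl hl, by rw [S.line_cl hl]; exact h1, by rw [S.line_cl hl]; exact h2⟩
  · exact ⟨cen (j * k), S.lineGrp_uni hj hk hne h,
      ⟨hj, fun x hx => S.uni_inverts hj hk hne h hx⟩,
      ⟨hk, fun x hx => S.uni_inverts' hj hk hne h hx⟩⟩

/-- conjugates of line groups -/
theorem LineGrp.cj {L : Subgroup G} (hL : S.LineGrp L) (g : G) : S.LineGrp (cj L g) := by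
  rcases hL with ⟨l, hl, rfl⟩ | ⟨a, b, ha, hb, hab, h, rfl⟩
  · rw [← S.cl_cj hl]
    exact S.lineGrp_cl (hl.cj g)
  · have e : Pool.Agent.A1C.cj (cen (a * b)) g = cen ((g⁻¹ * a * g) * (g⁻¹ * b * g)) := by
      ext y
      rw [mem_cj, mem_cen, mem_cen]
      constructor
      · intro h1
        have h2 : y * (g⁻¹ * a * g * (g⁻¹ * b * g)) = g⁻¹ * (g * y * g⁻¹ * (a * b)) * g := by group
        rw [h2, h1]
        group
      · intro h1
        have h2 : g * y * g⁻¹ * (a * b) = g * (y * (g⁻¹ * a * g * (g⁻¹ * b * g))) * g⁻¹ := by group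
        rw [h2, h1]
        group
    rw [e]
    refine S.lineGrp_uni (ha.cj g) (hb.cj g) ?_ ?_
    · intro h1
      apply hab
      exact mul_left_cancel (mul_right_cancel h1)
    · rw [tor_cj]
      exact h

theorem mem_line_cj {L : Subgroup G} {g j : G} : g⁻¹ * j * g ∈ line (cj L g) ↔ j ∈ line L := by
  constructor
  · rintro ⟨h1, h2⟩
    have h3 := h1.cj g⁻¹
    have e : g⁻¹⁻¹ * (g⁻¹ * j * g) * g⁻¹ = j := by group
    rw [e] at h3
    refine ⟨h3, fun x hx => ?_⟩
    have h4 : g⁻¹ * x * g ∈ Pool.Agent.A1C.cj L g := by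
      rw [mem_cj]
      have e2 : g * (g⁻¹ * x * g) * g⁻¹ = x := by group
      rw [e2]
      exact hx
    have h5 := h2 _ h4
    have e3 : j * x * j = g * (g⁻¹ * j * g * (g⁻¹ * x * g) * (g⁻¹ * j * g)) * g⁻¹ := by group
    rw [e3, h5]
    group
  · rintro ⟨h1, h2⟩
    refine ⟨h1.cj g, fun x hx => ?_⟩
    rw [mem_cj] at hx
    have h5 := h2 _ hx
    have e3 : g⁻¹ * j * g * x * (g⁻¹ * j * g) = g⁻¹ * (j * (g * x * g⁻¹) * j) * g := by group
    rw [e3, h5]
    group

theorem LineGrp.cj_eq {L : Subgroup G} (hL : S.LineGrp L) {x g : G} (hx : x ∈ L) (hne : x ≠ 1)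
    (h : g⁻¹ * x * g ∈ L) : Pool.Agent.A1C.cj L g = L := by
  refine LineGrp.eq_of_mem S (LineGrp.cj S hL g) hL (x := g⁻¹ * x * g) ?_ h ?_
  · rw [mem_cj]
    have e2 : g * (g⁻¹ * x * g) * g⁻¹ = x := by group
    rw [e2]
    exact hx
  · intro h1
    apply hne
    have e2 : x = g * (g⁻¹ * x * g) * g⁻¹ := by group
    rw [e2, h1, mul_one, mul_inv_cancel]

/-- (A3) strongly real elements -/
theorem strongly_real {c₀ c₁ : G} (h0 : IsInv c₀) (h1 : IsInv c₁) (hne : c₀ * c₁ ≠ 1)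
    (hsq : (c₀ * c₁) * (c₀ * c₁) ≠ 1) :
    S.LineGrp (cen (c₀ * c₁)) ∧ c₀ ∈ line (cen (c₀ * c₁)) ∧ c₁ ∈ line (cen (c₀ * c₁)) := by
  have hne' : c₀ ≠ c₁ := by
    rintro rfl
    exact hne h0.1
  obtain ⟨L, hL, hj, hk⟩ := S.exists_line h0 h1 hne'
  rw [LineGrp.cen_eq S hL (LineGrp.mul_mem S hL hj hk) hsq]
  exact ⟨hL, hj, hk⟩

/-- a noninvolution `θ ≠ 1` inverted by an involution `c₀` -/
theorem inverted {c₀ θ : G} (h0 : IsInv c₀) (hne : θ ≠ 1) (hsq : θ * θ ≠ 1)
    (h : c₀ * θ * c₀ = θ⁻¹) : S.LineGrp (cen θ) ∧ c₀ ∈ line (cen θ) := by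
  have e : c₀ * (c₀ * θ) = θ := by rw [← mul_assoc, h0.1, one_mul]
  have h1 : IsInv (c₀ * θ) := by
    constructor
    · rw [← mul_assoc, h, inv_mul_cancel]
    · intro h2
      rw [h2, mul_one] at e
      apply hsq
      rw [← e, h0.1]
  have h3 := S.strongly_real h0 h1 (by rw [e]; exact hne) (by rw [e]; exact hsq)
  rw [e] at h3
  exact ⟨h3.1, h3.2.1⟩

/-- an involution normalising a line group `L` which is not a `C_l` is on the line of `L` -/
theorem mem_line_of_normalizes {L : Subgroup G} (hL : S.LineGrp L) {j : G} (hj : IsInv j)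
    (hn : ∀ x ∈ L, j * x * j ∈ L) : j ∈ line L ∨ L = S.cl j := by
  rcases hL with ⟨l, hl, rfl⟩ | ⟨a, b, ha, hb, hab, h, rfl⟩
  · have h1 := hn l (S.self_mem_cl hl)
    have h2 : j * l * j * (j * l * j) = 1 := by
      calc j * l * j * (j * l * j) = j * l * (j * j) * (l * j) := by simp only [mul_assoc]
        _ = j * (l * l) * j := by rw [hj.1, mul_one]; simp only [mul_assoc]
        _ = 1 := by rw [hl.1, mul_one, hj.1]
    rcases S.cl_inv_eq hl h1 h2 with h3 | h3
    · exfalso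
      apply hl.2
      calc l = j * (j * l * j) * j := by
            simp only [← mul_assoc]
            rw [hj.1, one_mul, mul_assoc, hj.1, mul_one]
        _ = 1 := by rw [h3, mul_one, hj.1]
    · have h4 : j * l = l * j := by
        calc j * l = j * l * j * j := by rw [mul_assoc (j * l), hj.1, mul_one]
          _ = l * j := by rw [h3]
      rcases (S.comm_iff hl).1 h4 with h5 | h5
      · rcases S.cl_inv_eq hl h5 hj.1 with h6 | h6
        · exact absurd h6 hj.2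
        · right
          rw [h6]
      · left
        rw [S.line_cl hl]
        exact h5
  · left
    exact ⟨hj, (S.uni_normalizer ha hb hab h hj hn).1⟩

end Setup

end Pool.Agent.A1C
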