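import Pool.Agent.A1C.PA6

/-!
# PA7: generic pairs of involutions are toral (A4)

Proof (A4). Work with `(u, v) ∈ G × G`, `j = u⁻¹ i u`, `k = v⁻¹ i v`. If `¬ Tor` is generic then generically `j ≠ k` and there is a unique
`z ∈ cen (j k)` with `z² = j k` (PA5), and `u z v⁻¹` commutes with `i`, so lies in `C` or in `w C`. One of the two cases is generic
(`Irr.ev_or`), but the translation `u ↦ w u` exchanges them: contradiction. `j = k` is not generic (`rk_C < rk G`).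
-/

namespace Pool.Agent.A1C

universe u

namespace Setup

variable {M : Type u} [Univ M] {G : Type u} [Group G] [DGrp M G] (S : Setup G)

open Filter

include S in
private theorem PA7_rk_invs_pos : 0 < rk (invs G) := by
  have h1 := S.rk_pol S.i_inv
  have h2 : rk (pol S.i) ≤ rk (invs G) := rk_mono (df_pol S.i) df_invs fun j hj => hj.1
  have h3 := S.rk_C_pos
  omega

/-- a point is not generic in an irreducible infinite set -/
private theorem PA7_ne {A : Set G} (hA : Df A) (hpos : 0 < rk A) (j : G) :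
    ∀ᶠ k in gen A, j ≠ k := by
  have h1 : rk (A ∩ {j}) < rk A := by
    have h2 : rk (A ∩ {j}) ≤ rk ({j} : Set G) :=
      rk_mono (hA.inter (Df.singleton j)) (Df.singleton j) Set.inter_subset_right
    rw [rk_singleton] at h2
    omega
  filter_upwards [ev_notMem hA (Df.singleton j) h1] with k hk h
  exact hk (by rw [h]; rfl)

private theorem PA7_ne_prod {A : Set G} (hA : Irr A) (hpos : 0 < rk A) :
    ∀ᶠ z in gen (A ×ˢ A), z.1 ≠ z.2 := by
  have hp : DfP fun z : G × G => z.1 ≠ z.2 := DfP.not (DfP.eq (by fun_prop) (by fun_prop))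
  rw [ev_prod_iff hA hA (p := fun x y => x ≠ y) hp]
  exact Filter.Eventually.of_forall fun j => PA7_ne hA.df hpos j

/-- the predicate `u z v⁻¹ ∈ C` for the canonical square root `z` -/
private def PA7_Q (z : G × G) : Prop :=
  ∃ t, (t * ((z.1⁻¹ * S.i * z.1) * (z.2⁻¹ * S.i * z.2)) =
    ((z.1⁻¹ * S.i * z.1) * (z.2⁻¹ * S.i * z.2)) * t ∧
    t * t = (z.1⁻¹ * S.i * z.1) * (z.2⁻¹ * S.i * z.2)) ∧ z.1 * t * z.2⁻¹ ∈ S.C

private theorem PA7_Q_df : DfP (S.PA7_Q) := by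
  have h := S.dfC
  change DfP fun z : G × G => ∃ t, (t * ((z.1⁻¹ * S.i * z.1) * (z.2⁻¹ * S.i * z.2)) =
    ((z.1⁻¹ * S.i * z.1) * (z.2⁻¹ * S.i * z.2)) * t ∧
    t * t = (z.1⁻¹ * S.i * z.1) * (z.2⁻¹ * S.i * z.2)) ∧ z.1 * t * z.2⁻¹ ∈ (S.C : Set G)
  repeat' first
    | assumption | fun_prop | apply DfP.and | apply DfP.ex | apply DfP.eq
    | (apply DfP.mem; assumption)

private theorem PA7_w : S.w⁻¹ = S.w := inv_eq_of_mul_eq_one_left S.w_inv.1

private theorem PA7_i : S.i⁻¹ = S.i := inv_eq_of_mul_eq_one_left S.i_inv.1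

private theorem PA7_w_pol : S.w ∈ pol S.i := by
  refine ⟨S.w_inv, ?_, ?_⟩
  · intro h
    apply S.w_notMem
    rw [h]
    exact S.i_mem
  · have h := S.w_inverts S.i S.i_mem
    rw [S.PA7_i] at h
    calc S.w * S.i = (S.w * S.i * S.w) * S.w := by
          rw [mul_assoc (S.w * S.i), S.w_inv.1, mul_one]
      _ = S.i * S.w := by rw [h]

private theorem PA7_wcj (u : G) : (S.w * u)⁻¹ * S.i * (S.w * u) = u⁻¹ * S.i * u := by
  have h := S.w_inverts S.i S.i_mem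
  rw [S.PA7_i] at h
  calc (S.w * u)⁻¹ * S.i * (S.w * u) = u⁻¹ * (S.w⁻¹ * S.i * S.w) * u := by group
    _ = u⁻¹ * S.i * u := by rw [S.PA7_w, h]

/-- translation exchanges the two cases -/
private theorem PA7_exch {u v : G} (hne : u⁻¹ * S.i * u ≠ v⁻¹ * S.i * v)
    (h : ¬ Tor (u⁻¹ * S.i * u) (v⁻¹ * S.i * v)) :
    S.PA7_Q (S.w * u, v) ↔ ¬ S.PA7_Q (u, v) := by
  have hj : IsInv (u⁻¹ * S.i * u) := S.i_inv.cj u
  have hk : IsInv (v⁻¹ * S.i * v) := S.i_inv.cj v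
  obtain ⟨z, ⟨hz1, hz2⟩, huniq⟩ := S.uni_sqrt hj hk hne h (x := (u⁻¹ * S.i * u) * (v⁻¹ * S.i * v))
    (mem_cen.2 rfl)
  have hz3 := S.uni_conj hj hk hne h hz1 hz2
  have e1 : S.PA7_Q (u, v) ↔ u * z * v⁻¹ ∈ S.C := by
    constructor
    · rintro ⟨t, ⟨ht1, ht2⟩, ht3⟩
      have : t = z := huniq t ⟨mem_cen.2 ht1, ht2⟩
      rw [← this]
      exact ht3
    · intro h1
      exact ⟨z, ⟨mem_cen.1 hz1, hz2⟩, h1⟩
  have e2 : S.PA7_Q (S.w * u, v) ↔ S.w * (u * z * v⁻¹) ∈ S.C := by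
    have e3 : S.w * (u * z * v⁻¹) = S.w * u * z * v⁻¹ := by group
    rw [e3]
    constructor
    · rintro ⟨t, ⟨ht1, ht2⟩, ht3⟩
      simp only at ht1 ht2 ht3
      rw [S.PA7_wcj u] at ht1 ht2
      have : t = z := huniq t ⟨mem_cen.2 ht1, ht2⟩
      rw [← this]
      exact ht3
    · intro h1
      refine ⟨z, ⟨?_, ?_⟩, h1⟩
      · simp only
        rw [S.PA7_wcj u]
        exact mem_cen.1 hz1
      · simp only
        rw [S.PA7_wcj u]
        exact hz2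
  rw [e1, e2]
  have hcomm : (u * z * v⁻¹) * S.i = S.i * (u * z * v⁻¹) := by
    have h1 : u * z * (v⁻¹ * S.i * v) = u * z * (z⁻¹ * (u⁻¹ * S.i * u) * z) := by rw [hz3]
    calc (u * z * v⁻¹) * S.i = u * z * (v⁻¹ * S.i * v) * v⁻¹ := by group
      _ = u * z * (z⁻¹ * (u⁻¹ * S.i * u) * z) * v⁻¹ := by rw [h1]
      _ = S.i * (u * z * v⁻¹) := by group
  have hcases := (S.comm_iff S.i_inv).1 hcomm
  rw [S.cl_i] at hcases
  constructor
  · intro h1 h2
    apply S.w_notMem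
    have := S.C.mul_mem h1 (S.C.inv_mem h2)
    rwa [mul_inv_cancel_right] at this
  · intro h1
    have h2 := S.pol_mul_pol S.i_inv S.PA7_w_pol (hcases.resolve_left h1)
    rw [S.cl_i] at h2
    exact h2

private theorem PA7_translate {p : G × G → Prop}
    (h : ∀ᶠ z in gen ((Set.univ : Set G) ×ˢ (Set.univ : Set G)), p z) :
    ∀ᶠ z in gen ((Set.univ : Set G) ×ˢ (Set.univ : Set G)), p (S.w * z.1, z.2) := by
  have hf : DfFun fun z : G × G => (S.w * z.1, z.2) := by fun_prop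
  have hinj : Set.InjOn (fun z : G × G => (S.w * z.1, z.2))
      ((Set.univ : Set G) ×ˢ (Set.univ : Set G)) := by
    rintro ⟨a, b⟩ _ ⟨a', b'⟩ _ h
    obtain ⟨h1, h2⟩ := Prod.mk.inj h
    exact Prod.ext (mul_left_cancel h1) h2
  have himg : (fun z : G × G => (S.w * z.1, z.2)) '' ((Set.univ : Set G) ×ˢ (Set.univ : Set G)) =
      (Set.univ : Set G) ×ˢ (Set.univ : Set G) := by
    rw [Set.univ_prod_univ]
    refine Set.eq_univ_of_forall fun z => ⟨(S.w⁻¹ * z.1, z.2), Set.mem_univ _, ?_⟩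
    simp
  have h1 := ev_inj_iff hf (Df.prod Df.univ Df.univ) hinj (p := p)
  rw [himg] at h1
  exact h1.1 h

private theorem PA7_ev_cj_ne : ∀ᶠ z in gen ((Set.univ : Set G) ×ˢ (Set.univ : Set G)),
    z.1⁻¹ * S.i * z.1 ≠ z.2⁻¹ * S.i * z.2 := by
  have hp : DfP fun z : G × G => z.1⁻¹ * S.i * z.1 ≠ z.2⁻¹ * S.i * z.2 :=
    DfP.not (DfP.eq (by fun_prop) (by fun_prop))
  rw [ev_prod_iff S.irr S.irr (p := fun x y => x⁻¹ * S.i * x ≠ y⁻¹ * S.i * y) hp]
  refine Filter.Eventually.of_forall fun u => ?_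
  have h1 := PA7_ne (df_invs (G := G)) S.PA7_rk_invs_pos (u⁻¹ * S.i * u)
  exact (S.ev_invs_iff (p := fun k => u⁻¹ * S.i * u ≠ k)
    (DfP.not (DfP.eq (by fun_prop) (by fun_prop)))).1 h1

private theorem PA7_tor_df : DfP fun z : G × G => Tor (z.1⁻¹ * S.i * z.1) (z.2⁻¹ * S.i * z.2) :=
  DfP.comp (f := fun z : G × G => (z.1⁻¹ * S.i * z.1, z.2⁻¹ * S.i * z.2))
    (p := fun p : G × G => Tor p.1 p.2) dfP_tor (by fun_prop)

private theorem PA7_tor_gen : ∀ᶠ z in gen ((Set.univ : Set G) ×ˢ (Set.univ : Set G)),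
    Tor (z.1⁻¹ * S.i * z.1) (z.2⁻¹ * S.i * z.2) := by
  have hirr : Irr ((Set.univ : Set G) ×ˢ (Set.univ : Set G)) := S.irr.prod S.irr
  rcases hirr.ev_or S.PA7_tor_df with h | h
  · exact h
  · exfalso
    have hne := S.PA7_ev_cj_ne
    rcases hirr.ev_or S.PA7_Q_df with hQ | hQ
    · obtain ⟨⟨u, v⟩, _, ⟨h1, h2⟩, h3, h4⟩ :=
        ev_exists hirr.ne ((hQ.and (S.PA7_translate hQ)).and (h.and hne))
      exact (S.PA7_exch h4 h3).1 h2 h1
    · obtain ⟨⟨u, v⟩, _, ⟨h1, h2⟩, h3, h4⟩ :=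
        ev_exists hirr.ne ((hQ.and (S.PA7_translate hQ)).and (h.and hne))
      exact h2 ((S.PA7_exch h4 h3).2 h1)

include S in
theorem ev_tor : ∀ᶠ j in gen (invs G), ∀ᶠ k in gen (invs G), j ≠ k ∧ Tor j k := by
  have h1 := (S.PA7_ev_cj_ne.and S.PA7_tor_gen)
  have hp : DfP fun z : G × G => z.1⁻¹ * S.i * z.1 ≠ z.2⁻¹ * S.i * z.2 ∧
      Tor (z.1⁻¹ * S.i * z.1) (z.2⁻¹ * S.i * z.2) :=
    DfP.and (DfP.not (DfP.eq (by fun_prop) (by fun_prop))) S.PA7_tor_df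
  rw [ev_prod_iff S.irr S.irr (p := fun x y => x⁻¹ * S.i * x ≠ y⁻¹ * S.i * y ∧
    Tor (x⁻¹ * S.i * x) (y⁻¹ * S.i * y)) hp] at h1
  have hq : DfP fun z : G × G => z.1 ≠ z.2 ∧ Tor z.1 z.2 :=
    DfP.and (DfP.not (DfP.eq (by fun_prop) (by fun_prop))) dfP_tor
  have hr : DfP fun j : G => ∀ᶠ k in gen (invs G), j ≠ k ∧ Tor j k := by
    have h2 : DfP fun z : G × G => z.2 ∈ invs G := DfP.mem df_invs (by fun_prop)
    exact DfP.ev (q := fun _ k => k ∈ invs G) (p := fun j k : G => j ≠ k ∧ Tor j k) h2 hq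
  rw [S.ev_invs_iff hr]
  filter_upwards [h1] with u hu
  have h3 : DfP fun k : G => u⁻¹ * S.i * u ≠ k ∧ Tor (u⁻¹ * S.i * u) k :=
    Df.section_left (S := {z : G × G | z.1 ≠ z.2 ∧ Tor z.1 z.2}) hq (u⁻¹ * S.i * u)
  exact (S.ev_invs_iff h3).2 hu

private theorem PA7_cj_inj (g : G) : Set.InjOn (fun k : G => g⁻¹ * k * g) (invs G) := by
  intro a _ b _ h
  simp only at h
  exact mul_left_cancel (mul_right_cancel h)

private theorem PA7_cj_img (g : G) : (fun k : G => g⁻¹ * k * g) '' (invs G) = invs G := by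
  ext k
  constructor
  · rintro ⟨j, hj, rfl⟩
    exact IsInv.cj hj g
  · intro hk
    refine ⟨g⁻¹⁻¹ * k * g⁻¹, IsInv.cj hk g⁻¹, ?_⟩
    simp only
    group

include S in
theorem ev_tor_of {j : G} (hj : IsInv j) : ∀ᶠ k in gen (invs G), j ≠ k ∧ Tor j k := by
  obtain ⟨j₀, hj₀, h⟩ := ev_exists S.irr_invs.ne S.ev_tor
  obtain ⟨a, ha⟩ := S.inv_conj j hj
  obtain ⟨b, hb⟩ := S.inv_conj j₀ hj₀
  have hg : j = (b⁻¹ * a)⁻¹ * j₀ * (b⁻¹ * a) := by
    rw [ha, hb]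
    group
  have hf : DfFun fun k : G => (b⁻¹ * a)⁻¹ * k * (b⁻¹ * a) := by fun_prop
  have h1 := ev_inj_iff hf (df_invs (G := G)) (PA7_cj_inj (b⁻¹ * a))
    (p := fun k => j ≠ k ∧ Tor j k)
  rw [PA7_cj_img] at h1
  rw [h1]
  filter_upwards [h] with k hk
  rw [hg, tor_cj]
  refine ⟨fun h0 => hk.1 ?_, hk.2⟩
  exact mul_left_cancel (mul_right_cancel h0)

theorem rk_invs_eq : rk (invs G) = 2 * rk (S.C : Set G) := by
  have hI := S.irr_invs
  set T : Set ((G × G) × G) :=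
    {q | (q.2 ∈ invs G ∧ (q.1.1 ∈ pol q.2 ∧ q.1.2 ∈ pol q.2)) ∧ q.1.1 ≠ q.1.2} with hT
  have hTd : Df T := by
    have h1 : Df (invs G) := df_invs
    have h2 : Df {p : G × G | p.1 ∈ pol p.2} := dfP_mem_pol
    have h3 : DfP fun q : (G × G) × G => q.2 ∈ invs G := DfP.mem h1 (by fun_prop)
    have h4 : DfP fun q : (G × G) × G => q.1.1 ∈ pol q.2 :=
      DfP.comp (f := fun q : (G × G) × G => (q.1.1, q.2)) (p := fun p : G × G => p.1 ∈ pol p.2)
        dfP_mem_pol (by fun_prop)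
    have h5 : DfP fun q : (G × G) × G => q.1.2 ∈ pol q.2 :=
      DfP.comp (f := fun q : (G × G) × G => (q.1.2, q.2)) (p := fun p : G × G => p.1 ∈ pol p.2)
        dfP_mem_pol (by fun_prop)
    exact DfP.and (DfP.and h3 (DfP.and h4 h5)) (DfP.not (DfP.eq (by fun_prop) (by fun_prop)))
  have hdne : DfP fun z : G × G => z.1 ≠ z.2 := DfP.not (DfP.eq (by fun_prop) (by fun_prop))
  -- fibres over the pole
  have hpol : ∀ {l : G}, IsInv l → rk {z : G × G | z ∈ pol l ×ˢ pol l ∧ z.1 ≠ z.2} =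
      2 * rk (S.C : Set G) := by
    intro l hl
    have h1 := S.irr_pol hl
    have h2 := S.rk_pol hl
    have h3 := PA7_ne_prod h1 (by rw [h2]; exact S.rk_C_pos)
    rw [ev_rk (h1.prod h1).df hdne h3, rk_prod h1.df h1.df h1.ne h1.ne, h2]
    ring
  have hpolne : ∀ {l : G}, IsInv l → ∃ z : G × G, z ∈ pol l ×ˢ pol l ∧ z.1 ≠ z.2 := by
    intro l hl
    have h1 := S.irr_pol hl
    have h2 := S.rk_pol hl
    have h3 := PA7_ne_prod h1 (by rw [h2]; exact S.rk_C_pos)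
    obtain ⟨z, hz1, hz2⟩ := ev_exists (h1.prod h1).ne h3
    exact ⟨z, hz1, hz2⟩
  have hTne : T.Nonempty := by
    obtain ⟨z, hz, hz2⟩ := hpolne S.i_inv
    exact ⟨(z, S.i), ⟨S.i_inv, hz.1, hz.2⟩, hz2⟩
  have e1 : rk T = rk (invs G) + 2 * rk (S.C : Set G) := by
    rw [rk_rel_snd hTd hTne (k := 2 * rk (S.C : Set G)) ?_]
    · congr 1
      congr 1
      ext l
      constructor
      · rintro ⟨z, hz⟩
        exact hz.1.1
      · intro hl
        obtain ⟨z, hz, hz2⟩ := hpolne hl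
        exact ⟨z, ⟨hl, hz.1, hz.2⟩, hz2⟩
    · rintro l ⟨z, hz⟩
      have hl : IsInv l := hz.1.1
      rw [← hpol hl]
      congr 1
      ext y
      constructor
      · intro h
        exact ⟨⟨h.1.2.1, h.1.2.2⟩, h.2⟩
      · intro h
        exact ⟨⟨hl, h.1.1, h.1.2⟩, h.2⟩
  have e2 : rk T = rk (invs G) + rk (invs G) := by
    rw [rk_rel_fst hTd hTne (k := 0) ?_]
    · have h1 : ∀ᶠ z in gen (invs G ×ˢ invs G), z.1 ≠ z.2 ∧ Tor z.1 z.2 :=
        (ev_prod_iff hI hI (p := fun j k : G => j ≠ k ∧ Tor j k) (DfP.and hdne dfP_tor)).2 S.ev_tor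
      have h2 := ev_rk (hI.prod hI).df (DfP.and hdne dfP_tor) h1
      rw [rk_prod hI.df hI.df hI.ne hI.ne] at h2
      rw [← h2, add_zero]
      congr 1
      ext z
      constructor
      · rintro ⟨l, hl⟩
        exact ⟨⟨hl.1.2.1.1, hl.1.2.2.1⟩, hl.2, l, hl.1.1, hl.1.2.1, hl.1.2.2⟩
      · rintro ⟨_, hz, l, hl, h3, h4⟩
        exact ⟨l, ⟨hl, h3, h4⟩, hz⟩
    · rintro z ⟨l, hl⟩
      have h1 : {y | (z, y) ∈ T} = {l} := by
        ext y
        constructor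
        · intro hy
          exact S.pole_unique hl.2 hy.1.1 hl.1.1 hy.1.2.1 hy.1.2.2 hl.1.2.1 hl.1.2.2
        · intro hy
          rw [Set.mem_singleton_iff.1 hy]
          exact hl
      rw [h1, rk_singleton]
  omega

theorem rk_univ_eq : rk (Set.univ : Set G) = 3 * rk (S.C : Set G) := by
  have h1 := S.rk_invs
  have h2 := S.rk_invs_eq
  omega

end Setup

end Pool.Agent.A1C
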