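import Pool.Agent.A1C.PA7

/-!
# PB1: the unipotent group `K`, `B = N(K)`, `D = B ∩ C` (Part B of the paper proof)

`(i, k)` is a unipotent pair. Everything here is algebra on top of PA5, PA6.
(b1) `I ∩ B = i K`: an involution normalising `K` inverts `K` (`uni_normalizer`). For `g ∈ B` the involution `g⁻¹ i g` is in `i K`, so
equals `i x²` with `x ∈ K`, i.e. `x⁻¹ i x`, and `g x⁻¹` commutes with `i`, so lies in `C` or in `pol i`; an element of `pol i` in `B` is an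
involution `i x` with `x ∈ K` commuting with `i`, so `x = 1`, impossible.
-/

namespace Pool.Agent.A1C

universe u

/-- a unipotent pair `(i, k)` -/
structure BSetup {M : Type u} [Univ M] (G : Type u) [Group G] [DGrp M G] extends Setup G where
  k : G
  k_inv : IsInv k
  k_ne : k ≠ i
  k_tor : ¬ Tor i k

namespace BSetup

variable {M : Type u} [Univ M] {G : Type u} [Group G] [DGrp M G] (S : BSetup G)

/-- the line group of `(i, k)` -/
def K : Subgroup G := cen (S.i * S.k)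

/-- its normaliser -/
def B : Subgroup G where
  carrier := {g | ∀ x, x ∈ S.K ↔ g * x * g⁻¹ ∈ S.K}
  mul_mem' := by
    intro a b ha hb x
    rw [hb x, ha (b * x * b⁻¹)]
    have h : a * (b * x * b⁻¹) * a⁻¹ = a * b * x * (a * b)⁻¹ := by group
    rw [h]
  one_mem' := by
    intro x
    simp
  inv_mem' := by
    intro a ha x
    rw [ha (a⁻¹ * x * a⁻¹⁻¹)]
    have h : a * (a⁻¹ * x * a⁻¹⁻¹) * a⁻¹ = x := by group
    rw [h]

/-- the complement -/
def D : Subgroup G := S.B ⊓ S.C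

/-- the connected component of `K` -/
noncomputable def K0 : Subgroup G := idc S.K

/-- nontrivial elements of the (connected) `+` line groups at the base point -/
def Q : Set G := {q | ∃ c ∈ S.C, ∃ x ∈ S.K0, x ≠ 1 ∧ q = c⁻¹ * x * c}

/-- `C Q` -/
def W : Set G := {z | ∃ c ∈ S.C, ∃ q ∈ S.Q, z = c * q}

theorem K_lineGrp : S.toSetup.LineGrp S.K := by
  exact Or.inr ⟨S.i, S.k, S.i_inv, S.k_inv, S.k_ne.symm, S.k_tor, rfl⟩

theorem df_K : Df (S.K : Set G) := by
  exact df_cen _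

theorem K_comm {x y : G} (hx : x ∈ S.K) (hy : y ∈ S.K) : x * y = y * x := by
  exact S.toSetup.uni_comm S.i_inv S.k_inv S.k_ne.symm S.k_tor hx hy

theorem K_noInv : NoInv S.K := by
  exact S.toSetup.uni_noInv S.i_inv S.k_inv S.k_ne.symm S.k_tor

theorem i_inverts {x : G} (hx : x ∈ S.K) : S.i * x * S.i = x⁻¹ := by
  exact S.toSetup.uni_inverts S.i_inv S.k_inv S.k_ne.symm S.k_tor hx

theorem K_sqrt {x : G} (hx : x ∈ S.K) : ∃! z, z ∈ S.K ∧ z * z = x := by
  exact S.toSetup.uni_sqrt S.i_inv S.k_inv S.k_ne.symm S.k_tor hx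

theorem ik_mem : S.i * S.k ∈ S.K ∧ S.i * S.k ≠ 1 := by
  refine ⟨mem_cen.2 rfl, fun h => S.k_ne ?_⟩
  exact (mul_left_cancel (S.i_inv.1.trans h.symm)).symm

theorem i_mem_line : S.i ∈ line S.K := by
  exact ⟨S.i_inv, fun x hx => S.i_inverts hx⟩

theorem K_notMem_cl {x l : G} (hx : x ∈ S.K) (hx1 : x ≠ 1) (hl : IsInv l) :
    x ∉ S.toSetup.cl l := by
  exact S.toSetup.uni_notMem_cl S.i_inv S.k_inv S.k_ne.symm S.k_tor hx hx1 hl

theorem K_inf_C {x : G} (hx : x ∈ S.K) (hc : x ∈ S.C) : x = 1 := by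
  by_contra hx1
  apply S.K_notMem_cl hx hx1 S.i_inv
  rw [S.toSetup.cl_i]
  exact hc

theorem K_cen {x : G} (hx : x ∈ S.K) (hx1 : x ≠ 1) : cen x = S.K := by
  exact S.toSetup.uni_cen S.i_inv S.k_inv S.k_ne.symm S.k_tor hx hx1

/-- conjugating one nontrivial element of `K` into `K` suffices -/
theorem mem_B_of {x g : G} (hx : x ∈ S.K) (hx1 : x ≠ 1) (h : g * x * g⁻¹ ∈ S.K) : g ∈ S.B := by
  have h1 : g * x * g⁻¹ ≠ 1 := by
    intro h2
    apply hx1
    have h3 : x = g⁻¹ * (g * x * g⁻¹) * g := by group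
    rw [h3, h2]
    group
  have k1 := S.K_cen hx hx1
  have k2 := S.K_cen h h1
  intro y
  have e3 : y ∈ S.K ↔ y * x = x * y := by rw [← k1, mem_cen]
  have e4 : g * y * g⁻¹ ∈ S.K ↔ g * y * g⁻¹ * (g * x * g⁻¹) = g * x * g⁻¹ * (g * y * g⁻¹) := by
    rw [← k2, mem_cen]
  rw [e3, e4]
  have e1 : g * y * g⁻¹ * (g * x * g⁻¹) = g * (y * x) * g⁻¹ := by group
  have e2 : g * x * g⁻¹ * (g * y * g⁻¹) = g * (x * y) * g⁻¹ := by group
  rw [e1, e2]
  constructor
  · intro h2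
    rw [h2]
  · intro h2
    exact mul_left_cancel (mul_right_cancel h2)

theorem B_conj {g x : G} (hg : g ∈ S.B) (hx : x ∈ S.K) : g * x * g⁻¹ ∈ S.K := by
  exact (hg x).1 hx

theorem B_conj' {g x : G} (hg : g ∈ S.B) (hx : x ∈ S.K) : g⁻¹ * x * g ∈ S.K := by
  have h := S.B_conj (S.B.inv_mem hg) hx
  rwa [inv_inv] at h

theorem df_B : Df (S.B : Set G) := by
  have hK := S.df_K
  change DfP fun g : G => ∀ x, (x ∈ (S.K : Set G) ↔ g * x * g⁻¹ ∈ (S.K : Set G))
  refine DfP.all (DfP.iff (DfP.mem hK ?_) (DfP.mem hK ?_)) <;> fun_prop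

theorem df_D : Df (S.D : Set G) := by
  exact Df.inter S.df_B S.dfC

theorem K_le_B : S.K ≤ S.B := by
  intro g hg x
  constructor
  · intro hx
    exact S.K.mul_mem (S.K.mul_mem hg hx) (S.K.inv_mem hg)
  · intro hx
    have h := S.K.mul_mem (S.K.mul_mem (S.K.inv_mem hg) hx) hg
    have e : g⁻¹ * (g * x * g⁻¹) * g = x := by group
    rwa [e] at h

theorem i_mem_D : S.i ∈ S.D := by
  have hi : S.i⁻¹ = S.i := inv_eq_of_mul_eq_one_left S.i_inv.1
  refine ⟨?_, S.i_mem⟩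
  refine S.mem_B_of S.ik_mem.1 S.ik_mem.2 ?_
  rw [hi, S.i_inverts S.ik_mem.1]
  exact S.K.inv_mem S.ik_mem.1

end BSetup

end Pool.Agent.A1C
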