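import Pool.Agent.A1C.PB1

/-!
# PB2: `B = K D`, free action of `D`, elements of `B \ K` are toral (b1)

`B_toral`: for `d ∈ D \ 1` the map `u ↦ u * (d⁻¹ * u⁻¹ * d)` is an injective endomorphism of the abelian group `K` with definable graph, so its image is a
definable subgroup of the same rank; iterating and DCC (`dcc`) (or: equal rank and the images of images) gives surjectivity. And
`u⁻¹ * d * u = d * (d⁻¹ * u⁻¹ * d) * u`.
-/

namespace Pool.Agent.A1C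

universe u

namespace BSetup

variable {M : Type u} [Univ M] {G : Type u} [Group G] [DGrp M G] (S : BSetup G)

/-- involutions of `B` -/
theorem inv_mem_B {j : G} (hj : IsInv j) (hB : j ∈ S.B) : ∃ x ∈ S.K, j = S.i * x := by
  have hjj : j⁻¹ = j := inv_eq_of_mul_eq_one_left hj.1
  have h := Setup.uni_normalizer S.toSetup S.i_inv S.k_inv S.k_ne.symm S.k_tor hj ?_
  · refine ⟨S.i * j, h.2, ?_⟩
    rw [← mul_assoc, S.i_inv.1, one_mul]
  · intro x hx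
    have h1 := (hB x).1 hx
    rw [hjj] at h1
    exact h1

theorem pol_notMem_B {j : G} (hj : j ∈ pol S.i) : j ∉ S.B := by
  intro hB
  obtain ⟨x, hx, rfl⟩ := S.inv_mem_B hj.1 hB
  have h1 : S.i * x * S.i = x := by
    rw [hj.2.2, ← mul_assoc, S.i_inv.1, one_mul]
  rw [S.i_inverts hx] at h1
  have h2 : x * x = 1 := by
    nth_rewrite 1 [← h1]
    exact inv_mul_cancel x
  have h3 : x = 1 := S.K_noInv x hx h2
  exact hj.2.1 (by rw [h3, mul_one])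

theorem w_notMem_B : S.w ∉ S.B := by
  refine S.pol_notMem_B ⟨S.w_inv, ?_, ?_⟩
  · intro h
    exact S.w_notMem (h ▸ S.i_mem)
  · have h1 := S.w_inverts S.i S.i_mem
    have h2 : S.i⁻¹ = S.i := inv_eq_of_mul_eq_one_left S.i_inv.1
    rw [h2] at h1
    calc S.w * S.i = S.w * S.i * (S.w * S.w) := by rw [S.w_inv.1, mul_one]
      _ = (S.w * S.i * S.w) * S.w := by simp only [mul_assoc]
      _ = S.i * S.w := by rw [h1]

theorem B_decomp {g : G} (hg : g ∈ S.B) : ∃ x ∈ S.K, ∃ d ∈ S.D, g = x * d := by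
  have hi : IsInv (g⁻¹ * S.i * g) := S.i_inv.cj g
  have hiB : S.i ∈ S.B := S.i_mem_D.1
  have hjB : g⁻¹ * S.i * g ∈ S.B := S.B.mul_mem (S.B.mul_mem (S.B.inv_mem hg) hiB) hg
  obtain ⟨y, hy, hjy⟩ := S.inv_mem_B hi hjB
  obtain ⟨z, ⟨hz, hzz⟩, -⟩ := S.K_sqrt hy
  have hiz := S.i_inverts hz
  have hiz' : z * S.i = S.i * z⁻¹ := by
    rw [← hiz]
    calc z * S.i = (S.i * S.i) * (z * S.i) := by rw [S.i_inv.1, one_mul]
      _ = S.i * (S.i * z * S.i) := by simp only [mul_assoc]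
  have h1 : z * (g⁻¹ * S.i * g) = S.i * z := by
    rw [hjy, ← mul_assoc, hiz', ← hzz]
    group
  have hcomm : (g * z⁻¹) * S.i = S.i * (g * z⁻¹) := by
    have h2 : S.i * z = z * (g⁻¹ * S.i * g) := h1.symm
    calc (g * z⁻¹) * S.i = (g * z⁻¹) * (S.i * z) * z⁻¹ := by group
      _ = (g * z⁻¹) * (z * (g⁻¹ * S.i * g)) * z⁻¹ := by rw [h2]
      _ = S.i * (g * z⁻¹) := by group
  have hdB : g * z⁻¹ ∈ S.B := S.B.mul_mem hg (S.B.inv_mem (S.K_le_B hz))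
  rcases (S.toSetup.comm_iff S.i_inv).1 hcomm with h3 | h3
  · rw [S.toSetup.cl_i] at h3
    refine ⟨(g * z⁻¹) * z * (g * z⁻¹)⁻¹, S.B_conj hdB hz, g * z⁻¹, ⟨hdB, h3⟩, ?_⟩
    group
  · exact absurd hdB (S.pol_notMem_B h3)

theorem B_decomp_unique {x x' d d' : G} (hx : x ∈ S.K) (hx' : x' ∈ S.K) (hd : d ∈ S.D)
    (hd' : d' ∈ S.D) (h : x * d = x' * d') : x = x' ∧ d = d' := by
  have h1 : x'⁻¹ * x = d' * d⁻¹ := by
    calc x'⁻¹ * x = x'⁻¹ * (x * d) * d⁻¹ := by group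
      _ = x'⁻¹ * (x' * d') * d⁻¹ := by rw [h]
      _ = d' * d⁻¹ := by group
  have h2 : x'⁻¹ * x = 1 := S.K_inf_C (S.K.mul_mem (S.K.inv_mem hx') hx)
    (by rw [h1]; exact S.C.mul_mem hd'.2 (S.C.inv_mem hd.2))
  have h3 : x' = x := inv_mul_eq_one.1 h2
  refine ⟨h3.symm, ?_⟩
  rw [h3] at h
  exact mul_left_cancel h

theorem D_free {d x : G} (hd : d ∈ S.D) (hd1 : d ≠ 1) (hx : x ∈ S.K) (h : d * x = x * d) :
    x = 1 := by
  by_contra hx1
  have h1 : d ∈ S.K := by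
    rw [← S.K_cen hx hx1]
    exact h
  exact hd1 (S.K_inf_C h1 hd.2)

theorem D_comm {d e : G} (hd : d ∈ S.D) (he : e ∈ S.C) : d * e = e * d := by
  exact S.comm d hd.2 e he

/-- the map of `one_sub_surj` -/
private def pb2f (d u : G) : G := u * (d * u⁻¹ * d⁻¹)

private theorem pb2f_df (d : G) : DfFun (fun u : G => pb2f d u) := by
  unfold pb2f
  fun_prop

private theorem pb2f_iter_df (d : G) (n : ℕ) : DfFun (fun u : G => (pb2f d)^[n] u) := by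
  induction n with
  | zero => exact DfFun.id
  | succ n ih =>
    have h : (fun u : G => (pb2f d)^[n + 1] u) = fun u : G => (pb2f d)^[n] (pb2f d u) := by
      funext u
      rw [Function.iterate_succ_apply]
    rw [h]
    exact DfFun.comp ih (pb2f_df d)

private theorem pb2f_mem {d u : G} (hd : d ∈ S.D) (hu : u ∈ S.K) : pb2f d u ∈ S.K :=
  S.K.mul_mem hu (S.B_conj hd.1 (S.K.inv_mem hu))

private theorem pb2f_mul {d u v : G} (hd : d ∈ S.D) (hu : u ∈ S.K) (hv : v ∈ S.K) :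
    pb2f d (u * v) = pb2f d u * pb2f d v := by
  have h1 : d * u⁻¹ * d⁻¹ ∈ S.K := S.B_conj hd.1 (S.K.inv_mem hu)
  have h2 : d * v⁻¹ * d⁻¹ ∈ S.K := S.B_conj hd.1 (S.K.inv_mem hv)
  unfold pb2f
  have h3 : d * (u * v)⁻¹ * d⁻¹ = (d * v⁻¹ * d⁻¹) * (d * u⁻¹ * d⁻¹) := by group
  rw [h3, S.K_comm h2 h1]
  calc u * v * ((d * u⁻¹ * d⁻¹) * (d * v⁻¹ * d⁻¹))
      = u * (v * (d * u⁻¹ * d⁻¹)) * (d * v⁻¹ * d⁻¹) := by simp only [mul_assoc]
    _ = u * ((d * u⁻¹ * d⁻¹) * v) * (d * v⁻¹ * d⁻¹) := by rw [S.K_comm hv h1]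
    _ = u * (d * u⁻¹ * d⁻¹) * (v * (d * v⁻¹ * d⁻¹)) := by simp only [mul_assoc]

private theorem pb2f_inj {d u v : G} (hd : d ∈ S.D) (hd1 : d ≠ 1) (hu : u ∈ S.K) (hv : v ∈ S.K)
    (h : pb2f d u = pb2f d v) : u = v := by
  have h1 : pb2f d (u * v⁻¹) = 1 := by
    have h2 := S.pb2f_mul hd (S.K.mul_mem hu (S.K.inv_mem hv)) hv
    rw [inv_mul_cancel_right, h] at h2
    exact (mul_eq_right.1 h2.symm)
  have h3 : d * (u * v⁻¹) = (u * v⁻¹) * d := by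
    unfold pb2f at h1
    have h4 : u * v⁻¹ = (d * (u * v⁻¹)⁻¹ * d⁻¹)⁻¹ := eq_inv_of_mul_eq_one_left h1
    calc d * (u * v⁻¹) = (d * (u * v⁻¹)⁻¹ * d⁻¹)⁻¹ * d := by group
      _ = (u * v⁻¹) * d := by rw [← h4]
  exact mul_inv_eq_one.1 (S.D_free hd hd1 (S.K.mul_mem hu (S.K.inv_mem hv)) h3)

private theorem pb2f_iter {d : G} (hd : d ∈ S.D) (hd1 : d ≠ 1) (n : ℕ) :
    (∀ u ∈ S.K, (pb2f d)^[n] u ∈ S.K) ∧
    (∀ u ∈ S.K, ∀ v ∈ S.K, (pb2f d)^[n] (u * v) = (pb2f d)^[n] u * (pb2f d)^[n] v) ∧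
    (∀ u ∈ S.K, ∀ v ∈ S.K, (pb2f d)^[n] u = (pb2f d)^[n] v → u = v) := by
  induction n with
  | zero => exact ⟨fun u hu => hu, fun u _ v _ => rfl, fun u _ v _ h => h⟩
  | succ n ih =>
    obtain ⟨h1, h2, h3⟩ := ih
    refine ⟨fun u hu => ?_, fun u hu v hv => ?_, fun u hu v hv h => ?_⟩
    · rw [Function.iterate_succ_apply]
      exact h1 _ (S.pb2f_mem hd hu)
    · rw [Function.iterate_succ_apply, Function.iterate_succ_apply, Function.iterate_succ_apply,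
        S.pb2f_mul hd hu hv, h2 _ (S.pb2f_mem hd hu) _ (S.pb2f_mem hd hv)]
    · rw [Function.iterate_succ_apply, Function.iterate_succ_apply] at h
      exact S.pb2f_inj hd hd1 hu hv (h3 _ (S.pb2f_mem hd hu) _ (S.pb2f_mem hd hv) h)

/-- the iterated images -/
private def pb2H {d : G} (hd : d ∈ S.D) (hd1 : d ≠ 1) (n : ℕ) : Subgroup G where
  carrier := {z | ∃ u ∈ S.K, z = (pb2f d)^[n] u}
  mul_mem' := by
    rintro _ _ ⟨u, hu, rfl⟩ ⟨v, hv, rfl⟩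
    exact ⟨u * v, S.K.mul_mem hu hv, ((S.pb2f_iter hd hd1 n).2.1 u hu v hv).symm⟩
  one_mem' := by
    refine ⟨1, S.K.one_mem, ?_⟩
    have h := (S.pb2f_iter hd hd1 n).2.1 1 S.K.one_mem 1 S.K.one_mem
    rw [mul_one] at h
    exact (mul_eq_left.1 h.symm).symm
  inv_mem' := by
    rintro _ ⟨u, hu, rfl⟩
    refine ⟨u⁻¹, S.K.inv_mem hu, ?_⟩
    have h := (S.pb2f_iter hd hd1 n).2.1 u hu u⁻¹ (S.K.inv_mem hu)
    have h0 := (S.pb2f_iter hd hd1 n).2.1 1 S.K.one_mem 1 S.K.one_mem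
    rw [mul_one] at h0
    have h1 : (pb2f d)^[n] 1 = 1 := mul_eq_left.1 h0.symm
    rw [mul_inv_cancel, h1] at h
    exact inv_eq_of_mul_eq_one_right h.symm

/-- `u ↦ u * (d u⁻¹ d⁻¹)` is onto `K` for `d ≠ 1` -/
theorem one_sub_surj {d x : G} (hd : d ∈ S.D) (hd1 : d ≠ 1) (hx : x ∈ S.K) :
    ∃ u ∈ S.K, x = u * (d * u⁻¹ * d⁻¹) := by
  obtain ⟨n, hn⟩ := dcc (S.pb2H hd hd1) (fun n => by
      have h := (pb2f_iter_df (M := M) d n).image S.df_K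
      have e : (S.pb2H hd hd1 n : Set G) = (fun u : G => (pb2f d)^[n] u) '' (S.K : Set G) := by
        ext z
        constructor
        · rintro ⟨u, hu, rfl⟩
          exact ⟨u, hu, rfl⟩
        · rintro ⟨u, hu, rfl⟩
          exact ⟨u, hu, rfl⟩
      rw [e]
      exact h)
    (antitone_nat_of_succ_le fun n => by
      rintro _ ⟨u, hu, rfl⟩
      refine ⟨pb2f d u, S.pb2f_mem hd hu, ?_⟩
      rw [Function.iterate_succ_apply])
  have h1 : (pb2f d)^[n] x ∈ S.pb2H hd hd1 (n + 1) := by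
    rw [hn (n + 1) (Nat.le_succ n)]
    exact ⟨x, hx, rfl⟩
  obtain ⟨u, hu, h2⟩ := h1
  rw [Function.iterate_succ_apply] at h2
  exact ⟨u, hu, (S.pb2f_iter hd hd1 n).2.2 x hx _ (S.pb2f_mem hd hu) h2⟩

/-- elements of `B` outside `K` are toral -/
theorem B_toral {g : G} (hg : g ∈ S.B) (hgK : g ∉ S.K) : ∃ l, IsInv l ∧ g ∈ S.toSetup.cl l := by
  obtain ⟨x, hx, d, hd, rfl⟩ := S.B_decomp hg
  have hd1 : d ≠ 1 := by
    rintro rfl
    rw [mul_one] at hgK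
    exact hgK hx
  obtain ⟨u, hu, rfl⟩ := S.one_sub_surj hd hd1 hx
  refine ⟨u⁻¹⁻¹ * S.i * u⁻¹, S.i_inv.cj u⁻¹, ?_⟩
  rw [S.toSetup.cl_eq rfl, mem_cj]
  have h : u⁻¹ * (u * (d * u⁻¹ * d⁻¹) * d) * u⁻¹⁻¹ = d := by group
  rw [h]
  exact hd.2

/-- conjugates of `K` by elements of `C`: equality -/
theorem cj_K_eq_iff {c c' : G} (hc : c ∈ S.C) (hc' : c' ∈ S.C) :
    cj S.K c = cj S.K c' ↔ c * c'⁻¹ ∈ S.D := by
  constructor
  · intro h
    have h1 : c⁻¹ * (S.i * S.k) * c ∈ cj S.K c' := by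
      rw [← h, mem_cj]
      have e : c * (c⁻¹ * (S.i * S.k) * c) * c⁻¹ = S.i * S.k := by group
      rw [e]
      exact S.ik_mem.1
    rw [mem_cj] at h1
    have h2 : (c' * c⁻¹) * (S.i * S.k) * (c' * c⁻¹)⁻¹ ∈ S.K := by
      have e : (c' * c⁻¹) * (S.i * S.k) * (c' * c⁻¹)⁻¹ = c' * (c⁻¹ * (S.i * S.k) * c) * c'⁻¹ := by
        group
      rw [e]
      exact h1
    have h3 := S.mem_B_of S.ik_mem.1 S.ik_mem.2 h2
    have h4 : c * c'⁻¹ = (c' * c⁻¹)⁻¹ := by group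
    refine ⟨?_, S.C.mul_mem hc (S.C.inv_mem hc')⟩
    rw [h4]
    exact S.B.inv_mem h3
  · intro h
    ext y
    rw [mem_cj, mem_cj]
    have h1 := h.1 (c' * y * c'⁻¹)
    have e : c * c'⁻¹ * (c' * y * c'⁻¹) * (c * c'⁻¹)⁻¹ = c * y * c⁻¹ := by group
    rw [e] at h1
    exact h1.symm

/-- the `+` line groups contain `i` on their line -/
theorem i_mem_line_cj {c : G} (hc : c ∈ S.C) : S.i ∈ line (cj S.K c) := by
  have h1 := (Setup.mem_line_cj (L := S.K) (g := c) (j := S.i)).2 S.i_mem_line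
  have h2 : c⁻¹ * S.i * c = S.i := by
    rw [S.comm c⁻¹ (S.C.inv_mem hc) S.i S.i_mem, inv_mul_cancel_right]
  rwa [h2] at h1

theorem lineGrp_cj_K (g : G) : S.toSetup.LineGrp (cj S.K g) := by
  exact Setup.LineGrp.cj S.toSetup S.K_lineGrp g

/-- `K ∩ B^g = 1` for `g ∉ B` -/
theorem K_inf_cj_B {g x : G} (hg : g ∉ S.B) (hx : x ∈ S.K) (h : x ∈ cj S.B g) : x = 1 := by
  by_contra hx1
  rw [mem_cj] at h
  by_cases hK : g * x * g⁻¹ ∈ S.K
  · exact hg (S.mem_B_of hx hx1 hK)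
  · obtain ⟨l, hl, hm⟩ := S.B_toral h hK
    refine S.K_notMem_cl hx hx1 (hl.cj g) ?_
    rw [S.toSetup.cl_cj hl, mem_cj]
    exact hm

end BSetup

end Pool.Agent.A1C
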