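import Pool.Agent.A1C.PB2

/-!
# PB3: ranks of `K` and `D` (b2), (b3)

`rk_K_pos`: otherwise `K` is finite, the conjugacy class of `i k` has rank `rk G` (fibres of conjugation are cosets of `K`), so meets the
union of the conjugates of `C` (`S.cover`, `S.irr`), contradiction to `K_notMem_cl`. `rk_D_pos`: the union of the conjugates of `K \ 1` has rank
`rk G - (rk K + rk D) + rk K` (`rk_union_conj`; `g x g⁻¹ ∈ K` iff `g ∈ B`, `mem_B_of`), the same contradiction.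
-/

namespace Pool.Agent.A1C

universe u

namespace BSetup

variable {M : Type u} [Univ M] {G : Type u} [Group G] [DGrp M G] (S : BSetup G)

theorem rk_B : rk (S.B : Set G) = rk (S.K : Set G) + rk (S.D : Set G) := by
  have h1 : rk ((S.K : Set G) ×ˢ (S.D : Set G)) = rk (S.K : Set G) + rk (S.D : Set G) :=
    rk_prod S.df_K S.df_D ⟨1, S.K.one_mem⟩ ⟨1, S.D.one_mem⟩
  have hf : DfFun (fun p : G × G => p.1 * p.2) := by fun_prop
  have h2 : rk ((fun p : G × G => p.1 * p.2) '' ((S.K : Set G) ×ˢ (S.D : Set G))) =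
      rk ((S.K : Set G) ×ˢ (S.D : Set G)) := by
    refine rk_injOn hf (Df.prod S.df_K S.df_D) ?_
    rintro ⟨x, d⟩ ⟨hx, hd⟩ ⟨x', d'⟩ ⟨hx', hd'⟩ h
    obtain ⟨e1, e2⟩ := S.B_decomp_unique hx hx' hd hd' h
    exact Prod.ext e1 e2
  have h3 : (fun p : G × G => p.1 * p.2) '' ((S.K : Set G) ×ˢ (S.D : Set G)) = (S.B : Set G) := by
    ext g
    constructor
    · rintro ⟨⟨x, d⟩, ⟨hx, hd⟩, rfl⟩
      exact S.B.mul_mem (S.K_le_B hx) hd.1
    · intro hg
      obtain ⟨x, hx, d, hd, rfl⟩ := S.B_decomp hg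
      exact ⟨(x, d), ⟨hx, hd⟩, rfl⟩
  rw [← h3, h2, h1]

private theorem pb3_contra {E : Set G} (hE : Df E) (hne : E.Nonempty)
    (hsub : ∀ y ∈ E, ∃ g, ∃ x ∈ S.K, x ≠ 1 ∧ y = g⁻¹ * x * g)
    (hr : rk (Set.univ : Set G) ≤ rk E) : False := by
  have hC : Df {y : G | ∃ g, ∃ x ∈ S.C, y = g⁻¹ * x * g} := by
    have hdC := S.dfC
    have h : DfP (fun y : G => ∃ g : G, ∃ x : G, x ∈ S.C ∧ y = g⁻¹ * x * g) := by
      repeat' first
        | assumption
        | fun_prop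
        | apply DfP.and
        | apply DfP.ex
        | apply DfP.eq
        | (apply DfP.mem; assumption)
    exact h
  have h1 : ¬ Small E (Set.univ : Set G) := by
    rintro (h | h)
    · exact hne.ne_empty h
    · exact absurd h (not_lt.2 hr)
  have h2 : ¬ Small {y : G | ∃ g, ∃ x ∈ S.C, y = g⁻¹ * x * g} (Set.univ : Set G) := by
    rintro (h | h)
    · have : (1 : G) ∈ {y : G | ∃ g, ∃ x ∈ S.C, y = g⁻¹ * x * g} := ⟨1, 1, S.C.one_mem, by simp⟩
      rw [h] at this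
      exact this
    · rw [S.cover] at h
      exact absurd h (lt_irrefl _)
  obtain ⟨y, hy, g', x', hx', hy'⟩ := S.irr.inter_nonempty hE hC (Set.subset_univ _)
    (Set.subset_univ _) h1 h2
  obtain ⟨g, x, hx, hx1, rfl⟩ := hsub y hy
  refine S.K_notMem_cl hx hx1 (S.i_inv.cj (g' * g⁻¹)) ?_
  rw [S.toSetup.cl_eq rfl, mem_cj]
  have e : g' * g⁻¹ * x * (g' * g⁻¹)⁻¹ = g' * (g⁻¹ * x * g) * g'⁻¹ := by group
  rw [e, hy']
  have e2 : g' * (g'⁻¹ * x' * g') * g'⁻¹ = x' := by group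
  rw [e2]
  exact hx'

theorem rk_K_pos : 0 < rk (S.K : Set G) := by
  by_contra h0
  have h0' : rk (S.K : Set G) = 0 := Nat.eq_zero_of_not_pos h0
  have hV : Df ({S.i * S.k} : Set G) := Df.singleton _
  have h1 := rk_union_conj hV ⟨_, rfl⟩ (k := 0) (by
    rintro v rfl
    have e : {g : G | g * (S.i * S.k) * g⁻¹ ∈ ({S.i * S.k} : Set G)} = (S.K : Set G) := by
      ext g
      show g * (S.i * S.k) * g⁻¹ = S.i * S.k ↔ g * (S.i * S.k) = (S.i * S.k) * g
      exact mul_inv_eq_iff_eq_mul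
    rw [e, h0'])
  rw [rk_singleton, add_zero, add_zero] at h1
  refine S.pb3_contra ?_ ?_ ?_ h1
  · have h : DfP (fun y : G => ∃ g : G, ∃ v : G, v ∈ ({S.i * S.k} : Set G) ∧ y = g⁻¹ * v * g) := by
      refine DfP.ex (DfP.ex (DfP.and ?_ ?_))
      · exact DfP.mem hV (by fun_prop)
      · exact DfP.eq (by fun_prop) (by fun_prop)
    exact h
  · exact ⟨S.i * S.k, 1, S.i * S.k, rfl, by simp⟩
  · rintro y ⟨g, v, rfl, rfl⟩
    exact ⟨g, S.i * S.k, S.ik_mem.1, S.ik_mem.2, rfl⟩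

theorem rk_D_pos : 0 < rk (S.D : Set G) := by
  by_contra h0
  have h0' : rk (S.D : Set G) = 0 := Nat.eq_zero_of_not_pos h0
  have hV : Df ((S.K : Set G) \ {1}) := S.df_K.diff (Df.singleton _)
  have hrV : rk ((S.K : Set G) \ {1}) = rk (S.K : Set G) := by
    have h1 : rk (((S.K : Set G) \ {1}) ∪ {1}) = rk (S.K : Set G) := by
      congr 1
      ext x
      simp only [Set.mem_union, Set.mem_sdiff, Set.mem_singleton_iff]
      constructor
      · rintro (h | rfl)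
        · exact h.1
        · exact S.K.one_mem
      · intro h
        by_cases hx : x = 1
        · exact Or.inr hx
        · exact Or.inl ⟨h, hx⟩
    rw [rk_union hV (Df.singleton _), rk_singleton] at h1
    simpa using h1
  have h1 := rk_union_conj hV ⟨S.i * S.k, S.ik_mem.1, S.ik_mem.2⟩ (k := rk (S.K : Set G)) (by
    rintro v ⟨hv, hv1⟩
    have e : {g : G | g * v * g⁻¹ ∈ (S.K : Set G) \ {1}} = (S.B : Set G) := by
      ext g
      constructor
      · rintro ⟨h, -⟩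
        exact S.mem_B_of hv hv1 h
      · intro hg
        refine ⟨S.B_conj hg hv, ?_⟩
        intro h
        have h2 : g * v * g⁻¹ = 1 := h
        have h3 : v = 1 := by
          have h4 := mul_inv_eq_one.1 h2
          exact mul_eq_left.1 h4
        exact hv1 h3
    rw [e, S.rk_B, h0', add_zero])
  rw [hrV] at h1
  have h2 : rk (Set.univ : Set G) ≤
      rk {y : G | ∃ g, ∃ v ∈ (S.K : Set G) \ {1}, y = g⁻¹ * v * g} := Nat.le_of_add_le_add_right h1
  refine S.pb3_contra ?_ ?_ ?_ h2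
  · have h : DfP (fun y : G => ∃ g : G, ∃ v : G, v ∈ (S.K : Set G) \ {1} ∧ y = g⁻¹ * v * g) := by
      refine DfP.ex (DfP.ex (DfP.and ?_ ?_))
      · exact DfP.mem hV (by fun_prop)
      · exact DfP.eq (by fun_prop) (by fun_prop)
    exact h
  · exact ⟨S.i * S.k, 1, S.i * S.k, ⟨S.ik_mem.1, S.ik_mem.2⟩, by simp⟩
  · rintro y ⟨g, v, ⟨hv, hv1⟩, rfl⟩
    exact ⟨g, v, hv, hv1, rfl⟩

theorem K0_conn : Conn S.K0 := by
  exact idc_conn S.df_K

theorem K0_le : S.K0 ≤ S.K := by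
  exact idc_le S.K

theorem rk_K0 : rk (S.K0 : Set G) = rk (S.K : Set G) := by
  exact idc_rk S.df_K

theorem K0_exists_ne : ∃ x ∈ S.K0, x ≠ 1 := by
  by_contra h
  push Not at h
  have h1 : (S.K0 : Set G).Finite := (Set.finite_singleton (1 : G)).subset fun x hx => h x hx
  have h2 := (rk_eq_zero_iff S.K0_conn.1).2 h1
  have h3 := S.rk_K_pos
  rw [← S.rk_K0] at h3
  omega

theorem D_conj_K0 {d x : G} (hd : d ∈ S.D) (hx : x ∈ S.K0) : d * x * d⁻¹ ∈ S.K0 := by
  exact idc_normal S.df_K (g := d) (fun x => hd.1 x) hx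

theorem D_conj_K0' {d x : G} (hd : d ∈ S.D) (hx : x ∈ S.K0) : d⁻¹ * x * d ∈ S.K0 := by
  have h1 := idc_normal S.df_K (g := d⁻¹) (fun x => (S.D.inv_mem hd).1 x) hx
  rwa [inv_inv] at h1

theorem K0_sqrt {x : G} (hx : x ∈ S.K0) : ∃ z ∈ S.K0, z * z = x := by
  refine Conn.sq S.K0_conn (fun x hx y hy => S.K_comm (S.K0_le hx) (S.K0_le hy)) ?_ hx
  refine (Set.finite_singleton (1 : G)).subset ?_
  rintro x ⟨hx, hxx⟩
  exact S.K_noInv x (S.K0_le hx) hxx

theorem rk_D_le : rk (S.D : Set G) ≤ rk (S.K : Set G) := by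
  have hf : DfFun (fun d : G => d * (S.i * S.k) * d⁻¹) := by fun_prop
  have h1 : rk ((fun d : G => d * (S.i * S.k) * d⁻¹) '' (S.D : Set G)) = rk (S.D : Set G) := by
    refine rk_injOn hf S.df_D ?_
    intro d hd e he h
    have h' : d * (S.i * S.k) * d⁻¹ = e * (S.i * S.k) * e⁻¹ := h
    by_contra hne
    have h2 : (e⁻¹ * d) * (S.i * S.k) = (S.i * S.k) * (e⁻¹ * d) := by
      calc (e⁻¹ * d) * (S.i * S.k) = e⁻¹ * (d * (S.i * S.k) * d⁻¹) * d := by group
        _ = e⁻¹ * (e * (S.i * S.k) * e⁻¹) * d := by rw [h']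
        _ = (S.i * S.k) * (e⁻¹ * d) := by group
    have h3 : e⁻¹ * d ≠ 1 := fun h4 => hne (inv_mul_eq_one.1 h4).symm
    exact S.ik_mem.2 (S.D_free (S.D.mul_mem (S.D.inv_mem he) hd) h3 S.ik_mem.1 h2)
  rw [← h1]
  refine rk_mono (hf.image S.df_D) S.df_K ?_
  rintro _ ⟨d, hd, rfl⟩
  exact S.B_conj hd.1 S.ik_mem.1

end BSetup

end Pool.Agent.A1C
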