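import Pool.Agent.A1C.PB3

/-!
# PB4: the sets `Q` and `W = C Q` (b4)

`Q` is the image of `C × (K0 \ 1)` under `(c, x) ↦ c⁻¹ x c`; over `q` the fibre is `{(d c, d x d⁻¹) : d ∈ D}`, of rank `rk D`.
`Q_sq_inj`: `q² = q'² ≠ 1` lies in two line groups, so they are equal, and square roots in a line group `K^c` are unique.
`W`: the map `C × Q → W`, `(c, q) ↦ c q` is injective (`z⁻¹ i z = i q²` for `z = c q`, `Q_sq_inj`).
-/

namespace Pool.Agent.A1C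

universe u

namespace BSetup

variable {M : Type u} [Univ M] {G : Type u} [Group G] [DGrp M G] (S : BSetup G)

open Filter

private theorem pb4_ne {x c : G} (h : x ≠ 1) : c⁻¹ * x * c ≠ 1 := by
  intro h1
  apply h
  have h2 : x = c * (c⁻¹ * x * c) * c⁻¹ := by group
  rw [h2, h1]
  group

private theorem pb4_back (x c : G) : c * (c⁻¹ * x * c) * c⁻¹ = x := by group

/-- an element of `Q` lies in a line group `c⁻¹ K c` -/
theorem Q_spec {q : G} (hq : q ∈ S.Q) : ∃ c ∈ S.C, q ∈ cj S.K c ∧ q ≠ 1 := by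
  obtain ⟨c, hc, x, hx, hx1, rfl⟩ := hq
  refine ⟨c, hc, ?_, pb4_ne hx1⟩
  rw [mem_cj, pb4_back]
  exact S.K0_le hx

theorem Q_ne_one {q : G} (hq : q ∈ S.Q) : q ≠ 1 := by
  obtain ⟨_, _, _, h⟩ := S.Q_spec hq
  exact h

private theorem pb4_notMem {c y l : G} (hy : y ∈ cj S.K c) (hy1 : y ≠ 1) (hl : IsInv l) :
    y ∉ S.toSetup.cl l := by
  intro h
  have h1 : c * y * c⁻¹ ∈ S.toSetup.cl (c⁻¹⁻¹ * l * c⁻¹) := by
    rw [S.toSetup.cl_cj hl, mem_cj]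
    have h2 : c⁻¹ * (c * y * c⁻¹) * c⁻¹⁻¹ = y := by group
    rw [h2]
    exact h
  refine S.K_notMem_cl (mem_cj.1 hy) ?_ (hl.cj c⁻¹) h1
  intro h3
  apply hy1
  have h4 : y = c⁻¹ * (c * y * c⁻¹) * c := by group
  rw [h4, h3]
  group

theorem Q_notMem_cl {q l : G} (hq : q ∈ S.Q) (hl : IsInv l) : q ∉ S.toSetup.cl l := by
  obtain ⟨_, _, h1, h2⟩ := S.Q_spec hq
  exact S.pb4_notMem h1 h2 hl

theorem Q_inv {q : G} (hq : q ∈ S.Q) : q⁻¹ ∈ S.Q := by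
  obtain ⟨c, hc, x, hx, hx1, rfl⟩ := hq
  exact ⟨c, hc, x⁻¹, S.K0.inv_mem hx, inv_ne_one.2 hx1, by group⟩

theorem Q_cj {q c : G} (hq : q ∈ S.Q) (hc : c ∈ S.C) : c⁻¹ * q * c ∈ S.Q := by
  obtain ⟨c', hc', x, hx, hx1, rfl⟩ := hq
  exact ⟨c' * c, S.C.mul_mem hc' hc, x, hx, hx1, by group⟩

theorem Q_i {q : G} (hq : q ∈ S.Q) : S.i * q * S.i = q⁻¹ := by
  obtain ⟨c, hc, h, _⟩ := S.Q_spec hq
  exact (S.i_mem_line_cj hc).2 q h

private theorem pb4_sq {c y : G} (hy : y ∈ cj S.K c) (h : y * y = 1) : y = 1 := by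
  have h1 := S.K_noInv _ (mem_cj.1 hy) (by
    have : c * y * c⁻¹ * (c * y * c⁻¹) = c * (y * y) * c⁻¹ := by group
    rw [this, h]
    group)
  have h4 : y = c⁻¹ * (c * y * c⁻¹) * c := by group
  rw [h4, h1]
  group

theorem Q_sq_ne {q : G} (hq : q ∈ S.Q) : q * q ≠ 1 := by
  obtain ⟨c, _, h, h1⟩ := S.Q_spec hq
  exact fun h2 => h1 (S.pb4_sq h h2)

theorem Q_sq_inj {q q' : G} (hq : q ∈ S.Q) (hq' : q' ∈ S.Q) (h : q * q = q' * q') : q = q' := by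
  obtain ⟨c, hc, h1, h2⟩ := S.Q_spec hq
  obtain ⟨c', hc', h1', h2'⟩ := S.Q_spec hq'
  have h3 : cj S.K c = cj S.K c' := by
    refine Setup.LineGrp.eq_of_mem S.toSetup (S.lineGrp_cj_K c) (S.lineGrp_cj_K c')
      ((cj S.K c).mul_mem h1 h1) ?_ (S.Q_sq_ne hq)
    rw [h]
    exact (cj S.K c').mul_mem h1' h1'
  rw [← h3] at h1'
  have h4 := Setup.LineGrp.comm S.toSetup (S.lineGrp_cj_K c) h1 ((cj S.K c).inv_mem h1')
  have h5 : q * q'⁻¹ * (q * q'⁻¹) = 1 := by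
    calc q * q'⁻¹ * (q * q'⁻¹) = (q * q'⁻¹) * q * q'⁻¹ := by group
      _ = (q'⁻¹ * q) * q * q'⁻¹ := by rw [h4]
      _ = q'⁻¹ * (q * q) * q'⁻¹ := by group
      _ = q'⁻¹ * (q' * q') * q'⁻¹ := by rw [h]
      _ = 1 := by group
  have h6 := S.pb4_sq ((cj S.K c).mul_mem h1 ((cj S.K c).inv_mem h1')) h5
  exact mul_inv_eq_one.1 h6

private theorem pb4_dfK0 : Df (S.K0 : Set G) := S.K0_conn.1

theorem df_Q : Df S.Q := by
  have h1 := S.dfC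
  have h2 := S.pb4_dfK0
  show DfP fun q : G => ∃ c, c ∈ (S.C : Set G) ∧ ∃ x, x ∈ (S.K0 : Set G) ∧ ((¬ x = 1) ∧ q = c⁻¹ * x * c)
  repeat' first | assumption | fun_prop | apply DfP.and | apply DfP.or | apply DfP.not | apply DfP.iff | apply DfP.ex | apply DfP.all | apply DfP.eq | (apply DfP.mem; assumption) | apply DfP.imp | exact DfP.const _

private theorem pb4_K0' : Irr ((S.K0 : Set G) \ {1}) ∧
    rk ((S.K0 : Set G) \ {1}) = rk (S.K : Set G) ∧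
    gen ((S.K0 : Set G) \ {1}) = gen (S.K0 : Set G) := by
  have h0 : Irr (S.K0 : Set G) := (conn_iff_irr S.pb4_dfK0).1 S.K0_conn
  have h1 : Df ((S.K0 : Set G) \ {1}) := S.pb4_dfK0.diff (Df.singleton 1)
  have h2 : ((S.K0 : Set G) \ {1}).Nonempty := by
    obtain ⟨x, hx, hx1⟩ := S.K0_exists_ne
    exact ⟨x, hx, hx1⟩
  have h3 : rk ((S.K0 : Set G) \ {1}) = rk (S.K0 : Set G) := by
    have h4 := rk_union h1 (Df.singleton (1 : G))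
    have h5 : (S.K0 : Set G) \ {1} ∪ {1} = (S.K0 : Set G) := by
      rw [Set.sdiff_union_self]
      exact Set.union_eq_left.2 (Set.singleton_subset_iff.2 S.K0.one_mem)
    rw [h5, rk_singleton] at h4
    omega
  refine ⟨h0.of_subset h1 Set.sdiff_subset h2 h3, h3.trans S.rk_K0, ?_⟩
  exact gen_eq_of_rk_eq h0 h1 Set.sdiff_subset h2 h3

private theorem pb4_fun : DfFun (fun z : G × G => z.1⁻¹ * z.2 * z.1) := by fun_prop

private theorem pb4_img : (fun z : G × G => z.1⁻¹ * z.2 * z.1) ''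
    ((S.C : Set G) ×ˢ ((S.K0 : Set G) \ {1})) = S.Q := by
  ext q
  constructor
  · rintro ⟨⟨c, x⟩, ⟨hc, hx, hx1⟩, rfl⟩
    exact ⟨c, hc, x, hx, hx1, rfl⟩
  · rintro ⟨c, hc, x, hx, hx1, rfl⟩
    exact ⟨(c, x), ⟨hc, hx, hx1⟩, rfl⟩

private theorem pb4_irr : Irr ((S.C : Set G) ×ˢ ((S.K0 : Set G) \ {1})) :=
  S.irrC.prod S.pb4_K0'.1

private theorem pb4_dfD : Df (S.D : Set G) := S.df_D

private theorem pb4_fib : ∀ y ∈ (fun z : G × G => z.1⁻¹ * z.2 * z.1) ''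
    ((S.C : Set G) ×ˢ ((S.K0 : Set G) \ {1})),
    rk (((S.C : Set G) ×ˢ ((S.K0 : Set G) \ {1})) ∩
      (fun z : G × G => z.1⁻¹ * z.2 * z.1) ⁻¹' {y}) = rk (S.D : Set G) := by
  rintro _ ⟨⟨c₀, x₀⟩, ⟨hc₀, hx₀, hx₀1⟩, rfl⟩
  have hc₀' : c₀ ∈ S.C := hc₀
  have hx₀' : x₀ ∈ S.K0 := hx₀
  have hx₀1' : x₀ ≠ 1 := hx₀1
  have himg : ((S.C : Set G) ×ˢ ((S.K0 : Set G) \ {1})) ∩
      (fun z : G × G => z.1⁻¹ * z.2 * z.1) ⁻¹' {(fun z : G × G => z.1⁻¹ * z.2 * z.1) (c₀, x₀)} =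
      (fun d : G => (d * c₀, d * x₀ * d⁻¹)) '' (S.D : Set G) := by
    ext ⟨c, x⟩
    constructor
    · rintro ⟨⟨hc, hx, hx1⟩, h⟩
      have hc' : c ∈ S.C := hc
      have hx' : x ∈ S.K0 := hx
      have h' : c⁻¹ * x * c = c₀⁻¹ * x₀ * c₀ := h
      have h1 : (c * c₀⁻¹) * x₀ * (c * c₀⁻¹)⁻¹ = x := by
        calc (c * c₀⁻¹) * x₀ * (c * c₀⁻¹)⁻¹ = c * (c₀⁻¹ * x₀ * c₀) * c⁻¹ := by group
          _ = c * (c⁻¹ * x * c) * c⁻¹ := by rw [h']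
          _ = x := by group
      refine ⟨c * c₀⁻¹, ?_, ?_⟩
      · refine ⟨S.mem_B_of (S.K0_le hx₀') hx₀1' ?_, S.C.mul_mem hc' (S.C.inv_mem hc₀')⟩
        rw [h1]
        exact S.K0_le hx'
      · show (c * c₀⁻¹ * c₀, (c * c₀⁻¹) * x₀ * (c * c₀⁻¹)⁻¹) = (c, x)
        rw [h1, inv_mul_cancel_right]
    · rintro ⟨d, hd, h⟩
      have hd' : d ∈ S.D := hd
      obtain ⟨rfl, rfl⟩ := Prod.mk.inj h
      refine ⟨⟨S.C.mul_mem hd'.2 hc₀', S.D_conj_K0 hd' hx₀', ?_⟩, ?_⟩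
      · intro h1
        have h1' : d * x₀ * d⁻¹ = 1 := h1
        apply hx₀1'
        have h2 : x₀ = d⁻¹ * (d * x₀ * d⁻¹) * d := by group
        rw [h2, h1']
        group
      · show (d * c₀)⁻¹ * (d * x₀ * d⁻¹) * (d * c₀) = c₀⁻¹ * x₀ * c₀
        group
  rw [himg]
  refine rk_injOn (by fun_prop) S.df_D ?_
  intro d _ d' _ h
  exact mul_right_cancel (Prod.mk.inj h).1

theorem irr_Q : Irr S.Q := by
  rw [← S.pb4_img]
  exact irr_image pb4_fun S.pb4_irr S.pb4_fib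

theorem rk_Q : rk S.Q + rk (S.D : Set G) = rk (S.K : Set G) + rk (S.C : Set G) := by
  rw [← S.pb4_img, ← rk_eq_add pb4_fun S.pb4_irr.df S.pb4_irr.ne S.pb4_fib,
    rk_prod S.dfC S.pb4_K0'.1.df S.irrC.ne S.pb4_K0'.1.ne, S.pb4_K0'.2.1, add_comm]

theorem ev_Q_iff {p : G → Prop} (hp : DfP p) :
    (∀ᶠ q in gen S.Q, p q) ↔
      ∀ᶠ c in gen (S.C : Set G), ∀ᶠ x in gen (S.K0 : Set G), p (c⁻¹ * x * c) := by
  rw [← S.pb4_K0'.2.2, ← S.pb4_img, ev_image_iff pb4_fun S.pb4_irr S.pb4_fib hp]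
  exact ev_prod_iff S.irrC S.pb4_K0'.1 (p := fun c x => p (c⁻¹ * x * c)) (DfP.comp hp pb4_fun)

private theorem pb4_Wi {c q : G} (hc : c ∈ S.C) (hq : q ∈ S.Q) :
    (c * q)⁻¹ * S.i * (c * q) = S.i * (q * q) := by
  have h1 : S.i * c = c * S.i := S.comm _ S.i_mem _ hc
  have h2 := S.Q_i (S.Q_inv hq)
  rw [inv_inv] at h2
  calc (c * q)⁻¹ * S.i * (c * q) = q⁻¹ * c⁻¹ * (S.i * c) * q := by group
    _ = q⁻¹ * c⁻¹ * (c * S.i) * q := by rw [h1]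
    _ = (S.i * S.i) * q⁻¹ * S.i * q := by rw [S.i_inv.1]; group
    _ = S.i * (S.i * q⁻¹ * S.i) * q := by group
    _ = S.i * (q * q) := by rw [h2]; group

theorem W_cj {z : G} (hz : z ∈ S.W) : ∃ c ∈ S.C, ∃ q ∈ S.Q, z = c * q ∧
    z⁻¹ * S.i * z = S.i * (q * q) := by
  obtain ⟨c, hc, q, hq, rfl⟩ := hz
  exact ⟨c, hc, q, hq, rfl, S.pb4_Wi hc hq⟩

theorem C_mul_W {c z : G} (hc : c ∈ S.C) (hz : z ∈ S.W) : c * z ∈ S.W := by
  obtain ⟨c', hc', q, hq, rfl⟩ := hz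
  exact ⟨c * c', S.C.mul_mem hc hc', q, hq, by group⟩

theorem W_mul_C {c z : G} (hc : c ∈ S.C) (hz : z ∈ S.W) : z * c ∈ S.W := by
  obtain ⟨c', hc', q, hq, rfl⟩ := hz
  exact ⟨c' * c, S.C.mul_mem hc' hc, c⁻¹ * q * c, S.Q_cj hq hc, by group⟩

theorem W_inv {z : G} (hz : z ∈ S.W) : z⁻¹ ∈ S.W := by
  obtain ⟨c, hc, q, hq, rfl⟩ := hz
  exact ⟨c⁻¹, S.C.inv_mem hc, c⁻¹⁻¹ * q⁻¹ * c⁻¹, S.Q_cj (S.Q_inv hq) (S.C.inv_mem hc), by group⟩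

theorem Q_subset_W {q : G} (hq : q ∈ S.Q) : q ∈ S.W :=
  ⟨1, S.C.one_mem, q, hq, (one_mul q).symm⟩

/-- `i` and its conjugate by an element of `W` are different and not toral -/
theorem W_not_tor {z : G} (hz : z ∈ S.W) :
    z⁻¹ * S.i * z ≠ S.i ∧ ¬ Tor S.i (z⁻¹ * S.i * z) := by
  obtain ⟨c, hc, q, hq, hz1, hz2⟩ := S.W_cj hz
  have hne : z⁻¹ * S.i * z ≠ S.i := by
    rw [hz2]
    intro h
    exact S.Q_sq_ne hq (mul_eq_left.1 h)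
  refine ⟨hne, fun ht => ?_⟩
  obtain ⟨l, hl, hm⟩ := (S.toSetup.tor_iff S.i_inv (S.i_inv.cj z) hne.symm).1 ht
  rw [hz2, ← mul_assoc, S.i_inv.1, one_mul] at hm
  obtain ⟨c', hc', h1, h2⟩ := S.Q_spec hq
  exact S.pb4_notMem ((cj S.K c').mul_mem h1 h1) (S.Q_sq_ne hq) hl hm

theorem df_W : Df S.W := df_setmul S.dfC S.df_Q

private theorem pb4_imgW : (fun z : G × G => z.1 * z.2) '' ((S.C : Set G) ×ˢ S.Q) = S.W := by
  ext z
  constructor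
  · rintro ⟨⟨c, q⟩, ⟨hc, hq⟩, rfl⟩
    exact ⟨c, hc, q, hq, rfl⟩
  · rintro ⟨c, hc, q, hq, rfl⟩
    exact ⟨(c, q), ⟨hc, hq⟩, rfl⟩

private theorem pb4_funW : DfFun (fun z : G × G => z.1 * z.2) := by fun_prop

private theorem pb4_injW : Set.InjOn (fun z : G × G => z.1 * z.2) ((S.C : Set G) ×ˢ S.Q) := by
  rintro ⟨c, q⟩ ⟨hc, hq⟩ ⟨c', q'⟩ ⟨hc', hq'⟩ h
  have h0 : c * q = c' * q' := h
  have h1 : S.i * (q * q) = S.i * (q' * q') := by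
    rw [← S.pb4_Wi hc hq, ← S.pb4_Wi hc' hq', h0]
  have h2 : q = q' := S.Q_sq_inj hq hq' (mul_left_cancel h1)
  subst h2
  rw [mul_right_cancel h0]

theorem irr_W : Irr S.W := by
  rw [← S.pb4_imgW]
  exact irr_of_inj pb4_funW (S.irrC.prod S.irr_Q) S.pb4_injW

theorem rk_W : rk S.W = rk S.Q + rk (S.C : Set G) := by
  rw [← S.pb4_imgW, rk_injOn pb4_funW (S.irrC.prod S.irr_Q).df S.pb4_injW,
    rk_prod S.dfC S.df_Q S.irrC.ne S.irr_Q.ne, add_comm]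

theorem ev_W_iff {p : G → Prop} (hp : DfP p) :
    (∀ᶠ z in gen S.W, p z) ↔ ∀ᶠ c in gen (S.C : Set G), ∀ᶠ q in gen S.Q, p (c * q) := by
  rw [← S.pb4_imgW, ev_inj_iff pb4_funW (S.irrC.prod S.irr_Q).df S.pb4_injW]
  exact ev_prod_iff S.irrC S.irr_Q (p := fun c q => p (c * q)) (DfP.comp hp pb4_funW)

end BSetup

end Pool.Agent.A1C
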