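import Pool.Agent.A1C.PB4

/-!
# PB5: the elements `rho` (b5), (b6), (b7)

Oriented points are cosets `C h`; `E h d = h⁻¹ d h` is `E_b(d)` for `b = C h`. `C x` and `C h` are neighbours iff `x h⁻¹ ∈ W`.
`rho x y e = E_{a0}(e) E_{a2}(e)⁻¹` for `a0 = C x`, `a2 = C y`.
(b6) at the base point: `x = c₁ q₁`, `y = c₂ q₂`, `rho x y e = (q₁⁻¹ (e q₁ e⁻¹)) ((e q₂ e⁻¹)⁻¹ q₂)`, and for `q ∈ Q`, `q ∈ L = c⁻¹ K c`:
`e q e⁻¹ ∈ L`, `L` is abelian, `i` inverts `L`. With `d = i e⁻¹`: `d (q⁻¹ (e q e⁻¹)) d⁻¹ = q⁻¹ (e⁻¹ q e)`. In general conjugate by `h`.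
-/

namespace Pool.Agent.A1C

universe u

/-- `E_b(d)` for `b = C h` -/
def E {G : Type u} [Group G] (h d : G) : G := h⁻¹ * d * h

/-- `E_{a0}(e) E_{a2}(e)⁻¹` for `a0 = C x`, `a2 = C y` -/
def rho {G : Type u} [Group G] (x y e : G) : G := (x⁻¹ * e * x) * (y⁻¹ * e⁻¹ * y)

namespace BSetup

variable {M : Type u} [Univ M] {G : Type u} [Group G] [DGrp M G] (S : BSetup G)

private theorem pb5_cj_comm {c x y : G} (hx : x ∈ cj S.K c) (hy : y ∈ cj S.K c) :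
    x * y = y * x := by
  rw [mem_cj] at hx hy
  have h := S.K_comm hx hy
  have h1 : c * (x * y) * c⁻¹ = c * (y * x) * c⁻¹ := by
    calc c * (x * y) * c⁻¹ = (c * x * c⁻¹) * (c * y * c⁻¹) := by group
      _ = (c * y * c⁻¹) * (c * x * c⁻¹) := h
      _ = c * (y * x) * c⁻¹ := by group
  exact mul_left_cancel (mul_right_cancel h1)

private theorem pb5_i_inv {c x : G} (hc : c ∈ S.C) (hx : x ∈ cj S.K c) :
    S.i * x * S.i = x⁻¹ := (S.i_mem_line_cj hc).2 x hx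

private theorem pb5_D_cj_mem' {c d x : G} (hc : c ∈ S.C) (hd : d ∈ S.D) (hx : x ∈ cj S.K c) :
    d⁻¹ * x * d ∈ cj S.K c := by
  rw [mem_cj] at hx ⊢
  have h1 : c * d = d * c := (S.D_comm hd hc).symm
  have h4 : c * d⁻¹ = d⁻¹ * c := by
    rw [eq_inv_mul_iff_mul_eq, ← mul_assoc, ← h1, mul_assoc, mul_inv_cancel, mul_one]
  have h5 : d * c⁻¹ = c⁻¹ * d := by
    rw [eq_inv_mul_iff_mul_eq, ← mul_assoc, h1, mul_assoc, mul_inv_cancel, mul_one]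
  have h2 : c * (d⁻¹ * x * d) * c⁻¹ = d⁻¹ * (c * x * c⁻¹) * d := by
    calc c * (d⁻¹ * x * d) * c⁻¹ = (c * d⁻¹) * x * (d * c⁻¹) := by group
      _ = (d⁻¹ * c) * x * (c⁻¹ * d) := by rw [h4, h5]
      _ = d⁻¹ * (c * x * c⁻¹) * d := by group
  rw [h2]
  exact S.B_conj' hd.1 hx

private theorem pb5_free {c d x : G} (hc : c ∈ S.C) (hd : d ∈ S.D) (hd1 : d ≠ 1)
    (hx : x ∈ cj S.K c) (h : d * x * d⁻¹ = x) : x = 1 := by
  rw [mem_cj] at hx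
  have h1 : c * d = d * c := (S.D_comm hd hc).symm
  have h2 : d * (c * x * c⁻¹) = (c * x * c⁻¹) * d := by
    have h6 : d * x = x * d := mul_inv_eq_iff_eq_mul.mp h
    have h5 : d * c⁻¹ = c⁻¹ * d := by
      rw [eq_inv_mul_iff_mul_eq, ← mul_assoc, h1, mul_assoc, mul_inv_cancel, mul_one]
    calc d * (c * x * c⁻¹) = (d * c) * x * c⁻¹ := by group
      _ = (c * d) * x * c⁻¹ := by rw [h1]
      _ = c * (d * x) * c⁻¹ := by group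
      _ = c * (x * d) * c⁻¹ := by rw [h6]
      _ = c * x * (d * c⁻¹) := by group
      _ = c * x * (c⁻¹ * d) := by rw [h5]
      _ = (c * x * c⁻¹) * d := by group
  have h3 := S.D_free hd hd1 hx h2
  have h4 : x = c⁻¹ * (c * x * c⁻¹) * c := by group
  rw [h4, h3]
  group

private theorem pb5_rho_C {x y c e : G} (hc : c ∈ S.C) (he : e ∈ S.D) :
    rho (c * x) y e = rho x y e ∧ rho x (c * y) e = rho x y e := by
  have h1 : e * c = c * e := S.D_comm he hc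
  have h2 : ∀ z : G, (c * z)⁻¹ * e * (c * z) = z⁻¹ * e * z := by
    intro z
    calc (c * z)⁻¹ * e * (c * z) = z⁻¹ * c⁻¹ * (e * c) * z := by group
      _ = z⁻¹ * c⁻¹ * (c * e) * z := by rw [h1]
      _ = z⁻¹ * e * z := by group
  have h3 : ∀ z : G, (c * z)⁻¹ * e⁻¹ * (c * z) = z⁻¹ * e⁻¹ * z := by
    intro z
    have := congrArg (fun t => t⁻¹) (h2 z)
    calc (c * z)⁻¹ * e⁻¹ * (c * z) = ((c * z)⁻¹ * e * (c * z))⁻¹ := by group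
      _ = (z⁻¹ * e * z)⁻¹ := by rw [h2 z]
      _ = z⁻¹ * e⁻¹ * z := by group
  unfold rho
  exact ⟨by rw [h2], by rw [h3]⟩

/-- elements of `D` preserve the `+` line groups -/
theorem D_cj_mem {c d x : G} (hc : c ∈ S.C) (hd : d ∈ S.D) (hx : x ∈ cj S.K c) :
    d * x * d⁻¹ ∈ cj S.K c := by
  rw [mem_cj] at hx ⊢
  have h1 : c * d = d * c := (S.D_comm hd hc).symm
  have h2 : c * (d * x * d⁻¹) * c⁻¹ = d * (c * x * c⁻¹) * d⁻¹ := by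
    have h3 : d⁻¹ * c⁻¹ = c⁻¹ * d⁻¹ := by
      rw [← mul_inv_rev, ← mul_inv_rev, h1]
    calc c * (d * x * d⁻¹) * c⁻¹ = (c * d) * x * (d⁻¹ * c⁻¹) := by group
      _ = (d * c) * x * (c⁻¹ * d⁻¹) := by rw [h1, h3]
      _ = d * (c * x * c⁻¹) * d⁻¹ := by group
  rw [h2]
  exact S.B_conj hd.1 hx

/-- the factors of `rho` at the base point -/
theorem rho_factor {x y e : G} (hx : x ∈ S.W) (hy : y ∈ S.W) (he : e ∈ S.D) :
    ∃ c₁ ∈ S.C, ∃ c₂ ∈ S.C, ∃ q₁ ∈ S.Q, ∃ q₂ ∈ S.Q, q₁ ∈ cj S.K c₁ ∧ q₂ ∈ cj S.K c₂ ∧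
      (∃ c ∈ S.C, x = c * q₁) ∧ (∃ c ∈ S.C, y = c * q₂) ∧
      q₁⁻¹ * (e * q₁ * e⁻¹) ∈ cj S.K c₁ ∧ (e * q₂ * e⁻¹)⁻¹ * q₂ ∈ cj S.K c₂ ∧
      rho x y e = (q₁⁻¹ * (e * q₁ * e⁻¹)) * ((e * q₂ * e⁻¹)⁻¹ * q₂) := by
  obtain ⟨c, hc, q₁, hq₁, rfl⟩ := hx
  obtain ⟨c', hc', q₂, hq₂, rfl⟩ := hy
  obtain ⟨c₁, hc₁, hm₁, -⟩ := S.Q_spec hq₁
  obtain ⟨c₂, hc₂, hm₂, -⟩ := S.Q_spec hq₂
  refine ⟨c₁, hc₁, c₂, hc₂, q₁, hq₁, q₂, hq₂, hm₁, hm₂, ⟨c, hc, rfl⟩, ⟨c', hc', rfl⟩, ?_, ?_, ?_⟩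
  · exact (cj S.K c₁).mul_mem ((cj S.K c₁).inv_mem hm₁) (S.D_cj_mem hc₁ he hm₁)
  · exact (cj S.K c₂).mul_mem ((cj S.K c₂).inv_mem (S.D_cj_mem hc₂ he hm₂)) hm₂
  · rw [(S.pb5_rho_C (x := q₁) (y := c' * q₂) hc he).1,
      (S.pb5_rho_C (x := q₁) (y := q₂) hc' he).2]
    unfold rho
    group

/-- (b6) -/
theorem rho_conj {x y h d : G} (hx : x * h⁻¹ ∈ S.W) (hy : y * h⁻¹ ∈ S.W) (hd : d ∈ S.D) :
    E h d * rho x y (S.i * d⁻¹) * (E h d)⁻¹ = rho x y (S.i * d⁻¹)⁻¹ := by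
  have key : ∀ x y : G, x ∈ S.W → y ∈ S.W →
      d * rho x y (S.i * d⁻¹) * d⁻¹ = rho x y (S.i * d⁻¹)⁻¹ := by
    intro x y hx hy
    have hii : S.i * S.i = 1 := S.i_inv.1
    have hinv : S.i⁻¹ = S.i := inv_eq_of_mul_eq_one_right hii
    have hid : S.i * d = d * S.i := by
      have := S.D_comm hd S.i_mem
      exact this.symm
    have hid' : S.i * d⁻¹ = d⁻¹ * S.i := by
      rw [eq_inv_mul_iff_mul_eq, ← mul_assoc, ← hid, mul_assoc, mul_inv_cancel, mul_one]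
    have he : S.i * d⁻¹ ∈ S.D := S.D.mul_mem S.i_mem_D (S.D.inv_mem hd)
    obtain ⟨c, hc, a, ha, rfl⟩ := hx
    obtain ⟨c', hc', b, hb, rfl⟩ := hy
    obtain ⟨c₁, hc₁, hm₁, -⟩ := S.Q_spec ha
    obtain ⟨c₂, hc₂, hm₂, -⟩ := S.Q_spec hb
    rw [(S.pb5_rho_C (x := a) (y := c' * b) hc he).1,
      (S.pb5_rho_C (x := a) (y := b) hc' he).2,
      (S.pb5_rho_C (x := a) (y := c' * b) hc (S.D.inv_mem he)).1,
      (S.pb5_rho_C (x := a) (y := b) hc' (S.D.inv_mem he)).2]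
    -- `i` inverts `d⁻¹ a d` etc
    have f1 : ∀ {c₀ z : G}, c₀ ∈ S.C → z ∈ cj S.K c₀ →
        S.i * d⁻¹ * z * (S.i * d⁻¹)⁻¹ = d⁻¹ * z⁻¹ * d := by
      intro c₀ z hc₀ hz
      have h1 := S.pb5_i_inv hc₀ (S.pb5_D_cj_mem' hc₀ hd hz)
      calc S.i * d⁻¹ * z * (S.i * d⁻¹)⁻¹ = S.i * (d⁻¹ * z * d) * S.i⁻¹ := by group
        _ = S.i * (d⁻¹ * z * d) * S.i := by rw [hinv]
        _ = (d⁻¹ * z * d)⁻¹ := h1
        _ = d⁻¹ * z⁻¹ * d := by group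
    have f2 : ∀ {c₀ z : G}, c₀ ∈ S.C → z ∈ cj S.K c₀ →
        (S.i * d⁻¹)⁻¹ * z * (S.i * d⁻¹) = d * z⁻¹ * d⁻¹ := by
      intro c₀ z hc₀ hz
      have h1 := S.pb5_i_inv hc₀ hz
      calc (S.i * d⁻¹)⁻¹ * z * (S.i * d⁻¹) = d * (S.i⁻¹ * z * S.i) * d⁻¹ := by group
        _ = d * (S.i * z * S.i) * d⁻¹ := by rw [hinv]
        _ = d * z⁻¹ * d⁻¹ := by rw [h1]
    have g1 := f1 hc₁ hm₁
    have g2 := f1 hc₂ hm₂
    have g3 := f2 hc₁ hm₁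
    have g4 := f2 hc₂ hm₂
    have k1 : (d * a⁻¹ * d⁻¹) * a⁻¹ = a⁻¹ * (d * a⁻¹ * d⁻¹) :=
      S.pb5_cj_comm (S.D_cj_mem hc₁ hd ((cj S.K c₁).inv_mem hm₁)) ((cj S.K c₁).inv_mem hm₁)
    have k2 : b * (d * b * d⁻¹) = (d * b * d⁻¹) * b :=
      S.pb5_cj_comm hm₂ (S.D_cj_mem hc₂ hd hm₂)
    unfold rho
    calc d * (a⁻¹ * (S.i * d⁻¹) * a * (b⁻¹ * (S.i * d⁻¹)⁻¹ * b)) * d⁻¹
        = d * (a⁻¹ * (S.i * d⁻¹ * a * (S.i * d⁻¹)⁻¹) *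
            (S.i * d⁻¹ * b * (S.i * d⁻¹)⁻¹)⁻¹ * b) * d⁻¹ := by group
      _ = d * (a⁻¹ * (d⁻¹ * a⁻¹ * d) * (d⁻¹ * b⁻¹ * d)⁻¹ * b) * d⁻¹ := by rw [g1, g2]
      _ = ((d * a⁻¹ * d⁻¹) * a⁻¹) * (b * (d * b * d⁻¹)) := by group
      _ = (a⁻¹ * (d * a⁻¹ * d⁻¹)) * ((d * b * d⁻¹) * b) := by rw [k1, k2]
      _ = a⁻¹ * (d * a⁻¹ * d⁻¹) * ((d * b⁻¹ * d⁻¹)⁻¹ * b) := by group
      _ = a⁻¹ * ((S.i * d⁻¹)⁻¹ * a * (S.i * d⁻¹)) *
            (((S.i * d⁻¹)⁻¹ * b * (S.i * d⁻¹))⁻¹ * b) := by rw [g3, g4]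
      _ = a⁻¹ * (S.i * d⁻¹)⁻¹ * a * (S.i * d⁻¹) * ((S.i * d⁻¹)⁻¹ * b⁻¹ * (S.i * d⁻¹) * b) := by
          group
      _ = a⁻¹ * (S.i * d⁻¹)⁻¹ * a * (b⁻¹ * (S.i * d⁻¹)⁻¹⁻¹ * b) := by group
  have h1 := key _ _ hx hy
  have h2 : ∀ e : G, rho x y e = h⁻¹ * rho (x * h⁻¹) (y * h⁻¹) e * h := by
    intro e
    unfold rho
    group
  rw [h2, h2 (S.i * d⁻¹)⁻¹, ← h1]
  unfold E
  group

/-- the pole inverts `E_{a0}`, `E_{a2}` -/
theorem pole_rho {x y l e : G} (hl : IsInv l) (hx : x⁻¹ * S.i * x ∈ pol l)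
    (hy : y⁻¹ * S.i * y ∈ pol l) (he : e ∈ S.D) : l * rho x y e * l = rho x y e⁻¹ := by
  have hxi : IsInv (x⁻¹ * S.i * x) := S.i_inv.cj x
  have hyi : IsInv (y⁻¹ * S.i * y) := S.i_inv.cj y
  have h1 : x⁻¹ * e * x ∈ S.toSetup.cl (x⁻¹ * S.i * x) := by
    rw [S.toSetup.cl_eq rfl, mem_cj]
    have : x * (x⁻¹ * e * x) * x⁻¹ = e := by group
    rw [this]
    exact he.2
  have h2 : y⁻¹ * e⁻¹ * y ∈ S.toSetup.cl (y⁻¹ * S.i * y) := by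
    rw [S.toSetup.cl_eq rfl, mem_cj]
    have : y * (y⁻¹ * e⁻¹ * y) * y⁻¹ = e⁻¹ := by group
    rw [this]
    exact S.C.inv_mem he.2
  have h3 := S.toSetup.pol_inverts hxi (pol_symm hl hx) h1
  have h4 := S.toSetup.pol_inverts hyi (pol_symm hl hy) h2
  have hll : l * l = 1 := hl.1
  unfold rho
  calc l * (x⁻¹ * e * x * (y⁻¹ * e⁻¹ * y)) * l
      = l * (x⁻¹ * e * x) * (l * l) * (y⁻¹ * e⁻¹ * y) * l := by rw [hll]; group
    _ = (l * (x⁻¹ * e * x) * l) * (l * (y⁻¹ * e⁻¹ * y) * l) := by group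
    _ = (x⁻¹ * e * x)⁻¹ * (y⁻¹ * e⁻¹ * y)⁻¹ := by rw [h3, h4]
    _ = x⁻¹ * e⁻¹ * x * (y⁻¹ * e⁻¹⁻¹ * y) := by group

/-- (b6): `l E_b(d)` commutes with `rho_e`, `e = i d⁻¹` -/
theorem comm_rho {x y h l d : G} (hl : IsInv l) (hxl : x⁻¹ * S.i * x ∈ pol l)
    (hyl : y⁻¹ * S.i * y ∈ pol l) (hx : x * h⁻¹ ∈ S.W) (hy : y * h⁻¹ ∈ S.W) (hd : d ∈ S.D) :
    (l * E h d) * rho x y (S.i * d⁻¹) = rho x y (S.i * d⁻¹) * (l * E h d) := by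
  have he : S.i * d⁻¹ ∈ S.D := S.D.mul_mem S.i_mem_D (S.D.inv_mem hd)
  have h1 := S.rho_conj hx hy hd
  have h2 := S.pole_rho hl hxl hyl he
  rw [← h1] at h2
  have hll : l * l = 1 := hl.1
  have h3 : E h d * rho x y (S.i * d⁻¹) = l * rho x y (S.i * d⁻¹) * l * E h d := by
    rw [h2]
    group
  calc l * E h d * rho x y (S.i * d⁻¹) = l * (E h d * rho x y (S.i * d⁻¹)) := by group
    _ = l * (l * rho x y (S.i * d⁻¹) * l * E h d) := by rw [h3]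
    _ = (l * l) * rho x y (S.i * d⁻¹) * (l * E h d) := by group
    _ = rho x y (S.i * d⁻¹) * (l * E h d) := by rw [hll, one_mul]

/-- (b7): the pole does not commute with `i_b` -/
theorem pole_not_comm {x h l : G} (hl : IsInv l) (hxl : x⁻¹ * S.i * x ∈ pol l)
    (hx : x * h⁻¹ ∈ S.W) : l * (h⁻¹ * S.i * h) ≠ (h⁻¹ * S.i * h) * l := by
  intro hcomm
  have hhi : IsInv (h⁻¹ * S.i * h) := S.i_inv.cj h
  obtain ⟨h1, h2⟩ := S.W_not_tor hx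
  have h3 : (x * h⁻¹)⁻¹ * S.i * (x * h⁻¹) = h * (x⁻¹ * S.i * x) * h⁻¹ := by group
  rw [h3] at h1 h2
  have h4 : ¬ Tor (h⁻¹ * S.i * h) (x⁻¹ * S.i * x) := by
    intro ht
    apply h2
    rw [← tor_cj h]
    have e1 : h⁻¹ * (h * (x⁻¹ * S.i * x) * h⁻¹) * h = x⁻¹ * S.i * x := by group
    rw [e1]
    exact ht
  by_cases hlh : h⁻¹ * S.i * h = l
  · apply h4
    rw [hlh]
    obtain ⟨ha, hb, hc⟩ := hxl
    obtain ⟨k1, k2, k3⟩ := tor_of_comm hl ha hb.symm hc.symm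
    exact ⟨_, k1, k2, k3⟩
  · apply h4
    exact ⟨l, hl, ⟨hhi, hlh, hcomm.symm⟩, hxl⟩

/-- for a toral pair the two `+` line groups are different -/
theorem lines_ne_of_tor {x y : G} {c₁ c₂ q₁ q₂ : G} (hc₁ : c₁ ∈ S.C) (hc₂ : c₂ ∈ S.C)
    (hq₁ : q₁ ∈ S.Q) (hq₂ : q₂ ∈ S.Q) (h₁ : q₁ ∈ cj S.K c₁) (h₂ : q₂ ∈ cj S.K c₂)
    (hx : ∃ c ∈ S.C, x = c * q₁) (hy : ∃ c ∈ S.C, y = c * q₂)
    (hne : x⁻¹ * S.i * x ≠ y⁻¹ * S.i * y) (ht : Tor (x⁻¹ * S.i * x) (y⁻¹ * S.i * y)) :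
    cj S.K c₁ ≠ cj S.K c₂ := by
  intro hL
  obtain ⟨c, hc, rfl⟩ := hx
  obtain ⟨c', hc', rfl⟩ := hy
  have hxe : (c * q₁)⁻¹ * S.i * (c * q₁) = q₁⁻¹ * S.i * q₁ := by
    have h1 : S.i * c = c * S.i := S.comm _ S.i_mem _ hc
    calc (c * q₁)⁻¹ * S.i * (c * q₁) = q₁⁻¹ * c⁻¹ * (S.i * c) * q₁ := by group
      _ = q₁⁻¹ * c⁻¹ * (c * S.i) * q₁ := by rw [h1]
      _ = q₁⁻¹ * S.i * q₁ := by group
  have hye : (c' * q₂)⁻¹ * S.i * (c' * q₂) = q₂⁻¹ * S.i * q₂ := by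
    have h1 : S.i * c' = c' * S.i := S.comm _ S.i_mem _ hc'
    calc (c' * q₂)⁻¹ * S.i * (c' * q₂) = q₂⁻¹ * c'⁻¹ * (S.i * c') * q₂ := by group
      _ = q₂⁻¹ * c'⁻¹ * (c' * S.i) * q₂ := by rw [h1]
      _ = q₂⁻¹ * S.i * q₂ := by group
  rw [hxe, hye] at hne ht
  have hLG := S.lineGrp_cj_K c₁
  have hil := S.i_mem_line_cj hc₁
  have hline : ∀ {q : G}, q ∈ cj S.K c₁ → q⁻¹ * S.i * q ∈ line (cj S.K c₁) := by
    intro q hq
    have h1 := Setup.LineGrp.line_mul S.toSetup hLG hil hq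
    have h2 := Setup.LineGrp.mul_line S.toSetup hLG h1 ((cj S.K c₁).inv_mem hq)
    rw [mul_assoc]
    exact h2
  have h₂' : q₂ ∈ cj S.K c₁ := by rw [hL]; exact h₂
  have h5 := hline h₁
  have h6 := hline h₂'
  have h7 := Setup.LineGrp.mul_mem S.toSetup hLG h5 h6
  obtain ⟨l, hl, ha, hb⟩ := ht
  have h8 := S.toSetup.pol_mul_pol hl ha hb
  have h9 : (q₁⁻¹ * S.i * q₁) * (q₂⁻¹ * S.i * q₂) ≠ 1 := by
    intro h10
    apply hne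
    have h11 : (q₂⁻¹ * S.i * q₂) * (q₂⁻¹ * S.i * q₂) = 1 := (S.i_inv.cj q₂).1
    exact mul_right_cancel (h10.trans h11.symm)
  have h12 := Setup.LineGrp.eq_of_mem S.toSetup hLG (S.toSetup.lineGrp_cl hl) h7 h8 h9
  have h13 : q₁ ∈ S.toSetup.cl l := by rw [← h12]; exact h₁
  exact S.Q_notMem_cl hq₁ hl h13

/-- (b8), first part -/
theorem rho_ne_one {x y e : G} (hx : x ∈ S.W) (hy : y ∈ S.W) (he : e ∈ S.D) (he1 : e ≠ 1)
    (hne : x⁻¹ * S.i * x ≠ y⁻¹ * S.i * y) (ht : Tor (x⁻¹ * S.i * x) (y⁻¹ * S.i * y)) :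
    rho x y e ≠ 1 := by
  intro hr
  obtain ⟨c₁, hc₁, c₂, hc₂, q₁, hq₁, q₂, hq₂, h₁, h₂, hx', hy', hu, hv, hrho⟩ :=
    S.rho_factor hx hy he
  have hL := S.lines_ne_of_tor hc₁ hc₂ hq₁ hq₂ h₁ h₂ hx' hy' hne ht
  rw [hrho] at hr
  have hu1 : q₁⁻¹ * (e * q₁ * e⁻¹) ≠ 1 := by
    intro h
    have h3 : e * q₁ * e⁻¹ = q₁ := by
      rw [inv_mul_eq_one] at h
      exact h.symm
    exact S.Q_ne_one hq₁ (S.pb5_free hc₁ he he1 h₁ h3)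
  have hu2 : q₁⁻¹ * (e * q₁ * e⁻¹) ∈ cj S.K c₂ := by
    rw [eq_inv_of_mul_eq_one_left hr]
    exact (cj S.K c₂).inv_mem hv
  exact hL (Setup.LineGrp.eq_of_mem S.toSetup (S.lineGrp_cj_K c₁) (S.lineGrp_cj_K c₂) hu hu2 hu1)

/-- (b8), second part: for fixed `x` and `e`, generic `y` -/
theorem rho_sq_ne {x e : G} (hx : x ∈ S.W) (he : e ∈ S.D) (he1 : e ≠ 1) :
    ∀ᶠ y in gen S.W, rho x y e = 1 ∨ rho x y e * rho x y e ≠ 1 := by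
  -- two exceptional elements of the same line group are equal
  have key : ∀ c ∈ S.C, ∀ q q' : G, q ∈ S.Q → q' ∈ S.Q → q ∈ cj S.K c → q' ∈ cj S.K c →
      rho x q e ≠ 1 → rho x q e * rho x q e = 1 → rho x q' e ≠ 1 →
      rho x q' e * rho x q' e = 1 → q = q' := by
    intro c hc q q' hq hq' hm hm' hr hr2 hr' hr2'
    obtain ⟨a, ha, b, hb, rfl⟩ := hx
    obtain ⟨c₁, hc₁, hm₁, -⟩ := S.Q_spec hb
    have hrho : ∀ q : G, rho (a * b) q e =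
        (b⁻¹ * (e * b * e⁻¹)) * ((e * q * e⁻¹)⁻¹ * q) := by
      intro q
      rw [(S.pb5_rho_C (x := b) (y := q) ha he).1]
      unfold rho
      group
    have hu : b⁻¹ * (e * b * e⁻¹) ∈ cj S.K c₁ :=
      (cj S.K c₁).mul_mem ((cj S.K c₁).inv_mem hm₁) (S.D_cj_mem hc₁ he hm₁)
    have hv : ∀ q : G, q ∈ cj S.K c → (e * q * e⁻¹)⁻¹ * q ∈ cj S.K c := fun q hm =>
      (cj S.K c).mul_mem ((cj S.K c).inv_mem (S.D_cj_mem hc he hm)) hm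
    set u : G := b⁻¹ * (e * b * e⁻¹) with hudef
    have hii : S.i * S.i = 1 := S.i_inv.1
    -- the point `u i`
    have hp : u * S.i ∈ line (cj S.K c₁) :=
      Setup.LineGrp.mul_line S.toSetup (S.lineGrp_cj_K c₁) (S.i_mem_line_cj hc₁) hu
    have hs : ∀ q : G, q ∈ cj S.K c → S.i * ((e * q * e⁻¹)⁻¹ * q) ∈ line (cj S.K c) :=
      fun q hm => Setup.LineGrp.line_mul S.toSetup (S.lineGrp_cj_K c) (S.i_mem_line_cj hc) (hv q hm)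
    have hpol : ∀ q : G, q ∈ cj S.K c → rho (a * b) q e ≠ 1 →
        rho (a * b) q e * rho (a * b) q e = 1 →
        S.i * ((e * q * e⁻¹)⁻¹ * q) ∈ pol (u * S.i) := by
      intro q hm hr hr2
      have h1 : rho (a * b) q e = (u * S.i) * (S.i * ((e * q * e⁻¹)⁻¹ * q)) := by
        rw [hrho q]
        calc u * ((e * q * e⁻¹)⁻¹ * q) = u * (S.i * S.i) * ((e * q * e⁻¹)⁻¹ * q) := by
              rw [hii, mul_one]
          _ = (u * S.i) * (S.i * ((e * q * e⁻¹)⁻¹ * q)) := by group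
      rw [h1] at hr hr2
      have hp2 : (u * S.i) * (u * S.i) = 1 := hp.1.1
      have hs2 : (S.i * ((e * q * e⁻¹)⁻¹ * q)) * (S.i * ((e * q * e⁻¹)⁻¹ * q)) = 1 :=
        (hs q hm).1.1
      refine ⟨(hs q hm).1, ?_, ?_⟩
      · intro h
        rw [h] at hr
        exact hr hp2
      · generalize u * S.i = P at *
        generalize S.i * ((e * q * e⁻¹)⁻¹ * q) = T at *
        have hP : P⁻¹ = P := inv_eq_of_mul_eq_one_right hp2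
        have hT : T⁻¹ = T := inv_eq_of_mul_eq_one_right hs2
        have h2 : P * T = (P * T)⁻¹ := (inv_eq_of_mul_eq_one_right hr2).symm
        rw [mul_inv_rev, hP, hT] at h2
        exact h2.symm
    have h1 := hpol q hm hr hr2
    have h2 := hpol q' hm' hr' hr2'
    have hPI : IsInv (u * S.i) := hp.1
    rw [← S.toSetup.line_cl hPI] at h1 h2
    have hneL : cj S.K c ≠ S.toSetup.cl (u * S.i) := by
      intro h
      have : q ∈ S.toSetup.cl (u * S.i) := by rw [← h]; exact hm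
      exact S.Q_notMem_cl hq hPI this
    have h3 := Setup.LineGrp.line_inter S.toSetup (S.lineGrp_cj_K c) (S.toSetup.lineGrp_cl hPI)
      hneL (hs q hm) (hs q' hm') h1 h2
    have h4 : (e * q * e⁻¹)⁻¹ * q = (e * q' * e⁻¹)⁻¹ * q' := mul_left_cancel h3
    have hm'' : q * q'⁻¹ ∈ cj S.K c := (cj S.K c).mul_mem hm ((cj S.K c).inv_mem hm')
    have h5 : e * (q * q'⁻¹) * e⁻¹ = q * q'⁻¹ := by
      have k1 : (e * q * e⁻¹) * ((e * q' * e⁻¹)⁻¹ * q') = q := by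
        rw [← h4]
        group
      have k2 : q' * (e * q' * e⁻¹)⁻¹ = (e * q' * e⁻¹)⁻¹ * q' :=
        S.pb5_cj_comm hm' ((cj S.K c).inv_mem (S.D_cj_mem hc he hm'))
      calc e * (q * q'⁻¹) * e⁻¹ = (e * q * e⁻¹) * (q' * (e * q' * e⁻¹)⁻¹) * q'⁻¹ := by
            have k3 : (e * q * e⁻¹) * q' = q' * (e * q * e⁻¹) :=
              S.pb5_cj_comm (S.D_cj_mem hc he hm) hm'
            have k4 : q' * (e * q' * e⁻¹)⁻¹ * q'⁻¹ = (e * q' * e⁻¹)⁻¹ := by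
              rw [k2]
              group
            calc e * (q * q'⁻¹) * e⁻¹ = (e * q * e⁻¹) * (e * q' * e⁻¹)⁻¹ := by group
              _ = (e * q * e⁻¹) * (q' * (e * q' * e⁻¹)⁻¹ * q'⁻¹) := by rw [k4]
              _ = (e * q * e⁻¹) * (q' * (e * q' * e⁻¹)⁻¹) * q'⁻¹ := by group
        _ = ((e * q * e⁻¹) * ((e * q' * e⁻¹)⁻¹ * q')) * q'⁻¹ := by rw [k2]
        _ = q * q'⁻¹ := by rw [k1]
    have h6 := S.pb5_free hc he he1 hm'' h5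
    exact mul_inv_eq_one.mp h6
  have hrf : DfFun (fun y : G => rho x y e) := by
    unfold rho
    fun_prop
  have hdp : DfP (fun y : G => rho x y e = 1 ∨ rho x y e * rho x y e ≠ 1) := by
    have h1 : DfP (fun y : G => rho x y e = 1) := DfP.eq hrf (DfFun.const 1)
    have h2 : DfP (fun y : G => rho x y e * rho x y e = 1) :=
      DfP.eq (DfFun.mul hrf hrf) (DfFun.const 1)
    exact h1.or h2.not
  rw [S.ev_W_iff hdp]
  filter_upwards [ev_mem (S.C : Set G)] with c' hc'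
  have hq : ∀ᶠ q in gen S.Q, rho x q e = 1 ∨ rho x q e * rho x q e ≠ 1 := by
    rw [S.ev_Q_iff hdp]
    filter_upwards [ev_mem (S.C : Set G)] with c hc
    set Bad : Set G := {z | z ∈ S.K0 ∧
      ¬ (rho x (c⁻¹ * z * c) e = 1 ∨ rho x (c⁻¹ * z * c) e * rho x (c⁻¹ * z * c) e ≠ 1)} with hBad
    have hfin : Bad.Finite := by
      have hsub : (Bad \ {1}).Subsingleton := by
        rintro z ⟨⟨hz, hzb⟩, hz1⟩ z' ⟨⟨hz', hzb'⟩, hz1'⟩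
        rw [not_or, not_not] at hzb hzb'
        have hzK := S.K0_le hz
        have hzK' := S.K0_le hz'
        have e1 : c⁻¹ * z * c ∈ cj S.K c := by
          rw [mem_cj]
          have : c * (c⁻¹ * z * c) * c⁻¹ = z := by group
          rw [this]
          exact hzK
        have e2 : c⁻¹ * z' * c ∈ cj S.K c := by
          rw [mem_cj]
          have : c * (c⁻¹ * z' * c) * c⁻¹ = z' := by group
          rw [this]
          exact hzK'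
        have h := key c hc _ _ ⟨c, hc, z, hz, hz1, rfl⟩ ⟨c, hc, z', hz', hz1', rfl⟩ e1 e2
          hzb.1 hzb.2 hzb'.1 hzb'.2
        exact mul_left_cancel (mul_right_cancel h)
      have h2 : Bad ⊆ (Bad \ {1}) ∪ {1} := by
        intro z hz
        by_cases h : z = 1
        · exact Or.inr h
        · exact Or.inl ⟨hz, h⟩
      exact (hsub.finite.union (Set.finite_singleton _)).subset h2
    refine ev_of_small (Df.of_finite hfin) (fun z hz => hz.1) ?_ ?_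
    · right
      rw [(rk_eq_zero_iff (Df.of_finite hfin)).mpr hfin, S.rk_K0]
      exact S.rk_K_pos
    · intro z hz hzb
      by_contra h
      exact hzb ⟨hz, h⟩
  filter_upwards [hq] with q hq'
  rw [(S.pb5_rho_C (x := x) (y := q) hc' he).2]
  exact hq'

end BSetup

end Pool.Agent.A1C
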