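import Pool.Agent.A1C.PA7

/-!
# PD1: two general counting lemmas

`common_rank` (D1b): the map `G × W × W → G × G`, `(g, x, y) ↦ (x g, y g)`. The fibre over `(x g, y g)` is in definable bijection with
`{h g : x h⁻¹ ∈ W, y h⁻¹ ∈ W}`, so its rank `f(x, y) = rk {h | x h⁻¹ ∈ W ∧ y h⁻¹ ∈ W}` depends only on `(x, y)` and is generically
constant `= z` (`Irr.ev_of_finite_cases` or `exists_generic_fibre_rank`). Restricting to the `(g, x, y)` with `f(x, y) = z`: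
`rk G + 2 rk W = rk (image) + z ≤ 2 rk G + z`.

`inc_irr`: `irr_sigma` with base `N` and fibres `pol x` (`irr_pol`, `rk_pol`).
-/

namespace Pool.Agent.A1C

universe u

variable {M : Type u} [Univ M] {G : Type u} [Group G] [DGrp M G]

open Filter

theorem common_rank {W : Set G} (hG : Irr (Set.univ : Set G)) (hW : Irr W) :
    ∀ᶠ x in gen W, ∀ᶠ y in gen W,
      2 * rk W ≤ rk (Set.univ : Set G) + rk {h : G | x * h⁻¹ ∈ W ∧ y * h⁻¹ ∈ W} := by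
  have hdW := hW.df
  have hF : DfP fun z : (G × G) × G => z.1.1 * z.2⁻¹ ∈ W ∧ z.1.2 * z.2⁻¹ ∈ W :=
    DfP.and (DfP.mem hdW (by fun_prop)) (DfP.mem hdW (by fun_prop))
  have hfib : ∀ x y : G, Df {h : G | x * h⁻¹ ∈ W ∧ y * h⁻¹ ∈ W} := fun x y =>
    DfP.and (DfP.mem hdW (by fun_prop)) (DfP.mem hdW (by fun_prop))
  have hk : ∀ k : ℕ, DfP fun z : G × G => rk {h : G | z.1 * h⁻¹ ∈ W ∧ z.2 * h⁻¹ ∈ W} = k :=
    fun k => DfP.rk_eq (X := G × G) (Y := G)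
      (p := fun z h => z.1 * h⁻¹ ∈ W ∧ z.2 * h⁻¹ ∈ W) hF k
  have hWW : Irr (W ×ˢ W) := hW.prod hW
  obtain ⟨k, -, hev⟩ := Irr.ev_of_finite_cases (Set.finite_Iic (rk (Set.univ : Set G))) hWW
    (p := fun k z => rk {h : G | z.1 * h⁻¹ ∈ W ∧ z.2 * h⁻¹ ∈ W} = k) (fun k _ => hk k)
    (Filter.Eventually.of_forall fun z =>
      ⟨rk {h : G | z.1 * h⁻¹ ∈ W ∧ z.2 * h⁻¹ ∈ W},
        rk_mono (hfib _ _) Df.univ (Set.subset_univ _), rfl⟩)
  have hA : Df {z : G × G | z ∈ W ×ˢ W ∧ rk {h : G | z.1 * h⁻¹ ∈ W ∧ z.2 * h⁻¹ ∈ W} = k} :=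
    hWW.df.inter (hk k)
  have hrA := ev_rk hWW.df (hk k) hev
  have hAne : {z : G × G | z ∈ W ×ˢ W ∧
      rk {h : G | z.1 * h⁻¹ ∈ W ∧ z.2 * h⁻¹ ∈ W} = k}.Nonempty := ev_exists hWW.ne hev
  rw [rk_prod hdW hdW hW.ne hW.ne] at hrA
  have hrT := rk_prod (X := G) (A := Set.univ) Df.univ hA ⟨1, trivial⟩ hAne
  have hΦ : DfFun (fun p : G × (G × G) => (p.2.1 * p.1, p.2.2 * p.1)) := by fun_prop
  have h1 := rk_le_image_add hΦ (Df.prod (Df.univ (X := G)) hA) (k := k) (by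
    rintro _ ⟨⟨g, x, y⟩, ⟨-, ⟨-, hxy⟩⟩, rfl⟩
    have hd : Df ((Set.univ ×ˢ {z : G × G | z ∈ W ×ˢ W ∧
        rk {h : G | z.1 * h⁻¹ ∈ W ∧ z.2 * h⁻¹ ∈ W} = k}) ∩
        (fun p : G × (G × G) => (p.2.1 * p.1, p.2.2 * p.1)) ⁻¹' {(x * g, y * g)}) :=
      (Df.prod (Df.univ (X := G)) hA).inter (hΦ.preimage (Df.singleton _))
    have hi : Set.InjOn (fun p : G × (G × G) => p.1) ((Set.univ ×ˢ {z : G × G | z ∈ W ×ˢ W ∧
        rk {h : G | z.1 * h⁻¹ ∈ W ∧ z.2 * h⁻¹ ∈ W} = k}) ∩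
        (fun p : G × (G × G) => (p.2.1 * p.1, p.2.2 * p.1)) ⁻¹' {(x * g, y * g)}) := by
      rintro ⟨a, b, c⟩ ⟨-, h1⟩ ⟨a', b', c'⟩ ⟨-, h2⟩ h
      have h1' : (b * a, c * a) = (x * g, y * g) := h1
      have h2' : (b' * a', c' * a') = (x * g, y * g) := h2
      have h' : a = a' := h
      subst h'
      rw [← h2'] at h1'
      have e1 := congrArg Prod.fst h1'
      have e2 := congrArg Prod.snd h1'
      rw [mul_left_injective a e1, mul_left_injective a e2]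
    rw [← rk_injOn DfFun.fst hd hi]
    have h3 : rk ((fun h => h * g) '' {h : G | x * h⁻¹ ∈ W ∧ y * h⁻¹ ∈ W}) = k := by
      rw [rk_mul_right _ (hfib x y) g]
      exact hxy
    refine le_trans ?_ h3.le
    refine rk_mono (DfFun.fst.image hd) ((by fun_prop : DfFun fun h : G => h * g).image
      (hfib x y)) ?_
    rintro _ ⟨⟨a, b, c⟩, ⟨⟨-, ⟨hb, hc⟩, -⟩, h2⟩, rfl⟩
    have h2' : (b * a, c * a) = (x * g, y * g) := h2
    have e1 : b * a = x * g := congrArg Prod.fst h2'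
    have e2 : c * a = y * g := congrArg Prod.snd h2'
    refine ⟨a * g⁻¹, ⟨?_, ?_⟩, ?_⟩
    · have : x * (a * g⁻¹)⁻¹ = b := by
        rw [mul_inv_rev, inv_inv, ← mul_assoc, ← e1, mul_inv_cancel_right]
      rw [this]
      exact hb
    · have : y * (a * g⁻¹)⁻¹ = c := by
        rw [mul_inv_rev, inv_inv, ← mul_assoc, ← e2, mul_inv_cancel_right]
      rw [this]
      exact hc
    · show a * g⁻¹ * g = a
      rw [inv_mul_cancel_right])
  have h2 : rk ((fun p : G × (G × G) => (p.2.1 * p.1, p.2.2 * p.1)) '' (Set.univ ×ˢ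
      {z : G × G | z ∈ W ×ˢ W ∧ rk {h : G | z.1 * h⁻¹ ∈ W ∧ z.2 * h⁻¹ ∈ W} = k})) ≤
      rk (Set.univ : Set G) + rk (Set.univ : Set G) := by
    rw [← rk_prod (X := G) (Y := G) Df.univ Df.univ ⟨1, trivial⟩ ⟨1, trivial⟩]
    refine rk_mono (hΦ.image (Df.prod (Df.univ (X := G)) hA))
      (Df.prod Df.univ Df.univ) ?_
    intro z _
    exact ⟨trivial, trivial⟩
  have h3 : 2 * rk W ≤ rk (Set.univ : Set G) + k := by omega
  have hev' := (ev_prod_iff hW hW (p := fun x y => rk {h : G | x * h⁻¹ ∈ W ∧ y * h⁻¹ ∈ W} = k)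
    (hk k)).1 hev
  filter_upwards [hev'] with x hx
  filter_upwards [hx] with y hy
  rw [hy]
  exact h3

theorem Setup.inc_irr (S : Setup G) {N : Set G} (hN : Irr N) (hNI : N ⊆ invs G) :
    Irr {p : G × G | p.1 ∈ N ∧ p.2 ∈ pol p.1} ∧
      rk {p : G × G | p.1 ∈ N ∧ p.2 ∈ pol p.1} = rk N + rk (S.C : Set G) := by
  have hpol : DfP fun p : G × G => p.2 ∈ pol p.1 :=
    DfP.comp (X := G × G) (Y := G × G) (f := fun p => (p.2, p.1))
      (p := fun p : G × G => p.1 ∈ pol p.2) (Setup.dfP_mem_pol) (by fun_prop)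
  have hS : Df {p : G × G | p.1 ∈ N ∧ p.2 ∈ pol p.1} :=
    DfP.and (DfP.mem hN.df (by fun_prop)) hpol
  have h := irr_sigma hS hN (k := rk (S.C : Set G)) (fun x y h => h.1) (fun x hx => by
    have e : {y | (x, y) ∈ {p : G × G | p.1 ∈ N ∧ p.2 ∈ pol p.1}} = pol x := by
      ext y
      exact ⟨fun h => h.2, fun h => ⟨hx, h⟩⟩
    rw [e]
    exact ⟨S.irr_pol (hNI hx), S.rk_pol (hNI hx)⟩)
  exact ⟨h.1, h.2.1⟩

end Pool.Agent.A1C
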