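import Pool.Agent.A1C.PD1

/-!
# PD2: generic pairs in a large set of involutions have a generic pole (D1a)

Let `R = {(x, l) : x ∈ N, l ∈ pol x}`, irreducible of rank `rk N + c` (`Setup.inc_irr`), `c = rk C`. Let `f` be the generic rank of the fibre
`{x ∈ N : x ∈ pol l}` over the second coordinate `l` (`exists_generic_fibre_rank` for `Prod.snd`) and `L` the set of the `l` occurring with fibre rank `f`:
`rk L + f = rk N + c`, `rk L ≤ rk I = 2 c` (`rk_invs_eq`), so `f ≥ rk N - c > 0`. Let `T = {(l, x, y) : l ∈ L \ X, x ≠ y ∈ N ∩ pol l}`; the map `(l, x, y) ↦ (x, y)` is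
injective on it (`pole_unique`). Without `X`: `rk L + 2 f ≤ 2 rk N`, so `f ≤ rk N - c`, `rk L = 2 c = rk I`. As `rk X < 2 c`: `rk (L \ X) = 2 c`, `rk T = 2 c + 2 f = 2 rk N`, so the
image of `T` has full rank in `N × N`, which is irreducible: `Irr.ev_of_rk`, `ev_prod_iff`.
(`f > 0`, so removing the diagonal does not change the rank of the fibres `(N ∩ pol l)²`.)
-/

namespace Pool.Agent.A1C

universe u

variable {M : Type u} [Univ M] {G : Type u} [Group G] [DGrp M G]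

open Filter

private theorem PD2_dfT {N L : Set G} (hN : Df N) (hL : Df L) :
    Df {p : G × (G × G) | p.1 ∈ L ∧ ((p.2.1 ∈ N ∧ p.2.1 ∈ pol p.1) ∧
      (p.2.2 ∈ N ∧ p.2.2 ∈ pol p.1)) ∧ ¬ p.2.1 = p.2.2} := by
  have h1 : DfP fun p : G × (G × G) => p.2.1 ∈ pol p.1 :=
    DfP.comp (f := fun p : G × (G × G) => (p.2.1, p.1)) (p := fun q : G × G => q.1 ∈ pol q.2)
      Setup.dfP_mem_pol (by fun_prop)
  have h2 : DfP fun p : G × (G × G) => p.2.2 ∈ pol p.1 :=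
    DfP.comp (f := fun p : G × (G × G) => (p.2.2, p.1)) (p := fun q : G × G => q.1 ∈ pol q.2)
      Setup.dfP_mem_pol (by fun_prop)
  exact DfP.and (DfP.mem hL (by fun_prop)) (DfP.and (DfP.and
    (DfP.and (DfP.mem hN (by fun_prop)) h1) (DfP.and (DfP.mem hN (by fun_prop)) h2))
    (DfP.not (DfP.eq (by fun_prop) (by fun_prop))))

/-- removing the diagonal does not change the rank of `P × P` -/
private theorem PD2_offdiag {P : Set G} (hP : Df P) {f : ℕ} (hf : 0 < f) (h : rk P = f) :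
    rk {q : G × G | (q.1 ∈ P ∧ q.2 ∈ P) ∧ ¬ q.1 = q.2} = 2 * f := by
  have hne : P.Nonempty := by
    rw [Set.nonempty_iff_ne_empty]
    rintro rfl
    rw [rk_empty] at h
    omega
  have h1 : rk (P ×ˢ P) = f + f := by rw [rk_prod hP hP hne hne, h]
  have h2 : rk ((fun x : G => (x, x)) '' P) = f := by
    rw [rk_injOn (by fun_prop) hP (fun a _ b _ hab => (Prod.mk.inj hab).1), h]
  have hD : Df ((fun x : G => (x, x)) '' P) := DfFun.image (by fun_prop) hP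
  have hO : Df {q : G × G | (q.1 ∈ P ∧ q.2 ∈ P) ∧ ¬ q.1 = q.2} :=
    DfP.and (DfP.and (DfP.mem hP (by fun_prop)) (DfP.mem hP (by fun_prop)))
      (DfP.not (DfP.eq (by fun_prop) (by fun_prop)))
  have h3 : P ×ˢ P = {q : G × G | (q.1 ∈ P ∧ q.2 ∈ P) ∧ ¬ q.1 = q.2} ∪ (fun x : G => (x, x)) '' P := by
    ext ⟨x, y⟩
    constructor
    · rintro ⟨hx, hy⟩
      by_cases hxy : x = y
      · right
        exact ⟨x, hx, by rw [hxy]⟩
      · left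
        exact ⟨⟨hx, hy⟩, hxy⟩
    · rintro (⟨h4, _⟩ | ⟨z, hz, h4⟩)
      · exact h4
      · obtain ⟨rfl, rfl⟩ := Prod.mk.inj h4
        exact ⟨hz, hz⟩
  rw [h3, rk_union hO hD, h2] at h1
  omega

private theorem PD2_rk (S : Setup G) {N L : Set G} (hN : Df N) (hL : Df L) (hLI : L ⊆ invs G)
    (hne : L.Nonempty) {f : ℕ} (hf : 0 < f) (hfib : ∀ l ∈ L, rk {x | x ∈ N ∧ x ∈ pol l} = f) :
    Df {q : G × G | ∃ l, l ∈ L ∧ ((q.1 ∈ N ∧ q.1 ∈ pol l) ∧ (q.2 ∈ N ∧ q.2 ∈ pol l)) ∧ ¬ q.1 = q.2} ∧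
    rk {q : G × G | ∃ l, l ∈ L ∧ ((q.1 ∈ N ∧ q.1 ∈ pol l) ∧ (q.2 ∈ N ∧ q.2 ∈ pol l)) ∧ ¬ q.1 = q.2} =
      rk L + 2 * f := by
  have hT := PD2_dfT hN hL
  set T : Set (G × (G × G)) := {p : G × (G × G) | p.1 ∈ L ∧ ((p.2.1 ∈ N ∧ p.2.1 ∈ pol p.1) ∧
      (p.2.2 ∈ N ∧ p.2.2 ∈ pol p.1)) ∧ ¬ p.2.1 = p.2.2} with hTdef
  have hfibT : ∀ l ∈ L, {q : G × G | (l, q) ∈ T} =
      {q : G × G | (q.1 ∈ {x | x ∈ N ∧ x ∈ pol l} ∧ q.2 ∈ {x | x ∈ N ∧ x ∈ pol l}) ∧ ¬ q.1 = q.2} := by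
    intro l hl
    ext q
    exact ⟨fun h => h.2, fun h => ⟨hl, h⟩⟩
  have hrkT : ∀ l ∈ L, rk {q : G × G | (l, q) ∈ T} = 2 * f := by
    intro l hl
    rw [hfibT l hl]
    exact PD2_offdiag (hN.inter (Setup.df_pol l)) hf (hfib l hl)
  have hexT : ∀ l ∈ L, ∃ q, (l, q) ∈ T := by
    intro l hl
    by_contra hcon
    push Not at hcon
    have h1 : {q : G × G | (l, q) ∈ T} = ∅ := Set.eq_empty_of_forall_notMem hcon
    have h2 := hrkT l hl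
    rw [h1, rk_empty] at h2
    omega
  have hbase : {l | ∃ q, (l, q) ∈ T} = L := by
    ext l
    exact ⟨fun ⟨q, hq⟩ => hq.1, hexT l⟩
  have hneT : T.Nonempty := by
    obtain ⟨l, hl⟩ := hne
    obtain ⟨q, hq⟩ := hexT l hl
    exact ⟨(l, q), hq⟩
  have h1 : rk T = rk L + 2 * f := by
    rw [rk_rel_fst hT hneT (k := 2 * f) (fun l ⟨q, hq⟩ => hrkT l hq.1), hbase]
  have himg : {q : G × G | ∃ l, l ∈ L ∧ ((q.1 ∈ N ∧ q.1 ∈ pol l) ∧ (q.2 ∈ N ∧ q.2 ∈ pol l)) ∧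
      ¬ q.1 = q.2} = (fun p : G × (G × G) => p.2) '' T := by
    ext q
    constructor
    · rintro ⟨l, hq⟩
      exact ⟨(l, q), hq, rfl⟩
    · rintro ⟨⟨l, q'⟩, hq, rfl⟩
      exact ⟨l, hq⟩
  have hinj : Set.InjOn (fun p : G × (G × G) => p.2) T := by
    rintro ⟨l, q⟩ hp ⟨l', q'⟩ hp' h
    have h2 : q = q' := h
    subst h2
    have h3 : l = l' := S.pole_unique hp.2.2 (hLI hp.1) (hLI hp'.1) hp.2.1.1.2 hp.2.1.2.2
      hp'.2.1.1.2 hp'.2.1.2.2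
    rw [h3]
  rw [himg]
  exact ⟨DfFun.image (by fun_prop) hT, by rw [rk_injOn (by fun_prop) hT hinj, h1]⟩

theorem Setup.generic_pole (S : Setup G) {N : Set G} (hN : Irr N) (hNI : N ⊆ invs G)
    (hr : rk (S.C : Set G) < rk N) {X : Set G} (hX : Df X) (hXr : rk X < rk (invs G)) :
    ∀ᶠ j in gen N, ∀ᶠ k in gen N, j ≠ k ∧ ∃ l, IsInv l ∧ j ∈ pol l ∧ k ∈ pol l ∧ l ∉ X := by
  obtain ⟨hR, hRrk⟩ := S.inc_irr hN hNI
  set R : Set (G × G) := {p : G × G | p.1 ∈ N ∧ p.2 ∈ pol p.1} with hRdef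
  obtain ⟨f, hgen, hrk⟩ := exists_generic_fibre_rank (f := fun p : G × G => p.2) DfFun.snd hR
  set L : Set G := (fun p : G × G => p.2) ''
    {x | x ∈ R ∧ rk (R ∩ (fun p : G × G => p.2) ⁻¹' {x.2}) = f} with hLdef
  have hI := S.rk_invs_eq
  have hc := S.rk_C_pos
  have hdfA : Df {x : G × G | x ∈ R ∧ rk (R ∩ (fun p : G × G => p.2) ⁻¹' {x.2}) = f} := by
    have h1 : DfP fun z : (G × G) × (G × G) => z.2 ∈ R ∧ z.2.2 = z.1.2 :=
      DfP.and (DfP.mem hR.df (by fun_prop)) (DfP.eq (by fun_prop) (by fun_prop))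
    exact DfP.and hR.df (DfP.rk_eq (p := fun x y : G × G => y ∈ R ∧ y.2 = x.2) h1 f)
  have hdfL : Df L := DfFun.image DfFun.snd hdfA
  have hLI : L ⊆ invs G := by
    rintro _ ⟨x, hx, rfl⟩
    exact hx.1.2.1
  have hLne : L.Nonempty := by
    obtain ⟨x, hx, hx2⟩ := ev_exists hR.ne hgen
    exact ⟨x.2, x, ⟨hx, hx2⟩, rfl⟩
  have hfib : ∀ l ∈ L, rk {x | x ∈ N ∧ x ∈ pol l} = f := by
    rintro l ⟨x, ⟨hx, hx2⟩, rfl⟩
    have hlinv : IsInv x.2 := hx.2.1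
    have h1 : R ∩ (fun p : G × G => p.2) ⁻¹' {x.2} =
        (fun y : G => (y, x.2)) '' {y | y ∈ N ∧ y ∈ pol x.2} := by
      ext ⟨y, l⟩
      constructor
      · rintro ⟨⟨hy1, hy2⟩, hy3⟩
        have hy3' : l = x.2 := hy3
        subst hy3'
        exact ⟨y, ⟨hy1, pol_symm (hNI hy1) hy2⟩, rfl⟩
      · rintro ⟨z, ⟨hz1, hz2⟩, hz3⟩
        obtain ⟨rfl, rfl⟩ := Prod.mk.inj hz3
        exact ⟨⟨hz1, pol_symm hlinv hz2⟩, rfl⟩
    have h2 : rk ((fun y : G => (y, x.2)) '' {y | y ∈ N ∧ y ∈ pol x.2}) =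
        rk {y | y ∈ N ∧ y ∈ pol x.2} :=
      rk_injOn (by fun_prop) (hN.df.inter (Setup.df_pol x.2)) (fun a _ b _ h => (Prod.mk.inj h).1)
    show rk {y | y ∈ N ∧ y ∈ pol x.2} = f
    rw [← h2, ← h1]
    exact hx2
  have hLle : rk L ≤ rk (invs G) := rk_mono hdfL Setup.df_invs hLI
  have hfpos : 0 < f := by omega
  have hNN : rk (N ×ˢ N) = rk N + rk N := rk_prod hN.df hN.df hN.ne hN.ne
  obtain ⟨hd1, hr1⟩ := PD2_rk S hN.df hdfL hLI hLne hfpos hfib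
  have hle1 : rk L + 2 * f ≤ rk N + rk N := by
    rw [← hr1, ← hNN]
    refine rk_mono hd1 (Df.prod hN.df hN.df) ?_
    rintro q ⟨l, _, ⟨⟨h1, _⟩, ⟨h2, _⟩⟩, _⟩
    exact ⟨h1, h2⟩
  have hL' : rk (L \ X) = rk (invs G) := by
    have h1 : L = (L \ X) ∪ (L ∩ X) := by
      ext x
      by_cases hx : x ∈ X
      · simp [hx]
      · simp [hx]
    have h2 : rk L = max (rk (L \ X)) (rk (L ∩ X)) := by
      conv_lhs => rw [h1]
      exact rk_union (hdfL.diff hX) (hdfL.inter hX)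
    have h3 : rk (L ∩ X) ≤ rk X := rk_mono (hdfL.inter hX) hX Set.inter_subset_right
    omega
  have hL'ne : (L \ X).Nonempty := by
    rw [Set.nonempty_iff_ne_empty]
    intro h
    rw [h, rk_empty] at hL'
    omega
  obtain ⟨hd2, hr2⟩ := PD2_rk S hN.df (hdfL.diff hX) (fun l hl => hLI hl.1) hL'ne hfpos
    (fun l hl => hfib l hl.1)
  have hp : DfP fun z : G × G => z.1 ≠ z.2 ∧
      ∃ l, IsInv l ∧ z.1 ∈ pol l ∧ z.2 ∈ pol l ∧ l ∉ X := by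
    have h1 : DfP fun w : (G × G) × G => w.1.1 ∈ pol w.2 :=
      DfP.comp (f := fun w : (G × G) × G => (w.1.1, w.2)) (p := fun q : G × G => q.1 ∈ pol q.2)
        Setup.dfP_mem_pol (by fun_prop)
    have h2 : DfP fun w : (G × G) × G => w.1.2 ∈ pol w.2 :=
      DfP.comp (f := fun w : (G × G) × G => (w.1.2, w.2)) (p := fun q : G × G => q.1 ∈ pol q.2)
        Setup.dfP_mem_pol (by fun_prop)
    have h3 : DfP fun w : (G × G) × G => IsInv w.2 :=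
      DfP.mem (S := invs G) (f := fun w : (G × G) × G => w.2) Setup.df_invs (by fun_prop)
    exact DfP.and (DfP.not (DfP.eq (by fun_prop) (by fun_prop)))
      (DfP.ex (p := fun (z : G × G) (l : G) => IsInv l ∧ z.1 ∈ pol l ∧ z.2 ∈ pol l ∧ l ∉ X)
        (DfP.and h3 (DfP.and h1 (DfP.and h2 (DfP.not (DfP.mem hX (by fun_prop)))))))
  have hev : ∀ᶠ z in gen (N ×ˢ N), z.1 ≠ z.2 ∧
      ∃ l, IsInv l ∧ z.1 ∈ pol l ∧ z.2 ∈ pol l ∧ l ∉ X := by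
    refine Irr.ev_of_rk (hN.prod hN) hp (by omega) ?_
    have h1 : rk N + rk N ≤ rk (L \ X) + 2 * f := by omega
    rw [hNN]
    refine le_trans h1 ?_
    rw [← hr2]
    refine rk_mono hd2 (DfP.and (Df.prod hN.df hN.df) hp) ?_
    rintro q ⟨l, hl, ⟨⟨h1, h2⟩, ⟨h3, h4⟩⟩, h5⟩
    exact ⟨⟨h1, h3⟩, h5, l, hLI hl.1, h2, h4, hl.2⟩
  exact (ev_prod_iff hN hN (p := fun j k : G => j ≠ k ∧
    ∃ l, IsInv l ∧ j ∈ pol l ∧ k ∈ pol l ∧ l ∉ X) hp).1 hev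

end Pool.Agent.A1C
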