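import Pool.Agent.A1C.PB5
import Pool.Agent.A1C.PD2

/-!
# PD3: the neighbours of the base point, existence of good pairs (D1c)

`NI = {i q² : q ∈ Q}`, definable bijection with `Q` (`Q_sq_inj`). `rk W = rk Q + c`, `rk Q + rk D = rk K + c`.
`exists_good`: use `generic_pole` for `N = NI` and `X = {i} ∪ pol i ∪ {l | ¬ Tor i l}` (rank `< rk I`: `rk_pol`, `ev_tor_of`), transported to `W` by
`ev_W_iff`, `ev_Q_iff` / the bijection (`z⁻¹ i z = i q²` for `z = c q`); `common_rank` for `W`: the last rank is at least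
`2 rk W - 3 c = 2 (rk K - rk D) + c > c`; `rho_ne_one`, `rho_sq_ne` for the finitely many `e ∈ F`.
-/

namespace Pool.Agent.A1C

universe u

namespace BSetup

variable {M : Type u} [Univ M] {G : Type u} [Group G] [DGrp M G] (S : BSetup G)

open Filter

/-- involutions of the neighbours of the base point -/
def NI : Set G := {j | ∃ q ∈ S.Q, j = S.i * (q * q)}

private theorem PD3_eq {q : G} (hq : q ∈ S.Q) : S.i * (q * q) = q⁻¹ * S.i * q := by
  have h1 := S.Q_i hq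
  have hi : S.i * S.i = 1 := S.i_inv.1
  rw [← h1]
  calc S.i * (q * q) = S.i * q * 1 * q := by group
    _ = S.i * q * (S.i * S.i) * q := by rw [hi]
    _ = S.i * q * S.i * S.i * q := by group

private theorem PD3_fun : DfFun fun q : G => S.i * (q * q) := by fun_prop

private theorem PD3_image : S.NI = (fun q : G => S.i * (q * q)) '' S.Q := by
  ext j
  constructor
  · rintro ⟨q, hq, rfl⟩
    exact ⟨q, hq, rfl⟩
  · rintro ⟨q, hq, rfl⟩
    exact ⟨q, hq, rfl⟩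

private theorem PD3_inj : Set.InjOn (fun q : G => S.i * (q * q)) S.Q := by
  intro q hq q' hq' h
  exact S.Q_sq_inj hq hq' (mul_left_cancel h)

theorem NI_inv {j : G} (hj : j ∈ S.NI) : IsInv j := by
  obtain ⟨q, hq, rfl⟩ := hj
  rw [S.PD3_eq hq]
  exact S.i_inv.cj q

theorem irr_NI : Irr S.NI := by
  rw [S.PD3_image]
  exact irr_of_inj S.PD3_fun S.irr_Q S.PD3_inj

theorem rk_NI : rk S.NI = rk S.Q := by
  rw [S.PD3_image]
  exact rk_injOn S.PD3_fun S.df_Q S.PD3_inj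

/-- transport from `NI` to `W` -/
theorem ev_NI_of {p : G → Prop} (hp : DfP p) (h : ∀ᶠ j in gen S.NI, p j) :
    ∀ᶠ z in gen S.W, p (z⁻¹ * S.i * z) := by
  rw [S.PD3_image, ev_inj_iff S.PD3_fun S.df_Q S.PD3_inj] at h
  rw [S.ev_W_iff (p := fun z => p (z⁻¹ * S.i * z)) (DfP.comp hp (by fun_prop))]
  filter_upwards [ev_mem (S.C : Set G)] with c hc
  filter_upwards [h, ev_mem S.Q] with q hq hqQ
  have e : (c * q)⁻¹ * S.i * (c * q) = S.i * (q * q) := by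
    rw [S.PD3_eq hqQ]
    have hci : S.i * c = c * S.i := S.comm _ S.i_mem _ hc
    calc (c * q)⁻¹ * S.i * (c * q) = q⁻¹ * c⁻¹ * (S.i * c) * q := by group
      _ = q⁻¹ * S.i * q := by rw [hci]; group
  rw [e]
  exact hq

/-- the set of the bad poles -/
private def PD3_X : Set G := {l | l ∈ invs G ∧ ¬ (S.i ≠ l ∧ Tor S.i l)} ∪ pol S.i

private theorem PD3_dfP_tor_i : DfP fun l : G => S.i ≠ l ∧ Tor S.i l :=
  DfP.and (DfP.not (DfP.eq (by fun_prop) (by fun_prop)))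
    (DfP.comp (f := fun l : G => (S.i, l)) (p := fun p : G × G => Tor p.1 p.2) Setup.dfP_tor
      (by fun_prop))

private theorem PD3_df_bad : Df {l : G | l ∈ invs G ∧ ¬ (S.i ≠ l ∧ Tor S.i l)} :=
  DfP.and (DfP.mem Setup.df_invs (by fun_prop)) (DfP.not S.PD3_dfP_tor_i)

private theorem PD3_df_X : Df S.PD3_X := S.PD3_df_bad.union (Setup.df_pol S.i)

private theorem PD3_rk_X : rk S.PD3_X < rk (invs G) := by
  have hc := S.toSetup.rk_C_pos
  have h2 := S.toSetup.rk_invs_eq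
  unfold PD3_X
  rw [rk_union S.PD3_df_bad (Setup.df_pol S.i), S.toSetup.rk_pol S.i_inv]
  refine max_lt ?_ (by omega)
  have h1 := (ev_iff Setup.df_invs S.PD3_dfP_tor_i).1 (S.toSetup.ev_tor_of S.i_inv)
  rcases h1 with h1 | h1
  · rw [h1, rk_empty]
    omega
  · exact h1

private theorem PD3_pair (hr : rk (S.D : Set G) < rk (S.K : Set G)) :
    ∀ᶠ x in gen S.W, ∀ᶠ y in gen S.W, x⁻¹ * S.i * x ≠ y⁻¹ * S.i * y ∧
      ∃ l, IsInv l ∧ x⁻¹ * S.i * x ∈ pol l ∧ y⁻¹ * S.i * y ∈ pol l ∧ l ∉ S.PD3_X := by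
  have hq := S.rk_Q
  have h1 := S.toSetup.generic_pole S.irr_NI (fun j hj => S.NI_inv hj)
    (by rw [S.rk_NI]; omega) S.PD3_df_X S.PD3_rk_X
  have hX := S.PD3_df_X
  have hN := S.irr_NI.df
  have hI : Df (invs G) := Setup.df_invs
  have hpol : ∀ {f g : (G × G) × G → G}, DfFun f → DfFun g → DfP fun z : (G × G) × G => f z ∈ pol (g z) :=
    fun hf hg => DfP.comp (p := fun p : G × G => p.1 ∈ pol p.2) Setup.dfP_mem_pol (hf.pair hg)
  have hp : DfP fun z : G × G => z.1 ≠ z.2 ∧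
      ∃ l, IsInv l ∧ z.1 ∈ pol l ∧ z.2 ∈ pol l ∧ l ∉ S.PD3_X := by
    refine DfP.and (DfP.not (DfP.eq (by fun_prop) (by fun_prop))) (DfP.ex ?_)
    refine DfP.and (DfP.mem (S := invs G) hI (by fun_prop)) (DfP.and (hpol (by fun_prop) (by fun_prop))
      (DfP.and (hpol (by fun_prop) (by fun_prop)) (DfP.not (DfP.mem hX (by fun_prop)))))
  have hp1 : ∀ j, DfP fun k : G => j ≠ k ∧
      ∃ l, IsInv l ∧ j ∈ pol l ∧ k ∈ pol l ∧ l ∉ S.PD3_X := fun j =>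
    DfP.comp (f := fun k : G => (j, k)) hp (by fun_prop)
  have hP : DfP fun j : G => ∀ᶠ k in gen S.NI, j ≠ k ∧
      ∃ l, IsInv l ∧ j ∈ pol l ∧ k ∈ pol l ∧ l ∉ S.PD3_X :=
    DfP.ev (q := fun _ k => k ∈ S.NI) (DfP.mem hN (by fun_prop)) hp
  have h2 := S.ev_NI_of hP h1
  filter_upwards [h2] with x hx
  exact S.ev_NI_of (hp1 _) hx

theorem exists_good (hr : rk (S.D : Set G) < rk (S.K : Set G)) (F : Finset G)
    (hF : ∀ e ∈ F, e ∈ S.D ∧ e ≠ 1) :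
    ∃ x ∈ S.W, ∃ y ∈ S.W, ∃ l o : G, IsInv l ∧ IsInv o ∧ x⁻¹ * S.i * x ∈ pol l ∧
      y⁻¹ * S.i * y ∈ pol l ∧ x⁻¹ * S.i * x ≠ y⁻¹ * S.i * y ∧ l ≠ S.i ∧ l ∉ pol S.i ∧
      o ∈ pol l ∧ o ∈ pol S.i ∧ (∀ e ∈ F, rho x y e ≠ 1 ∧ rho x y e * rho x y e ≠ 1) ∧
      rk (S.C : Set G) < rk {h : G | x * h⁻¹ ∈ S.W ∧ y * h⁻¹ ∈ S.W} := by
  have h1 := S.PD3_pair hr
  have h2 := common_rank S.irr S.irr_W
  obtain ⟨x, hx, hx1, hx2⟩ := ev_exists S.irr_W.ne (h1.and h2)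
  have h3 : ∀ᶠ y in gen S.W, ∀ e ∈ F, rho x y e = 1 ∨ rho x y e * rho x y e ≠ 1 :=
    (Filter.eventually_all_finset F).2 fun e he => S.rho_sq_ne hx (hF e he).1 (hF e he).2
  obtain ⟨y, hy, ⟨hne, l, hl, hxl, hyl, hlX⟩, hy2, hy3⟩ :=
    ev_exists S.irr_W.ne (hx1.and (hx2.and h3))
  have htor : Tor (x⁻¹ * S.i * x) (y⁻¹ * S.i * y) := ⟨l, hl, hxl, hyl⟩
  have hlp : l ∉ pol S.i := fun h => hlX (Or.inr h)
  have hlt : S.i ≠ l ∧ Tor S.i l := by
    by_contra h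
    exact hlX (Or.inl ⟨hl, h⟩)
  obtain ⟨hil, o, ho, hio, hlo⟩ := hlt
  refine ⟨x, hx, y, hy, l, o, hl, ho, hxl, hyl, hne, hil.symm, hlp, pol_symm ho hlo,
    pol_symm ho hio, ?_, ?_⟩
  · intro e he
    have h4 := S.rho_ne_one hx hy (hF e he).1 (hF e he).2 hne htor
    exact ⟨h4, (hy3 e he).resolve_left h4⟩
  · have h5 := S.rk_W
    have h6 := S.rk_Q
    have h7 := S.toSetup.rk_invs_eq
    have h8 := S.toSetup.rk_invs
    omega

end BSetup

end Pool.Agent.A1C
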