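import Pool.Agent.A1C.PB5

/-!
# PD4: the line groups `A_t` (D1c), algebra

Notation of (D1c): `l` pole of `x⁻¹ i x`, `y⁻¹ i y`; `o ∈ pol l ∩ pol i`; `c₀ = l o`. `h` is a common neighbour if `x h⁻¹, y h⁻¹ ∈ W`; `1` is one.
`A_line`: `θ = l t` (`E 1 t = t`) commutes with `rho` (`comm_rho` for `h = 1`); `θ ≠ 1`, `θ² ≠ 1`, otherwise `l` inverts `t ≠ 1`, `t ∈ C`, so `l` normalises `C` and commutes with `i`
(`comm_of_cj_mem`), so `l = i` or `l ∈ pol i`. `c₀` inverts `θ`; `Setup.inverted` gives that `cen θ` is a line group with `c₀` on its line; `rho ∈ cen θ`,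
`rho² ≠ 1`, so `cen rho = cen θ` (`LineGrp.cen_eq`).
-/

namespace Pool.Agent.A1C

universe u

namespace BSetup

variable {M : Type u} [Univ M] {G : Type u} [Group G] [DGrp M G] (S : BSetup G)

/-- the data of (D1c) without `h`, `t` -/
structure Good (x y l o : G) : Prop where
  hx : x ∈ S.W
  hy : y ∈ S.W
  hl : IsInv l
  ho : IsInv o
  hxl : x⁻¹ * S.i * x ∈ pol l
  hyl : y⁻¹ * S.i * y ∈ pol l
  hli : l ≠ S.i
  hlp : l ∉ pol S.i
  hol : o ∈ pol l
  hoi : o ∈ pol S.i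

/-- `t` is admissible -/
structure Adm (x y t : G) : Prop where
  ht : t ∈ S.D
  ht1 : t ≠ 1
  hti : t ≠ S.i
  hr1 : rho x y (S.i * t⁻¹) ≠ 1
  hr2 : rho x y (S.i * t⁻¹) * rho x y (S.i * t⁻¹) ≠ 1

variable {S} {x y l o : G}

theorem Good.theta_ne (hg : S.Good x y l o) {t : G} (ht : t ∈ S.D) (ht1 : t ≠ 1) :
    l * t ≠ 1 ∧ (l * t) * (l * t) ≠ 1 := by
  have hl := hg.hl
  have htC : t ∈ S.C := ht.2
  constructor
  · intro h
    have h1 : t = l := by
      have h2 : l * t = l * l := by rw [h, hl.1]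
      exact mul_left_cancel h2
    have htt : t * t = 1 := by rw [h1, hl.1]
    rcases S.i_uniq t htC htt with h3 | h3
    · exact ht1 h3
    · exact hg.hli (h1.symm.trans h3)
  · intro h
    have hli : l⁻¹ = l := inv_eq_of_mul_eq_one_left hl.1
    have h1 : l⁻¹ * t * l = t⁻¹ := by
      rw [hli, eq_inv_iff_mul_eq_one]
      rw [← h]
      group
    have hcl : t ∈ S.toSetup.cl S.i := by rw [S.toSetup.cl_i]; exact htC
    have h2 := S.toSetup.comm_of_cj_mem S.i_inv hcl ht1 (g := l) (by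
      rw [h1, S.toSetup.cl_i]
      exact S.C.inv_mem htC)
    rcases (S.toSetup.comm_iff S.i_inv).1 h2 with h3 | h3
    · rw [S.toSetup.cl_i] at h3
      rcases S.i_uniq l h3 hl.1 with h4 | h4
      · exact hl.2 h4
      · exact hg.hli h4
    · exact hg.hlp h3

/-- `c₀ = l o` is an involution inverting `l t` -/
theorem Good.c0_inv (hg : S.Good x y l o) : IsInv (l * o) := by
  exact (tor_of_comm hg.hl hg.ho hg.hol.2.1.symm hg.hol.2.2.symm).1

theorem Good.c0_inverts (hg : S.Good x y l o) {t : G} (ht : t ∈ S.D) :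
    (l * o) * (l * t) * (l * o) = (l * t)⁻¹ := by
  have hl := hg.hl
  have hli : l⁻¹ = l := inv_eq_of_mul_eq_one_left hl.1
  have h1 : o * t * o = t⁻¹ := S.toSetup.pol_inverts S.i_inv hg.hoi (by
    rw [S.toSetup.cl_i]
    exact ht.2)
  have h2 : o * l = l * o := hg.hol.2.2
  calc (l * o) * (l * t) * (l * o) = (o * l) * (l * t) * (o * l) := by rw [h2]
    _ = o * (l * l) * t * o * l := by group
    _ = (o * t * o) * l := by rw [hl.1, mul_one]
    _ = (l * t)⁻¹ := by rw [h1, mul_inv_rev, hli]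

private theorem PD4_comm (S : BSetup G) {x y l o : G} (hg : S.Good x y l o) {t : G} (ht : t ∈ S.D) :
    (l * t) * rho x y (S.i * t⁻¹) = rho x y (S.i * t⁻¹) * (l * t) := by
  have hW : ∀ z ∈ S.W, z * (1 : G)⁻¹ ∈ S.W := fun z hz => by rwa [inv_one, mul_one]
  have h1 := S.comm_rho (h := 1) hg.hl hg.hxl hg.hyl (hW x hg.hx) (hW y hg.hy) ht
  have h2 : E 1 t = t := by
    unfold E
    group
  rwa [h2] at h1

/-- `A_t = cen (rho_e)`, `e = i t⁻¹`, is a line group whose line contains `c₀` -/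
theorem Good.A_line (hg : S.Good x y l o) {t : G} (ht : S.Adm x y t) :
    S.toSetup.LineGrp (cen (rho x y (S.i * t⁻¹))) ∧ l * o ∈ line (cen (rho x y (S.i * t⁻¹))) ∧
      l * t ∈ cen (rho x y (S.i * t⁻¹)) := by
  obtain ⟨h1, h2⟩ := hg.theta_ne ht.ht ht.ht1
  obtain ⟨h3, h4⟩ := S.toSetup.inverted hg.c0_inv h1 h2 (hg.c0_inverts ht.ht)
  have h5 := S.PD4_comm hg ht.ht
  have h6 : rho x y (S.i * t⁻¹) ∈ cen (l * t) := mem_cen.2 h5.symm
  have h7 := Setup.LineGrp.cen_eq S.toSetup h3 h6 ht.hr2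
  rw [h7]
  exact ⟨h3, h4, mem_cen.2 rfl⟩

/-- `γ_t(h) = t⁻¹ E h t ∈ A_t` -/
theorem Good.gamma_mem (hg : S.Good x y l o) {t : G} (ht : S.Adm x y t) {h : G}
    (hx : x * h⁻¹ ∈ S.W) (hy : y * h⁻¹ ∈ S.W) :
    t⁻¹ * E h t ∈ cen (rho x y (S.i * t⁻¹)) := by
  have h1 : l * t ∈ cen (rho x y (S.i * t⁻¹)) := mem_cen.2 (S.PD4_comm hg ht.ht)
  have h2 : l * E h t ∈ cen (rho x y (S.i * t⁻¹)) :=
    mem_cen.2 (S.comm_rho hg.hl hg.hxl hg.hyl hx hy ht.ht)
  have h3 : t⁻¹ * E h t = (l * t)⁻¹ * (l * E h t) := by group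
  rw [h3]
  exact (cen (rho x y (S.i * t⁻¹))).mul_mem ((cen (rho x y (S.i * t⁻¹))).inv_mem h1) h2

/-- `γ_t(h) = 1` only if `i_h = i` -/
theorem gamma_ne {t h : G} (ht : t ∈ S.D) (ht1 : t ≠ 1) (hh : h⁻¹ * S.i * h ≠ S.i) :
    t⁻¹ * E h t ≠ 1 := by
  intro h1
  have h2 : h⁻¹ * t * h = t := (inv_mul_eq_one.1 h1).symm
  have hcl : t ∈ S.toSetup.cl S.i := by rw [S.toSetup.cl_i]; exact ht.2
  have h3 := S.toSetup.comm_of_cj_mem S.i_inv hcl ht1 (g := h) (by rw [h2]; exact hcl)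
  apply hh
  rw [mul_assoc, ← h3, inv_mul_cancel_left]

/-- the groups `A_{d'}` and `A_{dd'}` are different -/
theorem Good.A_ne (hg : S.Good x y l o) {d d' : G} (hd : S.Adm x y d) (hd' : S.Adm x y d')
    (hdd : S.Adm x y (d * d')) :
    cen (rho x y (S.i * d'⁻¹)) ≠ cen (rho x y (S.i * (d * d')⁻¹)) := by
  intro he
  obtain ⟨h1, _, h2⟩ := hg.A_line hd'
  obtain ⟨_, _, h3⟩ := hg.A_line hdd
  rw [← he] at h3
  have hcomm : d * d' = d' * d := S.D_comm hd.ht hd'.ht.2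
  have h4 : d ∈ cen (rho x y (S.i * d'⁻¹)) := by
    have h5 := (cen (rho x y (S.i * d'⁻¹))).mul_mem
      ((cen (rho x y (S.i * d'⁻¹))).inv_mem h2) h3
    have h6 : (l * d')⁻¹ * (l * (d * d')) = d := by
      rw [hcomm]
      group
    rwa [h6] at h5
  have h7 : S.toSetup.LineGrp (S.toSetup.cl S.i) := S.toSetup.lineGrp_cl S.i_inv
  have h8 : d ∈ S.toSetup.cl S.i := by rw [S.toSetup.cl_i]; exact hd.ht.2
  have h9 := Setup.LineGrp.eq_of_mem S.toSetup h1 h7 h4 h8 hd.ht1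
  rw [h9, S.toSetup.cl_i] at h2
  have h10 : l ∈ S.C := by
    have h11 := S.C.mul_mem h2 (S.C.inv_mem hd'.ht.2)
    rwa [mul_inv_cancel_right] at h11
  rcases S.i_uniq l h10 hg.hl.1 with h12 | h12
  · exact hg.hl.2 h12
  · exact hg.hli h12

end BSetup

end Pool.Agent.A1C
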