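import Pool.Agent.A1C.PA7

/-!
# PF0: definitions of Part F (final file)

Part F of the paper proof: if all pairs of involutions are toral one gets a contradiction.
`Coll p q r`: the points `p, q, r` of the 3-space (points = elements of `G`, lines = cosets of the `C_l`, planes = cosets of `I`)
are on a line. `Pl`: a projective plane with an anisotropic polarity; the lines are the sets `{s | perp s p}`.
`homs i`: homologies with centre `i` whose axis is the polar of `i`. `S.plane`: the plane of the involutions.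
-/

namespace Pool.Agent.A1C

universe u

/-- all pairs of different involutions are toral -/
def AllTor (G : Type u) [Group G] : Prop := ∀ j k : G, IsInv j → IsInv k → j ≠ k → Tor j k

/-- a projective plane with an anisotropic polarity -/
structure Pl (P : Type u) where
  perp : P → P → Prop
  symm : ∀ s t, perp s t → perp t s
  irrefl : ∀ s, ¬ perp s s
  ex : ∀ s t, s ≠ t → ∃ p, perp s p ∧ perp t p
  uniq : ∀ s t p q, s ≠ t → perp s p → perp t p → perp s q → perp t q → p = q
  inf : ∀ p, {s | perp s p}.Infinite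

namespace Pl

variable {P : Type u} (Q : Pl P)

/-- `s, t, r` are on a line -/
def C3 (s t r : P) : Prop := ∃ p, Q.perp s p ∧ Q.perp t p ∧ Q.perp r p

/-- homologies with centre `i` and axis the polar of `i` -/
structure IsHom (i : P) (h : Equiv.Perm P) : Prop where
  coll : ∀ s t r, Q.C3 (h s) (h t) (h r) ↔ Q.C3 s t r
  center : h i = i
  axis : ∀ e, Q.perp e i → h e = e
  lines : ∀ s, Q.C3 i s (h s)

/-- the group of these homologies -/
def homs (i : P) : Subgroup (Equiv.Perm P) where
  carrier := {h | Q.IsHom i h}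
  mul_mem' := by
    intro g h hg hh
    refine ⟨fun s t r => (hg.coll _ _ _).trans (hh.coll _ _ _), ?_, ?_, ?_⟩
    · change g (h i) = i
      rw [hh.center, hg.center]
    · intro e he
      change g (h e) = e
      rw [hh.axis e he, hg.axis e he]
    · intro s
      change Q.C3 i s (g (h s))
      obtain ⟨p, h1, h2, h3⟩ := hh.lines s
      by_cases hs : h s = i
      · rw [hs, hg.center]
        exact ⟨p, h1, h2, h1⟩
      · obtain ⟨q, h4, h5, h6⟩ := hg.lines (h s)
        have h7 : q = p := Q.uniq i (h s) q p (Ne.symm hs) h4 h5 h1 h3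
        rw [h7] at h6
        exact ⟨p, h1, h2, h6⟩
  one_mem' := by
    refine ⟨fun s t r => Iff.rfl, rfl, fun e _ => rfl, fun s => ?_⟩
    by_cases hs : s = i
    · subst hs
      obtain ⟨p, hp⟩ := (Q.inf s).nonempty
      exact ⟨p, Q.symm _ _ hp, Q.symm _ _ hp, Q.symm _ _ hp⟩
    · obtain ⟨p, h1, h2⟩ := Q.ex i s (Ne.symm hs)
      exact ⟨p, h1, h2, h2⟩
  inv_mem' := by
    intro h hh
    refine ⟨fun s t r => ?_, ?_, ?_, ?_⟩
    · have h1 := hh.coll (h.symm s) (h.symm t) (h.symm r)
      rw [h.apply_symm_apply, h.apply_symm_apply, h.apply_symm_apply] at h1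
      exact h1.symm
    · rw [Equiv.Perm.inv_eq_iff_eq, hh.center]
    · intro e he
      rw [Equiv.Perm.inv_eq_iff_eq, hh.axis e he]
    · intro s
      obtain ⟨p, h1, h2, h3⟩ := hh.lines (h.symm s)
      rw [h.apply_symm_apply] at h3
      exact ⟨p, h1, h3, h2⟩

theorem mem_homs {i : P} {h : Equiv.Perm P} : h ∈ Q.homs i ↔ Q.IsHom i h := Iff.rfl

end Pl

/-- conjugation on the involutions -/
def cjp {G : Type u} [Group G] (g : G) : Equiv.Perm (invs G) where
  toFun s := ⟨g * s.1 * g⁻¹, by
    have h := IsInv.cj s.2 g⁻¹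
    rw [inv_inv] at h
    exact h⟩
  invFun s := ⟨g⁻¹ * s.1 * g, IsInv.cj s.2 g⟩
  left_inv s := by
    apply Subtype.ext
    simp only
    group
  right_inv s := by
    apply Subtype.ext
    simp only
    group

theorem cjp_val {G : Type u} [Group G] (g : G) (s : invs G) : (cjp g s).1 = g * s.1 * g⁻¹ := rfl

theorem cjp_mul {G : Type u} [Group G] (g h : G) : cjp (g * h) = cjp g * cjp h := by
  ext s
  rw [cjp_val]
  change _ = g * (h * s.1 * h⁻¹) * g⁻¹
  group

namespace Setup

variable {M : Type u} [Univ M] {G : Type u} [Group G] [DGrp M G] (S : Setup G)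

/-- `p, q, r` lie in one coset of one `C_l` -/
def Coll (p q r : G) : Prop := ∃ l, IsInv l ∧ p⁻¹ * q ∈ S.cl l ∧ p⁻¹ * r ∈ S.cl l

/-- the projection from `1` of `I` to the plane `x I`, followed by the projection from `p` of `x I` to `I` -/
def Rp (x p s t : G) : Prop := ∃ y, IsInv (x⁻¹ * y) ∧ S.Coll 1 s y ∧ S.Coll p t y

/-- the plane of the involutions -/
def plane (hT : AllTor G) : Pl (invs G) where
  perp s t := s.1 ∈ pol t.1
  symm s t h := pol_symm t.2 h
  irrefl s h := h.2.1 rfl
  ex s t h := by
    obtain ⟨l, hl, h1, h2⟩ := hT s.1 t.1 s.2 t.2 (fun h' => h (Subtype.ext h'))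
    exact ⟨⟨l, hl⟩, h1, h2⟩
  uniq s t p q h h1 h2 h3 h4 :=
    Subtype.ext (S.pole_unique (fun h' => h (Subtype.ext h')) p.2 q.2 h1 h2 h3 h4)
  inf p := by
    intro hfin
    have h1 : (pol p.1).Finite := by
      refine (hfin.image Subtype.val).subset ?_
      intro s hs
      exact ⟨⟨s, hs.1⟩, hs, rfl⟩
    have h2 := (rk_eq_zero_iff (df_pol p.1)).2 h1
    have h3 := S.rk_pol p.2
    have h4 := S.rk_C_pos
    omega

/-- the point `i` -/
def pt : invs G := ⟨S.i, S.i_inv⟩

theorem perp_iff (hT : AllTor G) (s t : invs G) : (S.plane hT).perp s t ↔ s.1 ∈ pol t.1 := Iff.rfl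

end Setup

end Pool.Agent.A1C
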