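import Pool.Agent.A1C.PF0

/-!
# PF1: every element lies in some `C_l`; involutions in cosets of `C_l` (parts (f1), (f2))

* `exists_cl` (f1). If `u` commutes with `i`: `comm_iff` gives `u ∈ C_i` or `u ∈ pol i`, then `u` is an involution and `u ∈ C_u`.
  Else `k = u⁻¹ i u ≠ i`; let `l` be an involution with `i, k ∈ pol l` (`hT`), `z ∈ C_l` with `z z = i k`, `z⁻¹ i z = k` (`tor_sqrt`), `n = u z⁻¹`;
  `n` commutes with `i`. If `n ∈ pol i`, replace `z` by `l z`, `n` by `n l` (`l ∈ pol i` by `pol_symm`; `n l ∈ C_i` by `pol_mul_pol`; `z` commutes with `l`,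
  so still `u = n z`). Now `n ∈ C_i`, `z ∈ C_l`, `o = i l` is an involution in `pol i ∩ pol l`, `n o ∈ pol i` (`cl_mul_pol`),
  `o z ∈ pol l` (`pol_mul_cl`), so `u = (n o)(o z)` is a product of two involutions. If they are equal, `u = 1 ∈ C_i`; else
  they are toral, and `u` lies in `C_(l')` by `pol_mul_pol`.
* `exists_inv_coset` (f2). If `h` commutes with `l`: `h ∈ C_l` (take `x = h⁻¹ l`) or `h ∈ pol l` (`x = 1`). Else `l' = h l h⁻¹ ≠ l`, `o` an involution with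
  `l, l' ∈ pol o`, `z ∈ C_o` with `z z = l l'`, `t = l z`; `t ∈ pol o` is an involution, `t l t⁻¹ = l'` (`l z l = z⁻¹`). `t⁻¹ h` commutes with
  `l`. If `t⁻¹ h ∈ C_l` take `h x = t`. If `t⁻¹ h ∈ pol l` take `h x = t o` (an involution as `t ∈ pol o`; `(t o)⁻¹ h = o t⁻¹ h ∈ C_l`
  by `pol_mul_pol`, `o ∈ pol l`).
* `inv_coset_unique`: `j = h x ≠ k = h y` involutions, `j k = j⁻¹ k = x⁻¹ y ∈ C_l`, so `j ∈ pol l` (`mem_pol_of_mul_mem`), and `h = j x⁻¹ ∈ pol l`.
* `inv_inter`: `k = u⁻¹ j` is an involution, `j k = j k⁻¹ = u ∈ C_m`, `j ≠ k`; `mem_pol_of_mul_mem`.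
* `cl_eq_of_mem_inv`: an involution in `C_m` is `m` (`cl_inv_eq`).
-/

namespace Pool.Agent.A1C

universe u

namespace Setup

variable {M : Type u} [Univ M] {G : Type u} [Group G] [DGrp M G] (S : Setup G)

private theorem PF1_inv {j : G} (hj : IsInv j) : j⁻¹ = j :=
  inv_eq_of_mul_eq_one_left hj.1

private theorem PF1_core (hT : AllTor G) {l n z : G} (hl : IsInv l) (hi : S.i ∈ pol l)
    (hn : n ∈ S.cl S.i) (hz : z ∈ S.cl l) : ∃ l', IsInv l' ∧ n * z ∈ S.cl l' := by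
  obtain ⟨ho, h1, h2⟩ := tor_of_comm S.i_inv hl hi.2.1 hi.2.2
  have h3 : S.i * l ∈ pol S.i := pol_symm ho h1
  have h4 : S.i * l ∈ pol l := pol_symm ho h2
  have h5 : n * (S.i * l) ∈ pol S.i := S.cl_mul_pol S.i_inv h3 hn
  have h6 : S.i * l * z ∈ pol l := S.pol_mul_cl hl h4 hz
  have e : n * z = n * (S.i * l) * (S.i * l * z) := by
    calc n * z = n * ((S.i * l) * (S.i * l)) * z := by rw [ho.1, mul_one]
      _ = n * (S.i * l) * (S.i * l * z) := by simp only [mul_assoc]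
  by_cases h : n * (S.i * l) = S.i * l * z
  · refine ⟨S.i, S.i_inv, ?_⟩
    rw [e, ← h, h5.1.1]
    exact (S.cl S.i).one_mem
  · obtain ⟨l', hl', h7, h8⟩ := hT _ _ h5.1 h6.1 h
    refine ⟨l', hl', ?_⟩
    rw [e]
    exact S.pol_mul_pol hl' h7 h8

theorem exists_cl (hT : AllTor G) (u : G) : ∃ l, IsInv l ∧ u ∈ S.cl l := by
  by_cases h : u * S.i = S.i * u
  · rcases (S.comm_iff S.i_inv).1 h with h1 | h1
    · exact ⟨S.i, S.i_inv, h1⟩
    · exact ⟨u, h1.1, S.self_mem_cl h1.1⟩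
  · have hk : IsInv (u⁻¹ * S.i * u) := S.i_inv.cj u
    have hne : S.i ≠ u⁻¹ * S.i * u := by
      intro h1
      apply h
      calc u * S.i = u * (u⁻¹ * S.i * u) := by rw [← h1]
        _ = S.i * u := by rw [← mul_assoc, ← mul_assoc, mul_inv_cancel, one_mul]
    obtain ⟨l, hl, hi, hk'⟩ := hT _ _ S.i_inv hk hne
    obtain ⟨z, hz, _, hzz⟩ := S.tor_sqrt hl hi hk'
    have hn : u * z⁻¹ * S.i = S.i * (u * z⁻¹) := by
      have h1 : S.i * z = z * (u⁻¹ * S.i * u) := by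
        rw [← hzz, ← mul_assoc, ← mul_assoc, mul_inv_cancel, one_mul]
      have h2 : z⁻¹ * S.i = u⁻¹ * S.i * u * z⁻¹ := by
        rw [inv_mul_eq_iff_eq_mul, ← mul_assoc, ← h1, mul_assoc, mul_inv_cancel, mul_one]
      rw [mul_assoc, h2, ← mul_assoc, ← mul_assoc, ← mul_assoc, mul_inv_cancel, one_mul, mul_assoc]
    have e : u = u * z⁻¹ * z := (inv_mul_cancel_right u z).symm
    rcases (S.comm_iff S.i_inv).1 hn with h1 | h1
    · rw [e]
      exact S.PF1_core hT hl hi h1 hz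
    · have h2 : l ∈ pol S.i := pol_symm hl hi
      have h3 := S.PF1_core hT hl hi (S.pol_mul_pol S.i_inv h1 h2)
        ((S.cl l).mul_mem (S.self_mem_cl hl) hz)
      have e2 : u * z⁻¹ * l * (l * z) = u := by
        calc u * z⁻¹ * l * (l * z) = u * z⁻¹ * (l * l) * z := by simp only [mul_assoc]
          _ = u := by rw [hl.1, mul_one, ← e]
      rwa [e2] at h3

theorem exists_inv_coset (hT : AllTor G) {l : G} (hl : IsInv l) (h : G) :
    ∃ x ∈ S.cl l, IsInv (h * x) := by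
  by_cases hc : h * l = l * h
  · rcases (S.comm_iff hl).1 hc with h1 | h1
    · refine ⟨h⁻¹ * l, (S.cl l).mul_mem ((S.cl l).inv_mem h1) (S.self_mem_cl hl), ?_⟩
      rw [mul_inv_cancel_left]
      exact hl
    · refine ⟨1, (S.cl l).one_mem, ?_⟩
      rw [mul_one]
      exact h1.1
  · have hl' : IsInv (h * l * h⁻¹) := by
      have h1 := hl.cj h⁻¹
      rwa [inv_inv] at h1
    have hne : l ≠ h * l * h⁻¹ := by
      intro h1
      apply hc
      nth_rewrite 2 [h1]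
      rw [inv_mul_cancel_right]
    obtain ⟨o, ho, h1, h2⟩ := hT _ _ hl hl' hne
    obtain ⟨z, hz, hzz, _⟩ := S.tor_sqrt ho h1 h2
    have ht : l * z ∈ pol o := S.pol_mul_cl ho h1 hz
    have hinv : l * z * l = z⁻¹ := S.pol_inverts ho h1 hz
    have h3 : l * z * l * (l * z)⁻¹ = h * l * h⁻¹ := by
      rw [hinv, mul_inv_rev, PF1_inv hl, ← mul_assoc, ← mul_inv_rev, hzz, mul_inv_rev, PF1_inv hl',
        PF1_inv hl, mul_assoc, hl.1, mul_one]
    have h4 : (l * z)⁻¹ * h * l = l * ((l * z)⁻¹ * h) := by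
      have h5 : l * z * l = h * l * h⁻¹ * (l * z) := by
        rw [← h3, inv_mul_cancel_right]
      have h6 : (l * z)⁻¹ * h * l = l * ((l * z)⁻¹ * h) ↔
          h * l = l * z * l * ((l * z)⁻¹ * h) := by
        rw [mul_assoc (l * z)⁻¹ h l, inv_mul_eq_iff_eq_mul]
        simp only [mul_assoc]
      rw [h6, h5]
      group
    rcases (S.comm_iff hl).1 h4 with h5 | h5
    · refine ⟨((l * z)⁻¹ * h)⁻¹, (S.cl l).inv_mem h5, ?_⟩
      have e : h * ((l * z)⁻¹ * h)⁻¹ = l * z := by group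
      rw [e]
      exact ht.1
    · have ho' : o ∈ pol l := pol_symm ho h1
      have h6 : o * ((l * z)⁻¹ * h) ∈ S.cl l := S.pol_mul_pol hl ho' h5
      refine ⟨(o * ((l * z)⁻¹ * h))⁻¹, (S.cl l).inv_mem h6, ?_⟩
      have e : h * (o * ((l * z)⁻¹ * h))⁻¹ = l * z * o := by
        have e1 : h * (o * ((l * z)⁻¹ * h))⁻¹ = l * z * o⁻¹ := by group
        rw [e1, PF1_inv ho]
      rw [e]
      exact (S.pol_mul_cl ho ht (S.self_mem_cl ho)).1

theorem inv_coset_unique {l h x y : G} (hl : IsInv l) (hh : h ∉ pol l) (hx : x ∈ S.cl l)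
    (hy : y ∈ S.cl l) (h1 : IsInv (h * x)) (h2 : IsInv (h * y)) : x = y := by
  by_contra hne
  have hjk : h * x ≠ h * y := fun h3 => hne (mul_left_cancel h3)
  have h3 : h * x * (h * y) ∈ S.cl l := by
    have e : h * x * (h * y) = x⁻¹ * y := by
      nth_rewrite 1 [← PF1_inv h1]
      group
    rw [e]
    exact (S.cl l).mul_mem ((S.cl l).inv_mem hx) hy
  have h4 := (S.mem_pol_of_mul_mem h1 h2 hjk hl h3).1
  apply hh
  have h5 := S.pol_mul_cl hl h4 ((S.cl l).inv_mem hx)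
  rwa [mul_inv_cancel_right] at h5

theorem inv_inter {u m j : G} (hm : IsInv m) (hu : u ∈ S.cl m) (hu1 : u ≠ 1) (hj : IsInv j)
    (h : IsInv (u⁻¹ * j)) : j ∈ pol m := by
  have e : j * (u⁻¹ * j) = u := by
    rw [← PF1_inv h]
    group
  have hne : j ≠ u⁻¹ * j := by
    intro h1
    apply hu1
    have h2 : 1 * j = u⁻¹ * j := by rw [one_mul]; exact h1
    exact (inv_eq_one.1 (mul_right_cancel h2).symm)
  exact (S.mem_pol_of_mul_mem hj h hne hm (by rw [e]; exact hu)).1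

theorem eq_of_inv_mem_cl {m j : G} (hm : IsInv m) (hj : IsInv j) (h : j ∈ S.cl m) : j = m := by
  exact (S.cl_inv_eq hm h hj.1).resolve_left hj.2

end Setup

end Pool.Agent.A1C
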