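import Pool.Agent.A1C.PF7

/-!
# PF8: the image of a point under a homology, by a construction (abstract planes, part (f5))
-/

namespace Pool.Agent.A1C

universe u

namespace Pl

variable {P : Type u} (Q : Pl P)

/-- the construction of the image of `b` -/
def MulRel (i x0 y w a b c : P) : Prop :=
  ∃ k1 e k2 k3 y' k4 e' k5, Q.perp x0 k1 ∧ Q.perp y k1 ∧ Q.perp e k1 ∧ Q.perp e i ∧ Q.perp a k2 ∧ Q.perp e k2 ∧
    Q.perp i k3 ∧ Q.perp y k3 ∧ Q.perp y' k2 ∧ Q.perp y' k3 ∧ Q.perp y k4 ∧ Q.perp b k4 ∧ Q.perp e' k4 ∧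
    Q.perp e' i ∧ Q.perp y' k5 ∧ Q.perp e' k5 ∧ Q.perp c k5 ∧ Q.perp c w

private theorem pf8_off {i : P} {h : Equiv.Perm P} (hh : Q.IsHom i h) {s : P}
    (hs : ¬ Q.perp s i) : ¬ Q.perp (h s) i := by
  intro h1
  have h2 := hh.axis _ h1
  have h3 : h s = s := h.injective h2
  rw [h3] at h1
  exact hs h1

private theorem pf8_ne {i : P} {h : Equiv.Perm P} (hh : Q.IsHom i h) {s : P}
    (hs : s ≠ i) : h s ≠ i := by
  intro h1
  have h2 : h s = h i := by rw [h1, hh.center]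
  exact hs (h.injective h2)

private theorem pf8_line {i w : P} {h : Equiv.Perm P} (hh : Q.IsHom i h) (hiw : Q.perp i w)
    {s : P} (hsw : Q.perp s w) (hs : s ≠ i) : Q.perp (h s) w := by
  obtain ⟨p, p1, p2, p3⟩ := hh.lines s
  have hp : p = w := Q.uniq i s p w (Ne.symm hs) p1 p2 hiw hsw
  rw [hp] at p3
  exact p3

private theorem pf8_key {i : P} {h : Equiv.Perm P} (hh : Q.IsHom i h) {s t e k k' : P}
    (hsk : Q.perp s k) (htk : Q.perp t k) (hek : Q.perp e k) (hei : Q.perp e i)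
    (hsk' : Q.perp (h s) k') (hek' : Q.perp e k') (hs : ¬ Q.perp s i) : Q.perp (h t) k' := by
  have hc : Q.C3 (h s) (h t) (h e) := (hh.coll s t e).2 ⟨k, hsk, htk, hek⟩
  rw [hh.axis e hei] at hc
  obtain ⟨q, q1, q2, q3⟩ := hc
  have hne : h s ≠ e := by
    intro h1
    exact Q.pf8_off hh hs (h1 ▸ hei)
  have hq : q = k' := Q.uniq (h s) e q k' hne q1 q3 hsk' hek'
  rw [hq] at q2
  exact q2

theorem hom_iff_mulRel {i x0 y w a b c : P} {h : Equiv.Perm P} (hh : Q.IsHom i h) (hiw : Q.perp i w)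
    (hx0w : Q.perp x0 w) (hx0i : x0 ≠ i) (hx0E : ¬ Q.perp x0 i) (hyw : ¬ Q.perp y w) (hyE : ¬ Q.perp y i)
    (ha : h x0 = a) (hbw : Q.perp b w) (hbi : b ≠ i) (hbE : ¬ Q.perp b i) :
    h b = c ↔ Q.MulRel i x0 y w a b c := by
  have hyi : i ≠ y := by
    rintro rfl
    exact hyw hiw
  have hx0y : x0 ≠ y := by
    rintro rfl
    exact hyw hx0w
  have hyb : y ≠ b := by
    rintro rfl
    exact hyw hbw
  have haE : ¬ Q.perp a i := ha ▸ Q.pf8_off hh hx0E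
  have hai : a ≠ i := ha ▸ Q.pf8_ne hh hx0i
  have haw : Q.perp a w := ha ▸ Q.pf8_line hh hiw hx0w hx0i
  have hhyE : ¬ Q.perp (h y) i := Q.pf8_off hh hyE
  have hhyi : h y ≠ i := Q.pf8_ne hh (Ne.symm hyi)
  have hhbw : Q.perp (h b) w := Q.pf8_line hh hiw hbw hbi
  constructor
  · intro hbc
    obtain ⟨k1, a1, a2⟩ := Q.ex x0 y hx0y
    have hk1 : k1 ≠ i := by
      rintro rfl
      exact hx0E a1
    obtain ⟨e, e1, e2⟩ := Q.ex k1 i hk1
    have hek1 := Q.symm _ _ e1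
    have hei := Q.symm _ _ e2
    have hae : a ≠ e := by
      rintro rfl
      exact haE hei
    obtain ⟨k2, b1, b2⟩ := Q.ex a e hae
    obtain ⟨k3, c1, c2⟩ := Q.ex i y hyi
    obtain ⟨k4, d1, d2⟩ := Q.ex y b hyb
    have hk4 : k4 ≠ i := by
      rintro rfl
      exact hyE d1
    obtain ⟨e', f1, f2⟩ := Q.ex k4 i hk4
    have he'k4 := Q.symm _ _ f1
    have he'i := Q.symm _ _ f2
    have hhye' : h y ≠ e' := by
      intro h1
      exact hhyE (h1 ▸ he'i)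
    obtain ⟨k5, g1, g2⟩ := Q.ex (h y) e' hhye'
    have hyk2 : Q.perp (h y) k2 := Q.pf8_key hh a1 a2 hek1 hei (ha.symm ▸ b1) b2 hx0E
    have hyk3 : Q.perp (h y) k3 := Q.pf8_line hh c1 c2 (Ne.symm hyi)
    have hbk5 : Q.perp (h b) k5 := Q.pf8_key hh d1 d2 he'k4 he'i g1 g2 hyE
    rw [← hbc]
    exact ⟨k1, e, k2, k3, h y, k4, e', k5, a1, a2, hek1, hei, b1, b2, c1, c2, hyk2, hyk3, d1, d2,
      he'k4, he'i, g1, g2, hbk5, hhbw⟩
  · rintro ⟨k1, e, k2, k3, y', k4, e', k5, a1, a2, hek1, hei, b1, b2, c1, c2, y1, y2, d1, d2,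
      he'k4, he'i, g1, g2, r1, r2⟩
    have hyk2 : Q.perp (h y) k2 := Q.pf8_key hh a1 a2 hek1 hei (ha.symm ▸ b1) b2 hx0E
    have hyk3 : Q.perp (h y) k3 := Q.pf8_line hh c1 c2 (Ne.symm hyi)
    have hk23 : k2 ≠ k3 := by
      rintro rfl
      have h1 : k2 = w := Q.uniq i a k2 w (Ne.symm hai) c1 b1 hiw haw
      rw [h1] at c2
      exact hyw c2
    have hy' : y' = h y := Q.meet_unique hk23 y1 y2 hyk2 hyk3
    rw [hy'] at g1
    have hbk5 : Q.perp (h b) k5 := Q.pf8_key hh d1 d2 he'k4 he'i g1 g2 hyE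
    have hk5 : k5 ≠ w := by
      rintro rfl
      have h1 : k3 = k5 := Q.uniq i (h y) k3 k5 (Ne.symm hhyi) c1 hyk3 hiw g1
      rw [h1] at c2
      exact hyw c2
    exact Q.meet_unique hk5 hbk5 hhbw r1 r2

theorem eq_of_apply_eq {i x0 : P} {h h' : Equiv.Perm P} (hh : Q.IsHom i h) (hh' : Q.IsHom i h')
    (hx0i : x0 ≠ i) (hx0E : ¬ Q.perp x0 i) (e : h x0 = h' x0) : h = h' := by
  have hg : Q.IsHom i (h'⁻¹ * h) :=
    (Q.homs i).mul_mem ((Q.homs i).inv_mem (show h' ∈ Q.homs i from hh')) (show h ∈ Q.homs i from hh)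
  have h1 : (h'⁻¹ * h) x0 = x0 := by
    rw [Equiv.Perm.mul_apply, e]
    exact h'.symm_apply_apply x0
  have h2 := Q.hom_unique hg h1 hx0i hx0E
  exact (inv_mul_eq_one.1 h2).symm

/-- the images of `x0` -/
theorem apply_mem {i x0 w : P} {h : Equiv.Perm P} (hh : Q.IsHom i h) (hiw : Q.perp i w)
    (hx0w : Q.perp x0 w) (hx0i : x0 ≠ i) (hx0E : ¬ Q.perp x0 i) :
    Q.perp (h x0) w ∧ h x0 ≠ i ∧ ¬ Q.perp (h x0) i :=
  ⟨Q.pf8_line hh hiw hx0w hx0i, Q.pf8_ne hh hx0i, Q.pf8_off hh hx0E⟩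

end Pl

end Pool.Agent.A1C
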