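import Pool.Agent.A1C.GC4

/-!
# PF9: a definable set as a definable type

`DTy.ofInj`: if `ι : X → Y` is injective with definable range then `X` is a definable type with the coordinates of `ι x`. With this instance `ι` is a
coordinate map (`Coord`, `f = id`), so `DfFun`, and `Df S ↔ Df (ι '' S)`, `rk S = rk (ι '' S)` hold by definition
(`enc '' S = enc '' (ι '' S)`).
`ofInj_irr`: `B ⊆ univ` definable: `ι '' B` is a definable subset of `range ι`, `ι '' (univ \ B) = range ι \ ι '' B`, and the ranks agree.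
-/

namespace Pool.Agent.A1C

universe u

variable {M : Type u} [Univ M] {X Y : Type u} [DTy M Y]

/-- a type injected into a definable type with definable image -/
@[reducible] def DTy.ofInj (ι : X → Y) (hι : Function.Injective ι) (hr : Df (Set.range ι)) : DTy M X where
  dim := DTy.dim Y
  enc x := DTy.enc (ι x)
  inj := fun _ _ h => hι (DTy.inj h)
  def_range := by
    have h : Set.range (fun x : X => (DTy.enc (ι x) : Fin (DTy.dim Y) → M)) = DTy.enc '' Set.range ι := by
      ext v
      constructor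
      · rintro ⟨x, rfl⟩
        exact ⟨ι x, ⟨x, rfl⟩, rfl⟩
      · rintro ⟨_, ⟨x, rfl⟩, rfl⟩
        exact ⟨x, rfl⟩
    rw [h]
    exact hr

theorem DTy.ofInj_coord (ι : X → Y) (hι : Function.Injective ι) (hr : Df (Set.range ι)) :
    @Coord M _ X Y (DTy.ofInj ι hι hr) _ ι :=
  ⟨fun i => i, fun _ _ => rfl⟩

private theorem PF9_enc (ι : X → Y) (S : Set X) :
    (fun x : X => (DTy.enc (ι x) : Fin (DTy.dim Y) → M)) '' S = DTy.enc '' (ι '' S) :=
  (Set.image_image DTy.enc ι S).symm

theorem DTy.ofInj_df (ι : X → Y) (hι : Function.Injective ι) (hr : Df (Set.range ι)) (S : Set X) :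
    @Df M _ X (DTy.ofInj ι hι hr) S ↔ Df (ι '' S) := by
  change Univ.Def ((fun x : X => (DTy.enc (ι x) : Fin (DTy.dim Y) → M)) '' S) ↔
    Univ.Def (DTy.enc '' (ι '' S))
  rw [PF9_enc]

theorem DTy.ofInj_rk (ι : X → Y) (hι : Function.Injective ι) (hr : Df (Set.range ι)) (S : Set X) :
    @rk M _ X (DTy.ofInj ι hι hr) S = rk (ι '' S) := by
  change Univ.rk₀ ((fun x : X => (DTy.enc (ι x) : Fin (DTy.dim Y) → M)) '' S) =
    Univ.rk₀ (DTy.enc '' (ι '' S))
  rw [PF9_enc]

theorem DTy.ofInj_irr (ι : X → Y) (hι : Function.Injective ι) (hr : Df (Set.range ι))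
    (h : Irr (Set.range ι)) : @Irr M _ X (DTy.ofInj ι hι hr) Set.univ := by
  have h0 : ι '' Set.univ = Set.range ι := Set.image_univ
  have hs : ∀ A : Set X, Small (ι '' A) (Set.range ι) →
      @Small M _ X (DTy.ofInj ι hι hr) A Set.univ := by
    intro A hA
    rcases hA with hA | hA
    · exact Or.inl (Set.image_eq_empty.1 hA)
    · right
      have e1 := DTy.ofInj_rk ι hι hr A
      have e2 := DTy.ofInj_rk ι hι hr Set.univ
      rw [h0] at e2
      rw [← e1, ← e2] at hA
      exact hA
  refine @Irr.mk M _ X (DTy.ofInj ι hι hr) Set.univ ?_ ?_ ?_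
  · rw [DTy.ofInj_df, h0]
    exact hr
  · obtain ⟨_, x, _⟩ := h.ne
    exact ⟨x, trivial⟩
  · intro B _ hB
    rcases h.small_or (ι '' B) (Set.image_subset_range _ _) ((DTy.ofInj_df ι hι hr B).1 hB) with h1 | h1
    · exact Or.inl (hs B h1)
    · refine Or.inr (hs _ ?_)
      rwa [Set.image_sdiff hι, h0]

end Pool.Agent.A1C
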