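import Pool.Agent.A1C.PF6
import Pool.Agent.A1C.PF8
import Pool.Agent.A1C.PF9

/-!
# PF10: the group of homologies is a connected definable group (part (f5))

`Q = S.plane hT`, `i = S.pt`, `Γ = Q.homs i`, `w = ⟨S.w, _⟩`. A homology `h` is encoded by the point `h x0`, where `x0 ≠ i` is a point of
the line of `w` which is not on the axis.
-/

namespace Pool.Agent.A1C

universe u

namespace Setup

variable {M : Type u} [Univ M] {G : Type u} [Group G] [DGrp M G] (S : Setup G)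

/-- `MulRel` written in `G` -/
private def pf10Rel (i x0 y w a b c : G) : Prop :=
  ∃ k1 : G, IsInv k1 ∧ ∃ e : G, IsInv e ∧ ∃ k2 : G, IsInv k2 ∧ ∃ k3 : G, IsInv k3 ∧
    ∃ y' : G, IsInv y' ∧ ∃ k4 : G, IsInv k4 ∧ ∃ e' : G, IsInv e' ∧ ∃ k5 : G, IsInv k5 ∧
    x0 ∈ pol k1 ∧ y ∈ pol k1 ∧ e ∈ pol k1 ∧ e ∈ pol i ∧ a ∈ pol k2 ∧ e ∈ pol k2 ∧
    i ∈ pol k3 ∧ y ∈ pol k3 ∧ y' ∈ pol k2 ∧ y' ∈ pol k3 ∧ y ∈ pol k4 ∧ b ∈ pol k4 ∧
    e' ∈ pol k4 ∧ e' ∈ pol i ∧ y' ∈ pol k5 ∧ e' ∈ pol k5 ∧ c ∈ pol k5 ∧ c ∈ pol w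

private theorem pf10_mem {X : Type u} [DTy M X] {f g : X → G} (hf : DfFun f) (hg : DfFun g) :
    DfP (fun x => f x ∈ pol (g x)) :=
  (dfP_mem_pol (M := M) (G := G)).comp (hf.pair hg)

private theorem pf10_inv {X : Type u} [DTy M X] {f : X → G} (hf : DfFun f) :
    DfP (fun x => IsInv (f x)) :=
  DfP.comp (p := fun j : G => IsInv j) df_invs hf

private theorem pf10_df (i x0 y w : G) :
    DfP (fun q : (G × G) × G => pf10Rel i x0 y w q.1.1 q.1.2 q.2) := by
  unfold pf10Rel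
  repeat' first
    | fun_prop
    | apply pf10_mem
    | apply pf10_inv
    | apply DfP.ex
    | apply DfP.and

private theorem pf10_iff (hT : AllTor G) (i x0 y w a b c : invs G) :
    (S.plane hT).MulRel i x0 y w a b c ↔ pf10Rel i.1 x0.1 y.1 w.1 a.1 b.1 c.1 := by
  constructor
  · rintro ⟨k1, e, k2, k3, y', k4, e', k5, h⟩
    exact ⟨k1.1, k1.2, e.1, e.2, k2.1, k2.2, k3.1, k3.2, y'.1, y'.2, k4.1, k4.2, e'.1, e'.2,
      k5.1, k5.2, h⟩
  · rintro ⟨k1, h1, e, h2, k2, h3, k3, h4, y', h5, k4, h6, e', h7, k5, h8, h⟩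
    exact ⟨⟨k1, h1⟩, ⟨e, h2⟩, ⟨k2, h3⟩, ⟨k3, h4⟩, ⟨y', h5⟩, ⟨k4, h6⟩, ⟨e', h7⟩, ⟨k5, h8⟩, h⟩

private theorem pf10_w : S.w ∈ pol S.i := by
  refine ⟨S.w_inv, fun h => S.w_notMem (h ▸ S.i_mem), ?_⟩
  have h1 := S.w_inverts S.i S.i_mem
  have h2 : S.i⁻¹ = S.i := inv_eq_of_mul_eq_one_left S.i_inv.1
  rw [h2] at h1
  calc S.w * S.i = S.w * S.i * (S.w * S.w) := by rw [S.w_inv.1, mul_one]
    _ = (S.w * S.i * S.w) * S.w := by group
    _ = S.i * S.w := by rw [h1]

/-- the set of the images of the base point -/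
private def pf10X : Set G := {a | a ∈ pol S.w ∧ a ≠ S.i ∧ a ∉ pol S.i}

private theorem pf10X_df : Df S.pf10X := by
  have h1 := df_pol (M := M) S.w
  have h2 := df_pol (M := M) S.i
  have h3 : S.pf10X = pol S.w \ ({S.i} ∪ pol S.i) := by
    ext a
    simp only [pf10X, Set.mem_ofPred_eq, Set.mem_sdiff, Set.mem_union, Set.mem_singleton_iff, not_or]
  rw [h3]
  exact h1.diff ((Df.singleton S.i).union h2)

private theorem pf10_fin (hT : AllTor G) : (pol S.w \ S.pf10X).Finite := by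
  have h1 : pol S.w \ S.pf10X ⊆ {S.i} ∪ (pol S.w ∩ pol S.i) := by
    rintro a ⟨h1, h2⟩
    by_cases ha : a = S.i
    · exact Or.inl ha
    · refine Or.inr ⟨h1, ?_⟩
      by_contra h
      exact h2 ⟨h1, ha, h⟩
  refine Set.Finite.subset ?_ h1
  refine (Set.finite_singleton _).union (Set.Subsingleton.finite ?_)
  intro a ha b hb
  have hne : (⟨S.w, S.w_inv⟩ : invs G) ≠ S.pt := fun h => S.pf10_w.2.1 (congrArg Subtype.val h)
  have h := (S.plane hT).meet_unique (s := ⟨a, ha.1.1⟩) (t := ⟨b, hb.1.1⟩) hne ha.1 ha.2 hb.1 hb.2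
  exact congrArg Subtype.val h

private theorem pf10_irr (hT : AllTor G) : Irr S.pf10X := by
  have hw := S.irr_pol S.w_inv
  have hX := S.pf10X_df
  have hsub : S.pf10X ⊆ pol S.w := fun a ha => ha.1
  have hF := Df.of_finite (M := M) (S.pf10_fin hT)
  have h1 : rk (pol S.w) = max (rk S.pf10X) (rk (pol S.w \ S.pf10X)) := by
    rw [← rk_union hX hF, Set.union_sdiff_cancel hsub]
  rw [(rk_eq_zero_iff hF).2 (S.pf10_fin hT), max_eq_left (Nat.zero_le _)] at h1
  refine hw.of_subset hX hsub ?_ h1.symm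
  by_contra h
  rw [Set.not_nonempty_iff_eq_empty] at h
  rw [h, rk_empty, S.rk_pol S.w_inv] at h1
  have := S.rk_C_pos
  omega

/-- the group of homologies is a definable group, irreducible -/
theorem exists_dgrp (hT : AllTor G) :
    ∃ inst : DGrp M ((S.plane hT).homs S.pt), @Irr M _ _ inst.toDTy Set.univ := by
  classical
  let w : invs G := ⟨S.w, S.w_inv⟩
  have hiw : (S.plane hT).perp S.pt w := pol_symm S.i_inv S.pf10_w
  have hwi : (S.plane hT).perp w S.pt := S.pf10_w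
  -- the base point
  have hirr := S.pf10_irr hT
  obtain ⟨x, hx⟩ := hirr.ne
  let x0 : invs G := ⟨x, hx.1.1⟩
  have hx0w : (S.plane hT).perp x0 w := hx.1
  have hx0i : x0 ≠ S.pt := fun h => hx.2.1 (congrArg Subtype.val h)
  have hx0E : ¬ (S.plane hT).perp x0 S.pt := hx.2.2
  obtain ⟨y, hy⟩ := (S.plane hT).exists_off S.pt (F := {w, S.pt}) (Set.toFinite _)
  have hyw := hy w (by simp)
  have hyE := hy S.pt (by simp)
  let ι : (S.plane hT).homs S.pt → G := fun h => ((h : Equiv.Perm (invs G)) x0 : G)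
  have hι : Function.Injective ι := by
    intro h h' e
    exact Subtype.ext ((S.plane hT).eq_of_apply_eq h.2 h'.2 hx0i hx0E (Subtype.ext e))
  have hrange : Set.range ι = S.pf10X := by
    ext a
    constructor
    · rintro ⟨h, rfl⟩
      obtain ⟨h1, h2, h3⟩ := (S.plane hT).apply_mem h.2 hiw hx0w hx0i hx0E
      exact ⟨h1, fun h4 => h2 (Subtype.ext h4), h3⟩
    · intro ha
      obtain ⟨h, hh, he⟩ := S.exists_hom hT (l := w) (a := x0) (b := ⟨a, ha.1.1⟩) hwi hx0w ha.1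
        hx0i (fun h4 => ha.2.1 (congrArg Subtype.val h4)) hx0E ha.2.2
      exact ⟨⟨h, hh⟩, congrArg Subtype.val he⟩
  have hr : Df (Set.range ι) := by
    rw [hrange]
    exact S.pf10X_df
  let inst0 : DTy M ((S.plane hT).homs S.pt) := DTy.ofInj ι hι hr
  have hcoord : Coord ι := DTy.ofInj_coord ι hι hr
  have hmul : DfFun (fun p : (S.plane hT).homs S.pt × (S.plane hT).homs S.pt => p.1 * p.2) := by
    have h1 : Coord (fun p : ((S.plane hT).homs S.pt × (S.plane hT).homs S.pt) ×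
        (S.plane hT).homs S.pt => ((ι p.1.1, ι p.1.2), ι p.2)) :=
      Coord.pair (Coord.pair (hcoord.comp (Coord.fst.comp Coord.fst))
        (hcoord.comp (Coord.snd.comp Coord.fst))) (hcoord.comp Coord.snd)
    have h2 := h1.preimage (pf10_df (M := M) S.i x0.1 y.1 S.w)
    have h3 : {p : ((S.plane hT).homs S.pt × (S.plane hT).homs S.pt) ×
        (S.plane hT).homs S.pt | p.2 = p.1.1 * p.1.2} =
        {p | ((ι p.1.1, ι p.1.2), ι p.2) ∈ {q : (G × G) × G |
          pf10Rel S.i x0.1 y.1 S.w q.1.1 q.1.2 q.2}} := by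
      ext p
      simp only [Set.mem_ofPred_eq]
      obtain ⟨h4, h5, h6⟩ := (S.plane hT).apply_mem p.1.2.2 hiw hx0w hx0i hx0E
      have h7 := (S.plane hT).hom_iff_mulRel (c := (p.2 : Equiv.Perm (invs G)) x0) p.1.1.2 hiw hx0w
        hx0i hx0E hyw hyE rfl h4 h5 h6
      rw [S.pf10_iff] at h7
      constructor
      · intro h8
        refine h7.1 ?_
        rw [h8]
        rfl
      · intro h8
        apply hι
        have h9 := h7.2 h8
        exact congrArg Subtype.val h9.symm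
    unfold DfFun
    rw [h3]
    exact h2
  refine ⟨{ toDTy := inst0, mul_df := hmul }, ?_⟩
  apply DTy.ofInj_irr
  rw [hrange]
  exact hirr

end Setup

end Pool.Agent.A1C
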