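import Pool.Agent.A1C.PF7

/-!
# PF12: the centraliser of `i` acts on `I` and commutes with the homologies (part (f6))
-/

namespace Pool.Agent.A1C

universe u

namespace Setup

variable {M : Type u} [Univ M] {G : Type u} [Group G] [DGrp M G] (S : Setup G)

theorem cjp_perp (hT : AllTor G) (g : G) (s t : invs G) :
    (S.plane hT).perp (cjp g s) (cjp g t) ↔ (S.plane hT).perp s t := by
  rw [S.perp_iff hT, S.perp_iff hT, cjp_val, cjp_val]
  have h := pol_cj (l := t.1) (j := s.1) g⁻¹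
  rw [inv_inv] at h
  exact h

theorem cjp_c3 (hT : AllTor G) (g : G) (s t r : invs G) :
    (S.plane hT).C3 (cjp g s) (cjp g t) (cjp g r) ↔ (S.plane hT).C3 s t r := by
  constructor
  · rintro ⟨p, h1, h2, h3⟩
    have e : cjp g ((cjp g).symm p) = p := (cjp g).apply_symm_apply p
    rw [← e, S.cjp_perp hT] at h1 h2 h3
    exact ⟨(cjp g).symm p, h1, h2, h3⟩
  · rintro ⟨p, h1, h2, h3⟩
    exact ⟨cjp g p, (S.cjp_perp hT g s p).2 h1, (S.cjp_perp hT g t p).2 h2,
      (S.cjp_perp hT g r p).2 h3⟩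

theorem cjp_fix (hT : AllTor G) (o s : invs G) :
    cjp o.1 s = s ↔ s = o ∨ (S.plane hT).perp s o := by
  rw [S.perp_iff hT]
  constructor
  · intro h
    have h1 : o.1 * s.1 * o.1⁻¹ = s.1 := congrArg Subtype.val h
    have h2 : s.1 * o.1 = o.1 * s.1 := by
      calc s.1 * o.1 = (o.1 * s.1 * o.1⁻¹) * o.1 := by rw [h1]
        _ = o.1 * s.1 := by group
    by_cases hs : s = o
    · exact Or.inl hs
    · exact Or.inr ⟨s.2, fun h' => hs (Subtype.ext h'), h2⟩
  · intro h
    apply Subtype.ext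
    rw [cjp_val]
    rcases h with rfl | h
    · group
    · rw [← h.2.2]
      group

private theorem pf12_pt (hT : AllTor G) {g : G} (hg : g * S.i = S.i * g) :
    cjp g S.pt = S.pt := by
  have _ := hT
  apply Subtype.ext
  rw [cjp_val]
  change g * S.i * g⁻¹ = S.i
  rw [hg]
  group

private theorem pf12_conj (hT : AllTor G) {g : G} (hg : g * S.i = S.i * g)
    {h : Equiv.Perm (invs G)} (hh : (S.plane hT).IsHom S.pt h) :
    (S.plane hT).IsHom S.pt (cjp g * h * (cjp g)⁻¹) := by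
  have hpt := S.pf12_pt hT hg
  have hpt' : (cjp g).symm S.pt = S.pt := by
    rw [Equiv.symm_apply_eq, hpt]
  have happ : ∀ s, (cjp g * h * (cjp g)⁻¹) s = cjp g (h ((cjp g).symm s)) := fun s => rfl
  have hcs : ∀ s, cjp g ((cjp g).symm s) = s := fun s => (cjp g).apply_symm_apply s
  refine ⟨fun s t r => ?_, ?_, fun e he => ?_, fun s => ?_⟩
  · rw [happ, happ, happ, S.cjp_c3 hT, hh.coll]
    have h1 := S.cjp_c3 hT g ((cjp g).symm s) ((cjp g).symm t) ((cjp g).symm r)
    rw [hcs, hcs, hcs] at h1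
    exact h1.symm
  · rw [happ, hpt', hh.center, hpt]
  · have h1 : (S.plane hT).perp ((cjp g).symm e) S.pt := by
      rw [← S.cjp_perp hT g, hcs, hpt]
      exact he
    rw [happ, hh.axis _ h1, hcs]
  · have h1 := hh.lines ((cjp g).symm s)
    rw [← S.cjp_c3 hT g, hcs, hpt] at h1
    exact h1

private theorem pf12_pol (hT : AllTor G) {o : G} (ho : o ∈ pol S.i) {h : Equiv.Perm (invs G)}
    (hh : (S.plane hT).IsHom S.pt h) : cjp o * h = h * cjp o := by
  have hf := S.pf12_conj hT ho.2.2 hh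
  have hg : (S.plane hT).IsHom S.pt (h⁻¹ * (cjp o * h * (cjp o)⁻¹)) :=
    ((S.plane hT).homs S.pt).mul_mem
      (((S.plane hT).homs S.pt).inv_mem (show h ∈ (S.plane hT).homs S.pt from hh))
      (show (cjp o * h * (cjp o)⁻¹) ∈ (S.plane hT).homs S.pt from hf)
  let o' : invs G := ⟨o, ho.1⟩
  have hopt : (S.plane hT).perp o' S.pt := ho
  have hpto : (S.plane hT).perp S.pt o' := (S.plane hT).symm _ _ hopt
  have hne : o' ≠ S.pt := by
    intro h1
    exact (S.plane hT).irrefl S.pt (h1 ▸ hopt)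
  -- a point of the line of `o` which is not `i` and not on the axis
  obtain ⟨a, ha1, ha2, ha3⟩ : ∃ a, (S.plane hT).perp a o' ∧ a ≠ S.pt ∧
      ¬ (S.plane hT).perp a S.pt := by
    have hsub : ({s | (S.plane hT).perp s o' ∧ (S.plane hT).perp s S.pt}).Subsingleton := by
      intro s hs t ht
      exact (S.plane hT).meet_unique hne hs.1 hs.2 ht.1 ht.2
    obtain ⟨a, h1, h2⟩ := (((S.plane hT).inf o').sdiff
      (hsub.finite.union (Set.finite_singleton S.pt))).nonempty
    refine ⟨a, h1, fun h3 => h2 (Or.inr h3), fun h3 => h2 (Or.inl ⟨h1, h3⟩)⟩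
  have hca : cjp o a = a := (S.cjp_fix hT o' a).2 (Or.inr ha1)
  have hca' : (cjp o).symm a = a := by rw [Equiv.symm_apply_eq, hca]
  have hha : (S.plane hT).perp (h a) o' := by
    obtain ⟨q, q1, q2, q3⟩ := hh.lines a
    have hq : q = o' := (S.plane hT).uniq S.pt a q o' (Ne.symm ha2) q1 q2 hpto ha1
    rw [hq] at q3
    exact q3
  have hcha : cjp o (h a) = h a := (S.cjp_fix hT o' (h a)).2 (Or.inr hha)
  have hfa : (h⁻¹ * (cjp o * h * (cjp o)⁻¹)) a = a := by
    change h.symm (cjp o (h ((cjp o).symm a))) = a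
    rw [hca', hcha, h.symm_apply_apply]
  have h1 := (S.plane hT).hom_unique hg hfa ha2 ha3
  have h2 : h = cjp o * h * (cjp o)⁻¹ := inv_mul_eq_one.1 h1
  calc cjp o * h = (cjp o * h * (cjp o)⁻¹) * cjp o := by group
    _ = h * cjp o := by rw [← h2]

theorem cjp_comm (hT : AllTor G) {g : G} (hg : g * S.i = S.i * g) {h : Equiv.Perm (invs G)}
    (hh : (S.plane hT).IsHom S.pt h) : cjp g * h = h * cjp g := by
  rcases (S.comm_iff S.i_inv).1 hg with h1 | h1
  · obtain ⟨w, hw⟩ := S.pol_nonempty S.i_inv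
    have h2 : g * w ∈ pol S.i := S.cl_mul_pol S.i_inv hw h1
    have e : g = (g * w) * w := by rw [mul_assoc, hw.1.1, mul_one]
    have e1 := S.pf12_pol hT h2 hh
    have e2 := S.pf12_pol hT hw hh
    rw [e, cjp_mul, mul_assoc, e2, ← mul_assoc, e1, mul_assoc]
  · exact S.pf12_pol hT h1 hh

theorem iota_mem (hT : AllTor G) : (S.plane hT).IsHom S.pt (cjp S.i) := by
  have hpt : cjp S.i S.pt = S.pt := S.pf12_pt hT rfl
  refine ⟨fun s t r => S.cjp_c3 hT S.i s t r, hpt, fun e he => (S.cjp_fix hT S.pt e).2 (Or.inr he),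
    fun s => ?_⟩
  by_cases hs : s = S.pt
  · rw [hs, hpt]
    obtain ⟨p, hp⟩ := ((S.plane hT).inf S.pt).nonempty
    have hp' := (S.plane hT).symm _ _ hp
    exact ⟨p, hp', hp', hp'⟩
  · obtain ⟨u, h1, h2⟩ := (S.plane hT).ex S.pt s (Ne.symm hs)
    have h3 : cjp S.i u = u := (S.cjp_fix hT S.pt u).2 (Or.inr ((S.plane hT).symm _ _ h1))
    refine ⟨u, h1, h2, ?_⟩
    have h4 := (S.cjp_perp hT S.i s u).2 h2
    rw [h3] at h4
    exact h4

theorem iota_sq : cjp S.i * cjp S.i = 1 := by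
  rw [← cjp_mul, S.i_inv.1]
  ext s
  rw [cjp_val]
  change 1 * s.1 * 1⁻¹ = s.1
  group

theorem iota_ne_one (hT : AllTor G) : cjp S.i ≠ 1 := by
  intro h
  obtain ⟨l, hl⟩ := ((S.plane hT).inf S.pt).nonempty
  have hl' := (S.plane hT).symm _ _ hl
  obtain ⟨s, hs⟩ := (S.plane hT).exists_off S.pt (F := {S.pt, l}) (Set.toFinite _)
  have h1 : ¬ (S.plane hT).perp s S.pt := hs _ (by simp)
  have h2 : ¬ (S.plane hT).perp s l := hs _ (by simp)
  have h3 : cjp S.i s = s := by rw [h, Equiv.Perm.one_apply]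
  rcases (S.cjp_fix hT S.pt s).1 h3 with h4 | h4
  · rw [h4] at h2
    exact h2 hl'
  · exact h1 h4

end Setup

end Pool.Agent.A1C
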