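import Pool.Agent.A1C.PF1

/-!
# PF2: lines and planes of the 3-space (part (f3))

`Coll p q r`: `p, q, r` lie in one coset of one `C_l`. All these are short computations in `G`:
* `coll_comm`: swap; `coll_rot`: `q⁻¹ r = (p⁻¹ q)⁻¹ (p⁻¹ r)` and `q⁻¹ p = (p⁻¹ q)⁻¹`.
* `coll_trans`: the `l` of the two hypotheses are equal by `cl_inj` (`p⁻¹ q ≠ 1`).
* `coll_of_mem_pol`: `s⁻¹ t = s t ∈ C_l` (`pol_mul_pol`). `mem_pol_of_coll`: `s⁻¹ t ∈ C_l`, `s ≠ t`: `mem_pol_of_mul_mem` gives `s, t ∈ pol l`.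
* `plane_line`: `v⁻¹ p`, `v⁻¹ q` are different involutions with `(v⁻¹ p)⁻¹ (v⁻¹ q) = p⁻¹ q ∈ C_l`, so they lie in `pol l`, and
  `v⁻¹ r = (v⁻¹ p) (p⁻¹ r) ∈ pol l` (`pol_mul_cl`).
* `plane_meet`: `p⁻¹ q ∈ C_l` by `exists_cl`; `exists_inv_coset` for `h = v⁻¹ p`: `r = p x`.
* `plane_meet_unique`: the same `l` for `r` and `r'` (`cl_inj`); `inv_coset_unique` with `h = v⁻¹ p`, which is not in `pol l` as it is not an
  involution.
-/

namespace Pool.Agent.A1C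

universe u

namespace Setup

variable {M : Type u} [Univ M] {G : Type u} [Group G] [DGrp M G] (S : Setup G)

private theorem PF2_inv {j : G} (hj : IsInv j) : j⁻¹ = j :=
  inv_eq_of_mul_eq_one_left hj.1

theorem coll_comm {p q r : G} (h : S.Coll p q r) : S.Coll p r q := by
  obtain ⟨l, hl, h1, h2⟩ := h
  exact ⟨l, hl, h2, h1⟩

theorem coll_rot {p q r : G} (h : S.Coll p q r) : S.Coll q r p := by
  obtain ⟨l, hl, h1, h2⟩ := h
  refine ⟨l, hl, ?_, ?_⟩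
  · have e : q⁻¹ * r = (p⁻¹ * q)⁻¹ * (p⁻¹ * r) := by group
    rw [e]
    exact (S.cl l).mul_mem ((S.cl l).inv_mem h1) h2
  · have e : q⁻¹ * p = (p⁻¹ * q)⁻¹ := by group
    rw [e]
    exact (S.cl l).inv_mem h1

theorem coll_self (hT : AllTor G) (p q : G) : S.Coll p q q := by
  obtain ⟨l, hl, h⟩ := S.exists_cl hT (p⁻¹ * q)
  exact ⟨l, hl, h, h⟩

private theorem PF2_ne {p q : G} (hpq : p ≠ q) : p⁻¹ * q ≠ 1 := by
  intro h
  exact hpq (inv_mul_eq_one.1 h)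

theorem coll_trans {p q r s : G} (hpq : p ≠ q) (h1 : S.Coll p q r) (h2 : S.Coll p q s) :
    S.Coll p r s := by
  obtain ⟨l, hl, h3, h4⟩ := h1
  obtain ⟨l', hl', h5, h6⟩ := h2
  have e := S.cl_inj hl hl' h3 h5 (PF2_ne hpq)
  subst e
  exact ⟨l, hl, h4, h6⟩

theorem coll_of_mem_pol {l s t r : G} (hl : IsInv l) (hs : s ∈ pol l) (ht : t ∈ pol l)
    (hr : r ∈ pol l) : S.Coll s t r := by
  refine ⟨l, hl, ?_, ?_⟩
  · rw [PF2_inv hs.1]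
    exact S.pol_mul_pol hl hs ht
  · rw [PF2_inv hs.1]
    exact S.pol_mul_pol hl hs hr

theorem mem_pol_of_coll {s t r : G} (hs : IsInv s) (ht : IsInv t) (hne : s ≠ t)
    (h : S.Coll s t r) : ∃ l, IsInv l ∧ s ∈ pol l ∧ t ∈ pol l ∧ r ∈ pol l := by
  obtain ⟨l, hl, h1, h2⟩ := h
  have h3 : s * t ∈ S.cl l := by
    rwa [PF2_inv hs] at h1
  obtain ⟨h4, h5⟩ := S.mem_pol_of_mul_mem hs ht hne hl h3
  refine ⟨l, hl, h4, h5, ?_⟩
  have h6 := S.pol_mul_cl hl h4 h2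
  rwa [mul_inv_cancel_left] at h6

theorem plane_line {v p q r : G} (hp : IsInv (v⁻¹ * p)) (hq : IsInv (v⁻¹ * q)) (hne : p ≠ q)
    (h : S.Coll p q r) : IsInv (v⁻¹ * r) := by
  obtain ⟨l, hl, h1, h2⟩ := h
  have h3 : v⁻¹ * p * (v⁻¹ * q) ∈ S.cl l := by
    have e : v⁻¹ * p * (v⁻¹ * q) = p⁻¹ * q := by
      nth_rewrite 1 [← PF2_inv hp]
      group
    rw [e]
    exact h1
  have h4 : v⁻¹ * p ≠ v⁻¹ * q := fun h5 => hne (mul_left_cancel h5)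
  have h5 := (S.mem_pol_of_mul_mem hp hq h4 hl h3).1
  have h6 := (S.pol_mul_cl hl h5 h2).1
  have e2 : v⁻¹ * p * (p⁻¹ * r) = v⁻¹ * r := by group
  rwa [e2] at h6

theorem plane_meet (hT : AllTor G) {v p q : G} (hne : p ≠ q) :
    ∃ r, S.Coll p q r ∧ IsInv (v⁻¹ * r) := by
  have _ := hne
  obtain ⟨l, hl, h⟩ := S.exists_cl hT (p⁻¹ * q)
  obtain ⟨x, hx, h1⟩ := S.exists_inv_coset hT hl (v⁻¹ * p)
  refine ⟨p * x, ⟨l, hl, h, ?_⟩, ?_⟩
  · rw [inv_mul_cancel_left]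
    exact hx
  · rw [← mul_assoc]
    exact h1

theorem plane_meet_unique {v p q r r' : G} (hp : ¬ IsInv (v⁻¹ * p)) (hne : p ≠ q)
    (h : S.Coll p q r) (h' : S.Coll p q r') (hr : IsInv (v⁻¹ * r)) (hr' : IsInv (v⁻¹ * r')) :
    r = r' := by
  obtain ⟨l, hl, h1, h2⟩ := h
  obtain ⟨l', hl', h3, h4⟩ := h'
  have e := S.cl_inj hl hl' h1 h3 (PF2_ne hne)
  subst e
  have e1 : v⁻¹ * p * (p⁻¹ * r) = v⁻¹ * r := by group
  have e2 : v⁻¹ * p * (p⁻¹ * r') = v⁻¹ * r' := by group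
  exact mul_left_cancel (S.inv_coset_unique hl (fun h5 => hp h5.1) h2 h4
    (by rw [e1]; exact hr) (by rw [e2]; exact hr'))

end Setup

end Pool.Agent.A1C
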