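import Pool.Agent.A1C.PF2

/-!
# PF3: projections from a point preserve collinearity (part (f3), (f4))

`p` lies neither in the plane `v I` nor in the plane `v' I`. The projection from `p` of `v I` to `v' I` maps the points `v s`, `s ∈ pol m` (a line of
`v I`) into the points `v' t`, `t ∈ pol m'` (a line of `v' I`).
PROOF. By `exists_inv_coset` for `h = p⁻¹ v`, `l = m` there is `c ∈ C_m` with `p⁻¹ v c` an involution; `u = v c`. Then `u⁻¹ p = (p⁻¹ v c)⁻¹` is an
involution and `u⁻¹ (v s) = c⁻¹ s ∈ pol m` (`cl_mul_pol`) is an involution for every `s ∈ pol m`: the plane `u I` contains `p` and the line.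
`y = v'⁻¹ u ≠ 1` since `v'⁻¹ p` is not an involution; `y ∈ C_(m')` for some `m'` by `exists_cl`. For `s ∈ pol m`, `t ∈ I` with
`Coll p (v s) (v' t)`: `p ≠ v s` (`v⁻¹ p` is not an involution), so `u⁻¹ (v' t) = y⁻¹ t` is an involution by `plane_line`, and `t ∈ pol m'`
by `inv_inter`.
-/

namespace Pool.Agent.A1C

universe u

namespace Setup

variable {M : Type u} [Univ M] {G : Type u} [Group G] [DGrp M G] (S : Setup G)

theorem persp_coll (hT : AllTor G) {p v v' m : G} (hm : IsInv m) (hp : ¬ IsInv (v⁻¹ * p))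
    (hp' : ¬ IsInv (v'⁻¹ * p)) :
    ∃ m', IsInv m' ∧ ∀ s ∈ pol m, ∀ t, IsInv t → S.Coll p (v * s) (v' * t) → t ∈ pol m' := by
  obtain ⟨c, hc, h1⟩ := S.exists_inv_coset hT hm (p⁻¹ * v)
  -- the plane `u I` contains `p` and the line
  have hup : IsInv ((v * c)⁻¹ * p) := by
    have e : (v * c)⁻¹ * p = p⁻¹ * v * c := by
      rw [← inv_eq_of_mul_eq_one_left h1.1]
      group
    rw [e]
    exact h1
  have hus : ∀ s ∈ pol m, IsInv ((v * c)⁻¹ * (v * s)) := by
    intro s hs
    have e : (v * c)⁻¹ * (v * s) = c⁻¹ * s := by group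
    rw [e]
    exact (S.cl_mul_pol hm hs ((S.cl m).inv_mem hc)).1
  have hy : v'⁻¹ * (v * c) ≠ 1 := by
    intro h2
    apply hp'
    rw [inv_mul_eq_one.1 h2]
    exact hup
  obtain ⟨m', hm', hym⟩ := S.exists_cl hT (v'⁻¹ * (v * c))
  refine ⟨m', hm', fun s hs t ht hcoll => ?_⟩
  have hps : p ≠ v * s := by
    rintro rfl
    apply hp
    rw [inv_mul_cancel_left]
    exact hs.1
  have h3 := S.plane_line hup (hus s hs) hps hcoll
  refine S.inv_inter hm' hym hy ht ?_
  have e : (v'⁻¹ * (v * c))⁻¹ * t = (v * c)⁻¹ * (v' * t) := by group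
  rw [e]
  exact h3

end Setup

end Pool.Agent.A1C
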