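import Pool.Agent.A1C.PF3

/-!
# PF4: the relation `Rp x p` is a perspectivity (part (f4))

`x ∈ C`, `x ≠ 1, i`, `p ∈ C`, `p ≠ i, x i`. An element of `C` different from `i` is not an involution (`not_inv_of_mem`), so `x⁻¹`, `p`, `x⁻¹ p`
are not involutions; an element `y` with `x⁻¹ y` an involution is different from `1` and from `p`; an involution `s` is different from `1` and `p`.
* `rp_exists`: `y` from `plane_meet` (`v = x`, line through `1, s`), then `t` from `plane_meet` (`v = 1`, line through `p, y`).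
* `rp_exists'`: `y` from `plane_meet` (`v = x`, line through `p, t`), then `s` from `plane_meet` (`v = 1`, line through `1, y`).
* `rp_unique`: `y = y'` by `plane_meet_unique` (`v = x`, line `1, s`), `t = t'` by `plane_meet_unique` (`v = 1`, line `p, y`).
* `rp_unique'`: `y = y'` (`v = x`, line `p, t`), `s = s'` (`v = 1`, line `1, y`).
* `rp_coll`: with `y = x y'`, `y'` an involution: `persp_coll` for the point `1`, `v = 1`, `v' = x`, then for the point `p`, `v = x`, `v' = 1`.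
  `rp_coll'`: `persp_coll` for `p`, `v = 1`, `v' = x`, then for `1`, `v = x`, `v' = 1` (with `coll_comm`).
* `rp_center`: `y = x i`. `rp_axis`: `y = e` (`x⁻¹ e ∈ pol i` by `cl_mul_pol`), `coll_self`.
* `rp_lines`: `u ∈ pol i` (`pol_symm`); `u⁻¹ * 1 = u`, `u⁻¹ p = u p ∈ pol i` (`pol_mul_cl`), `u⁻¹ s = u s` (`tor_of_comm`) are involutions.
  `plane_line` (`v = u`, line `1, s`): `u⁻¹ y` is an involution; `plane_line` (`v = u`, line `p, y`): `u⁻¹ t = u t` is an involution, so `t` commutes with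
  `u` and `t ≠ u`, `t ∈ pol u`.
-/

namespace Pool.Agent.A1C

universe u

namespace Setup

variable {M : Type u} [Univ M] {G : Type u} [Group G] [DGrp M G] (S : Setup G)

theorem not_inv_of_mem {x : G} (hx : x ∈ S.C) (hxi : x ≠ S.i) : ¬ IsInv x := by
  intro h
  exact hxi ((S.i_uniq x hx h.1).resolve_left h.2)

private theorem PF4_inv {j : G} (hj : IsInv j) : j⁻¹ = j :=
  inv_eq_of_mul_eq_one_left hj.1

private theorem PF4_x {x : G} (hx : x ∈ S.C) (hxi : x ≠ S.i) : ¬ IsInv (x⁻¹ * 1) := by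
  rw [mul_one]
  refine S.not_inv_of_mem (S.C.inv_mem hx) fun h => hxi ?_
  rw [← inv_inv x, h, PF4_inv S.i_inv]

private theorem PF4_p {x p : G} (hx : x ∈ S.C) (hp : p ∈ S.C) (hpx : p ≠ x * S.i) :
    ¬ IsInv (x⁻¹ * p) :=
  S.not_inv_of_mem (S.C.mul_mem (S.C.inv_mem hx) hp) fun h => hpx (inv_mul_eq_iff_eq_mul.1 h)

private theorem PF4_one {p : G} (hp : p ∈ S.C) (hpi : p ≠ S.i) : ¬ IsInv (1⁻¹ * p) := by
  rw [inv_one, one_mul]
  exact S.not_inv_of_mem hp hpi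

theorem rp_exists (hT : AllTor G) {x p s : G} (hx : x ∈ S.C) (hx1 : x ≠ 1) (hxi : x ≠ S.i) (hp : p ∈ S.C)
    (hpi : p ≠ S.i) (hpx : p ≠ x * S.i) (hs : IsInv s) : ∃ t, IsInv t ∧ S.Rp x p s t := by
  have _ := hx1
  have h1 : (1 : G) ≠ s := fun h => hs.2 h.symm
  obtain ⟨y, hy, hyi⟩ := S.plane_meet hT (v := x) h1
  have h2 : p ≠ y := by
    rintro rfl
    exact S.PF4_p hx hp hpx hyi
  have _ := hxi
  have _ := hpi
  obtain ⟨t, ht, hti⟩ := S.plane_meet hT (v := 1) h2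
  rw [inv_one, one_mul] at hti
  exact ⟨t, hti, y, hyi, hy, S.coll_comm ht⟩

theorem rp_exists' (hT : AllTor G) {x p t : G} (hx : x ∈ S.C) (hx1 : x ≠ 1) (hxi : x ≠ S.i) (hp : p ∈ S.C)
    (hpi : p ≠ S.i) (hpx : p ≠ x * S.i) (ht : IsInv t) : ∃ s, IsInv s ∧ S.Rp x p s t := by
  have _ := hx1
  have h1 : p ≠ t := by
    rintro rfl
    exact S.not_inv_of_mem hp hpi ht
  obtain ⟨y, hy, hyi⟩ := S.plane_meet hT (v := x) h1
  have h2 : (1 : G) ≠ y := by
    rintro rfl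
    exact S.PF4_x hx hxi hyi
  have _ := hpx
  obtain ⟨s, hs, hsi⟩ := S.plane_meet hT (v := 1) h2
  rw [inv_one, one_mul] at hsi
  exact ⟨s, hsi, y, hyi, S.coll_comm hs, hy⟩

theorem rp_unique {x p s t t' : G} (hx : x ∈ S.C) (hxi : x ≠ S.i) (hp : p ∈ S.C)
    (hpi : p ≠ S.i) (hpx : p ≠ x * S.i) (hs : IsInv s) (ht : IsInv t) (ht' : IsInv t')
    (h : S.Rp x p s t) (h' : S.Rp x p s t') : t = t' := by
  obtain ⟨y, h1, h2, h3⟩ := h
  obtain ⟨y', h1', h2', h3'⟩ := h'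
  have h4 : (1 : G) ≠ s := fun h => hs.2 h.symm
  have e := S.plane_meet_unique (S.PF4_x hx hxi) h4 h2 h2' h1 h1'
  subst e
  have h5 : p ≠ y := by
    rintro rfl
    exact S.PF4_p hx hp hpx h1
  refine S.plane_meet_unique (v := 1) (S.PF4_one hp hpi) h5 (S.coll_comm h3) (S.coll_comm h3')
    ?_ ?_
  · rw [inv_one, one_mul]
    exact ht
  · rw [inv_one, one_mul]
    exact ht'

theorem rp_unique' {x p s s' t : G} (hx : x ∈ S.C) (hxi : x ≠ S.i) (hp : p ∈ S.C)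
    (hpi : p ≠ S.i) (hpx : p ≠ x * S.i) (hs : IsInv s) (hs' : IsInv s') (ht : IsInv t)
    (h : S.Rp x p s t) (h' : S.Rp x p s' t) : s = s' := by
  obtain ⟨y, h1, h2, h3⟩ := h
  obtain ⟨y', h1', h2', h3'⟩ := h'
  have h4 : p ≠ t := by
    rintro rfl
    exact S.not_inv_of_mem hp hpi ht
  have e := S.plane_meet_unique (S.PF4_p hx hp hpx) h4 h3 h3' h1 h1'
  subst e
  have h5 : (1 : G) ≠ y := by
    rintro rfl
    exact S.PF4_x hx hxi h1
  have h6 : ¬ IsInv ((1 : G)⁻¹ * 1) := by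
    rw [inv_one, one_mul]
    exact fun h => h.2 rfl
  refine S.plane_meet_unique (v := 1) h6 h5 (S.coll_comm h2) (S.coll_comm h2') ?_ ?_
  · rw [inv_one, one_mul]
    exact hs
  · rw [inv_one, one_mul]
    exact hs'

private theorem PF4_11 : ¬ IsInv ((1 : G)⁻¹ * 1) := by
  rw [inv_one, one_mul]
  exact fun h => h.2 rfl

theorem rp_coll (hT : AllTor G) {x p m : G} (hx : x ∈ S.C) (hxi : x ≠ S.i) (hp : p ∈ S.C)
    (hpi : p ≠ S.i) (hpx : p ≠ x * S.i) (hm : IsInv m) :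
    ∃ m', IsInv m' ∧ ∀ s ∈ pol m, ∀ t, IsInv t → S.Rp x p s t → t ∈ pol m' := by
  obtain ⟨m1, hm1, h1⟩ := S.persp_coll hT (p := 1) (v := 1) (v' := x) hm PF4_11 (S.PF4_x hx hxi)
  obtain ⟨m2, hm2, h2⟩ := S.persp_coll hT (p := p) (v := x) (v' := 1) hm1 (S.PF4_p hx hp hpx)
    (S.PF4_one hp hpi)
  refine ⟨m2, hm2, fun s hs t ht hR => ?_⟩
  obtain ⟨y, h3, h4, h5⟩ := hR
  have h6 := h1 s hs (x⁻¹ * y) h3 (by rw [one_mul, mul_inv_cancel_left]; exact h4)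
  exact h2 _ h6 t ht (by rw [one_mul, mul_inv_cancel_left]; exact S.coll_comm h5)

theorem rp_coll' (hT : AllTor G) {x p m : G} (hx : x ∈ S.C) (hxi : x ≠ S.i) (hp : p ∈ S.C)
    (hpi : p ≠ S.i) (hpx : p ≠ x * S.i) (hm : IsInv m) :
    ∃ m', IsInv m' ∧ ∀ t ∈ pol m, ∀ s, IsInv s → S.Rp x p s t → s ∈ pol m' := by
  obtain ⟨m1, hm1, h1⟩ := S.persp_coll hT (p := p) (v := 1) (v' := x) hm (S.PF4_one hp hpi)
    (S.PF4_p hx hp hpx)
  obtain ⟨m2, hm2, h2⟩ := S.persp_coll hT (p := 1) (v := x) (v' := 1) hm1 (S.PF4_x hx hxi) PF4_11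
  refine ⟨m2, hm2, fun t ht s hs hR => ?_⟩
  obtain ⟨y, h3, h4, h5⟩ := hR
  have h6 := h1 t ht (x⁻¹ * y) h3 (by rw [one_mul, mul_inv_cancel_left]; exact h5)
  exact h2 _ h6 s hs (by rw [one_mul, mul_inv_cancel_left]; exact S.coll_comm h4)

theorem rp_center {x p : G} (hx : x ∈ S.C) (hp : p ∈ S.C) : S.Rp x p S.i S.i := by
  refine ⟨x * S.i, ?_, ?_, ?_⟩
  · rw [inv_mul_cancel_left]
    exact S.i_inv
  · refine ⟨S.i, S.i_inv, ?_, ?_⟩
    · rw [inv_one, one_mul]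
      exact S.self_mem_cl S.i_inv
    · rw [inv_one, one_mul, S.cl_i]
      exact S.C.mul_mem hx S.i_mem
  · refine ⟨S.i, S.i_inv, ?_, ?_⟩
    · rw [S.cl_i]
      exact S.C.mul_mem (S.C.inv_mem hp) S.i_mem
    · rw [S.cl_i]
      exact S.C.mul_mem (S.C.inv_mem hp) (S.C.mul_mem hx S.i_mem)

theorem rp_axis (hT : AllTor G) {x p e : G} (hx : x ∈ S.C) (he : e ∈ pol S.i) : S.Rp x p e e := by
  refine ⟨e, ?_, S.coll_self hT 1 e, S.coll_self hT p e⟩
  refine (S.cl_mul_pol S.i_inv he ?_).1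
  rw [S.cl_i]
  exact S.C.inv_mem hx

theorem rp_lines {x p s t u : G} (hx : x ∈ S.C) (hxi : x ≠ S.i) (hp : p ∈ S.C)
    (hpi : p ≠ S.i) (hpx : p ≠ x * S.i) (hs : IsInv s) (ht : IsInv t) (hu : IsInv u)
    (hiu : S.i ∈ pol u) (hsu : s ∈ pol u) (h : S.Rp x p s t) : t ∈ pol u := by
  obtain ⟨y, h1, h2, h3⟩ := h
  have _ := hxi
  have hui : u ∈ pol S.i := pol_symm hu hiu
  have iu := PF4_inv hu
  have e1 : IsInv (u⁻¹ * 1) := by
    rw [mul_one, iu]
    exact hu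
  have e2 : IsInv (u⁻¹ * p) := by
    rw [iu]
    exact (S.pol_mul_cl S.i_inv hui (by rw [S.cl_i]; exact hp)).1
  have e3 : IsInv (u⁻¹ * s) := by
    rw [iu]
    exact (tor_of_comm hu hsu.1 (fun h => hsu.2.1 h.symm) hsu.2.2.symm).1
  have e4 : IsInv (u⁻¹ * y) := S.plane_line e1 e3 (fun h => hs.2 h.symm) h2
  have hpy : p ≠ y := by
    rintro rfl
    exact S.PF4_p hx hp hpx h1
  have e5 : IsInv (u⁻¹ * t) := S.plane_line e2 e4 hpy (S.coll_comm h3)
  have _ := hpi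
  rw [iu] at e5
  have hne : t ≠ u := by
    rintro rfl
    exact e5.2 hu.1
  refine ⟨ht, hne, ?_⟩
  have h6 : (u * t)⁻¹ = u * t := PF4_inv e5
  rw [mul_inv_rev, iu, PF4_inv ht] at h6
  exact h6

end Setup

end Pool.Agent.A1C
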