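import Pool.Agent.A1C.PF4

/-!
# PF5: homologies from perspectivities (part (f4))

`h s` := the unique `t` with `Rp x p s t` (`rp_exists`, `rp_unique`), bijective by `rp_exists'`, `rp_unique'` (`Equiv.ofBijective`).
`coll` (<=): if `s, t, r ∈ pol m` then `h s, h t, h r ∈ pol m'` with `m'` of `rp_coll`; (=>): `rp_coll'`.
`center`, `axis`: `rp_center`, `rp_axis` and uniqueness. `lines`: for `s = i` any `u` with `i ∈ pol u`; for `s ≠ i` take an involution `u` with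
`i, s ∈ pol u` (`hT`) and use `rp_lines`.
-/

namespace Pool.Agent.A1C

universe u

namespace Setup

variable {M : Type u} [Univ M] {G : Type u} [Group G] [DGrp M G] (S : Setup G)

theorem exists_persp (hT : AllTor G) {x p : G} (hx : x ∈ S.C) (hx1 : x ≠ 1) (hxi : x ≠ S.i) (hp : p ∈ S.C)
    (hpi : p ≠ S.i) (hpx : p ≠ x * S.i) :
    ∃ h : Equiv.Perm (invs G), (S.plane hT).IsHom S.pt h ∧ ∀ s : invs G, S.Rp x p s.1 (h s).1 := by
  have hex : ∀ s : invs G, ∃ t : invs G, S.Rp x p s.1 t.1 := by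
    intro s
    obtain ⟨t, ht, h⟩ := S.rp_exists hT hx hx1 hxi hp hpi hpx s.2
    exact ⟨⟨t, ht⟩, h⟩
  choose f hf using hex
  have huniq : ∀ s t : invs G, S.Rp x p s.1 t.1 → f s = t := by
    intro s t h
    exact Subtype.ext (S.rp_unique hx hxi hp hpi hpx s.2 (f s).2 t.2 (hf s) h)
  have hbij : Function.Bijective f := by
    constructor
    · intro s s' h
      have h1 := hf s
      rw [h] at h1
      exact Subtype.ext (S.rp_unique' hx hxi hp hpi hpx s.2 s'.2 (f s').2 h1 (hf s'))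
    · intro t
      obtain ⟨s, hs, h⟩ := S.rp_exists' hT hx hx1 hxi hp hpi hpx t.2
      exact ⟨⟨s, hs⟩, huniq ⟨s, hs⟩ t h⟩
  refine ⟨Equiv.ofBijective f hbij, ⟨?_, ?_, ?_, ?_⟩, hf⟩
  · intro s t r
    constructor
    · rintro ⟨m, h1, h2, h3⟩
      obtain ⟨m', hm', hc⟩ := S.rp_coll' hT hx hxi hp hpi hpx m.2
      exact ⟨⟨m', hm'⟩, hc _ h1 _ s.2 (hf s), hc _ h2 _ t.2 (hf t), hc _ h3 _ r.2 (hf r)⟩
    · rintro ⟨m, h1, h2, h3⟩
      obtain ⟨m', hm', hc⟩ := S.rp_coll hT hx hxi hp hpi hpx m.2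
      exact ⟨⟨m', hm'⟩, hc _ h1 _ (f s).2 (hf s), hc _ h2 _ (f t).2 (hf t),
        hc _ h3 _ (f r).2 (hf r)⟩
  · exact huniq S.pt S.pt (S.rp_center hx hp)
  · intro e he
    exact huniq e e (S.rp_axis hT hx he)
  · intro s
    by_cases hs : s = S.pt
    · have h1 : f s = S.pt := by
        rw [hs]
        exact huniq S.pt S.pt (S.rp_center hx hp)
      obtain ⟨u, hu⟩ := ((S.plane hT).inf S.pt).nonempty
      have h2 := (S.plane hT).symm _ _ hu
      change (S.plane hT).C3 S.pt s (f s)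
      rw [h1, hs]
      exact ⟨u, h2, h2, h2⟩
    · obtain ⟨l, hl, h1, h2⟩ := hT S.i s.1 S.i_inv s.2 (fun h => hs (Subtype.ext h.symm))
      exact ⟨⟨l, hl⟩, h1, h2, S.rp_lines hx hxi hp hpi hpx s.2 (f s).2 hl h1 h2 (hf s)⟩

end Setup

end Pool.Agent.A1C
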