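import Pool.Agent.A1C.PF5

/-!
# PF6: the homologies are transitive on the lines through `i` (part (f5))

* `exists_centre`. `y` from `plane_meet` (`v = x`, line through `1, a`): `Coll 1 a y`, `x⁻¹ y` an involution.
  The plane `l I` contains `1`, `a`, `b` (`l⁻¹ * 1 = l`, `l⁻¹ a = l a`, `l⁻¹ b = l b` are involutions, `tor_of_comm`), so it contains `y` (`plane_line`, `v = l`).
  `y ≠ b`: otherwise `b` and `x⁻¹ b` are involutions, so `b ∈ pol i` by `inv_inter` (`u = x`, `m = i`). The involutions `l⁻¹ y ≠ l⁻¹ b` are in `pol m`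
  for an involution `m` (`hT`). `m ≠ i`: otherwise `b = l (l⁻¹ b) ∈ C` by `pol_mul_pol`, `b = i`. Let `q` be an involution with `m, i ∈ pol q` (`hT`),
  `q ∈ pol m`, `q ∈ pol i` (`pol_symm`), `p = l q ∈ C` (`pol_mul_pol`). `Coll y b p`: `y⁻¹ b = (l⁻¹ y)⁻¹ (l⁻¹ b) ∈ C_m`,
  `y⁻¹ p = (l⁻¹ y)⁻¹ q ∈ C_m`. So `Coll p b y` and `Rp x p a b`.
  `p ≠ i`: otherwise `plane_line` (`v = 1`, line `b, i`) shows that `y` is an involution, `y ∈ pol i` by `inv_inter`; `Coll 1 a y` and `eq_of_inv_mem_cl` give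
  `a = y ∈ pol i`, contradiction. `p ≠ x i`: if `p = x i = y` then `y ∈ C`, `y ≠ 1`, and `Coll 1 a y` with `cl_inj` gives `a ∈ C`, `a = i`; if `p = x i ≠ y` then
  `plane_line` (`v = x`, line `p, y`) shows that `x⁻¹ b` is an involution, so `b ∈ pol i`: contradiction.
* `exists_hom`: `x` from `exists_mem_cl_sq_ne`, `exists_centre`, `exists_persp` and `rp_unique`.
-/

namespace Pool.Agent.A1C

universe u

namespace Setup

variable {M : Type u} [Univ M] {G : Type u} [Group G] [DGrp M G] (S : Setup G)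

private theorem PF6_inv {l a : G} (hl : IsInv l) (ha : a ∈ pol l) : IsInv (l⁻¹ * a) := by
  have hli : l⁻¹ = l := inv_eq_of_mul_eq_one_left hl.1
  rw [hli]
  refine ⟨?_, ?_⟩
  · calc l * a * (l * a) = l * (a * l) * a := by group
      _ = l * (l * a) * a := by rw [ha.2.2]
      _ = (l * l) * (a * a) := by group
      _ = 1 := by rw [hl.1, ha.1.1, one_mul]
  · intro h
    apply ha.2.1
    have h1 : a = l⁻¹ := (inv_eq_of_mul_eq_one_right h).symm
    rw [h1, hli]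

theorem exists_centre (hT : AllTor G) {x l a b : G} (hx : x ∈ S.C) (hx1 : x ≠ 1) (hxi : x ≠ S.i)
    (hl : l ∈ pol S.i) (ha : a ∈ pol l) (hb : b ∈ pol l) (hai : a ≠ S.i) (hbi : b ≠ S.i)
    (haE : a ∉ pol S.i) (hbE : b ∉ pol S.i) :
    ∃ p ∈ S.C, p ≠ S.i ∧ p ≠ x * S.i ∧ S.Rp x p a b := by
  have hli : l⁻¹ = l := inv_eq_of_mul_eq_one_left hl.1.1
  have hxc : x ∈ S.cl S.i := by
    rw [S.cl_i]
    exact hx
  obtain ⟨y, hy1, hy2⟩ := S.plane_meet hT (v := x) (p := 1) (q := a) (Ne.symm ha.1.2)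
  have hy3 : IsInv (l⁻¹ * y) := by
    refine S.plane_line (p := 1) (q := a) ?_ (PF6_inv hl.1 ha) (Ne.symm ha.1.2) hy1
    rw [hli, mul_one]
    exact hl.1
  have hyb : y ≠ b := by
    intro h
    rw [h] at hy2
    exact hbE (S.inv_inter S.i_inv hxc hx1 hb.1 hy2)
  have hlb : IsInv (l⁻¹ * b) := PF6_inv hl.1 hb
  obtain ⟨m, hm, hm1, hm2⟩ := hT (l⁻¹ * y) (l⁻¹ * b) hy3 hlb (fun h => hyb (mul_left_cancel h))
  have hmi : m ≠ S.i := by
    intro h
    rw [h] at hm2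
    have h1 := S.pol_mul_pol S.i_inv hl hm2
    rw [mul_inv_cancel_left, S.cl_i] at h1
    rcases S.i_uniq b h1 hb.1.1 with h2 | h2
    · exact hb.1.2 h2
    · exact hbi h2
  obtain ⟨q, hq, hq1, hq2⟩ := hT m S.i hm S.i_inv hmi
  have hqm : q ∈ pol m := pol_symm hq hq1
  have hqi : q ∈ pol S.i := pol_symm hq hq2
  have hpC : l * q ∈ S.C := by
    have h1 := S.pol_mul_pol S.i_inv hl hqi
    rwa [S.cl_i] at h1
  have hinv : (l⁻¹ * y)⁻¹ = l⁻¹ * y := inv_eq_of_mul_eq_one_left hy3.1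
  have hyb' : y⁻¹ * b ∈ S.cl m := by
    have h1 : y⁻¹ * b = (l⁻¹ * y) * (l⁻¹ * b) := by
      rw [← hinv]
      group
    rw [h1]
    exact S.pol_mul_pol hm hm1 hm2
  have hyp : y⁻¹ * (l * q) ∈ S.cl m := by
    have h1 : y⁻¹ * (l * q) = (l⁻¹ * y) * q := by
      rw [← hinv]
      group
    rw [h1]
    exact S.pol_mul_pol hm hm1 hqm
  have hpy : (l * q)⁻¹ * y ∈ S.cl m := by
    have h1 : (l * q)⁻¹ * y = (y⁻¹ * (l * q))⁻¹ := by group
    rw [h1]
    exact (S.cl m).inv_mem hyp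
  have hpb : (l * q)⁻¹ * b ∈ S.cl m := by
    have h1 : (l * q)⁻¹ * b = ((l * q)⁻¹ * y) * (y⁻¹ * b) := by group
    rw [h1]
    exact (S.cl m).mul_mem hpy hyb'
  have hbp : b⁻¹ * (l * q) ∈ S.cl m := by
    have h1 : b⁻¹ * (l * q) = ((l * q)⁻¹ * b)⁻¹ := by group
    rw [h1]
    exact (S.cl m).inv_mem hpb
  have hby : b⁻¹ * y ∈ S.cl m := by
    have h1 : b⁻¹ * y = (y⁻¹ * b)⁻¹ := by group
    rw [h1]
    exact (S.cl m).inv_mem hyb'
  refine ⟨l * q, hpC, ?_, ?_, ⟨y, hy2, hy1, ⟨m, hm, hpb, hpy⟩⟩⟩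
  · intro hpi
    rw [hpi] at hbp
    have h1 : IsInv (1⁻¹ * y) := by
      refine S.plane_line (p := b) (q := S.i) ?_ ?_ hbi ⟨m, hm, hbp, hby⟩
      · rw [inv_one, one_mul]
        exact hb.1
      · rw [inv_one, one_mul]
        exact S.i_inv
    rw [inv_one, one_mul] at h1
    have h2 : y ∈ pol S.i := S.inv_inter S.i_inv hxc hx1 h1 hy2
    obtain ⟨k, hk, hk1, hk2⟩ := hy1
    rw [inv_one, one_mul] at hk1 hk2
    have h3 := S.eq_of_inv_mem_cl hk ha.1 hk1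
    have h4 := S.eq_of_inv_mem_cl hk h1 hk2
    rw [h4, ← h3] at h2
    exact haE h2
  · intro hpx
    by_cases hpy2 : l * q = y
    · have hyC : y ∈ S.C := by
        rw [← hpy2]
        exact hpC
      have hy0 : y ≠ 1 := by
        intro h
        apply hxi
        rw [← hpy2, hpx] at h
        have h1 : x = S.i⁻¹ := eq_inv_of_mul_eq_one_left h
        rw [h1]
        exact inv_eq_of_mul_eq_one_left S.i_inv.1
      obtain ⟨k, hk, hk1, hk2⟩ := hy1
      rw [inv_one, one_mul] at hk1 hk2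
      have hyC' : y ∈ S.cl S.i := by
        rw [S.cl_i]
        exact hyC
      have h1 : k = S.i := S.cl_inj hk S.i_inv hk2 hyC' hy0
      rw [h1] at hk1
      exact hai (S.eq_of_inv_mem_cl S.i_inv ha.1 hk1)
    · have h1 : IsInv (x⁻¹ * b) := by
        refine S.plane_line (p := l * q) (q := y) ?_ hy2 hpy2 ⟨m, hm, hpy, hpb⟩
        rw [hpx, inv_mul_cancel_left]
        exact S.i_inv
      exact hbE (S.inv_inter S.i_inv hxc hx1 hb.1 h1)

theorem exists_hom (hT : AllTor G) {l a b : invs G} (hl : (S.plane hT).perp l S.pt)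
    (ha : (S.plane hT).perp a l) (hb : (S.plane hT).perp b l) (hai : a ≠ S.pt) (hbi : b ≠ S.pt)
    (haE : ¬ (S.plane hT).perp a S.pt) (hbE : ¬ (S.plane hT).perp b S.pt) :
    ∃ h, (S.plane hT).IsHom S.pt h ∧ h a = b := by
  obtain ⟨x, hx, hxx⟩ := S.exists_mem_cl_sq_ne S.i_inv
  rw [S.cl_i] at hx
  have hx1 : x ≠ 1 := by
    intro h
    apply hxx
    rw [h, mul_one]
  have hxi : x ≠ S.i := by
    intro h
    apply hxx
    rw [h]
    exact S.i_inv.1
  obtain ⟨p, hp, hpi, hpx, hR⟩ := S.exists_centre hT hx hx1 hxi hl ha hb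
    (fun h => hai (Subtype.ext h)) (fun h => hbi (Subtype.ext h)) haE hbE
  obtain ⟨h, hh, hR2⟩ := S.exists_persp hT hx hx1 hxi hp hpi hpx
  refine ⟨h, hh, ?_⟩
  exact Subtype.ext (S.rp_unique hx hxi hp hpi hpx a.2 (h a).2 b.2 (hR2 a) hR)

end Setup

end Pool.Agent.A1C
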