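import Pool.Agent.A1C.PF0

/-!
# PF7: a homology with one more fixed point is the identity (abstract planes, part (f5))
-/

namespace Pool.Agent.A1C

universe u

namespace Pl

variable {P : Type u} (Q : Pl P)

theorem meet_unique {p q s t : P} (hne : p ≠ q) (h1 : Q.perp s p) (h2 : Q.perp s q)
    (h3 : Q.perp t p) (h4 : Q.perp t q) : s = t :=
  Q.uniq p q s t hne (Q.symm _ _ h1) (Q.symm _ _ h2) (Q.symm _ _ h3) (Q.symm _ _ h4)

theorem exists_off (i : P) {F : Set P} (hF : F.Finite) : ∃ s, ∀ w ∈ F, ¬ Q.perp s w := by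
  have hinf : (Set.univ : Set P).Infinite := (Q.inf i).mono (Set.subset_univ _)
  obtain ⟨m, _, hm⟩ := (hinf.sdiff hF).nonempty
  have hsub : ∀ w ∈ F, ({s | Q.perp s m ∧ Q.perp s w}).Subsingleton := by
    intro w hw s hs t ht
    have hne : m ≠ w := fun h => hm (h ▸ hw)
    exact Q.meet_unique hne hs.1 hs.2 ht.1 ht.2
  have hfin : (⋃ w ∈ F, {s | Q.perp s m ∧ Q.perp s w}).Finite :=
    hF.biUnion fun w hw => (hsub w hw).finite
  obtain ⟨s, hs1, hs2⟩ := ((Q.inf m).sdiff hfin).nonempty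
  refine ⟨s, fun w hw hsw => hs2 ?_⟩
  rw [Set.mem_iUnion₂]
  exact ⟨w, hw, hs1, hsw⟩

private theorem pf7_step {i : P} {h : Equiv.Perm P} (hh : Q.IsHom i h) {a : P} (ha : h a = a)
    (hai : a ≠ i) (haE : ¬ Q.perp a i) {s : P} (hs : ¬ Q.C3 i a s) : h s = s := by
  by_cases hsi : Q.perp s i
  · exact hh.axis s hsi
  · have has : a ≠ s := by
      rintro rfl
      obtain ⟨p, h1, h2⟩ := Q.ex i a (Ne.symm hai)
      exact hs ⟨p, h1, h2, h2⟩
    obtain ⟨k, hak, hsk⟩ := Q.ex a s has
    have hki : k ≠ i := by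
      rintro rfl
      exact haE hak
    obtain ⟨e, hke, hie⟩ := Q.ex k i hki
    have hek := Q.symm _ _ hke
    have hei := Q.symm _ _ hie
    have hae : a ≠ e := by
      rintro rfl
      exact haE hei
    have hc : Q.C3 (h a) (h s) (h e) := (hh.coll a s e).2 ⟨k, hak, hsk, hek⟩
    rw [ha, hh.axis e hei] at hc
    obtain ⟨q, q1, q2, q3⟩ := hc
    have hq : q = k := Q.uniq a e q k hae q1 q3 hak hek
    rw [hq] at q2
    obtain ⟨r, r1, r2, r3⟩ := hh.lines s
    by_contra hne
    have hr : r = k := Q.uniq s (h s) r k (Ne.symm hne) r2 r3 hsk q2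
    rw [hr] at r1
    exact hs ⟨k, r1, hak, hsk⟩

theorem hom_unique {i a : P} {h : Equiv.Perm P} (hh : Q.IsHom i h) (ha : h a = a) (hai : a ≠ i)
    (haE : ¬ Q.perp a i) : h = 1 := by
  ext s
  rw [Equiv.Perm.one_apply]
  by_cases hs : Q.C3 i a s
  · by_cases hsi : s = i
    · rw [hsi]
      exact hh.center
    · by_cases hsE : Q.perp s i
      · exact hh.axis s hsE
      · obtain ⟨m, m1, m2, m3⟩ := hs
        obtain ⟨a', ha'⟩ := Q.exists_off i (F := {m, i}) (Set.toFinite _)
        have b1 : ¬ Q.perp a' m := ha' m (by simp)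
        have b2 : ¬ Q.perp a' i := ha' i (by simp)
        have b3 : a' ≠ i := by
          rintro rfl
          exact b1 m1
        have c1 : ¬ Q.C3 i a a' := by
          rintro ⟨p, p1, p2, p3⟩
          have hp : p = m := Q.uniq i a p m (Ne.symm hai) p1 p2 m1 m2
          rw [hp] at p3
          exact b1 p3
        have d1 : h a' = a' := Q.pf7_step hh ha hai haE c1
        have c2 : ¬ Q.C3 i a' s := by
          rintro ⟨p, p1, p2, p3⟩
          have hp : p = m := Q.uniq i s p m (Ne.symm hsi) p1 p3 m1 m3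
          rw [hp] at p2
          exact b1 p2
        exact Q.pf7_step hh d1 b3 b2 c2
  · exact Q.pf7_step hh ha hai haE hs

end Pl

end Pool.Agent.A1C
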