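import Pool.Agent.A1C.DC

/-!
# RA1: first properties of the rank

`rk_succ_le_iff` is axiom A transported through `enc` (`DTy.inj`). `rk_mono`: by axiom A
(`rk A = k + 1` gives disjoint subsets of rank `≥ k` of `A`, which are subsets of `B`). `rk_eq_zero_iff`: an infinite set contains
infinitely many disjoint singletons, a finite one does not contain infinitely many disjoint nonempty sets.
-/

namespace Pool.Agent.A1C

universe u

variable {M : Type u} [Univ M] {X Y Z : Type u} [DTy M X] [DTy M Y] [DTy M Z]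

theorem rk_empty : rk (∅ : Set X) = 0 := by
  unfold rk
  rw [Set.image_empty]
  exact Univ.rk_empty₀

theorem rk_succ_le_iff {A : Set X} (hA : Df A) (hne : A.Nonempty) (k : ℕ) :
    k + 1 ≤ rk A ↔ ∃ B : ℕ → Set X,
      (∀ i, Df (B i) ∧ (B i).Nonempty ∧ B i ⊆ A ∧ k ≤ rk (B i)) ∧
        ∀ i j, i ≠ j → Disjoint (B i) (B j) := by
  refine Iff.trans (Univ.rk_succ_le₀ hA (hne.image _) k) ?_
  constructor
  · rintro ⟨B, hB, hd⟩
    have him : ∀ i, DTy.enc '' (DTy.enc ⁻¹' (B i) : Set X) = B i := by
      intro i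
      rw [Set.image_preimage_eq_iff]
      exact (hB i).2.2.1.trans (Set.image_subset_range _ _)
    refine ⟨fun i => DTy.enc ⁻¹' (B i), fun i => ⟨?_, ?_, ?_, ?_⟩, ?_⟩
    · change Univ.Def (DTy.enc '' (DTy.enc ⁻¹' (B i) : Set X))
      rw [him i]
      exact (hB i).1
    · obtain ⟨v, hv⟩ := (hB i).2.1
      obtain ⟨x, _, rfl⟩ := (hB i).2.2.1 hv
      exact ⟨x, hv⟩
    · intro x hx
      obtain ⟨y, hy, hxy⟩ := (hB i).2.2.1 hx
      rw [← DTy.inj hxy]
      exact hy
    · change k ≤ Univ.rk₀ (DTy.enc '' (DTy.enc ⁻¹' (B i) : Set X))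
      rw [him i]
      exact (hB i).2.2.2
    · intro i j hij
      exact (hd i j hij).preimage _
  · rintro ⟨B, hB, hd⟩
    refine ⟨fun i => DTy.enc '' (B i), fun i => ⟨(hB i).1, (hB i).2.1.image _,
      Set.image_mono (hB i).2.2.1, (hB i).2.2.2⟩, ?_⟩
    intro i j hij
    exact (Set.disjoint_image_iff DTy.inj).mpr (hd i j hij)

theorem rk_mono {A B : Set X} (hA : Df A) (hB : Df B) (h : A ⊆ B) : rk A ≤ rk B := by
  rcases Set.eq_empty_or_nonempty A with rfl | hne
  · rw [rk_empty]
    exact Nat.zero_le _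
  · rcases Nat.eq_zero_or_eq_succ_pred (rk A) with h0 | h0
    · rw [h0]
      exact Nat.zero_le _
    · have h1 : (rk A).pred + 1 ≤ rk A := h0.ge
      rw [rk_succ_le_iff hA hne] at h1
      obtain ⟨C, hC, hd⟩ := h1
      rw [h0]
      refine (rk_succ_le_iff hB (hne.mono h) _).mpr ⟨C, fun i => ⟨(hC i).1, (hC i).2.1,
        (hC i).2.2.1.trans h, (hC i).2.2.2⟩, hd⟩

theorem rk_eq_zero_iff {A : Set X} (hA : Df A) : rk A = 0 ↔ A.Finite := by
  rcases Set.eq_empty_or_nonempty A with rfl | hne
  · rw [rk_empty]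
    simp
  · constructor
    · intro h0
      by_contra hinf
      have hinf' : A.Infinite := hinf
      have h1 : 0 + 1 ≤ rk A := by
        rw [rk_succ_le_iff hA hne]
        refine ⟨fun i => {((hinf'.natEmbedding A i : A) : X)}, fun i => ⟨Df.singleton _,
          Set.singleton_nonempty _, ?_, Nat.zero_le _⟩, ?_⟩
        · rw [Set.singleton_subset_iff]
          exact Subtype.coe_prop _
        · intro i j hij
          rw [Set.disjoint_singleton]
          intro h
          exact hij ((hinf'.natEmbedding A).injective (Subtype.ext h))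
      omega
    · intro hfin
      by_contra h0
      have h1 : 0 + 1 ≤ rk A := by omega
      rw [rk_succ_le_iff hA hne] at h1
      obtain ⟨C, hC, hd⟩ := h1
      choose b hb using fun i => (hC i).2.1
      have hinj : Function.Injective b := by
        intro i j hij
        by_contra hne2
        have h2 := Set.disjoint_left.mp (hd i j hne2) (hb i)
        rw [hij] at h2
        exact h2 (hb j)
      exact Set.infinite_of_injective_forall_mem hinj (fun i => (hC i).2.2.1 (hb i)) hfin

theorem rk_singleton (x : X) : rk ({x} : Set X) = 0 :=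
  (rk_eq_zero_iff (Df.singleton x)).mpr (Set.finite_singleton x)

end Pool.Agent.A1C
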