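import Pool.Agent.A1C.RA1

/-!
# RA2: first properties of the rank

`rk_succ_le_iff` is axiom A transported through `enc` (`DTy.inj`). `rk_mono`: by axiom A, induction on the rank
(`rk A = k + 1` gives disjoint subsets of rank `≥ k` of `A`, which are subsets of `B`). `rk_eq_zero_iff`: an infinite set contains
infinitely many disjoint singletons, a finite one does not contain infinitely many disjoint nonempty sets.
`rk_union`: if `rk A, rk B ≤ k` and `rk (A ∪ B) ≥ k + 1`, induct on `k`: infinitely many disjoint `B i ⊆ A ∪ B` of rank `≥ k`;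
for each `i` one of `B i ∩ A`, `B i ∩ B` has rank `≥ k` (induction hypothesis; for `k = 0` nonempty), infinitely often
the same one, which gives rank `≥ k + 1` for `A` or `B`.
-/

namespace Pool.Agent.A1C

universe u

variable {M : Type u} [Univ M] {X Y Z : Type u} [DTy M X] [DTy M Y] [DTy M Z]

private theorem RA2_key (k : ℕ) : ∀ {A B : Set X}, Df A → Df B → (A ∪ B).Nonempty →
    k ≤ rk (A ∪ B) → (A.Nonempty ∧ k ≤ rk A) ∨ (B.Nonempty ∧ k ≤ rk B) := by
  induction k with
  | zero =>
    intro A B _ _ hne _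
    rcases Set.union_nonempty.1 hne with h | h
    · exact Or.inl ⟨h, Nat.zero_le _⟩
    · exact Or.inr ⟨h, Nat.zero_le _⟩
  | succ k ih =>
    intro A B hA hB hne hk
    obtain ⟨S, hS, hd⟩ := (rk_succ_le_iff (hA.union hB) hne k).1 hk
    have h1 : ∀ i, ((S i ∩ A).Nonempty ∧ k ≤ rk (S i ∩ A)) ∨
        ((S i ∩ B).Nonempty ∧ k ≤ rk (S i ∩ B)) := by
      intro i
      obtain ⟨a1, a2, a3, a4⟩ := hS i
      have e : S i ∩ A ∪ S i ∩ B = S i := by
        rw [← Set.inter_union_distrib_left]
        exact Set.inter_eq_left.2 a3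
      exact ih (a1.inter hA) (a1.inter hB) (by rw [e]; exact a2) (by rw [e]; exact a4)
    have step : ∀ C : Set X, Df C → {i | (S i ∩ C).Nonempty ∧ k ≤ rk (S i ∩ C)}.Infinite →
        C.Nonempty ∧ k + 1 ≤ rk C := by
      intro C hC hinf
      have e := hinf.natEmbedding
      have hCn : C.Nonempty := by
        obtain ⟨x, hx⟩ := (e 0).2.1
        exact ⟨x, hx.2⟩
      refine ⟨hCn, (rk_succ_le_iff hC hCn k).2 ⟨fun n => S (e n) ∩ C, ?_, ?_⟩⟩
      · intro n
        exact ⟨(hS (e n)).1.inter hC, (e n).2.1, Set.inter_subset_right, (e n).2.2⟩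
      · intro i j hij
        refine (hd (e i) (e j) ?_).mono Set.inter_subset_left Set.inter_subset_left
        intro h
        exact hij (e.injective (Subtype.ext h))
    have hu : {i | (S i ∩ A).Nonempty ∧ k ≤ rk (S i ∩ A)} ∪
        {i | (S i ∩ B).Nonempty ∧ k ≤ rk (S i ∩ B)} = Set.univ := by
      ext i
      simp only [Set.mem_union, Set.mem_univ, iff_true]
      exact h1 i
    have hinf : ({i | (S i ∩ A).Nonempty ∧ k ≤ rk (S i ∩ A)} ∪
        {i | (S i ∩ B).Nonempty ∧ k ≤ rk (S i ∩ B)}).Infinite := by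
      rw [hu]
      exact Set.infinite_univ
    rcases Set.infinite_union.1 hinf with h | h
    · exact Or.inl (step A hA h)
    · exact Or.inr (step B hB h)

theorem rk_union {A B : Set X} (hA : Df A) (hB : Df B) : rk (A ∪ B) = max (rk A) (rk B) := by
  apply le_antisymm
  · rcases (A ∪ B).eq_empty_or_nonempty with h | h
    · rw [h, rk_empty]
      exact Nat.zero_le _
    · rcases RA2_key (rk (A ∪ B)) hA hB h le_rfl with h1 | h1
      · exact h1.2.trans (le_max_left _ _)
      · exact h1.2.trans (le_max_right _ _)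
  · exact max_le (rk_mono hA (hA.union hB) Set.subset_union_left)
      (rk_mono hB (hA.union hB) Set.subset_union_right)

/-- a finite union of definable sets -/
theorem rk_biUnion_le {ι : Type*} {I : Set ι} (hI : I.Finite) {S : ι → Set X}
    (h : ∀ i ∈ I, Df (S i)) {k : ℕ} (hk : ∀ i ∈ I, rk (S i) ≤ k) : rk (⋃ i ∈ I, S i) ≤ k := by
  classical
  induction I, hI using Set.Finite.induction_on with
  | empty =>
    rw [Set.biUnion_empty, rk_empty]
    exact Nat.zero_le _
  | @insert a s _ hs ih =>
    rw [Set.biUnion_insert, rk_union (h a (Set.mem_insert _ _))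
      (Df.biUnion hs fun i hi => h i (Set.mem_insert_of_mem _ hi))]
    exact max_le (hk a (Set.mem_insert _ _)) (ih (fun i hi => h i (Set.mem_insert_of_mem _ hi))
      fun i hi => hk i (Set.mem_insert_of_mem _ hi))

theorem exists_rk_eq_of_biUnion {ι : Type*} {I : Set ι} (hI : I.Finite) (hne : I.Nonempty)
    {S : ι → Set X} (h : ∀ i ∈ I, Df (S i)) : ∃ i ∈ I, rk (⋃ i ∈ I, S i) = rk (S i) := by
  obtain ⟨a, ha, hmax⟩ := Set.exists_max_image I (fun i => rk (S i)) hI hne
  refine ⟨a, ha, le_antisymm (rk_biUnion_le hI h fun i hi => hmax i hi) ?_⟩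
  exact rk_mono (h a ha) (Df.biUnion hI h) (Set.subset_biUnion_of_mem (u := S) ha)

theorem small_union {A B C : Set X} (hA : Df A) (hB : Df B) (h1 : Small A C) (h2 : Small B C) :
    Small (A ∪ B) C := by
  rcases h1 with h1 | h1
  · rw [h1, Set.empty_union]
    exact h2
  · rcases h2 with h2 | h2
    · rw [h2, Set.union_empty]
      exact Or.inr h1
    · exact Or.inr (by rw [rk_union hA hB]; exact max_lt h1 h2)

theorem small_mono {A B C : Set X} (hA : Df A) (hB : Df B) (h : A ⊆ B) (h2 : Small B C) :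
    Small A C := by
  rcases h2 with h2 | h2
  · exact Or.inl (Set.subset_eq_empty h h2)
  · exact Or.inr ((rk_mono hA hB h).trans_lt h2)

theorem small_of_subset_right {A B C : Set X} (hB : Df B) (hC : Df C) (h : B ⊆ C)
    (h2 : Small A B) : Small A C := by
  rcases h2 with h2 | h2
  · exact Or.inl h2
  · exact Or.inr (h2.trans_le (rk_mono hB hC h))

end Pool.Agent.A1C
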