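import Pool.Agent.A1C.RA2

/-!
# RB1: additivity

`rk_eq_add`: axiom C transported through `enc` (for the partial function on `enc '' A` choose preimages; outside use any value,
`Function.invFun` or `Classical.choice`; if `X` is empty there is nothing to prove).
`rk_injOn`: all fibres are singletons. `rk_rel_fst`: the function is `Prod.fst` on `S`, the fibre `{x} ×ˢ S_x` has rank
`rk S_x` (`rk_injOn` for `y ↦ (x, y)`). The inequalities: split the base by the (finitely many, at most `rk S`) fibre ranks with `def_rk₀`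
(`DfP.rk_eq`), apply `rk_rel_fst` to each part and `rk_union`.
-/

namespace Pool.Agent.A1C

universe u

variable {M : Type u} [Univ M] {X Y Z : Type u} [DTy M X] [DTy M Y] [DTy M Z]

omit [Univ M] in
private theorem RB1_append {n m : ℕ} {v v' : Fin n → M} {w w' : Fin m → M}
    (h : Fin.append v w = Fin.append v' w') : v = v' ∧ w = w' := by
  constructor
  · funext i
    have := congrFun h (Fin.castAdd _ i)
    simpa using this
  · funext i
    have := congrFun h (Fin.natAdd _ i)
    simpa using this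

/-- axiom C -/
theorem rk_eq_add {f : X → Y} (hf : DfFun f) {A : Set X} (hA : Df A) (hne : A.Nonempty) {k : ℕ}
    (h : ∀ y ∈ f '' A, rk (A ∩ f ⁻¹' {y}) = k) : rk A = rk (f '' A) + k := by
  have : Nonempty X := ⟨hne.some⟩
  obtain ⟨g, hg⟩ : ∃ g : (Fin (DTy.dim X) → M) → (Fin (DTy.dim Y) → M),
      ∀ x : X, g (DTy.enc x) = DTy.enc (f x) := by
    refine ⟨fun v => DTy.enc (f (Function.invFun (DTy.enc : X → _) v)), fun x => ?_⟩
    show DTy.enc (f (Function.invFun (DTy.enc : X → _) (DTy.enc x))) = DTy.enc (f x)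
    rw [Function.leftInverse_invFun (DTy.inj (X := X)) x]
  have hgr : Univ.Def {z : Fin (DTy.dim X + DTy.dim Y) → M |
      ∃ v ∈ (DTy.enc '' A : Set (Fin (DTy.dim X) → M)), z = Fin.append v (g v)} := by
    have h1 : Df ({p : X × Y | p.2 = f p.1} ∩ {p : X × Y | p.1 ∈ A}) :=
      Df.inter hf (DfFun.fst.preimage hA)
    have h2 : {z : Fin (DTy.dim X + DTy.dim Y) → M |
        ∃ v ∈ (DTy.enc '' A : Set (Fin (DTy.dim X) → M)), z = Fin.append v (g v)} =
        (DTy.enc '' ({p : X × Y | p.2 = f p.1} ∩ {p : X × Y | p.1 ∈ A}) :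
          Set (Fin (DTy.dim (X × Y)) → M)) := by
      ext z
      constructor
      · rintro ⟨v, ⟨x, hx, rfl⟩, rfl⟩
        refine ⟨(x, f x), ⟨rfl, hx⟩, ?_⟩
        rw [hg]
        rfl
      · rintro ⟨⟨x, y⟩, ⟨h3, h4⟩, rfl⟩
        have h5 : y = f x := h3
        refine ⟨DTy.enc x, ⟨x, h4, rfl⟩, ?_⟩
        rw [hg, ← h5]
        rfl
    rw [h2]
    exact h1
  have him : g '' (DTy.enc '' A) = DTy.enc '' (f '' A) := by
    ext w
    constructor
    · rintro ⟨v, ⟨x, hx, rfl⟩, rfl⟩
      exact ⟨f x, ⟨x, hx, rfl⟩, (hg x).symm⟩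
    · rintro ⟨y, ⟨x, hx, rfl⟩, rfl⟩
      exact ⟨DTy.enc x, ⟨x, hx, rfl⟩, hg x⟩
  have key := Univ.rk_add₀ (A := DTy.enc '' A) g hA hgr (hne.image _) k (by
    intro w hw
    rw [him] at hw
    obtain ⟨y, hy, rfl⟩ := hw
    have h3 := h y hy
    have h4 : (DTy.enc '' A) ∩ g ⁻¹' {DTy.enc y} =
        (DTy.enc '' (A ∩ f ⁻¹' {y}) : Set (Fin (DTy.dim X) → M)) := by
      ext v
      constructor
      · rintro ⟨⟨x, hx, rfl⟩, h5⟩
        have h6 : g (DTy.enc x) = DTy.enc y := h5
        rw [hg] at h6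
        exact ⟨x, ⟨hx, DTy.inj h6⟩, rfl⟩
      · rintro ⟨x, ⟨hx, h5⟩, rfl⟩
        have h6 : f x = y := h5
        refine ⟨⟨x, hx, rfl⟩, ?_⟩
        show g (DTy.enc x) = DTy.enc y
        rw [hg, h6]
    rw [h4]
    exact h3)
  rw [him] at key
  exact key

/-- axiom B -/
theorem DfP.rk_eq {p : X → Y → Prop} (h : DfP fun z : X × Y => p z.1 z.2) (k : ℕ) :
    DfP fun x => rk {y | p x y} = k := by
  have h0 : Univ.Def (n := DTy.dim X + DTy.dim Y)
      (DTy.enc '' {z : X × Y | p z.1 z.2} : Set (Fin (DTy.dim (X × Y)) → M)) := h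
  have h1 := Univ.def_rk₀ (n := DTy.dim X) (m := DTy.dim Y) h0 k
  have h2 := Univ.def_inter (DTy.def_range (X := X)) h1
  have h3 : (DTy.enc '' {x : X | rk {y | p x y} = k} : Set (Fin (DTy.dim X) → M)) =
      Set.range (DTy.enc : X → _) ∩ {v : Fin (DTy.dim X) → M |
        Univ.rk₀ {w : Fin (DTy.dim Y) → M | Fin.append v w ∈
          (DTy.enc '' {z : X × Y | p z.1 z.2} : Set (Fin (DTy.dim (X × Y)) → M))} = k} := by
    have h4 : ∀ x : X, {w : Fin (DTy.dim Y) → M | Fin.append (DTy.enc x) w ∈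
        (DTy.enc '' {z : X × Y | p z.1 z.2} : Set (Fin (DTy.dim (X × Y)) → M))} =
        DTy.enc '' {y | p x y} := by
      intro x
      ext w
      constructor
      · rintro ⟨⟨x', y⟩, h5, h6⟩
        obtain ⟨e1, e2⟩ := RB1_append (h6 : Fin.append (DTy.enc x') (DTy.enc y) =
          Fin.append (DTy.enc x) w)
        have e3 : x' = x := DTy.inj e1
        subst e3
        exact ⟨y, h5, e2⟩
      · rintro ⟨y, h5, rfl⟩
        exact ⟨(x, y), h5, rfl⟩
    ext v
    constructor
    · rintro ⟨x, hx, rfl⟩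
      refine ⟨⟨x, rfl⟩, ?_⟩
      show Univ.rk₀ _ = k
      rw [h4 x]
      exact hx
    · rintro ⟨⟨x, rfl⟩, hx⟩
      refine ⟨x, ?_, rfl⟩
      have hx' : Univ.rk₀ {w : Fin (DTy.dim Y) → M | Fin.append (DTy.enc x) w ∈
        (DTy.enc '' {z : X × Y | p z.1 z.2} : Set (Fin (DTy.dim (X × Y)) → M))} = k := hx
      rw [h4 x] at hx'
      exact hx'
  show Univ.Def (DTy.enc '' {x : X | rk {y | p x y} = k})
  rw [h3]
  exact h2

theorem DfP.rk_le {p : X → Y → Prop} (h : DfP fun z : X × Y => p z.1 z.2) (k : ℕ) :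
    DfP fun x => rk {y | p x y} ≤ k := by
  induction k with
  | zero =>
    have e : (fun x => rk {y | p x y} ≤ 0) = fun x => rk {y | p x y} = 0 := by
      funext x
      exact propext Nat.le_zero
    rw [e]
    exact DfP.rk_eq h 0
  | succ k ih =>
    have e : (fun x => rk {y | p x y} ≤ k + 1) =
        fun x => rk {y | p x y} ≤ k ∨ rk {y | p x y} = k + 1 := by
      funext x
      exact propext Nat.le_succ_iff
    rw [e]
    exact ih.or (DfP.rk_eq h (k + 1))

theorem DfP.rk_lt {p : X → Y → Prop} (h : DfP fun z : X × Y => p z.1 z.2) (k : ℕ) :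
    DfP fun x => rk {y | p x y} < k := by
  cases k with
  | zero =>
    have e : (fun x => rk {y | p x y} < 0) = fun _ => False := by
      funext x
      exact propext (by simp)
    rw [e]
    exact DfP.const _
  | succ k =>
    have e : (fun x => rk {y | p x y} < k + 1) = fun x => rk {y | p x y} ≤ k := by
      funext x
      exact propext Nat.lt_succ_iff
    rw [e]
    exact DfP.rk_le h k

theorem rk_injOn {f : X → Y} (hf : DfFun f) {A : Set X} (hA : Df A) (h : Set.InjOn f A) :
    rk (f '' A) = rk A := by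
  rcases A.eq_empty_or_nonempty with hA0 | hne
  · rw [hA0, Set.image_empty, rk_empty, rk_empty]
  · have key := rk_eq_add hf hA hne (k := 0) (by
      rintro y ⟨x, hx, rfl⟩
      have e : A ∩ f ⁻¹' {f x} = {x} := by
        ext z
        constructor
        · rintro ⟨hz, h1⟩
          exact h hz hx h1
        · rintro rfl
          exact ⟨hx, rfl⟩
      rw [e]
      exact rk_singleton x)
    rw [key, add_zero]

end Pool.Agent.A1C
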