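import Pool.Agent.A1C.RB1

/-!
# RB2: additivity

`rk_eq_add`: axiom C transported through `enc` (for the partial function on `enc '' A` choose preimages; outside use any value,
`Function.invFun` or `Classical.choice`; if `X` is empty there is nothing to prove).
`rk_injOn`: all fibres are singletons. `rk_rel_fst`: the function is `Prod.fst` on `S`, the fibre `{x} ×ˢ S_x` has rank
`rk S_x` (`rk_injOn` for `y ↦ (x, y)`). The inequalities: split the base by the (finitely many, at most `rk S`) fibre ranks with `def_rk₀`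
(`DfP.rk_eq`), apply `rk_rel_fst` to each part and `rk_union`.
-/

namespace Pool.Agent.A1C

universe u

variable {M : Type u} [Univ M] {X Y Z : Type u} [DTy M X] [DTy M Y] [DTy M Z]

theorem rk_prod_swap {S : Set (X × Y)} (hS : Df S) : rk {p : Y × X | (p.2, p.1) ∈ S} = rk S := by
  have h1 : {p : Y × X | (p.2, p.1) ∈ S} = (fun q : X × Y => (q.2, q.1)) '' S := by
    ext ⟨y, x⟩
    constructor
    · intro h
      exact ⟨(x, y), h, rfl⟩
    · rintro ⟨⟨x', y'⟩, h, h'⟩
      obtain ⟨rfl, rfl⟩ := Prod.mk.inj h'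
      exact h
  rw [h1]
  refine rk_injOn (DfFun.pair DfFun.snd DfFun.fst) hS ?_
  rintro ⟨x, y⟩ _ ⟨x', y'⟩ _ h
  obtain ⟨rfl, rfl⟩ := Prod.mk.inj h
  rfl

theorem rk_rel_fst {S : Set (X × Y)} (hS : Df S) (hne : S.Nonempty) {k : ℕ}
    (h : ∀ x, (∃ y, (x, y) ∈ S) → rk {y | (x, y) ∈ S} = k) :
    rk S = rk {x | ∃ y, (x, y) ∈ S} + k := by
  have h1 : {x | ∃ y, (x, y) ∈ S} = (fun q : X × Y => q.1) '' S := by
    ext x
    constructor
    · rintro ⟨y, hy⟩
      exact ⟨(x, y), hy, rfl⟩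
    · rintro ⟨⟨x', y'⟩, h2, rfl⟩
      exact ⟨y', h2⟩
  rw [h1]
  refine rk_eq_add DfFun.fst hS hne ?_
  rintro x ⟨⟨x', y'⟩, h2, rfl⟩
  have h3 : S ∩ (fun q : X × Y => q.1) ⁻¹' {x'} = (fun y : Y => (x', y)) '' {y | (x', y) ∈ S} := by
    ext ⟨a, b⟩
    constructor
    · rintro ⟨h4, h5⟩
      have h6 : a = x' := h5
      subst h6
      exact ⟨b, h4, rfl⟩
    · rintro ⟨y, hy, h5⟩
      obtain ⟨rfl, rfl⟩ := Prod.mk.inj h5
      exact ⟨hy, rfl⟩
  have h4 : rk ((fun y : Y => (x', y)) '' {y | (x', y) ∈ S}) = rk {y | (x', y) ∈ S} := by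
    refine rk_injOn (DfFun.pair (DfFun.const x') DfFun.id) (hS.section_left x') ?_
    intro y _ y' _ h5
    exact (Prod.mk.inj h5).2
  show rk (S ∩ (fun q : X × Y => q.1) ⁻¹' {x'}) = k
  rw [h3, h4]
  exact h x' ⟨y', h2⟩

theorem rk_rel_snd {S : Set (X × Y)} (hS : Df S) (hne : S.Nonempty) {k : ℕ}
    (h : ∀ y, (∃ x, (x, y) ∈ S) → rk {x | (x, y) ∈ S} = k) :
    rk S = rk {y | ∃ x, (x, y) ∈ S} + k := by
  rw [← rk_prod_swap hS]
  obtain ⟨⟨a, b⟩, hab⟩ := hne
  exact rk_rel_fst (S := {p : Y × X | (p.2, p.1) ∈ S})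
    ((DfFun.pair DfFun.snd DfFun.fst).preimage hS) ⟨(b, a), hab⟩ h

/-- a partial bijection with definable graph `S` -/
theorem rk_bij_rel {S : Set (X × Y)} (hS : Df S)
    (h1 : ∀ x y y', (x, y) ∈ S → (x, y') ∈ S → y = y')
    (h2 : ∀ x x' y, (x, y) ∈ S → (x', y) ∈ S → x = x') :
    rk {x | ∃ y, (x, y) ∈ S} = rk {y | ∃ x, (x, y) ∈ S} := by
  rcases S.eq_empty_or_nonempty with rfl | hne
  · have h3 : {x : X | ∃ y : Y, (x, y) ∈ (∅ : Set (X × Y))} = ∅ := by
      ext x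
      simp
    have h4 : {y : Y | ∃ x : X, (x, y) ∈ (∅ : Set (X × Y))} = ∅ := by
      ext x
      simp
    rw [h3, h4, rk_empty, rk_empty]
  · have h3 := rk_rel_fst hS hne (k := 0) (by
      rintro x ⟨y, hy⟩
      have h4 : {y | (x, y) ∈ S} = {y} := by
        ext z
        exact ⟨fun hz => h1 x z y hz hy, fun hz => by
          have h5 : z = y := hz
          rw [h5]
          exact hy⟩
      rw [h4, rk_singleton])
    have h5 := rk_rel_snd hS hne (k := 0) (by
      rintro y ⟨x, hx⟩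
      have h4 : {x | (x, y) ∈ S} = {x} := by
        ext z
        exact ⟨fun hz => h2 z x y hz hx, fun hz => by
          have h5 : z = x := hz
          rw [h5]
          exact hx⟩
      rw [h4, rk_singleton])
    omega

end Pool.Agent.A1C
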