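import Pool.Agent.A1C.RB2

/-!
# RB3: additivity

`rk_eq_add`: axiom C transported through `enc` (for the partial function on `enc '' A` choose preimages; outside use any value,
`Function.invFun` or `Classical.choice`; if `X` is empty there is nothing to prove).
`rk_injOn`: all fibres are singletons. `rk_rel_fst`: the function is `Prod.fst` on `S`, the fibre `{x} ×ˢ S_x` has rank
`rk S_x` (`rk_injOn` for `y ↦ (x, y)`). The inequalities: split the base by the (finitely many, at most `rk S`) fibre ranks with `def_rk₀`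
(`DfP.rk_eq`), apply `rk_rel_fst` to each part and `rk_union`.
-/

namespace Pool.Agent.A1C

universe u

variable {M : Type u} [Univ M] {X Y Z : Type u} [DTy M X] [DTy M Y] [DTy M Z]

private theorem RB3_fib_le {S : Set (X × Y)} (hS : Df S) (x : X) : rk {y | (x, y) ∈ S} ≤ rk S := by
  have h1 : rk ((fun y : Y => (x, y)) '' {y | (x, y) ∈ S}) = rk {y | (x, y) ∈ S} :=
    rk_injOn (DfFun.pair (DfFun.const x) DfFun.id) (hS.section_left x)
      (fun y _ y' _ h => (Prod.mk.inj h).2)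
  rw [← h1]
  refine rk_mono ((DfFun.pair (DfFun.const x) DfFun.id).image (hS.section_left x)) hS ?_
  rintro _ ⟨y, hy, rfl⟩
  exact hy

private theorem RB3_dfR {S : Set (X × Y)} (hS : Df S) (j : ℕ) :
    Df {x | rk {y | (x, y) ∈ S} = j} :=
  DfP.rk_eq (p := fun x y => (x, y) ∈ S) hS j

private theorem RB3_dfB {S : Set (X × Y)} (hS : Df S) (j : ℕ) :
    Df {x | (∃ y, (x, y) ∈ S) ∧ rk {y | (x, y) ∈ S} = j} :=
  DfP.and hS.proj (RB3_dfR hS j)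

private theorem RB3_dfS {S : Set (X × Y)} (hS : Df S) (j : ℕ) :
    Df {p : X × Y | p ∈ S ∧ rk {y | (p.1, y) ∈ S} = j} :=
  DfP.and hS (DfFun.fst.preimage (RB3_dfR hS j))

private theorem RB3_eq {S : Set (X × Y)} (hS : Df S) (j : ℕ)
    (hne : {p : X × Y | p ∈ S ∧ rk {y | (p.1, y) ∈ S} = j}.Nonempty) :
    rk {p : X × Y | p ∈ S ∧ rk {y | (p.1, y) ∈ S} = j} =
      rk {x | (∃ y, (x, y) ∈ S) ∧ rk {y | (x, y) ∈ S} = j} + j := by
  rw [rk_rel_fst (RB3_dfS hS j) hne (k := j)]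
  · have h1 : {x | ∃ y, (x, y) ∈ {p : X × Y | p ∈ S ∧ rk {y | (p.1, y) ∈ S} = j}} =
        {x | (∃ y, (x, y) ∈ S) ∧ rk {y | (x, y) ∈ S} = j} := by
      ext x
      constructor
      · rintro ⟨y, h1, h2⟩
        exact ⟨⟨y, h1⟩, h2⟩
      · rintro ⟨⟨y, h1⟩, h2⟩
        exact ⟨y, h1, h2⟩
    rw [h1]
  · rintro x ⟨y, h1, h2⟩
    have h2' : rk {y | (x, y) ∈ S} = j := h2
    have h3 : {y | (x, y) ∈ {p : X × Y | p ∈ S ∧ rk {y | (p.1, y) ∈ S} = j}} =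
        {y | (x, y) ∈ S} := by
      ext z
      constructor
      · rintro ⟨h4, _⟩
        exact h4
      · intro h4
        exact ⟨h4, h2'⟩
    rw [h3]
    exact h2'

private theorem RB3_fin (N : ℕ) : {j : ℕ | j ≤ N}.Finite := Set.finite_le_nat N

private theorem RB3_ne (N : ℕ) : {j : ℕ | j ≤ N}.Nonempty := ⟨0, Nat.zero_le N⟩

theorem rk_rel_le {S : Set (X × Y)} (hS : Df S) {k : ℕ}
    (h : ∀ x, (∃ y, (x, y) ∈ S) → rk {y | (x, y) ∈ S} ≤ k) :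
    rk S ≤ rk {x | ∃ y, (x, y) ∈ S} + k := by
  obtain ⟨j, _, hj⟩ := exists_rk_eq_of_biUnion (RB3_fin (rk S)) (RB3_ne (rk S))
    (S := fun j => {p : X × Y | p ∈ S ∧ rk {y | (p.1, y) ∈ S} = j}) (fun j _ => RB3_dfS hS j)
  have hu : (⋃ j ∈ {j : ℕ | j ≤ rk S}, {p : X × Y | p ∈ S ∧ rk {y | (p.1, y) ∈ S} = j}) = S := by
    ext p
    simp only [Set.mem_iUnion]
    constructor
    · rintro ⟨j, _, h1, _⟩
      exact h1
    · intro h1
      exact ⟨rk {y | (p.1, y) ∈ S}, RB3_fib_le hS p.1, h1, rfl⟩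
  rw [hu] at hj
  rcases Set.eq_empty_or_nonempty {p : X × Y | p ∈ S ∧ rk {y | (p.1, y) ∈ S} = j} with he | hne
  · have h1 : rk S = 0 := by
      rw [hj]
      show rk {p : X × Y | p ∈ S ∧ rk {y | (p.1, y) ∈ S} = j} = 0
      rw [he, rk_empty]
    omega
  · have h1 : rk S = rk {x | (∃ y, (x, y) ∈ S) ∧ rk {y | (x, y) ∈ S} = j} + j :=
      hj.trans (RB3_eq hS j hne)
    have h2 : rk {x | (∃ y, (x, y) ∈ S) ∧ rk {y | (x, y) ∈ S} = j} ≤ rk {x | ∃ y, (x, y) ∈ S} :=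
      rk_mono (RB3_dfB hS j) hS.proj (fun x hx => hx.1)
    obtain ⟨⟨x, y⟩, hp, hr⟩ := hne
    have h3 : rk {y | (x, y) ∈ S} = j := hr
    have h4 := h x ⟨y, hp⟩
    omega

theorem rk_rel_ge {S : Set (X × Y)} (hS : Df S) (hne : S.Nonempty) {k : ℕ}
    (h : ∀ x, (∃ y, (x, y) ∈ S) → k ≤ rk {y | (x, y) ∈ S}) :
    rk {x | ∃ y, (x, y) ∈ S} + k ≤ rk S := by
  obtain ⟨j, _, hj⟩ := exists_rk_eq_of_biUnion (RB3_fin (rk S)) (RB3_ne (rk S))
    (S := fun j => {x | (∃ y, (x, y) ∈ S) ∧ rk {y | (x, y) ∈ S} = j}) (fun j _ => RB3_dfB hS j)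
  have hu : (⋃ j ∈ {j : ℕ | j ≤ rk S}, {x | (∃ y, (x, y) ∈ S) ∧ rk {y | (x, y) ∈ S} = j}) =
      {x | ∃ y, (x, y) ∈ S} := by
    ext x
    simp only [Set.mem_iUnion]
    constructor
    · rintro ⟨j, _, h1, _⟩
      exact h1
    · intro h1
      exact ⟨rk {y | (x, y) ∈ S}, RB3_fib_le hS x, h1, rfl⟩
  rw [hu] at hj
  rcases Set.eq_empty_or_nonempty {x | (∃ y, (x, y) ∈ S) ∧ rk {y | (x, y) ∈ S} = j} with he | hn
  · have h1 : rk {x | ∃ y, (x, y) ∈ S} = 0 := by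
      rw [hj]
      show rk {x | (∃ y, (x, y) ∈ S) ∧ rk {y | (x, y) ∈ S} = j} = 0
      rw [he, rk_empty]
    obtain ⟨⟨x, y⟩, hxy⟩ := hne
    have h2 := h x ⟨y, hxy⟩
    have h3 := RB3_fib_le hS x
    omega
  · have hne2 : {p : X × Y | p ∈ S ∧ rk {y | (p.1, y) ∈ S} = j}.Nonempty := by
      obtain ⟨x, ⟨y, h1⟩, h2⟩ := hn
      exact ⟨(x, y), h1, h2⟩
    have h1 := RB3_eq hS j hne2
    have h2 : rk {p : X × Y | p ∈ S ∧ rk {y | (p.1, y) ∈ S} = j} ≤ rk S :=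
      rk_mono (RB3_dfS hS j) hS (fun p hp => hp.1)
    have h3 : rk {x | ∃ y, (x, y) ∈ S} = rk {x | (∃ y, (x, y) ∈ S) ∧ rk {y | (x, y) ∈ S} = j} := hj
    obtain ⟨x, hx, h4⟩ := hn
    have h5 := h x hx
    omega

theorem rk_prod {A : Set X} {B : Set Y} (hA : Df A) (hB : Df B) (h1 : A.Nonempty)
    (h2 : B.Nonempty) : rk (A ×ˢ B) = rk A + rk B := by
  have h3 : {x | ∃ y, (x, y) ∈ A ×ˢ B} = A := by
    ext x
    constructor
    · rintro ⟨y, hx, _⟩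
      exact hx
    · intro hx
      obtain ⟨y, hy⟩ := h2
      exact ⟨y, hx, hy⟩
  rw [rk_rel_fst (hA.prod hB) (h1.prod h2) (k := rk B), h3]
  rintro x ⟨y, hx, _⟩
  have h4 : {y | (x, y) ∈ A ×ˢ B} = B := by
    ext z
    constructor
    · rintro ⟨_, hz⟩
      exact hz
    · intro hz
      exact ⟨hx, hz⟩
  rw [h4]

private theorem RB3_R {f : X → Y} (hf : DfFun f) {A : Set X} (hA : Df A) :
    Df {p : Y × X | p.2 ∈ A ∧ f p.2 = p.1} :=
  DfP.and (DfFun.snd.preimage hA) (DfFun.eq (hf.comp DfFun.snd) DfFun.fst)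

private theorem RB3_rkR {f : X → Y} (hf : DfFun f) {A : Set X} (hA : Df A) :
    rk {p : Y × X | p.2 ∈ A ∧ f p.2 = p.1} = rk A := by
  have h1 : {p : Y × X | p.2 ∈ A ∧ f p.2 = p.1} = (fun x => (f x, x)) '' A := by
    ext ⟨y, x⟩
    constructor
    · rintro ⟨h1, h2⟩
      have h3 : f x = y := h2
      exact ⟨x, h1, by
        show (f x, x) = (y, x)
        rw [h3]⟩
    · rintro ⟨x', h1, h2⟩
      obtain ⟨rfl, rfl⟩ := Prod.mk.inj h2
      exact ⟨h1, rfl⟩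
  rw [h1]
  exact rk_injOn (DfFun.pair hf DfFun.id) hA (fun x _ x' _ h => (Prod.mk.inj h).2)

private theorem RB3_base (f : X → Y) (A : Set X) :
    {y | ∃ x, (y, x) ∈ {p : Y × X | p.2 ∈ A ∧ f p.2 = p.1}} = f '' A := by
  ext y
  constructor
  · rintro ⟨x, h1, h2⟩
    exact ⟨x, h1, h2⟩
  · rintro ⟨x, h1, h2⟩
    exact ⟨x, h1, h2⟩

private theorem RB3_fib (f : X → Y) (A : Set X) (y : Y) :
    {x | (y, x) ∈ {p : Y × X | p.2 ∈ A ∧ f p.2 = p.1}} = A ∩ f ⁻¹' {y} := by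
  ext x
  constructor
  · rintro ⟨h1, h2⟩
    exact ⟨h1, h2⟩
  · rintro ⟨h1, h2⟩
    exact ⟨h1, h2⟩

theorem rk_le_image_add {f : X → Y} (hf : DfFun f) {A : Set X} (hA : Df A) {k : ℕ}
    (h : ∀ y ∈ f '' A, rk (A ∩ f ⁻¹' {y}) ≤ k) : rk A ≤ rk (f '' A) + k := by
  have h1 := rk_rel_le (RB3_R hf hA) (k := k) (by
    rintro y ⟨x, hx1, hx2⟩
    rw [RB3_fib]
    exact h y ⟨x, hx1, hx2⟩)
  rwa [RB3_rkR hf hA, RB3_base] at h1

theorem image_add_le_rk {f : X → Y} (hf : DfFun f) {A : Set X} (hA : Df A) (hne : A.Nonempty)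
    {k : ℕ} (h : ∀ y ∈ f '' A, k ≤ rk (A ∩ f ⁻¹' {y})) : rk (f '' A) + k ≤ rk A := by
  have hne2 : {p : Y × X | p.2 ∈ A ∧ f p.2 = p.1}.Nonempty := by
    obtain ⟨x, hx⟩ := hne
    exact ⟨(f x, x), hx, rfl⟩
  have h1 := rk_rel_ge (RB3_R hf hA) hne2 (k := k) (by
    rintro y ⟨x, hx1, hx2⟩
    rw [RB3_fib]
    exact h y ⟨x, hx1, hx2⟩)
  rwa [RB3_rkR hf hA, RB3_base] at h1

theorem rk_image_le {f : X → Y} (hf : DfFun f) {A : Set X} (hA : Df A) : rk (f '' A) ≤ rk A := by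
  rcases A.eq_empty_or_nonempty with rfl | hne
  · rw [Set.image_empty, rk_empty, rk_empty]
  · exact image_add_le_rk hf hA hne (k := 0) (fun _ _ => Nat.zero_le _)

end Pool.Agent.A1C
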