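import Pool.Agent.A1C.RB3

/-!
# RC1: degree

`exists_irr_decomp`: call `A` good if it is a finite disjoint union of irreducible sets of rank `rk A`. If `A` is not good it
splits as `B ∪ (A \ B)` with both parts not small, hence of rank `rk A`, and one of them is not good. Iterating one obtains
infinitely many pairwise disjoint nonempty definable subsets of rank `rk A` of `A`, which contradicts `rk_succ_le_iff` (`k = rk A`).
-/

namespace Pool.Agent.A1C

universe u

variable {M : Type u} [Univ M] {X Y Z : Type u} [DTy M X] [DTy M Y] [DTy M Z]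

theorem irr_iff {A : Set X} (hA : Df A) (hne : A.Nonempty) :
    Irr A ↔ ∀ B C : Set X, Df B → Df C → B ⊆ A → C ⊆ A → Disjoint B C →
      Small B A ∨ Small C A := by
  constructor
  · intro h B C hB hC hBA hCA hd
    rcases h.small_or B hBA hB with h1 | h1
    · exact Or.inl h1
    · right
      exact small_mono hC (hA.diff hB)
        (fun x hx => ⟨hCA hx, fun hxB => Set.disjoint_left.mp hd hxB hx⟩) h1
  · intro h
    exact ⟨hA, hne, fun B hBA hB => h B (A \ B) hB (hA.diff hB) hBA Set.sdiff_subset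
      Set.disjoint_sdiff_right⟩

theorem irr_singleton (x : X) : Irr ({x} : Set X) := by
  refine ⟨Df.singleton x, Set.singleton_nonempty x, ?_⟩
  intro B hB _
  rcases Set.subset_singleton_iff_eq.mp hB with h | h
  · exact Or.inl (Or.inl h)
  · right
    left
    rw [h, Set.sdiff_self]

/-- a finite disjoint union of irreducible sets of full rank -/
private def Good (A : Set X) : Prop :=
    ∃ (n : ℕ) (P : Fin n → Set X), 0 < n ∧ (∀ i, Irr (P i) ∧ P i ⊆ A ∧ rk (P i) = rk A) ∧
      (∀ i j, i ≠ j → Disjoint (P i) (P j)) ∧ A = ⋃ i, P i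

private theorem good_union {A B : Set X} (hBA : B ⊆ A) (h1 : rk B = rk A)
    (h2 : rk (A \ B) = rk A) (hB : Good B) (hC : Good (A \ B)) : Good A := by
  obtain ⟨n, P, hn, hP, hPd, hPu⟩ := hB
  obtain ⟨m, Q, hm, hQ, hQd, hQu⟩ := hC
  refine ⟨n + m, Fin.append P Q, by omega, ?_, ?_, ?_⟩
  · intro i
    refine Fin.addCases (fun i => ?_) (fun j => ?_) i
    · rw [Fin.append_left]
      exact ⟨(hP i).1, (hP i).2.1.trans hBA, (hP i).2.2.trans h1⟩
    · rw [Fin.append_right]
      exact ⟨(hQ j).1, (hQ j).2.1.trans Set.sdiff_subset, (hQ j).2.2.trans h2⟩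
  · intro i j
    refine Fin.addCases (fun i => ?_) (fun i => ?_) i <;>
      refine Fin.addCases (fun j => ?_) (fun j => ?_) j
    · intro hij
      rw [Fin.append_left, Fin.append_left]
      exact hPd i j (fun h => hij (by rw [h]))
    · intro _
      rw [Fin.append_left, Fin.append_right]
      exact Set.disjoint_left.mpr fun x hx hx' => ((hQ j).2.1 hx').2 ((hP i).2.1 hx)
    · intro _
      rw [Fin.append_left, Fin.append_right]
      exact Set.disjoint_left.mpr fun x hx hx' => ((hQ i).2.1 hx).2 ((hP j).2.1 hx')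
    · intro hij
      rw [Fin.append_right, Fin.append_right]
      exact hQd i j (fun h => hij (by rw [h]))
  · ext x
    constructor
    · intro hx
      by_cases hxB : x ∈ B
      · rw [hPu] at hxB
        obtain ⟨i, hi⟩ := Set.mem_iUnion.mp hxB
        refine Set.mem_iUnion.mpr ⟨Fin.castAdd m i, ?_⟩
        rw [Fin.append_left]
        exact hi
      · have hx' : x ∈ A \ B := ⟨hx, hxB⟩
        rw [hQu] at hx'
        obtain ⟨j, hj⟩ := Set.mem_iUnion.mp hx'
        refine Set.mem_iUnion.mpr ⟨Fin.natAdd n j, ?_⟩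
        rw [Fin.append_right]
        exact hj
    · intro hx
      obtain ⟨i, hi⟩ := Set.mem_iUnion.mp hx
      revert hi
      refine Fin.addCases (fun i => ?_) (fun j => ?_) i
      · rw [Fin.append_left]
        intro hi
        exact hBA ((hP i).2.1 hi)
      · rw [Fin.append_right]
        intro hj
        exact ((hQ j).2.1 hj).1

private theorem good_of_irr {A : Set X} (hA : Irr A) : Good A := by
  refine ⟨1, fun _ => A, one_pos, fun _ => ⟨hA, subset_rfl, rfl⟩, ?_, ?_⟩
  · intro i j h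
    exact absurd (Subsingleton.elim i j) h
  · ext x
    simp

private theorem step {A : Set X} (hA : Df A) (hne : A.Nonempty) (hbad : ¬ Good A) :
    ∃ S ⊆ A, Df S ∧ S.Nonempty ∧ rk S = rk A ∧ ¬ Good S ∧ (A \ S).Nonempty ∧
      rk (A \ S) = rk A := by
  have h1 : ¬ Irr A := fun h => hbad (good_of_irr h)
  have h2 : ∃ B ⊆ A, Df B ∧ ¬ Small B A ∧ ¬ Small (A \ B) A := by
    by_contra hcon
    apply h1
    refine ⟨hA, hne, fun B hBA hB => ?_⟩
    by_contra h3
    rw [not_or] at h3
    exact hcon ⟨B, hBA, hB, h3.1, h3.2⟩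
  obtain ⟨B, hBA, hB, hs1, hs2⟩ := h2
  unfold Small at hs1 hs2
  rw [not_or, not_lt] at hs1 hs2
  have hC : Df (A \ B) := hA.diff hB
  have r1 : rk B = rk A := le_antisymm (rk_mono hB hA hBA) hs1.2
  have r2 : rk (A \ B) = rk A := le_antisymm (rk_mono hC hA Set.sdiff_subset) hs2.2
  have n1 : B.Nonempty := Set.nonempty_iff_ne_empty.mpr hs1.1
  have n2 : (A \ B).Nonempty := Set.nonempty_iff_ne_empty.mpr hs2.1
  by_cases hg : Good B
  · have hg2 : ¬ Good (A \ B) := fun h => hbad (good_union hBA r1 r2 hg h)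
    have e : A \ (A \ B) = B := Set.sdiff_sdiff_cancel_left hBA
    exact ⟨A \ B, Set.sdiff_subset, hC, n2, r2, hg2, by rw [e]; exact n1, by rw [e]; exact r1⟩
  · exact ⟨B, hBA, hB, n1, r1, hg, n2, r2⟩

theorem exists_irr_decomp {A : Set X} (hA : Df A) (hne : A.Nonempty) :
    ∃ (n : ℕ) (P : Fin n → Set X), 0 < n ∧ (∀ i, Irr (P i) ∧ P i ⊆ A ∧ rk (P i) = rk A) ∧
      (∀ i j, i ≠ j → Disjoint (P i) (P j)) ∧ A = ⋃ i, P i := by
  by_contra hbad
  have hbad' : ¬ Good A := hbad
  let T := {S : Set X // S ⊆ A ∧ Df S ∧ S.Nonempty ∧ rk S = rk A ∧ ¬ Good S}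
  have hstep : ∀ S : T, ∃ S' : T, S'.1 ⊆ S.1 ∧ (S.1 \ S'.1).Nonempty ∧
      rk (S.1 \ S'.1) = rk A := by
    rintro ⟨S, hSA, hS, hSne, hSr, hSg⟩
    obtain ⟨S', h1, h2, h3, h4, h5, h6, h7⟩ := step hS hSne hSg
    exact ⟨⟨S', h1.trans hSA, h2, h3, h4.trans hSr, h5⟩, h1, h6, h7.trans hSr⟩
  choose next hnext using hstep
  let s : ℕ → T := fun n => Nat.rec ⟨A, subset_rfl, hA, hne, rfl, hbad'⟩ (fun _ S => next S) n
  have hs : ∀ n, s (n + 1) = next (s n) := fun _ => rfl
  have hanti : Antitone fun n => (s n).1 := by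
    refine antitone_nat_of_succ_le fun n => ?_
    show (s (n + 1)).1 ⊆ (s n).1
    rw [hs]
    exact (hnext (s n)).1
  have key : rk A + 1 ≤ rk A := by
    rw [rk_succ_le_iff hA hne]
    refine ⟨fun n => (s n).1 \ (s (n + 1)).1, fun n => ⟨?_, ?_, ?_, ?_⟩, ?_⟩
    · exact (s n).2.2.1.diff (s (n + 1)).2.2.1
    · show ((s n).1 \ (s (n + 1)).1).Nonempty
      rw [hs]
      exact (hnext (s n)).2.1
    · exact Set.sdiff_subset.trans (s n).2.1
    · show rk A ≤ rk ((s n).1 \ (s (n + 1)).1)
      rw [hs]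
      exact (hnext (s n)).2.2.ge
    · have aux : ∀ i j, i < j → Disjoint ((s i).1 \ (s (i + 1)).1) ((s j).1 \ (s (j + 1)).1) := by
        intro i j hij
        refine Set.disjoint_left.mpr fun x hx hx' => hx.2 ?_
        exact hanti (show i + 1 ≤ j from hij) hx'.1
      intro i j hij
      rcases lt_or_gt_of_ne hij with h | h
      · exact aux i j h
      · exact (aux j i h).symm
  omega

end Pool.Agent.A1C
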