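import Pool.Agent.A1C.RC1

/-!
# RC2: degree

`exists_deg_bound`: with `n` the number of pieces of `exists_irr_decomp`, each `B i` is non small in one of the pieces and two
disjoint sets cannot both be non small in the same piece.
-/

namespace Pool.Agent.A1C

universe u

variable {M : Type u} [Univ M] {X Y Z : Type u} [DTy M X] [DTy M Y] [DTy M Z]

theorem exists_irr_subset {A : Set X} (hA : Df A) (hne : A.Nonempty) :
    ∃ B ⊆ A, Irr B ∧ rk B = rk A := by
  obtain ⟨n, P, hn, hP, _, _⟩ := exists_irr_decomp hA hne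
  exact ⟨P ⟨0, hn⟩, (hP _).2.1, (hP _).1, (hP _).2.2⟩

theorem exists_deg_bound {A : Set X} (hA : Df A) (hne : A.Nonempty) :
    ∃ N : ℕ, ∀ (n : ℕ) (B : Fin n → Set X),
      (∀ i, Df (B i) ∧ (B i).Nonempty ∧ B i ⊆ A ∧ rk (B i) = rk A) →
      (∀ i j, i ≠ j → Disjoint (B i) (B j)) → n ≤ N := by
  obtain ⟨N, P, hN, hP, hPd, hPA⟩ := exists_irr_decomp hA hne
  refine ⟨N, fun n B hB hBd => ?_⟩
  have key : ∀ i, ∃ j, (B i ∩ P j).Nonempty ∧ rk (B i ∩ P j) = rk A := by
    intro i
    obtain ⟨hBi, hBne, hBA, hBr⟩ := hB i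
    have hfin : {j : Fin N | (B i ∩ P j).Nonempty}.Finite := Set.toFinite _
    have hcov : B i = ⋃ j ∈ {j : Fin N | (B i ∩ P j).Nonempty}, B i ∩ P j := by
      ext x
      simp only [Set.mem_iUnion, Set.mem_ofPred_eq, Set.mem_inter_iff, exists_prop]
      constructor
      · intro hx
        have hx2 := hBA hx
        rw [hPA, Set.mem_iUnion] at hx2
        obtain ⟨j, hj⟩ := hx2
        exact ⟨j, ⟨x, hx, hj⟩, hx, hj⟩
      · rintro ⟨j, _, hx, _⟩
        exact hx
    have hne2 : {j : Fin N | (B i ∩ P j).Nonempty}.Nonempty := by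
      obtain ⟨x, hx⟩ := hBne
      have hx2 := hBA hx
      rw [hPA, Set.mem_iUnion] at hx2
      obtain ⟨j, hj⟩ := hx2
      exact ⟨j, x, hx, hj⟩
    obtain ⟨j, hj, hj2⟩ := exists_rk_eq_of_biUnion (S := fun j => B i ∩ P j) hfin hne2
      (fun j _ => hBi.inter (hP j).1.df)
    rw [← hcov, hBr] at hj2
    exact ⟨j, hj, hj2.symm⟩
  choose j hj1 hj2 using key
  have hinj : Function.Injective j := by
    intro i i' hii
    by_contra hne3
    have hirr := (hP (j i)).1
    have hr : rk (P (j i)) = rk A := (hP (j i)).2.2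
    have hdf : Df (B i ∩ P (j i)) := (hB i).1.inter hirr.df
    have hdf' : Df (B i' ∩ P (j i)) := (hB i').1.inter hirr.df
    have hne' : (B i' ∩ P (j i)).Nonempty := by
      rw [hii]
      exact hj1 i'
    have hr' : rk (B i' ∩ P (j i)) = rk A := by
      rw [hii]
      exact hj2 i'
    rcases hirr.small_or (B i ∩ P (j i)) Set.inter_subset_right hdf with h | h
    · rcases h with h | h
      · exact (hj1 i).ne_empty h
      · rw [hj2 i, hr] at h
        exact lt_irrefl _ h
    · have hsub : B i' ∩ P (j i) ⊆ P (j i) \ (B i ∩ P (j i)) := by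
        rintro x ⟨hx, hx2⟩
        exact ⟨hx2, fun h => Set.disjoint_left.mp (hBd i i' hne3) h.1 hx⟩
      rcases small_mono hdf' (hirr.df.diff hdf) hsub h with h | h
      · exact hne'.ne_empty h
      · rw [hr', hr] at h
        exact lt_irrefl _ h
  have := Fintype.card_le_of_injective j hinj
  simpa using this

theorem Irr.of_subset {A B : Set X} (hA : Irr A) (hB : Df B) (hBA : B ⊆ A) (hne : B.Nonempty)
    (h : rk B = rk A) : Irr B := by
  refine ⟨hB, hne, fun C hC hCd => ?_⟩
  have h2 : ∀ D : Set X, Small D A → Small D B := by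
    intro D hD
    unfold Small at hD ⊢
    rw [h]
    exact hD
  rcases hA.small_or C (hC.trans hBA) hCd with h1 | h1
  · exact Or.inl (h2 _ h1)
  · exact Or.inr (h2 _ (small_mono (hB.diff hCd) (hA.df.diff hCd) (Set.sdiff_subset_sdiff_left hBA) h1))

theorem Irr.inter_nonempty {A B C : Set X} (hA : Irr A) (hB : Df B) (hC : Df C)
    (hBA : B ⊆ A) (hCA : C ⊆ A) (h1 : ¬ Small B A) (h2 : ¬ Small C A) : (B ∩ C).Nonempty := by
  by_contra hemp
  rcases hA.small_or B hBA hB with h | h
  · exact h1 h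
  · refine h2 (small_mono hC (hA.df.diff hB) ?_ h)
    intro x hx
    exact ⟨hCA hx, fun hxB => hemp ⟨x, hxB, hx⟩⟩

/-- an irreducible set of which finitely many definable sets cover a part that is not small -/
theorem Irr.exists_not_small {ι : Type*} {I : Set ι} (hI : I.Finite) {A : Set X} (hA : Irr A)
    {S : ι → Set X} (hS : ∀ i ∈ I, Df (S i)) (h : A ⊆ ⋃ i ∈ I, S i) :
    ∃ i ∈ I, ¬ Small (A ∩ S i) A := by
  by_contra hcon
  push Not at hcon
  have key : ∀ J : Set ι, J.Finite → J ⊆ I → Small (⋃ i ∈ J, A ∩ S i) A := by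
    intro J hJ
    refine Set.Finite.induction_on _ hJ ?_ ?_
    · intro _
      left
      simp
    · intro a s ha hs ih hsub
      have ha2 : a ∈ I := hsub (Set.mem_insert _ _)
      have hs2 : s ⊆ I := (Set.subset_insert _ _).trans hsub
      rw [Set.biUnion_insert]
      exact small_union (hA.df.inter (hS a ha2))
        (Df.biUnion hs (fun i hi => hA.df.inter (hS i (hs2 hi)))) (hcon a ha2) (ih hs2)
  have hAA : A = ⋃ i ∈ I, A ∩ S i := by
    rw [← Set.inter_iUnion₂]
    exact (Set.inter_eq_left.mpr h).symm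
  have h1 := key I hI subset_rfl
  rw [← hAA] at h1
  rcases h1 with h1 | h1
  · exact hA.ne.ne_empty h1
  · exact lt_irrefl _ h1

end Pool.Agent.A1C
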