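import Pool.Agent.A1C.RC2

/-!
# RD1: the generic filter

`∀ᶠ x in gen A, p x` means: the elements of `A` which do not satisfy `p` are contained in a small definable subset of `A`.
-/

namespace Pool.Agent.A1C

universe u

variable {M : Type u} [Univ M] {X Y Z : Type u} [DTy M X] [DTy M Y] [DTy M Z]

open Filter

/-- the filter of generic subsets of `A` -/
def gen (A : Set X) : Filter X where
  sets := {T | GenIn A T}
  univ_sets := ⟨∅, Set.empty_subset _, Df.empty, Or.inl rfl, Set.subset_univ _⟩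
  sets_of_superset := by
    rintro S T ⟨B, h1, h2, h3, h4⟩ hST
    exact ⟨B, h1, h2, h3, h4.trans hST⟩
  inter_sets := by
    rintro S T ⟨B, h1, h2, h3, h4⟩ ⟨B', h1', h2', h3', h4'⟩
    refine ⟨B ∪ B', Set.union_subset h1 h1', h2.union h2', small_union h2 h2' h3 h3', ?_⟩
    rintro x ⟨hx, hx'⟩
    rw [Set.mem_union, not_or] at hx'
    exact ⟨h4 ⟨hx, hx'.1⟩, h4' ⟨hx, hx'.2⟩⟩

theorem mem_gen {A T : Set X} : T ∈ gen A ↔ GenIn A T := Iff.rfl

theorem gen_neBot {A : Set X} (hne : A.Nonempty) : (gen A).NeBot := by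
  refine ⟨fun hbot => ?_⟩
  have h : (∅ : Set X) ∈ gen A := by
    rw [hbot]
    exact Filter.mem_bot
  obtain ⟨B, h1, _, h3, h4⟩ := h
  have hBA : B = A := by
    refine Set.Subset.antisymm h1 fun x hx => ?_
    by_contra hxB
    exact h4 ⟨hx, hxB⟩
  rw [hBA] at h3
  rcases h3 with h3 | h3
  · exact hne.ne_empty h3
  · exact lt_irrefl _ h3

theorem ev_mem (A : Set X) : ∀ᶠ x in gen A, x ∈ A :=
  ⟨∅, Set.empty_subset _, Df.empty, Or.inl rfl, fun _ hx => hx.1⟩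

theorem ev_iff {A : Set X} (hA : Df A) {p : X → Prop} (hp : DfP p) :
    (∀ᶠ x in gen A, p x) ↔ Small {x | x ∈ A ∧ ¬ p x} A := by
  have hdf : Df {x | x ∈ A ∧ ¬ p x} := hA.inter hp.not
  constructor
  · rintro ⟨B, _, h2, h3, h4⟩
    refine small_mono hdf h2 ?_ h3
    rintro x ⟨hx, hpx⟩
    by_contra hxB
    exact hpx (h4 ⟨hx, hxB⟩)
  · intro h
    refine ⟨_, fun x hx => hx.1, hdf, h, ?_⟩
    rintro x ⟨hx, hx2⟩
    by_contra hpx
    exact hx2 ⟨hx, hpx⟩

theorem ev_of_small {A : Set X} {p : X → Prop} {B : Set X} (hB : Df B) (hBA : B ⊆ A)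
    (hs : Small B A) (h : ∀ x ∈ A, x ∉ B → p x) : ∀ᶠ x in gen A, p x :=
  ⟨B, hBA, hB, hs, fun x hx => h x hx.1 hx.2⟩

theorem ev_exists {A : Set X} (hne : A.Nonempty) {p : X → Prop} (h : ∀ᶠ x in gen A, p x) :
    ∃ x ∈ A, p x := by
  have := gen_neBot hne
  exact ((ev_mem A).and h).exists

theorem ev_rk {A : Set X} (hA : Df A) {p : X → Prop} (hp : DfP p)
    (h : ∀ᶠ x in gen A, p x) : rk {x | x ∈ A ∧ p x} = rk A := by
  have h1 := (ev_iff hA hp).mp h
  have hdf : Df {x | x ∈ A ∧ ¬ p x} := hA.inter hp.not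
  have hdf2 : Df {x | x ∈ A ∧ p x} := hA.inter hp
  have hun : {x | x ∈ A ∧ p x} ∪ {x | x ∈ A ∧ ¬ p x} = A := by
    ext x
    simp only [Set.mem_union, Set.mem_ofPred_eq]
    tauto
  have hr := rk_union hdf2 hdf
  rw [hun] at hr
  rcases h1 with h1 | h1
  · rw [h1, Set.union_empty] at hun
    rw [hun]
  · rw [hr]
    have h2 : rk {x | x ∈ A ∧ ¬ p x} < max (rk {x | x ∈ A ∧ p x}) (rk {x | x ∈ A ∧ ¬ p x}) := by
      rw [← hr]
      exact h1
    have h3 : rk {x | x ∈ A ∧ ¬ p x} < rk {x | x ∈ A ∧ p x} := by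
      rcases lt_max_iff.mp h2 with h3 | h3
      · exact h3
      · exact absurd h3 (lt_irrefl _)
    exact (max_eq_left h3.le).symm

end Pool.Agent.A1C
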