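import Pool.Agent.A1C.RD1

/-!
# RD2: the generic filter

`∀ᶠ x in gen A, p x` means: the elements of `A` which do not satisfy `p` are contained in a small definable subset of `A`.
-/

namespace Pool.Agent.A1C

universe u

variable {M : Type u} [Univ M] {X Y Z : Type u} [DTy M X] [DTy M Y] [DTy M Z]

open Filter

theorem Irr.ev_or {A : Set X} (hA : Irr A) {p : X → Prop} (hp : DfP p) :
    (∀ᶠ x in gen A, p x) ∨ (∀ᶠ x in gen A, ¬ p x) := by
  have hB : Df {x | x ∈ A ∧ ¬ p x} := hA.df.inter (DfP.not hp)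
  rcases hA.small_or _ (fun x hx => hx.1) hB with h | h
  · exact Or.inl ((ev_iff hA.df hp).2 h)
  · right
    rw [ev_iff hA.df (DfP.not hp)]
    have e : {x | x ∈ A ∧ ¬ ¬ p x} = A \ {x | x ∈ A ∧ ¬ p x} := by
      ext x
      constructor
      · rintro ⟨h1, h2⟩
        exact ⟨h1, fun h3 => h2 h3.2⟩
      · rintro ⟨h1, h2⟩
        exact ⟨h1, fun h3 => h2 ⟨h1, h3⟩⟩
    rw [e]
    exact h

theorem Irr.not_ev {A : Set X} (hA : Irr A) {p : X → Prop} (hp : DfP p) :
    ¬ (∀ᶠ x in gen A, p x) ↔ ∀ᶠ x in gen A, ¬ p x := by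
  constructor
  · intro h
    exact (hA.ev_or hp).resolve_left h
  · intro h h'
    obtain ⟨x, _, hx⟩ := ev_exists hA.ne (h.and h')
    exact hx.1 hx.2

/-- a definable subset of full rank of an irreducible set of positive rank is generic -/
theorem Irr.ev_of_rk {A : Set X} (hA : Irr A) {p : X → Prop} (hp : DfP p) (hpos : 0 < rk A)
    (h : rk A ≤ rk {x | x ∈ A ∧ p x}) : ∀ᶠ x in gen A, p x := by
  rcases hA.ev_or hp with h1 | h1
  · exact h1
  · exfalso
    rw [ev_iff hA.df (DfP.not hp)] at h1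
    have e : {x | x ∈ A ∧ ¬ ¬ p x} = {x | x ∈ A ∧ p x} := by
      ext x
      exact and_congr_right fun _ => not_not
    rw [e] at h1
    rcases h1 with h1 | h1
    · rw [h1, rk_empty] at h
      omega
    · omega

/-- avoiding a definable set of smaller rank -/
theorem ev_notMem {A B : Set X} (hA : Df A) (hB : Df B) (h : rk (A ∩ B) < rk A) :
    ∀ᶠ x in gen A, x ∉ B :=
  ev_of_small (hA.inter hB) Set.inter_subset_left (Or.inr h)
    (fun _ hx hx' hxB => hx' ⟨hx, hxB⟩)

theorem gen_eq_of_rk_eq {A B : Set X} (hA : Irr A) (hB : Df B) (hBA : B ⊆ A)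
    (hne : B.Nonempty) (h : rk B = rk A) : gen B = gen A := by
  have hsm : Small (A \ B) A := by
    rcases hA.small_or B hBA hB with h1 | h1
    · rcases h1 with h1 | h1
      · exact absurd h1 hne.ne_empty
      · omega
    · exact h1
  have hdf : Df (A \ B) := hA.df.diff hB
  apply Filter.ext
  intro T
  rw [mem_gen, mem_gen]
  constructor
  · rintro ⟨C, hCB, hC, hs, hT⟩
    have hCs : Small C A := by
      rcases hs with hs | hs
      · exact Or.inl hs
      · exact Or.inr (by omega)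
    refine ⟨C ∪ (A \ B), Set.union_subset (hCB.trans hBA) Set.sdiff_subset, hC.union hdf,
      small_union hC hdf hCs hsm, ?_⟩
    rintro x ⟨hx, hx'⟩
    rw [Set.mem_union, not_or] at hx'
    refine hT ⟨?_, hx'.1⟩
    by_contra hxB
    exact hx'.2 ⟨hx, hxB⟩
  · rintro ⟨C, hCA, hC, hs, hT⟩
    refine ⟨C ∩ B, Set.inter_subset_right, hC.inter hB, ?_, ?_⟩
    · rcases hs with hs | hs
      · left
        rw [hs, Set.empty_inter]
      · right
        have := rk_mono (hC.inter hB) hC Set.inter_subset_left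
        omega
    · rintro x ⟨hx, hx'⟩
      exact hT ⟨hBA hx, fun hxC => hx' ⟨hxC, hx⟩⟩

/-- finitely many cases: one of them is generic -/
theorem Irr.ev_of_finite_cases {ι : Type*} {I : Set ι} (hI : I.Finite) {A : Set X} (hA : Irr A)
    {p : ι → X → Prop} (hp : ∀ i ∈ I, DfP (p i)) (h : ∀ᶠ x in gen A, ∃ i ∈ I, p i x) :
    ∃ i ∈ I, ∀ᶠ x in gen A, p i x := by
  by_contra hcon
  have h1 : ∀ i ∈ I, ∀ᶠ x in gen A, ¬ p i x := fun i hi =>
    (hA.not_ev (hp i hi)).1 (fun h' => hcon ⟨i, hi, h'⟩)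
  have h2 : ∀ᶠ x in gen A, ∀ i ∈ I, ¬ p i x := (Filter.eventually_all_finite hI).2 h1
  obtain ⟨x, _, ⟨i, hi, hx⟩, hx2⟩ := ev_exists hA.ne (h.and h2)
  exact hx2 i hi hx

/-- definability of generic quantifiers -/
theorem DfP.ev {p q : X → Y → Prop} (hq : DfP fun z : X × Y => q z.1 z.2)
    (hp : DfP fun z : X × Y => p z.1 z.2) :
    DfP fun x => ∀ᶠ y in gen {y | q x y}, p x y := by
  have hr : DfP fun z : X × Y => q z.1 z.2 ∧ ¬ p z.1 z.2 := DfP.and hq (DfP.not hp)
  have key : ∀ x, (∀ᶠ y in gen {y | q x y}, p x y) ↔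
      ((¬ ∃ y, q x y ∧ ¬ p x y) ∨ rk {y | q x y ∧ ¬ p x y} < rk {y | q x y}) := by
    intro x
    have h1 : Df {y | q x y} := Df.section_left hq x
    have h2 : DfP (fun y => p x y) := Df.section_left hp x
    rw [ev_iff h1 h2]
    unfold Small
    apply or_congr
    · rw [Set.eq_empty_iff_forall_notMem]
      simp
    · rfl
  have hfin : (Set.Iic (rk (Set.univ : Set Y))).Finite := Set.finite_Iic _
  have h3 : DfP fun x => rk {y | q x y ∧ ¬ p x y} < rk {y | q x y} := by
    have e : {x | rk {y | q x y ∧ ¬ p x y} < rk {y | q x y}} =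
        ⋃ k ∈ Set.Iic (rk (Set.univ : Set Y)),
          {x | rk {y | q x y} = k ∧ rk {y | q x y ∧ ¬ p x y} < k} := by
      ext x
      simp only [Set.mem_iUnion, Set.mem_Iic]
      constructor
      · intro hx
        exact ⟨rk {y | q x y}, rk_mono (Df.section_left hq x) Df.univ (Set.subset_univ _), rfl, hx⟩
      · rintro ⟨k, _, h1, h2⟩
        change rk {y | q x y ∧ ¬ p x y} < rk {y | q x y}
        rw [h1]
        exact h2
    change Df _
    rw [e]
    exact Df.biUnion hfin fun k _ => DfP.and (DfP.rk_eq hq k) (DfP.rk_lt hr k)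
  have h4 : DfP fun x => ¬ ∃ y, q x y ∧ ¬ p x y := DfP.not (DfP.ex hr)
  have h5 := DfP.or h4 h3
  have e : (fun x => ∀ᶠ y in gen {y | q x y}, p x y) = fun x =>
      ((¬ ∃ y, q x y ∧ ¬ p x y) ∨ rk {y | q x y ∧ ¬ p x y} < rk {y | q x y}) :=
    funext fun x => propext (key x)
  rw [e]
  exact h5

end Pool.Agent.A1C
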