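import Pool.Agent.A1C.RD2

/-!
# RE1: products, fibrations, images (Fubini)

`irr_sigma`: `S ⊆ X × Y` definable, base `B = fst '' S` irreducible, all fibres irreducible of rank `k`. Then `rk S = rk B + k`
(`rk_rel_fst`). For definable `T ⊆ S` and `x ∈ B` exactly one of `T_x`, `(S \ T)_x` is small in `S_x`; the set of `x` with `T_x` not small is definable
(`DfP.ev`), generic or its complement is generic; accordingly `S \ T` or `T` is small: split the base and use `rk_rel_le`.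
(rank `0` fibres are singletons; rank `0` base is one point.)
`irr_image`: a partition of the image into two non small sets gives a partition of `A` into two non small sets.
-/

namespace Pool.Agent.A1C

universe u

variable {M : Type u} [Univ M] {X Y Z : Type u} [DTy M X] [DTy M Y] [DTy M Z]

open Filter

private theorem sigma_rk {S : Set (X × Y)} (hS : Df S) {B : Set X} (hB : Irr B) {k : ℕ}
    (hbase : ∀ x y, (x, y) ∈ S → x ∈ B)
    (hfib : ∀ x ∈ B, Irr {y | (x, y) ∈ S} ∧ rk {y | (x, y) ∈ S} = k) :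
    S.Nonempty ∧ rk S = rk B + k := by
  obtain ⟨x, hx⟩ := hB.ne
  obtain ⟨y, hy⟩ := (hfib x hx).1.ne
  have hne : S.Nonempty := ⟨(x, y), hy⟩
  refine ⟨hne, ?_⟩
  have h1 := rk_rel_fst hS hne (k := k) (by
    rintro x ⟨y, hy⟩
    exact (hfib x (hbase x y hy)).2)
  have h2 : {x | ∃ y, (x, y) ∈ S} = B := by
    ext x
    constructor
    · rintro ⟨y, hy⟩
      exact hbase x y hy
    · intro hx
      exact (hfib x hx).1.ne
  rw [h2] at h1
  exact h1

private theorem sigma_ev {S : Set (X × Y)} (hS : Df S) {B : Set X} (hB : Irr B) {k : ℕ}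
    (hbase : ∀ x y, (x, y) ∈ S → x ∈ B)
    (hfib : ∀ x ∈ B, Irr {y | (x, y) ∈ S} ∧ rk {y | (x, y) ∈ S} = k)
    {p : X × Y → Prop} (hp : DfP p)
    (h : ∀ᶠ x in gen B, ∀ᶠ y in gen {y | (x, y) ∈ S}, p (x, y)) : ∀ᶠ z in gen S, p z := by
  obtain ⟨hne, hrk⟩ := sigma_rk hS hB hbase hfib
  have hq : DfP fun x => ∀ᶠ y in gen {y | (x, y) ∈ S}, p (x, y) :=
    DfP.ev (q := fun x y => (x, y) ∈ S) (p := fun x y => p (x, y)) hS hp
  set q : X → Prop := fun x => ∀ᶠ y in gen {y | (x, y) ∈ S}, p (x, y) with hqdef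
  have hBs : Small {x | x ∈ B ∧ ¬ q x} B := (ev_iff hB.df hq).mp h
  have hqz : DfP fun z : X × Y => q z.1 := DfP.comp hq DfFun.fst
  have hT1 : Df {z : X × Y | (z ∈ S ∧ ¬ p z) ∧ q z.1} :=
    DfP.and (DfP.and hS (DfP.not hp)) hqz
  have hT2 : Df {z : X × Y | (z ∈ S ∧ ¬ p z) ∧ ¬ q z.1} :=
    DfP.and (DfP.and hS (DfP.not hp)) (DfP.not hqz)
  have hs1 : Small {z : X × Y | (z ∈ S ∧ ¬ p z) ∧ q z.1} S := by
    rcases Nat.eq_zero_or_pos k with hk | hk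
    · left
      rw [Set.eq_empty_iff_forall_notMem]
      rintro ⟨x, y⟩ ⟨⟨hz1, hz2⟩, hz3⟩
      have hxB := hbase x y hz1
      have h3 := (ev_iff (hfib x hxB).1.df (p := fun y => p (x, y))
        (Df.section_left (S := {z : X × Y | p z}) hp x)).mp hz3
      rcases h3 with h3 | h3
      · have : y ∈ {y | y ∈ {y | (x, y) ∈ S} ∧ ¬ p (x, y)} := ⟨hz1, hz2⟩
        rw [h3] at this
        exact this
      · rw [(hfib x hxB).2, hk] at h3
        exact absurd h3 (Nat.not_lt_zero _)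
    · right
      have h4 : rk {z : X × Y | (z ∈ S ∧ ¬ p z) ∧ q z.1} ≤
          rk {x | ∃ y, (x, y) ∈ {z : X × Y | (z ∈ S ∧ ¬ p z) ∧ q z.1}} + (k - 1) := by
        refine rk_rel_le hT1 ?_
        rintro x ⟨y, ⟨hz1, hz2⟩, hz3⟩
        have hxB := hbase x y hz1
        have h3 := (ev_iff (hfib x hxB).1.df (p := fun y => p (x, y))
          (Df.section_left (S := {z : X × Y | p z}) hp x)).mp hz3
        have h5 : rk {y | (x, y) ∈ {z : X × Y | (z ∈ S ∧ ¬ p z) ∧ q z.1}} ≤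
            rk {y | y ∈ {y | (x, y) ∈ S} ∧ ¬ p (x, y)} := by
          refine rk_mono (Df.section_left hT1 x) ?_ ?_
          · exact (hfib x hxB).1.df.inter
              (DfP.not (Df.section_left (S := {z : X × Y | p z}) hp x))
          · rintro y' ⟨⟨h6, h7⟩, _⟩
            exact ⟨h6, h7⟩
        rcases h3 with h3 | h3
        · rw [h3, rk_empty] at h5
          omega
        · rw [(hfib x hxB).2] at h3
          omega
      have h5 : rk {x | ∃ y, (x, y) ∈ {z : X × Y | (z ∈ S ∧ ¬ p z) ∧ q z.1}} ≤ rk B := by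
        refine rk_mono (DfP.ex (p := fun x y => ((x, y) ∈ S ∧ ¬ p (x, y)) ∧ q x) hT1) hB.df ?_
        rintro x ⟨y, ⟨hz1, _⟩, _⟩
        exact hbase x y hz1
      omega
  have hs2 : Small {z : X × Y | (z ∈ S ∧ ¬ p z) ∧ ¬ q z.1} S := by
    rcases hBs with hBs | hBs
    · left
      rw [Set.eq_empty_iff_forall_notMem]
      rintro ⟨x, y⟩ ⟨⟨hz1, _⟩, hz3⟩
      have hxB := hbase x y hz1
      have : x ∈ {x | x ∈ B ∧ ¬ q x} := ⟨hxB, hz3⟩
      rw [hBs] at this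
      exact this
    · right
      have h4 : rk {z : X × Y | (z ∈ S ∧ ¬ p z) ∧ ¬ q z.1} ≤
          rk {x | ∃ y, (x, y) ∈ {z : X × Y | (z ∈ S ∧ ¬ p z) ∧ ¬ q z.1}} + k := by
        refine rk_rel_le hT2 ?_
        rintro x ⟨y, ⟨hz1, hz2⟩, hz3⟩
        have hxB := hbase x y hz1
        rw [← (hfib x hxB).2]
        refine rk_mono (Df.section_left hT2 x) (hfib x hxB).1.df ?_
        rintro y' ⟨⟨h6, _⟩, _⟩
        exact h6
      have h5 : rk {x | ∃ y, (x, y) ∈ {z : X × Y | (z ∈ S ∧ ¬ p z) ∧ ¬ q z.1}} ≤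
          rk {x | x ∈ B ∧ ¬ q x} := by
        refine rk_mono (DfP.ex (p := fun x y => ((x, y) ∈ S ∧ ¬ p (x, y)) ∧ ¬ q x) hT2)
          (hB.df.inter (DfP.not hq)) ?_
        rintro x ⟨y, ⟨hz1, _⟩, hz3⟩
        exact ⟨hbase x y hz1, hz3⟩
      omega
  rw [ev_iff hS hp]
  have hun : {z : X × Y | z ∈ S ∧ ¬ p z} =
      {z : X × Y | (z ∈ S ∧ ¬ p z) ∧ q z.1} ∪ {z : X × Y | (z ∈ S ∧ ¬ p z) ∧ ¬ q z.1} := by
    ext z
    simp only [Set.mem_union, Set.mem_ofPred_eq]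
    tauto
  rw [hun]
  exact small_union hT1 hT2 hs1 hs2

private theorem sigma_or {S : Set (X × Y)} (hS : Df S) {B : Set X} (hB : Irr B) {k : ℕ}
    (hbase : ∀ x y, (x, y) ∈ S → x ∈ B)
    (hfib : ∀ x ∈ B, Irr {y | (x, y) ∈ S} ∧ rk {y | (x, y) ∈ S} = k)
    {p : X × Y → Prop} (hp : DfP p) :
    (∀ᶠ x in gen B, ∀ᶠ y in gen {y | (x, y) ∈ S}, p (x, y)) ∨ ∀ᶠ z in gen S, ¬ p z := by
  have hq : DfP fun x => ∀ᶠ y in gen {y | (x, y) ∈ S}, p (x, y) :=
    DfP.ev (q := fun x y => (x, y) ∈ S) (p := fun x y => p (x, y)) hS hp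
  rcases hB.ev_or hq with h | h
  · exact Or.inl h
  · right
    refine sigma_ev hS hB hbase hfib (DfP.not hp) ?_
    filter_upwards [h, ev_mem B] with x hx hxB
    exact ((hfib x hxB).1.not_ev (p := fun y => p (x, y))
      (Df.section_left (S := {z : X × Y | p z}) hp x)).mp hx

theorem irr_sigma {S : Set (X × Y)} (hS : Df S) {B : Set X} (hB : Irr B) {k : ℕ}
    (hbase : ∀ x y, (x, y) ∈ S → x ∈ B)
    (hfib : ∀ x ∈ B, Irr {y | (x, y) ∈ S} ∧ rk {y | (x, y) ∈ S} = k) :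
    Irr S ∧ rk S = rk B + k ∧ ∀ p : X × Y → Prop, DfP p →
      ((∀ᶠ z in gen S, p z) ↔ ∀ᶠ x in gen B, ∀ᶠ y in gen {y | (x, y) ∈ S}, p (x, y)) := by
  obtain ⟨hne, hrk⟩ := sigma_rk hS hB hbase hfib
  refine ⟨⟨hS, hne, ?_⟩, hrk, ?_⟩
  · intro C hCS hC
    have hCp : DfP fun z : X × Y => z ∈ C := hC
    rcases sigma_or hS hB hbase hfib hCp with h | h
    · right
      exact (ev_iff hS hCp).mp (sigma_ev hS hB hbase hfib hCp h)
    · left
      have h1 := (ev_iff hS (DfP.not hCp)).mp h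
      have h2 : {z : X × Y | z ∈ S ∧ ¬ ¬ z ∈ C} = C := by
        ext z
        constructor
        · rintro ⟨_, hz⟩
          exact not_not.mp hz
        · intro hz
          exact ⟨hCS hz, not_not.mpr hz⟩
      rw [h2] at h1
      exact h1
  · intro p hp
    refine ⟨fun h => ?_, sigma_ev hS hB hbase hfib hp⟩
    rcases sigma_or hS hB hbase hfib hp with h1 | h1
    · exact h1
    · exfalso
      obtain ⟨z, _, hz1, hz2⟩ := ev_exists hne (h.and h1)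
      exact hz2 hz1

private theorem prod_aux {A : Set X} {B : Set Y} (hA : Irr A) (hB : Irr B) :
    Irr (A ×ˢ B) ∧ rk (A ×ˢ B) = rk A + rk B ∧ ∀ p : X × Y → Prop, DfP p →
      ((∀ᶠ z in gen (A ×ˢ B), p z) ↔
        ∀ᶠ x in gen A, ∀ᶠ y in gen {y | (x, y) ∈ A ×ˢ B}, p (x, y)) := by
  have hS : Df (A ×ˢ B) :=
    DfP.and (DfP.mem hA.df DfFun.fst) (DfP.mem hB.df DfFun.snd)
  refine irr_sigma hS hA (fun x y h => h.1) ?_
  intro x hx
  have h1 : {y | (x, y) ∈ A ×ˢ B} = B := by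
    ext y
    exact ⟨fun h => h.2, fun h => ⟨hx, h⟩⟩
  rw [h1]
  exact ⟨hB, rfl⟩

theorem Irr.prod {A : Set X} {B : Set Y} (hA : Irr A) (hB : Irr B) : Irr (A ×ˢ B) :=
  (prod_aux hA hB).1

theorem ev_prod_iff {A : Set X} {B : Set Y} (hA : Irr A) (hB : Irr B) {p : X → Y → Prop}
    (hp : DfP fun z : X × Y => p z.1 z.2) :
    (∀ᶠ z in gen (A ×ˢ B), p z.1 z.2) ↔ ∀ᶠ x in gen A, ∀ᶠ y in gen B, p x y := by
  rw [(prod_aux hA hB).2.2 _ hp]
  refine eventually_congr ?_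
  filter_upwards [ev_mem A] with x hx
  have h1 : {y | (x, y) ∈ A ×ˢ B} = B := by
    ext y
    exact ⟨fun h => h.2, fun h => ⟨hx, h⟩⟩
  rw [h1]

private theorem comm_aux {A : Set X} {B : Set Y} (hA : Irr A) (hB : Irr B) {p : X → Y → Prop}
    (hp : DfP fun z : X × Y => p z.1 z.2)
    (h : ∀ᶠ x in gen A, ∀ᶠ y in gen B, p x y) : ∀ᶠ y in gen B, ∀ᶠ x in gen A, p x y := by
  have hp' : DfP fun z : Y × X => p z.2 z.1 :=
    DfP.comp (f := fun z : Y × X => (z.2, z.1)) hp (DfFun.pair DfFun.snd DfFun.fst)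
  rw [← ev_prod_iff hB hA (p := fun y x => p x y) hp', ev_iff (hB.prod hA).df hp']
  rw [← ev_prod_iff hA hB hp, ev_iff (hA.prod hB).df hp] at h
  have h1 : {z : Y × X | z ∈ B ×ˢ A ∧ ¬ p z.2 z.1} =
      {z : Y × X | (z.2, z.1) ∈ {z : X × Y | z ∈ A ×ˢ B ∧ ¬ p z.1 z.2}} := by
    ext ⟨y, x⟩
    constructor
    · rintro ⟨⟨h1, h2⟩, h3⟩
      exact ⟨⟨h2, h1⟩, h3⟩
    · rintro ⟨⟨h1, h2⟩, h3⟩
      exact ⟨⟨h2, h1⟩, h3⟩
  have h2 : B ×ˢ A = {z : Y × X | (z.2, z.1) ∈ A ×ˢ B} := by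
    ext ⟨y, x⟩
    exact ⟨fun h => ⟨h.2, h.1⟩, fun h => ⟨h.2, h.1⟩⟩
  have hdf : Df {z : X × Y | z ∈ A ×ˢ B ∧ ¬ p z.1 z.2} :=
    (hA.prod hB).df.inter (DfP.not hp)
  rw [h1, h2]
  rcases h with h | h
  · left
    rw [h]
    rfl
  · right
    rw [rk_prod_swap hdf, rk_prod_swap (hA.prod hB).df]
    exact h

theorem ev_comm {A : Set X} {B : Set Y} (hA : Irr A) (hB : Irr B) {p : X → Y → Prop}
    (hp : DfP fun z : X × Y => p z.1 z.2) :
    (∀ᶠ x in gen A, ∀ᶠ y in gen B, p x y) ↔ ∀ᶠ y in gen B, ∀ᶠ x in gen A, p x y := by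
  refine ⟨comm_aux hA hB hp, ?_⟩
  have hp' : DfP fun z : Y × X => p z.2 z.1 :=
    DfP.comp (f := fun z : Y × X => (z.2, z.1)) hp (DfFun.pair DfFun.snd DfFun.fst)
  exact comm_aux hB hA (p := fun y x => p x y) hp'

end Pool.Agent.A1C
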