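import Pool.Agent.A1C.GC4

/-!
# Setup: the situation after Part 0, and the basic definitions of Parts A-F (final file)

`N = C ∪ w C`, `I = invs G`. `S.cl l` is `C_l`, `pol l` the polar of `l`, `Tor j k` = the pair is toral, `S.LineGrp L` = line group,
`line L` = set of involutions inverting `L`.
-/

namespace Pool.Agent.A1C

universe u

/-- involutions -/
def IsInv {G : Type u} [Group G] (j : G) : Prop := j * j = 1 ∧ j ≠ 1

/-- the set of involutions -/
def invs (G : Type u) [Group G] : Set G := {j | IsInv j}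

/-- the polar of `l`: the other involutions commuting with `l` -/
def pol {G : Type u} [Group G] (l : G) : Set G := {j | IsInv j ∧ j ≠ l ∧ j * l = l * j}

/-- the pair `(j, k)` is toral: `j` and `k` have a common polar -/
def Tor {G : Type u} [Group G] (j k : G) : Prop := ∃ l, IsInv l ∧ j ∈ pol l ∧ k ∈ pol l

open Classical in
/-- the pole of a toral pair -/
noncomputable def pole {G : Type u} [Group G] (j k : G) : G :=
  if h : ∃ l, IsInv l ∧ j ∈ pol l ∧ k ∈ pol l then h.choose else 1

/-- the involutions inverting `L` -/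
def line {G : Type u} [Group G] (L : Subgroup G) : Set G :=
  {j | IsInv j ∧ ∀ x ∈ L, j * x * j = x⁻¹}

/-- the situation after Part 0 of the paper proof -/
structure Setup {M : Type u} [Univ M] (G : Type u) [Group G] [DGrp M G] where
  C : Subgroup G
  i : G
  w : G
  irr : Irr (Set.univ : Set G)
  dfC : Df (C : Set G)
  irrC : Irr (C : Set G)
  comm : ∀ x ∈ C, ∀ y ∈ C, x * y = y * x
  sqrt : ∀ x ∈ C, ∃ y ∈ C, y * y = x
  i_mem : i ∈ C
  i_inv : IsInv i
  i_uniq : ∀ x ∈ C, x * x = 1 → x = 1 ∨ x = i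
  w_notMem : w ∉ C
  w_inv : IsInv w
  w_inverts : ∀ x ∈ C, w * x * w = x⁻¹
  ti : ∀ g x, x ∈ C → x ≠ 1 → g⁻¹ * x * g ∈ C → g ∈ C ∨ w * g ∈ C
  inv_conj : ∀ j : G, IsInv j → ∃ g, j = g⁻¹ * i * g
  cover : rk {y : G | ∃ g, ∃ x ∈ C, y = g⁻¹ * x * g} = rk (Set.univ : Set G)

namespace Setup

variable {M : Type u} [Univ M] {G : Type u} [Group G] [DGrp M G] (S : Setup G)

open Classical in
/-- `C_l` for an involution `l` (`⊥` otherwise) -/
noncomputable def cl (l : G) : Subgroup G :=
  if h : ∃ g, l = g⁻¹ * S.i * g then cj S.C h.choose else ⊥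

/-- line groups: the `C_l`, and the centralisers of the products of unipotent pairs -/
def LineGrp (L : Subgroup G) : Prop :=
  (∃ l, IsInv l ∧ L = S.cl l) ∨
    (∃ j k, IsInv j ∧ IsInv k ∧ j ≠ k ∧ ¬ Tor j k ∧ L = cen (j * k))

end Setup

end Pool.Agent.A1C
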